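import Pool.Agent.N679.RG.Stm

/-!
# Part ABS of project RG: abstract second moment argument
-/

set_option autoImplicit false

namespace Pool.Agent.N679.RG.ABS

open Finset

/-- number of the configurations with a prescribed kind of pair at two places -/
lemma cnt {ι U : Type*} [Fintype ι] [DecidableEq ι] [DecidableEq U] (V W : Finset U)
    (Bd : Finset (U × U)) (x x' : ι) (h : x ≠ x') :
    ((Fintype.piFinset (fun _ : ι => V)).filter
      (fun H => (H x, H x') ∈ Bd ∧ ∀ y, H y ∈ W)).card ≤ Bd.card * W.card ^ (Fintype.card ι - 2) := by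
  classical
  have hsub : ((Fintype.piFinset (fun _ : ι => V)).filter
      (fun H => (H x, H x') ∈ Bd ∧ ∀ y, H y ∈ W)) ⊆
      Bd.biUnion (fun p => Fintype.piFinset
        (fun y => if y = x then {p.1} else if y = x' then {p.2} else W)) := by
    intro H hH
    rw [mem_filter] at hH
    rw [mem_biUnion]
    refine ⟨(H x, H x'), hH.2.1, ?_⟩
    rw [Fintype.mem_piFinset]
    intro y
    by_cases h1 : y = x
    · subst h1; simp
    · by_cases h2 : y = x'
      · subst h2; simp [h1]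
      · simp [h1, h2, hH.2.2 y]
  refine (card_le_card hsub).trans (card_biUnion_le.trans ?_)
  have hc : ∀ p ∈ Bd, (Fintype.piFinset
        (fun y : ι => if y = x then ({p.1} : Finset U) else if y = x' then {p.2} else W)).card =
        W.card ^ (Fintype.card ι - 2) := by
    intro p _
    rw [Fintype.card_piFinset]
    have : ∀ y : ι, (if y = x then ({p.1} : Finset U) else if y = x' then {p.2} else W).card =
        if y ∈ ({x, x'} : Finset ι) then 1 else W.card := by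
      intro y
      by_cases h1 : y = x
      · subst h1; simp
      · by_cases h2 : y = x'
        · subst h2; simp [h1]
        · simp [h1, h2]
    rw [Finset.prod_congr rfl (fun y _ => this y), Finset.prod_ite, Finset.prod_const_one, one_mul,
      Finset.prod_const]
    congr 1
    have : (univ.filter (fun y => y ∉ ({x, x'} : Finset ι))) = ({x, x'} : Finset ι)ᶜ := by
      ext y; simp
    rw [this, card_compl, card_pair h]
  rw [sum_congr rfl hc, sum_const, smul_eq_mul]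

/-- the double Cauchy-Schwarz inequality -/
lemma cs (Ω : Finset ℕ) (B b w : ℕ → ℝ) (N C Q X : ℝ) (k : ℕ) (hk : 2 ≤ k) (hC : 0 < C)
    (hN : 0 < N) (hX : 0 ≤ X) (hb : ∀ n, 0 ≤ b n) (hw : ∀ n, 0 ≤ w n)
    (hbw : ∀ n, b n ≤ w n ^ 2) (h1 : ∑ n ∈ Ω, b n ≤ Q * N * X ^ 2)
    (h2 : ∑ n ∈ Ω, B n ^ 4 ≤ C * N) (h3 : ∑ n ∈ Ω, w n ^ (4 * (k - 1)) ≤ C * N * X ^ (4 * (k - 1)))
    (hQ : 0 ≤ Q) :
    ∑ n ∈ Ω, B n * b n * w n ^ (k - 2) ≤ Real.sqrt (Q * C) * N * X ^ k := by
  have e4 : ∑ n ∈ Ω, B n ^ 2 * w n ^ (2 * (k - 1)) ≤ C * N * X ^ (2 * (k - 1)) := by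
    have := Finset.sum_mul_sq_le_sq_mul_sq Ω (fun n => B n ^ 2) (fun n => w n ^ (2 * (k - 1)))
    have e1 : ∑ n ∈ Ω, (B n ^ 2) ^ 2 = ∑ n ∈ Ω, B n ^ 4 :=
      Finset.sum_congr rfl (fun n _ => by ring)
    have e2 : ∑ n ∈ Ω, (w n ^ (2 * (k - 1))) ^ 2 = ∑ n ∈ Ω, w n ^ (4 * (k - 1)) :=
      Finset.sum_congr rfl (fun n _ => by rw [← pow_mul]; congr 1; ring)
    rw [e1, e2] at this
    have h5 : (∑ n ∈ Ω, B n ^ 4) * ∑ n ∈ Ω, w n ^ (4 * (k - 1)) ≤
        (C * N * X ^ (2 * (k - 1))) ^ 2 := by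
      calc _ ≤ (C * N) * (C * N * X ^ (4 * (k - 1))) :=
            mul_le_mul h2 h3 (Finset.sum_nonneg (fun n _ => by have := hw n; positivity))
              (by positivity)
        _ = _ := by
            rw [mul_pow, ← pow_mul, show 2 * (k - 1) * 2 = 4 * (k - 1) by ring]; ring
    exact (le_abs_self _).trans (abs_le_of_sq_le_sq (this.trans h5) (by positivity))
  have e5 := Finset.sum_mul_sq_le_sq_mul_sq Ω (fun n => Real.sqrt (b n))
    (fun n => B n * Real.sqrt (b n) * w n ^ (k - 2))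
  have e6 : ∑ n ∈ Ω, Real.sqrt (b n) * (B n * Real.sqrt (b n) * w n ^ (k - 2)) =
      ∑ n ∈ Ω, B n * b n * w n ^ (k - 2) := by
    refine Finset.sum_congr rfl (fun n _ => ?_)
    have := Real.mul_self_sqrt (hb n)
    calc _ = B n * (Real.sqrt (b n) * Real.sqrt (b n)) * w n ^ (k - 2) := by ring
      _ = _ := by rw [this]
  have e7 : ∑ n ∈ Ω, Real.sqrt (b n) ^ 2 = ∑ n ∈ Ω, b n :=
    Finset.sum_congr rfl (fun n _ => Real.sq_sqrt (hb n))
  have e8 : ∑ n ∈ Ω, (B n * Real.sqrt (b n) * w n ^ (k - 2)) ^ 2 ≤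
      ∑ n ∈ Ω, B n ^ 2 * w n ^ (2 * (k - 1)) := by
    refine Finset.sum_le_sum (fun n _ => ?_)
    have hw' := hw n
    calc (B n * Real.sqrt (b n) * w n ^ (k - 2)) ^ 2
        = B n ^ 2 * Real.sqrt (b n) ^ 2 * w n ^ (2 * (k - 2)) := by
          rw [mul_pow, mul_pow, ← pow_mul, mul_comm (k - 2) 2]
      _ = B n ^ 2 * b n * w n ^ (2 * (k - 2)) := by rw [Real.sq_sqrt (hb n)]
      _ ≤ B n ^ 2 * w n ^ 2 * w n ^ (2 * (k - 2)) := by
          have := hbw n
          gcongr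
      _ = B n ^ 2 * w n ^ (2 * (k - 1)) := by
          rw [mul_assoc, ← pow_add]; congr 2; omega
  rw [e6, e7] at e5
  have hb0 : 0 ≤ ∑ n ∈ Ω, b n := Finset.sum_nonneg (fun n _ => hb n)
  have e9 : (∑ n ∈ Ω, B n * b n * w n ^ (k - 2)) ^ 2 ≤ (Real.sqrt (Q * C) * N * X ^ k) ^ 2 := by
    calc _ ≤ (Q * N * X ^ 2) * (C * N * X ^ (2 * (k - 1))) := by
          refine e5.trans (mul_le_mul h1 (e8.trans e4) ?_ (by positivity))
          exact Finset.sum_nonneg (fun n _ => by positivity)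
      _ = (Q * C) * N ^ 2 * X ^ (2 + 2 * (k - 1)) := by rw [pow_add]; ring
      _ = _ := by
          rw [mul_pow, mul_pow, Real.sq_sqrt (by positivity), ← pow_mul]
          congr 2; omega
  exact (le_abs_self _).trans (abs_le_of_sq_le_sq e9 (by positivity))

/-- abstract form -/
theorem main {ι U : Type*} [Fintype ι] [DecidableEq ι] [DecidableEq U] (V : Finset U) (Ω : Finset ℕ)
    (R P : ℕ → U → Prop) (B : ℕ → ℝ) (N l c C κ : ℝ) (hN : 0 < N) (hl : 0 < l) (hC : 0 < C)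
    (hκ : 0 < κ) (hPR : ∀ n u, P n u → R n u) (hB : ∀ n, 0 ≤ B n)
    (bad : U × U → Prop) [DecidablePred bad] [∀ n, DecidablePred (R n)] [∀ n, DecidablePred (P n)]
    (hbad : ∀ p, bad p → ((Ω.filter (fun n => P n p.1 ∧ P n p.2)).card : ℝ) ≤ κ * (N / l ^ 2))
    (hmom : ∀ r : ℕ, r ≤ 4 * Fintype.card ι →
      ∑ n ∈ Ω, ((V.filter (fun u => R n u)).card : ℝ) ^ r ≤ C * N * (V.card / l) ^ r)
    (hB4 : ∑ n ∈ Ω, B n ^ 4 ≤ C * N)
    (Hs : Finset (ι → U)) (hV : ∀ H ∈ Hs, ∀ x, H x ∈ V)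
    (hH : ∀ H ∈ Hs, ∃ x x' : ι, x ≠ x' ∧ bad (H x, H x') ∧
      c * (N / l ^ Fintype.card ι) ≤
        ∑ n ∈ Ω.filter (fun n => (∀ y, R n (H y)) ∧ P n (H x) ∧ P n (H x')), B n) :
    (Hs.card : ℝ) * (c * (N / l ^ Fintype.card ι)) ≤
      (Fintype.card ι : ℝ) ^ 2 * (Real.sqrt (κ * C) * N * (V.card / l) ^ Fintype.card ι) := by
  classical
  set k := Fintype.card ι with hk
  set W : ℕ → Finset U := fun n => V.filter (fun u => R n u) with hW
  set Bd : ℕ → Finset (U × U) := fun n => (V ×ˢ V).filter (fun p => bad p ∧ P n p.1 ∧ P n p.2)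
    with hBd
  -- sum of the sizes
  have s1 : ∑ n ∈ Ω, ((Bd n).card : ℝ) ≤ κ * N * (V.card / l) ^ 2 := by
    have : ∑ n ∈ Ω, ((Bd n).card : ℝ) =
        ∑ p ∈ (V ×ˢ V).filter bad, ((Ω.filter (fun n => P n p.1 ∧ P n p.2)).card : ℝ) := by
      have a1 : ∀ n ∈ Ω, ((Bd n).card : ℝ) =
          ∑ p ∈ (V ×ˢ V).filter bad, if P n p.1 ∧ P n p.2 then (1 : ℝ) else 0 := by
        intro n _
        rw [Finset.sum_boole, Finset.filter_filter]
      rw [Finset.sum_congr rfl a1, Finset.sum_comm]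
      refine Finset.sum_congr rfl (fun p _ => ?_)
      rw [Finset.sum_boole]
    rw [this]
    calc _ ≤ ∑ p ∈ (V ×ˢ V).filter bad, κ * (N / l ^ 2) :=
          Finset.sum_le_sum (fun p hp => hbad p (mem_filter.1 hp).2)
      _ = (((V ×ˢ V).filter bad).card : ℝ) * (κ * (N / l ^ 2)) := by rw [sum_const, nsmul_eq_mul]
      _ ≤ ((V.card : ℝ) ^ 2) * (κ * (N / l ^ 2)) := by
          have : (((V ×ˢ V).filter bad).card : ℝ) ≤ (V.card : ℝ) ^ 2 := by
            have := card_filter_le (V ×ˢ V) bad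
            rw [card_product] at this
            have h' : (((V ×ˢ V).filter bad).card : ℝ) ≤ ((V.card * V.card : ℕ) : ℝ) := by
              exact_mod_cast this
            rw [Nat.cast_mul] at h'
            nlinarith
          gcongr
      _ = κ * N * (V.card / l) ^ 2 := by field_simp
  have s2 : ∀ n, ((Bd n).card : ℝ) ≤ ((W n).card : ℝ) ^ 2 := by
    intro n
    have : (Bd n) ⊆ (W n) ×ˢ (W n) := by
      intro p hp
      rw [hBd] at hp
      simp only [mem_filter, mem_product] at hp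
      rw [mem_product]
      simp only [hW, mem_filter]
      exact ⟨⟨hp.1.1, hPR _ _ hp.2.2.1⟩, ⟨hp.1.2, hPR _ _ hp.2.2.2⟩⟩
    have h' := card_le_card this
    rw [card_product] at h'
    have h'' : ((Bd n).card : ℝ) ≤ (((W n).card * (W n).card : ℕ) : ℝ) := by exact_mod_cast h'
    rw [Nat.cast_mul] at h''
    nlinarith
  -- the sum for a pair of places
  have s3 : ∀ x x' : ι, x ≠ x' →
      ∑ H ∈ Hs.filter (fun H => bad (H x, H x')),
        ∑ n ∈ Ω.filter (fun n => (∀ y, R n (H y)) ∧ P n (H x) ∧ P n (H x')), B n ≤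
      Real.sqrt (κ * C) * N * (V.card / l) ^ k := by
    intro x x' hx
    have hk2 : 2 ≤ k := by
      have := Finset.card_le_univ ({x, x'} : Finset ι)
      rwa [card_pair hx] at this
    have c1 : ∑ H ∈ Hs.filter (fun H => bad (H x, H x')),
        ∑ n ∈ Ω.filter (fun n => (∀ y, R n (H y)) ∧ P n (H x) ∧ P n (H x')), B n ≤
        ∑ n ∈ Ω, B n * ((Bd n).card : ℝ) * ((W n).card : ℝ) ^ (k - 2) := by
      have a1 : ∀ H ∈ Hs.filter (fun H => bad (H x, H x')),
          ∑ n ∈ Ω.filter (fun n => (∀ y, R n (H y)) ∧ P n (H x) ∧ P n (H x')), B n =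
          ∑ n ∈ Ω, if ((∀ y, R n (H y)) ∧ P n (H x) ∧ P n (H x')) then B n else 0 := by
        intro H _
        rw [Finset.sum_filter]
      rw [Finset.sum_congr rfl a1, Finset.sum_comm]
      refine Finset.sum_le_sum (fun n hn => ?_)
      rw [← Finset.sum_filter, Finset.sum_const, nsmul_eq_mul, mul_assoc, mul_comm]
      refine mul_le_mul_of_nonneg_left ?_ (hB n)
      have hc := cnt V (W n) (Bd n) x x' hx
      have hsub : (Hs.filter (fun H => bad (H x, H x'))).filter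
          (fun H => (∀ y, R n (H y)) ∧ P n (H x) ∧ P n (H x')) ⊆
          ((Fintype.piFinset (fun _ : ι => V)).filter
            (fun H => (H x, H x') ∈ Bd n ∧ ∀ y, H y ∈ W n)) := by
        intro H h
        simp only [mem_filter] at h
        obtain ⟨⟨h1, h2⟩, h3, h4, h5⟩ := h
        have hv := hV H h1
        simp only [mem_filter, Fintype.mem_piFinset, hBd, hW, mem_product]
        exact ⟨hv, ⟨⟨hv x, hv x'⟩, h2, h4, h5⟩, fun y => ⟨hv y, h3 y⟩⟩
      have := (card_le_card hsub).trans hc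
      exact_mod_cast this
    refine c1.trans ?_
    refine cs Ω B (fun n => ((Bd n).card : ℝ)) (fun n => ((W n).card : ℝ)) N C κ (V.card / l) k hk2 hC
      hN (by positivity) (fun n => by positivity) (fun n => by positivity) s2 s1 hB4 ?_ hκ.le
    exact hmom (4 * (k - 1)) (by omega)
  -- assembly
  have hsum : (Hs.card : ℝ) * (c * (N / l ^ k)) ≤
      ∑ H ∈ Hs, ∑ q ∈ (univ : Finset (ι × ι)).filter (fun q => q.1 ≠ q.2),
        if bad (H q.1, H q.2) then
          ∑ n ∈ Ω.filter (fun n => (∀ y, R n (H y)) ∧ P n (H q.1) ∧ P n (H q.2)), B n else 0 := by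
    rw [← nsmul_eq_mul, ← Finset.sum_const]
    refine Finset.sum_le_sum (fun H hh => ?_)
    obtain ⟨x, x', hx, hb, hle⟩ := hH H hh
    refine hle.trans ?_
    have hmem : (x, x') ∈ (univ : Finset (ι × ι)).filter (fun q => q.1 ≠ q.2) := by
      simp [hx]
    refine le_trans ?_ (Finset.single_le_sum (f := fun q : ι × ι => if bad (H q.1, H q.2) then
          ∑ n ∈ Ω.filter (fun n => (∀ y, R n (H y)) ∧ P n (H q.1) ∧ P n (H q.2)), B n else 0)
      (fun q _ => ?_) hmem)
    · simp only [hb, if_true]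
      exact le_rfl
    · split_ifs
      · exact Finset.sum_nonneg (fun n _ => hB n)
      · exact le_rfl
  refine hsum.trans ?_
  rw [Finset.sum_comm]
  have hq : ∀ q ∈ (univ : Finset (ι × ι)).filter (fun q => q.1 ≠ q.2),
      ∑ H ∈ Hs, (if bad (H q.1, H q.2) then
          ∑ n ∈ Ω.filter (fun n => (∀ y, R n (H y)) ∧ P n (H q.1) ∧ P n (H q.2)), B n else 0) ≤
      Real.sqrt (κ * C) * N * (V.card / l) ^ k := by
    intro q hq
    rw [← Finset.sum_filter]
    exact s3 q.1 q.2 (mem_filter.1 hq).2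
  refine (Finset.sum_le_sum hq).trans ?_
  rw [Finset.sum_const, nsmul_eq_mul]
  have hcard : (((univ : Finset (ι × ι)).filter (fun q => q.1 ≠ q.2)).card : ℝ) ≤ (k : ℝ) ^ 2 := by
    have := card_filter_le (univ : Finset (ι × ι)) (fun q => q.1 ≠ q.2)
    rw [card_univ, Fintype.card_prod] at this
    have h' : (((univ : Finset (ι × ι)).filter (fun q => q.1 ≠ q.2)).card : ℝ) ≤
        ((Fintype.card ι * Fintype.card ι : ℕ) : ℝ) := by exact_mod_cast this
    rw [Nat.cast_mul] at h'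
    nlinarith
  gcongr

end Pool.Agent.N679.RG.ABS

namespace Pool.Agent.N679.RG

open Finset

theorem t_ABS : S_ABS := by
  classical
  intro T K M c C δ' hc hC hδ
  set k : ℕ := T * K with hk
  set s : ℝ := c * δ' / ((k : ℝ) ^ 2 + 1) with hs
  have hs0 : 0 < s := by positivity
  refine ⟨s ^ 2 / C, by positivity, ?_⟩
  intro V Ω R P B N l hN hl hPR hB hmom hB4 hH
  set κ : ℝ := s ^ 2 / C with hκ
  have hκ0 : 0 < κ := by positivity
  have hcard : Fintype.card (Fin T × Fin K) = k := by simp [hk]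
  have key := ABS.main V Ω R P B N l c C κ hN hl hC hκ0 hPR hB
    (fun p => ((Ω.filter (fun n => P n p.1 ∧ P n p.2)).card : ℝ) < κ * (N / l ^ 2))
    (fun p hp => hp.le) (by rw [hcard]; intro r hr; convert hmom r hr) hB4
    (((Fintype.piFinset (fun _ : Fin T × Fin K => V)).filter (fun H => Function.Injective H ∧
      ¬ ∃ (S : Finset (Fin T)) (σ : Fin T → Fin K), M + 1 ≤ S.card ∧ ∀ g ∈ S, ∀ g' ∈ S, g ≠ g' →
        κ * (N / l ^ 2) ≤ ((Ω.filter (fun n => P n (H (g, σ g)) ∧ P n (H (g', σ g')))).card : ℝ))))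
    (fun H hh x => by
      rw [mem_filter, Fintype.mem_piFinset] at hh
      exact hh.1 x)
    (fun H hh => by
      rw [mem_filter, Fintype.mem_piFinset] at hh
      obtain ⟨hv, hinj, hno⟩ := hh
      obtain ⟨S, σ, hS, hsum⟩ := hH H hinj hv
      have : ∃ g ∈ S, ∃ g' ∈ S, g ≠ g' ∧
          ((Ω.filter (fun n => P n (H (g, σ g)) ∧ P n (H (g', σ g')))).card : ℝ) <
            κ * (N / l ^ 2) := by
        by_contra hcon
        push Not at hcon
        exact hno ⟨S, σ, hS, hcon⟩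
      obtain ⟨g, hg, g', hg', hne, hlt⟩ := this
      refine ⟨(g, σ g), (g', σ g'), fun h => hne (congrArg Prod.fst h), hlt, ?_⟩
      rw [hcard]
      refine hsum.trans ?_
      refine Finset.sum_le_sum_of_subset_of_nonneg ?_ (fun n _ _ => hB n)
      intro n hn
      rw [mem_filter] at hn ⊢
      exact ⟨hn.1, hn.2.1, hn.2.2 g hg, hn.2.2 g' hg'⟩)
  rw [hcard] at key
  have hsq : Real.sqrt (κ * C) = s := by
    rw [hκ, div_mul_cancel₀ _ hC.ne', Real.sqrt_sq hs0.le]
  rw [hsq] at key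
  set X := (((Fintype.piFinset (fun _ : Fin T × Fin K => V)).filter (fun H => Function.Injective H ∧
      ¬ ∃ (S : Finset (Fin T)) (σ : Fin T → Fin K), M + 1 ≤ S.card ∧ ∀ g ∈ S, ∀ g' ∈ S, g ≠ g' →
        κ * (N / l ^ 2) ≤
          ((Ω.filter (fun n => P n (H (g, σ g)) ∧ P n (H (g', σ g')))).card : ℝ)))) with hX
  have hfin : (X.card : ℝ) ≤ δ' * (V.card : ℝ) ^ k := by
    have h1 : (X.card : ℝ) * (c * (N / l ^ k)) ≤ (δ' * (V.card : ℝ) ^ k) * (c * (N / l ^ k)) := by
      refine key.trans ?_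
      have h2 : (k : ℝ) ^ 2 * s ≤ c * δ' := by
        rw [hs, mul_div_assoc', div_le_iff₀ (by positivity)]
        nlinarith [mul_pos hc hδ, sq_nonneg (k : ℝ)]
      calc (k : ℝ) ^ 2 * (s * N * ((V.card : ℝ) / l) ^ k)
          = ((k : ℝ) ^ 2 * s) * (N * ((V.card : ℝ) / l) ^ k) := by ring
        _ ≤ (c * δ') * (N * ((V.card : ℝ) / l) ^ k) :=
            mul_le_mul_of_nonneg_right h2 (by positivity)
        _ = (δ' * (V.card : ℝ) ^ k) * (c * (N / l ^ k)) := by
            rw [div_pow]; ring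
    exact le_of_mul_le_mul_right h1 (by positivity)
  convert hfin

end Pool.Agent.N679.RG
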