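import Pool.Agent.N679.RG.Stm5

/-!
# Part ABSK of project RN: abstract moment argument for subsets of `L` elements
-/

set_option autoImplicit false

namespace Pool.Agent.N679.RG.ABSK

open Finset

/-- number of the configurations with a prescribed kind of tuple at `L` places -/
lemma cnt {ι U : Type*} [Fintype ι] [DecidableEq ι] [DecidableEq U] {L : ℕ} (V W : Finset U)
    (Bd : Finset (Fin L → U)) (y : Fin L → ι) (hy : Function.Injective y) :
    ((Fintype.piFinset (fun _ : ι => V)).filter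
      (fun H => (fun i => H (y i)) ∈ Bd ∧ ∀ z, H z ∈ W)).card ≤ Bd.card * W.card ^ (Fintype.card ι - L) := by
  classical
  have hsub : ((Fintype.piFinset (fun _ : ι => V)).filter
      (fun H => (fun i => H (y i)) ∈ Bd ∧ ∀ z, H z ∈ W)) ⊆
      Bd.biUnion (fun p => Fintype.piFinset
        (fun z => if h : ∃ i, y i = z then {p h.choose} else W)) := by
    intro H hH
    rw [mem_filter] at hH
    rw [mem_biUnion]
    refine ⟨fun i => H (y i), hH.2.1, ?_⟩
    rw [Fintype.mem_piFinset]
    intro z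
    by_cases h1 : ∃ i, y i = z
    · rw [dif_pos h1, mem_singleton]
      show H z = H (y h1.choose)
      rw [h1.choose_spec]
    · rw [dif_neg h1]
      exact hH.2.2 z
  refine (card_le_card hsub).trans (card_biUnion_le.trans ?_)
  have hc : ∀ p ∈ Bd, (Fintype.piFinset
        (fun z : ι => if h : ∃ i, y i = z then ({p h.choose} : Finset U) else W)).card =
        W.card ^ (Fintype.card ι - L) := by
    intro p _
    rw [Fintype.card_piFinset]
    have : ∀ z : ι, (if h : ∃ i, y i = z then ({p h.choose} : Finset U) else W).card =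
        if z ∈ univ.image y then 1 else W.card := by
      intro z
      by_cases h1 : ∃ i, y i = z
      · rw [dif_pos h1, card_singleton, if_pos]
        obtain ⟨i, hi⟩ := h1
        exact mem_image.2 ⟨i, mem_univ _, hi⟩
      · rw [dif_neg h1, if_neg]
        intro h2
        obtain ⟨i, _, hi⟩ := mem_image.1 h2
        exact h1 ⟨i, hi⟩
    rw [Finset.prod_congr rfl (fun z _ => this z), Finset.prod_ite, Finset.prod_const_one, one_mul,
      Finset.prod_const]
    congr 1
    have : (univ.filter (fun z => z ∉ univ.image y)) = (univ.image y)ᶜ := by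
      ext z; simp
    rw [this, card_compl, card_image_of_injective _ hy, card_univ, Fintype.card_fin]
  rw [sum_congr rfl hc, sum_const, smul_eq_mul]

/-- the double Cauchy-Schwarz inequality -/
lemma cs (Ω : Finset ℕ) (B b w : ℕ → ℝ) (N C Q X : ℝ) (k L : ℕ) (hk : L ≤ k) (hC : 0 < C)
    (hN : 0 < N) (hX : 0 ≤ X) (hb : ∀ n, 0 ≤ b n) (hw : ∀ n, 0 ≤ w n)
    (hbw : ∀ n, b n ≤ w n ^ L) (h1 : ∑ n ∈ Ω, b n ≤ Q * N * X ^ L)
    (h2 : ∑ n ∈ Ω, B n ^ 4 ≤ C * N)
    (h3 : ∑ n ∈ Ω, w n ^ (2 * (2 * k - L)) ≤ C * N * X ^ (2 * (2 * k - L)))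
    (hQ : 0 ≤ Q) :
    ∑ n ∈ Ω, B n * b n * w n ^ (k - L) ≤ Real.sqrt (Q * C) * N * X ^ k := by
  have e4 : ∑ n ∈ Ω, B n ^ 2 * w n ^ (2 * k - L) ≤ C * N * X ^ (2 * k - L) := by
    have := Finset.sum_mul_sq_le_sq_mul_sq Ω (fun n => B n ^ 2) (fun n => w n ^ (2 * k - L))
    have e1 : ∑ n ∈ Ω, (B n ^ 2) ^ 2 = ∑ n ∈ Ω, B n ^ 4 :=
      Finset.sum_congr rfl (fun n _ => by ring)
    have e2 : ∑ n ∈ Ω, (w n ^ (2 * k - L)) ^ 2 = ∑ n ∈ Ω, w n ^ (2 * (2 * k - L)) :=
      Finset.sum_congr rfl (fun n _ => by rw [← pow_mul, mul_comm (2 * k - L) 2])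
    rw [e1, e2] at this
    have h5 : (∑ n ∈ Ω, B n ^ 4) * ∑ n ∈ Ω, w n ^ (2 * (2 * k - L)) ≤
        (C * N * X ^ (2 * k - L)) ^ 2 := by
      calc _ ≤ (C * N) * (C * N * X ^ (2 * (2 * k - L))) :=
            mul_le_mul h2 h3 (Finset.sum_nonneg (fun n _ => by have := hw n; positivity))
              (by positivity)
        _ = _ := by
            rw [mul_pow, ← pow_mul, mul_comm (2 * k - L) 2]; ring
    exact (le_abs_self _).trans (abs_le_of_sq_le_sq (this.trans h5) (by positivity))
  have e5 := Finset.sum_mul_sq_le_sq_mul_sq Ω (fun n => Real.sqrt (b n))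
    (fun n => B n * Real.sqrt (b n) * w n ^ (k - L))
  have e6 : ∑ n ∈ Ω, Real.sqrt (b n) * (B n * Real.sqrt (b n) * w n ^ (k - L)) =
      ∑ n ∈ Ω, B n * b n * w n ^ (k - L) := by
    refine Finset.sum_congr rfl (fun n _ => ?_)
    have := Real.mul_self_sqrt (hb n)
    calc _ = B n * (Real.sqrt (b n) * Real.sqrt (b n)) * w n ^ (k - L) := by ring
      _ = _ := by rw [this]
  have e7 : ∑ n ∈ Ω, Real.sqrt (b n) ^ 2 = ∑ n ∈ Ω, b n :=
    Finset.sum_congr rfl (fun n _ => Real.sq_sqrt (hb n))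
  have e8 : ∑ n ∈ Ω, (B n * Real.sqrt (b n) * w n ^ (k - L)) ^ 2 ≤
      ∑ n ∈ Ω, B n ^ 2 * w n ^ (2 * k - L) := by
    refine Finset.sum_le_sum (fun n _ => ?_)
    have hw' := hw n
    calc (B n * Real.sqrt (b n) * w n ^ (k - L)) ^ 2
        = B n ^ 2 * Real.sqrt (b n) ^ 2 * w n ^ (2 * (k - L)) := by
          rw [mul_pow, mul_pow, ← pow_mul, mul_comm (k - L) 2]
      _ = B n ^ 2 * b n * w n ^ (2 * (k - L)) := by rw [Real.sq_sqrt (hb n)]
      _ ≤ B n ^ 2 * w n ^ L * w n ^ (2 * (k - L)) := by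
          have := hbw n
          gcongr
      _ = B n ^ 2 * w n ^ (2 * k - L) := by
          rw [mul_assoc, ← pow_add]; congr 2; omega
  rw [e6, e7] at e5
  have hb0 : 0 ≤ ∑ n ∈ Ω, b n := Finset.sum_nonneg (fun n _ => hb n)
  have e9 : (∑ n ∈ Ω, B n * b n * w n ^ (k - L)) ^ 2 ≤ (Real.sqrt (Q * C) * N * X ^ k) ^ 2 := by
    calc _ ≤ (Q * N * X ^ L) * (C * N * X ^ (2 * k - L)) := by
          refine e5.trans (mul_le_mul h1 (e8.trans e4) ?_ (by positivity))
          exact Finset.sum_nonneg (fun n _ => by positivity)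
      _ = (Q * C) * N ^ 2 * X ^ (L + (2 * k - L)) := by rw [pow_add]; ring
      _ = _ := by
          rw [mul_pow, mul_pow, Real.sq_sqrt (by positivity), ← pow_mul]
          congr 2; omega
  exact (le_abs_self _).trans (abs_le_of_sq_le_sq e9 (by positivity))

/-- abstract form -/
theorem main {ι U : Type*} [Fintype ι] [DecidableEq ι] [DecidableEq U] (L : ℕ) (V : Finset U) (Ω : Finset ℕ)
    (R P : ℕ → U → Prop) (B : ℕ → ℝ) (N l c C κ : ℝ) (hN : 0 < N) (hl : 0 < l) (hC : 0 < C)
    (hκ : 0 < κ) (hPR : ∀ n u, P n u → R n u) (hB : ∀ n, 0 ≤ B n)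
    (bad : (Fin L → U) → Prop) [DecidablePred bad] [∀ n, DecidablePred (R n)] [∀ n, DecidablePred (P n)]
    (hbad : ∀ p, bad p → ((Ω.filter (fun n => ∀ i, P n (p i))).card : ℝ) ≤ κ * (N / l ^ L))
    (hmom : ∀ r : ℕ, r ≤ 4 * Fintype.card ι →
      ∑ n ∈ Ω, ((V.filter (fun u => R n u)).card : ℝ) ^ r ≤ C * N * (V.card / l) ^ r)
    (hB4 : ∑ n ∈ Ω, B n ^ 4 ≤ C * N)
    (Hs : Finset (ι → U)) (hV : ∀ H ∈ Hs, ∀ x, H x ∈ V)
    (hH : ∀ H ∈ Hs, ∃ y : Fin L → ι, Function.Injective y ∧ bad (fun i => H (y i)) ∧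
      c * (N / l ^ Fintype.card ι) ≤
        ∑ n ∈ Ω.filter (fun n => (∀ z, R n (H z)) ∧ ∀ i, P n (H (y i))), B n) :
    (Hs.card : ℝ) * (c * (N / l ^ Fintype.card ι)) ≤
      (Fintype.card ι : ℝ) ^ L * (Real.sqrt (κ * C) * N * (V.card / l) ^ Fintype.card ι) := by
  classical
  set k := Fintype.card ι with hk
  set W : ℕ → Finset U := fun n => V.filter (fun u => R n u) with hW
  set Bd : ℕ → Finset (Fin L → U) := fun n => (Fintype.piFinset (fun _ : Fin L => V)).filter
    (fun p => bad p ∧ ∀ i, P n (p i)) with hBd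
  -- sum of the sizes
  have s1 : ∑ n ∈ Ω, ((Bd n).card : ℝ) ≤ κ * N * (V.card / l) ^ L := by
    have : ∑ n ∈ Ω, ((Bd n).card : ℝ) =
        ∑ p ∈ (Fintype.piFinset (fun _ : Fin L => V)).filter bad,
          ((Ω.filter (fun n => ∀ i, P n (p i))).card : ℝ) := by
      have a1 : ∀ n ∈ Ω, ((Bd n).card : ℝ) =
          ∑ p ∈ (Fintype.piFinset (fun _ : Fin L => V)).filter bad, if (∀ i, P n (p i)) then (1 : ℝ) else 0 := by
        intro n _
        rw [Finset.sum_boole, Finset.filter_filter]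
      rw [Finset.sum_congr rfl a1, Finset.sum_comm]
      refine Finset.sum_congr rfl (fun p _ => ?_)
      rw [Finset.sum_boole]
    rw [this]
    calc _ ≤ ∑ p ∈ (Fintype.piFinset (fun _ : Fin L => V)).filter bad, κ * (N / l ^ L) :=
          Finset.sum_le_sum (fun p hp => hbad p (mem_filter.1 hp).2)
      _ = (((Fintype.piFinset (fun _ : Fin L => V)).filter bad).card : ℝ) * (κ * (N / l ^ L)) := by
          rw [sum_const, nsmul_eq_mul]
      _ ≤ ((V.card : ℝ) ^ L) * (κ * (N / l ^ L)) := by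
          have : (((Fintype.piFinset (fun _ : Fin L => V)).filter bad).card : ℝ) ≤ (V.card : ℝ) ^ L := by
            have := card_filter_le (Fintype.piFinset (fun _ : Fin L => V)) bad
            rw [Fintype.card_piFinset_const] at this
            exact_mod_cast this
          gcongr
      _ = κ * N * (V.card / l) ^ L := by rw [div_pow]; ring
  have s2 : ∀ n, ((Bd n).card : ℝ) ≤ ((W n).card : ℝ) ^ L := by
    intro n
    have : (Bd n) ⊆ Fintype.piFinset (fun _ : Fin L => W n) := by
      intro p hp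
      rw [hBd] at hp
      simp only [mem_filter, Fintype.mem_piFinset] at hp
      rw [Fintype.mem_piFinset]
      intro i
      simp only [hW, mem_filter]
      exact ⟨hp.1 i, hPR _ _ (hp.2.2 i)⟩
    have h' := card_le_card this
    rw [Fintype.card_piFinset_const] at h'
    exact_mod_cast h'
  -- the sum for a tuple of places
  have s3 : ∀ y : Fin L → ι, Function.Injective y →
      ∑ H ∈ Hs.filter (fun H => bad (fun i => H (y i))),
        ∑ n ∈ Ω.filter (fun n => (∀ z, R n (H z)) ∧ ∀ i, P n (H (y i))), B n ≤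
      Real.sqrt (κ * C) * N * (V.card / l) ^ k := by
    intro y hy
    have hkL : L ≤ k := by
      have := Fintype.card_le_of_injective y hy
      rwa [Fintype.card_fin] at this
    have c1 : ∑ H ∈ Hs.filter (fun H => bad (fun i => H (y i))),
        ∑ n ∈ Ω.filter (fun n => (∀ z, R n (H z)) ∧ ∀ i, P n (H (y i))), B n ≤
        ∑ n ∈ Ω, B n * ((Bd n).card : ℝ) * ((W n).card : ℝ) ^ (k - L) := by
      have a1 : ∀ H ∈ Hs.filter (fun H => bad (fun i => H (y i))),
          ∑ n ∈ Ω.filter (fun n => (∀ z, R n (H z)) ∧ ∀ i, P n (H (y i))), B n =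
          ∑ n ∈ Ω, if ((∀ z, R n (H z)) ∧ ∀ i, P n (H (y i))) then B n else 0 := by
        intro H _
        rw [Finset.sum_filter]
      rw [Finset.sum_congr rfl a1, Finset.sum_comm]
      refine Finset.sum_le_sum (fun n hn => ?_)
      rw [← Finset.sum_filter, Finset.sum_const, nsmul_eq_mul, mul_assoc, mul_comm]
      refine mul_le_mul_of_nonneg_left ?_ (hB n)
      have hc := cnt V (W n) (Bd n) y hy
      have hsub : (Hs.filter (fun H => bad (fun i => H (y i)))).filter
          (fun H => (∀ z, R n (H z)) ∧ ∀ i, P n (H (y i))) ⊆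
          ((Fintype.piFinset (fun _ : ι => V)).filter
            (fun H => (fun i => H (y i)) ∈ Bd n ∧ ∀ z, H z ∈ W n)) := by
        intro H h
        simp only [mem_filter] at h
        obtain ⟨⟨h1, h2⟩, h3, h4⟩ := h
        have hv := hV H h1
        simp only [mem_filter, Fintype.mem_piFinset, hBd, hW]
        exact ⟨hv, ⟨fun i => hv (y i), h2, h4⟩, fun z => ⟨hv z, h3 z⟩⟩
      have := (card_le_card hsub).trans hc
      exact_mod_cast this
    refine c1.trans ?_
    refine cs Ω B (fun n => ((Bd n).card : ℝ)) (fun n => ((W n).card : ℝ)) N C κ (V.card / l) k L hkL hC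
      hN (by positivity) (fun n => by positivity) (fun n => by positivity) s2 s1 hB4 ?_ hκ.le
    exact hmom (2 * (2 * k - L)) (by omega)
  -- assembly
  have hsum : (Hs.card : ℝ) * (c * (N / l ^ k)) ≤
      ∑ H ∈ Hs, ∑ y ∈ (univ : Finset (Fin L → ι)).filter (fun y => Function.Injective y),
        if bad (fun i => H (y i)) then
          ∑ n ∈ Ω.filter (fun n => (∀ z, R n (H z)) ∧ ∀ i, P n (H (y i))), B n else 0 := by
    rw [← nsmul_eq_mul, ← Finset.sum_const]
    refine Finset.sum_le_sum (fun H hh => ?_)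
    obtain ⟨y, hy, hb, hle⟩ := hH H hh
    refine hle.trans ?_
    have hmem : y ∈ (univ : Finset (Fin L → ι)).filter (fun y => Function.Injective y) := by
      simp [hy]
    refine le_trans ?_ (Finset.single_le_sum (f := fun y : Fin L → ι => if bad (fun i => H (y i)) then
          ∑ n ∈ Ω.filter (fun n => (∀ z, R n (H z)) ∧ ∀ i, P n (H (y i))), B n else 0)
      (fun q _ => ?_) hmem)
    · simp only [hb, if_true]
      exact le_rfl
    · split_ifs
      · exact Finset.sum_nonneg (fun n _ => hB n)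
      · exact le_rfl
  refine hsum.trans ?_
  rw [Finset.sum_comm]
  have hq : ∀ y ∈ (univ : Finset (Fin L → ι)).filter (fun y => Function.Injective y),
      ∑ H ∈ Hs, (if bad (fun i => H (y i)) then
          ∑ n ∈ Ω.filter (fun n => (∀ z, R n (H z)) ∧ ∀ i, P n (H (y i))), B n else 0) ≤
      Real.sqrt (κ * C) * N * (V.card / l) ^ k := by
    intro y hy
    rw [← Finset.sum_filter]
    exact s3 y (mem_filter.1 hy).2
  refine (Finset.sum_le_sum hq).trans ?_
  rw [Finset.sum_const, nsmul_eq_mul]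
  have hcard : (((univ : Finset (Fin L → ι)).filter (fun y => Function.Injective y)).card : ℝ) ≤ (k : ℝ) ^ L := by
    have := card_filter_le (univ : Finset (Fin L → ι)) (fun y => Function.Injective y)
    rw [card_univ, Fintype.card_fun, Fintype.card_fin] at this
    exact_mod_cast this
  gcongr

end Pool.Agent.N679.RG.ABSK

namespace Pool.Agent.N679.RG

open Finset

theorem t_ABSK : S_ABSK := by
  classical
  intro T K M L c C δ' _ hc hC hδ
  set k : ℕ := T * K with hk
  set s : ℝ := c * δ' / ((k : ℝ) ^ L + 1) with hs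
  have hs0 : 0 < s := by positivity
  refine ⟨s ^ 2 / C, by positivity, ?_⟩
  intro V Ω R P B N l hN hl hPR hB hmom hB4 hH
  set κ : ℝ := s ^ 2 / C with hκ
  have hκ0 : 0 < κ := by positivity
  have hcard : Fintype.card (Fin T × Fin K) = k := by simp [hk]
  have key := ABSK.main (ι := Fin T × Fin K) L V Ω R P B N l c C κ hN hl hC hκ0 hPR hB
    (fun p => ((Ω.filter (fun n => ∀ i, P n (p i))).card : ℝ) < κ * (N / l ^ L))
    (fun p hp => hp.le) (by rw [hcard]; intro r hr; convert hmom r hr) hB4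
    (((Fintype.piFinset (fun _ : Fin T × Fin K => V)).filter (fun H => Function.Injective H ∧
      ¬ ∃ (S : Finset (Fin T)) (σ : Fin T → Fin K), M + 1 ≤ S.card ∧ ∀ J ⊆ S, J.card = L →
        κ * (N / l ^ L) ≤ ((Ω.filter (fun n => ∀ g ∈ J, P n (H (g, σ g)))).card : ℝ))))
    (fun H hh x => by
      rw [mem_filter, Fintype.mem_piFinset] at hh
      exact hh.1 x)
    (fun H hh => by
      rw [mem_filter, Fintype.mem_piFinset] at hh
      obtain ⟨hv, hinj, hno⟩ := hh
      obtain ⟨S, σ, hS, hsum⟩ := hH H hinj hv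
      have : ∃ J ⊆ S, J.card = L ∧
          ((Ω.filter (fun n => ∀ g ∈ J, P n (H (g, σ g)))).card : ℝ) < κ * (N / l ^ L) := by
        by_contra hcon
        push Not at hcon
        exact hno ⟨S, σ, hS, hcon⟩
      obtain ⟨J, hJS, hJL, hlt⟩ := this
      let e : Fin L ≃ J := (J.equivFinOfCardEq hJL).symm
      have hall : ∀ n, (∀ i : Fin L, P n (H (((e i : Fin T)), σ (e i)))) ↔ ∀ g ∈ J, P n (H (g, σ g)) := by
        intro n
        constructor
        · intro h g hg
          have := h (e.symm ⟨g, hg⟩)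
          simpa using this
        · intro h i
          exact h _ (e i).2
      refine ⟨fun i => ((e i : Fin T), σ (e i)), ?_, ?_, ?_⟩
      · intro i j hij
        have h1 : (e i : Fin T) = e j := congrArg Prod.fst hij
        exact e.injective (Subtype.ext h1)
      · refine lt_of_le_of_lt (le_of_eq ?_) hlt
        congr 2
        ext n
        simp only [mem_filter, hall n]
      · rw [hcard]
        refine hsum.trans ?_
        refine Finset.sum_le_sum_of_subset_of_nonneg ?_ (fun n _ _ => hB n)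
        intro n hn
        rw [mem_filter] at hn ⊢
        exact ⟨hn.1, hn.2.1, (hall n).2 fun g hg => hn.2.2 g (hJS hg)⟩)
  rw [hcard] at key
  have hsq : Real.sqrt (κ * C) = s := by
    rw [hκ, div_mul_cancel₀ _ hC.ne', Real.sqrt_sq hs0.le]
  rw [hsq] at key
  set X := (((Fintype.piFinset (fun _ : Fin T × Fin K => V)).filter (fun H => Function.Injective H ∧
      ¬ ∃ (S : Finset (Fin T)) (σ : Fin T → Fin K), M + 1 ≤ S.card ∧ ∀ J ⊆ S, J.card = L →
        κ * (N / l ^ L) ≤ ((Ω.filter (fun n => ∀ g ∈ J, P n (H (g, σ g)))).card : ℝ)))) with hX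
  have hfin : (X.card : ℝ) ≤ δ' * (V.card : ℝ) ^ k := by
    have h1 : (X.card : ℝ) * (c * (N / l ^ k)) ≤ (δ' * (V.card : ℝ) ^ k) * (c * (N / l ^ k)) := by
      refine key.trans ?_
      have h2 : (k : ℝ) ^ L * s ≤ c * δ' := by
        rw [hs, mul_div_assoc', div_le_iff₀ (by positivity)]
        nlinarith [mul_pos hc hδ, pow_nonneg (Nat.cast_nonneg (α := ℝ) k) L]
      calc (k : ℝ) ^ L * (s * N * ((V.card : ℝ) / l) ^ k)
          = ((k : ℝ) ^ L * s) * (N * ((V.card : ℝ) / l) ^ k) := by ring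
        _ ≤ (c * δ') * (N * ((V.card : ℝ) / l) ^ k) :=
            mul_le_mul_of_nonneg_right h2 (by positivity)
        _ = (δ' * (V.card : ℝ) ^ k) * (c * (N / l ^ k)) := by
            rw [div_pow]; ring
    exact le_of_mul_le_mul_right h1 (by positivity)
  convert hfin

end Pool.Agent.N679.RG
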