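import Pool.Agent.N679.RG.Stm2

/-!
# Part BEL of the project RH: large elements of Bohr sets without middle-size prime powers of small primes
-/

set_option autoImplicit false

namespace Pool.Agent.N679.RG

open Finset Filter Topology

namespace BEL

/-- the decomposition of `n` into the smooth part and the rough part -/
theorem split {n y a : ℕ} (hn : n ≠ 0) (h : ∀ p : ℕ, p.Prime → p ≤ y → ¬ p ^ a ∣ n) :
    ∃ k m : ℕ, n = k * m ∧ 1 ≤ k ∧ k ≤ ((y + 1) ^ a) ^ (y + 1) ∧
      ∀ p : ℕ, p.Prime → p ∣ m → y < p := by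
  refine ⟨∏ p ∈ n.primeFactors.filter (fun p => p ≤ y), p ^ n.factorization p,
    ∏ p ∈ n.primeFactors.filter (fun p => ¬ p ≤ y), p ^ n.factorization p, ?_, ?_, ?_, ?_⟩
  · rw [Finset.prod_filter_mul_prod_filter_not]
    exact (Nat.prod_factorization_pow_eq_self hn).symm
  · refine Nat.one_le_iff_ne_zero.2 (Finset.prod_ne_zero_iff.2 fun p hp => ?_)
    rw [Finset.mem_filter, Nat.mem_primeFactors] at hp
    exact pow_ne_zero _ hp.1.1.ne_zero
  · have h1 : ∀ p ∈ n.primeFactors.filter (fun p => p ≤ y), p ^ n.factorization p ≤ (y + 1) ^ a := by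
      intro p hp
      rw [Finset.mem_filter, Nat.mem_primeFactors] at hp
      have h2 : n.factorization p < a := by
        by_contra hc
        rw [not_lt] at hc
        exact h p hp.1.1 hp.2 ((pow_dvd_pow p hc).trans (Nat.ordProj_dvd n p))
      calc p ^ n.factorization p ≤ (y + 1) ^ n.factorization p := Nat.pow_le_pow_left (by omega) _
        _ ≤ (y + 1) ^ a := Nat.pow_le_pow_right (by omega) h2.le
    refine (Finset.prod_le_pow_card _ _ _ h1).trans ?_
    refine Nat.pow_le_pow_right (Nat.one_le_iff_ne_zero.2 (pow_ne_zero _ (by omega))) ?_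
    calc (n.primeFactors.filter (fun p => p ≤ y)).card ≤ (range (y + 1)).card := by
          refine Finset.card_le_card fun p hp => ?_
          rw [Finset.mem_filter] at hp
          rw [Finset.mem_range]
          omega
      _ = y + 1 := Finset.card_range _
  · intro q hq hqm
    obtain ⟨p, hp, hqp⟩ := (Prime.dvd_finsetProd_iff hq.prime _).1 hqm
    rw [Finset.mem_filter, Nat.mem_primeFactors] at hp
    have h1 := hq.dvd_of_dvd_pow hqp
    have h2 := (Nat.prime_dvd_prime_iff_eq hq hp.1.1).1 h1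
    rw [h2]
    exact not_le.1 hp.2

end BEL

open BEL

theorem t_BEL : S_CNTB → S_BEL := by
  classical
  intro hC d y ρ hρ
  obtain ⟨c0, W1, hc0, hB⟩ := hC d ρ hρ
  obtain ⟨Z0, hZ0⟩ := exists_nat_gt (8 * ((y : ℝ) + 1) / c0)
  have hZpos : (0 : ℝ) < Z0 := lt_of_le_of_lt (by positivity) hZ0
  have hZ0' : 1 ≤ Z0 := by
    have : (0 : ℝ) < Z0 := hZpos
    exact_mod_cast this
  obtain ⟨Z, hZ⟩ : ∃ Z : ℕ, Z = ((y + 1) ^ Z0) ^ (y + 1) := ⟨_, rfl⟩
  have hZ1 : 1 ≤ Z := by
    rw [hZ]
    exact Nat.one_le_iff_ne_zero.2 (pow_ne_zero _ (pow_ne_zero _ (by omega)))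
  have hZR : (1 : ℝ) ≤ Z := by exact_mod_cast hZ1
  refine ⟨Z, max W1 1, c0 / (4 * Z), by positivity, ?_⟩
  intro W hW θ
  have hW1 : W1 ≤ W := (le_max_left _ _).trans hW
  have hW0 : 1 ≤ W := (le_max_right _ _).trans hW
  have hWR : (1 : ℝ) ≤ W := by exact_mod_cast hW0
  have hcard := hB W hW1 θ
  have hgood : ∃ n ∈ Bh θ ρ W, c0 * W / 4 < (n : ℝ) ∧ ∀ p : ℕ, p.Prime → p ≤ y → ¬ p ^ Z0 ∣ n := by
    by_contra hcon
    push Not at hcon
    have hsub : Bh θ ρ W ⊆ Icc 1 (⌊c0 * W / 4⌋₊) ∪
        ((range (y + 1)).filter Nat.Prime).biUnion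
          (fun p => (Ioc 0 W).filter (fun n => p ^ Z0 ∣ n)) := by
      intro n hn
      rw [Finset.mem_union]
      have hn' : n ∈ Icc 1 W := by
        unfold Bh at hn
        exact (Finset.mem_filter.1 hn).1
      rw [Finset.mem_Icc] at hn'
      by_cases h1 : c0 * W / 4 < (n : ℝ)
      · right
        obtain ⟨p, hp, hpy, hd⟩ := hcon n hn h1
        rw [Finset.mem_biUnion]
        refine ⟨p, ?_, ?_⟩
        · rw [Finset.mem_filter, Finset.mem_range]
          exact ⟨by omega, hp⟩
        · rw [Finset.mem_filter, Finset.mem_Ioc]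
          exact ⟨⟨by omega, hn'.2⟩, hd⟩
      · left
        rw [Finset.mem_Icc]
        exact ⟨hn'.1, Nat.le_floor (not_lt.1 h1)⟩
    have h1 : ((Bh θ ρ W).card : ℝ) ≤ c0 * W / 4 + (y + 1) * (W / Z0) := by
      have h2 := (Finset.card_le_card hsub).trans (Finset.card_union_le _ _)
      have h3 : ((Icc 1 (⌊c0 * W / 4⌋₊)).card : ℝ) ≤ c0 * W / 4 := by
        rw [Nat.card_Icc, Nat.add_sub_cancel]
        exact Nat.floor_le (by positivity)
      have h4 : ((((range (y + 1)).filter Nat.Prime).biUnion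
          (fun p => (Ioc 0 W).filter (fun n => p ^ Z0 ∣ n))).card : ℝ) ≤ (y + 1) * (W / Z0) := by
        have h5 := Finset.card_biUnion_le (s := (range (y + 1)).filter Nat.Prime)
          (t := fun p => (Ioc 0 W).filter (fun n => p ^ Z0 ∣ n))
        have h6 : ((∑ p ∈ (range (y + 1)).filter Nat.Prime,
            ((Ioc 0 W).filter (fun n => p ^ Z0 ∣ n)).card : ℕ) : ℝ) ≤
            ∑ p ∈ (range (y + 1)).filter Nat.Prime, (W / Z0 : ℝ) := by
          push_cast
          refine Finset.sum_le_sum fun p hp => ?_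
          rw [Finset.mem_filter] at hp
          rw [Nat.Ioc_filter_dvd_card_eq_div]
          refine Nat.cast_div_le.trans ?_
          have h7 : (Z0 : ℝ) ≤ ((p ^ Z0 : ℕ) : ℝ) := by
            exact_mod_cast (Nat.lt_pow_self hp.2.one_lt).le
          gcongr
        have h7 : ∑ p ∈ (range (y + 1)).filter Nat.Prime, (W / Z0 : ℝ) ≤ (y + 1) * (W / Z0) := by
          rw [Finset.sum_const, nsmul_eq_mul]
          have h8 : (((range (y + 1)).filter Nat.Prime).card : ℝ) ≤ y + 1 := by
            have := (Finset.card_filter_le (range (y + 1)) Nat.Prime).trans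
              (le_of_eq (Finset.card_range (y + 1)))
            exact_mod_cast this
          exact mul_le_mul_of_nonneg_right h8 (by positivity)
        calc _ ≤ _ := by exact_mod_cast h5
          _ ≤ _ := h6
          _ ≤ _ := h7
      calc ((Bh θ ρ W).card : ℝ) ≤ ((Icc 1 (⌊c0 * W / 4⌋₊)).card : ℝ) +
            ((((range (y + 1)).filter Nat.Prime).biUnion
              (fun p => (Ioc 0 W).filter (fun n => p ^ Z0 ∣ n))).card : ℝ) := by exact_mod_cast h2
        _ ≤ _ := add_le_add h3 h4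
    have h2 : ((y : ℝ) + 1) * (W / Z0) ≤ c0 * W / 8 := by
      rw [div_lt_iff₀ hc0] at hZ0
      rw [mul_div_assoc', div_le_iff₀ hZpos]
      nlinarith
    have h3 : 0 < c0 * W := by positivity
    linarith
  obtain ⟨n, hn, hbig, hpow⟩ := hgood
  have hn' : n ∈ Icc 1 W := by
    unfold Bh at hn
    exact (Finset.mem_filter.1 hn).1
  rw [Finset.mem_Icc] at hn'
  obtain ⟨k, m, hkm, hk1, hk2, hm⟩ := split (n := n) (y := y) (a := Z0) (by omega) hpow
  refine ⟨k, m, hk1, by rw [hZ]; exact hk2, hm, ?_, by rw [← hkm]; exact hn⟩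
  have h1 : (n : ℝ) ≤ Z * m := by
    rw [← hZ] at hk2
    have : n ≤ Z * m := by
      rw [hkm]
      exact Nat.mul_le_mul_right _ hk2
    exact_mod_cast this
  rw [div_mul_eq_mul_div, div_le_iff₀ (by positivity)]
  nlinarith

end Pool.Agent.N679.RG
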