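import Pool.Agent.N679.RG.Stm2

/-!
# Project RH: the counting argument with cells (BLK)

Author: helper853 (statements by helper679).
-/

set_option autoImplicit false

namespace Pool.Agent.N679.RG

open Finset Filter Topology

namespace BLK

theorem toNat_cast_le {z w : ℤ} (hw : 0 ≤ w) (h : z ≤ w) : (z.toNat : ℤ) ≤ w := by omega

theorem zsum {m : ℕ} [NeZero m] (F : ℕ → ℝ) : ∑ t : ZMod m, F t.val = ∑ t ∈ range m, F t := by
  obtain ⟨n, rfl⟩ : ∃ n, m = n + 1 := ⟨m - 1, by have := NeZero.pos m; omega⟩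
  exact Fin.sum_univ_eq_sum_range F (n + 1)

/-- the coordinates of an integer -/
def ce (k m : ℕ) (x : ℤ) : (ℤ × ℕ) × ℕ :=
  ((x / (k * m), ((x % (k * m)) % k).toNat), ((x % (k * m)) / k).toNat)

theorem ce_spec {k m : ℕ} (hk : 1 ≤ k) (hm : 1 ≤ m) (x : ℤ) :
    cl k m (ce k m x).1 (ce k m x).2 = x ∧ (ce k m x).1.2 < k ∧ (ce k m x).2 < m := by
  have hk' : (0 : ℤ) < k := by exact_mod_cast hk
  have hm' : (0 : ℤ) < m := by exact_mod_cast hm
  have hkm : (0 : ℤ) < k * m := by positivity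
  have h1 := Int.emod_nonneg x hkm.ne'
  have h2 := Int.emod_lt_of_pos x hkm
  have h3 := Int.emod_nonneg (x % (k * m)) hk'.ne'
  have h4 := Int.emod_lt_of_pos (x % (k * m)) hk'
  have h5 : 0 ≤ (x % (k * m)) / k := Int.ediv_nonneg h1 hk'.le
  have h6 : (x % (k * m)) / k < m := by
    rw [Int.ediv_lt_iff_lt_mul hk']
    linarith [mul_comm (k : ℤ) m]
  have e1 := Int.mul_ediv_add_emod x (k * m)
  have e2 := Int.mul_ediv_add_emod (x % (k * m)) k
  refine ⟨?_, ?_, ?_⟩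
  · unfold cl ce
    simp only
    rw [Int.toNat_of_nonneg h3, Int.toNat_of_nonneg h5]
    linarith [mul_comm (x / (k * m)) ((k : ℤ) * m)]
  · unfold ce
    simp only
    omega
  · unfold ce
    simp only
    omega

theorem cover {k m : ℕ} (hk : 1 ≤ k) (hm : 1 ≤ m) (F : ℤ → ℝ) (hF : ∀ x, 0 ≤ F x)
    (X I : Finset ℤ) (hX : ∀ x ∈ X, F x ≠ 0 → x / (k * m) ∈ I) :
    ∑ x ∈ X, F x ≤ ∑ p ∈ I ×ˢ range k, ∑ t ∈ range m, F (cl k m p t) := by
  classical
  rw [← sum_filter_ne_zero]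
  have h1 : ∑ x ∈ X.filter (fun x => F x ≠ 0), F x =
      ∑ y ∈ (X.filter (fun x => F x ≠ 0)).image (ce k m), F (cl k m y.1 y.2) := by
    rw [sum_image]
    · exact sum_congr rfl fun x _ => by rw [(ce_spec hk hm x).1]
    · intro x _ x' _ h
      rw [← (ce_spec hk hm x).1, ← (ce_spec hk hm x').1, h]
  rw [h1, ← sum_product (I ×ˢ range k) (range m) (fun y => F (cl k m y.1 y.2))]
  apply sum_le_sum_of_subset_of_nonneg
  · intro y hy
    rw [mem_image] at hy
    obtain ⟨x, hx, rfl⟩ := hy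
    rw [mem_filter] at hx
    have h2 := ce_spec hk hm x
    rw [mem_product, mem_product, mem_range, mem_range]
    exact ⟨⟨hX x hx.1 hx.2, h2.2.1⟩, h2.2.2⟩
  · intro y _ _
    exact hF _

open Classical in
theorem popular {ι : Type*} (C : Finset ι) (a : ι → ℝ) {m T α ε η : ℝ} (hm : 0 < m) (hT : 0 < T)
    (ha : ∀ c ∈ C, a c ≤ m) (hε : 0 < ε) (hη : 0 ≤ η) (hη1 : η ≤ ε / 160) (hε1 : ε ≤ 1 / 10)
    (hα : ε ≤ α) (hC : m * C.card ≤ (1 + 5 * η) * T) (hs : α * T ≤ ∑ c ∈ C, a c) :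
    ε / 16 * T ≤ m * ((C.filter (fun c => (α - ε / 8) * m ≤ a c)).card : ℝ) := by
  have h0 : ∑ c ∈ C, a c ≤ m * C.card := by
    calc ∑ c ∈ C, a c ≤ ∑ _c ∈ C, m := sum_le_sum ha
      _ = m * C.card := by rw [sum_const, nsmul_eq_mul, mul_comm]
  have hα2 : α ≤ 2 := by
    by_contra hcon
    push Not at hcon
    have : (1 + 5 * η) * T < α * T := by
      apply mul_lt_mul_of_pos_right _ hT
      linarith
    linarith
  have h1 : ∑ c ∈ C, a c ≤ ∑ c ∈ C, ((if (α - ε / 8) * m ≤ a c then m else 0) + (α - ε / 8) * m) := by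
    apply sum_le_sum
    intro c hc
    have h2 : 0 ≤ (α - ε / 8) * m := by
      apply mul_nonneg _ hm.le
      linarith
    split_ifs with h
    · have := ha c hc
      linarith
    · push Not at h
      linarith
  rw [sum_add_distrib, ← sum_filter, sum_const, sum_const, nsmul_eq_mul, nsmul_eq_mul] at h1
  have h3 : (C.card : ℝ) * ((α - ε / 8) * m) ≤ (α - ε / 8) * ((1 + 5 * η) * T) := by
    have : 0 ≤ α - ε / 8 := by linarith
    calc (C.card : ℝ) * ((α - ε / 8) * m) = (α - ε / 8) * (m * C.card) := by ring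
      _ ≤ _ := mul_le_mul_of_nonneg_left hC this
  have h4 : (α - ε / 8) * ((1 + 5 * η) * T) ≤ (α - ε / 16) * T := by
    have : (α - ε / 8) * (1 + 5 * η) ≤ α - ε / 16 := by nlinarith
    calc (α - ε / 8) * ((1 + 5 * η) * T) = ((α - ε / 8) * (1 + 5 * η)) * T := by ring
      _ ≤ _ := mul_le_mul_of_nonneg_right this hT.le
  linarith

open Classical in
theorem badcount {ι : Type*} (J : Finset ι) (u : ι → ℝ) {m T ρ ε η : ℝ}
    (hm : 0 < m) (hu : ∀ c ∈ J, u c ≤ (ρ + η) * m) (hJ : m * J.card ≤ 2 * T) (hρ : 0 ≤ ρ + η)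
    (hη : 0 ≤ η) (hs : (ρ - 2 * η) * (2 * T) ≤ ∑ c ∈ J, u c) :
    ((J.filter (fun c => u c < (ρ - ε / 16) * m)).card : ℝ) * (ε / 16 * m) ≤ 6 * η * T := by
  have h1 : ∑ c ∈ J, u c ≤ ∑ c ∈ J, ((ρ + η) * m - (if u c < (ρ - ε / 16) * m then ε / 16 * m else 0)) := by
    apply sum_le_sum
    intro c hc
    split_ifs with h
    · have : 0 ≤ η * m := by positivity
      linarith
    · have := hu c hc
      linarith
  rw [sum_sub_distrib, ← sum_filter, sum_const, sum_const, nsmul_eq_mul, nsmul_eq_mul] at h1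
  have h2 : (J.card : ℝ) * ((ρ + η) * m) ≤ (ρ + η) * (2 * T) := by
    calc (J.card : ℝ) * ((ρ + η) * m) = (ρ + η) * (m * J.card) := by ring
      _ ≤ _ := mul_le_mul_of_nonneg_left hJ hρ
  linarith

theorem badpairs (C PA PC Bad : Finset (ℤ × ℕ)) (hA : PA ⊆ C) (D : Finset ((ℤ × ℕ) × (ℤ × ℕ)))
    (hD : ∀ p ∈ D, p.1 ∈ PA ∧ p.2 ∈ PC ∧ (p.1.1 + p.2.1, p.1.2 + p.2.2) ∈ Bad) :
    D.card ≤ Bad.card * C.card := by
  rw [← card_product]
  apply card_le_card_of_injOn (fun p => ((p.1.1 + p.2.1, p.1.2 + p.2.2), p.1))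
  · intro p hp
    have h := hD p hp
    rw [mem_coe, mem_product]
    exact ⟨h.2.2, hA h.1⟩
  · rintro ⟨⟨v, i⟩, ⟨v', i'⟩⟩ _ ⟨⟨w, j⟩, ⟨w', j'⟩⟩ _ h
    simp only [Prod.mk.injEq] at h
    obtain ⟨⟨h1, h2⟩, h3, h4⟩ := h
    simp only [Prod.mk.injEq]
    omega

/-- the number of the elements of a cell in `U` -/
def uu (k m : ℕ) (U : Finset ℤ) (p : ℤ × ℕ) : ℕ := ((range m).filter (fun t => cl k m p t ∈ U)).card

theorem uu_shift {k m : ℕ} (U : Finset ℤ) (s : ℤ) (l : ℕ) :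
    uu k m U (s, l) ≤ uu k m U (s, l + k) + 1 := by
  unfold uu
  have h1 : (range m).filter (fun t => cl k m (s, l) t ∈ U) ⊆
      insert 0 (((range m).filter (fun t => cl k m (s, l + k) t ∈ U)).image (fun t => t + 1)) := by
    intro t ht
    rw [mem_filter, mem_range] at ht
    rw [mem_insert, mem_image]
    rcases Nat.eq_zero_or_pos t with h | h
    · left; exact h
    · right
      refine ⟨t - 1, ?_, by omega⟩
      rw [mem_filter, mem_range]
      refine ⟨by omega, ?_⟩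
      have e : cl k m (s, l + k) (t - 1) = cl k m (s, l) t := by
        unfold cl
        simp only
        obtain ⟨t', rfl⟩ : ∃ t', t = t' + 1 := ⟨t - 1, by omega⟩
        rw [Nat.add_sub_cancel]
        push_cast
        ring
      rw [e]
      exact ht.2
  refine (card_le_card h1).trans ?_
  refine (card_insert_le _ _).trans ?_
  exact Nat.add_le_add_right card_image_le 1

theorem vs_card {k m : ℕ} [NeZero m] (U : Finset ℤ) (p p' : ℤ × ℕ) :
    (vs k m U p p').card = uu k m U (p.1 + p'.1, p.2 + p'.2) := by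
  classical
  have h1 : ((vs k m U p p').card : ℝ) = (uu k m U (p.1 + p'.1, p.2 + p'.2) : ℝ) := by
    unfold vs uu
    rw [card_filter, card_filter]
    push_cast
    exact zsum (m := m) (fun t => if cl k m (p.1 + p'.1, p.2 + p'.2) t ∈ U then (1 : ℝ) else 0)
  exact_mod_cast h1

end BLK

open BLK

theorem t_BLK : S_CELL → S_POLF → S_BLK := by
  classical
  intro hC hP ε hε hε1
  obtain ⟨y, c₁, hc₁, hP⟩ := hP (ε / 2) (by positivity)
  obtain ⟨η, hηd⟩ : ∃ η, η = min (c₁ / 2) (ε ^ 3 / 10 ^ 6) := ⟨_, rfl⟩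
  have hη0 : 0 < η := by rw [hηd]; exact lt_min (by positivity) (by positivity)
  have hη1 : η ≤ c₁ / 2 := by rw [hηd]; exact min_le_left _ _
  have hη2 : η ≤ ε ^ 3 / 10 ^ 6 := by rw [hηd]; exact min_le_right _ _
  have hη3 : η ≤ ε / 10 ^ 8 := by
    refine hη2.trans ?_
    have h1 : ε ^ 2 ≤ (1 / 10) ^ 2 := pow_le_pow_left₀ hε.le hε1 2
    have h2 : ε * ε ^ 2 ≤ ε * (1 / 10) ^ 2 := mul_le_mul_of_nonneg_left h1 hε.le
    have e : ε ^ 3 = ε * ε ^ 2 := by ring
    rw [e, div_le_div_iff₀ (by positivity) (by positivity)]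
    nlinarith
  have hη4 : η ≤ 1 / 10 ^ 9 := by
    refine hη3.trans ?_
    rw [div_le_div_iff₀ (by positivity) (by positivity)]
    nlinarith
  refine ⟨y, c₁ * ε ^ 2 / 2000, η, by positivity, hη0, hη4.trans (by norm_num), ?_⟩
  intro T k m U f g ρ hk hm hηm hkm hU hερ hUc hUp hf hg hfs hgs hfp hF hG hFG
  have hm0 : (0 : ℝ) < m := by
    by_contra hcon
    push Not at hcon
    nlinarith
  have hm1 : 1 ≤ m := by
    have : 0 < m := by exact_mod_cast hm0
    exact this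
  have : NeZero m := ⟨by omega⟩
  have hk0 : (0 : ℝ) < k := by exact_mod_cast hk
  have hh0 : (0 : ℝ) < k * m := by positivity
  have hT0 : (0 : ℝ) < T := by
    by_contra hcon
    push Not at hcon
    nlinarith
  have hkmz : (0 : ℤ) < k * m := by exact_mod_cast hh0
  -- the parameters of the blocks
  obtain ⟨A, hAd⟩ : ∃ A : ℤ, A = ⌊η * T / (k * m)⌋ + 1 := ⟨_, rfl⟩
  obtain ⟨B, hBd⟩ : ∃ B : ℤ, B = ⌊(1 + η) * T / (k * m)⌋ + 1 := ⟨_, rfl⟩
  obtain ⟨S, hSd⟩ : ∃ S : ℤ, S = ⌊2 * (T : ℝ) / (k * m)⌋ := ⟨_, rfl⟩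
  have hA1 : ((A : ℝ) - 1) * (k * m) ≤ η * T := by
    rw [← le_div_iff₀ hh0, hAd]
    push_cast
    rw [add_sub_cancel_right]
    exact Int.floor_le _
  have hA2 : η * T < A * (k * m) := by
    rw [← div_lt_iff₀ hh0, hAd]
    push_cast
    exact Int.lt_floor_add_one _
  have hB1 : ((B : ℝ) - 1) * (k * m) ≤ (1 + η) * T := by
    rw [← le_div_iff₀ hh0, hBd]
    push_cast
    rw [add_sub_cancel_right]
    exact Int.floor_le _
  have hB2 : (1 + η) * T < B * (k * m) := by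
    rw [← div_lt_iff₀ hh0, hBd]
    push_cast
    exact Int.lt_floor_add_one _
  have hS1 : (S : ℝ) * (k * m) ≤ 2 * T := by
    rw [← le_div_iff₀ hh0, hSd]
    exact Int.floor_le _
  have hS2 : 2 * (T : ℝ) < (S + 1) * (k * m) := by
    rw [← div_lt_iff₀ hh0, hSd]
    exact Int.lt_floor_add_one _
  have hηT : 0 < η * T := by positivity
  have hA0 : 0 < A := by
    have h1 : (0 : ℝ) < A * (k * m) := by linarith
    have h2 : (0 : ℝ) < A := by
      by_contra hcon
      push Not at hcon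
      nlinarith
    exact_mod_cast h2
  have hB0 : 0 < B := by
    have h1 : (0 : ℝ) < B * (k * m) := by linarith
    have h2 : (0 : ℝ) < B := by
      by_contra hcon
      push Not at hcon
      nlinarith
    exact_mod_cast h2
  have hS0 : 0 ≤ S := by
    rw [hSd]
    exact Int.floor_nonneg.2 (by positivity)
  have hA0r : (0 : ℝ) < A := by exact_mod_cast hA0
  have hB0r : (0 : ℝ) < B := by exact_mod_cast hB0
  have hS0r : (0 : ℝ) ≤ S := by exact_mod_cast hS0
  have hSB : S < 2 * B := by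
    have h1 : (S : ℝ) * (k * m) < (2 * B) * (k * m) := by linarith
    have h2 := lt_of_mul_lt_mul_right h1 hh0.le
    exact_mod_cast h2
  obtain ⟨C, hCd⟩ : ∃ C : Finset (ℤ × ℕ), C = Icc (-A) B ×ˢ range k := ⟨_, rfl⟩
  have hCcard : (m : ℝ) * C.card ≤ (1 + 5 * η) * T := by
    have h1 : (C.card : ℝ) = (A + B + 1) * k := by
      rw [hCd, card_product, card_range, Int.card_Icc]
      push_cast
      have h2 : ((B + 1 - -A).toNat : ℝ) = A + B + 1 := by
        have h3 : ((B + 1 - -A).toNat : ℤ) = A + B + 1 := by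
          rw [Int.toNat_of_nonneg (by omega)]
          ring
        exact_mod_cast h3
      rw [h2]
    rw [h1]
    nlinarith
  -- the support
  have hdiv : ∀ x : ℤ, -(η * T) ≤ (x : ℝ) → (x : ℝ) ≤ (1 + η) * T → x / (k * m) ∈ Icc (-A) B := by
    intro x hx1 hx2
    have e1 := Int.mul_ediv_add_emod x (k * m)
    have e2 := Int.emod_nonneg x hkmz.ne'
    have e3 := Int.emod_lt_of_pos x hkmz
    have e4 : ((k : ℤ) * m) * (x / (k * m)) ≤ x := by linarith
    have e5 : x < ((k : ℤ) * m) * (x / (k * m) + 1) := by linarith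
    have e4' : ((k : ℝ) * m) * ((x / (k * m) : ℤ) : ℝ) ≤ x := by exact_mod_cast e4
    have e5' : (x : ℝ) < ((k : ℝ) * m) * (((x / (k * m) : ℤ) : ℝ) + 1) := by exact_mod_cast e5
    rw [mem_Icc]
    constructor
    · have h1 : (-(A : ℝ)) * (k * m) < (((x / (k * m) : ℤ) : ℝ) + 1) * (k * m) := by linarith
      have h2 := lt_of_mul_lt_mul_right h1 hh0.le
      have h3 : -A < x / (k * m) + 1 := by exact_mod_cast h2
      omega
    · have h1 : ((x / (k * m) : ℤ) : ℝ) * (k * m) < B * (k * m) := by linarith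
      have h2 := lt_of_mul_lt_mul_right h1 hh0.le
      have h3 : x / (k * m) < B := by exact_mod_cast h2
      omega
  obtain ⟨F, hFd⟩ : ∃ F, F = ∑ x ∈ Icc (-(2 * T : ℤ)) (2 * T), f x := ⟨_, rfl⟩
  obtain ⟨G, hGd⟩ : ∃ G, G = ∑ x ∈ Icc (-(2 * T : ℤ)) (2 * T), g x := ⟨_, rfl⟩
  rw [← hFd] at hF hFG
  rw [← hGd] at hG hFG
  obtain ⟨α, hαd⟩ : ∃ α, α = F / T := ⟨_, rfl⟩
  obtain ⟨γ, hγd⟩ : ∃ γ, γ = G / T := ⟨_, rfl⟩
  have hαT : α * T = F := by rw [hαd]; field_simp
  have hγT : γ * T = G := by rw [hγd]; field_simp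
  have hα : ε ≤ α := by
    rw [hαd, le_div_iff₀ hT0]; exact hF
  have hγ : ε ≤ γ := by
    rw [hγd, le_div_iff₀ hT0]; exact hG
  have hαγ : 1 - ρ + ε ≤ α + γ := by
    have e : (α + γ) * T = F + G := by rw [add_mul, hαT, hγT]
    have : (1 - ρ + ε) * T ≤ (α + γ) * T := by
      rw [e]; exact hFG
    exact le_of_mul_le_mul_right this hT0
  have hpop : ∀ (f : ℤ → ℝ) (α : ℝ), (∀ x, 0 ≤ f x ∧ f x ≤ 1) →
      (∀ x : ℤ, f x ≠ 0 → -(η * T) ≤ (x : ℝ) ∧ (x : ℝ) ≤ (1 + η) * T) → ε ≤ α →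
      α * T = ∑ x ∈ Icc (-(2 * T : ℤ)) (2 * T), f x →
      ε / 16 * T ≤ m * ((C.filter (fun c => (α - ε / 8) * m ≤
        ∑ t ∈ range m, f (cl k m c t))).card : ℝ) := by
    intro f α hf hfs hα hαT
    apply popular C (fun c => ∑ t ∈ range m, f (cl k m c t)) hm0 hT0 ?_ hε hη0.le
      (hη3.trans (by linarith)) hε1 hα hCcard
    · rw [hαT, hCd]
      apply cover hk hm1 f (fun x => (hf x).1)
      intro x _ hx
      exact hdiv x (hfs x hx).1 (hfs x hx).2
    · intro c _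
      calc ∑ t ∈ range m, f (cl k m c t) ≤ ∑ _t ∈ range m, (1 : ℝ) :=
            sum_le_sum fun t _ => (hf _).2
        _ = m := by rw [sum_const, card_range, nsmul_eq_mul, mul_one]
  obtain ⟨PA, hPAd⟩ : ∃ PA, PA = C.filter (fun c => (α - ε / 8) * m ≤
      ∑ t ∈ range m, f (cl k m c t)) := ⟨_, rfl⟩
  obtain ⟨PC, hPCd⟩ : ∃ PC, PC = C.filter (fun c => (γ - ε / 8) * m ≤
      ∑ t ∈ range m, g (cl k m c t)) := ⟨_, rfl⟩
  have hPA := hpop f α hf hfs hα (by rw [hαT, hFd])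
  have hPC := hpop g γ hg hgs hγ (by rw [hγT, hGd])
  rw [← hPAd] at hPA
  rw [← hPCd] at hPC
  -- the cells of `U`
  obtain ⟨J, hJd⟩ : ∃ J : Finset (ℤ × ℕ), J = Ico 0 S ×ˢ range k := ⟨_, rfl⟩
  have hJcard : (m : ℝ) * J.card ≤ 2 * T := by
    have h1 : (J.card : ℝ) = S * k := by
      rw [hJd, card_product, card_range, Int.card_Ico]
      push_cast
      have h2 : ((S - 0).toNat : ℝ) = S := by
        have h3 : ((S - 0).toNat : ℤ) = S := by
          rw [Int.toNat_of_nonneg (by omega)]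
          ring
        exact_mod_cast h3
      rw [h2]
    rw [h1]
    linarith [mul_comm (m : ℝ) (S * k)]
  have hJu : ∀ c ∈ J, (uu k m U c : ℝ) ≤ (ρ + η) * m := by
    rintro ⟨s, l⟩ hc
    rw [hJd, mem_product, mem_Ico, mem_range] at hc
    obtain ⟨⟨hs1, hs2⟩, hl⟩ := hc
    simp only at hs1 hs2 hl
    refine hUp (s * (k * m) + l) ?_ ?_
    · have : 0 ≤ s * (k * m) := mul_nonneg hs1 hkmz.le
      omega
    · have h1 : (s + 1) * ((k : ℤ) * m) ≤ S * (k * m) := by
        apply mul_le_mul_of_nonneg_right _ hkmz.le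
        omega
      have h2 : S * ((k : ℤ) * m) ≤ 2 * T := by exact_mod_cast hS1
      have h3 : (l : ℤ) < k := by exact_mod_cast hl
      have h4 : (k : ℤ) * (m - 1) = k * m - k := by ring
      rw [h4]
      linarith
  have hJs : (ρ - 2 * η) * (2 * T) ≤ ∑ c ∈ J, (uu k m U c : ℝ) := by
    have h1 := cover hk hm1 (fun x => if x ∈ U then (1 : ℝ) else 0)
      (fun x => by split_ifs <;> norm_num) (Ico 0 (S * (k * m))) (Ico 0 S) (by
        intro x hx _
        rw [mem_Ico] at hx ⊢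
        exact ⟨Int.ediv_nonneg hx.1 hkmz.le, Int.ediv_lt_of_lt_mul hkmz hx.2⟩)
    have h2 : ∀ c : ℤ × ℕ, ∑ t ∈ range m, (if cl k m c t ∈ U then (1 : ℝ) else 0) =
        (uu k m U c : ℝ) := by
      intro c
      unfold uu
      rw [card_filter]
      push_cast
      rfl
    simp_rw [h2] at h1
    rw [← hJd] at h1
    have h3 : ∑ x ∈ Ico 0 (S * (k * m)), (if x ∈ U then (1 : ℝ) else 0) =
        (((Ico 0 (S * (k * m))).filter (fun x => x ∈ U)).card : ℝ) := by
      rw [card_filter]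
      push_cast
      rfl
    rw [h3] at h1
    have h4 : U ⊆ (Ico 0 (S * (k * m))).filter (fun x => x ∈ U) ∪ Ico (S * (k * m)) (2 * (T : ℤ)) := by
      intro x hx
      have h5 := hU hx
      rw [mem_Ico] at h5
      rw [mem_union, mem_filter, mem_Ico, mem_Ico]
      by_cases h6 : x < S * (k * m)
      · left; exact ⟨⟨h5.1, h6⟩, hx⟩
      · right; exact ⟨not_lt.1 h6, h5.2⟩
    have h5 : (U.card : ℝ) ≤ (((Ico 0 (S * (k * m))).filter (fun x => x ∈ U)).card : ℝ) + k * m := by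
      have h6 := (card_le_card h4).trans (card_union_le _ _)
      have h7 : ((Ico (S * ((k : ℤ) * m)) (2 * (T : ℤ))).card : ℝ) ≤ k * m := by
        rw [Int.card_Ico]
        have h8 : ((2 * (T : ℤ) - S * (k * m)).toNat : ℤ) ≤ k * m := by
          have h9 : 2 * (T : ℤ) < (S + 1) * (k * m) := by exact_mod_cast hS2
          exact toNat_cast_le hkmz.le (by linarith)
        exact_mod_cast h8
      have h8 : (U.card : ℝ) ≤ (((Ico 0 (S * (k * m))).filter (fun x => x ∈ U)).card : ℝ) +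
          ((Ico (S * ((k : ℤ) * m)) (2 * (T : ℤ))).card : ℝ) := by exact_mod_cast h6
      linarith
    have e : (ρ - 2 * η) * (2 * T) = (ρ - η) * (2 * T) - 2 * (η * T) := by ring
    linarith
  -- the bad sums
  obtain ⟨B1, hB1d⟩ : ∃ B1 : Finset (ℤ × ℕ), B1 = J.filter (fun c => (uu k m U c : ℝ) <
      (ρ - ε / 16) * m) := ⟨_, rfl⟩
  have hρ0 : 0 ≤ ρ + η := by linarith
  have hbc := badcount (ε := ε) J (fun c => (uu k m U c : ℝ)) hm0 hJu hJcard hρ0 hη0.le hJs
  rw [← hB1d] at hbc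
  obtain ⟨Out, hOutd⟩ : ∃ Out : Finset (ℤ × ℕ),
      Out = (Icc (-(2 * A)) (-1) ∪ Icc S (2 * B)) ×ˢ range (2 * k) := ⟨_, rfl⟩
  have hOut : (m : ℝ) * Out.card ≤ 20 * (η * T) := by
    have h1 : (Out.card : ℝ) ≤ (2 * A + (2 * B + 1 - S)) * (2 * k) := by
      rw [hOutd, card_product, card_range]
      push_cast
      apply mul_le_mul_of_nonneg_right _ (by positivity)
      have h2 := card_union_le (Icc (-(2 * A)) (-1)) (Icc S (2 * B))
      rw [Int.card_Icc, Int.card_Icc] at h2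
      have h3 : (((-1 + 1 - -(2 * A)).toNat : ℕ) : ℤ) = 2 * A := by omega
      have h4 : (((2 * B + 1 - S).toNat : ℕ) : ℤ) = 2 * B + 1 - S := by omega
      have h5 : (((Icc (-(2 * A)) (-1) ∪ Icc S (2 * B)).card : ℕ) : ℤ) ≤ 2 * A + (2 * B + 1 - S) := by
        have h6 : (((Icc (-(2 * A)) (-1) ∪ Icc S (2 * B)).card : ℕ) : ℤ) ≤
            (((-1 + 1 - -(2 * A)).toNat + (2 * B + 1 - S).toNat : ℕ) : ℤ) := Nat.cast_le.2 h2
        rw [Nat.cast_add, h3, h4] at h6
        exact h6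
      exact_mod_cast h5
    have h2 : (2 * (A : ℝ) + (2 * B + 1 - S)) * (k * m) ≤ 10 * (η * T) := by
      have e : (2 * (A : ℝ) + (2 * B + 1 - S)) * (k * m) = 2 * ((A - 1) * (k * m)) +
          2 * ((B - 1) * (k * m)) - (S + 1) * (k * m) + 6 * (k * m) := by ring
      rw [e]
      linarith
    calc (m : ℝ) * Out.card ≤ m * ((2 * A + (2 * B + 1 - S)) * (2 * k)) :=
          mul_le_mul_of_nonneg_left h1 hm0.le
      _ = 2 * ((2 * A + (2 * B + 1 - S)) * (k * m)) := by ring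
      _ ≤ 20 * (η * T) := by linarith
  obtain ⟨Bad, hBadd⟩ : ∃ Bad : Finset (ℤ × ℕ),
      Bad = (B1 ∪ B1.image (fun c => (c.1, c.2 + k))) ∪ Out := ⟨_, rfl⟩
  have hBadcard : ε * (m * Bad.card) ≤ 200 * (η * T) := by
    have h1 : (Bad.card : ℝ) ≤ B1.card + B1.card + Out.card := by
      have h2 : Bad.card ≤ B1.card + B1.card + Out.card := by
        rw [hBadd]
        refine (card_union_le _ _).trans (Nat.add_le_add_right ?_ _)
        refine (card_union_le _ _).trans (Nat.add_le_add_left ?_ _)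
        exact card_image_le
      exact_mod_cast h2
    have h2 : ε * (m * B1.card) ≤ 96 * (η * T) := by
      have e : ε * (m * B1.card) = 16 * ((B1.card : ℝ) * (ε / 16 * m)) := by ring
      rw [e]
      linarith
    have h3 : ε * (m * Out.card) ≤ 2 * (η * T) := by
      calc ε * (m * Out.card) ≤ ε * (20 * (η * T)) := mul_le_mul_of_nonneg_left hOut hε.le
        _ ≤ (1 / 10) * (20 * (η * T)) := mul_le_mul_of_nonneg_right hε1 (by positivity)
        _ = 2 * (η * T) := by ring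
    have h4 : ε * (m * Bad.card) ≤ ε * (m * (B1.card + B1.card + Out.card)) :=
      mul_le_mul_of_nonneg_left (mul_le_mul_of_nonneg_left h1 hm0.le) hε.le
    have e : ε * (m * ((B1.card : ℝ) + B1.card + Out.card)) =
        2 * (ε * (m * B1.card)) + ε * (m * Out.card) := by ring
    rw [e] at h4
    linarith
  have hBadmem : ∀ p ∈ C, ∀ p' ∈ C, (uu k m U (p.1 + p'.1, p.2 + p'.2) : ℝ) < (ρ - ε / 8) * m →
      (p.1 + p'.1, p.2 + p'.2) ∈ Bad := by
    rintro ⟨v, i⟩ hp ⟨v', i'⟩ hp' hlt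
    rw [hCd, mem_product, mem_Icc, mem_range] at hp hp'
    simp only at hp hp' hlt ⊢
    rw [hBadd, mem_union, mem_union]
    by_cases hs : 0 ≤ v + v' ∧ v + v' < S
    · left
      by_cases hl : i + i' < k
      · left
        rw [hB1d, mem_filter, hJd, mem_product, mem_Ico, mem_range]
        refine ⟨⟨hs, hl⟩, hlt.trans_le ?_⟩
        apply mul_le_mul_of_nonneg_right _ hm0.le
        linarith
      · right
        rw [mem_image]
        refine ⟨(v + v', i + i' - k), ?_, ?_⟩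
        · rw [hB1d, mem_filter, hJd, mem_product, mem_Ico, mem_range]
          refine ⟨⟨hs, by simp only; omega⟩, ?_⟩
          have h1 := uu_shift (k := k) (m := m) U (v + v') (i + i' - k)
          rw [Nat.sub_add_cancel (not_lt.1 hl)] at h1
          have h2 : (uu k m U (v + v', i + i' - k) : ℝ) ≤ uu k m U (v + v', i + i') + 1 := by
            exact_mod_cast h1
          have h3 : (1 : ℝ) ≤ ε / 16 * m := by
            refine hηm.trans (mul_le_mul_of_nonneg_right ?_ hm0.le)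
            linarith
          have e : (ρ - ε / 16) * m = (ρ - ε / 8) * m + ε / 16 * m := by ring
          rw [e]
          linarith
        · simp only [Prod.mk.injEq, true_and]
          omega
    · right
      rw [hOutd, mem_product, mem_union, mem_Icc, mem_Icc, mem_range]
      simp only
      omega
  obtain ⟨D, hDd⟩ : ∃ D : Finset ((ℤ × ℕ) × (ℤ × ℕ)), D = (PA ×ˢ PC).filter (fun p =>
      (uu k m U (p.1.1 + p.2.1, p.1.2 + p.2.2) : ℝ) < (ρ - ε / 8) * m) := ⟨_, rfl⟩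
  obtain ⟨P, hPd⟩ : ∃ P : Finset ((ℤ × ℕ) × (ℤ × ℕ)), P = (PA ×ˢ PC).filter (fun p =>
      ¬ (uu k m U (p.1.1 + p.2.1, p.1.2 + p.2.2) : ℝ) < (ρ - ε / 8) * m) := ⟨_, rfl⟩
  have hPAC : PA ⊆ C := by rw [hPAd]; exact filter_subset _ _
  have hPCC : PC ⊆ C := by rw [hPCd]; exact filter_subset _ _
  have hDcard := badpairs C PA PC Bad hPAC D (by
    intro p hp
    rw [hDd, mem_filter, mem_product] at hp
    exact ⟨hp.1.1, hp.1.2, hBadmem _ (hPAC hp.1.1) _ (hPCC hp.1.2) hp.2⟩)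
  have hsplit : (D.card : ℝ) + P.card = PA.card * PC.card := by
    have h1 : D.card + P.card = PA.card * PC.card := by
      rw [hDd, hPd, card_filter_add_card_filter_not, card_product]
    exact_mod_cast h1
  have hPcard : ε ^ 2 / 512 * T ^ 2 ≤ m ^ 2 * P.card := by
    have hDr : (D.card : ℝ) ≤ Bad.card * C.card := by exact_mod_cast hDcard
    have h1 : (ε / 16 * T) * (ε / 16 * T) ≤ (m * PA.card) * (m * PC.card) :=
      mul_le_mul hPA hPC (by positivity) (by positivity)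
    have h2 : (ε * (m * Bad.card)) * (m * C.card) ≤ (200 * (η * T)) * ((1 + 5 * η) * T) :=
      mul_le_mul hBadcard hCcard (by positivity) (by positivity)
    have h3 : (200 * (η * T)) * ((1 + 5 * η) * T) ≤ 400 * η * T ^ 2 := by
      have : (1 + 5 * η) ≤ 2 := by linarith
      calc (200 * (η * T)) * ((1 + 5 * η) * T) = (200 * η * T ^ 2) * (1 + 5 * η) := by ring
        _ ≤ (200 * η * T ^ 2) * 2 := mul_le_mul_of_nonneg_left this (by positivity)
        _ = 400 * η * T ^ 2 := by ring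
    have h4 : 400 * η * T ^ 2 ≤ ε * (ε ^ 2 / 2500 * T ^ 2) := by
      calc 400 * η * (T : ℝ) ^ 2 ≤ 400 * (ε ^ 3 / 10 ^ 6) * T ^ 2 := by
            apply mul_le_mul_of_nonneg_right _ (by positivity)
            linarith
        _ = ε * (ε ^ 2 / 2500 * T ^ 2) := by ring
    have h5 : ε * (m ^ 2 * (Bad.card * C.card)) ≤ ε * (ε ^ 2 / 2500 * T ^ 2) := by
      calc ε * (m ^ 2 * ((Bad.card : ℝ) * C.card)) = (ε * (m * Bad.card)) * (m * C.card) := by ring
        _ ≤ _ := h2.trans (h3.trans h4)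
    have h6 := le_of_mul_le_mul_left h5 hε
    have h7 : (m : ℝ) ^ 2 * D.card ≤ m ^ 2 * (Bad.card * C.card) :=
      mul_le_mul_of_nonneg_left hDr (by positivity)
    have e1 : (m : ℝ) ^ 2 * P.card = (m * PA.card) * (m * PC.card) - m ^ 2 * D.card := by
      have : (P.card : ℝ) = PA.card * PC.card - D.card := by linarith
      rw [this]
      ring
    rw [e1]
    have h8 : 0 ≤ ε ^ 2 * (T : ℝ) ^ 2 := by positivity
    have e2 : (ε / 16 * T) * (ε / 16 * T) = ε ^ 2 * (T : ℝ) ^ 2 / 256 := by ring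
    have e3 : ε ^ 2 / 2500 * (T : ℝ) ^ 2 = ε ^ 2 * (T : ℝ) ^ 2 / 2500 := by ring
    have e4 : ε ^ 2 / 512 * (T : ℝ) ^ 2 = ε ^ 2 * (T : ℝ) ^ 2 / 512 := by ring
    rw [e2] at h1
    rw [e3] at h6
    rw [e4]
    linarith
  have hcell := hC k m (2 * T) U f g η hk hη0.le hf hg hfp P (by
    intro p hp
    rw [hPd, mem_filter, mem_product] at hp
    have hp1 := hPAC hp.1.1
    have hp2 := hPCC hp.1.2
    rw [hCd, mem_product, mem_Icc, mem_range] at hp1 hp2
    have hkey : ∀ v : ℤ, -A ≤ v → v ≤ B → (|v| + 1) * ((k : ℤ) * m) ≤ ((2 * T : ℕ) : ℤ) := by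
      intro v h1 h2
      have h3 : |v| ≤ max A B := by
        rw [abs_le]
        constructor
        · have := le_max_left A B
          omega
        · exact h2.trans (le_max_right A B)
      have h4 : ((max A B : ℤ) : ℝ) * (k * m) ≤ (1 + η) * T + k * m := by
        rcases max_choice A B with h | h
        · rw [h]; linarith
        · rw [h]; linarith
      have h5 : (((|v| + 1) * ((k : ℤ) * m) : ℤ) : ℝ) ≤ 2 * T := by
        push_cast
        have h6 : |(v : ℝ)| ≤ ((max A B : ℤ) : ℝ) := by exact_mod_cast h3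
        have h7 : (|(v : ℝ)| + 1) * (k * m) ≤ (((max A B : ℤ) : ℝ) + 1) * (k * m) :=
          mul_le_mul_of_nonneg_right (by linarith) hh0.le
        have h8 : η * T ≤ 1 / 10 ^ 9 * T := mul_le_mul_of_nonneg_right hη4 hT0.le
        linarith
      exact_mod_cast h5
    exact ⟨hp1.2, hp2.2, hkey _ hp1.1.1 hp1.1.2, hkey _ hp2.1.1 hp2.1.2⟩)
  have hterm : ∀ p ∈ P, c₁ / 2 * (m : ℝ) ^ 2 ≤
      ∑ t : ZMod m, ∑ t' : ZMod m, f (cl k m p.1 t.val) * g (cl k m p.2 t'.val) *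
        (if t + t' ∈ vs k m U p.1 p.2 then (1 : ℝ) else 0) - η * (m : ℝ) ^ 2 := by
    intro p hp
    rw [hPd, mem_filter, mem_product] at hp
    obtain ⟨⟨hp1, hp2⟩, hp3⟩ := hp
    rw [hPAd, mem_filter] at hp1
    rw [hPCd, mem_filter] at hp2
    have s1 : (α - ε / 8) * m ≤ ∑ t : ZMod m, f (cl k m p.1 t.val) := by
      rw [zsum (fun t => f (cl k m p.1 t))]; exact hp1.2
    have s2 : (γ - ε / 8) * m ≤ ∑ t : ZMod m, g (cl k m p.2 t.val) := by
      rw [zsum (fun t => g (cl k m p.2 t))]; exact hp2.2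
    have s3 : (ρ - ε / 8) * m ≤ ((vs k m U p.1 p.2).card : ℝ) := by
      rw [vs_card]; exact not_lt.1 hp3
    have s4 : ε / 2 * m ≤ (α - ε / 8) * m := mul_le_mul_of_nonneg_right (by linarith) hm0.le
    have s5 : ε / 2 * m ≤ (γ - ε / 8) * m := mul_le_mul_of_nonneg_right (by linarith) hm0.le
    have s6 : ε / 2 * m ≤ (ρ - ε / 8) * m := mul_le_mul_of_nonneg_right (by linarith) hm0.le
    have s7 : (1 + ε / 2) * m ≤ (α - ε / 8) * m + (γ - ε / 8) * m + (ρ - ε / 8) * m := by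
      have e : (α - ε / 8) * m + (γ - ε / 8) * m + (ρ - ε / 8) * m =
          (α + γ + ρ - 3 * ε / 8) * m := by ring
      rw [e]
      exact mul_le_mul_of_nonneg_right (by linarith) hm0.le
    have key := hP m hm (fun t => f (cl k m p.1 t.val)) (fun t => g (cl k m p.2 t.val))
      (vs k m U p.1 p.2) (fun t => hf _) (fun t => hg _) (s4.trans s1) (s5.trans s2) (s6.trans s3)
      (by linarith)
    have e : η * (m : ℝ) ^ 2 ≤ c₁ / 2 * (m : ℝ) ^ 2 := mul_le_mul_of_nonneg_right hη1 (by positivity)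
    have key' : c₁ * (m : ℝ) ^ 2 ≤ ∑ t : ZMod m, ∑ t' : ZMod m,
        f (cl k m p.1 t.val) * g (cl k m p.2 t'.val) *
        (if t + t' ∈ vs k m U p.1 p.2 then (1 : ℝ) else 0) := by
      convert key using 6
    linarith
  have hsum := card_nsmul_le_sum P _ _ hterm
  rw [nsmul_eq_mul] at hsum
  have hfin := hsum.trans hcell
  have e : ((2 * T : ℕ) : ℤ) = 2 * (T : ℤ) := by push_cast; rfl
  rw [e] at hfin
  refine le_trans ?_ hfin
  have h1 : c₁ / 2 * (ε ^ 2 / 512 * T ^ 2) ≤ c₁ / 2 * (m ^ 2 * P.card) :=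
    mul_le_mul_of_nonneg_left hPcard (by positivity)
  have h2 : 0 ≤ c₁ * ε ^ 2 * (T : ℝ) ^ 2 := by positivity
  have e1 : c₁ * ε ^ 2 / 2000 * (T : ℝ) ^ 2 = c₁ * ε ^ 2 * (T : ℝ) ^ 2 / 2000 := by ring
  have e2 : c₁ / 2 * (ε ^ 2 / 512 * (T : ℝ) ^ 2) = c₁ * ε ^ 2 * (T : ℝ) ^ 2 / 1024 := by ring
  have e3 : (P.card : ℝ) * (c₁ / 2 * (m : ℝ) ^ 2) = c₁ / 2 * (m ^ 2 * P.card) := by ring
  rw [e1, e3]
  rw [e2] at h1
  linarith

end Pool.Agent.N679.RG
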