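import Pool.Agent.N679.RG.Stm2

/-!
# Project RH, CELL: counting pairs cell by cell (helper482)
-/

set_option autoImplicit false

namespace Pool.Agent.N679.RG

open Finset Filter Topology

namespace CELL

theorem cell_inj {k m : ℕ} (hk : 1 ≤ k) {v v' : ℤ} {i i' a a' : ℕ} (hi : i < k) (hi' : i' < k)
    (ha : a < m) (ha' : a' < m)
    (h : v * (k * m) + i + k * a = v' * (k * m) + i' + k * a') : v = v' ∧ i = i' ∧ a = a' := by
  have hk0 : (0 : ℤ) < k := by exact_mod_cast hk
  have hm0 : (0 : ℤ) < m := by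
    have : 0 < m := by omega
    exact_mod_cast this
  have h1 : (i : ℤ) = i' := by
    have e1 : ((i : ℤ) + k * (v * m + a)) % k = i := by
      rw [Int.add_mul_emod_self_left, Int.emod_eq_of_lt (by positivity) (by exact_mod_cast hi)]
    have e2 : ((i' : ℤ) + k * (v' * m + a')) % k = i' := by
      rw [Int.add_mul_emod_self_left, Int.emod_eq_of_lt (by positivity) (by exact_mod_cast hi')]
    rw [← e1, ← e2]
    congr 1
    linear_combination h
  have h2 : v * m + a = v' * m + a' := by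
    apply mul_left_cancel₀ hk0.ne'
    linear_combination h - h1
  have h3 : (a : ℤ) = a' := by
    have e1 : ((a : ℤ) + m * v) % m = a := by
      rw [Int.add_mul_emod_self_left, Int.emod_eq_of_lt (by positivity) (by exact_mod_cast ha)]
    have e2 : ((a' : ℤ) + m * v') % m = a' := by
      rw [Int.add_mul_emod_self_left, Int.emod_eq_of_lt (by positivity) (by exact_mod_cast ha')]
    rw [← e1, ← e2]
    congr 1
    linear_combination h2
  refine ⟨?_, by exact_mod_cast h1, by exact_mod_cast h3⟩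
  apply mul_right_cancel₀ hm0.ne'
  linear_combination h2 - h3

theorem cell_box {k m R : ℕ} {v : ℤ} {i a : ℕ} (hi : i < k) (ha : a < m)
    (hR : (|v| + 1) * (k * m) ≤ (R : ℤ)) :
    -(R : ℤ) ≤ v * (k * m) + i + k * a - k * m ∧ v * (k * m) + i + k * a ≤ R := by
  have h0 : (0 : ℤ) ≤ (k : ℤ) * m := by positivity
  have h1 : v * ((k : ℤ) * m) ≤ |v| * (k * m) := mul_le_mul_of_nonneg_right (le_abs_self v) h0
  have h2 : -|v| * ((k : ℤ) * m) ≤ v * (k * m) := mul_le_mul_of_nonneg_right (neg_abs_le v) h0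
  have h3 : (i : ℤ) + k * a < k * m := by
    have e1 : (a : ℤ) + 1 ≤ m := by exact_mod_cast ha
    have e2 : (i : ℤ) < k := by exact_mod_cast hi
    have e3 : (k : ℤ) * (a + 1) ≤ k * m := mul_le_mul_of_nonneg_left e1 (by positivity)
    linarith
  have h4 : (0 : ℤ) ≤ (i : ℤ) + k * a := by positivity
  constructor
  · linarith
  · linarith

end CELL

open CELL

theorem t_CELL : S_CELL := by
  classical
  intro k m R _ U f g η hk hη hf hg hper P hP
  have hm0 : 0 < m := Nat.pos_of_ne_zero (NeZero.ne m)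
  obtain ⟨F, hF⟩ : ∃ F : ℤ × ℤ → ℝ, ∀ x z, F (x, z) = f x * g z * (if x + z ∈ U then (1 : ℝ) else 0) :=
    ⟨fun q => f q.1 * g q.2 * (if q.1 + q.2 ∈ U then (1 : ℝ) else 0), fun _ _ => rfl⟩
  have hF0 : ∀ q, 0 ≤ F q := by
    rintro ⟨x, z⟩
    rw [hF]
    refine mul_nonneg (mul_nonneg (hf x).1 (hg z).1) ?_
    split_ifs <;> norm_num
  obtain ⟨φ, hφ⟩ : ∃ φ : ((ℤ × ℕ) × (ℤ × ℕ)) × (ZMod m × ZMod m) → ℤ × ℤ, ∀ p t t', φ (p, (t, t')) =
      (if t.val + t'.val < m then cl k m p.1 t.val else cl k m p.1 t.val - k * m,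
        cl k m p.2 t'.val) :=
    ⟨fun y => (if y.2.1.val + y.2.2.val < m then cl k m y.1.1 y.2.1.val
      else cl k m y.1.1 y.2.1.val - k * m, cl k m y.1.2 y.2.2.val), fun _ _ _ => rfl⟩
  -- the terms
  have hterm : ∀ p : (ℤ × ℕ) × (ℤ × ℕ), ∀ t t' : ZMod m,
      f (cl k m p.1 t.val) * g (cl k m p.2 t'.val) *
        (if t + t' ∈ vs k m U p.1 p.2 then (1 : ℝ) else 0) ≤ F (φ (p, (t, t'))) + η := by
    intro p t t'
    have hmem : t + t' ∈ vs k m U p.1 p.2 ↔
        cl k m (p.1.1 + p.2.1, p.1.2 + p.2.2) (t + t').val ∈ U := by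
      unfold vs
      rw [mem_filter]
      exact ⟨fun h => h.2, fun h => ⟨mem_univ _, h⟩⟩
    rw [hφ]
    by_cases hlt : t.val + t'.val < m
    · rw [if_pos hlt, hF]
      have hval : (t + t').val = t.val + t'.val := by
        rw [ZMod.val_add, Nat.mod_eq_of_lt hlt]
      have e : cl k m (p.1.1 + p.2.1, p.1.2 + p.2.2) (t + t').val =
          cl k m p.1 t.val + cl k m p.2 t'.val := by
        rw [hval]
        unfold cl
        push_cast
        ring
      rw [e] at hmem
      by_cases hU : cl k m p.1 t.val + cl k m p.2 t'.val ∈ U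
      · rw [if_pos (hmem.2 hU), if_pos hU]
        linarith
      · rw [if_neg (fun h => hU (hmem.1 h)), if_neg hU]
        linarith
    · rw [if_neg hlt, hF]
      have hval : (t + t').val + m = t.val + t'.val := by
        rw [ZMod.val_add, Nat.mod_eq_sub_mod (not_lt.1 hlt), Nat.mod_eq_of_lt]
        · have := not_lt.1 hlt
          omega
        · have h1 := ZMod.val_lt t
          have h2 := ZMod.val_lt t'
          omega
      have e : cl k m (p.1.1 + p.2.1, p.1.2 + p.2.2) (t + t').val =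
          cl k m p.1 t.val - k * m + cl k m p.2 t'.val := by
        have hv : (((t + t').val : ℕ) : ℤ) = t.val + t'.val - m := by
          have := congrArg (Nat.cast (R := ℤ)) hval
          push_cast at this
          linarith
        unfold cl
        rw [hv]
        push_cast
        ring
      rw [e] at hmem
      by_cases hU : cl k m p.1 t.val - k * m + cl k m p.2 t'.val ∈ U
      · rw [if_pos (hmem.2 hU), if_pos hU, mul_one, mul_one]
        have h1 := hper (cl k m p.1 t.val - k * m)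
        rw [sub_add_cancel] at h1
        have h2 := (abs_le.1 h1).2
        have h3 := hg (cl k m p.2 t'.val)
        have h4 : f (cl k m p.1 t.val) * g (cl k m p.2 t'.val) ≤
            (f (cl k m p.1 t.val - k * m) + η) * g (cl k m p.2 t'.val) :=
          mul_le_mul_of_nonneg_right (by linarith) h3.1
        have h5 : η * g (cl k m p.2 t'.val) ≤ η := mul_le_of_le_one_right hη h3.2
        nlinarith
      · rw [if_neg (fun h => hU (hmem.1 h)), if_neg hU]
        linarith
  -- injectivity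
  have hinj : Set.InjOn φ (P ×ˢ (univ : Finset (ZMod m × ZMod m)) : Finset _) := by
    rintro ⟨p, t, t'⟩ hp ⟨q, s, s'⟩ hq heq
    rw [mem_coe, mem_product] at hp hq
    obtain ⟨p1, p2, -, -⟩ := hP p hp.1
    obtain ⟨q1, q2, -, -⟩ := hP q hq.1
    rw [hφ, hφ, Prod.mk.injEq] at heq
    obtain ⟨hx, hz⟩ := heq
    unfold cl at hx hz
    obtain ⟨z1, z2, z3⟩ := cell_inj hk p2 q2 (ZMod.val_lt t') (ZMod.val_lt s') hz
    have hts' : t' = s' := ZMod.val_injective m z3
    have key : (if t.val + t'.val < m then p.1.1 else p.1.1 - 1) =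
        (if s.val + s'.val < m then q.1.1 else q.1.1 - 1) ∧ p.1.2 = q.1.2 ∧ t.val = s.val := by
      refine cell_inj hk p1 q1 (ZMod.val_lt t) (ZMod.val_lt s) ?_
      split_ifs at hx ⊢ <;> linarith
    obtain ⟨x1, x2, x3⟩ := key
    have hts : t = s := ZMod.val_injective m x3
    rw [x3, z3] at x1
    have x4 : p.1.1 = q.1.1 := by
      split_ifs at x1 <;> linarith
    have hpq : p = q := Prod.ext (Prod.ext x4 x2) (Prod.ext z1 z2)
    rw [hpq, hts, hts']
  have hbox : (P ×ˢ (univ : Finset (ZMod m × ZMod m))).image φ ⊆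
      Icc (-(R : ℤ)) R ×ˢ Icc (-(R : ℤ)) R := by
    intro y hy
    obtain ⟨⟨p, t, t'⟩, hp, rfl⟩ := mem_image.1 hy
    rw [mem_product] at hp
    obtain ⟨p1, p2, p3, p4⟩ := hP p hp.1
    have b1 := cell_box p1 (ZMod.val_lt t) p3
    have b2 := cell_box p2 (ZMod.val_lt t') p4
    have h0 : (0 : ℤ) ≤ (k : ℤ) * m := by positivity
    rw [hφ, mem_product, mem_Icc, mem_Icc]
    unfold cl
    refine ⟨?_, by linarith [b2.1], b2.2⟩
    show -(R : ℤ) ≤ (if t.val + t'.val < m then p.1.1 * (k * m) + p.1.2 + k * t.val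
        else p.1.1 * (k * m) + p.1.2 + k * t.val - k * m) ∧
      (if t.val + t'.val < m then p.1.1 * (k * m) + p.1.2 + k * t.val
        else p.1.1 * (k * m) + p.1.2 + k * t.val - k * m) ≤ (R : ℤ)
    split_ifs
    · exact ⟨by linarith [b1.1], b1.2⟩
    · exact ⟨b1.1, by linarith [b1.2]⟩
  -- the sum
  have hcard : ∀ c : ℝ, ∑ _t : ZMod m, ∑ _t' : ZMod m, c = c * (m : ℝ) ^ 2 := by
    intro c
    rw [sum_const, sum_const, card_univ, ZMod.card, nsmul_eq_mul, nsmul_eq_mul]
    ring
  calc ∑ p ∈ P, (∑ t : ZMod m, ∑ t' : ZMod m, f (cl k m p.1 t.val) * g (cl k m p.2 t'.val) *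
        (if t + t' ∈ vs k m U p.1 p.2 then (1 : ℝ) else 0) - η * (m : ℝ) ^ 2)
      ≤ ∑ p ∈ P, ∑ t : ZMod m, ∑ t' : ZMod m, F (φ (p, (t, t'))) := by
        refine sum_le_sum fun p _ => ?_
        rw [sub_le_iff_le_add, ← hcard η, ← sum_add_distrib]
        refine sum_le_sum fun t _ => ?_
        rw [← sum_add_distrib]
        exact sum_le_sum fun t' _ => hterm p t t'
    _ = ∑ y ∈ P ×ˢ (univ : Finset (ZMod m × ZMod m)), F (φ y) := by
        rw [sum_product]
        refine sum_congr rfl fun p _ => ?_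
        rw [← univ_product_univ, sum_product]
    _ = ∑ y ∈ (P ×ˢ (univ : Finset (ZMod m × ZMod m))).image φ, F y := (sum_image hinj).symm
    _ ≤ ∑ y ∈ Icc (-(R : ℤ)) R ×ˢ Icc (-(R : ℤ)) R, F y :=
        sum_le_sum_of_subset_of_nonneg hbox fun y _ _ => hF0 y
    _ = _ := by
        rw [sum_product]
        refine sum_congr rfl fun x _ => sum_congr rfl fun z _ => ?_
        rw [hF]

end Pool.Agent.N679.RG
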