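import Pool.Agent.N679.RG.Stm

/-!
# Project RG: almost cliques among the forms `n + M v`, `E - n + M v`
-/

set_option autoImplicit false

namespace Pool.Agent.N679.RG

open Finset Filter Topology
open Pool.Agent.N646.RO (Rgh)

namespace CLQ2

theorem ceilM (T : ℕ) (hT : 1 ≤ T) : ∃ M : ℕ, (18 / 5 : ℝ) * (M : ℝ) < T ∧
    (T : ℝ) ≤ (18 / 5) * ((M + 1 : ℕ) : ℝ) := by
  have hlam : (0 : ℝ) < 18 / 5 := by norm_num
  have hTr : (0 : ℝ) < T := by exact_mod_cast hT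
  obtain ⟨M, hM⟩ : ∃ M : ℕ, M + 1 = ⌈(T : ℝ) / (18 / 5)⌉₊ := by
    have : 0 < ⌈(T : ℝ) / (18 / 5)⌉₊ := Nat.ceil_pos.2 (by positivity)
    exact ⟨⌈(T : ℝ) / (18 / 5)⌉₊ - 1, by omega⟩
  refine ⟨M, ?_, ?_⟩
  · have h1 : (M : ℝ) < (T : ℝ) / (18 / 5) := by
      rw [← Nat.lt_ceil]
      omega
    rw [lt_div_iff₀ hlam] at h1
    linarith
  · have h1 : (T : ℝ) / (18 / 5) ≤ ((M + 1 : ℕ) : ℝ) := by
      rw [hM]; exact Nat.le_ceil _
    rw [div_le_iff₀ hlam] at h1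
    linarith

theorem min_pos' (f : ℕ → ℝ) (hf : ∀ n, 0 < f n) (M : ℕ) : ∃ κ : ℝ, 0 < κ ∧ ∀ n ≤ M, κ ≤ f n := by
  induction M with
  | zero => exact ⟨f 0, hf 0, fun n hn => by rw [Nat.le_zero.1 hn]⟩
  | succ M ih =>
    obtain ⟨κ, h1, h2⟩ := ih
    refine ⟨min κ (f (M + 1)), lt_min h1 (hf _), fun n hn => ?_⟩
    rcases Nat.lt_or_ge n (M + 1) with h | h
    · exact (min_le_left _ _).trans (h2 n (by omega))
    · have : n = M + 1 := by omega
      rw [this]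
      exact min_le_right _ _

theorem memf {α : Type*} {p : α → Prop} {inst : DecidablePred p} {s : Finset α} {a : α} :
    a ∈ @Finset.filter α p inst s ↔ a ∈ s ∧ p a := @Finset.mem_filter α p inst s a

/-- the set of the forms -/
abbrev VV (T : ℕ) : Finset (Bool × ℕ) := (univ : Finset Bool) ×ˢ range T

theorem card_VV (T : ℕ) : (VV T).card = 2 * T := by
  rw [VV, card_product, card_range]
  rfl

open Classical in
/-- one configuration size -/
theorem one (h2 : S_HIT2) (hM : S_MOM2) (hA : S_ABS) (hB : Pool.Agent.N646.RO.S_BB)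
    (T' M' : ℕ) (hT' : 1 ≤ T') (hM' : (18 / 5 : ℝ) * M' < T') : ∃ K : ℕ, 1 ≤ K ∧
    ∀ M₀ : ℕ, 1 ≤ M₀ → (∀ p : ℕ, p.Prime → p ≤ T' * K → p ∣ M₀) → ∀ lam δ' : ℝ, 0 < lam → 0 < δ' →
    ∃ κ : ℝ, 0 < κ ∧ ∀ᶠ N : ℕ in atTop, ∀ T E : ℕ, lam * Real.log N ≤ T → Even E → 3 * N ≤ 5 * E →
      E + M₀ * T ≤ N →
      (((Fintype.piFinset (fun _ : Fin T' × Fin K => VV T)).filter (fun H => Function.Injective H ∧
        ¬ ∃ (S : Finset (Fin T')) (σ : Fin T' → Fin K), M' + 1 ≤ S.card ∧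
          ∀ g ∈ S, ∀ g' ∈ S, g ≠ g' →
            κ * (N / (Real.log N) ^ 2) ≤ (prs E M₀ N (H (g, σ g)) (H (g', σ g')) : ℝ))).card : ℝ) ≤
        δ' * ((VV T).card : ℝ) ^ (T' * K) := by
  obtain ⟨K, s, hK, δ, c, hδ, hc, hev⟩ := h2 T' M' hT' hM'
  refine ⟨K, hK, fun M₀ hM₀ hdvd lam δ' hlam hδ' => ?_⟩
  choose Cr hCr hCr' using fun r : ℕ => hM δ lam M₀ r hδ hlam hM₀
  obtain ⟨Cb, hCb, hCb'⟩ := hB δ s 4 hδ
  set C : ℝ := ∑ r ∈ range (4 * (T' * K) + 1), Cr r + Cb with hCdef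
  have hs0 : 0 ≤ ∑ r ∈ range (4 * (T' * K) + 1), Cr r := sum_nonneg fun r _ => (hCr r).le
  have hC : 0 < C := by rw [hCdef]; linarith
  obtain ⟨κ, hκ, hAbs⟩ := hA T' K M' c C δ' hc hC hδ'
  refine ⟨κ, hκ, ?_⟩
  have hev2 := (Filter.eventually_all_finset (range (4 * (T' * K) + 1))).2
    (fun r (_ : r ∈ range (4 * (T' * K) + 1)) => hCr' r)
  filter_upwards [hev, hev2, hCb', eventually_ge_atTop 3] with N hN1 hN2 hN3 hN T E hT1 hE hE1 hE2
  have hNR : (3 : ℝ) ≤ N := by exact_mod_cast hN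
  have hl : 0 < Real.log (N : ℝ) := Real.log_pos (by linarith)
  have key := hAbs (VV T) (Icc (N / 18) (5 * N / 9)) (fun n u => Rgh δ N (fv E M₀ n u))
    (fun n u => Rgh δ N (fv E M₀ n u) ∧ (fv E M₀ n u).toNat.Prime)
    (fun n => (((range (⌊Real.log N⌋₊ + s + 1)).filter (fun j : ℕ => Rgh δ N (n - j))).card : ℝ))
    (N : ℝ) (Real.log N) (by linarith) hl (fun _ _ h => h.1) (fun n => Nat.cast_nonneg _)
    (by
      intro r hr
      refine (hN2 r (mem_range.2 (by omega)) T E hT1 hE1 hE2).trans ?_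
      have h1 : Cr r ≤ C := by
        have := Finset.single_le_sum (f := Cr) (s := range (4 * (T' * K) + 1))
          (fun i _ => (hCr i).le) (mem_range.2 (by omega : r < 4 * (T' * K) + 1))
        rw [hCdef]
        linarith
      have h2 : ((T : ℝ) / Real.log N) ^ r ≤ (((VV T).card : ℝ) / Real.log N) ^ r := by
        apply pow_le_pow_left₀ (by positivity)
        apply div_le_div_of_nonneg_right _ hl.le
        rw [card_VV]
        push_cast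
        have : (0 : ℝ) ≤ T := Nat.cast_nonneg T
        linarith
      have h0 := (hCr r).le
      gcongr)
    (by
      have h1 : ∑ n ∈ Icc (N / 18) (5 * N / 9), (((range (⌊Real.log N⌋₊ + s + 1)).filter
          (fun j : ℕ => Rgh δ N (n - j))).card : ℝ) ^ 4 ≤
          ∑ n ∈ Icc (N / 18) (2 * N), (((range (⌊Real.log N⌋₊ + s + 1)).filter
          (fun j : ℕ => Rgh δ N (n - j))).card : ℝ) ^ 4 := by
        apply sum_le_sum_of_subset_of_nonneg
        · apply Icc_subset_Icc_right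
          omega
        · intro i _ _
          positivity
      refine h1.trans (hN3.trans ?_)
      apply mul_le_mul_of_nonneg_right _ (by linarith)
      rw [hCdef]
      linarith)
    (by
      intro H hH hHV
      obtain ⟨S, σ, hS, hsum⟩ := hN1 M₀ E hM₀ hdvd hE hE1 H hH (fun x => by
        have h1 := mem_range.1 (mem_product.1 (hHV x)).2
        have h2 : M₀ * (H x).2 ≤ M₀ * T := Nat.mul_le_mul_left _ h1.le
        omega)
      refine ⟨S, σ, hS, hsum.trans (le_of_eq ?_)⟩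
      apply sum_congr _ (fun _ _ => rfl)
      ext n
      rw [memf, memf]
      constructor
      · rintro ⟨h1, h2, h3⟩
        exact ⟨h1, h2, fun g hg => ⟨h2 _, h3 g hg⟩⟩
      · rintro ⟨h1, h2, h3⟩
        exact ⟨h1, h2, fun g hg => (h3 g hg).2⟩)
  refine le_trans ?_ key
  rw [Nat.cast_le]
  apply card_le_card
  intro H hH
  rw [memf] at hH ⊢
  refine ⟨hH.1, hH.2.1, ?_⟩
  rintro ⟨S, σ, hS, hF⟩
  apply hH.2.2
  refine ⟨S, σ, hS, fun g hg g' hg' hne => (hF g hg g' hg' hne).trans ?_⟩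
  rw [Nat.cast_le, prs]
  apply card_le_card
  intro n hn
  rw [memf] at hn ⊢
  exact ⟨hn.1, hn.2.1.2, hn.2.2.2⟩

end CLQ2

open CLQ2 in
open Classical in
/-- **CLQ2** -/
theorem t_CLQ2 : S_HIT2 → S_MOM2 → S_ABS → Pool.Agent.N646.RO.S_BB → Pool.Agent.N646.RO.S_WC →
    S_CLQ2 := by
  intro h2 hM hA hB hWC ε hε
  have hex : ∀ T : ℕ, ∃ M' K : ℕ, 1 ≤ T → (T : ℝ) ≤ (18 / 5) * ((M' + 1 : ℕ) : ℝ) ∧ 1 ≤ K ∧
    ∀ M₀ : ℕ, 1 ≤ M₀ → (∀ p : ℕ, p.Prime → p ≤ T * K → p ∣ M₀) → ∀ lam δ' : ℝ, 0 < lam → 0 < δ' →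
    ∃ κ : ℝ, 0 < κ ∧ ∀ᶠ N : ℕ in atTop, ∀ T₁ E : ℕ, lam * Real.log N ≤ T₁ → Even E →
      3 * N ≤ 5 * E → E + M₀ * T₁ ≤ N →
      (((Fintype.piFinset (fun _ : Fin T × Fin K => VV T₁)).filter (fun H => Function.Injective H ∧
        ¬ ∃ (S : Finset (Fin T)) (σ : Fin T → Fin K), M' + 1 ≤ S.card ∧
          ∀ g ∈ S, ∀ g' ∈ S, g ≠ g' →
            κ * (N / (Real.log N) ^ 2) ≤ (prs E M₀ N (H (g, σ g)) (H (g', σ g')) : ℝ))).card : ℝ) ≤
        δ' * ((VV T₁).card : ℝ) ^ (T * K) := by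
    intro T
    by_cases hT : 1 ≤ T
    · obtain ⟨M', h1, h3⟩ := ceilM T hT
      obtain ⟨K, hK, h4⟩ := one h2 hM hA hB T M' hT h1
      exact ⟨M', K, fun _ => ⟨h3, hK, h4⟩⟩
    · exact ⟨0, 0, fun h => absurd h hT⟩
  choose Mf Kf hf using hex
  obtain ⟨M, n₀, δ', hδ', hWC'⟩ := hWC (18 / 5) (by norm_num) 1 (ε / 8) (by positivity) Kf
  refine ⟨(∑ T' ∈ range (M + 1), T' * Kf T' + 1).factorial, Nat.factorial_pos _,
    fun lam hlam => ?_⟩
  set M₀ : ℕ := (∑ T' ∈ range (M + 1), T' * Kf T' + 1).factorial with hM₀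
  have hM₀1 : 1 ≤ M₀ := Nat.factorial_pos _
  have hdvd : ∀ T', T' ≤ M → ∀ p : ℕ, p.Prime → p ≤ T' * Kf T' → p ∣ M₀ := by
    intro T' hT' p hp hpT
    apply Nat.dvd_factorial hp.pos (hpT.trans _)
    refine (Finset.single_le_sum (f := fun T' => T' * Kf T') (fun _ _ => Nat.zero_le _)
      (mem_range.2 (by omega : T' < M + 1))).trans (Nat.le_add_right _ _)
  have hκex : ∀ T' : ℕ, ∃ κ : ℝ, 0 < κ ∧ (1 ≤ T' → T' ≤ M → ∀ᶠ N : ℕ in atTop, ∀ T₁ E : ℕ,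
      lam * Real.log N ≤ T₁ → Even E → 3 * N ≤ 5 * E → E + M₀ * T₁ ≤ N →
      (((Fintype.piFinset (fun _ : Fin T' × Fin (Kf T') => VV T₁)).filter
        (fun H => Function.Injective H ∧
        ¬ ∃ (S : Finset (Fin T')) (σ : Fin T' → Fin (Kf T')), Mf T' + 1 ≤ S.card ∧
          ∀ g ∈ S, ∀ g' ∈ S, g ≠ g' →
            κ * (N / (Real.log N) ^ 2) ≤ (prs E M₀ N (H (g, σ g)) (H (g', σ g')) : ℝ))).card : ℝ) ≤
        δ' * ((VV T₁).card : ℝ) ^ (T' * Kf T')) := by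
    intro T'
    by_cases h : 1 ≤ T' ∧ T' ≤ M
    · obtain ⟨h1, h3⟩ := h
      obtain ⟨_, _, h4⟩ := hf T' h1
      obtain ⟨κ, hκ, h5⟩ := h4 M₀ hM₀1 (hdvd T' h3) lam δ' hlam hδ'
      exact ⟨κ, hκ, fun _ _ => h5⟩
    · exact ⟨1, one_pos, fun h1 h3 => absurd ⟨h1, h3⟩ h⟩
  choose κf hκf hκf' using hκex
  obtain ⟨κ, hκ, hκle⟩ := min_pos' κf hκf M
  refine ⟨κ, hκ, ?_⟩
  have hev := (Filter.eventually_all_finset (Icc 1 M)).2
    (fun T' (hT' : T' ∈ Icc 1 M) => hκf' T' (mem_Icc.1 hT').1 (mem_Icc.1 hT').2)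
  have hlog : Tendsto (fun N : ℕ => lam * Real.log (N : ℝ)) atTop atTop :=
    (Real.tendsto_log_atTop.comp tendsto_natCast_atTop_atTop).const_mul_atTop hlam
  filter_upwards [hev, hlog.eventually_ge_atTop (n₀ : ℝ)] with N hN1 hN2 T E hT1 hE hE1 hE2
  have hn0T : n₀ ≤ (VV T).card := by
    rw [card_VV]
    have : (n₀ : ℝ) ≤ T := hN2.trans hT1
    have : n₀ ≤ T := by exact_mod_cast this
    omega
  set G : Finset (Bool × ℕ) → Prop := fun F => ∀ u ∈ F, ∀ u' ∈ F, u ≠ u' →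
    κ * (N / (Real.log N) ^ 2) ≤ (prs E M₀ N u u' : ℝ) with hG
  have hGh : ∀ F F' : Finset (Bool × ℕ), F' ⊆ F → G F → G F' := fun F F' hF hGF u hu u' hu' hne =>
    hGF u (hF hu) u' (hF hu') hne
  have hHit : Pool.Agent.N646.RO.HitM (18 / 5) Kf M δ' (VV T) G := by
    intro T' h1 h3
    refine le_trans ?_ (hN1 T' (mem_Icc.2 ⟨h1, h3⟩) T E hT1 hE hE1 hE2)
    rw [Nat.cast_le]
    apply card_le_card
    intro H hH'
    rw [memf] at hH' ⊢
    refine ⟨hH'.1, hH'.2.1, ?_⟩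
    rintro ⟨S, σ, hS, hF⟩
    apply hH'.2.2
    refine ⟨S, σ, ?_, ?_⟩
    · have h4 := (hf T' h1).1
      have h5 : ((Mf T' + 1 : ℕ) : ℝ) ≤ (S.card : ℝ) := by exact_mod_cast hS
      calc (T' : ℝ) ≤ (18 / 5) * ((Mf T' + 1 : ℕ) : ℝ) := h4
        _ ≤ 18 / 5 * (S.card : ℝ) := mul_le_mul_of_nonneg_left h5 (by norm_num)
    · intro u hu u' hu' hne
      obtain ⟨g, hg, rfl⟩ := mem_image.1 hu
      obtain ⟨g', hg', rfl⟩ := mem_image.1 hu'
      refine le_trans (mul_le_mul_of_nonneg_right (hκle T' h3) (by positivity))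
        (hF g hg g' hg' ?_)
      rintro rfl
      exact hne rfl
  obtain ⟨A, hA1, hA2, hA3⟩ := hWC' (Bool × ℕ) (VV T) G hn0T hGh hHit
  rw [card_VV] at hA2 hA3
  push_cast at hA2 hA3
  have hT0 : (0 : ℝ) ≤ T := Nat.cast_nonneg T
  refine ⟨A, hA1, ?_, ?_⟩
  · refine le_trans ?_ hA2
    have : 0 ≤ ε * T := by positivity
    nlinarith
  · have h5 : (((A ×ˢ A).filter (fun p => p.1 ≠ p.2 ∧
        (prs E M₀ N p.1 p.2 : ℝ) < κ * (N / (Real.log N) ^ 2))).card : ℝ) ≤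
        ((Pool.Agent.N646.RO.badU 1 A G).card : ℝ) := by
      rw [Nat.cast_le]
      apply card_le_card_of_injOn (fun p => ![p.1, p.2])
      · intro p hp
        rw [mem_coe, memf, mem_product] at hp
        rw [mem_coe, Pool.Agent.N646.RO.badU, memf, Fintype.mem_piFinset]
        refine ⟨?_, ?_, ?_⟩
        · intro i
          fin_cases i
          · exact hp.1.1
          · exact hp.1.2
        · intro i j hij
          fin_cases i <;> fin_cases j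
          · rfl
          · exact absurd hij hp.2.1
          · exact absurd hij.symm hp.2.1
          · rfl
        · intro hGp
          have := hGp p.1 (mem_image.2 ⟨0, mem_univ _, rfl⟩) p.2 (mem_image.2 ⟨1, mem_univ _, rfl⟩)
            hp.2.1
          linarith [hp.2.2]
      · intro p _ q _ hpq
        have e1 := congrFun hpq 0
        have e2 := congrFun hpq 1
        exact Prod.ext e1 e2
    refine h5.trans (hA3.trans ?_)
    have : 0 ≤ ε * (T : ℝ) ^ 2 := by positivity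
    nlinarith

end Pool.Agent.N679.RG
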