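import Pool.Agent.N679.RG.Stm2
import Pool.Agent.N679.RG.CLQ2

/-!
# Project RH: almost cliques among the forms `n + q M v`, `E - n + q M v`, uniformly in `q`
-/

set_option autoImplicit false

namespace Pool.Agent.N679.RG

open Finset Filter Topology
open Pool.Agent.N646.RO (Rgh)

open CLQ2 in
open Classical in
/-- one `q` -/
theorem clqM (h2 : S_HIT2) (hM : S_MOM2) (hA : S_ABS) (hB : Pool.Agent.N646.RO.S_BB)
    (hWC : Pool.Agent.N646.RO.S_WC) : ∀ ε : ℝ, 0 < ε → ∃ M₀ : ℕ, 1 ≤ M₀ ∧ Even M₀ ∧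
    ∀ (q : ℕ) (lam : ℝ), 1 ≤ q → 0 < lam →
    ∃ κ : ℝ, 0 < κ ∧ ∀ᶠ N : ℕ in atTop, ∀ T E : ℕ, lam * Real.log N ≤ T → Even E →
      3 * N ≤ 5 * E → E + (q * M₀) * T ≤ N →
      ∃ A ⊆ (univ : Finset Bool) ×ˢ range T, (5 / 9 - ε) * T ≤ (A.card : ℝ) ∧
        (((A ×ˢ A).filter (fun p => p.1 ≠ p.2 ∧
          (prs E (q * M₀) N p.1 p.2 : ℝ) < κ * (N / (Real.log N) ^ 2))).card : ℝ) ≤ ε * (T : ℝ) ^ 2 := by
  intro ε hε
  have hex : ∀ T : ℕ, ∃ M' K : ℕ, 1 ≤ T → (T : ℝ) ≤ (18 / 5) * ((M' + 1 : ℕ) : ℝ) ∧ 1 ≤ K ∧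
    ∀ M₀ : ℕ, 1 ≤ M₀ → (∀ p : ℕ, p.Prime → p ≤ T * K → p ∣ M₀) → ∀ lam δ' : ℝ, 0 < lam → 0 < δ' →
    ∃ κ : ℝ, 0 < κ ∧ ∀ᶠ N : ℕ in atTop, ∀ T₁ E : ℕ, lam * Real.log N ≤ T₁ → Even E →
      3 * N ≤ 5 * E → E + M₀ * T₁ ≤ N →
      (((Fintype.piFinset (fun _ : Fin T × Fin K => VV T₁)).filter (fun H => Function.Injective H ∧
        ¬ ∃ (S : Finset (Fin T)) (σ : Fin T → Fin K), M' + 1 ≤ S.card ∧
          ∀ g ∈ S, ∀ g' ∈ S, g ≠ g' →
            κ * (N / (Real.log N) ^ 2) ≤ (prs E M₀ N (H (g, σ g)) (H (g', σ g')) : ℝ))).card : ℝ) ≤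
        δ' * ((VV T₁).card : ℝ) ^ (T * K) := by
    intro T
    by_cases hT : 1 ≤ T
    · obtain ⟨M', h1, h3⟩ := ceilM T hT
      obtain ⟨K, hK, h4⟩ := one h2 hM hA hB T M' hT h1
      exact ⟨M', K, fun _ => ⟨h3, hK, h4⟩⟩
    · exact ⟨0, 0, fun h => absurd h hT⟩
  choose Mf Kf hf using hex
  obtain ⟨M, n₀, δ', hδ', hWC'⟩ := hWC (18 / 5) (by norm_num) 1 (ε / 8) (by positivity) Kf
  refine ⟨(∑ T' ∈ range (M + 1), T' * Kf T' + 2).factorial, Nat.factorial_pos _,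
    even_iff_two_dvd.2 (Nat.dvd_factorial (by norm_num) (by omega)),
    fun q lam hq hlam => ?_⟩
  set M₀ : ℕ := q * (∑ T' ∈ range (M + 1), T' * Kf T' + 2).factorial with hM₀
  have hM₀1 : 1 ≤ M₀ := Nat.mul_pos hq (Nat.factorial_pos _)
  have hdvd : ∀ T', T' ≤ M → ∀ p : ℕ, p.Prime → p ≤ T' * Kf T' → p ∣ M₀ := by
    intro T' hT' p hp hpT
    apply Dvd.dvd.mul_left
    apply Nat.dvd_factorial hp.pos (hpT.trans _)
    refine (Finset.single_le_sum (f := fun T' => T' * Kf T') (fun _ _ => Nat.zero_le _)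
      (mem_range.2 (by omega : T' < M + 1))).trans (Nat.le_add_right _ _)
  have hκex : ∀ T' : ℕ, ∃ κ : ℝ, 0 < κ ∧ (1 ≤ T' → T' ≤ M → ∀ᶠ N : ℕ in atTop, ∀ T₁ E : ℕ,
      lam * Real.log N ≤ T₁ → Even E → 3 * N ≤ 5 * E → E + M₀ * T₁ ≤ N →
      (((Fintype.piFinset (fun _ : Fin T' × Fin (Kf T') => VV T₁)).filter
        (fun H => Function.Injective H ∧
        ¬ ∃ (S : Finset (Fin T')) (σ : Fin T' → Fin (Kf T')), Mf T' + 1 ≤ S.card ∧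
          ∀ g ∈ S, ∀ g' ∈ S, g ≠ g' →
            κ * (N / (Real.log N) ^ 2) ≤ (prs E M₀ N (H (g, σ g)) (H (g', σ g')) : ℝ))).card : ℝ) ≤
        δ' * ((VV T₁).card : ℝ) ^ (T' * Kf T')) := by
    intro T'
    by_cases h : 1 ≤ T' ∧ T' ≤ M
    · obtain ⟨h1, h3⟩ := h
      obtain ⟨_, _, h4⟩ := hf T' h1
      obtain ⟨κ, hκ, h5⟩ := h4 M₀ hM₀1 (hdvd T' h3) lam δ' hlam hδ'
      exact ⟨κ, hκ, fun _ _ => h5⟩
    · exact ⟨1, one_pos, fun h1 h3 => absurd ⟨h1, h3⟩ h⟩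
  choose κf hκf hκf' using hκex
  obtain ⟨κ, hκ, hκle⟩ := min_pos' κf hκf M
  refine ⟨κ, hκ, ?_⟩
  have hev := (Filter.eventually_all_finset (Icc 1 M)).2
    (fun T' (hT' : T' ∈ Icc 1 M) => hκf' T' (mem_Icc.1 hT').1 (mem_Icc.1 hT').2)
  have hlog : Tendsto (fun N : ℕ => lam * Real.log (N : ℝ)) atTop atTop :=
    (Real.tendsto_log_atTop.comp tendsto_natCast_atTop_atTop).const_mul_atTop hlam
  filter_upwards [hev, hlog.eventually_ge_atTop (n₀ : ℝ)] with N hN1 hN2 T E hT1 hE hE1 hE2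
  have hn0T : n₀ ≤ (VV T).card := by
    rw [card_VV]
    have : (n₀ : ℝ) ≤ T := hN2.trans hT1
    have : n₀ ≤ T := by exact_mod_cast this
    omega
  set G : Finset (Bool × ℕ) → Prop := fun F => ∀ u ∈ F, ∀ u' ∈ F, u ≠ u' →
    κ * (N / (Real.log N) ^ 2) ≤ (prs E M₀ N u u' : ℝ) with hG
  have hGh : ∀ F F' : Finset (Bool × ℕ), F' ⊆ F → G F → G F' := fun F F' hF hGF u hu u' hu' hne =>
    hGF u (hF hu) u' (hF hu') hne
  have hHit : Pool.Agent.N646.RO.HitM (18 / 5) Kf M δ' (VV T) G := by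
    intro T' h1 h3
    refine le_trans ?_ (hN1 T' (mem_Icc.2 ⟨h1, h3⟩) T E hT1 hE hE1 hE2)
    rw [Nat.cast_le]
    apply card_le_card
    intro H hH'
    rw [memf] at hH' ⊢
    refine ⟨hH'.1, hH'.2.1, ?_⟩
    rintro ⟨S, σ, hS, hF⟩
    apply hH'.2.2
    refine ⟨S, σ, ?_, ?_⟩
    · have h4 := (hf T' h1).1
      have h5 : ((Mf T' + 1 : ℕ) : ℝ) ≤ (S.card : ℝ) := by exact_mod_cast hS
      calc (T' : ℝ) ≤ (18 / 5) * ((Mf T' + 1 : ℕ) : ℝ) := h4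
        _ ≤ 18 / 5 * (S.card : ℝ) := mul_le_mul_of_nonneg_left h5 (by norm_num)
    · intro u hu u' hu' hne
      obtain ⟨g, hg, rfl⟩ := mem_image.1 hu
      obtain ⟨g', hg', rfl⟩ := mem_image.1 hu'
      refine le_trans (mul_le_mul_of_nonneg_right (hκle T' h3) (by positivity))
        (hF g hg g' hg' ?_)
      rintro rfl
      exact hne rfl
  obtain ⟨A, hA1, hA2, hA3⟩ := hWC' (Bool × ℕ) (VV T) G hn0T hGh hHit
  rw [card_VV] at hA2 hA3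
  push_cast at hA2 hA3
  have hT0 : (0 : ℝ) ≤ T := Nat.cast_nonneg T
  refine ⟨A, hA1, ?_, ?_⟩
  · refine le_trans ?_ hA2
    have : 0 ≤ ε * T := by positivity
    nlinarith
  · have h5 : (((A ×ˢ A).filter (fun p => p.1 ≠ p.2 ∧
        (prs E M₀ N p.1 p.2 : ℝ) < κ * (N / (Real.log N) ^ 2))).card : ℝ) ≤
        ((Pool.Agent.N646.RO.badU 1 A G).card : ℝ) := by
      rw [Nat.cast_le]
      apply card_le_card_of_injOn (fun p => ![p.1, p.2])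
      · intro p hp
        rw [mem_coe, memf, mem_product] at hp
        rw [mem_coe, Pool.Agent.N646.RO.badU, memf, Fintype.mem_piFinset]
        refine ⟨?_, ?_, ?_⟩
        · intro i
          fin_cases i
          · exact hp.1.1
          · exact hp.1.2
        · intro i j hij
          fin_cases i <;> fin_cases j
          · rfl
          · exact absurd hij hp.2.1
          · exact absurd hij.symm hp.2.1
          · rfl
        · intro hGp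
          have := hGp p.1 (mem_image.2 ⟨0, mem_univ _, rfl⟩) p.2 (mem_image.2 ⟨1, mem_univ _, rfl⟩)
            hp.2.1
          linarith [hp.2.2]
      · intro p _ q _ hpq
        have e1 := congrFun hpq 0
        have e2 := congrFun hpq 1
        exact Prod.ext e1 e2
    refine h5.trans (hA3.trans ?_)
    have : 0 ≤ ε * (T : ℝ) ^ 2 := by positivity
    nlinarith

open Classical in
/-- **CLQ3** -/
theorem t_CLQ3 (h2 : S_HIT2) (hM : S_MOM2) (hA : S_ABS) (hB : Pool.Agent.N646.RO.S_BB)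
    (hWC : Pool.Agent.N646.RO.S_WC) : S_CLQ3 := by
  intro ε hε
  obtain ⟨M₀, hM₀, hev, H⟩ := clqM h2 hM hA hB hWC ε hε
  refine ⟨M₀, hM₀, hev, fun Q lam hlam => ?_⟩
  have hex : ∀ q : ℕ, ∃ κ : ℝ, 0 < κ ∧ (1 ≤ q → ∀ᶠ N : ℕ in atTop, ∀ T E : ℕ, lam * Real.log N ≤ T → Even E →
      3 * N ≤ 5 * E → E + (q * M₀) * T ≤ N →
      ∃ A ⊆ (univ : Finset Bool) ×ˢ range T, (5 / 9 - ε) * T ≤ (A.card : ℝ) ∧
        (((A ×ˢ A).filter (fun p => p.1 ≠ p.2 ∧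
          (prs E (q * M₀) N p.1 p.2 : ℝ) < κ * (N / (Real.log N) ^ 2))).card : ℝ) ≤ ε * (T : ℝ) ^ 2) := by
    intro q
    by_cases hq : 1 ≤ q
    · obtain ⟨κ, h1, h3⟩ := H q lam hq hlam
      exact ⟨κ, h1, fun _ => h3⟩
    · exact ⟨1, one_pos, fun h => absurd h hq⟩
  choose κf hκf hκf' using hex
  obtain ⟨κ, hκ, hκle⟩ := CLQ2.min_pos' κf hκf Q
  refine ⟨κ, hκ, ?_⟩
  have hev2 := (Filter.eventually_all_finset (Icc 1 Q)).2
    (fun q (hq : q ∈ Icc 1 Q) => hκf' q (mem_Icc.1 hq).1)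
  filter_upwards [hev2] with N hN q T E hq1 hq2 hT hE hE1 hE2
  obtain ⟨A, hA1, hA2, hA3⟩ := hN q (mem_Icc.2 ⟨hq1, hq2⟩) T E hT hE hE1 hE2
  refine ⟨A, hA1, hA2, le_trans ?_ hA3⟩
  rw [Nat.cast_le]
  apply card_le_card
  intro p hp
  rw [CLQ2.memf] at hp ⊢
  refine ⟨hp.1, hp.2.1, hp.2.2.trans_le ?_⟩
  exact mul_le_mul_of_nonneg_right (hκle q hq2) (by positivity)

end Pool.Agent.N679.RG
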