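import Mathlib
import Pool.Agent.N646.RO.Stm

/-!
# Project RG (helper679): Goldbach representations with the right order of magnitude in windows of length
`λ log N`, or almost all differences of primes in a Bohr set

Statements of the independent parts.
-/

set_option autoImplicit false

namespace Pool.Agent.N679.RG

open Finset Filter Topology
open Pool.Agent.N646.RO (Rgh)

/-! ## Part 1: forms -/

/-- the values of the forms: `n + M v` for `u = (false, v)` and `E - n + M v` for `u = (true, v)` -/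
def fv (E M n : ℕ) (u : Bool × ℕ) : ℤ := if u.1 then (E : ℤ) - n + M * u.2 else (n : ℤ) + M * u.2

open Classical in
/-- **HIT2** one configuration of forms `n + M v`, `E - n + M v`: `T` classes with `K` forms each. -/
def S_HIT2 : Prop := ∀ T M : ℕ, 1 ≤ T → (18 / 5 : ℝ) * M < T → ∃ K s : ℕ, 1 ≤ K ∧ ∃ δ c : ℝ, 0 < δ ∧ 0 < c ∧
  ∀ᶠ N : ℕ in atTop, ∀ M₀ E : ℕ, 1 ≤ M₀ → (∀ p : ℕ, p.Prime → p ≤ T * K → p ∣ M₀) → Even E →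
    3 * N ≤ 5 * E →
    ∀ H : Fin T × Fin K → Bool × ℕ, Function.Injective H → (∀ x, E + M₀ * (H x).2 ≤ N) →
    ∃ (S : Finset (Fin T)) (σ : Fin T → Fin K), M + 1 ≤ S.card ∧
      c * (N / (Real.log N) ^ (T * K)) ≤
        ∑ n ∈ (Icc (N / 18) (5 * N / 9)).filter (fun n : ℕ => (∀ x, Rgh δ N (fv E M₀ n (H x))) ∧
            ∀ g ∈ S, (fv E M₀ n (H (g, σ g))).toNat.Prime),
          (((range (⌊Real.log N⌋₊ + s + 1)).filter (fun j : ℕ => Rgh δ N (n - j))).card : ℝ)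

open Classical in
/-- **MOM2** moments of the number of rough values among the `2 T` forms. -/
def S_MOM2 : Prop := ∀ (δ lam : ℝ) (M r : ℕ), 0 < δ → 0 < lam → 1 ≤ M → ∃ C : ℝ, 0 < C ∧
  ∀ᶠ N : ℕ in atTop, ∀ T E : ℕ, lam * Real.log N ≤ T → 3 * N ≤ 5 * E → E + M * T ≤ N →
    ∑ n ∈ Icc (N / 18) (5 * N / 9), (((univ ×ˢ range T).filter
      (fun u : Bool × ℕ => Rgh δ N (fv E M n u))).card : ℝ) ^ r ≤ C * N * (T / Real.log N) ^ r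

open Classical in
/-- **ABS** (abstract): for most configurations there is a large transversal all of whose pairs are good. -/
def S_ABS : Prop := ∀ (T K M : ℕ) (c C δ' : ℝ), 0 < c → 0 < C → 0 < δ' → ∃ κ : ℝ, 0 < κ ∧
  ∀ (V : Finset (Bool × ℕ)) (Ω : Finset ℕ) (R P : ℕ → Bool × ℕ → Prop) (B : ℕ → ℝ) (N l : ℝ),
    0 < N → 0 < l → (∀ n u, P n u → R n u) → (∀ n, 0 ≤ B n) →
    (∀ r : ℕ, r ≤ 4 * (T * K) → ∑ n ∈ Ω, ((V.filter (fun u => R n u)).card : ℝ) ^ r ≤ C * N * (V.card / l) ^ r) →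
    (∑ n ∈ Ω, B n ^ 4 ≤ C * N) →
    (∀ H : Fin T × Fin K → Bool × ℕ, Function.Injective H → (∀ x, H x ∈ V) →
      ∃ (S : Finset (Fin T)) (σ : Fin T → Fin K), M + 1 ≤ S.card ∧
        c * (N / l ^ (T * K)) ≤ ∑ n ∈ Ω.filter (fun n => (∀ x, R n (H x)) ∧ ∀ g ∈ S, P n (H (g, σ g))), B n) →
    (((Fintype.piFinset (fun _ : Fin T × Fin K => V)).filter (fun H => Function.Injective H ∧
      ¬ ∃ (S : Finset (Fin T)) (σ : Fin T → Fin K), M + 1 ≤ S.card ∧ ∀ g ∈ S, ∀ g' ∈ S, g ≠ g' →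
        κ * (N / l ^ 2) ≤ ((Ω.filter (fun n => P n (H (g, σ g)) ∧ P n (H (g', σ g')))).card : ℝ))).card : ℝ) ≤
      δ' * (V.card : ℝ) ^ (T * K)

/-- the number of the `n` at which both forms are prime -/
def prs (E M N : ℕ) (u u' : Bool × ℕ) : ℕ :=
  ((Icc (N / 18) (5 * N / 9)).filter (fun n : ℕ => (fv E M n u).toNat.Prime ∧ (fv E M n u').toNat.Prime)).card

open Classical in
/-- **CLQ2** almost cliques of density `5 / 18` among the `2 T` forms. -/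
def S_CLQ2 : Prop := ∀ ε : ℝ, 0 < ε → ∃ M₀ : ℕ, 1 ≤ M₀ ∧ ∀ lam : ℝ, 0 < lam → ∃ κ : ℝ, 0 < κ ∧
  ∀ᶠ N : ℕ in atTop, ∀ T E : ℕ, lam * Real.log N ≤ T → Even E → 3 * N ≤ 5 * E → E + M₀ * T ≤ N →
    ∃ A ⊆ (univ : Finset Bool) ×ˢ range T, (5 / 9 - ε) * T ≤ (A.card : ℝ) ∧
      (((A ×ˢ A).filter (fun p => p.1 ≠ p.2 ∧
        (prs E M₀ N p.1 p.2 : ℝ) < κ * (N / (Real.log N) ^ 2))).card : ℝ) ≤ ε * (T : ℝ) ^ 2

/-! ## Part 2: Bohr sets -/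

/-- distance to the nearest integer -/
noncomputable def nrm (x : ℝ) : ℝ := |x - round x|

open Classical in
/-- the elements `t ≤ W` of the Bohr set with the frequencies `θ` and the radius `ρ` -/
noncomputable def Bh {d : ℕ} (θ : Fin d → ℝ) (ρ : ℝ) (W : ℕ) : Finset ℕ :=
  (Icc 1 W).filter (fun t : ℕ => ∀ i, nrm (t * θ i) ≤ ρ)

/-- **CNTB** Bohr sets have positive density. -/
def S_CNTB : Prop := ∀ (d : ℕ) (ρ : ℝ), 0 < ρ → ∃ (c : ℝ) (W₀ : ℕ), 0 < c ∧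
  ∀ W : ℕ, W₀ ≤ W → ∀ θ : Fin d → ℝ, c * W ≤ ((Bh θ ρ W).card : ℝ)

/-- a probability measure on the integers `b`, `|b| ≤ T` -/
def Prob (T : ℕ) (μ : ℤ → ℝ) : Prop :=
  (∀ b : ℤ, 0 ≤ μ b) ∧ (∀ b : ℤ, μ b ≠ 0 → |b| ≤ (T : ℤ)) ∧ ∑ b ∈ Icc (-(T : ℤ)) T, μ b = 1

/-- **SMO** a probability measure on a Bohr set which is almost invariant under the shifts by the elements of
a smaller Bohr set. -/
def S_SMO : Prop := ∀ (d : ℕ) (ρ η : ℝ), 0 < ρ → 0 < η → ∃ (ρ' : ℝ) (T₀ : ℕ), 0 < ρ' ∧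
  ∀ T : ℕ, T₀ ≤ T → ∀ θ : Fin d → ℝ, ∃ μ : ℤ → ℝ, Prob T μ ∧
    (∀ b : ℤ, μ b ≠ 0 → (|b| : ℝ) ≤ η * T ∧ ∀ i, nrm (b * θ i) ≤ ρ) ∧
    ∀ h : ℤ, (|h| : ℝ) ≤ ρ' * T → (∀ i, nrm (h * θ i) ≤ ρ') →
      ∑ b ∈ Icc (-(2 * T : ℤ)) (2 * T), |μ (b + h) - μ b| ≤ η

/-- **FOU** the sums over `x + z` do not change much if they are averaged over a Bohr set. -/
def S_FOU : Prop := ∀ τ : ℝ, 0 < τ → ∃ (d : ℕ) (ρ : ℝ), 0 < ρ ∧ ∀ T : ℕ, 1 ≤ T →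
  ∀ U : Finset ℤ, U ⊆ Ico 0 (2 * T) → ∃ θ : Fin d → ℝ, ∀ μ : ℤ → ℝ, Prob T μ →
    (∀ b : ℤ, μ b ≠ 0 → 2 * |b| ≤ (T : ℤ) ∧ ∀ i, nrm (b * θ i) ≤ ρ) →
    ∀ A C : Finset ℤ, A ⊆ Ico 0 T → C ⊆ Ico 0 T →
    ∑ b ∈ Icc (-(T : ℤ)) T, ∑ b' ∈ Icc (-(T : ℤ)) T, μ b * μ b' *
        (((A ×ˢ C).filter (fun p => p.1 + p.2 - b - b' ∈ U)).card : ℝ) ≤
      (((A ×ˢ C).filter (fun p => p.1 + p.2 ∈ U)).card : ℝ) + τ * (T : ℝ) ^ 2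

open Classical in
/-- the smoothed indicator function of `A` -/
noncomputable def smt (T : ℕ) (μ : ℤ → ℝ) (A : Finset ℤ) (x : ℤ) : ℝ :=
  ∑ b ∈ Icc (-(T : ℤ)) T, μ b * (if x + b ∈ A then 1 else 0)

/-- **IND** the smoothed indicator function of a set with few differences in `D` is essentially at most
`1 / 2`. -/
def S_IND : Prop := ∀ (T : ℕ) (η : ℝ) (μ : ℤ → ℝ) (A D : Finset ℤ), Prob T μ → A ⊆ Ico 0 T →
  (∀ h ∈ D, |h| ≤ T ∧ ∑ b ∈ Icc (-(2 * T : ℤ)) (2 * T), |μ (b + h) - μ b| ≤ η) → D.Nonempty →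
  ∑ x ∈ Icc (-(2 * T : ℤ)) (2 * T), max 0 (2 * smt T μ A x - 1 - η) ≤
    (((A ×ˢ A).filter (fun p => p.2 - p.1 ∈ D)).card : ℝ) / D.card

/-- **CONV** lower bound for the smoothed sums. -/
def S_CONV : Prop := ∀ (T : ℕ) (η : ℝ) (μ : ℤ → ℝ) (A C U : Finset ℤ), 1000 ≤ T → 0 < η → η ≤ 1 / 1000 →
  Prob T μ → (∀ b : ℤ, μ b ≠ 0 → (|b| : ℝ) ≤ η * T) → A ⊆ Ico 0 T → C ⊆ Ico 0 T → U ⊆ Ico 0 (2 * T) →
  (5 / 9 - η) * T ≤ (A.card : ℝ) + C.card →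
  ∑ x ∈ Icc (-(2 * T : ℤ)) (2 * T), max 0 (2 * smt T μ A x - 1 - η) ≤ η * T →
  ∑ x ∈ Icc (-(2 * T : ℤ)) (2 * T), max 0 (2 * smt T μ C x - 1 - η) ≤ η * T →
  (T : ℝ) / 200 * ((U.filter (fun r : ℤ => 20 * |r - (T : ℤ)| ≤ (T : ℤ))).card : ℝ) ≤
    ∑ b ∈ Icc (-(T : ℤ)) T, ∑ b' ∈ Icc (-(T : ℤ)) T, μ b * μ b' *
        (((A ×ˢ C).filter (fun p => p.1 + p.2 - b - b' ∈ U)).card : ℝ)

/-- **CORE** (from CNTB, SMO, FOU, IND, CONV). -/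
def S_CORE : Prop := ∀ ε : ℝ, 0 < ε → ∃ (d : ℕ) (ρ ε' : ℝ) (W₀ : ℕ), 0 < ρ ∧ 0 < ε' ∧ ∀ W : ℕ, W₀ ≤ W →
  ∀ D : Finset ℕ, (∀ θ : Fin d → ℝ, ε * ((Bh θ ρ W).card : ℝ) < ((Bh θ ρ W ∩ D).card : ℝ)) →
  ∀ T : ℕ, T = 20 * (W + 1) → ∀ A C U : Finset ℤ, A ⊆ Ico 0 T → C ⊆ Ico 0 T → U ⊆ Ico 0 (2 * T) →
  (5 / 9 - ε') * T ≤ (A.card : ℝ) + C.card →
  (((A ×ˢ A).filter (fun p => ∃ h ∈ D, p.2 - p.1 = (h : ℤ))).card : ℝ) ≤ ε' * (T : ℝ) ^ 2 →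
  (((C ×ˢ C).filter (fun p => ∃ h ∈ D, p.2 - p.1 = (h : ℤ))).card : ℝ) ≤ ε' * (T : ℝ) ^ 2 →
  (((A ×ˢ C).filter (fun p => p.1 + p.2 ∈ U)).card : ℝ) ≤ ε' * (T : ℝ) ^ 2 →
  ((U.filter (fun r : ℤ => 20 * |r - (T : ℤ)| ≤ (T : ℤ))).card : ℝ) ≤ ε * T

/-! ## Part 3: the theorem -/

/-- ordered representations of `m` as a sum of two primes -/
def g (m : ℕ) : ℕ := ((range (m + 1)).filter (fun p => p.Prime ∧ (m - p).Prime)).card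

/-- the number of the primes `p ≤ x` with `p + h` prime -/
def pairs (h x : ℕ) : ℕ := ((Icc 1 x).filter (fun p => p.Prime ∧ (p + h).Prime)).card

open Classical in
/-- **FIN** (from CLQ2 and CORE): at every place `A` and every scale `T ≥ λ log A`, either all but `ε T` of the
even `m` in `(A, A + T]` have at least `κ m / log² m` representations as a sum of two primes, or all but the
proportion `ε` of the multiples of `M` up to `T` in some Bohr set are differences of at least `κ A / log² A`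
pairs of primes. -/
def S_FIN : Prop := ∀ ε : ℝ, 0 < ε → ∃ (M d : ℕ) (ρ : ℝ), 1 ≤ M ∧ 0 < ρ ∧ ∀ lam : ℝ, 0 < lam → ∃ κ : ℝ, 0 < κ ∧
  ∀ᶠ A : ℕ in atTop, ∀ T : ℕ, lam * Real.log A ≤ T → 1000 * T ≤ A →
    (((Ioc A (A + T)).filter (fun m => Even m ∧ (g m : ℝ) < κ * (m / (Real.log m) ^ 2))).card : ℝ) ≤ ε * T ∨
    ∃ θ : Fin d → ℝ,
      (((Icc 1 T).filter (fun h => M ∣ h ∧ (∀ i, nrm (h * θ i) ≤ ρ) ∧
        (pairs h (2 * A) : ℝ) < κ * (A / (Real.log A) ^ 2))).card : ℝ) ≤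
      ε * (((Icc 1 T).filter (fun h => M ∣ h ∧ ∀ i, nrm (h * θ i) ≤ ρ)).card : ℝ)

end Pool.Agent.N679.RG
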