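import Mathlib
import Pool.Agent.N679.RG.Stm

/-!
# Project RG, part CNTB: Bohr sets have positive density
-/

set_option autoImplicit false

namespace Pool.Agent.N679.RG

open Finset

namespace CNTB

/-- the colour of `t` -/
noncomputable def col {d : ℕ} (m : ℕ) (θ : Fin d → ℝ) (t : ℕ) : Fin d → ℤ :=
  fun i => ⌊(m : ℝ) * Int.fract ((t : ℝ) * θ i)⌋

lemma col_mem {d : ℕ} (m : ℕ) (hm : 1 ≤ m) (θ : Fin d → ℝ) (t : ℕ) :
    col m θ t ∈ Fintype.piFinset (fun _ : Fin d => Finset.Ico (0 : ℤ) m) := by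
  have hm' : (0 : ℝ) < m := by exact_mod_cast hm
  rw [Fintype.mem_piFinset]
  intro i
  rw [Finset.mem_Ico]
  constructor
  · exact Int.floor_nonneg.mpr (mul_nonneg hm'.le (Int.fract_nonneg _))
  · apply Int.floor_lt.mpr
    push_cast
    calc (m : ℝ) * Int.fract ((t : ℝ) * θ i) < m * 1 :=
          mul_lt_mul_of_pos_left (Int.fract_lt_one _) hm'
      _ = m := mul_one _

lemma nrm_le {d : ℕ} (m : ℕ) (hm : 1 ≤ m) (θ : Fin d → ℝ) (t t₀ : ℕ) (h : t₀ ≤ t)
    (hc : col m θ t = col m θ t₀) (i : Fin d) :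
    nrm (((t - t₀ : ℕ) : ℝ) * θ i) ≤ 1 / (m : ℝ) := by
  have hm' : (0 : ℝ) < m := by exact_mod_cast hm
  have h1 : |(m : ℝ) * Int.fract ((t : ℝ) * θ i) - m * Int.fract ((t₀ : ℝ) * θ i)| < 1 :=
    Int.abs_sub_lt_one_of_floor_eq_floor (congrFun hc i)
  rw [← mul_sub, abs_mul, abs_of_pos hm'] at h1
  have h2 : |Int.fract ((t : ℝ) * θ i) - Int.fract ((t₀ : ℝ) * θ i)| ≤ 1 / (m : ℝ) := by
    rw [le_div_iff₀ hm']
    linarith
  have h3 := round_le (((t - t₀ : ℕ) : ℝ) * θ i) (⌊(t : ℝ) * θ i⌋ - ⌊(t₀ : ℝ) * θ i⌋)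
  have h4 : ((t - t₀ : ℕ) : ℝ) * θ i - ((⌊(t : ℝ) * θ i⌋ - ⌊(t₀ : ℝ) * θ i⌋ : ℤ) : ℝ) =
      Int.fract ((t : ℝ) * θ i) - Int.fract ((t₀ : ℝ) * θ i) := by
    rw [Nat.cast_sub h]
    push_cast
    unfold Int.fract
    ring
  rw [h4] at h3
  exact h3.trans h2

end CNTB

open CNTB in
theorem t_CNTB : S_CNTB := by
  classical
  intro d ρ hρ
  set m : ℕ := ⌈1 / ρ⌉₊ + 1 with hmdef
  have hm : 1 ≤ m := by omega
  have hm' : (0 : ℝ) < m := by exact_mod_cast hm
  have hmρ : 1 / (m : ℝ) ≤ ρ := by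
    rw [div_le_iff₀ hm']
    have h1 : 1 / ρ ≤ m := by
      have := Nat.le_ceil (1 / ρ)
      rw [hmdef]
      push_cast
      linarith
    rw [div_le_iff₀ hρ] at h1
    linarith
  have hmd : (0 : ℝ) < (m : ℝ) ^ d := pow_pos hm' d
  refine ⟨1 / (2 * (m : ℝ) ^ d), 2 * m ^ d, by positivity, ?_⟩
  intro W hW θ
  have hcard : (Fintype.piFinset (fun _ : Fin d => Finset.Ico (0 : ℤ) m)).card = m ^ d := by
    rw [Fintype.card_piFinset]
    simp
  obtain ⟨y, hy, hyc⟩ := Finset.exists_le_card_fiber_of_nsmul_le_card_of_maps_to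
    (s := Finset.range (W + 1)) (t := Fintype.piFinset (fun _ : Fin d => Finset.Ico (0 : ℤ) m))
    (f := col m θ) (b := ((W : ℝ) + 1) / (m : ℝ) ^ d) (fun t _ => col_mem m hm θ t)
    (by
      refine ⟨fun _ => 0, ?_⟩
      rw [Fintype.mem_piFinset]
      intro i
      rw [Finset.mem_Ico]
      constructor
      · exact le_refl _
      · exact_mod_cast hm)
    (by
      rw [hcard, nsmul_eq_mul, Finset.card_range]
      push_cast
      rw [mul_div_cancel₀]
      exact hmd.ne')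
  set F := (Finset.range (W + 1)).filter (fun t => col m θ t = y) with hF
  have hFne : F.Nonempty := by
    rw [← Finset.card_pos]
    have : (0 : ℝ) < F.card := lt_of_lt_of_le (by positivity) hyc
    exact_mod_cast this
  set t₀ := F.min' hFne with ht₀
  have ht₀F : t₀ ∈ F := F.min'_mem hFne
  have hsub : (F.erase t₀).image (fun t => t - t₀) ⊆ Bh θ ρ W := by
    intro s hs
    rw [Finset.mem_image] at hs
    obtain ⟨t, ht, rfl⟩ := hs
    rw [Finset.mem_erase] at ht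
    have hle : t₀ ≤ t := F.min'_le t ht.2
    have hlt : t₀ < t := lt_of_le_of_ne hle (Ne.symm ht.1)
    have htF := ht.2
    rw [hF, Finset.mem_filter, Finset.mem_range] at htF
    have ht0 := ht₀F
    rw [hF, Finset.mem_filter, Finset.mem_range] at ht0
    unfold Bh
    rw [Finset.mem_filter, Finset.mem_Icc]
    refine ⟨⟨by omega, by omega⟩, ?_⟩
    intro i
    exact (nrm_le m hm θ t t₀ hle (htF.2.trans ht0.2.symm) i).trans hmρ
  have hinj : Set.InjOn (fun t => t - t₀) (F.erase t₀ : Finset ℕ) := by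
    intro a ha b hb hab
    have ha' := (Finset.mem_erase.mp (Finset.mem_coe.mp ha)).2
    have hb' := (Finset.mem_erase.mp (Finset.mem_coe.mp hb)).2
    have h1 : t₀ ≤ a := F.min'_le a ha'
    have h2 : t₀ ≤ b := F.min'_le b hb'
    simp only at hab
    omega
  have hc1 : (F.erase t₀).card ≤ (Bh θ ρ W).card := by
    rw [← Finset.card_image_of_injOn hinj]
    exact Finset.card_le_card hsub
  have hc2 : (F.erase t₀).card + 1 = F.card := Finset.card_erase_add_one ht₀F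
  have hc3 : (F.card : ℝ) ≤ (Bh θ ρ W).card + 1 := by
    rw [← hc2]
    push_cast
    have : ((F.erase t₀).card : ℝ) ≤ (Bh θ ρ W).card := by exact_mod_cast hc1
    linarith
  have hW' : 2 * (m : ℝ) ^ d ≤ W := by exact_mod_cast hW
  have h5 : ((W : ℝ) + 1) / (m : ℝ) ^ d = 2 * (1 / (2 * (m : ℝ) ^ d) * W) + 1 / (m : ℝ) ^ d := by
    field_simp
  have h6 : 1 ≤ 1 / (2 * (m : ℝ) ^ d) * W := by
    rw [one_div, inv_mul_eq_div, le_div_iff₀ (by positivity)]
    linarith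
  have h7 : (0 : ℝ) < 1 / (m : ℝ) ^ d := by positivity
  have h8 : ((W : ℝ) + 1) / (m : ℝ) ^ d ≤ F.card := hyc
  linarith

end Pool.Agent.N679.RG
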