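import Mathlib
import Pool.Agent.N679.RG.Stm

/-!
# Project RG, part IND: the smoothed indicator of a set with few differences in `D` (helper277)
-/

set_option autoImplicit false

namespace Pool.Agent.N679.RG

open Finset

namespace IND

theorem ts {f : ℤ → ℝ} (K : ℕ) (hf : ∀ b, f b ≠ 0 → |b| ≤ (K : ℤ)) :
    ∑' b, f b = ∑ b ∈ Icc (-(K : ℤ)) K, f b := by
  refine tsum_eq_sum fun b hb => ?_
  by_contra h
  apply hb
  rw [mem_Icc]
  exact abs_le.1 (hf b h)

theorem sm {f : ℤ → ℝ} (K : ℕ) (hf : ∀ b, f b ≠ 0 → |b| ≤ (K : ℤ)) : Summable f := by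
  refine summable_of_ne_finset_zero (s := Icc (-(K : ℤ)) K) fun b hb => ?_
  by_contra h
  apply hb
  rw [mem_Icc]
  exact abs_le.1 (hf b h)

open Classical in
/-- the indicator function -/
noncomputable def ia (A : Finset ℤ) (y : ℤ) : ℝ := if y ∈ A then 1 else 0

theorem ia_nonneg (A : Finset ℤ) (y : ℤ) : 0 ≤ ia A y := by
  unfold ia; split_ifs <;> norm_num

theorem ia_le_one (A : Finset ℤ) (y : ℤ) : ia A y ≤ 1 := by
  unfold ia; split_ifs <;> norm_num

theorem ia_add (A : Finset ℤ) (y z : ℤ) : ia A y + ia A z ≤ 1 + ia A y * ia A z := by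
  have h1 := ia_le_one A y
  have h2 := ia_le_one A z
  nlinarith

theorem smt_eq (T : ℕ) (μ : ℤ → ℝ) (hμ : Prob T μ) (A : Finset ℤ) (x : ℤ) :
    smt T μ A x = ∑' b, μ b * ia A (x + b) := by
  rw [ts T]
  · unfold smt ia
    rfl
  · intro b hb
    exact hμ.2.1 b (left_ne_zero_of_mul hb)

/-- the smoothed number of pairs -/
noncomputable def P (T : ℕ) (μ : ℤ → ℝ) (A : Finset ℤ) (h x : ℤ) : ℝ :=
  ∑ b ∈ Icc (-(T : ℤ)) T, μ b * (ia A (x + b) * ia A (x + b + h))

theorem P_nonneg (T : ℕ) (μ : ℤ → ℝ) (hμ : Prob T μ) (A : Finset ℤ) (h x : ℤ) :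
    0 ≤ P T μ A h x :=
  sum_nonneg fun b _ => mul_nonneg (hμ.1 b) (mul_nonneg (ia_nonneg _ _) (ia_nonneg _ _))

theorem key (T : ℕ) (η : ℝ) (μ : ℤ → ℝ) (A : Finset ℤ) (hμ : Prob T μ) (h x : ℤ)
    (hh : |h| ≤ T) (hη : ∑ b ∈ Icc (-(2 * T : ℤ)) (2 * T), |μ (b + h) - μ b| ≤ η) :
    2 * smt T μ A x - 1 - η ≤ P T μ A h x := by
  have hs0 : ∀ g : ℤ → ℝ, Summable fun b => μ b * g b := fun g =>
    sm T fun b hb => hμ.2.1 b (left_ne_zero_of_mul hb)
  -- the shifted sum
  have h1 : ∑' b, μ b * ia A (x + b + h) = ∑' b, μ (b - h) * ia A (x + b) := by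
    rw [← Equiv.tsum_eq (Equiv.addRight h) (fun b => μ (b - h) * ia A (x + b))]
    refine tsum_congr fun b => ?_
    simp only [Equiv.coe_addRight, add_sub_cancel_right]
    rw [add_assoc]
  -- the difference
  have hsh : ∀ b, μ (b - h) ≠ 0 → |b| ≤ ((2 * T : ℕ) : ℤ) := by
    intro b hb
    have h3 := abs_le.1 (hμ.2.1 _ hb)
    have h4 := abs_le.1 hh
    rw [abs_le]
    push_cast
    constructor <;> linarith [h3.1, h3.2, h4.1, h4.2]
  have hsh0 : ∀ b, μ b ≠ 0 → |b| ≤ ((2 * T : ℕ) : ℤ) := by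
    intro b hb
    have h3 := hμ.2.1 _ hb
    push_cast
    have h4 : (0 : ℤ) ≤ T := Int.natCast_nonneg T
    linarith
  have hsd : Summable fun b => |μ (b - h) - μ b| := by
    refine sm (2 * T) fun b hb => ?_
    by_contra hc
    apply hb
    have h3 : μ (b - h) = 0 := by
      by_contra h4
      exact hc (hsh b h4)
    have h4 : μ b = 0 := by
      by_contra h4
      exact hc (hsh0 b h4)
    rw [h3, h4, sub_zero, abs_zero]
  have h2 : ∑' b, |μ (b - h) - μ b| ≤ η := by
    have h3 : ∑' b, |μ (b - h) - μ b| = ∑' b, |μ (b + h) - μ b| := by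
      rw [← Equiv.tsum_eq (Equiv.addRight h) (fun b => |μ (b - h) - μ b|)]
      refine tsum_congr fun b => ?_
      simp only [Equiv.coe_addRight, add_sub_cancel_right]
      rw [abs_sub_comm]
    rw [h3, ts (2 * T)]
    · push_cast
      exact hη
    · intro b hb
      by_contra hc
      apply hb
      have h4 : μ (b + h) = 0 := by
        by_contra h5
        apply hc
        have h6 := abs_le.1 (hμ.2.1 _ h5)
        have h7 := abs_le.1 hh
        rw [abs_le]
        push_cast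
        constructor <;> linarith [h6.1, h6.2, h7.1, h7.2]
      have h5 : μ b = 0 := by
        by_contra h5
        exact hc (hsh0 b h5)
      rw [h4, h5, sub_zero, abs_zero]
  have hs1 : Summable fun b => μ (b - h) * ia A (x + b) :=
    sm (2 * T) fun b hb => hsh b (left_ne_zero_of_mul hb)
  have h3 : ∑' b, μ b * ia A (x + b) - η ≤ ∑' b, μ (b - h) * ia A (x + b) := by
    have h4 : ∑' b, μ b * ia A (x + b) ≤
        ∑' b, (μ (b - h) * ia A (x + b) + |μ (b - h) - μ b|) := by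
      refine Summable.tsum_le_tsum (fun b => ?_) (hs0 _) (hs1.add hsd)
      have h5 := neg_abs_le (μ (b - h) - μ b)
      have h6 := abs_nonneg (μ (b - h) - μ b)
      have h7 := ia_nonneg A (x + b)
      have h8 := ia_le_one A (x + b)
      nlinarith
    rw [hs1.tsum_add hsd] at h4
    linarith
  have h4 : ∑' b, μ b * ia A (x + b) + ∑' b, μ b * ia A (x + b + h) ≤
      1 + P T μ A h x := by
    have h5 : P T μ A h x = ∑' b, μ b * (ia A (x + b) * ia A (x + b + h)) := by
      rw [ts T]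
      · rfl
      · intro b hb
        exact hμ.2.1 b (left_ne_zero_of_mul hb)
    have h6 : (1 : ℝ) = ∑' b, μ b := by
      rw [ts T hμ.2.1, hμ.2.2]
    have hs2 : Summable μ := sm T hμ.2.1
    rw [← (hs0 _).tsum_add (hs0 _), h5, h6, ← hs2.tsum_add (hs0 _)]
    refine Summable.tsum_le_tsum (fun b => ?_) ((hs0 _).add (hs0 _)) (hs2.add (hs0 _))
    have h7 := ia_add A (x + b) (x + b + h)
    have h8 := hμ.1 b
    nlinarith
  rw [smt_eq T μ hμ]
  rw [h1] at h4
  linarith

theorem sumP (T : ℕ) (μ : ℤ → ℝ) (A : Finset ℤ) (hμ : Prob T μ) (h : ℤ) :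
    ∑ x ∈ Icc (-(2 * T : ℤ)) (2 * T), P T μ A h x ≤ ((A.filter fun y => y + h ∈ A).card : ℝ) := by
  unfold P
  rw [sum_comm]
  have h1 : ∀ b ∈ Icc (-(T : ℤ)) T, ∑ x ∈ Icc (-(2 * T : ℤ)) (2 * T),
      μ b * (ia A (x + b) * ia A (x + b + h)) ≤
        μ b * ((A.filter fun y => y + h ∈ A).card : ℝ) := by
    intro b _
    rw [← mul_sum]
    refine mul_le_mul_of_nonneg_left ?_ (hμ.1 b)
    have h2 : ∀ x : ℤ, ia A (x + b) * ia A (x + b + h) =
        if x + b ∈ A.filter (fun y => y + h ∈ A) then (1 : ℝ) else 0 := by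
      intro x
      unfold ia
      by_cases h3 : x + b ∈ A
      · by_cases h4 : x + b + h ∈ A
        · rw [if_pos h3, if_pos h4, if_pos (mem_filter.2 ⟨h3, h4⟩), one_mul]
        · have h6 : x + b ∉ A.filter (fun y => y + h ∈ A) := fun h5 => h4 (mem_filter.1 h5).2
          rw [if_pos h3, if_neg h4, if_neg h6, mul_zero]
      · have h6 : x + b ∉ A.filter (fun y => y + h ∈ A) := fun h5 => h3 (mem_filter.1 h5).1
        rw [if_neg h3, if_neg h6, zero_mul]
    simp_rw [h2]
    rw [← sum_filter, sum_const, nsmul_eq_mul, mul_one]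
    have h3 : ((Icc (-(2 * T : ℤ)) (2 * T)).filter
        fun x => x + b ∈ A.filter (fun y => y + h ∈ A)).card ≤
        (A.filter fun y => y + h ∈ A).card := by
      refine card_le_card_of_injOn (fun x => x + b) (fun x hx => ?_) (fun x _ y _ hxy => ?_)
      · exact (mem_filter.1 hx).2
      · exact add_right_cancel hxy
    exact_mod_cast h3
  refine (sum_le_sum h1).trans ?_
  rw [← sum_mul, hμ.2.2, one_mul]

end IND

open IND in
theorem t_IND : S_IND := by
  intro T η μ A D hμ _ hD hD0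
  have hDc : (0 : ℝ) < D.card := by exact_mod_cast hD0.card_pos
  rw [le_div_iff₀ hDc]
  have h1 : ∀ h ∈ D, ∑ x ∈ Icc (-(2 * T : ℤ)) (2 * T), max 0 (2 * smt T μ A x - 1 - η) ≤
      ((A.filter fun y => y + h ∈ A).card : ℝ) := by
    intro h hh
    refine le_trans (sum_le_sum fun x _ => ?_) (sumP T μ A hμ h)
    exact max_le (P_nonneg T μ hμ A h x) (key T η μ A hμ h x (hD h hh).1 (hD h hh).2)
  have h2 : (∑ x ∈ Icc (-(2 * T : ℤ)) (2 * T), max 0 (2 * smt T μ A x - 1 - η)) * D.card ≤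
      ∑ h ∈ D, ((A.filter fun y => y + h ∈ A).card : ℝ) := by
    rw [mul_comm, ← nsmul_eq_mul, ← sum_const]
    exact sum_le_sum h1
  refine h2.trans ?_
  have h3 : ∑ h ∈ D, (A.filter fun y => y + h ∈ A).card ≤
      ((A ×ˢ A).filter (fun p => p.2 - p.1 ∈ D)).card := by
    rw [← card_sigma]
    refine card_le_card_of_injOn (fun q => (q.2, q.2 + q.1)) (fun q hq => ?_) (fun q _ q' _ hqq => ?_)
    · have h4 := mem_sigma.1 hq
      have h5 := mem_filter.1 h4.2
      refine mem_filter.2 ⟨mem_product.2 ⟨h5.1, h5.2⟩, ?_⟩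
      show q.2 + q.1 - q.2 ∈ D
      rw [add_sub_cancel_left]
      exact h4.1
    · obtain ⟨q1, q2⟩ := q
      obtain ⟨r1, r2⟩ := q'
      have h4 : (q2, q2 + q1) = (r2, r2 + r1) := hqq
      rw [Prod.mk.injEq] at h4
      obtain ⟨h5, h6⟩ := h4
      subst h5
      have h7 := add_left_cancel h6
      rw [h7]
  exact_mod_cast h3

end Pool.Agent.N679.RG
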