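import Pool.Agent.N679.RG.Stm2
import Pool.Agent.N679.RG.IND

/-!
# Project RH, part CORE2: assembly of the combinatorial core (helper340)
-/

set_option autoImplicit false

namespace Pool.Agent.N679.RG

open Finset

namespace CORE2

open IND (ts sm ia ia_nonneg ia_le_one smt_eq)

theorem smt_ia (T : ℕ) (μ : ℤ → ℝ) (A : Finset ℤ) (x : ℤ) :
    smt T μ A x = ∑ b ∈ Icc (-(T : ℤ)) T, μ b * ia A (x + b) := rfl

theorem smt_nonneg {T : ℕ} {μ : ℤ → ℝ} (hμ : Prob T μ) (A : Finset ℤ) (x : ℤ) :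
    0 ≤ smt T μ A x := by
  rw [smt_ia]
  exact sum_nonneg fun b _ => mul_nonneg (hμ.1 b) (ia_nonneg _ _)

theorem smt_le_one {T : ℕ} {μ : ℤ → ℝ} (hμ : Prob T μ) (A : Finset ℤ) (x : ℤ) :
    smt T μ A x ≤ 1 := by
  rw [smt_ia, ← hμ.2.2]
  refine sum_le_sum fun b _ => ?_
  have h1 := mul_le_mul_of_nonneg_left (ia_le_one A (x + b)) (hμ.1 b)
  rwa [mul_one] at h1

theorem smt_supp {T : ℕ} {η : ℝ} {μ : ℤ → ℝ} (hs : ∀ b : ℤ, μ b ≠ 0 → (|b| : ℝ) ≤ η * T)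
    {A : Finset ℤ} (hA : A ⊆ Ico 0 (T : ℤ)) {x : ℤ} (hx : smt T μ A x ≠ 0) :
    -(η * T) ≤ (x : ℝ) ∧ (x : ℝ) ≤ (1 + η) * T := by
  rw [smt_ia] at hx
  obtain ⟨b, _, hb⟩ := exists_ne_zero_of_sum_ne_zero hx
  have h1 := left_ne_zero_of_mul hb
  have h2 : x + b ∈ A := by
    by_contra h
    exact right_ne_zero_of_mul hb (if_neg h)
  have h3 := mem_Ico.1 (hA h2)
  have h4 := abs_le.1 (hs b h1)
  have h5 : (0 : ℝ) ≤ (x : ℝ) + b := by exact_mod_cast h3.1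
  have h6 : (x : ℝ) + b < T := by exact_mod_cast h3.2
  constructor
  · linarith [h4.1, h4.2]
  · linarith [h4.1, h4.2]

theorem smt_total {T : ℕ} {μ : ℤ → ℝ} (hμ : Prob T μ) {A : Finset ℤ} (hA : A ⊆ Ico 0 (T : ℤ)) :
    ∑ x ∈ Icc (-(2 * T : ℤ)) (2 * T), smt T μ A x = (A.card : ℝ) := by
  simp_rw [smt_ia]
  rw [sum_comm]
  have h1 : ∀ b ∈ Icc (-(T : ℤ)) T, ∑ x ∈ Icc (-(2 * T : ℤ)) (2 * T), μ b * ia A (x + b) =
      μ b * (A.card : ℝ) := by
    intro b hb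
    rw [mem_Icc] at hb
    rw [← mul_sum]
    congr 1
    unfold ia
    rw [sum_boole]
    congr 1
    refine card_nbij' (fun x => x + b) (fun a => a - b) (fun x hx => ?_) (fun a ha => ?_)
      (fun x _ => ?_) (fun a _ => ?_)
    · exact (mem_filter.1 hx).2
    · have h2 := mem_Ico.1 (hA ha)
      have h3 : a - b + b ∈ A := by
        rw [sub_add_cancel]
        exact ha
      exact mem_filter.2 ⟨mem_Icc.2 ⟨show -(2 * (T : ℤ)) ≤ a - b by omega,
        show a - b ≤ 2 * (T : ℤ) by omega⟩, h3⟩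
    · exact add_sub_cancel_right x b
    · exact sub_add_cancel a b
  rw [sum_congr rfl h1, ← sum_mul, hμ.2.2, one_mul]

/-- the smoothed indicator function is almost periodic -/
theorem smt_shift {T : ℕ} {η : ℝ} {μ : ℤ → ℝ} (hμ : Prob T μ) (A : Finset ℤ) (h x : ℤ)
    (hh : |h| ≤ T) (hη : ∑ b ∈ Icc (-(2 * T : ℤ)) (2 * T), |μ (b + h) - μ b| ≤ η) :
    |smt T μ A (x + h) - smt T μ A x| ≤ η := by
  have hs0 : ∀ g : ℤ → ℝ, Summable fun b => μ b * g b := fun g =>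
    sm T fun b hb => hμ.2.1 b (left_ne_zero_of_mul hb)
  have h1 : ∑' b, μ b * ia A (x + h + b) = ∑' b, μ (b - h) * ia A (x + b) := by
    rw [← Equiv.tsum_eq (Equiv.addRight h) (fun b => μ (b - h) * ia A (x + b))]
    refine tsum_congr fun b => ?_
    simp only [Equiv.coe_addRight, add_sub_cancel_right]
    rw [add_assoc, add_comm h b]
  have hsh : ∀ b, μ (b - h) ≠ 0 → |b| ≤ ((2 * T : ℕ) : ℤ) := by
    intro b hb
    have h3 := abs_le.1 (hμ.2.1 _ hb)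
    have h4 := abs_le.1 hh
    rw [abs_le]
    push_cast
    constructor <;> linarith [h3.1, h3.2, h4.1, h4.2]
  have hsh0 : ∀ b, μ b ≠ 0 → |b| ≤ ((2 * T : ℕ) : ℤ) := by
    intro b hb
    have h3 := hμ.2.1 _ hb
    push_cast
    have h4 : (0 : ℤ) ≤ T := Int.natCast_nonneg T
    linarith
  have hsd : Summable fun b => |μ (b - h) - μ b| := by
    refine sm (2 * T) fun b hb => ?_
    by_contra hc
    apply hb
    have h3 : μ (b - h) = 0 := by
      by_contra h4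
      exact hc (hsh b h4)
    have h4 : μ b = 0 := by
      by_contra h4
      exact hc (hsh0 b h4)
    rw [h3, h4, sub_zero, abs_zero]
  have h2 : ∑' b, |μ (b - h) - μ b| ≤ η := by
    have h3 : ∑' b, |μ (b - h) - μ b| = ∑' b, |μ (b + h) - μ b| := by
      rw [← Equiv.tsum_eq (Equiv.addRight h) (fun b => |μ (b - h) - μ b|)]
      refine tsum_congr fun b => ?_
      simp only [Equiv.coe_addRight, add_sub_cancel_right]
      rw [abs_sub_comm]
    rw [h3, ts (2 * T)]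
    · push_cast
      exact hη
    · intro b hb
      by_contra hc
      apply hb
      have h4 : μ (b + h) = 0 := by
        by_contra h5
        apply hc
        have h6 := abs_le.1 (hμ.2.1 _ h5)
        have h7 := abs_le.1 hh
        rw [abs_le]
        push_cast
        constructor <;> linarith [h6.1, h6.2, h7.1, h7.2]
      have h5 : μ b = 0 := by
        by_contra h5
        exact hc (hsh0 b h5)
      rw [h4, h5, sub_zero, abs_zero]
  have hs1 : Summable fun b => μ (b - h) * ia A (x + b) :=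
    sm (2 * T) fun b hb => hsh b (left_ne_zero_of_mul hb)
  have hpt : ∀ b, |μ (b - h) * ia A (x + b) - μ b * ia A (x + b)| ≤ |μ (b - h) - μ b| := by
    intro b
    rw [← sub_mul, abs_mul, abs_of_nonneg (ia_nonneg A (x + b))]
    have := mul_le_mul_of_nonneg_left (ia_le_one A (x + b)) (abs_nonneg (μ (b - h) - μ b))
    rwa [mul_one] at this
  rw [smt_eq T μ hμ, smt_eq T μ hμ, h1, abs_le]
  constructor
  · have h4 : ∑' b, μ b * ia A (x + b) ≤
        ∑' b, (μ (b - h) * ia A (x + b) + |μ (b - h) - μ b|) :=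
      Summable.tsum_le_tsum (fun b => by linarith [(abs_le.1 (hpt b)).1]) (hs0 _) (hs1.add hsd)
    rw [hs1.tsum_add hsd] at h4
    linarith
  · have h4 : ∑' b, μ (b - h) * ia A (x + b) ≤
        ∑' b, (μ b * ia A (x + b) + |μ (b - h) - μ b|) :=
      Summable.tsum_le_tsum (fun b => by linarith [(abs_le.1 (hpt b)).2]) hs1 ((hs0 _).add hsd)
    rw [(hs0 _).tsum_add hsd] at h4
    linarith

/-- the smoothed count is an average of counts -/
theorem conv_le {T : ℕ} {μ : ℤ → ℝ} (hμ : Prob T μ) (A C U R : Finset ℤ) :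
    ∑ x ∈ R, ∑ z ∈ R, smt T μ A x * smt T μ C z * (if x + z ∈ U then (1 : ℝ) else 0) ≤
      ∑ b ∈ Icc (-(T : ℤ)) T, ∑ b' ∈ Icc (-(T : ℤ)) T, μ b * μ b' *
        (((A ×ˢ C).filter (fun p => p.1 + p.2 - b - b' ∈ U)).card : ℝ) := by
  have e1 : ∀ x z : ℤ, smt T μ A x * smt T μ C z * (if x + z ∈ U then (1 : ℝ) else 0) =
      ∑ w ∈ Icc (-(T : ℤ)) T ×ˢ Icc (-(T : ℤ)) T, μ w.1 * μ w.2 *
        (ia A (x + w.1) * ia C (z + w.2) * ia U (x + z)) := by
    intro x z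
    rw [smt_ia, smt_ia, sum_mul_sum, sum_product, sum_mul]
    refine sum_congr rfl fun b _ => ?_
    rw [sum_mul]
    refine sum_congr rfl fun b' _ => ?_
    unfold ia
    ring
  have e2 : ∑ x ∈ R, ∑ z ∈ R, smt T μ A x * smt T μ C z * (if x + z ∈ U then (1 : ℝ) else 0) =
      ∑ q ∈ R ×ˢ R, ∑ w ∈ Icc (-(T : ℤ)) T ×ˢ Icc (-(T : ℤ)) T, μ w.1 * μ w.2 *
        (ia A (q.1 + w.1) * ia C (q.2 + w.2) * ia U (q.1 + q.2)) := by
    rw [sum_product]
    exact sum_congr rfl fun x _ => sum_congr rfl fun z _ => e1 x z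
  have e3 : ∑ b ∈ Icc (-(T : ℤ)) T, ∑ b' ∈ Icc (-(T : ℤ)) T, μ b * μ b' *
        (((A ×ˢ C).filter (fun p => p.1 + p.2 - b - b' ∈ U)).card : ℝ) =
      ∑ w ∈ Icc (-(T : ℤ)) T ×ˢ Icc (-(T : ℤ)) T, μ w.1 * μ w.2 *
        (((A ×ˢ C).filter (fun p => p.1 + p.2 - w.1 - w.2 ∈ U)).card : ℝ) := by
    rw [sum_product]
  rw [e2, e3, sum_comm]
  refine sum_le_sum fun w _ => ?_
  rw [← mul_sum]
  refine mul_le_mul_of_nonneg_left ?_ (mul_nonneg (hμ.1 _) (hμ.1 _))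
  have e4 : ∀ q : ℤ × ℤ, ia A (q.1 + w.1) * ia C (q.2 + w.2) * ia U (q.1 + q.2) =
      if (q.1 + w.1 ∈ A ∧ q.2 + w.2 ∈ C) ∧ q.1 + q.2 ∈ U then (1 : ℝ) else 0 := by
    intro q
    unfold ia
    by_cases h1 : q.1 + w.1 ∈ A <;> by_cases h2 : q.2 + w.2 ∈ C <;> by_cases h3 : q.1 + q.2 ∈ U <;>
      simp [h1, h2, h3]
  simp_rw [e4]
  rw [sum_boole]
  have h5 : ((R ×ˢ R).filter (fun q : ℤ × ℤ =>
      (q.1 + w.1 ∈ A ∧ q.2 + w.2 ∈ C) ∧ q.1 + q.2 ∈ U)).card ≤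
      ((A ×ˢ C).filter (fun p => p.1 + p.2 - w.1 - w.2 ∈ U)).card := by
    refine card_le_card_of_injOn (fun q => (q.1 + w.1, q.2 + w.2)) (fun q hq => ?_)
      (fun q _ q' _ heq => ?_)
    · have h6 := (mem_filter.1 hq).2
      refine mem_filter.2 ⟨mem_product.2 h6.1, ?_⟩
      have h7 : q.1 + w.1 + (q.2 + w.2) - w.1 - w.2 = q.1 + q.2 := by ring
      show q.1 + w.1 + (q.2 + w.2) - w.1 - w.2 ∈ U
      rw [h7]
      exact h6.2
    · have h6 : (q.1 + w.1, q.2 + w.2) = (q'.1 + w.1, q'.2 + w.2) := heq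
      rw [Prod.mk.injEq] at h6
      exact Prod.ext (add_right_cancel h6.1) (add_right_cancel h6.2)
  exact_mod_cast h5

end CORE2

open CORE2

open Classical in
theorem t_CORE2 : S_SMO → S_FOU → S_BEL → S_BLK → S_CORE2 := by
  intro hSMO hFOU hBEL hBLK ε hε hε1
  obtain ⟨y, τB, ηB, hτB, hηB, hηB1, hB⟩ := hBLK ε hε hε1
  obtain ⟨d, ρF, hρF, hF⟩ := hFOU (τB / 2) (by positivity)
  obtain ⟨ρ', TS, hρ', hS⟩ := hSMO d ρF ηB hρF hηB
  obtain ⟨Z, WB, cB, hcB, hL⟩ := hBEL d y ρ' hρ'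
  obtain ⟨r, hr⟩ : ∃ r : ℝ, r = min ρ' ηB := ⟨_, rfl⟩
  have hr0 : 0 < r := by rw [hr]; exact lt_min hρ' hηB
  have hr1 : r ≤ ρ' := by rw [hr]; exact min_le_left _ _
  have hr2 : r ≤ ηB := by rw [hr]; exact min_le_right _ _
  refine ⟨max Z 1, max TS (max ⌈((WB : ℝ) + 2) / r⌉₊ (⌈2 / (ηB * cB * r)⌉₊ + 1)),
    min 1 (cB * r / 2), min (τB / 2) ηB, le_max_right _ _, lt_min one_pos (by positivity),
    min_le_left _ _, lt_min (by positivity) hηB, ?_⟩
  intro T hT A C U ρ hA hC hU hερ hUc hUd hAc hCc hACc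
  have hT1 : TS ≤ T := (le_max_left _ _).trans hT
  have hT2 : ⌈((WB : ℝ) + 2) / r⌉₊ ≤ T := (le_max_left _ _).trans ((le_max_right _ _).trans hT)
  have hT3 : ⌈2 / (ηB * cB * r)⌉₊ + 1 ≤ T :=
    (le_max_right _ _).trans ((le_max_right _ _).trans hT)
  have hTpos : 1 ≤ T := by omega
  have hT0 : (0 : ℝ) < T := by exact_mod_cast hTpos
  have hT4 : ((WB : ℝ) + 2) ≤ r * T := by
    have h := (Nat.le_ceil (((WB : ℝ) + 2) / r)).trans (by exact_mod_cast hT2 :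
      ((⌈((WB : ℝ) + 2) / r⌉₊ : ℕ) : ℝ) ≤ (T : ℝ))
    rw [div_le_iff₀ hr0] at h
    linarith
  have hT5 : 2 ≤ ηB * cB * r * T := by
    have h := (Nat.le_ceil (2 / (ηB * cB * r))).trans (by exact_mod_cast (by omega :
      ⌈2 / (ηB * cB * r)⌉₊ ≤ T) : ((⌈2 / (ηB * cB * r)⌉₊ : ℕ) : ℝ) ≤ (T : ℝ))
    rw [div_le_iff₀ (by positivity)] at h
    linarith
  have hτ1 : min (τB / 2) ηB ≤ τB / 2 := min_le_left _ _
  have hτ2 : min (τB / 2) ηB ≤ ηB := min_le_right _ _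
  obtain ⟨θ, hθ⟩ := hF T hTpos U hU
  obtain ⟨μ, hμP, hμs, hμi⟩ := hS T hT1 θ
  have hW1 : (⌊r * T⌋₊ : ℝ) ≤ r * T := Nat.floor_le (by positivity)
  have hW2 : r * T - 1 < (⌊r * T⌋₊ : ℝ) := by
    have := Nat.lt_floor_add_one (r * (T : ℝ))
    linarith
  have hW3 : WB ≤ ⌊r * T⌋₊ := by
    refine Nat.le_floor ?_
    linarith
  obtain ⟨k, m, hk, hkZ, hrough, hm, hkm⟩ := hL ⌊r * T⌋₊ hW3 θ
  unfold Bh at hkm
  rw [mem_filter, mem_Icc] at hkm
  obtain ⟨⟨hkm1, hkm2⟩, hkm3⟩ := hkm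
  have hWB0 : (0 : ℝ) ≤ WB := Nat.cast_nonneg _
  have hm1 : cB * r / 2 * T ≤ (m : ℝ) := by
    refine le_trans ?_ hm
    have h1 : r * T / 2 ≤ (⌊r * T⌋₊ : ℝ) := by linarith
    have h2 := mul_le_mul_of_nonneg_left h1 hcB.le
    linarith
  have hm2 : min 1 (cB * r / 2) * T ≤ (m : ℝ) :=
    (mul_le_mul_of_nonneg_right (min_le_right _ _) hT0.le).trans hm1
  have hm3 : 1 ≤ ηB * m := by
    have h1 := mul_le_mul_of_nonneg_left hm1 hηB.le
    linarith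
  have hh1 : ((k * m : ℕ) : ℝ) ≤ r * T := by
    refine le_trans ?_ hW1
    exact_mod_cast hkm2
  have hh2 : (k : ℝ) * m ≤ r * T := by exact_mod_cast hh1
  have hh3 : (k : ℝ) * m ≤ ηB * T := hh2.trans (mul_le_mul_of_nonneg_right hr2 hT0.le)
  have hh4 : |(((k * m : ℕ) : ℤ))| ≤ (T : ℤ) := by
    rw [abs_of_nonneg (by positivity)]
    have h1 : ((k * m : ℕ) : ℝ) ≤ T := by
      refine hh1.trans ?_
      have : r ≤ 1 := by linarith
      have h2 := mul_le_mul_of_nonneg_right this hT0.le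
      linarith
    exact_mod_cast h1
  have hinv : ∑ b ∈ Icc (-(2 * T : ℤ)) (2 * T), |μ (b + ((k * m : ℕ) : ℤ)) - μ b| ≤ ηB := by
    refine hμi _ ?_ ?_
    · push_cast
      rw [abs_of_nonneg (by positivity)]
      exact hh2.trans (mul_le_mul_of_nonneg_right hr1 hT0.le)
    · intro i
      have h1 := hkm3 i
      rw [Int.cast_natCast]
      exact h1
  have hmain := hB T k m U (smt T μ A) (smt T μ C) ρ hk hrough hm3 hh3 hU hερ
    ((mul_le_mul_of_nonneg_right (by linarith) (by positivity)).trans hUc)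
    (fun x hx hx2 => (hUd k m x hk (hkZ.trans (le_max_left _ _)) hm2 hx hx2).trans
      (mul_le_mul_of_nonneg_right (by linarith) (Nat.cast_nonneg _)))
    (fun x => ⟨smt_nonneg hμP A x, smt_le_one hμP A x⟩)
    (fun x => ⟨smt_nonneg hμP C x, smt_le_one hμP C x⟩)
    (fun x hx => smt_supp (fun b hb => (hμs b hb).1) hA hx)
    (fun x hx => smt_supp (fun b hb => (hμs b hb).1) hC hx)
    (fun x => by
      have h1 := smt_shift hμP A ((k * m : ℕ) : ℤ) x hh4 hinv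
      rw [Nat.cast_mul] at h1
      exact h1)
    (by rw [smt_total hμP hA]; exact hAc)
    (by rw [smt_total hμP hC]; exact hCc)
    (by rw [smt_total hμP hA, smt_total hμP hC]; exact hACc)
  have hconv := conv_le hμP A C U (Icc (-(2 * T : ℤ)) (2 * T))
  have hfou := hθ μ hμP (by
    intro b hb
    obtain ⟨h1, h2⟩ := hμs b hb
    refine ⟨?_, h2⟩
    have h3 : 2 * |(b : ℝ)| ≤ T := by
      have h4 : ηB * (T : ℝ) ≤ 1 / 10 * T := mul_le_mul_of_nonneg_right hηB1 hT0.le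
      linarith
    have h4 : ((2 * |b| : ℤ) : ℝ) ≤ ((T : ℤ) : ℝ) := by
      push_cast
      exact h3
    exact_mod_cast h4) A C hA hC
  have h1 : τB * (T : ℝ) ^ 2 ≤ (((A ×ˢ C).filter (fun p => p.1 + p.2 ∈ U)).card : ℝ) +
      τB / 2 * (T : ℝ) ^ 2 := hmain.trans (hconv.trans hfou)
  have h2 : min (τB / 2) ηB * (T : ℝ) ^ 2 ≤ τB / 2 * (T : ℝ) ^ 2 :=
    mul_le_mul_of_nonneg_right hτ1 (by positivity)
  linarith

end Pool.Agent.N679.RG
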