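import Mathlib
import Pool.Agent.N679.RG.Stm

/-!
# Project RG: FIN, the final assembly (from CLQ2 and CORE)
-/

set_option autoImplicit false

namespace Pool.Agent.N679.RG

open Finset Filter Topology

namespace FIN

theorem fv_f (E M n x : ℕ) : (fv E M n (false, x)).toNat = n + M * x := by
  have : fv E M n (false, x) = ((n + M * x : ℕ) : ℤ) := by
    simp [fv]
  rw [this, Int.toNat_natCast]

theorem fv_t (E M n z : ℕ) (h : 0 < (fv E M n (true, z)).toNat) :
    n < E + M * z ∧ (fv E M n (true, z)).toNat = E + M * z - n := by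
  have : fv E M n (true, z) = ((E + M * z : ℕ) : ℤ) - n := by
    simp [fv]
    ring
  rw [this] at h ⊢
  generalize E + M * z = q at h ⊢
  omega

theorem prs_ft (E M N x z : ℕ) : prs E M N (false, x) (true, z) ≤ g (E + M * (x + z)) := by
  unfold prs g
  refine Finset.card_le_card_of_injOn (fun n => n + M * x) ?_ ?_
  · intro n hn
    have hn' := (Finset.mem_filter.1 (Finset.mem_coe.1 hn)).2
    obtain ⟨h1, h2⟩ := hn'
    obtain ⟨h3, h4⟩ := fv_t E M n z h2.pos
    rw [fv_f] at h1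
    rw [h4] at h2
    rw [Finset.mem_coe, Finset.mem_filter, Finset.mem_range]
    have e : E + M * (x + z) - (n + M * x) = E + M * z - n := by
      rw [mul_add]; omega
    refine ⟨?_, h1, ?_⟩
    · show n + M * x < E + M * (x + z) + 1
      rw [mul_add]; omega
    · show (E + M * (x + z) - (n + M * x)).Prime
      rw [e]; exact h2
  · intro n _ n' _ h
    have h' : n + M * x = n' + M * x := h
    omega

theorem prs_ff (E M N x t X : ℕ) (hX : 5 * N / 9 + M * x ≤ X) :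
    prs E M N (false, x) (false, x + t) ≤ pairs (M * t) X := by
  unfold prs pairs
  refine Finset.card_le_card_of_injOn (fun n => n + M * x) ?_ ?_
  · intro n hn
    obtain ⟨hn0, h1, h2⟩ := Finset.mem_filter.1 (Finset.mem_coe.1 hn)
    rw [fv_f] at h1 h2
    rw [Finset.mem_coe, Finset.mem_filter, Finset.mem_Icc]
    have hn1 := (Finset.mem_Icc.1 hn0).2
    refine ⟨⟨h1.pos, ?_⟩, h1, ?_⟩
    · show n + M * x ≤ X
      omega
    · show (n + M * x + M * t).Prime
      rw [add_assoc, ← mul_add]; exact h2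
  · intro n _ n' _ h
    have h' : n + M * x = n' + M * x := h
    omega

theorem prs_tt (E M N z t X : ℕ) (hX : E + M * z ≤ X) :
    prs E M N (true, z) (true, z + t) ≤ pairs (M * t) X := by
  unfold prs pairs
  refine Finset.card_le_card_of_injOn (fun n => E + M * z - n) ?_ ?_
  · intro n hn
    obtain ⟨hn0, h1, h2⟩ := Finset.mem_filter.1 (Finset.mem_coe.1 hn)
    obtain ⟨h3, h4⟩ := fv_t E M n z h1.pos
    obtain ⟨h5, h6⟩ := fv_t E M n (z + t) h2.pos
    rw [h4] at h1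
    rw [h6] at h2
    rw [Finset.mem_coe, Finset.mem_filter, Finset.mem_Icc]
    refine ⟨⟨h1.pos, ?_⟩, h1, ?_⟩
    · show E + M * z - n ≤ X
      omega
    · show (E + M * z - n + M * t).Prime
      have : E + M * z - n + M * t = E + M * (z + t) - n := by
        rw [mul_add]; omega
      rw [this]; exact h2
  · intro n hn n' hn' h
    obtain ⟨hn0, h1, h2⟩ := Finset.mem_filter.1 (Finset.mem_coe.1 hn)
    obtain ⟨hn0', h1', h2'⟩ := Finset.mem_filter.1 (Finset.mem_coe.1 hn')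
    obtain ⟨h3, h4⟩ := fv_t E M n z h1.pos
    obtain ⟨h5, h6⟩ := fv_t E M n' z h1'.pos
    have h' : E + M * z - n = E + M * z - n' := h
    omega

open Classical in
theorem step {M A N E T₁ : ℕ} {ε₀ ε' k : ℝ} (D : Finset ℕ)
    (hD : ∀ t ∈ D, 1 ≤ t ∧ (pairs (M * t) (2 * A) : ℝ) < k)
    (h1 : 5 * N / 9 + M * T₁ ≤ 2 * A) (h2 : E + M * T₁ ≤ 2 * A)
    (bad : ℕ → Prop) (hbad : ∀ m, bad m → (g m : ℝ) < k)
    (hclq : ∃ As ⊆ (univ : Finset Bool) ×ˢ range T₁, (5 / 9 - ε') * T₁ ≤ (As.card : ℝ) ∧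
      (((As ×ˢ As).filter (fun p => p.1 ≠ p.2 ∧
        (prs E M N p.1 p.2 : ℝ) < k)).card : ℝ) ≤ ε' * (T₁ : ℝ) ^ 2)
    (hcore : ∀ A C U : Finset ℤ, A ⊆ Ico 0 (T₁ : ℤ) → C ⊆ Ico 0 (T₁ : ℤ) →
      U ⊆ Ico 0 (2 * (T₁ : ℤ)) →
      (5 / 9 - ε') * T₁ ≤ (A.card : ℝ) + C.card →
      (((A ×ˢ A).filter (fun p => ∃ h ∈ D, p.2 - p.1 = (h : ℤ))).card : ℝ) ≤ ε' * (T₁ : ℝ) ^ 2 →
      (((C ×ˢ C).filter (fun p => ∃ h ∈ D, p.2 - p.1 = (h : ℤ))).card : ℝ) ≤ ε' * (T₁ : ℝ) ^ 2 →
      (((A ×ˢ C).filter (fun p => p.1 + p.2 ∈ U)).card : ℝ) ≤ ε' * (T₁ : ℝ) ^ 2 →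
      ((U.filter (fun r : ℤ => 20 * |r - (T₁ : ℤ)| ≤ (T₁ : ℤ))).card : ℝ) ≤ ε₀ * T₁) :
    ((((Ico (0 : ℤ) (2 * (T₁ : ℤ))).filter (fun r : ℤ => bad (E + M * r.toNat))).filter
      (fun r : ℤ => 20 * |r - (T₁ : ℤ)| ≤ (T₁ : ℤ))).card : ℝ) ≤ ε₀ * T₁ := by
  obtain ⟨As, hAs, hcard, hpairs⟩ := hclq
  have hlt : ∀ b v, (b, v) ∈ As → v < T₁ := by
    intro b v h
    have := (Finset.mem_product.1 (hAs h)).2
    exact Finset.mem_range.1 this
  -- the two parts of `As`
  let P : Bool → Finset ℤ := fun b =>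
    (Ico (0 : ℤ) T₁).filter (fun v : ℤ => (b, v.toNat) ∈ As)
  have hPsub : ∀ b, P b ⊆ Ico 0 (T₁ : ℤ) := fun b => Finset.filter_subset _ _
  have hPmem : ∀ b v, v ∈ P b → ∃ n : ℕ, v = (n : ℤ) ∧ (b, n) ∈ As ∧ n < T₁ := by
    intro b v hv
    obtain ⟨h3, h4⟩ := Finset.mem_filter.1 hv
    rw [Finset.mem_Ico] at h3
    exact ⟨v.toNat, by omega, h4, by omega⟩
  have hPcard : As.card ≤ (P false).card + (P true).card := by
    have hsplit : As.card = (As.filter (fun u => u.1 = false)).card +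
        (As.filter (fun u => ¬ u.1 = false)).card :=
      (Finset.card_filter_add_card_filter_not _).symm
    rw [hsplit]
    refine Nat.add_le_add ?_ ?_
    · refine Finset.card_le_card_of_injOn (fun u => (u.2 : ℤ)) ?_ ?_
      · intro u hu
        obtain ⟨h3, h4⟩ := Finset.mem_filter.1 (Finset.mem_coe.1 hu)
        obtain ⟨b, v⟩ := u
        have h5 : b = false := h4
        subst h5
        refine Finset.mem_coe.2 (Finset.mem_filter.2 ⟨Finset.mem_Ico.2 ⟨?_, ?_⟩, ?_⟩)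
        · exact Int.natCast_nonneg _
        · show ((v : ℕ) : ℤ) < (T₁ : ℤ)
          exact_mod_cast hlt _ _ h3
        · show (false, ((v : ℤ)).toNat) ∈ As
          rw [Int.toNat_natCast]; exact h3
      · intro u hu u' hu' h
        obtain ⟨h3, h4⟩ := Finset.mem_filter.1 (Finset.mem_coe.1 hu)
        obtain ⟨h3', h4'⟩ := Finset.mem_filter.1 (Finset.mem_coe.1 hu')
        have h5 : (u.2 : ℤ) = (u'.2 : ℤ) := h
        exact Prod.ext (h4.trans h4'.symm) (by exact_mod_cast h5)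
    · refine Finset.card_le_card_of_injOn (fun u => (u.2 : ℤ)) ?_ ?_
      · intro u hu
        obtain ⟨h3, h4⟩ := Finset.mem_filter.1 (Finset.mem_coe.1 hu)
        obtain ⟨b, v⟩ := u
        have h5 : b = true := by simpa using h4
        subst h5
        refine Finset.mem_coe.2 (Finset.mem_filter.2 ⟨Finset.mem_Ico.2 ⟨?_, ?_⟩, ?_⟩)
        · exact Int.natCast_nonneg _
        · show ((v : ℕ) : ℤ) < (T₁ : ℤ)
          exact_mod_cast hlt _ _ h3
        · show (true, ((v : ℤ)).toNat) ∈ As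
          rw [Int.toNat_natCast]; exact h3
      · intro u hu u' hu' h
        obtain ⟨h3, h4⟩ := Finset.mem_filter.1 (Finset.mem_coe.1 hu)
        obtain ⟨h3', h4'⟩ := Finset.mem_filter.1 (Finset.mem_coe.1 hu')
        have h5 : (u.2 : ℤ) = (u'.2 : ℤ) := h
        have h6 : u.1 = true := by simpa using h4
        have h7 : u'.1 = true := by simpa using h4'
        exact Prod.ext (h6.trans h7.symm) (by exact_mod_cast h5)
  -- a family of bad pairs is small
  have hsmall : ∀ (b b' : Bool) (Q : ℤ × ℤ → Prop) [DecidablePred Q],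
      (∀ x y : ℕ, (b, x) ∈ As → (b', y) ∈ As → x < T₁ → y < T₁ → Q ((x : ℤ), (y : ℤ)) →
        ((b, x) : Bool × ℕ) ≠ (b', y) ∧ (prs E M N (b, x) (b', y) : ℝ) < k) →
      ((((P b) ×ˢ (P b')).filter Q).card : ℝ) ≤ ε' * (T₁ : ℝ) ^ 2 := by
    intro b b' Q _ hQ
    refine le_trans ?_ hpairs
    norm_cast
    refine Finset.card_le_card_of_injOn
      (fun p : ℤ × ℤ => (((b, p.1.toNat), (b', p.2.toNat)) : (Bool × ℕ) × (Bool × ℕ))) ?_ ?_
    · rintro ⟨x, y⟩ hp
      obtain ⟨h3, h4⟩ := Finset.mem_filter.1 (Finset.mem_coe.1 hp)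
      obtain ⟨h5, h6⟩ := Finset.mem_product.1 h3
      obtain ⟨x', rfl, hx', hx''⟩ := hPmem _ _ h5
      obtain ⟨y', rfl, hy', hy''⟩ := hPmem _ _ h6
      have h7 := hQ x' y' hx' hy' hx'' hy'' h4
      refine Finset.mem_coe.2 (Finset.mem_filter.2 ⟨?_, ?_⟩)
      · show (((b, (x' : ℤ).toNat), (b', (y' : ℤ).toNat)) : (Bool × ℕ) × (Bool × ℕ)) ∈ As ×ˢ As
        rw [Int.toNat_natCast, Int.toNat_natCast]
        exact Finset.mem_product.2 ⟨hx', hy'⟩
      · show ((b, (x' : ℤ).toNat) : Bool × ℕ) ≠ (b', (y' : ℤ).toNat) ∧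
          (prs E M N (b, (x' : ℤ).toNat) (b', (y' : ℤ).toNat) : ℝ) < k
        rw [Int.toNat_natCast, Int.toNat_natCast]
        exact h7
    · rintro ⟨x, y⟩ hp ⟨x₂, y₂⟩ hp₂ h
      obtain ⟨h3, h4⟩ := Finset.mem_filter.1 (Finset.mem_coe.1 hp)
      obtain ⟨h5, h6⟩ := Finset.mem_product.1 h3
      obtain ⟨x', rfl, hx', hx''⟩ := hPmem _ _ h5
      obtain ⟨y', rfl, hy', hy''⟩ := hPmem _ _ h6
      obtain ⟨h3', h4'⟩ := Finset.mem_filter.1 (Finset.mem_coe.1 hp₂)
      obtain ⟨h5', h6'⟩ := Finset.mem_product.1 h3'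
      obtain ⟨x₂', rfl, hx₂', hx₂''⟩ := hPmem _ _ h5'
      obtain ⟨y₂', rfl, hy₂', hy₂''⟩ := hPmem _ _ h6'
      have h7 : (((b, (x' : ℤ).toNat), (b', (y' : ℤ).toNat)) : (Bool × ℕ) × (Bool × ℕ)) =
        ((b, (x₂' : ℤ).toNat), (b', (y₂' : ℤ).toNat)) := h
      rw [Int.toNat_natCast, Int.toNat_natCast, Int.toNat_natCast, Int.toNat_natCast] at h7
      simp only [Prod.mk.injEq, true_and] at h7
      rw [h7.1, h7.2]
  refine hcore (P false) (P true) _ (hPsub _) (hPsub _) (Finset.filter_subset _ _) ?_ ?_ ?_ ?_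
  · refine hcard.trans ?_
    exact_mod_cast hPcard
  · refine hsmall false false _ ?_
    rintro x y hx hy hxT hyT ⟨t, ht, hxy⟩
    have hy' : y = x + t := by
      have : (y : ℤ) - (x : ℤ) = (t : ℤ) := hxy
      omega
    subst hy'
    obtain ⟨ht1, ht2⟩ := hD t ht
    refine ⟨?_, ?_⟩
    · intro h
      have := congrArg Prod.snd h
      simp only at this
      omega
    · refine lt_of_le_of_lt ?_ ht2
      have := prs_ff E M N x t (2 * A) (le_trans (Nat.add_le_add_left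
        (Nat.mul_le_mul_left M hxT.le) _) h1)
      exact_mod_cast this
  · refine hsmall true true _ ?_
    rintro x y hx hy hxT hyT ⟨t, ht, hxy⟩
    have hy' : y = x + t := by
      have : (y : ℤ) - (x : ℤ) = (t : ℤ) := hxy
      omega
    subst hy'
    obtain ⟨ht1, ht2⟩ := hD t ht
    refine ⟨?_, ?_⟩
    · intro h
      have := congrArg Prod.snd h
      simp only at this
      omega
    · refine lt_of_le_of_lt ?_ ht2
      have := prs_tt E M N x t (2 * A) (le_trans (Nat.add_le_add_left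
        (Nat.mul_le_mul_left M hxT.le) _) h2)
      exact_mod_cast this
  · refine hsmall false true _ ?_
    intro x y hx hy hxT hyT hxy
    refine ⟨fun h => by have := congrArg Prod.fst h; simp at this, ?_⟩
    have h3 := (Finset.mem_filter.1 hxy).2
    have h4 : bad (E + M * (x + y)) := by
      have e : (((x : ℤ), (y : ℤ)).1 + ((x : ℤ), (y : ℤ)).2).toNat = x + y := by
        show ((x : ℤ) + (y : ℤ)).toNat = x + y
        omega
      rw [e] at h3
      exact h3
    refine lt_of_le_of_lt ?_ (hbad _ h4)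
    exact_mod_cast prs_ft E M N x y

/-- comparison of `x / log² x` with `N / log² N` -/
theorem cmp {A N x : ℕ} {k : ℝ} (hk : 0 < k) (hA : 2 ≤ A) (hN : 2 * N ≤ 3 * A) (hAx : A ≤ x)
    (hxN : x ≤ N) :
    k / 4 * (x / (Real.log x) ^ 2) ≤ k * (N / (Real.log N) ^ 2) := by
  have hA1 : (2 : ℝ) ≤ A := by exact_mod_cast hA
  have hx1 : (A : ℝ) ≤ x := by exact_mod_cast hAx
  have hN1 : (x : ℝ) ≤ N := by exact_mod_cast hxN
  have hN2 : 2 * (N : ℝ) ≤ 3 * A := by exact_mod_cast hN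
  have hlA : 0 < Real.log A := Real.log_pos (by linarith)
  have hlx : Real.log A ≤ Real.log x := Real.log_le_log (by linarith) hx1
  have hlN : Real.log N ≤ 2 * Real.log A := by
    have : Real.log N ≤ Real.log ((A : ℝ) ^ 2) := by
      apply Real.log_le_log (by linarith)
      nlinarith
    rw [Real.log_pow] at this
    push_cast at this
    exact this
  have hlN0 : 0 < Real.log N := Real.log_pos (by linarith)
  have hlx0 : 0 < Real.log x := Real.log_pos (by linarith)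
  have h1 : (Real.log N) ^ 2 ≤ 4 * (Real.log x) ^ 2 := by nlinarith
  rw [show k / 4 * ((x : ℝ) / (Real.log x) ^ 2) = k * (x / (4 * (Real.log x) ^ 2)) by
    field_simp]
  refine mul_le_mul_of_nonneg_left ?_ hk.le
  exact div_le_div₀ (by linarith) hN1 (by positivity) h1

open Classical in
/-- the two counts of the second alternative -/
theorem cnt_eq {d : ℕ} (M T : ℕ) (hM : 1 ≤ M) (ρ : ℝ) (θ : Fin d → ℝ) (Q : ℕ → Prop) :
    ((Icc 1 T).filter (fun h => M ∣ h ∧ (∀ i, nrm (h * ((fun i => θ i / M) i : ℝ)) ≤ ρ) ∧ Q h)).card =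
      ((Bh θ ρ (T / M)).filter (fun t => Q (M * t))).card := by
  symm
  refine Finset.card_bij (fun t _ => M * t) ?_ ?_ ?_
  · intro t ht
    obtain ⟨h1, h2⟩ := Finset.mem_filter.1 ht
    obtain ⟨h3, h4⟩ := Finset.mem_filter.1 h1
    rw [Finset.mem_Icc] at h3
    rw [Finset.mem_filter, Finset.mem_Icc]
    refine ⟨⟨?_, ?_⟩, dvd_mul_right _ _, ?_, h2⟩
    · exact Nat.mul_pos hM h3.1
    · exact (Nat.mul_le_mul_left M h3.2).trans (Nat.mul_div_le T M)
    · intro i
      have : ((M * t : ℕ) : ℝ) * (θ i / M) = t * θ i := by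
        have : (M : ℝ) ≠ 0 := by positivity
        push_cast
        field_simp
      rw [this]
      exact h4 i
  · intro t _ t' _ h
    exact Nat.eq_of_mul_eq_mul_left hM h
  · intro h hh
    rw [Finset.mem_filter, Finset.mem_Icc] at hh
    obtain ⟨⟨h1, h2⟩, ⟨t, rfl⟩, h4, h5⟩ := hh
    refine ⟨t, ?_, rfl⟩
    rw [Finset.mem_filter]
    refine ⟨Finset.mem_filter.2 ⟨Finset.mem_Icc.2 ⟨?_, ?_⟩, ?_⟩, h5⟩
    · exact Nat.pos_of_mul_pos_left h1
    · exact (Nat.le_div_iff_mul_le hM).2 (by rw [mul_comm]; exact h2)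
    · intro i
      have : ((M * t : ℕ) : ℝ) * (θ i / M) = t * θ i := by
        have : (M : ℝ) ≠ 0 := by positivity
        push_cast
        field_simp
      have h6 := h4 i
      simp only at h6
      rw [this] at h6
      exact h6

end FIN

open Classical in
theorem t_FIN : S_CLQ2 → S_CORE → S_FIN := by
  intro hCLQ hCORE ε hε
  obtain ⟨d, ρ, ε', W₀, hρ, hε', hcore⟩ := hCORE (ε / 80) (by positivity)
  obtain ⟨M, hM, hclq⟩ := hCLQ ε' hε'
  refine ⟨M, d, ρ, hM, hρ, fun lam hlam => ?_⟩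
  have hM0 : (0 : ℝ) < M := by exact_mod_cast hM
  obtain ⟨κ', hκ', hev⟩ := hclq (lam / M) (by positivity)
  refine ⟨κ' / 4, by positivity, ?_⟩
  have htend : Tendsto (fun A : ℕ => 3 * A / 2) atTop atTop :=
    tendsto_atTop_mono (fun A => show A ≤ 3 * A / 2 by omega) tendsto_id
  have hlog : Tendsto (fun A : ℕ => lam * Real.log A) atTop atTop :=
    (Real.tendsto_log_atTop.comp tendsto_natCast_atTop_atTop).const_mul_atTop hlam
  filter_upwards [htend.eventually hev,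
    hlog.eventually_ge_atTop (((M * (W₀ + 2) : ℕ) : ℝ)), eventually_ge_atTop 1000]
    with A hA1 hA2 hA3 T hT1 hT2
  have hTM : M * (W₀ + 2) ≤ T := by exact_mod_cast hA2.trans hT1
  by_cases h2 : ∃ θ : Fin d → ℝ,
      (((Icc 1 T).filter (fun h => M ∣ h ∧ (∀ i, nrm (h * θ i) ≤ ρ) ∧
        (pairs h (2 * A) : ℝ) < κ' / 4 * (A / (Real.log A) ^ 2))).card : ℝ) ≤
      ε * (((Icc 1 T).filter (fun h => M ∣ h ∧ ∀ i, nrm (h * θ i) ≤ ρ)).card : ℝ)
  · exact Or.inr h2
  left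
  -- notation
  obtain ⟨W, hW⟩ : ∃ W, W = T / M := ⟨_, rfl⟩
  obtain ⟨N, hN⟩ : ∃ N, N = 3 * A / 2 := ⟨_, rfl⟩
  rw [← hN] at hA1
  obtain ⟨q, hq⟩ : ∃ q, q = M * (W + 1) := ⟨_, rfl⟩
  have hq1 : T < q := by rw [hq, hW]; exact Nat.lt_mul_div_succ T hM
  have hq2 : q ≤ T + M := by
    rw [hq, hW, mul_add, mul_one]
    exact Nat.add_le_add_right (Nat.mul_div_le T M) M
  have h2M : 2 * M ≤ T := by
    refine le_trans ?_ hTM
    rw [mul_comm]
    exact Nat.mul_le_mul_left M (by omega)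
  have hWW : W₀ ≤ W := by
    rw [hW]
    refine (Nat.le_div_iff_mul_le hM).2 (le_trans ?_ hTM)
    rw [mul_comm]
    exact Nat.mul_le_mul_left M (by omega)
  have hMT₁ : M * (20 * (W + 1)) = 20 * q := by rw [hq]; ring
  -- the set `D`
  let D : Finset ℕ := (Icc 1 W).filter
    (fun t => (pairs (M * t) (2 * A) : ℝ) < κ' / 4 * (A / (Real.log A) ^ 2))
  have hDcore : ∀ θ : Fin d → ℝ, ε / 80 * ((Bh θ ρ W).card : ℝ) < ((Bh θ ρ W ∩ D).card : ℝ) := by
    intro θ
    have h3 : ¬ (((Icc 1 T).filter (fun h => M ∣ h ∧ (∀ i, nrm (h * ((fun i => θ i / M) i : ℝ)) ≤ ρ) ∧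
        (pairs h (2 * A) : ℝ) < κ' / 4 * (A / (Real.log A) ^ 2))).card : ℝ) ≤
      ε * (((Icc 1 T).filter (fun h => M ∣ h ∧ ∀ i, nrm (h * ((fun i => θ i / M) i : ℝ)) ≤ ρ)).card : ℝ) :=
      fun h => h2 ⟨fun i => θ i / M, h⟩
    have h4 : ((Icc 1 T).filter (fun h => M ∣ h ∧ ∀ i, nrm (h * ((fun i => θ i / M) i : ℝ)) ≤ ρ)).card =
        (Bh θ ρ W).card := by
      have := FIN.cnt_eq M T hM ρ θ (fun _ => True)
      rw [← hW] at this
      simpa using this
    rw [FIN.cnt_eq M T hM ρ θ (fun h => (pairs h (2 * A) : ℝ) < κ' / 4 * (A / (Real.log A) ^ 2)),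
      h4, ← hW] at h3
    have h5 : (Bh θ ρ W).filter (fun t => (pairs (M * t) (2 * A) : ℝ) <
        κ' / 4 * (A / (Real.log A) ^ 2)) = Bh θ ρ W ∩ D := by
      ext t
      rw [Finset.mem_inter, Finset.mem_filter, Finset.mem_filter]
      constructor
      · rintro ⟨h6, h7⟩
        exact ⟨h6, (Finset.mem_filter.1 h6).1, h7⟩
      · rintro ⟨h6, _, h7⟩
        exact ⟨h6, h7⟩
    rw [h5] at h3
    have h8 : (0 : ℝ) ≤ ((Bh θ ρ W).card : ℝ) := by positivity
    have h9 := not_le.1 h3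
    nlinarith
  have hcoreW := hcore W hWW D hDcore (20 * (W + 1)) rfl
  have hA2' : 2 ≤ A := by omega
  have hN3 : 2 * N ≤ 3 * A := by omega
  have hAN : A ≤ N := by omega
  have hD : ∀ t ∈ D, 1 ≤ t ∧ (pairs (M * t) (2 * A) : ℝ) < κ' * (N / (Real.log N) ^ 2) := by
    intro t ht
    obtain ⟨h3, h4⟩ := Finset.mem_filter.1 ht
    exact ⟨(Finset.mem_Icc.1 h3).1, h4.trans_le (FIN.cmp hκ' hA2' hN3 le_rfl hAN)⟩
  obtain ⟨bad, hb⟩ : ∃ bad : ℕ → Prop, ∀ m, bad m ↔
      (A < m ∧ m ≤ A + T ∧ (g m : ℝ) < κ' / 4 * (m / (Real.log m) ^ 2)) := ⟨_, fun _ => Iff.rfl⟩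
  have hbad : ∀ m, bad m → (g m : ℝ) < κ' * (N / (Real.log N) ^ 2) := by
    intro m hm
    obtain ⟨h3, h4, h5⟩ := (hb m).1 hm
    exact h5.trans_le (FIN.cmp hκ' hA2' hN3 h3.le (by omega))
  have hlamT : lam / M * Real.log N ≤ ((20 * (W + 1) : ℕ) : ℝ) := by
    have hlN : Real.log N ≤ 2 * Real.log A := by
      have hA1' : (2 : ℝ) ≤ A := by exact_mod_cast hA2'
      have hN2 : 2 * (N : ℝ) ≤ 3 * A := by exact_mod_cast hN3
      have hN1 : (A : ℝ) ≤ N := by exact_mod_cast hAN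
      have : Real.log N ≤ Real.log ((A : ℝ) ^ 2) := by
        apply Real.log_le_log (by linarith)
        nlinarith
      rw [Real.log_pow] at this
      push_cast at this
      exact this
    have h3 : (T : ℝ) ≤ M * (W + 1) := by
      have : T ≤ M * (W + 1) := by rw [← hq]; exact hq1.le
      exact_mod_cast this
    have h4 : lam * Real.log N ≤ 20 * (M * (W + 1)) := by
      have : lam * Real.log N ≤ lam * (2 * Real.log A) := mul_le_mul_of_nonneg_left hlN hlam.le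
      have h5 : (0 : ℝ) ≤ M * (W + 1) := by positivity
      linarith
    rw [div_mul_eq_mul_div, div_le_iff₀ hM0]
    push_cast
    linarith
  have hstep : ∀ E : ℕ, Even E → 3 * N ≤ 5 * E → E + M * (20 * (W + 1)) ≤ N →
      ((((Ico (0 : ℤ) (2 * ((20 * (W + 1) : ℕ) : ℤ))).filter
        (fun r : ℤ => bad (E + M * r.toNat))).filter
        (fun r : ℤ => 20 * |r - ((20 * (W + 1) : ℕ) : ℤ)| ≤ ((20 * (W + 1) : ℕ) : ℤ))).card : ℝ) ≤
      ε / 80 * ((20 * (W + 1) : ℕ) : ℝ) := by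
    intro E hE h3 h4
    exact FIN.step D hD (by rw [hMT₁]; omega) (by omega) bad hbad
      (hA1 (20 * (W + 1)) E hlamT hE h3 h4) hcoreW
  obtain ⟨L, hL⟩ : ∃ L, L = A + T - 21 * q := ⟨_, rfl⟩
  let F : ℕ → Finset ℤ := fun i => ((Ico (0 : ℤ) (2 * ((20 * (W + 1) : ℕ) : ℤ))).filter
        (fun r : ℤ => bad (L + i + M * r.toNat))).filter
        (fun r : ℤ => 20 * |r - ((20 * (W + 1) : ℕ) : ℤ)| ≤ ((20 * (W + 1) : ℕ) : ℤ))
  have hF : ∀ i ∈ (range (2 * M)).filter (fun i => Even (L + i)),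
      ((F i).card : ℝ) ≤ ε / 80 * ((20 * (W + 1) : ℕ) : ℝ) := by
    intro i hi
    obtain ⟨h3, h4⟩ := Finset.mem_filter.1 hi
    rw [Finset.mem_range] at h3
    exact hstep (L + i) h4 (by omega) (by rw [hMT₁]; omega)
  have hcov : (Ioc A (A + T)).filter (fun m => Even m ∧ (g m : ℝ) <
      κ' / 4 * (m / (Real.log m) ^ 2)) ⊆ ((range (2 * M)).filter (fun i => Even (L + i))).biUnion
        (fun i => (F i).image (fun r : ℤ => L + i + M * r.toNat)) := by
    intro m hm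
    obtain ⟨h3, h4, h5⟩ := Finset.mem_filter.1 hm
    rw [Finset.mem_Ioc] at h3
    have hLm : L ≤ m := by omega
    obtain ⟨i, hi⟩ : ∃ i, i = (m - L) % (2 * M) := ⟨_, rfl⟩
    obtain ⟨r, hr⟩ : ∃ r, r = (m - L) / (2 * M) := ⟨_, rfl⟩
    have hi2 : i < 2 * M := by rw [hi]; exact Nat.mod_lt _ (by omega)
    have hir : i + 2 * M * r = m - L := by rw [hi, hr]; exact Nat.mod_add_div _ _
    have hmE : m = L + i + M * (2 * r) := by
      have : M * (2 * r) = 2 * M * r := by ring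
      omega
    have h6 : 19 * (W + 1) ≤ 2 * r := by
      refine Nat.le_of_mul_le_mul_left (c := 0 + M) ?_ (by omega)
      have e1 : (0 + M) * (19 * (W + 1)) = 19 * q := by rw [hq]; ring
      have e2 : (0 + M) * (2 * r) = 2 * M * r := by ring
      rw [e1, e2]
      omega
    have h7 : 2 * r ≤ 21 * (W + 1) := by
      refine Nat.le_of_mul_le_mul_left (c := 0 + M) ?_ (by omega)
      have e1 : (0 + M) * (21 * (W + 1)) = 21 * q := by rw [hq]; ring
      have e2 : (0 + M) * (2 * r) = 2 * M * r := by ring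
      rw [e1, e2]
      omega
    refine Finset.mem_biUnion.2 ⟨i, Finset.mem_filter.2 ⟨Finset.mem_range.2 hi2, ?_⟩,
      Finset.mem_image.2 ⟨((2 * r : ℕ) : ℤ), ?_, ?_⟩⟩
    · have : Even (L + i + M * (2 * r)) := by rw [← hmE]; exact h4
      rw [Nat.even_add] at this
      exact this.2 (by rw [Nat.even_mul]; right; exact even_two_mul r)
    · refine Finset.mem_filter.2 ⟨Finset.mem_filter.2 ⟨?_, ?_⟩, ?_⟩
      · rw [Finset.mem_Ico]
        constructor
        · exact Int.natCast_nonneg _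
        · push_cast
          omega
      · show bad (L + i + M * (((2 * r : ℕ) : ℤ)).toNat)
        rw [Int.toNat_natCast, ← hmE]
        exact (hb m).2 ⟨h3.1, h3.2, h5⟩
      · have : |((2 * r : ℕ) : ℤ) - ((20 * (W + 1) : ℕ) : ℤ)| ≤ (W + 1 : ℤ) := by
          rw [abs_le]
          constructor
          · push_cast; omega
          · push_cast; omega
        push_cast at this ⊢
        linarith
    · show L + i + M * (((2 * r : ℕ) : ℤ)).toNat = m
      rw [Int.toNat_natCast, ← hmE]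
  have hsum : (((Ioc A (A + T)).filter (fun m => Even m ∧ (g m : ℝ) <
      κ' / 4 * (m / (Real.log m) ^ 2))).card : ℝ) ≤
      ∑ i ∈ (range (2 * M)).filter (fun i => Even (L + i)), ((F i).card : ℝ) := by
    have h3 := (Finset.card_le_card hcov).trans Finset.card_biUnion_le
    have h4 : ∑ i ∈ (range (2 * M)).filter (fun i => Even (L + i)),
        ((F i).image (fun r : ℤ => L + i + M * r.toNat)).card ≤
        ∑ i ∈ (range (2 * M)).filter (fun i => Even (L + i)), (F i).card :=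
      Finset.sum_le_sum fun i _ => Finset.card_image_le
    exact_mod_cast h3.trans h4
  refine hsum.trans ((Finset.sum_le_sum hF).trans ?_)
  rw [Finset.sum_const, nsmul_eq_mul]
  have h3 : (((range (2 * M)).filter (fun i => Even (L + i))).card : ℝ) ≤ 2 * M := by
    have := Finset.card_filter_le (range (2 * M)) (fun i => Even (L + i))
    rw [Finset.card_range] at this
    exact_mod_cast this
  have h4 : ((20 * (W + 1) : ℕ) : ℝ) = 20 * ((W : ℝ) + 1) := by push_cast; ring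
  rw [h4]
  have h5 : (M : ℝ) * (W + 1) ≤ 2 * T := by
    have : M * (W + 1) ≤ 2 * T := by rw [← hq]; omega
    exact_mod_cast this
  calc (((range (2 * M)).filter (fun i => Even (L + i))).card : ℝ) *
        (ε / 80 * (20 * ((W : ℝ) + 1)))
      ≤ 2 * M * (ε / 80 * (20 * ((W : ℝ) + 1))) := mul_le_mul_of_nonneg_right h3 (by positivity)
    _ = ε / 2 * (M * (W + 1)) := by ring
    _ ≤ ε / 2 * (2 * T) := mul_le_mul_of_nonneg_left h5 (by positivity)
    _ = ε * T := by ring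

end Pool.Agent.N679.RG
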