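import Pool.Agent.N679.RG.Stm

/-!
# Project RH (helper679): Goldbach representations with the right order of magnitude for 5 / 9 of the even numbers
in every window of length `λ log N`, or almost all multiples of `q` are differences of primes

Statements of the independent parts (continuation of `Stm.lean`).
-/

set_option autoImplicit false

namespace Pool.Agent.N679.RG

open Finset Filter Topology

open Classical in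
/-- **CLQ3** (from HIT2, MOM2, ABS; as CLQ2, with `q * M₀` in place of `M₀`, uniformly in `q ≤ Q`). -/
def S_CLQ3 : Prop := ∀ ε : ℝ, 0 < ε → ∃ M₀ : ℕ, 1 ≤ M₀ ∧ Even M₀ ∧ ∀ (Q : ℕ) (lam : ℝ), 0 < lam →
  ∃ κ : ℝ, 0 < κ ∧ ∀ᶠ N : ℕ in atTop, ∀ q T E : ℕ, 1 ≤ q → q ≤ Q → lam * Real.log N ≤ T → Even E →
    3 * N ≤ 5 * E → E + (q * M₀) * T ≤ N →
    ∃ A ⊆ (univ : Finset Bool) ×ˢ range T, (5 / 9 - ε) * T ≤ (A.card : ℝ) ∧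
      (((A ×ˢ A).filter (fun p => p.1 ≠ p.2 ∧
        (prs E (q * M₀) N p.1 p.2 : ℝ) < κ * (N / (Real.log N) ^ 2))).card : ℝ) ≤ ε * (T : ℝ) ^ 2

/-- **POL** Pollard's theorem in `ℤ / m` with a defect: `D` bounds the size of the proper subgroups. -/
def S_POL : Prop := ∀ (m : ℕ) [NeZero m] (D : ℕ),
  (∀ H : AddSubgroup (ZMod m), H ≠ ⊤ → Nat.card H ≤ D) →
  ∀ (A B : Finset (ZMod m)) (t : ℕ), t ≤ A.card → t ≤ B.card → A.card + B.card ≤ m + t + D →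
    t * (A.card + B.card) ≤
      ∑ x : ZMod m, min t ((A ×ˢ B).filter (fun p => p.1 + p.2 = x)).card + t * (t + D)

/-- **POLF** the popular version of Kneser's theorem for functions on `ℤ / m`, `m` without small prime
factors. -/
def S_POLF : Prop := ∀ ε : ℝ, 0 < ε → ∃ (y : ℕ) (c : ℝ), 0 < c ∧
  ∀ (m : ℕ) [NeZero m], (∀ p : ℕ, p.Prime → p ∣ m → y < p) →
  ∀ (φ ψ : ZMod m → ℝ) (V : Finset (ZMod m)), (∀ t, 0 ≤ φ t ∧ φ t ≤ 1) → (∀ t, 0 ≤ ψ t ∧ ψ t ≤ 1) →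
    ε * m ≤ ∑ t, φ t → ε * m ≤ ∑ t, ψ t → ε * m ≤ (V.card : ℝ) →
    (1 + ε) * m ≤ ∑ t, φ t + ∑ t, ψ t + (V.card : ℝ) →
    c * (m : ℝ) ^ 2 ≤ ∑ t, ∑ t', φ t * ψ t' * (if t + t' ∈ V then (1 : ℝ) else 0)

/-- **BEL** Bohr sets contain large elements `k m` with `k` bounded and `m` without small prime factors. -/
def S_BEL : Prop := ∀ (d y : ℕ) (ρ : ℝ), 0 < ρ → ∃ (Z W₀ : ℕ) (c : ℝ), 0 < c ∧ ∀ W : ℕ, W₀ ≤ W →
  ∀ θ : Fin d → ℝ, ∃ k m : ℕ, 1 ≤ k ∧ k ≤ Z ∧ (∀ p : ℕ, p.Prime → p ∣ m → y < p) ∧ c * W ≤ (m : ℝ) ∧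
    k * m ∈ Bh θ ρ W

open Classical in
/-- **INC** density increment: every set `B` of the density `ρ` has a higher (or equal) density `ρ'` in an
arithmetic progression `x₀ + q t` (`t < H`) such that its density in all long progressions with a bounded
difference inside this one is at most `ρ' + η`. -/
def S_INC : Prop := ∀ (η c : ℝ) (Z : ℕ), 0 < η → 0 < c → c ≤ 1 → 1 ≤ Z → ∃ (Q : ℕ) (c' : ℝ), 0 < c' ∧
  ∀ (L : ℕ) (B : ℕ → Prop) (ρ : ℝ), ρ * L ≤ (((range L).filter B).card : ℝ) →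
    ∃ (q x₀ H : ℕ) (ρ' : ℝ), 1 ≤ q ∧ q ≤ Q ∧ c' * L ≤ (H : ℝ) ∧ (∀ t < H, x₀ + q * t < L) ∧ ρ ≤ ρ' ∧
      ρ' * H ≤ (((range H).filter (fun t => B (x₀ + q * t))).card : ℝ) ∧
      ∀ q' x₁ H' : ℕ, 1 ≤ q' → q' ≤ Z → c * H ≤ (H' : ℝ) → (∀ t < H', x₁ + q' * t < H) →
        (((range H').filter (fun t => B (x₀ + q * (x₁ + q' * t)))).card : ℝ) ≤ (ρ' + η) * H'

/-- the element `t` of the cell `(v, i)`: the cell is an arithmetic progression of the difference `k` and the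
length `m` in the block `[v k m, (v + 1) k m)` -/
def cl (k m : ℕ) (p : ℤ × ℕ) (t : ℕ) : ℤ := p.1 * (k * m) + p.2 + k * t

open Classical in
/-- the elements of `U` in the sum of the cells `p`, `p'` -/
noncomputable def vs (k m : ℕ) [NeZero m] (U : Finset ℤ) (p p' : ℤ × ℕ) : Finset (ZMod m) :=
  univ.filter (fun t : ZMod m => cl k m (p.1 + p'.1, p.2 + p'.2) t.val ∈ U)

open Classical in
/-- **CELL** if `f` is almost periodic with the period `k m`, the number of the pairs `(x, z)` with the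
weights `f x g z` and `x + z ∈ U` can be counted cell by cell in `ℤ / m`. -/
def S_CELL : Prop := ∀ (k m R : ℕ) [NeZero m] (U : Finset ℤ) (f g : ℤ → ℝ) (η : ℝ), 1 ≤ k → 0 ≤ η →
  (∀ x, 0 ≤ f x ∧ f x ≤ 1) → (∀ x, 0 ≤ g x ∧ g x ≤ 1) → (∀ x, |f (x + k * m) - f x| ≤ η) →
  ∀ P : Finset ((ℤ × ℕ) × (ℤ × ℕ)), (∀ p ∈ P, p.1.2 < k ∧ p.2.2 < k ∧
      (|p.1.1| + 1) * (k * m) ≤ (R : ℤ) ∧ (|p.2.1| + 1) * (k * m) ≤ (R : ℤ)) →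
    ∑ p ∈ P, (∑ t : ZMod m, ∑ t' : ZMod m, f (cl k m p.1 t.val) * g (cl k m p.2 t'.val) *
        (if t + t' ∈ vs k m U p.1 p.2 then (1 : ℝ) else 0) - η * (m : ℝ) ^ 2) ≤
      ∑ x ∈ Icc (-(R : ℤ)) R, ∑ z ∈ Icc (-(R : ℤ)) R, f x * g z * (if x + z ∈ U then (1 : ℝ) else 0)

open Classical in
/-- **BLK** (from CELL, POLF) a set `U` of constant density `ρ` in progressions contains a positive
proportion of the sums, if the densities of `f`, `g` and `U` add up to more than `1`. -/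
def S_BLK : Prop := ∀ ε : ℝ, 0 < ε → ε ≤ 1 / 10 → ∃ (y : ℕ) (τ η : ℝ), 0 < τ ∧ 0 < η ∧ η ≤ 1 / 10 ∧
  ∀ (T k m : ℕ) (U : Finset ℤ) (f g : ℤ → ℝ) (ρ : ℝ),
    1 ≤ k → (∀ p : ℕ, p.Prime → p ∣ m → y < p) → 1 ≤ η * m → (k : ℝ) * m ≤ η * T →
    U ⊆ Ico 0 (2 * (T : ℤ)) → ε ≤ ρ → (ρ - η) * (2 * T) ≤ (U.card : ℝ) →
    (∀ x : ℤ, 0 ≤ x → x + k * (m - 1) < 2 * T →
      (((range m).filter (fun t : ℕ => x + k * t ∈ U)).card : ℝ) ≤ (ρ + η) * m) →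
    (∀ x, 0 ≤ f x ∧ f x ≤ 1) → (∀ x, 0 ≤ g x ∧ g x ≤ 1) →
    (∀ x : ℤ, f x ≠ 0 → -(η * T) ≤ (x : ℝ) ∧ (x : ℝ) ≤ (1 + η) * T) →
    (∀ x : ℤ, g x ≠ 0 → -(η * T) ≤ (x : ℝ) ∧ (x : ℝ) ≤ (1 + η) * T) →
    (∀ x, |f (x + k * m) - f x| ≤ η) →
    ε * T ≤ ∑ x ∈ Icc (-(2 * T : ℤ)) (2 * T), f x → ε * T ≤ ∑ x ∈ Icc (-(2 * T : ℤ)) (2 * T), g x →
    (1 - ρ + ε) * T ≤ ∑ x ∈ Icc (-(2 * T : ℤ)) (2 * T), f x + ∑ x ∈ Icc (-(2 * T : ℤ)) (2 * T), g x →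
    τ * (T : ℝ) ^ 2 ≤ ∑ x ∈ Icc (-(2 * T : ℤ)) (2 * T), ∑ z ∈ Icc (-(2 * T : ℤ)) (2 * T),
      f x * g z * (if x + z ∈ U then (1 : ℝ) else 0)

open Classical in
/-- **CORE2** (from SMO, FOU, BEL, BLK). -/
def S_CORE2 : Prop := ∀ ε : ℝ, 0 < ε → ε ≤ 1 / 10 → ∃ (Z T₀ : ℕ) (c τ : ℝ), 1 ≤ Z ∧ 0 < c ∧ c ≤ 1 ∧ 0 < τ ∧
  ∀ T : ℕ, T₀ ≤ T → ∀ (A C U : Finset ℤ) (ρ : ℝ),
    A ⊆ Ico 0 (T : ℤ) → C ⊆ Ico 0 (T : ℤ) → U ⊆ Ico 0 (2 * (T : ℤ)) → ε ≤ ρ →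
    (ρ - τ) * (2 * T) ≤ (U.card : ℝ) →
    (∀ (k m : ℕ) (x : ℤ), 1 ≤ k → k ≤ Z → c * T ≤ (m : ℝ) → 0 ≤ x → x + k * (m - 1) < 2 * T →
      (((range m).filter (fun t : ℕ => x + k * t ∈ U)).card : ℝ) ≤ (ρ + τ) * m) →
    ε * T ≤ (A.card : ℝ) → ε * T ≤ (C.card : ℝ) → (1 - ρ + ε) * T ≤ (A.card : ℝ) + C.card →
    τ * (T : ℝ) ^ 2 ≤ (((A ×ˢ C).filter (fun p => p.1 + p.2 ∈ U)).card : ℝ)

open Classical in
/-- **FIN2** (from CLQ3, INC, CORE2): at every place `A` and every scale `T ≥ λ log A`, either at most the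
proportion `4 / 9 + ε` of the even `m` in `(A, A + T]` have fewer than `κ m / log² m` representations as a sum of two
primes, or all but the proportion `ε` of the multiples of `q ≤ Q` up to `T' ≥ c T` are differences of at least
`κ A / log² A` pairs of primes. -/
def S_FIN2 : Prop := ∀ ε : ℝ, 0 < ε → ∃ (Q : ℕ) (c : ℝ), 0 < c ∧ ∀ lam : ℝ, 0 < lam → ∃ κ : ℝ, 0 < κ ∧
  ∀ᶠ A : ℕ in atTop, ∀ T : ℕ, lam * Real.log A ≤ T → 1000 * T ≤ A →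
    (((Ioc A (A + T)).filter (fun m => Even m ∧ (g m : ℝ) < κ * (m / (Real.log m) ^ 2))).card : ℝ) ≤
      (2 / 9 + ε) * T ∨
    ∃ q T' : ℕ, 1 ≤ q ∧ q ≤ Q ∧ c * T ≤ (T' : ℝ) ∧ T' ≤ T ∧
      (((Icc 1 T').filter (fun h => q ∣ h ∧
        (pairs h (2 * A) : ℝ) < κ * (A / (Real.log A) ^ 2))).card : ℝ) ≤ ε * (T' / q)

end Pool.Agent.N679.RG
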