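import Mathlib
import Pool.Agent.N679.RG.Stm2
import Pool.Agent.N679.RG.FIN

/-!
# Project RH: FIN2, the final assembly (from CLQ3, INC and CORE2)
-/

set_option autoImplicit false

namespace Pool.Agent.N679.RG

open Finset Filter Topology

namespace FIN2

open Classical in
/-- the two parts of an almost clique -/
theorem parts {M N E T₁ : ℕ} {ε' k : ℝ} {As : Finset (Bool × ℕ)}
    (hAs : As ⊆ (univ : Finset Bool) ×ˢ range T₁)
    (hpairs : (((As ×ˢ As).filter (fun p => p.1 ≠ p.2 ∧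
        (prs E M N p.1 p.2 : ℝ) < k)).card : ℝ) ≤ ε' * (T₁ : ℝ) ^ 2) :
    ∃ P : Bool → Finset ℤ, (∀ b, P b ⊆ Ico 0 (T₁ : ℤ)) ∧
      As.card ≤ (P false).card + (P true).card ∧
      ∀ (b b' : Bool) (Q : ℤ × ℤ → Prop) [DecidablePred Q],
        (∀ x y : ℕ, x < T₁ → y < T₁ → Q ((x : ℤ), (y : ℤ)) →
          ((b, x) : Bool × ℕ) ≠ (b', y) ∧ (prs E M N (b, x) (b', y) : ℝ) < k) →
        ((((P b) ×ˢ (P b')).filter Q).card : ℝ) ≤ ε' * (T₁ : ℝ) ^ 2 := by
  have hlt : ∀ b v, (b, v) ∈ As → v < T₁ := by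
    intro b v h
    have := (Finset.mem_product.1 (hAs h)).2
    exact Finset.mem_range.1 this
  -- the two parts of `As`
  let P : Bool → Finset ℤ := fun b =>
    (Ico (0 : ℤ) T₁).filter (fun v : ℤ => (b, v.toNat) ∈ As)
  have hPsub : ∀ b, P b ⊆ Ico 0 (T₁ : ℤ) := fun b => Finset.filter_subset _ _
  have hPmem : ∀ b v, v ∈ P b → ∃ n : ℕ, v = (n : ℤ) ∧ (b, n) ∈ As ∧ n < T₁ := by
    intro b v hv
    obtain ⟨h3, h4⟩ := Finset.mem_filter.1 hv
    rw [Finset.mem_Ico] at h3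
    exact ⟨v.toNat, by omega, h4, by omega⟩
  have hPcard : As.card ≤ (P false).card + (P true).card := by
    have hsplit : As.card = (As.filter (fun u => u.1 = false)).card +
        (As.filter (fun u => ¬ u.1 = false)).card :=
      (Finset.card_filter_add_card_filter_not _).symm
    rw [hsplit]
    refine Nat.add_le_add ?_ ?_
    · refine Finset.card_le_card_of_injOn (fun u => (u.2 : ℤ)) ?_ ?_
      · intro u hu
        obtain ⟨h3, h4⟩ := Finset.mem_filter.1 (Finset.mem_coe.1 hu)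
        obtain ⟨b, v⟩ := u
        have h5 : b = false := h4
        subst h5
        refine Finset.mem_coe.2 (Finset.mem_filter.2 ⟨Finset.mem_Ico.2 ⟨?_, ?_⟩, ?_⟩)
        · exact Int.natCast_nonneg _
        · show ((v : ℕ) : ℤ) < (T₁ : ℤ)
          exact_mod_cast hlt _ _ h3
        · show (false, ((v : ℤ)).toNat) ∈ As
          rw [Int.toNat_natCast]; exact h3
      · intro u hu u' hu' h
        obtain ⟨h3, h4⟩ := Finset.mem_filter.1 (Finset.mem_coe.1 hu)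
        obtain ⟨h3', h4'⟩ := Finset.mem_filter.1 (Finset.mem_coe.1 hu')
        have h5 : (u.2 : ℤ) = (u'.2 : ℤ) := h
        exact Prod.ext (h4.trans h4'.symm) (by exact_mod_cast h5)
    · refine Finset.card_le_card_of_injOn (fun u => (u.2 : ℤ)) ?_ ?_
      · intro u hu
        obtain ⟨h3, h4⟩ := Finset.mem_filter.1 (Finset.mem_coe.1 hu)
        obtain ⟨b, v⟩ := u
        have h5 : b = true := by simpa using h4
        subst h5
        refine Finset.mem_coe.2 (Finset.mem_filter.2 ⟨Finset.mem_Ico.2 ⟨?_, ?_⟩, ?_⟩)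
        · exact Int.natCast_nonneg _
        · show ((v : ℕ) : ℤ) < (T₁ : ℤ)
          exact_mod_cast hlt _ _ h3
        · show (true, ((v : ℤ)).toNat) ∈ As
          rw [Int.toNat_natCast]; exact h3
      · intro u hu u' hu' h
        obtain ⟨h3, h4⟩ := Finset.mem_filter.1 (Finset.mem_coe.1 hu)
        obtain ⟨h3', h4'⟩ := Finset.mem_filter.1 (Finset.mem_coe.1 hu')
        have h5 : (u.2 : ℤ) = (u'.2 : ℤ) := h
        have h6 : u.1 = true := by simpa using h4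
        have h7 : u'.1 = true := by simpa using h4'
        exact Prod.ext (h6.trans h7.symm) (by exact_mod_cast h5)
  refine ⟨P, hPsub, hPcard, ?_⟩
  intro b b' Q _ hQ
  refine le_trans ?_ hpairs
  norm_cast
  refine Finset.card_le_card_of_injOn
    (fun p : ℤ × ℤ => (((b, p.1.toNat), (b', p.2.toNat)) : (Bool × ℕ) × (Bool × ℕ))) ?_ ?_
  · rintro ⟨x, y⟩ hp
    obtain ⟨h3, h4⟩ := Finset.mem_filter.1 (Finset.mem_coe.1 hp)
    obtain ⟨h5, h6⟩ := Finset.mem_product.1 h3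
    obtain ⟨x', rfl, hx', hx''⟩ := hPmem _ _ h5
    obtain ⟨y', rfl, hy', hy''⟩ := hPmem _ _ h6
    have h7 := hQ x' y' hx'' hy'' h4
    refine Finset.mem_coe.2 (Finset.mem_filter.2 ⟨?_, ?_⟩)
    · show (((b, (x' : ℤ).toNat), (b', (y' : ℤ).toNat)) : (Bool × ℕ) × (Bool × ℕ)) ∈ As ×ˢ As
      rw [Int.toNat_natCast, Int.toNat_natCast]
      exact Finset.mem_product.2 ⟨hx', hy'⟩
    · show ((b, (x' : ℤ).toNat) : Bool × ℕ) ≠ (b', (y' : ℤ).toNat) ∧
        (prs E M N (b, (x' : ℤ).toNat) (b', (y' : ℤ).toNat) : ℝ) < k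
      rw [Int.toNat_natCast, Int.toNat_natCast]
      exact h7
  · rintro ⟨x, y⟩ hp ⟨x₂, y₂⟩ hp₂ h
    obtain ⟨h3, h4⟩ := Finset.mem_filter.1 (Finset.mem_coe.1 hp)
    obtain ⟨h5, h6⟩ := Finset.mem_product.1 h3
    obtain ⟨x', rfl, hx', hx''⟩ := hPmem _ _ h5
    obtain ⟨y', rfl, hy', hy''⟩ := hPmem _ _ h6
    obtain ⟨h3', h4'⟩ := Finset.mem_filter.1 (Finset.mem_coe.1 hp₂)
    obtain ⟨h5', h6'⟩ := Finset.mem_product.1 h3'
    obtain ⟨x₂', rfl, hx₂', hx₂''⟩ := hPmem _ _ h5'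
    obtain ⟨y₂', rfl, hy₂', hy₂''⟩ := hPmem _ _ h6'
    have h7 : (((b, (x' : ℤ).toNat), (b', (y' : ℤ).toNat)) : (Bool × ℕ) × (Bool × ℕ)) =
      ((b, (x₂' : ℤ).toNat), (b', (y₂' : ℤ).toNat)) := h
    rw [Int.toNat_natCast, Int.toNat_natCast, Int.toNat_natCast, Int.toNat_natCast] at h7
    simp only [Prod.mk.injEq, true_and] at h7
    rw [h7.1, h7.2]

/-- a set of density `27 / 50` has many pairs with a given small difference -/
theorem diffs {T₁ w : ℕ} (S : Finset ℤ) (hS : S ⊆ Ico 0 (T₁ : ℤ))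
    (hc : (27 / 50 : ℝ) * T₁ ≤ (S.card : ℝ))
    (hw : 50 * w ≤ T₁) (D : Finset ℕ) (hD : D ⊆ Icc 1 w) :
    (D.card : ℝ) * (T₁ / 20) ≤
      (((S ×ˢ S).filter (fun p => ∃ h ∈ D, p.2 - p.1 = (h : ℤ))).card : ℝ) := by
  have h1 : ∀ h ∈ D, ((T₁ : ℝ) / 20) ≤ ((S.filter (fun x => x + (h : ℤ) ∈ S)).card : ℝ) := by
    intro h hh
    have hh' := Finset.mem_Icc.1 (hD hh)
    have h2 : (S.filter (fun x => ¬ (x + (h : ℤ) ∈ S))).card ≤
        ((Ico (0 : ℤ) (T₁ + h)) \ S).card := by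
      refine Finset.card_le_card_of_injOn (fun x => x + (h : ℤ)) ?_ ?_
      · intro x hx
        obtain ⟨h3, h4⟩ := Finset.mem_filter.1 (Finset.mem_coe.1 hx)
        have h5 := Finset.mem_Ico.1 (hS h3)
        refine Finset.mem_coe.2 (Finset.mem_sdiff.2 ⟨Finset.mem_Ico.2 ⟨?_, ?_⟩, h4⟩)
        · show 0 ≤ x + (h : ℤ)
          omega
        · show x + (h : ℤ) < T₁ + h
          omega
      · intro x _ y _ hxy
        have : x + (h : ℤ) = y + h := hxy
        omega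
    have h3 : ((Ico (0 : ℤ) (T₁ + h)) \ S).card + S.card = T₁ + h := by
      rw [Finset.card_sdiff_add_card_eq_card (hS.trans (Finset.Ico_subset_Ico le_rfl (by omega)))]
      rw [Int.card_Ico]
      omega
    have h4 : (S.filter (fun x => x + (h : ℤ) ∈ S)).card +
        (S.filter (fun x => ¬ (x + (h : ℤ) ∈ S))).card = S.card :=
      Finset.card_filter_add_card_filter_not _
    have h5 : 2 * S.card ≤ (S.filter (fun x => x + (h : ℤ) ∈ S)).card + (T₁ + h) := by omega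
    have h6 : 2 * (S.card : ℝ) ≤ (S.filter (fun x => x + (h : ℤ) ∈ S)).card + (T₁ + h) := by
      exact_mod_cast h5
    have h7 : (h : ℝ) ≤ T₁ / 50 := by
      rw [le_div_iff₀ (by norm_num)]
      have : h * 50 ≤ T₁ := by omega
      exact_mod_cast this
    linarith
  calc (D.card : ℝ) * (T₁ / 20) = ∑ h ∈ D, ((T₁ : ℝ) / 20) := by
        rw [Finset.sum_const, nsmul_eq_mul]
    _ ≤ ∑ h ∈ D, ((S.filter (fun x => x + (h : ℤ) ∈ S)).card : ℝ) := Finset.sum_le_sum h1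
    _ = ((D.sigma (fun h => S.filter (fun x => x + (h : ℤ) ∈ S))).card : ℝ) := by
        rw [Finset.card_sigma]; push_cast; rfl
    _ ≤ _ := by
        have : (D.sigma (fun h => S.filter (fun x => x + (h : ℤ) ∈ S))).card ≤
            ((S ×ˢ S).filter (fun p => ∃ h ∈ D, p.2 - p.1 = (h : ℤ))).card := by
          refine Finset.card_le_card_of_injOn
            (fun p : (Σ _ : ℕ, ℤ) => ((p.2, p.2 + (p.1 : ℤ)) : ℤ × ℤ)) ?_ ?_
          · rintro ⟨h, x⟩ hp
            obtain ⟨h2, h3⟩ := Finset.mem_sigma.1 (Finset.mem_coe.1 hp)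
            obtain ⟨h4, h5⟩ := Finset.mem_filter.1 h3
            refine Finset.mem_coe.2 (Finset.mem_filter.2 ⟨Finset.mem_product.2 ⟨h4, h5⟩, h, h2, ?_⟩)
            show x + (h : ℤ) - x = h
            ring
          · rintro ⟨h, x⟩ _ ⟨h', x'⟩ _ he
            have h2 : x = x' := congrArg Prod.fst he
            have h3 : x + (h : ℤ) = x' + (h' : ℤ) := congrArg Prod.snd he
            subst h2
            have h4 : h = h' := by omega
            subst h4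
            rfl
        exact_mod_cast this

open Classical in
/-- the main step -/
theorem step {M₀ A N E₀ q x₀ H T₁ Z w : ℕ} {ε ε₃ k c τ ρ' : ℝ} (bad : ℕ → Prop)
    (hbad : ∀ m, bad m → (g m : ℝ) < k)
    (hε : 0 < ε) (hε1 : ε ≤ 1 / 100) (hε₃ : ε₃ ≤ τ / 2) (hε₃' : ε₃ ≤ ε / 4000) (hτ : 0 < τ)
    (hc : 0 < c) (hT₁ : T₁ = H / 2) (hT₁b : 100 ≤ T₁) (hT₁c : 1 ≤ 2 * τ * T₁)
    (hρ : 4 / 9 + ε ≤ ρ')
    (hH : ρ' * H ≤ (((range H).filter (fun t => bad (E₀ + M₀ * (x₀ + q * t)))).card : ℝ))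
    (hH2 : ∀ q' x₁ H' : ℕ, 1 ≤ q' → q' ≤ Z → c / 3 * H ≤ (H' : ℝ) → (∀ t < H', x₁ + q' * t < H) →
        (((range H').filter (fun t => bad (E₀ + M₀ * (x₀ + q * (x₁ + q' * t))))).card : ℝ) ≤
          (ρ' + τ / 2) * H')
    (hclq : ∃ As ⊆ (univ : Finset Bool) ×ˢ range T₁, (5 / 9 - ε₃) * T₁ ≤ (As.card : ℝ) ∧
      (((As ×ˢ As).filter (fun p => p.1 ≠ p.2 ∧
        (prs (E₀ + M₀ * x₀) (q * M₀) N p.1 p.2 : ℝ) < k)).card : ℝ) ≤ ε₃ * (T₁ : ℝ) ^ 2)
    (hcore : ∀ (A C U : Finset ℤ) (ρ : ℝ),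
      A ⊆ Ico 0 (T₁ : ℤ) → C ⊆ Ico 0 (T₁ : ℤ) → U ⊆ Ico 0 (2 * (T₁ : ℤ)) → ε / 4 ≤ ρ →
      (ρ - τ) * (2 * T₁) ≤ (U.card : ℝ) →
      (∀ (k m : ℕ) (x : ℤ), 1 ≤ k → k ≤ Z → c * T₁ ≤ (m : ℝ) → 0 ≤ x → x + k * (m - 1) < 2 * T₁ →
        (((range m).filter (fun t : ℕ => x + k * t ∈ U)).card : ℝ) ≤ (ρ + τ) * m) →
      ε / 4 * T₁ ≤ (A.card : ℝ) → ε / 4 * T₁ ≤ (C.card : ℝ) →
      (1 - ρ + ε / 4) * T₁ ≤ (A.card : ℝ) + C.card →
      τ * (T₁ : ℝ) ^ 2 ≤ (((A ×ˢ C).filter (fun p => p.1 + p.2 ∈ U)).card : ℝ))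
    (D : Finset ℕ) (hw : w = T₁ / 50) (hD : D ⊆ Icc 1 w)
    (hD2 : ∀ t ∈ D, (pairs (q * M₀ * t) (2 * A) : ℝ) < k)
    (h1 : 5 * N / 9 + (q * M₀) * T₁ ≤ 2 * A) (h2 : E₀ + M₀ * x₀ + (q * M₀) * T₁ ≤ 2 * A) :
    (D.card : ℝ) ≤ ε * w := by
  obtain ⟨As, hAs, hcard, hpairs⟩ := hclq
  obtain ⟨P, hPsub, hPcard, hsmall⟩ := parts hAs hpairs
  have hT₁0 : (0 : ℝ) < T₁ := by
    have : 0 < T₁ := by omega
    exact_mod_cast this
  have hT₁100 : (100 : ℝ) ≤ T₁ := by exact_mod_cast hT₁b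
  have hcard' : (5 / 9 - ε₃) * T₁ ≤ ((P false).card : ℝ) + (P true).card :=
    hcard.trans (by exact_mod_cast hPcard)
  -- the set `U`
  obtain ⟨U, hU⟩ : ∃ U : Finset ℤ, U = (Ico (0 : ℤ) (2 * (T₁ : ℤ))).filter
    (fun r : ℤ => bad (E₀ + M₀ * (x₀ + q * r.toNat))) := ⟨_, rfl⟩
  have hUsub : U ⊆ Ico 0 (2 * (T₁ : ℤ)) := by rw [hU]; exact Finset.filter_subset _ _
  have hUmem : ∀ r : ℕ, (r : ℤ) ∈ U → bad (E₀ + M₀ * (x₀ + q * r)) := by
    intro r hr
    rw [hU] at hr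
    have := (Finset.mem_filter.1 hr).2
    rw [Int.toNat_natCast] at this
    exact this
  have hUcard : ρ' * H ≤ (U.card : ℝ) + 1 := by
    refine hH.trans ?_
    have h3 : ((range H).filter (fun t => bad (E₀ + M₀ * (x₀ + q * t)))) ⊆
        insert (2 * T₁) ((range (2 * T₁)).filter (fun t => bad (E₀ + M₀ * (x₀ + q * t)))) := by
      intro t ht
      obtain ⟨h4, h5⟩ := Finset.mem_filter.1 ht
      rw [Finset.mem_range] at h4
      rw [Finset.mem_insert, Finset.mem_filter, Finset.mem_range]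
      by_cases h6 : t = 2 * T₁
      · exact Or.inl h6
      · exact Or.inr ⟨by omega, h5⟩
    have h4 : ((range (2 * T₁)).filter (fun t => bad (E₀ + M₀ * (x₀ + q * t)))).card ≤ U.card := by
      refine Finset.card_le_card_of_injOn (fun t => (t : ℤ)) ?_ ?_
      · intro t ht
        obtain ⟨h4, h5⟩ := Finset.mem_filter.1 (Finset.mem_coe.1 ht)
        rw [Finset.mem_range] at h4
        rw [hU]
        refine Finset.mem_coe.2 (Finset.mem_filter.2 ⟨Finset.mem_Ico.2 ⟨?_, ?_⟩, ?_⟩)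
        · exact Int.natCast_nonneg _
        · show (t : ℤ) < 2 * (T₁ : ℤ)
          omega
        · show bad (E₀ + M₀ * (x₀ + q * ((t : ℤ)).toNat))
          rw [Int.toNat_natCast]; exact h5
      · intro t _ t' _ h
        have h' : (t : ℤ) = (t' : ℤ) := h
        exact_mod_cast h'
    have h5 := (Finset.card_le_card h3).trans (Finset.card_insert_le _ _)
    have h6 := h5.trans (Nat.add_le_add_right h4 1)
    exact_mod_cast h6
  have hH1 : (2 : ℝ) * T₁ ≤ H := by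
    have : 2 * T₁ ≤ H := by omega
    exact_mod_cast this
  have hH3 : (H : ℝ) ≤ 3 * T₁ := by
    have : H ≤ 3 * T₁ := by omega
    exact_mod_cast this
  have hρ0 : 0 ≤ ρ' := by linarith
  have hU1 : (ρ' - τ) * (2 * T₁) ≤ (U.card : ℝ) := by nlinarith
  have hU2 : ∀ (k m : ℕ) (x : ℤ), 1 ≤ k → k ≤ Z → c * T₁ ≤ (m : ℝ) → 0 ≤ x →
      x + k * (m - 1) < 2 * T₁ →
        (((range m).filter (fun t : ℕ => x + k * t ∈ U)).card : ℝ) ≤ (ρ' + τ) * m := by
    intro k m x hk hkZ hm hx hxk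
    obtain ⟨y, rfl⟩ := Int.eq_ofNat_of_zero_le hx
    have hm0 : (0 : ℝ) < m := lt_of_lt_of_le (by positivity) hm
    have hm0' : 0 < m := by exact_mod_cast hm0
    have h3 := hH2 k y m hk hkZ (by nlinarith) (by
      intro t ht
      have h4 : (k : ℤ) * t ≤ k * (m - 1) := by
        refine mul_le_mul_of_nonneg_left ?_ (by positivity)
        omega
      have h5 : ((y + k * t : ℕ) : ℤ) < 2 * T₁ := by
        push_cast
        linarith
      omega)
    have h4 : ((range m).filter (fun t : ℕ => ((y : ℕ) : ℤ) + k * t ∈ U)).card ≤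
        ((range m).filter (fun t => bad (E₀ + M₀ * (x₀ + q * (y + k * t))))).card := by
      refine Finset.card_le_card ?_
      intro t ht
      obtain ⟨h5, h6⟩ := Finset.mem_filter.1 ht
      refine Finset.mem_filter.2 ⟨h5, hUmem _ ?_⟩
      push_cast
      exact h6
    have h5 : (((range m).filter (fun t : ℕ => ((y : ℕ) : ℤ) + k * t ∈ U)).card : ℝ) ≤
        (ρ' + τ / 2) * m := le_trans (by exact_mod_cast h4) h3
    refine h5.trans ?_
    nlinarith
  -- bad pairs from `U`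
  have hUpairs : ((((P false) ×ˢ (P true)).filter (fun p => p.1 + p.2 ∈ U)).card : ℝ) ≤
      ε₃ * (T₁ : ℝ) ^ 2 := by
    refine hsmall false true _ ?_
    intro x z hx hz hxz
    refine ⟨fun h => by have := congrArg Prod.fst h; simp at this, ?_⟩
    have h3 : ((x + z : ℕ) : ℤ) ∈ U := by
      push_cast
      exact hxz
    have h4 := hUmem _ h3
    have h5 : E₀ + M₀ * (x₀ + q * (x + z)) = E₀ + M₀ * x₀ + q * M₀ * (x + z) := by ring
    rw [h5] at h4
    refine lt_of_le_of_lt ?_ (hbad _ h4)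
    exact_mod_cast FIN.prs_ft (E₀ + M₀ * x₀) (q * M₀) N x z
  have hT2 : (0 : ℝ) < (T₁ : ℝ) ^ 2 := by positivity
  -- the conclusion from a large part
  have hfin : ∀ b : Bool, (27 / 50 : ℝ) * T₁ ≤ ((P b).card : ℝ) → (D.card : ℝ) ≤ ε * w := by
    intro b hb
    have h3 : (((P b ×ˢ P b).filter (fun p => ∃ h ∈ D, p.2 - p.1 = (h : ℤ))).card : ℝ) ≤
        ε₃ * (T₁ : ℝ) ^ 2 := by
      refine hsmall b b _ ?_
      rintro x y hxT hyT ⟨t, ht, hxy⟩
      have hy' : y = x + t := by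
        have : (y : ℤ) - (x : ℤ) = (t : ℤ) := hxy
        omega
      subst hy'
      have ht1 := (Finset.mem_Icc.1 (hD ht)).1
      refine ⟨?_, ?_⟩
      · intro h
        have := congrArg Prod.snd h
        simp only at this
        omega
      · refine lt_of_le_of_lt ?_ (hD2 t ht)
        cases b with
        | false =>
          have := FIN.prs_ff (E₀ + M₀ * x₀) (q * M₀) N x t (2 * A) (le_trans (Nat.add_le_add_left
            (Nat.mul_le_mul_left (q * M₀) hxT.le) _) h1)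
          exact_mod_cast this
        | true =>
          have := FIN.prs_tt (E₀ + M₀ * x₀) (q * M₀) N x t (2 * A) (le_trans (Nat.add_le_add_left
            (Nat.mul_le_mul_left (q * M₀) hxT.le) _) h2)
          exact_mod_cast this
    have h4 := (diffs (P b) (hPsub b) hb (by omega) D hD).trans h3
    have h5 : (D.card : ℝ) ≤ 20 * ε₃ * T₁ := by
      have h6 : (D.card : ℝ) * (T₁ / 20) ≤ (20 * ε₃ * T₁) * (T₁ / 20) := by
        refine h4.trans (le_of_eq ?_)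
        ring
      exact le_of_mul_le_mul_right h6 (by positivity)
    have h6 : (T₁ : ℝ) ≤ 50 * w + 50 := by
      have : T₁ ≤ 50 * w + 50 := by omega
      exact_mod_cast this
    have h7 : (D.card : ℝ) ≤ ε * (T₁ / 200) := by
      refine h5.trans ?_
      nlinarith
    refine h7.trans ?_
    refine mul_le_mul_of_nonneg_left ?_ hε.le
    linarith
  by_cases hf : ε / 4 * T₁ ≤ ((P false).card : ℝ)
  · by_cases ht : ε / 4 * T₁ ≤ ((P true).card : ℝ)
    · exfalso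
      have h3 := hcore (P false) (P true) U ρ' (hPsub _) (hPsub _) hUsub (by linarith) hU1 hU2 hf ht
        (by
          refine le_trans ?_ hcard'
          refine mul_le_mul_of_nonneg_right ?_ hT₁0.le
          linarith)
      have h4 := h3.trans hUpairs
      have h5 : τ ≤ ε₃ := le_of_mul_le_mul_right h4 hT2
      linarith
    · refine hfin false ?_
      rw [not_le] at ht
      nlinarith
  · refine hfin true ?_
    rw [not_le] at hf
    nlinarith

open Classical in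
/-- the pigeonhole principle -/
theorem pigeon {A T M₀ : ℕ} (hM : 1 ≤ M₀) (hMe : Even M₀) (bad : ℕ → Prop) (x : ℝ)
    (hx : x * (M₀ / 2) < (((Ioc A (A + T)).filter (fun m => Even m ∧ bad m)).card : ℝ)) :
    ∃ E₀ : ℕ, Even E₀ ∧ A < E₀ ∧ E₀ ≤ A + M₀ ∧
      x < (((range (T / M₀ + 1)).filter (fun t => bad (E₀ + M₀ * t))).card : ℝ) := by
  obtain ⟨s, hs⟩ := hMe
  by_contra hcon
  push Not at hcon
  let F : ℕ → Finset ℕ := fun i =>
    (range (T / M₀ + 1)).filter (fun t => bad (2 * (A / 2 + 1 + i) + M₀ * t))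
  have hF : ∀ i ∈ range s, ((F i).card : ℝ) ≤ x := by
    intro i hi
    rw [Finset.mem_range] at hi
    exact hcon (2 * (A / 2 + 1 + i)) (even_two_mul _) (by omega) (by omega)
  have hcov : (Ioc A (A + T)).filter (fun m => Even m ∧ bad m) ⊆
      (range s).biUnion (fun i => (F i).image (fun t => 2 * (A / 2 + 1 + i) + M₀ * t)) := by
    intro m hm
    obtain ⟨h3, ⟨j, hj⟩, h5⟩ := Finset.mem_filter.1 hm
    rw [Finset.mem_Ioc] at h3
    obtain ⟨i, hi⟩ : ∃ i, i = (j - (A / 2 + 1)) % s := ⟨_, rfl⟩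
    obtain ⟨t, ht⟩ : ∃ t, t = (j - (A / 2 + 1)) / s := ⟨_, rfl⟩
    have hs0 : 0 < s := by omega
    have hi2 : i < s := by rw [hi]; exact Nat.mod_lt _ hs0
    have hit : i + s * t = j - (A / 2 + 1) := by rw [hi, ht]; exact Nat.mod_add_div _ _
    have hMt : M₀ * t = 2 * (s * t) := by rw [hs]; ring
    have hmE : m = 2 * (A / 2 + 1 + i) + M₀ * t := by omega
    have ht2 : t < T / M₀ + 1 := by
      refine Nat.lt_succ_of_le ((Nat.le_div_iff_mul_le hM).2 ?_)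
      rw [mul_comm]
      omega
    refine Finset.mem_biUnion.2 ⟨i, Finset.mem_range.2 hi2, Finset.mem_image.2 ⟨t, ?_, hmE.symm⟩⟩
    refine Finset.mem_filter.2 ⟨Finset.mem_range.2 ht2, ?_⟩
    rw [← hmE]
    exact h5
  have hsum : (((Ioc A (A + T)).filter (fun m => Even m ∧ bad m)).card : ℝ) ≤
      ∑ i ∈ range s, ((F i).card : ℝ) := by
    have h3 := (Finset.card_le_card hcov).trans Finset.card_biUnion_le
    have h4 : ∑ i ∈ range s, ((F i).image (fun t => 2 * (A / 2 + 1 + i) + M₀ * t)).card ≤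
        ∑ i ∈ range s, (F i).card :=
      Finset.sum_le_sum fun i _ => Finset.card_image_le
    exact_mod_cast h3.trans h4
  have h3 := hsum.trans (Finset.sum_le_sum hF)
  rw [Finset.sum_const, nsmul_eq_mul, Finset.card_range] at h3
  have h4 : (M₀ : ℝ) / 2 = s := by
    have : (M₀ : ℝ) = s + s := by exact_mod_cast hs
    rw [this]; ring
  rw [h4] at hx
  linarith

/-- the multiples of `q` up to `q w` -/
theorem mult_card {q w : ℕ} (hq : 1 ≤ q) (R : ℕ → Prop) [DecidablePred R] :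
    ((Icc 1 (q * w)).filter (fun h => q ∣ h ∧ R h)).card =
      ((Icc 1 w).filter (fun t => R (q * t))).card := by
  symm
  refine Finset.card_bij (fun t _ => q * t) ?_ ?_ ?_
  · intro t ht
    obtain ⟨h1, h2⟩ := Finset.mem_filter.1 ht
    rw [Finset.mem_Icc] at h1
    rw [Finset.mem_filter, Finset.mem_Icc]
    exact ⟨⟨Nat.mul_pos hq h1.1, Nat.mul_le_mul_left q h1.2⟩, dvd_mul_right _ _, h2⟩
  · intro t _ t' _ h
    exact Nat.eq_of_mul_eq_mul_left hq h
  · intro h hh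
    rw [Finset.mem_filter, Finset.mem_Icc] at hh
    obtain ⟨⟨h1, h2⟩, ⟨t, rfl⟩, h4⟩ := hh
    exact ⟨t, Finset.mem_filter.2 ⟨Finset.mem_Icc.2 ⟨Nat.pos_of_mul_pos_left h1,
      Nat.le_of_mul_le_mul_left h2 hq⟩, h4⟩, rfl⟩

open Classical in
/-- the theorem for small `ε` -/
theorem main (ε : ℝ) (hε : 0 < ε) (hε1 : ε ≤ 1 / 100) (hCLQ : S_CLQ3) (hINC : S_INC)
    (hCORE : S_CORE2) :
    ∃ (Q : ℕ) (c : ℝ), 0 < c ∧ ∀ lam : ℝ, 0 < lam → ∃ κ : ℝ, 0 < κ ∧
    ∀ᶠ A : ℕ in atTop, ∀ T : ℕ, lam * Real.log A ≤ T → 1000 * T ≤ A →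
      (((Ioc A (A + T)).filter (fun m => Even m ∧
        (g m : ℝ) < κ * (m / (Real.log m) ^ 2))).card : ℝ) ≤ (2 / 9 + ε) * T ∨
      ∃ q T' : ℕ, 1 ≤ q ∧ q ≤ Q ∧ c * T ≤ (T' : ℝ) ∧ T' ≤ T ∧
        (((Icc 1 T').filter (fun h => q ∣ h ∧
          (pairs h (2 * A) : ℝ) < κ * (A / (Real.log A) ^ 2))).card : ℝ) ≤ ε * (T' / q) := by
  obtain ⟨Z, T₀, cc, τ, hZ, hcc, hcc1, hτ, hcore⟩ := hCORE (ε / 4) (by positivity) (by linarith)
  obtain ⟨Q, c', hc', hinc⟩ := hINC (τ / 2) (cc / 3) Z (by positivity) (by positivity)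
    (by linarith) hZ
  obtain ⟨M₀, hM, hMe, hclq⟩ := hCLQ (min (τ / 2) (ε / 4000))
    (lt_min (by positivity) (by positivity))
  have hM0 : (0 : ℝ) < M₀ := by exact_mod_cast hM
  refine ⟨Q * M₀, c' / 300, by positivity, fun lam hlam => ?_⟩
  obtain ⟨κ', hκ', hev⟩ := hclq Q (lam * c' / (8 * M₀)) (by positivity)
  refine ⟨κ' / 4, by positivity, ?_⟩
  have htend : Tendsto (fun A : ℕ => 3 * A / 2) atTop atTop :=
    tendsto_atTop_mono (fun A => show A ≤ 3 * A / 2 by omega) tendsto_id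
  have hlog : Tendsto (fun A : ℕ => lam * Real.log A) atTop atTop :=
    (Real.tendsto_log_atTop.comp tendsto_natCast_atTop_atTop).const_mul_atTop hlam
  filter_upwards [htend.eventually hev, hlog.eventually_ge_atTop ((M₀ : ℝ) / ε),
    hlog.eventually_ge_atTop ((3 * M₀) * (T₀ + 100 + 1 / (2 * τ)) / c'),
    hlog.eventually_ge_atTop (M₀ : ℝ), eventually_ge_atTop 1000]
    with A hA1 hA2 hA3 hA5 hA4 T hT1 hT2
  by_cases halt : (((Ioc A (A + T)).filter (fun m => Even m ∧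
      (g m : ℝ) < κ' / 4 * (m / (Real.log m) ^ 2))).card : ℝ) ≤ (2 / 9 + ε) * T
  · exact Or.inl halt
  right
  rw [not_le] at halt
  obtain ⟨N, hN⟩ : ∃ N, N = 3 * A / 2 := ⟨_, rfl⟩
  rw [← hN] at hA1
  have hTε : (M₀ : ℝ) / ε ≤ T := hA2.trans hT1
  have hTb : (3 * M₀) * (T₀ + 100 + 1 / (2 * τ)) / c' ≤ (T : ℝ) := hA3.trans hT1
  have hMT : M₀ ≤ T := by exact_mod_cast hA5.trans hT1
  obtain ⟨bad, hb⟩ : ∃ bad : ℕ → Prop, ∀ m, bad m ↔
      (A < m ∧ m ≤ A + T ∧ (g m : ℝ) < κ' / 4 * (m / (Real.log m) ^ 2)) := ⟨_, fun _ => Iff.rfl⟩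
  have hA2' : 2 ≤ A := by omega
  have hN3 : 2 * N ≤ 3 * A := by omega
  have hAN : A ≤ N := by omega
  have hbad : ∀ m, bad m → (g m : ℝ) < κ' * (N / (Real.log N) ^ 2) := by
    intro m hm
    obtain ⟨h3, h4, h5⟩ := (hb m).1 hm
    exact h5.trans_le (FIN.cmp hκ' hA2' hN3 h3.le (by omega))
  -- the class
  have hbc : ((Ioc A (A + T)).filter (fun m => Even m ∧
      (g m : ℝ) < κ' / 4 * (m / (Real.log m) ^ 2))) =
      ((Ioc A (A + T)).filter (fun m => Even m ∧ bad m)) := by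
    refine Finset.filter_congr ?_
    intro m hm
    rw [Finset.mem_Ioc] at hm
    rw [hb m]
    constructor
    · rintro ⟨h3, h4⟩
      exact ⟨h3, hm.1, hm.2, h4⟩
    · rintro ⟨h3, _, _, h4⟩
      exact ⟨h3, h4⟩
  rw [hbc] at halt
  obtain ⟨E₀, hE₀e, hE₀1, hE₀2, hE₀3⟩ := pigeon (A := A) (T := T) hM hMe bad
    ((4 / 9 + 2 * ε) * T / M₀) (by
      refine lt_of_eq_of_lt ?_ halt
      field_simp
      ring)
  obtain ⟨L, hL⟩ : ∃ L, L = T / M₀ + 1 := ⟨_, rfl⟩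
  rw [← hL] at hE₀3
  have hL1 : (L : ℝ) ≤ T / M₀ + 1 := by
    rw [hL]
    push_cast
    have := @Nat.cast_div_le ℝ _ _ _ T M₀
    linarith
  have hL2 : (T : ℝ) / M₀ ≤ L := by
    rw [div_le_iff₀ hM0]
    have : T ≤ L * M₀ := by
      rw [hL, mul_comm]
      exact (Nat.lt_mul_div_succ T hM).le
    exact_mod_cast this
  have hρL : (4 / 9 + ε) * L ≤ (((range L).filter (fun t => bad (E₀ + M₀ * t))).card : ℝ) := by
    refine le_trans ?_ hE₀3.le
    have h3 : (4 / 9 + ε) * (L : ℝ) ≤ (4 / 9 + ε) * (T / M₀ + 1) :=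
      mul_le_mul_of_nonneg_left hL1 (by positivity)
    refine h3.trans ?_
    have h4 : 1 ≤ ε * (T / M₀) := by
      rw [div_le_iff₀ hε] at hTε
      rw [mul_div_assoc', le_div_iff₀ hM0]
      linarith
    have h5 : (4 / 9 + 2 * ε) * T / M₀ = (4 / 9 + ε) * (T / M₀) + ε * (T / M₀) := by ring
    rw [h5]
    linarith
  obtain ⟨q, x₀, H, ρ', hq, hqQ, hHL, hin, hρ, hH, hH2⟩ :=
    hinc L (fun t => bad (E₀ + M₀ * t)) (4 / 9 + ε) hρL
  obtain ⟨T₁, hT₁⟩ : ∃ T₁, T₁ = H / 2 := ⟨_, rfl⟩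
  have h1τ : 0 < 1 / (2 * τ) := by positivity
  have hTb' : T₀ + 100 + 1 / (2 * τ) ≤ c' * (T / M₀) / 3 := by
    rw [div_le_iff₀ hc'] at hTb
    rw [le_div_iff₀ (by norm_num : (0 : ℝ) < 3), mul_div_assoc', le_div_iff₀ hM0]
    linarith
  have hHb : c' * (T / M₀) ≤ H := (mul_le_mul_of_nonneg_left hL2 hc'.le).trans hHL
  have hH300 : (3 : ℝ) * (T₀ + 100 + 1 / (2 * τ)) ≤ H := by linarith
  have hH2' : 2 ≤ H := by
    have : (2 : ℝ) ≤ H := by
      have : (0 : ℝ) ≤ T₀ := by positivity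
      linarith
    exact_mod_cast this
  have hH3 : (H : ℝ) ≤ 3 * T₁ := by
    have : H ≤ 3 * T₁ := by omega
    exact_mod_cast this
  have hT₁b : T₀ + 100 + 1 / (2 * τ) ≤ (T₁ : ℝ) := by linarith
  have hT₁0 : T₀ ≤ T₁ := by
    have : (T₀ : ℝ) ≤ T₁ := by linarith
    exact_mod_cast this
  have hT₁100 : 100 ≤ T₁ := by
    have : (0 : ℝ) ≤ T₀ := by positivity
    have : (100 : ℝ) ≤ T₁ := by linarith
    exact_mod_cast this
  have hT₁τ : 1 ≤ 2 * τ * T₁ := by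
    have : (0 : ℝ) ≤ T₀ := by positivity
    have h3 : 1 / (2 * τ) ≤ (T₁ : ℝ) := by linarith
    rw [div_le_iff₀ (by positivity)] at h3
    linarith
  have hqT : x₀ + q * T₁ < L := hin T₁ (by omega)
  have hMqT : M₀ * x₀ + (q * M₀) * T₁ ≤ T := by
    have h3 : x₀ + q * T₁ ≤ T / M₀ := by omega
    have h4 := (Nat.mul_le_mul_left M₀ h3).trans (Nat.mul_div_le T M₀)
    calc M₀ * x₀ + (q * M₀) * T₁ = M₀ * (x₀ + q * T₁) := by ring
      _ ≤ T := h4
  have hlamT : lam * c' / (8 * M₀) * Real.log N ≤ (T₁ : ℝ) := by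
    have hlN : Real.log N ≤ 2 * Real.log A := by
      have hA1' : (2 : ℝ) ≤ A := by exact_mod_cast hA2'
      have hN2 : 2 * (N : ℝ) ≤ 3 * A := by exact_mod_cast hN3
      have hN1 : (A : ℝ) ≤ N := by exact_mod_cast hAN
      have : Real.log N ≤ Real.log ((A : ℝ) ^ 2) := by
        apply Real.log_le_log (by linarith)
        nlinarith
      rw [Real.log_pow] at this
      push_cast at this
      exact this
    have h3 : lam * Real.log N ≤ 2 * T := by
      have : lam * Real.log N ≤ lam * (2 * Real.log A) := mul_le_mul_of_nonneg_left hlN hlam.le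
      linarith
    have h4 : lam * c' / (8 * M₀) * Real.log N = c' / (8 * M₀) * (lam * Real.log N) := by ring
    rw [h4]
    have h5 : c' / (8 * M₀) * (lam * Real.log N) ≤ c' / (8 * M₀) * (2 * T) :=
      mul_le_mul_of_nonneg_left h3 (by positivity)
    have h6 : c' / (8 * M₀) * (2 * T) = c' * (T / M₀) / 4 := by
      field_simp
      ring
    have h7 : 0 ≤ c' * ((T : ℝ) / M₀) := by positivity
    linarith
  have hclq' := hA1 q T₁ (E₀ + M₀ * x₀) hq hqQ hlamT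
    (hE₀e.add (hMe.mul_right x₀)) (by omega) (by omega)
  obtain ⟨w, hw⟩ : ∃ w, w = T₁ / 50 := ⟨_, rfl⟩
  have hstep := step (A := A) (Z := Z) (w := w) bad hbad hε hε1 (min_le_left _ _)
    (min_le_right _ _) hτ hcc hT₁ hT₁100 hT₁τ hρ hH hH2 hclq' (hcore T₁ hT₁0)
    ((Icc 1 w).filter (fun t => (pairs (q * M₀ * t) (2 * A) : ℝ) <
      κ' / 4 * (A / (Real.log A) ^ 2))) hw (Finset.filter_subset _ _)
    (fun t ht => (Finset.mem_filter.1 ht).2.trans_le (FIN.cmp hκ' hA2' hN3 le_rfl hAN))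
    (by omega) (by omega)
  have hqM : 1 ≤ q * M₀ := Nat.mul_pos hq hM
  refine ⟨q * M₀, q * M₀ * w, hqM, Nat.mul_le_mul_right M₀ hqQ, ?_, ?_, ?_⟩
  · have h3 : (T₁ : ℝ) ≤ 100 * w := by
      have : T₁ ≤ 100 * w := by omega
      exact_mod_cast this
    have h4 : c' / 300 * T = M₀ * (c' * (T / M₀) / 300) := by
      field_simp
    rw [h4]
    have h5 : (M₀ : ℝ) * w ≤ ((q * M₀ * w : ℕ) : ℝ) := by
      have : M₀ * w ≤ q * M₀ * w := Nat.mul_le_mul_right w (Nat.le_mul_of_pos_left M₀ hq)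
      exact_mod_cast this
    refine le_trans ?_ h5
    refine mul_le_mul_of_nonneg_left ?_ hM0.le
    linarith
  · have h3 : (q * M₀) * w ≤ (q * M₀) * T₁ := Nat.mul_le_mul_left _ (by omega)
    omega
  · rw [mult_card hqM]
    refine hstep.trans (le_of_eq ?_)
    have h3 : ((q * M₀ : ℕ) : ℝ) ≠ 0 := by
      have : (q * M₀ : ℕ) ≠ 0 := by omega
      exact_mod_cast this
    rw [Nat.cast_mul (q * M₀) w, mul_div_cancel_left₀ _ h3]

end FIN2

open Classical in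
theorem t_FIN2 : S_CLQ3 → S_INC → S_CORE2 → S_FIN2 := by
  intro hCLQ hINC hCORE ε hε
  obtain ⟨Q, c, hc, h⟩ := FIN2.main (min ε (1 / 100)) (lt_min hε (by norm_num))
    (min_le_right _ _) hCLQ hINC hCORE
  refine ⟨Q, c, hc, fun lam hlam => ?_⟩
  obtain ⟨κ, hκ, hev⟩ := h lam hlam
  refine ⟨κ, hκ, ?_⟩
  filter_upwards [hev] with A hA T hT1 hT2
  rcases hA T hT1 hT2 with h1 | ⟨q, T', h1, h2, h3, h4, h5⟩
  · left
    refine h1.trans ?_
    refine mul_le_mul_of_nonneg_right ?_ (by positivity)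
    have := min_le_left ε (1 / 100)
    linarith
  · right
    refine ⟨q, T', h1, h2, h3, h4, h5.trans ?_⟩
    refine mul_le_mul_of_nonneg_right (min_le_left _ _) (by positivity)

end Pool.Agent.N679.RG
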