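import Pool.Agent.N679.RG.Stm

/-!
# Project RG (helper679), part FOU (helper866): Fourier analysis on `ℤ / 4 T`
-/

set_option autoImplicit false

namespace Pool.Agent.N679.RG

open Finset Filter Topology

namespace FOU

open ComplexConjugate

section four

variable {Q : ℕ} [NeZero Q]

/-- the character `x ↦ e(k x / Q)` -/
noncomputable def ps (k y : ZMod Q) : ℂ := ZMod.stdAddChar (k * y)

lemma ps_add (k x y : ZMod Q) : ps k (x + y) = ps k x * ps k y := by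
  unfold ps
  rw [mul_add, AddChar.map_add_eq_mul]

lemma ps_neg (k x : ZMod Q) : ps k (-x) = conj (ps k x) := by
  unfold ps
  rw [mul_neg, AddChar.map_neg_eq_conj]

lemma ps_norm (k x : ZMod Q) : ‖ps k x‖ = 1 := by
  unfold ps
  exact AddChar.norm_apply _ _

lemma ps_sum (y : ZMod Q) : ∑ k : ZMod Q, ps k y = if y = 0 then (Q : ℂ) else 0 := by
  unfold ps
  rw [AddChar.sum_mulShift y (ZMod.isPrimitive_stdAddChar Q)]
  split_ifs
  · rw [ZMod.card]
  · norm_num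

/-- the exponential sum of a finite set -/
noncomputable def ft (S : Finset ℤ) (k : ZMod Q) : ℂ := ∑ x ∈ S, ps k (x : ZMod Q)

lemma parseval (S : Finset ℤ) (hS : ∀ x ∈ S, ∀ y ∈ S, (x : ZMod Q) = y → x = y) :
    ∑ k : ZMod Q, ‖ft S k‖ ^ 2 = Q * S.card := by
  have h1 : ∀ k : ZMod Q, ((‖ft S k‖ ^ 2 : ℝ) : ℂ) =
      ∑ x ∈ S, ∑ y ∈ S, ps k ((x : ZMod Q) + -(y : ZMod Q)) := by
    intro k
    have h2 : ((‖ft S k‖ ^ 2 : ℝ) : ℂ) = ft S k * conj (ft S k) := by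
      rw [Complex.mul_conj, Complex.normSq_eq_norm_sq]
    rw [h2]
    unfold ft
    rw [map_sum, Finset.sum_mul_sum]
    refine Finset.sum_congr rfl fun x _ => Finset.sum_congr rfl fun y _ => ?_
    rw [ps_add, ps_neg]
  have h3 : ((∑ k : ZMod Q, ‖ft S k‖ ^ 2 : ℝ) : ℂ) = ((Q * S.card : ℝ) : ℂ) := by
    rw [Complex.ofReal_sum, Finset.sum_congr rfl fun k _ => h1 k, Finset.sum_comm]
    have h4 : ∀ x ∈ S, ∑ k : ZMod Q, ∑ y ∈ S, ps k ((x : ZMod Q) + -(y : ZMod Q)) = Q := by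
      intro x hx
      rw [Finset.sum_comm, Finset.sum_congr rfl fun y _ => ps_sum _, Finset.sum_eq_single x]
      · rw [if_pos (by ring)]
      · intro y hy hyx
        rw [if_neg]
        intro h5
        apply hyx
        refine (hS x hx y hy ?_).symm
        linear_combination h5
      · intro h5
        exact absurd hx h5
    rw [Finset.sum_congr rfl h4, Finset.sum_const, nsmul_eq_mul]
    push_cast
    ring
  exact_mod_cast h3

/-- counting solutions -/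
lemma count (A C U : Finset ℤ) (b b' : ℤ)
    (h : ∀ x ∈ A, ∀ z ∈ C, ∀ u ∈ U, ((x + z - b - b' : ℤ) : ZMod Q) = (u : ZMod Q) →
      x + z - b - b' = u) :
    ∑ k : ZMod Q, ft A k * ft C k * conj (ft U k) * ps k (-(b : ZMod Q)) * ps k (-(b' : ZMod Q)) =
      Q * (((A ×ˢ C).filter (fun p => p.1 + p.2 - b - b' ∈ U)).card : ℂ) := by
  have h1 : ∀ k : ZMod Q, ft A k * ft C k * conj (ft U k) * ps k (-(b : ZMod Q)) *
      ps k (-(b' : ZMod Q)) = ∑ p ∈ A ×ˢ C, ∑ u ∈ U,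
        ps k (((p.1 + p.2 - b - b' : ℤ) : ZMod Q) + -(u : ZMod Q)) := by
    intro k
    unfold ft
    rw [map_sum, Finset.sum_mul_sum, ← Finset.sum_product', Finset.sum_mul_sum, Finset.sum_mul,
      Finset.sum_mul]
    refine Finset.sum_congr rfl fun p _ => ?_
    rw [Finset.sum_mul, Finset.sum_mul]
    refine Finset.sum_congr rfl fun u _ => ?_
    rw [← ps_neg, ← ps_add, ← ps_add, ← ps_add, ← ps_add]
    congr 1
    push_cast
    ring
  rw [Finset.sum_congr rfl fun k _ => h1 k, Finset.sum_comm]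
  have h2 : ∀ p ∈ A ×ˢ C, ∑ k : ZMod Q, ∑ u ∈ U,
      ps k (((p.1 + p.2 - b - b' : ℤ) : ZMod Q) + -(u : ZMod Q)) =
        if p.1 + p.2 - b - b' ∈ U then (Q : ℂ) else 0 := by
    intro p hp
    obtain ⟨hp1, hp2⟩ := Finset.mem_product.1 hp
    rw [Finset.sum_comm, Finset.sum_congr rfl fun u _ => ps_sum _]
    have h3 : ∀ u ∈ U, (((p.1 + p.2 - b - b' : ℤ) : ZMod Q) + -(u : ZMod Q) = 0 ↔
        p.1 + p.2 - b - b' = u) := by
      intro u hu
      constructor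
      · intro h4
        exact h _ hp1 _ hp2 u hu (by linear_combination h4)
      · intro h4
        rw [h4]
        ring
    by_cases h5 : p.1 + p.2 - b - b' ∈ U
    · rw [if_pos h5, Finset.sum_eq_single (p.1 + p.2 - b - b')]
      · rw [if_pos (by ring)]
      · intro u hu hne
        rw [if_neg]
        intro h6
        exact hne ((h3 u hu).1 h6).symm
      · intro h6
        exact absurd h5 h6
    · rw [if_neg h5]
      refine Finset.sum_eq_zero fun u hu => ?_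
      rw [if_neg]
      intro h6
      apply h5
      rw [(h3 u hu).1 h6]
      exact hu
  rw [Finset.sum_congr rfl h2, ← Finset.sum_filter, Finset.sum_const, nsmul_eq_mul, mul_comm]

/-- the distance of the character from `1` -/
lemma ps_sub_one (k : ZMod Q) (b : ℤ) :
    ‖ps k (-(b : ZMod Q)) - 1‖ ≤ 2 * Real.pi * nrm (b * ((k.val : ℝ) / Q)) := by
  have hQ : (Q : ℝ) ≠ 0 := Nat.cast_ne_zero.2 (NeZero.ne Q)
  have hQc : (Q : ℂ) ≠ 0 := Nat.cast_ne_zero.2 (NeZero.ne Q)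
  have h0 : ‖ps k (-(b : ZMod Q)) - 1‖ = ‖ps k (b : ZMod Q) - 1‖ := by
    rw [ps_neg]
    have h1 : conj (ps k (b : ZMod Q)) - 1 = conj (ps k (b : ZMod Q) - 1) := by
      rw [map_sub, map_one]
    rw [h1, Complex.norm_conj]
  rw [h0]
  set y : ℝ := b * ((k.val : ℝ) / Q) with hy
  have h1 : ps k (b : ZMod Q) = Complex.exp (Complex.I * ((2 * Real.pi * (y - round y) : ℝ) : ℂ)) := by
    unfold ps
    have h2 : (k : ZMod Q) * (b : ZMod Q) = (((k.val : ℤ) * b : ℤ) : ZMod Q) := by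
      push_cast
      rw [ZMod.natCast_zmod_val]
    rw [h2, ZMod.stdAddChar_coe]
    have h3 : Complex.I * ((2 * Real.pi * (y - round y) : ℝ) : ℂ) =
        2 * Real.pi * Complex.I * ((((k.val : ℤ) * b : ℤ)) : ℂ) / Q +
          ((-round y : ℤ) : ℂ) * (2 * Real.pi * Complex.I) := by
      rw [hy]
      push_cast
      field_simp
      ring
    rw [h3, Complex.exp_add, Complex.exp_int_mul_two_pi_mul_I, mul_one]
  rw [h1]
  refine Real.norm_exp_I_mul_ofReal_sub_one_le.trans ?_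
  rw [norm_mul, Real.norm_eq_abs, Real.norm_eq_abs, abs_of_pos Real.two_pi_pos]
  exact le_refl _

end four

/-- the injection of `[0, 2 T)` in `ℤ / 4 T` and the sums -/
lemma inj {T : ℕ} {x y : ℤ} (h1 : -(T : ℤ) ≤ x) (h2 : x < 3 * T) (h3 : 0 ≤ y) (h4 : y < 2 * T)
    (h : (x : ZMod (4 * T)) = y) : x = y := by
  rw [ZMod.intCast_eq_intCast_iff_dvd_sub] at h
  obtain ⟨c, hc⟩ := h
  push_cast at hc
  have h5 : c = 0 := by
    by_contra hne
    rcases lt_or_gt_of_ne hne with h6 | h6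
    · nlinarith
    · nlinarith
  rw [h5] at hc
  linarith

end FOU

theorem t_FOU : S_FOU := by
  intro τ hτ
  refine ⟨⌈32 / τ ^ 2⌉₊, τ / 32, by positivity, ?_⟩
  intro T hT U hU
  classical
  have hT0 : (0 : ℝ) < T := by exact_mod_cast hT
  have : NeZero (4 * T) := ⟨by omega⟩
  have hQ0 : (0 : ℝ) < ((4 * T : ℕ) : ℝ) := by exact_mod_cast (by omega : 0 < 4 * T)
  -- the large spectrum
  let Sp : Finset (ZMod (4 * T)) := univ.filter fun k => τ / 2 * T ≤ ‖FOU.ft U k‖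
  have hUinj : ∀ x ∈ U, ∀ y ∈ U, (x : ZMod (4 * T)) = y → x = y := by
    intro x hx y hy h
    have h1 := Finset.mem_Ico.1 (hU hx)
    have h2 := Finset.mem_Ico.1 (hU hy)
    exact FOU.inj (by omega) (by omega) h2.1 h2.2 h
  have hUcard : (U.card : ℝ) ≤ 2 * T := by
    have h1 := Finset.card_le_card hU
    rw [Int.card_Ico] at h1
    have h2 : U.card ≤ 2 * T := by omega
    exact_mod_cast h2
  have hSp : Sp.card ≤ ⌈32 / τ ^ 2⌉₊ := by
    have h1 : (Sp.card : ℝ) * (τ / 2 * T) ^ 2 ≤ 8 * T ^ 2 := by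
      calc (Sp.card : ℝ) * (τ / 2 * T) ^ 2 = ∑ k ∈ Sp, (τ / 2 * T) ^ 2 := by
            rw [Finset.sum_const, nsmul_eq_mul]
        _ ≤ ∑ k ∈ Sp, ‖FOU.ft U k‖ ^ 2 := by
            refine Finset.sum_le_sum fun k hk => ?_
            have h2 := (Finset.mem_filter.1 hk).2
            exact pow_le_pow_left₀ (by positivity) h2 2
        _ ≤ ∑ k : ZMod (4 * T), ‖FOU.ft U k‖ ^ 2 :=
            Finset.sum_le_sum_of_subset_of_nonneg (Finset.filter_subset _ _) fun _ _ _ => by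
              positivity
        _ = (4 * T : ℕ) * U.card := FOU.parseval U hUinj
        _ ≤ (4 * T : ℕ) * (2 * T) := by
            exact mul_le_mul_of_nonneg_left hUcard hQ0.le
        _ = 8 * T ^ 2 := by push_cast; ring
    have h2 : (Sp.card : ℝ) ≤ 32 / τ ^ 2 := by
      rw [le_div_iff₀ (by positivity)]
      have h3 : (0 : ℝ) < (T : ℝ) ^ 2 := by positivity
      have h4 : (Sp.card : ℝ) * τ ^ 2 * (T : ℝ) ^ 2 ≤ 32 * (T : ℝ) ^ 2 := by nlinarith
      exact le_of_mul_le_mul_right h4 h3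
    exact_mod_cast h2.trans (Nat.le_ceil _)
  let e := Sp.equivFin
  refine ⟨fun i => if h : (i : ℕ) < Sp.card then
    ((((e.symm ⟨i, h⟩ : Sp) : ZMod (4 * T)).val : ℝ) / ((4 * T : ℕ) : ℝ)) else 0, ?_⟩
  intro μ hμ hsupp A C hA hC
  obtain ⟨hμ0, hμT, hμ1⟩ := hμ
  -- the transform of `μ`
  let M : ZMod (4 * T) → ℂ := fun k => ∑ b ∈ Icc (-(T : ℤ)) T, (μ b : ℂ) * FOU.ps k (-(b : ZMod (4 * T)))
  have hM1 : ∀ k, ‖M k‖ ≤ 1 := by
    intro k
    refine (norm_sum_le _ _).trans ?_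
    rw [← hμ1]
    refine Finset.sum_le_sum fun b _ => ?_
    rw [norm_mul, FOU.ps_norm, mul_one, Complex.norm_real, Real.norm_eq_abs, abs_of_nonneg (hμ0 b)]
  have hMs : ∀ k ∈ Sp, ‖M k - 1‖ ≤ 2 * Real.pi * (τ / 32) := by
    intro k hk
    have h1 : M k - 1 = ∑ b ∈ Icc (-(T : ℤ)) T,
        (μ b : ℂ) * (FOU.ps k (-(b : ZMod (4 * T))) - 1) := by
      have h2 : (1 : ℂ) = ∑ b ∈ Icc (-(T : ℤ)) T, (μ b : ℂ) := by
        rw [← Complex.ofReal_sum, hμ1, Complex.ofReal_one]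
      calc M k - 1 = M k - ∑ b ∈ Icc (-(T : ℤ)) T, (μ b : ℂ) := by rw [← h2]
        _ = _ := by
          rw [← Finset.sum_sub_distrib]
          exact Finset.sum_congr rfl fun b _ => by ring
    rw [h1]
    refine (norm_sum_le _ _).trans ?_
    have h2 : ∀ b ∈ Icc (-(T : ℤ)) T, ‖(μ b : ℂ) * (FOU.ps k (-(b : ZMod (4 * T))) - 1)‖ ≤
        μ b * (2 * Real.pi * (τ / 32)) := by
      intro b _
      rw [norm_mul, Complex.norm_real, Real.norm_eq_abs, abs_of_nonneg (hμ0 b)]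
      by_cases hb : μ b = 0
      · rw [hb, zero_mul, zero_mul]
      · refine mul_le_mul_of_nonneg_left ?_ (hμ0 b)
        refine (FOU.ps_sub_one k b).trans ?_
        refine mul_le_mul_of_nonneg_left ?_ Real.two_pi_pos.le
        have h3 := (hsupp b hb).2 ⟨(e ⟨k, hk⟩ : ℕ), lt_of_lt_of_le (e ⟨k, hk⟩).2 hSp⟩
        have h4 : ((e ⟨k, hk⟩ : Fin Sp.card) : ℕ) < Sp.card := (e ⟨k, hk⟩).2
        simp only [h4, dif_pos, Fin.eta, Equiv.symm_apply_apply] at h3
        exact h3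
    refine (Finset.sum_le_sum h2).trans ?_
    rw [← Finset.sum_mul, hμ1, one_mul]
  have hbd : ∀ k, ‖FOU.ft U k‖ * ‖M k ^ 2 - 1‖ ≤ τ * T := by
    intro k
    have h1 : ‖M k ^ 2 - 1‖ ≤ 2 * ‖M k - 1‖ := by
      have h2 : M k ^ 2 - 1 = (M k + 1) * (M k - 1) := by ring
      rw [h2, norm_mul]
      refine mul_le_mul_of_nonneg_right ?_ (norm_nonneg _)
      refine (norm_add_le _ _).trans ?_
      rw [norm_one]
      linarith [hM1 k]
    by_cases hk : k ∈ Sp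
    · have h3 : ‖FOU.ft U k‖ ≤ 2 * T := by
        refine le_trans ?_ hUcard
        refine (norm_sum_le _ _).trans ?_
        have h7 : ∀ x ∈ U, ‖FOU.ps k (x : ZMod (4 * T))‖ = 1 := fun x _ => FOU.ps_norm k _
        rw [Finset.sum_congr rfl h7, Finset.sum_const, nsmul_eq_mul, mul_one]
      have h4 := hMs k hk
      have h5 : ‖M k ^ 2 - 1‖ ≤ τ / 2 := by
        refine h1.trans ?_
        have h6 := Real.pi_le_four
        nlinarith
      calc ‖FOU.ft U k‖ * ‖M k ^ 2 - 1‖ ≤ 2 * T * (τ / 2) :=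
            mul_le_mul h3 h5 (norm_nonneg _) (by positivity)
        _ = τ * T := by ring
    · have h3 : ‖FOU.ft U k‖ ≤ τ / 2 * T := by
        by_contra h4
        exact hk (Finset.mem_filter.2 ⟨Finset.mem_univ _, (not_le.1 h4).le⟩)
      have h5 : ‖M k ^ 2 - 1‖ ≤ 2 := by
        refine (norm_sub_le _ _).trans ?_
        rw [norm_pow, norm_one]
        have h6 : ‖M k‖ ^ 2 ≤ 1 := pow_le_one₀ (norm_nonneg _) (hM1 k)
        linarith
      calc ‖FOU.ft U k‖ * ‖M k ^ 2 - 1‖ ≤ τ / 2 * T * 2 :=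
            mul_le_mul h3 h5 (norm_nonneg _) (by positivity)
        _ = τ * T := by ring
  -- the two sums
  have hcnt : ∀ b b' : ℤ, 2 * |b| ≤ (T : ℤ) → 2 * |b'| ≤ (T : ℤ) →
      ∑ k : ZMod (4 * T), FOU.ft A k * FOU.ft C k * (starRingEnd ℂ) (FOU.ft U k) *
        FOU.ps k (-(b : ZMod (4 * T))) * FOU.ps k (-(b' : ZMod (4 * T))) =
      ((4 * T : ℕ) : ℂ) * (((A ×ˢ C).filter (fun p => p.1 + p.2 - b - b' ∈ U)).card : ℂ) := by
    intro b b' hb hb'
    refine FOU.count A C U b b' fun x hx z hz u hu h => ?_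
    have h1 := Finset.mem_Ico.1 (hA hx)
    have h2 := Finset.mem_Ico.1 (hC hz)
    have h3 := Finset.mem_Ico.1 (hU hu)
    have h4 := abs_le.1 (show |b| ≤ (T : ℤ) by linarith [abs_nonneg b])
    have h5 := le_abs_self b
    have h6 := neg_abs_le b
    have h7 := le_abs_self b'
    have h8 := neg_abs_le b'
    exact FOU.inj (by linarith) (by linarith) h3.1 h3.2 h
  have hsum : ((4 * T : ℕ) : ℂ) * ((∑ b ∈ Icc (-(T : ℤ)) T, ∑ b' ∈ Icc (-(T : ℤ)) T, μ b * μ b' *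
        (((A ×ˢ C).filter (fun p => p.1 + p.2 - b - b' ∈ U)).card : ℝ) : ℝ) : ℂ) =
      ∑ k : ZMod (4 * T), FOU.ft A k * FOU.ft C k * (starRingEnd ℂ) (FOU.ft U k) * M k ^ 2 := by
    have h1 : ∀ k : ZMod (4 * T), FOU.ft A k * FOU.ft C k * (starRingEnd ℂ) (FOU.ft U k) *
        M k ^ 2 = ∑ b ∈ Icc (-(T : ℤ)) T, ∑ b' ∈ Icc (-(T : ℤ)) T, (μ b : ℂ) * μ b' *
          (FOU.ft A k * FOU.ft C k * (starRingEnd ℂ) (FOU.ft U k) *
            FOU.ps k (-(b : ZMod (4 * T))) * FOU.ps k (-(b' : ZMod (4 * T)))) := by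
      intro k
      change FOU.ft A k * FOU.ft C k * (starRingEnd ℂ) (FOU.ft U k) *
        (∑ b ∈ Icc (-(T : ℤ)) T, (μ b : ℂ) * FOU.ps k (-(b : ZMod (4 * T)))) ^ 2 = _
      rw [pow_two, Finset.sum_mul_sum, Finset.mul_sum]
      refine Finset.sum_congr rfl fun b _ => ?_
      rw [Finset.mul_sum]
      refine Finset.sum_congr rfl fun b' _ => ?_
      ring
    rw [Finset.sum_congr rfl fun k _ => h1 k, Complex.ofReal_sum, Finset.mul_sum]
    conv_rhs => rw [Finset.sum_comm]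
    refine Finset.sum_congr rfl fun b _ => ?_
    conv_rhs => rw [Finset.sum_comm]
    rw [Complex.ofReal_sum, Finset.mul_sum]
    refine Finset.sum_congr rfl fun b' _ => ?_
    rw [← Finset.mul_sum]
    by_cases hb : μ b = 0
    · rw [hb]
      push_cast
      ring
    by_cases hb' : μ b' = 0
    · rw [hb']
      push_cast
      ring
    rw [hcnt b b' (hsupp b hb).1 (hsupp b' hb').1]
    push_cast
    ring
  have hmain : ((4 * T : ℕ) : ℂ) *
      (((((A ×ˢ C).filter (fun p => p.1 + p.2 ∈ U)).card : ℝ) : ℝ) : ℂ) =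
      ∑ k : ZMod (4 * T), FOU.ft A k * FOU.ft C k * (starRingEnd ℂ) (FOU.ft U k) := by
    have h1 := hcnt 0 0 (by simp) (by simp)
    simp only [sub_zero, Int.cast_zero, neg_zero] at h1
    have h2 : ∀ k : ZMod (4 * T), FOU.ps k 0 = 1 := by
      intro k
      unfold FOU.ps
      rw [mul_zero, AddChar.map_zero_eq_one]
    simp only [h2, mul_one] at h1
    rw [h1]
    push_cast
    ring
  -- the bound
  set L1 : ℝ := ∑ b ∈ Icc (-(T : ℤ)) T, ∑ b' ∈ Icc (-(T : ℤ)) T, μ b * μ b' *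
        (((A ×ˢ C).filter (fun p => p.1 + p.2 - b - b' ∈ U)).card : ℝ) with hL1
  set L0 : ℝ := (((A ×ˢ C).filter (fun p => p.1 + p.2 ∈ U)).card : ℝ) with hL0
  have hinjA : ∀ S : Finset ℤ, S ⊆ Ico 0 (T : ℤ) →
      ∑ k : ZMod (4 * T), ‖FOU.ft S k‖ ^ 2 ≤ ((4 * T : ℕ) : ℝ) * T := by
    intro S hS
    rw [FOU.parseval S fun x hx y hy h => by
      have h1 := Finset.mem_Ico.1 (hS hx)
      have h2 := Finset.mem_Ico.1 (hS hy)
      exact FOU.inj (by omega) (by omega) h2.1 (by omega) h]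
    refine mul_le_mul_of_nonneg_left ?_ hQ0.le
    have h1 := Finset.card_le_card hS
    rw [Int.card_Ico] at h1
    have h2 : S.card ≤ T := by omega
    exact_mod_cast h2
  have hdiff : ((4 * T : ℕ) : ℝ) * |L1 - L0| ≤ ((4 * T : ℕ) : ℝ) * (τ * T ^ 2) := by
    have h1 : ((4 * T : ℕ) : ℂ) * ((L1 - L0 : ℝ) : ℂ) = ∑ k : ZMod (4 * T),
        FOU.ft A k * FOU.ft C k * (starRingEnd ℂ) (FOU.ft U k) * (M k ^ 2 - 1) := by
      rw [Complex.ofReal_sub, mul_sub, hsum, hmain, ← Finset.sum_sub_distrib]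
      exact Finset.sum_congr rfl fun k _ => by ring
    have h2 : ‖((4 * T : ℕ) : ℂ) * ((L1 - L0 : ℝ) : ℂ)‖ = ((4 * T : ℕ) : ℝ) * |L1 - L0| := by
      rw [norm_mul, Complex.norm_natCast, Complex.norm_real, Real.norm_eq_abs]
    rw [← h2, h1]
    refine (norm_sum_le _ _).trans ?_
    have h3 : ∀ k ∈ (univ : Finset (ZMod (4 * T))),
        ‖FOU.ft A k * FOU.ft C k * (starRingEnd ℂ) (FOU.ft U k) * (M k ^ 2 - 1)‖ ≤
          (‖FOU.ft A k‖ ^ 2 + ‖FOU.ft C k‖ ^ 2) / 2 * (τ * T) := by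
      intro k _
      rw [norm_mul, norm_mul, norm_mul, Complex.norm_conj]
      have h4 := hbd k
      have h5 : ‖FOU.ft A k‖ * ‖FOU.ft C k‖ ≤ (‖FOU.ft A k‖ ^ 2 + ‖FOU.ft C k‖ ^ 2) / 2 := by
        nlinarith [sq_nonneg (‖FOU.ft A k‖ - ‖FOU.ft C k‖)]
      calc ‖FOU.ft A k‖ * ‖FOU.ft C k‖ * ‖FOU.ft U k‖ * ‖M k ^ 2 - 1‖
          = (‖FOU.ft A k‖ * ‖FOU.ft C k‖) * (‖FOU.ft U k‖ * ‖M k ^ 2 - 1‖) := by ring
        _ ≤ (‖FOU.ft A k‖ ^ 2 + ‖FOU.ft C k‖ ^ 2) / 2 * (τ * T) :=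
            mul_le_mul h5 h4 (by positivity) (by positivity)
    refine (Finset.sum_le_sum h3).trans ?_
    rw [← Finset.sum_mul, ← Finset.sum_div, Finset.sum_add_distrib]
    have h4 := hinjA A hA
    have h5 := hinjA C hC
    calc (∑ k : ZMod (4 * T), ‖FOU.ft A k‖ ^ 2 + ∑ k : ZMod (4 * T), ‖FOU.ft C k‖ ^ 2) / 2 *
          (τ * T) ≤ (((4 * T : ℕ) : ℝ) * T) * (τ * T) := by
          refine mul_le_mul_of_nonneg_right ?_ (by positivity)
          linarith
      _ = ((4 * T : ℕ) : ℝ) * (τ * T ^ 2) := by ring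
  have hfin := le_of_mul_le_mul_left hdiff hQ0
  linarith [(abs_le.1 hfin).2]

end Pool.Agent.N679.RG
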