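import Pool.Agent.N679.RG.Stm2

/-!
# Project RH (helper679), part INC: density increment

By helper286.
-/

set_option autoImplicit false

namespace Pool.Agent.N679.RG

open Finset Filter Topology

open Classical in
/-- the conclusion of the density increment -/
def INC.Con (η c : ℝ) (Z : ℕ) (Q : ℕ) (c' : ℝ) (L : ℕ) (B : ℕ → Prop) (ρ : ℝ) : Prop :=
    ∃ (q x₀ H : ℕ) (ρ' : ℝ), 1 ≤ q ∧ q ≤ Q ∧ c' * L ≤ (H : ℝ) ∧ (∀ t < H, x₀ + q * t < L) ∧ ρ ≤ ρ' ∧
      ρ' * H ≤ (((range H).filter (fun t => B (x₀ + q * t))).card : ℝ) ∧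
      ∀ q' x₁ H' : ℕ, 1 ≤ q' → q' ≤ Z → c * H ≤ (H' : ℝ) → (∀ t < H', x₁ + q' * t < H) →
        (((range H').filter (fun t => B (x₀ + q * (x₁ + q' * t)))).card : ℝ) ≤ (ρ' + η) * H'

theorem INC.triv (η c : ℝ) (Z : ℕ) (Q : ℕ) (c' : ℝ) (B : ℕ → Prop) (ρ : ℝ) (hQ : 1 ≤ Q) :
    INC.Con η c Z Q c' 0 B ρ := by
  classical
  refine ⟨1, 0, 0, ρ, le_refl _, hQ, by simp, fun t ht => absurd ht (Nat.not_lt_zero t), le_refl _,
    by simp, ?_⟩
  intro q' x₁ H' _ _ _ h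
  have h0 : H' = 0 := by
    by_contra hne
    exact absurd (h 0 (Nat.pos_of_ne_zero hne)) (Nat.not_lt_zero _)
  subst h0
  simp

open Classical in
theorem INC.ind (η c : ℝ) (Z : ℕ) (hη : 0 < η) (hc : 0 < c) (hc1 : c ≤ 1) (hZ : 1 ≤ Z) (n : ℕ) :
    ∀ (L : ℕ) (B : ℕ → Prop) (ρ : ℝ), ρ * L ≤ (((range L).filter B).card : ℝ) → 1 - n * η < ρ →
      INC.Con η c Z (Z ^ n) (c ^ n) L B ρ := by
  induction n with
  | zero =>
    intro L B ρ h hρ
    have h1 : (((range L).filter B).card : ℝ) ≤ L := by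
      have h2 := Finset.card_filter_le (range L) B
      rw [Finset.card_range] at h2
      exact_mod_cast h2
    have h3 : L = 0 := by
      by_contra hne
      have h4 : (0 : ℝ) < L := by exact_mod_cast Nat.pos_of_ne_zero hne
      have h5 : ρ * L ≤ 1 * L := by linarith
      have h6 : ρ ≤ 1 := le_of_mul_le_mul_right h5 h4
      simp only [Nat.cast_zero, zero_mul, sub_zero] at hρ
      linarith
    subst h3
    exact INC.triv η c Z _ _ B ρ (by simp)
  | succ n ih =>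
    intro L B ρ h hρ
    by_cases hP : ∀ q' x₁ H' : ℕ, 1 ≤ q' → q' ≤ Z → c * L ≤ (H' : ℝ) →
        (∀ t < H', x₁ + q' * t < L) →
        (((range H').filter (fun t => B (x₁ + q' * t))).card : ℝ) ≤ (ρ + η) * H'
    · refine ⟨1, 0, L, ρ, le_refl _, Nat.one_le_pow _ _ hZ, ?_, fun t ht => by simpa using ht,
        le_refl _, ?_, ?_⟩
      · have h1 : c ^ (n + 1) ≤ 1 := pow_le_one₀ hc.le hc1
        have h2 : (0 : ℝ) ≤ L := Nat.cast_nonneg _
        nlinarith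
      · simpa using h
      · intro q' x₁ H' h1 h2 h3 h4
        have := hP q' x₁ H' h1 h2 h3 h4
        simpa using this
    · push Not at hP
      obtain ⟨q', x₁, H', h1, h2, h3, h4, h5⟩ := hP
      obtain ⟨q, x₀, H, ρ', g1, g2, g3, g4, g5, g6, g7⟩ := ih H' (fun t => B (x₁ + q' * t)) (ρ + η)
        h5.le (by push_cast at hρ; linarith)
      have e : ∀ t : ℕ, x₁ + q' * x₀ + q' * q * t = x₁ + q' * (x₀ + q * t) := fun t => by ring
      refine ⟨q' * q, x₁ + q' * x₀, H, ρ', Nat.mul_pos h1 g1, ?_, ?_, ?_, by linarith, ?_, ?_⟩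
      · rw [pow_succ, mul_comm]
        exact Nat.mul_le_mul g2 h2
      · calc c ^ (n + 1) * (L : ℝ) = c ^ n * (c * L) := by ring
          _ ≤ c ^ n * H' := mul_le_mul_of_nonneg_left h3 (pow_pos hc n).le
          _ ≤ H := g3
      · intro t ht
        rw [e]
        exact h4 _ (g4 t ht)
      · simp only [e]
        exact g6
      · intro q₂ x₂ H₂ k1 k2 k3 k4
        simp only [e]
        exact g7 q₂ x₂ H₂ k1 k2 k3 k4

/-- **INC** density increment. -/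
theorem t_INC : S_INC := by
  classical
  intro η c Z hη hc hc1 hZ
  refine ⟨Z ^ (⌈1 / η⌉₊ + 1), c ^ (⌈1 / η⌉₊ + 1), pow_pos hc _, ?_⟩
  intro L B ρ h
  rcases Nat.eq_zero_or_pos L with h0 | h0
  · subst h0
    exact INC.triv η c Z _ _ B ρ (Nat.one_le_pow _ _ hZ)
  · have hL : (0 : ℝ) < L := by exact_mod_cast h0
    have h1 : ρ ≤ (((range L).filter B).card : ℝ) / L := by
      rw [le_div_iff₀ hL]
      exact h
    have h2 : (0 : ℝ) ≤ (((range L).filter B).card : ℝ) / L := by positivity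
    have h3 : (1 : ℝ) < (((⌈1 / η⌉₊ + 1 : ℕ) : ℕ) : ℝ) * η := by
      have h4 : 1 / η ≤ (⌈1 / η⌉₊ : ℝ) := Nat.le_ceil _
      have h5 : 1 ≤ (⌈1 / η⌉₊ : ℝ) * η := by
        rwa [div_le_iff₀ hη] at h4
      push_cast
      linarith
    obtain ⟨q, x₀, H, ρ', g1, g2, g3, g4, g5, g6, g7⟩ := INC.ind η c Z hη hc hc1 hZ
      (⌈1 / η⌉₊ + 1) L B ((((range L).filter B).card : ℝ) / L)
      (by rw [div_mul_cancel₀ _ hL.ne']) (by linarith)
    exact ⟨q, x₀, H, ρ', g1, g2, g3, g4, h1.trans g5, g6, g7⟩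

end Pool.Agent.N679.RG
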