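import Pool.Agent.N679.RG.Stm

/-! Project RG, part MOM2: moments of the number of rough values (helper588). -/

set_option autoImplicit false

namespace Pool.Agent.N679.RG

open Finset Filter Topology
open Pool.Agent.N646.RO (Rgh)

namespace MOM2

theorem rgh_mono {δ : ℝ} (hδ : 0 < δ) {N N' : ℕ} (h0 : 0 < N') (h : N' ≤ N) {m : ℤ}
    (hm : Rgh δ N m) : Rgh δ N' m := by
  intro p hp hl
  apply hm p hp
  refine hl.trans (mul_le_mul_of_nonneg_left ?_ hδ.le)
  exact Real.log_le_log (by exact_mod_cast h0) (by exact_mod_cast h)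

open Classical in
/-- the two kinds of forms -/
theorem card_split (δ : ℝ) (N E M n T : ℕ) :
    ((univ ×ˢ range T).filter (fun u : Bool × ℕ => Rgh δ N (fv E M n u))).card =
      ((range T).filter (fun t : ℕ => Rgh δ N (n + M * t))).card +
      ((range T).filter (fun t : ℕ => Rgh δ N ((E : ℤ) - n + M * t))).card := by
  have h1 : (univ ×ˢ range T).filter (fun u : Bool × ℕ => Rgh δ N (fv E M n u)) =
      ((range T).filter (fun t : ℕ => Rgh δ N (n + M * t))).image (fun t => (false, t)) ∪
      ((range T).filter (fun t : ℕ => Rgh δ N ((E : ℤ) - n + M * t))).image (fun t => (true, t)) := by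
    ext ⟨b, t⟩
    rw [mem_filter, mem_union, mem_image, mem_image, mem_product]
    constructor
    · rintro ⟨⟨-, h2⟩, h3⟩
      cases b with
      | false => exact Or.inl ⟨t, mem_filter.2 ⟨h2, by simpa [fv] using h3⟩, rfl⟩
      | true => exact Or.inr ⟨t, mem_filter.2 ⟨h2, by simpa [fv] using h3⟩, rfl⟩
    · rintro (⟨t', h2, h3⟩ | ⟨t', h2, h3⟩)
      · obtain ⟨rfl, rfl⟩ := Prod.mk.injEq _ _ _ _ ▸ h3
        rw [mem_filter] at h2
        exact ⟨⟨mem_univ _, h2.1⟩, by simpa [fv] using h2.2⟩
      · obtain ⟨rfl, rfl⟩ := Prod.mk.injEq _ _ _ _ ▸ h3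
        rw [mem_filter] at h2
        exact ⟨⟨mem_univ _, h2.1⟩, by simpa [fv] using h2.2⟩
  rw [h1, card_union_of_disjoint, card_image_of_injective, card_image_of_injective]
  · intro a b h
    exact (Prod.mk.inj h).2
  · intro a b h
    exact (Prod.mk.inj h).2
  · rw [disjoint_left]
    intro u hu hu'
    rw [mem_image] at hu hu'
    obtain ⟨t, -, rfl⟩ := hu
    obtain ⟨t', -, h2⟩ := hu'
    exact Bool.noConfusion (Prod.mk.inj h2).1

open Classical in
theorem main (hWB : Pool.Agent.N646.RO.S_WB) : S_MOM2 := by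
  intro δ lam M r hδ hlam hM
  obtain ⟨C, hC, hev⟩ := hWB δ lam M r hδ hlam hM
  have hhalf : Tendsto (fun N : ℕ => N / 2) atTop atTop := Nat.tendsto_div_const_atTop (by norm_num)
  refine ⟨2 ^ (r - 1) * (1 + 2 ^ r) * C, by positivity, ?_⟩
  filter_upwards [hev, hhalf.eventually hev, eventually_ge_atTop 100] with N h1 h2 hN
  intro T E hT hE hET
  set N' := N / 2 with hN'
  have hN'0 : 0 < N' := by omega
  have hN'N : N' ≤ N := Nat.div_le_self _ _
  have hNR : (100 : ℝ) ≤ N := by exact_mod_cast hN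
  have hlN : 0 < Real.log N := Real.log_pos (by linarith)
  have hl' : Real.log N' ≤ Real.log N :=
    Real.log_le_log (by exact_mod_cast hN'0) (by exact_mod_cast hN'N)
  have hl2 : Real.log N / 2 ≤ Real.log N' := by
    have h3 : (N : ℝ) ≤ (N' : ℝ) ^ 2 := by
      have h4 : N ≤ N' ^ 2 := by
        have : N ≤ 2 * N' + 1 := by omega
        have h6 : 50 ≤ N' := by omega
        nlinarith
      exact_mod_cast h4
    have h5 := Real.log_le_log (by linarith) h3
    rw [Real.log_pow] at h5
    push_cast at h5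
    linarith
  have hMT : M * T ≤ N := by omega
  have hMT' : M * T ≤ N' := by omega
  have hX := h1 T hT hMT
  have hZ := h2 T ((mul_le_mul_of_nonneg_left hl' hlam.le).trans hT) hMT'
  -- the first kind
  have e1 : ∑ n ∈ Icc (N / 18) (5 * N / 9), (((range T).filter
      (fun t : ℕ => Rgh δ N (n + M * t))).card : ℝ) ^ r ≤ C * N * (T / Real.log N) ^ r := by
    refine le_trans ?_ hX
    refine sum_le_sum_of_subset_of_nonneg ?_ fun n _ _ => by positivity
    exact Icc_subset_Icc le_rfl (by omega)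
  -- the second kind
  have e2 : ∑ n ∈ Icc (N / 18) (5 * N / 9), (((range T).filter
      (fun t : ℕ => Rgh δ N ((E : ℤ) - n + M * t))).card : ℝ) ^ r ≤
      C * N' * (T / Real.log N') ^ r := by
    refine le_trans ?_ hZ
    have e3 : ∀ n ∈ Icc (N / 18) (5 * N / 9), (((range T).filter
        (fun t : ℕ => Rgh δ N ((E : ℤ) - n + M * t))).card : ℝ) ^ r ≤
        (((range T).filter (fun t : ℕ => Rgh δ N' (((E - n : ℕ) : ℤ) + M * t))).card : ℝ) ^ r := by
      intro n hn
      rw [mem_Icc] at hn
      apply pow_le_pow_left₀ (Nat.cast_nonneg _)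
      have h3 : (E : ℤ) - n = ((E - n : ℕ) : ℤ) := by
        have : n ≤ E := by omega
        omega
      rw [h3]
      exact_mod_cast card_le_card fun t ht => by
        rw [mem_filter] at ht ⊢
        exact ⟨ht.1, rgh_mono hδ hN'0 hN'N ht.2⟩
    refine (sum_le_sum e3).trans ?_
    have h4 : Set.InjOn (fun n => E - n) (Icc (N / 18) (5 * N / 9) : Finset ℕ) := by
      intro a ha b hb h
      rw [mem_coe, mem_Icc] at ha hb
      dsimp only at h
      omega
    have h5 := sum_image (s := Icc (N / 18) (5 * N / 9)) (g := fun n => E - n) (f := fun m : ℕ =>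
      (((range T).filter (fun t : ℕ => Rgh δ N' ((m : ℤ) + M * t))).card : ℝ) ^ r) h4
    rw [← h5]
    refine sum_le_sum_of_subset_of_nonneg ?_ fun n _ _ => by positivity
    intro m hm
    rw [mem_image] at hm
    obtain ⟨n, hn, rfl⟩ := hm
    rw [mem_Icc] at hn ⊢
    constructor <;> omega
  have e4 : C * N' * (T / Real.log N') ^ r ≤ C * N * (2 ^ r * (T / Real.log N) ^ r) := by
    have h3 : (T : ℝ) / Real.log N' ≤ 2 * (T / Real.log N) := by
      have h4 : (T : ℝ) / Real.log N' ≤ T / (Real.log N / 2) :=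
        div_le_div_of_nonneg_left (Nat.cast_nonneg T) (by linarith) hl2
      refine h4.trans (le_of_eq ?_)
      field_simp
    have h5 : (T / Real.log N') ^ r ≤ 2 ^ r * (T / Real.log N) ^ r := by
      rw [← mul_pow]
      apply pow_le_pow_left₀ _ h3
      have : 0 < Real.log N' := by linarith
      positivity
    have h6 : (N' : ℝ) ≤ N := by exact_mod_cast hN'N
    have h7 : 0 ≤ (T / Real.log N') ^ r := by
      have : 0 < Real.log N' := by linarith
      positivity
    gcongr
  calc ∑ n ∈ Icc (N / 18) (5 * N / 9), (((univ ×ˢ range T).filter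
      (fun u : Bool × ℕ => Rgh δ N (fv E M n u))).card : ℝ) ^ r
      ≤ ∑ n ∈ Icc (N / 18) (5 * N / 9), 2 ^ (r - 1) * ((((range T).filter
          (fun t : ℕ => Rgh δ N (n + M * t))).card : ℝ) ^ r +
          (((range T).filter (fun t : ℕ => Rgh δ N ((E : ℤ) - n + M * t))).card : ℝ) ^ r) := by
        refine sum_le_sum fun n _ => ?_
        rw [card_split]
        push_cast
        exact add_pow_le (Nat.cast_nonneg _) (Nat.cast_nonneg _) r
    _ = 2 ^ (r - 1) * (∑ n ∈ Icc (N / 18) (5 * N / 9), (((range T).filter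
          (fun t : ℕ => Rgh δ N (n + M * t))).card : ℝ) ^ r +
          ∑ n ∈ Icc (N / 18) (5 * N / 9), (((range T).filter
          (fun t : ℕ => Rgh δ N ((E : ℤ) - n + M * t))).card : ℝ) ^ r) := by
        rw [← sum_add_distrib, mul_sum]
    _ ≤ 2 ^ (r - 1) * (C * N * (T / Real.log N) ^ r + C * N * (2 ^ r * (T / Real.log N) ^ r)) := by
        gcongr
        exact e2.trans e4
    _ = 2 ^ (r - 1) * (1 + 2 ^ r) * C * N * (T / Real.log N) ^ r := by ring

end MOM2

theorem t_MOM2 : Pool.Agent.N646.RO.S_WB → S_MOM2 := MOM2.main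

end Pool.Agent.N679.RG
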