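import Mathlib
import Pool.Agent.N679.RG.Stm2

/-!
# Pollard's theorem in `ℤ / m` with a defect (`S_POL`)
-/

set_option autoImplicit false

namespace Pool.Agent.N679.RG

open Finset

namespace POL

variable {m : ℕ} [NeZero m]

/-- number of representations of `x` as a sum of an element of `A` and an element of `B` -/
def rep (A B : Finset (ZMod m)) (x : ZMod m) : ℕ := ∑ a ∈ A, ∑ b ∈ B, if a + b = x then 1 else 0

theorem rep_eq (A B : Finset (ZMod m)) (x : ZMod m) :
    ((A ×ˢ B).filter (fun p => p.1 + p.2 = x)).card = rep A B x := by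
  rw [Finset.card_filter, Finset.sum_product]
  rfl

theorem rep_union_left (A A' B : Finset (ZMod m)) (h : Disjoint A A') (x : ZMod m) :
    rep (A ∪ A') B x = rep A B x + rep A' B x := by
  unfold rep
  rw [Finset.sum_union h]

theorem rep_union_right (A B B' : Finset (ZMod m)) (h : Disjoint B B') (x : ZMod m) :
    rep A (B ∪ B') x = rep A B x + rep A B' x := by
  unfold rep
  rw [← Finset.sum_add_distrib]
  exact Finset.sum_congr rfl fun a _ => Finset.sum_union h

theorem rep_shift (B C : Finset (ZMod m)) (e x : ZMod m) :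
    rep (B.image (· + e)) C x = rep (C.image (· + e)) B x := by
  unfold rep
  rw [Finset.sum_image (fun a _ b _ h => add_right_cancel h),
    Finset.sum_image (fun a _ b _ h => add_right_cancel h), Finset.sum_comm]
  refine Finset.sum_congr rfl fun c _ => Finset.sum_congr rfl fun b _ => ?_
  rw [show b + e + c = c + e + b by ring]

theorem sum_rep (A B : Finset (ZMod m)) : ∑ x, rep A B x = A.card * B.card := by
  unfold rep
  rw [Finset.sum_comm]
  have : ∀ a ∈ A, ∑ x : ZMod m, ∑ b ∈ B, (if a + b = x then 1 else 0) = B.card := by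
    intro a _
    rw [Finset.sum_comm]
    simp
  rw [Finset.sum_congr rfl this]
  simp

theorem rep_le (A B : Finset (ZMod m)) (x : ZMod m) : rep A B x ≤ B.card := by
  unfold rep
  rw [Finset.sum_comm, Finset.card_eq_sum_ones]
  refine Finset.sum_le_sum fun b _ => ?_
  have : ∀ a ∈ A, (if a + b = x then 1 else 0) = if a = x - b then 1 else 0 := by
    intro a _
    simp only [eq_sub_iff_add_eq]
  rw [Finset.sum_congr rfl this, Finset.sum_ite_eq']
  split_ifs <;> simp

theorem le_rep (A B : Finset (ZMod m)) (x : ZMod m) (h : ∀ b ∈ B, x - b ∈ A) :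
    B.card ≤ rep A B x := by
  unfold rep
  rw [Finset.sum_comm, Finset.card_eq_sum_ones]
  refine Finset.sum_le_sum fun b hb => ?_
  have : ∀ a ∈ A, (if a + b = x then 1 else 0) = if a = x - b then 1 else 0 := by
    intro a _
    simp only [eq_sub_iff_add_eq]
  rw [Finset.sum_congr rfl this, Finset.sum_ite_eq', if_pos (h b hb)]

/-- the stabiliser of a set -/
def stab (A : Finset (ZMod m)) : AddSubgroup (ZMod m) where
  carrier := {x | ∀ a, a + x ∈ A ↔ a ∈ A}
  zero_mem' := by intro a; simp
  add_mem' := by
    intro x y hx hy a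
    rw [← add_assoc, hy, hx]
  neg_mem' := by
    intro x hx a
    rw [← hx (a + -x), neg_add_cancel_right]

theorem mem_stab (A : Finset (ZMod m)) (x : ZMod m) : x ∈ stab A ↔ ∀ a, a + x ∈ A ↔ a ∈ A :=
  Iff.rfl

theorem main (D : ℕ) (hD : ∀ H : AddSubgroup (ZMod m), H ≠ ⊤ → Nat.card H ≤ D) (n : ℕ) :
    ∀ (A B : Finset (ZMod m)) (t : ℕ), B.card = n → t ≤ A.card → t ≤ B.card →
      A.card + B.card ≤ m + t + D →
      t * (A.card + B.card) ≤ ∑ x : ZMod m, min t (rep A B x) + t * (t + D) := by
  induction n using Nat.strong_induction_on with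
  | _ n ih =>
  intro A B t hn htA htB hsum
  rcases Nat.eq_zero_or_pos t with rfl | ht
  · simp
  rcases Nat.eq_or_lt_of_le htB with hBt | hBt
  · -- `B.card = t`
    have h1 : ∑ x : ZMod m, min t (rep A B x) = A.card * B.card := by
      rw [← sum_rep]
      refine Finset.sum_congr rfl fun x _ => min_eq_right ?_
      rw [hBt]
      exact rep_le A B x
    rw [h1, ← hBt]
    nlinarith
  by_cases hex : ∃ e : ZMod m, 1 ≤ (B.filter (fun b => b + e ∈ A)).card ∧
      (B.filter (fun b => b + e ∈ A)).card < B.card
  · obtain ⟨e, he1, he2⟩ := hex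
    set B1 := B.filter (fun b => b + e ∈ A) with hB1
    set B2 := B.filter (fun b => b + e ∉ A) with hB2
    set A1 := B1.image (· + e) with hA1
    set A2 := A \ A1 with hA2
    set A3 := B2.image (· + e) with hA3
    have hB : B1 ∪ B2 = B := Finset.filter_union_filter_not_eq _ _
    have hBd : Disjoint B1 B2 := Finset.disjoint_filter_filter_not _ _ _
    have hBc : B1.card + B2.card = B.card := Finset.card_filter_add_card_filter_not _
    have hA1s : A1 ⊆ A := by
      intro x hx
      obtain ⟨b, hb, rfl⟩ := Finset.mem_image.1 hx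
      exact (Finset.mem_filter.1 hb).2
    have hA3d : Disjoint A A3 := by
      rw [Finset.disjoint_left]
      intro x hx hx3
      obtain ⟨b, hb, rfl⟩ := Finset.mem_image.1 hx3
      exact (Finset.mem_filter.1 hb).2 hx
    have hA1c : A1.card = B1.card := Finset.card_image_of_injective _ (add_left_injective e)
    have hA3c : A3.card = B2.card := Finset.card_image_of_injective _ (add_left_injective e)
    have hAu : A1 ∪ A2 = A := Finset.union_sdiff_of_subset hA1s
    have hAd : Disjoint A1 A2 := Finset.disjoint_sdiff
    have hA2c : A1.card + A2.card = A.card := by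
      rw [← Finset.card_union_of_disjoint hAd, hAu]
    have hA'c : (A ∪ A3).card = A.card + B2.card := by
      rw [Finset.card_union_of_disjoint hA3d, hA3c]
    have hrep : ∀ x, rep A B x = rep (A ∪ A3) B1 x + rep A2 B2 x := by
      intro x
      rw [rep_union_left A A3 B1 hA3d]
      conv_lhs => rw [← hB, rep_union_right A B1 B2 hBd, ← hAu]
      conv_lhs => rw [rep_union_left A1 A2 B2 hAd]
      rw [hAu, hA1, hA3, rep_shift B1 B2 e x]
      ring
    rcases Nat.lt_or_ge B1.card t with hs | hs
    · -- `B1.card < t`
      have h1 : ∑ x : ZMod m, (min B1.card (rep (A ∪ A3) B1 x) + min (t - B1.card) (rep A2 B2 x)) ≤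
          ∑ x : ZMod m, min t (rep A B x) := by
        refine Finset.sum_le_sum fun x _ => ?_
        rw [hrep]
        omega
      have h2 : ∑ x : ZMod m, min B1.card (rep (A ∪ A3) B1 x) = (A ∪ A3).card * B1.card := by
        rw [← sum_rep]
        exact Finset.sum_congr rfl fun x _ => min_eq_right (rep_le _ _ x)
      rw [Finset.sum_add_distrib, h2, hA'c] at h1
      have h3 := ih B2.card (by omega) A2 B2 (t - B1.card) rfl (by omega) (by omega) (by omega)
      obtain ⟨u, hu⟩ : ∃ u, t = B1.card + u := ⟨t - B1.card, by omega⟩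
      have hu' : t - B1.card = u := by omega
      rw [hu'] at h1 h3
      have h4 : A.card = B1.card + A2.card := by omega
      have h5 : B.card = B1.card + B2.card := by omega
      rw [h4] at h1 ⊢
      rw [h5, hu]
      rw [hu] at h1
      nlinarith [Nat.zero_le (B1.card * D)]
    · have h1 : ∑ x : ZMod m, min t (rep (A ∪ A3) B1 x) ≤ ∑ x : ZMod m, min t (rep A B x) := by
        refine Finset.sum_le_sum fun x _ => ?_
        rw [hrep]
        omega
      have h3 := ih B1.card (by omega) (A ∪ A3) B1 t rfl (by omega) hs (by omega)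
      have h4 : (A ∪ A3).card + B1.card = A.card + B.card := by omega
      rw [h4] at h3
      omega
  · push Not at hex
    have hinv : ∀ a ∈ A, ∀ b ∈ B, ∀ b' ∈ B, a + (b' - b) ∈ A := by
      intro a ha b hb b' hb'
      have h1 : b ∈ B.filter (fun c => c + (a - b) ∈ A) := by
        rw [Finset.mem_filter]
        exact ⟨hb, by rwa [add_sub_cancel]⟩
      have h2 := hex (a - b) (Finset.card_pos.2 ⟨b, h1⟩)
      have h3 : B.filter (fun c => c + (a - b) ∈ A) = B :=
        Finset.eq_of_subset_of_card_le (Finset.filter_subset _ _) h2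
      have h4 : b' ∈ B.filter (fun c => c + (a - b) ∈ A) := by rw [h3]; exact hb'
      have h5 := (Finset.mem_filter.1 h4).2
      rwa [show a + (b' - b) = b' + (a - b) by ring]
    have hstab : ∀ b ∈ B, ∀ b' ∈ B, b' - b ∈ stab A := by
      intro b hb b' hb'
      rw [mem_stab]
      intro a
      refine ⟨fun h => ?_, fun h => hinv a h b hb b' hb'⟩
      have := hinv _ h b' hb' b hb
      rwa [show a + (b' - b) + (b - b') = a by ring] at this
    obtain ⟨a0, ha0⟩ := Finset.card_pos.1 (by omega : 0 < A.card)
    obtain ⟨b0, hb0⟩ := Finset.card_pos.1 (by omega : 0 < B.card)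
    by_cases htop : stab A = ⊤
    · have hA : A = univ := by
        rw [Finset.eq_univ_iff_forall]
        intro x
        have : x - a0 ∈ stab A := by rw [htop]; exact AddSubgroup.mem_top _
        have := ((mem_stab A _).1 this a0).2 ha0
        rwa [add_sub_cancel] at this
      have hAc : A.card = m := by rw [hA, Finset.card_univ, ZMod.card]
      have h1 : ∑ x : ZMod m, t ≤ ∑ x : ZMod m, min t (rep A B x) := by
        refine Finset.sum_le_sum fun x _ => le_min le_rfl ?_
        refine htB.trans (le_rep A B x fun b _ => ?_)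
        rw [hA]
        exact Finset.mem_univ _
      rw [Finset.sum_const, Finset.card_univ, ZMod.card, smul_eq_mul] at h1
      rw [hAc] at hsum ⊢
      nlinarith
    · have h0 := hD _ htop
      have h1 : B.card ≤ Nat.card (stab A) := by
        rw [← Nat.card_eq_finsetCard]
        refine Nat.card_le_card_of_injective
          (fun b : B => (⟨(b : ZMod m) - b0, hstab b0 hb0 b b.2⟩ : stab A)) ?_
        intro b b' h
        have := congrArg Subtype.val h
        simp only at this
        exact Subtype.ext (sub_left_injective this)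
      have h2 : ∑ x ∈ A.image (· + b0), t ≤ ∑ x : ZMod m, min t (rep A B x) := by
        refine (Finset.sum_le_sum fun x hx => ?_).trans
          (Finset.sum_le_sum_of_subset (Finset.subset_univ (A.image (· + b0))))
        obtain ⟨a, ha, rfl⟩ := Finset.mem_image.1 hx
        refine le_min le_rfl (htB.trans (le_rep A B _ fun b hb => ?_))
        have := hinv a ha b hb b0 hb0
        rwa [show a + b0 - b = a + (b0 - b) by ring]
      rw [Finset.sum_const, Finset.card_image_of_injective _ (add_left_injective b0),
        smul_eq_mul] at h2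
      nlinarith

end POL

theorem t_POL : S_POL := by
  intro m _ D hD A B t htA htB hsum
  have h := POL.main D hD B.card A B t rfl htA htB hsum
  have h1 : ∑ x : ZMod m, min t ((A ×ˢ B).filter (fun p => p.1 + p.2 = x)).card =
      ∑ x : ZMod m, min t (POL.rep A B x) :=
    Finset.sum_congr rfl fun x _ => by rw [POL.rep_eq]
  rw [h1]
  exact h

end Pool.Agent.N679.RG
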