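import Mathlib
import Pool.Agent.N679.RG.Stm2

/-!
# Project RH (helper679), part POLF (helper531): popular sums of functions on `ℤ / m`
-/

set_option autoImplicit false

namespace Pool.Agent.N679.RG

open Finset Filter Topology

namespace POLF

theorem sub_card {m y : ℕ} [NeZero m] (hy : ∀ p : ℕ, p.Prime → p ∣ m → y < p)
    (H : AddSubgroup (ZMod m)) (hH : H ≠ ⊤) : Nat.card H ≤ m / (y + 1) := by
  have h1 : Nat.card H * H.index = m := by
    rw [AddSubgroup.card_mul_index, Nat.card_zmod]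
  have h2 : H.index ≠ 1 := fun h => hH (AddSubgroup.index_eq_one.1 h)
  obtain ⟨p, hp, hpd⟩ := Nat.exists_prime_and_dvd h2
  have h3 : p ∣ m := h1 ▸ dvd_mul_of_dvd_right hpd _
  have h4 := hy p hp h3
  have h0 : H.index ≠ 0 := by
    intro h
    rw [h, mul_zero] at h1
    exact NeZero.ne m h1.symm
  have h5 : p ≤ H.index := Nat.le_of_dvd (Nat.pos_of_ne_zero h0) hpd
  rw [Nat.le_div_iff_mul_le (by omega)]
  calc Nat.card H * (y + 1) ≤ Nat.card H * H.index := Nat.mul_le_mul_left _ (by omega)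
    _ = m := h1

theorem count {m : ℕ} [NeZero m] (F G V : Finset (ZMod m)) (t : ℕ) :
    ∑ x : ZMod m, min t ((F ×ˢ G).filter (fun p => p.1 + p.2 = x)).card + t * V.card ≤
      ((F ×ˢ G).filter (fun p => p.1 + p.2 ∈ V)).card + t * m := by
  have h1 : ((F ×ˢ G).filter (fun p => p.1 + p.2 ∈ V)).card =
      ∑ x ∈ V, ((F ×ˢ G).filter (fun p => p.1 + p.2 = x)).card := by
    rw [card_eq_sum_card_fiberwise (f := fun p => p.1 + p.2) (t := V)]
    · apply sum_congr rfl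
      intro x hx
      congr 1
      ext p
      simp only [mem_filter]
      constructor
      · rintro ⟨⟨h1, h2⟩, h3⟩; exact ⟨h1, h3⟩
      · rintro ⟨h1, h3⟩; exact ⟨⟨h1, h3 ▸ hx⟩, h3⟩
    · intro p hp
      exact (mem_filter.1 hp).2
  have h2 := sum_add_sum_compl V
    (fun x => min t ((F ×ˢ G).filter (fun p => p.1 + p.2 = x)).card)
  have h3 : ∑ x ∈ V, min t ((F ×ˢ G).filter (fun p => p.1 + p.2 = x)).card ≤
      ∑ x ∈ V, ((F ×ˢ G).filter (fun p => p.1 + p.2 = x)).card :=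
    sum_le_sum fun x _ => min_le_right _ _
  have h4 : ∑ x ∈ Vᶜ, min t ((F ×ˢ G).filter (fun p => p.1 + p.2 = x)).card ≤
      t * Vᶜ.card := by
    calc ∑ x ∈ Vᶜ, min t ((F ×ˢ G).filter (fun p => p.1 + p.2 = x)).card
        ≤ ∑ x ∈ Vᶜ, t := sum_le_sum fun x _ => min_le_left _ _
      _ = t * Vᶜ.card := by rw [sum_const, smul_eq_mul, mul_comm]
  have h5 : V.card + Vᶜ.card = m := by rw [card_add_card_compl, ZMod.card]
  have h6 : t * V.card + t * Vᶜ.card = t * m := by rw [← mul_add, h5]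
  omega

theorem weight {m : ℕ} [NeZero m] (φ ψ : ZMod m → ℝ) (F G V : Finset (ZMod m)) {δ : ℝ}
    (hδ : 0 ≤ δ) (hφ : ∀ t, 0 ≤ φ t) (hψ : ∀ t, 0 ≤ ψ t) (hF : ∀ t ∈ F, δ ≤ φ t)
    (hG : ∀ t ∈ G, δ ≤ ψ t) :
    δ ^ 2 * (((F ×ˢ G).filter (fun p => p.1 + p.2 ∈ V)).card : ℝ) ≤
      ∑ t, ∑ t', φ t * ψ t' * (if t + t' ∈ V then (1 : ℝ) else 0) := by
  have h1 : ∑ t, ∑ t', φ t * ψ t' * (if t + t' ∈ V then (1 : ℝ) else 0) =
      ∑ p : ZMod m × ZMod m, φ p.1 * ψ p.2 * (if p.1 + p.2 ∈ V then (1 : ℝ) else 0) :=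
    (Fintype.sum_prod_type (fun p : ZMod m × ZMod m =>
      φ p.1 * ψ p.2 * (if p.1 + p.2 ∈ V then (1 : ℝ) else 0))).symm
  rw [h1]
  calc δ ^ 2 * (((F ×ˢ G).filter (fun p => p.1 + p.2 ∈ V)).card : ℝ)
      = ∑ p ∈ (F ×ˢ G).filter (fun p => p.1 + p.2 ∈ V), δ ^ 2 := by
        rw [sum_const, nsmul_eq_mul, mul_comm]
    _ ≤ ∑ p ∈ (F ×ˢ G).filter (fun p => p.1 + p.2 ∈ V),
          φ p.1 * ψ p.2 * (if p.1 + p.2 ∈ V then (1 : ℝ) else 0) := by
        apply sum_le_sum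
        intro p hp
        simp only [mem_filter, mem_product] at hp
        rw [if_pos hp.2, mul_one, sq]
        exact mul_le_mul (hF _ hp.1.1) (hG _ hp.1.2) hδ (hφ _)
    _ ≤ _ := by
        apply sum_le_sum_of_subset_of_nonneg (subset_univ _)
        intro p _ _
        have h2 := hφ p.1
        have h3 := hψ p.2
        split_ifs <;> positivity

theorem level {m : ℕ} [NeZero m] (φ : ZMod m → ℝ) {δ : ℝ} (hδ : 0 ≤ δ) (hφ : ∀ t, φ t ≤ 1) :
    ∑ t, φ t ≤ ((univ.filter (fun t => δ ≤ φ t)).card : ℝ) + δ * m := by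
  classical
  calc ∑ t, φ t ≤ ∑ t : ZMod m, ((if δ ≤ φ t then (1 : ℝ) else 0) + δ) := by
        apply sum_le_sum
        intro t _
        split_ifs with h
        · have := hφ t; linarith
        · linarith [not_le.1 h]
    _ = _ := by
        rw [sum_add_distrib, sum_const, card_univ, ZMod.card, nsmul_eq_mul]
        congr 1
        · rw [Finset.sum_boole]
        · ring

/-- the case `m > 1` -/
theorem main (hP : S_POL) {ε : ℝ} (hε : 0 < ε) {m y : ℕ} [NeZero m]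
    (hyε : 64 / ε ≤ y) (hm : m ≠ 1) (hy : ∀ p : ℕ, p.Prime → p ∣ m → y < p)
    (φ ψ : ZMod m → ℝ) (V : Finset (ZMod m)) (hφ : ∀ t, 0 ≤ φ t ∧ φ t ≤ 1)
    (hψ : ∀ t, 0 ≤ ψ t ∧ ψ t ≤ 1)
    (h1 : ε * m ≤ ∑ t, φ t) (h2 : ε * m ≤ ∑ t, ψ t) (h3 : ε * m ≤ (V.card : ℝ))
    (h4 : (1 + ε) * m ≤ ∑ t, φ t + ∑ t, ψ t + (V.card : ℝ)) :
    ε ^ 4 / 4096 * (m : ℝ) ^ 2 ≤
      ∑ t, ∑ t', φ t * ψ t' * (if t + t' ∈ V then (1 : ℝ) else 0) := by
  classical
  obtain ⟨p, hp, hpd⟩ := Nat.exists_prime_and_dvd hm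
  have hpm : p ≤ m := Nat.le_of_dvd (Nat.pos_of_ne_zero (NeZero.ne m)) hpd
  have hym : y < m := lt_of_lt_of_le (hy p hp hpd) hpm
  have hymR : (y : ℝ) < m := by exact_mod_cast hym
  have hmR : (0 : ℝ) < m := by exact_mod_cast Nat.pos_of_ne_zero (NeZero.ne m)
  have h64 : 64 ≤ ε * y := by
    rw [div_le_iff₀ hε] at hyε
    linarith
  have h64' : 64 ≤ ε * m := h64.trans (mul_le_mul_of_nonneg_left hymR.le hε.le)
  obtain ⟨D, hD⟩ : ∃ D : ℕ, D = m / (y + 1) := ⟨_, rfl⟩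
  have hDle : (D : ℝ) ≤ ε * m / 64 := by
    have e1 : (D : ℝ) ≤ (m : ℝ) / ((y + 1 : ℕ) : ℝ) := by rw [hD]; exact Nat.cast_div_le
    refine e1.trans ?_
    rw [div_le_div_iff₀ (by positivity) (by norm_num)]
    push_cast
    nlinarith
  obtain ⟨F, hF⟩ : ∃ F : Finset (ZMod m), F = univ.filter (fun t => ε / 8 ≤ φ t) := ⟨_, rfl⟩
  obtain ⟨G, hG⟩ : ∃ G : Finset (ZMod m), G = univ.filter (fun t => ε / 8 ≤ ψ t) := ⟨_, rfl⟩
  have hFc : ∑ t, φ t ≤ (F.card : ℝ) + ε / 8 * m := by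
    rw [hF]; exact level φ (by positivity) (fun t => (hφ t).2)
  have hGc : ∑ t, ψ t ≤ (G.card : ℝ) + ε / 8 * m := by
    rw [hG]; exact level ψ (by positivity) (fun t => (hψ t).2)
  obtain ⟨t, ht⟩ : ∃ t : ℕ, t = ⌊ε * m / 8⌋₊ := ⟨_, rfl⟩
  have ht1 : (t : ℝ) ≤ ε * m / 8 := by rw [ht]; exact Nat.floor_le (by positivity)
  have ht2 : ε * m / 8 < t + 1 := by rw [ht]; exact Nat.lt_floor_add_one _
  have ht3 : ε * m / 16 ≤ t := by linarith
  have htF : t ≤ F.card := by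
    have : (t : ℝ) ≤ F.card := by linarith
    exact_mod_cast this
  have htG : t ≤ G.card := by
    have : (t : ℝ) ≤ G.card := by linarith
    exact_mod_cast this
  have hGm : G.card ≤ m := by
    have := card_le_univ G
    rwa [ZMod.card] at this
  -- the subset of `F`
  obtain ⟨F', hF'F, hF't, hF'1, hF'2⟩ : ∃ F' ⊆ F, t ≤ F'.card ∧ F'.card + G.card ≤ m + t + D ∧
      (F'.card = F.card ∨ F'.card + G.card = m + t + D) := by
    by_cases hcase : F.card + G.card ≤ m + t + D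
    · exact ⟨F, Subset.refl _, htF, hcase, Or.inl rfl⟩
    · obtain ⟨F', h5, h6⟩ := exists_subset_card_eq (s := F) (n := m + t + D - G.card) (by omega)
      exact ⟨F', h5, by omega, by omega, Or.inr (by omega)⟩
  have hpol := hP m D (fun H hH => by rw [hD]; exact sub_card hy H hH) F' G t hF't htG hF'1
  have hcnt := count F' G V t
  obtain ⟨N2, hN2⟩ : ∃ N2 : ℕ, N2 = ((F' ×ˢ G).filter (fun p => p.1 + p.2 ∈ V)).card := ⟨_, rfl⟩
  rw [← hN2] at hcnt
  have hw := weight φ ψ F' G V (δ := ε / 8) (by positivity) (fun t => (hφ t).1)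
    (fun t => (hψ t).1) (fun t ht => by
      have := hF'F ht
      rw [hF, mem_filter] at this
      exact this.2) (fun t ht => by
      rw [hG, mem_filter] at ht
      exact ht.2)
  rw [← hN2] at hw
  have hmain : (t : ℝ) * (ε * m / 2) ≤ N2 := by
    have e1 : t * (F'.card + G.card) + t * V.card ≤ N2 + t * m + t * (t + D) := by omega
    have e2 : (t : ℝ) * (F'.card + G.card) + t * V.card ≤ N2 + t * m + t * (t + D) := by
      exact_mod_cast e1
    have e3 : ε * m / 2 ≤ (F'.card : ℝ) + G.card + V.card - m - t - D := by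
      rcases hF'2 with h5 | h5
      · rw [h5]
        linarith
      · have h6 : (F'.card : ℝ) + G.card = m + t + D := by exact_mod_cast h5
        linarith
    have e4 := mul_le_mul_of_nonneg_left e3 (Nat.cast_nonneg t : (0 : ℝ) ≤ t)
    linarith
  refine le_trans ?_ hw
  have e5 : ε * m / 16 * (ε * m / 2) ≤ (N2 : ℝ) :=
    le_trans (mul_le_mul_of_nonneg_right ht3 (by positivity)) hmain
  have e6 := mul_le_mul_of_nonneg_left e5 (by positivity : 0 ≤ (ε / 8) ^ 2)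
  refine le_trans ?_ e6
  have e7 : (ε / 8) ^ 2 * (ε * m / 16 * (ε * m / 2)) = ε ^ 4 * (m : ℝ) ^ 2 / 2048 := by ring
  rw [e7]
  have e8 : 0 ≤ ε ^ 4 * (m : ℝ) ^ 2 := by positivity
  linarith

end POLF

theorem t_POLF : S_POL → S_POLF := by
  intro hP ε hε
  by_cases hε1 : ε ≤ 1
  · refine ⟨⌈64 / ε⌉₊, ε ^ 4 / 4096, by positivity, ?_⟩
    intro m _ hy φ ψ V hφ hψ h1 h2 h3 h4
    by_cases hm : m = 1
    · subst hm
      have hV : V = univ := by
        have h5 : (0 : ℝ) < V.card := lt_of_lt_of_le (by simpa using hε) h3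
        have h6 : 0 < V.card := by exact_mod_cast h5
        obtain ⟨v, hv⟩ := card_pos.1 h6
        ext x
        have hx : x = v := Subsingleton.elim x v
        rw [hx]
        exact iff_of_true hv (mem_univ v)
      subst hV
      have e0 : ∀ f : ZMod 1 → ℝ, ∑ t, f t = f 0 := fun f =>
        Fintype.sum_eq_single 0 (fun x hx => absurd (Subsingleton.elim x 0) hx)
      have e1 : ∑ t, φ t = φ 0 := e0 φ
      have e2 : ∑ t, ψ t = ψ 0 := e0 ψ
      rw [e1] at h1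
      rw [e2] at h2
      have e3 : ∑ t, ∑ t', φ t * ψ t' * (if t + t' ∈ (univ : Finset (ZMod 1)) then (1 : ℝ) else 0)
          = φ 0 * ψ 0 := by
        rw [e0, e0, if_pos (mem_univ _), mul_one]
      rw [e3]
      simp only [Nat.cast_one, mul_one] at h1 h2
      have e4 : ε * ε ≤ φ 0 * ψ 0 := mul_le_mul h1 h2 hε.le (hφ 0).1
      refine le_trans ?_ e4
      have e5 : ε ^ 4 ≤ ε ^ 2 := pow_le_pow_of_le_one hε.le hε1 (by norm_num)
      have e6 : 0 < ε ^ 2 := by positivity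
      simp only [Nat.cast_one, one_pow, mul_one]
      nlinarith
    · exact POLF.main hP hε (Nat.le_ceil _) hm hy φ ψ V hφ hψ h1 h2 h3 h4
  · refine ⟨0, 1, one_pos, ?_⟩
    intro m _ _ φ ψ V hφ _ h1 _ _ _
    exfalso
    have hm : (0 : ℝ) < m := by exact_mod_cast Nat.pos_of_ne_zero (NeZero.ne m)
    have h5 : ∑ t, φ t ≤ m := by
      calc ∑ t, φ t ≤ ∑ t : ZMod m, (1 : ℝ) := sum_le_sum fun t _ => (hφ t).2
        _ = m := by rw [sum_const, card_univ, ZMod.card, nsmul_eq_mul, mul_one]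
    have h6 : (m : ℝ) < ε * m := by
      have := mul_lt_mul_of_pos_right (not_le.1 hε1) hm
      linarith
    linarith

end Pool.Agent.N679.RG
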