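import Pool.Agent.N679.RG.Stm

/-!
Project RG (helper679), part SMO: smooth weights on Bohr sets.
-/

set_option autoImplicit false

namespace Pool.Agent.N679.RG.SMO

open Finset Filter Topology
open Pool.Agent.N679.RG

lemma nrm_nonneg (x : ℝ) : 0 ≤ nrm x := abs_nonneg _

lemma nrm_add (x y : ℝ) : nrm (x + y) ≤ nrm x + nrm y := by
  have h1 := round_le (x + y) (round x + round y)
  unfold nrm
  calc |x + y - round (x + y)| ≤ |x + y - ((round x + round y : ℤ) : ℝ)| := h1
    _ = |(x - round x) + (y - round y)| := by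
      congr 1
      push_cast
      ring
    _ ≤ _ := abs_add_le _ _

lemma nrm_add' (x y : ℝ) : nrm x ≤ nrm (x + y) + nrm y := by
  have h1 := round_le x (round (x + y) - round y)
  unfold nrm
  calc |x - round x| ≤ |x - ((round (x + y) - round y : ℤ) : ℝ)| := h1
    _ = |(x + y - round (x + y)) - (y - round y)| := by
      congr 1
      push_cast
      ring
    _ ≤ _ := abs_sub _ _

lemma nrm_diff (x y : ℝ) : |nrm (x + y) - nrm x| ≤ nrm y := by
  rw [abs_le]
  have h1 := nrm_add x y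
  have h2 := nrm_add' x y
  constructor <;> linarith

/-- the linear function -/
noncomputable def lin {d : ℕ} (θ : Fin d → ℝ) (ρ X : ℝ) (b : ℤ) : ℝ :=
  1 - |(b : ℝ)| / X - ∑ i, nrm (b * θ i) / ρ

/-- the weight -/
noncomputable def psi {d : ℕ} (θ : Fin d → ℝ) (ρ X : ℝ) (b : ℤ) : ℝ := max 0 (lin θ ρ X b)

lemma psi_nonneg {d : ℕ} (θ : Fin d → ℝ) (ρ X : ℝ) (b : ℤ) : 0 ≤ psi θ ρ X b := le_max_left _ _

lemma psi_supp {d : ℕ} (θ : Fin d → ℝ) {ρ X : ℝ} (hρ : 0 < ρ) (hX : 0 < X) {b : ℤ} (h : psi θ ρ X b ≠ 0) :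
    |(b : ℝ)| ≤ X ∧ ∀ i, nrm (b * θ i) ≤ ρ := by
  have h1 : 0 < lin θ ρ X b := by
    by_contra h2
    exact h (max_eq_left (not_lt.1 h2))
  unfold lin at h1
  have h2 : 0 ≤ |(b : ℝ)| / X := div_nonneg (abs_nonneg _) hX.le
  have h3 : ∀ i, 0 ≤ nrm (b * θ i) / ρ := fun i => div_nonneg (nrm_nonneg _) hρ.le
  have h4 : 0 ≤ ∑ i, nrm (b * θ i) / ρ := Finset.sum_nonneg fun i _ => h3 i
  constructor
  · have h5 : |(b : ℝ)| / X ≤ 1 := by linarith
    rwa [div_le_one hX] at h5
  · intro i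
    have h5 : nrm (b * θ i) / ρ ≤ ∑ i, nrm (b * θ i) / ρ :=
      Finset.single_le_sum (f := fun i => nrm (b * θ i) / ρ) (fun i _ => h3 i) (Finset.mem_univ i)
    have h6 : nrm (b * θ i) / ρ ≤ 1 := by linarith
    rwa [div_le_one hρ] at h6

lemma psi_diff {d : ℕ} (θ : Fin d → ℝ) {ρ X : ℝ} (hρ : 0 < ρ) (hX : 0 < X) (b h : ℤ) :
    |psi θ ρ X (b + h) - psi θ ρ X b| ≤ |(h : ℝ)| / X + ∑ i, nrm (h * θ i) / ρ := by
  have h1 : |psi θ ρ X (b + h) - psi θ ρ X b| ≤ |lin θ ρ X (b + h) - lin θ ρ X b| := by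
    unfold psi
    have := abs_max_sub_max_le_abs (lin θ ρ X (b + h)) (lin θ ρ X b) 0
    rwa [max_comm _ (0:ℝ), max_comm _ (0:ℝ)] at this
  refine h1.trans ?_
  have h2 : lin θ ρ X (b + h) - lin θ ρ X b = (|(b : ℝ)| - |(b : ℝ) + h|) / X +
      ∑ i, (nrm (b * θ i) - nrm (b * θ i + h * θ i)) / ρ := by
    unfold lin
    have h3 : ∑ i, (nrm (b * θ i) - nrm (b * θ i + h * θ i)) / ρ =
        ∑ i, nrm (b * θ i) / ρ - ∑ i, nrm (((b + h : ℤ) : ℝ) * θ i) / ρ := by
      rw [← Finset.sum_sub_distrib]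
      apply Finset.sum_congr rfl
      intro i _
      rw [Int.cast_add, add_mul]
      ring
    rw [h3]
    push_cast
    ring
  rw [h2]
  refine (abs_add_le _ _).trans (add_le_add ?_ ?_)
  · rw [abs_div, abs_of_pos hX]
    apply div_le_div_of_nonneg_right _ hX.le
    have := abs_abs_sub_abs_le_abs_sub (b : ℝ) ((b : ℝ) + h)
    refine this.trans (le_of_eq ?_)
    rw [show (b : ℝ) - (b + h) = -h by ring, abs_neg]
  · refine (Finset.abs_sum_le_sum_abs _ _).trans (Finset.sum_le_sum fun i _ => ?_)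
    rw [abs_div, abs_of_pos hρ]
    apply div_le_div_of_nonneg_right _ hρ.le
    rw [abs_sub_comm]
    exact nrm_diff _ _

lemma psi_half {d : ℕ} (θ : Fin d → ℝ) {ρ X : ℝ} (hρ : 0 < ρ) (hX : 0 < X) {b : ℤ} (h : |(b : ℝ)| ≤ X / 4)
    (hb : ∀ i, nrm (b * θ i) ≤ ρ / (4 * (d + 1))) : 1 / 2 ≤ psi θ ρ X b := by
  refine le_trans ?_ (le_max_right _ _)
  unfold lin
  have h1 : |(b : ℝ)| / X ≤ 1 / 4 := by
    rw [div_le_iff₀ hX]; linarith
  have hd : (0 : ℝ) < d + 1 := by positivity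
  have h2 : ∑ i, nrm (b * θ i) / ρ ≤ 1 / 4 := by
    calc ∑ i, nrm (b * θ i) / ρ ≤ ∑ _i : Fin d, 1 / (4 * ((d : ℝ) + 1)) := by
          apply Finset.sum_le_sum
          intro i _
          rw [div_le_iff₀ hρ]
          refine (hb i).trans (le_of_eq ?_)
          ring
      _ = d / (4 * ((d : ℝ) + 1)) := by
          rw [Finset.sum_const, Finset.card_univ, Fintype.card_fin, nsmul_eq_mul]
          ring
      _ ≤ 1 / 4 := by
          rw [div_le_div_iff₀ (by positivity) (by norm_num)]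
          linarith
  linarith

end Pool.Agent.N679.RG.SMO

namespace Pool.Agent.N679.RG

open Finset Filter Topology
open Pool.Agent.N679.RG.SMO

theorem t_SMO : S_CNTB → S_SMO := by
  classical
  intro hC d ρ η hρ hη
  set η₁ : ℝ := min η 1 with hη₁
  have hη₁0 : 0 < η₁ := lt_min hη one_pos
  have hη₁1 : η₁ ≤ 1 := min_le_right _ _
  have hη₁η : η₁ ≤ η := min_le_left _ _
  have hd : (0 : ℝ) < d + 1 := by positivity
  obtain ⟨c, W₀, hc, hW⟩ := hC d (ρ / (4 * (d + 1))) (by positivity)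
  set q : ℝ := 1 / η₁ + d / ρ with hq
  have hq0 : 0 < q := by
    have : 0 < 1 / η₁ := by positivity
    have : 0 ≤ (d : ℝ) / ρ := by positivity
    linarith
  set ρ' : ℝ := η * c * η₁ / (80 * q) with hρ'
  have hρ'0 : 0 < ρ' := by positivity
  refine ⟨ρ', ⌈(4 * (W₀ + 2) : ℝ) / η₁⌉₊ + 1, hρ'0, ?_⟩
  intro T hT θ
  have hT1 : (4 * (W₀ + 2) : ℝ) / η₁ ≤ T := by
    refine (Nat.le_ceil _).trans ?_
    exact_mod_cast (Nat.le_succ _).trans hT
  have hT0 : 1 ≤ T := le_trans (by omega) hT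
  have hT0' : (1 : ℝ) ≤ T := by exact_mod_cast hT0
  have hTp : (0 : ℝ) < T := by linarith
  rw [div_le_iff₀ hη₁0] at hT1
  set X : ℝ := η₁ * T with hX
  have hX0 : 0 < X := by positivity
  have hX4 : (W₀ : ℝ) + 2 ≤ X / 4 := by
    rw [hX]; linarith
  have hXT : X ≤ T := by
    rw [hX]; nlinarith
  set W : ℕ := ⌊X / 4⌋₊ with hWd
  have hWW : W₀ ≤ W := by
    apply Nat.le_floor
    linarith
  have hW1 : X / 4 - 1 ≤ (W : ℝ) := by
    have := Nat.lt_floor_add_one (X / 4)
    linarith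
  have hW2 : (W : ℝ) ≤ X / 4 := Nat.floor_le (by positivity)
  have hW8 : X / 8 ≤ (W : ℝ) := by
    have : (2 : ℝ) ≤ X / 4 := by
      have : (0 : ℝ) ≤ (W₀ : ℝ) := by positivity
      linarith
    linarith
  have hcard := hW W hWW θ
  -- the total mass
  set S : ℝ := ∑ b ∈ Icc (-(T : ℤ)) T, psi θ ρ X b with hS
  have hSlow : c * X / 16 ≤ S := by
    have h1 : ∑ _t ∈ Bh θ (ρ / (4 * (d + 1))) W, (1 / 2 : ℝ) ≤ S := by
      have h2 : ∑ _t ∈ Bh θ (ρ / (4 * (d + 1))) W, (1 / 2 : ℝ) ≤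
          ∑ t ∈ Bh θ (ρ / (4 * (d + 1))) W, psi θ ρ X (t : ℤ) := by
        apply Finset.sum_le_sum
        intro t ht
        simp only [Bh, Finset.mem_filter, Finset.mem_Icc] at ht
        apply psi_half θ hρ hX0
        · have h3 : (t : ℝ) ≤ X / 4 := le_trans (by exact_mod_cast ht.1.2) hW2
          rw [Int.cast_natCast, abs_of_nonneg (by positivity)]
          exact h3
        · intro i
          have := ht.2 i
          simpa using this
      refine h2.trans ?_
      rw [← Finset.sum_image (s := Bh θ (ρ / (4 * (d + 1))) W) (g := fun t : ℕ => (t : ℤ))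
        (f := fun b : ℤ => psi θ ρ X b) (fun a _ b _ h => Int.ofNat_injective h)]
      apply Finset.sum_le_sum_of_subset_of_nonneg
      · intro b hb
        obtain ⟨t, ht, rfl⟩ := Finset.mem_image.1 hb
        simp only [Bh, Finset.mem_filter, Finset.mem_Icc] at ht
        rw [Finset.mem_Icc]
        have h3 : (t : ℝ) ≤ T := by
          have : (t : ℝ) ≤ W := by exact_mod_cast ht.1.2
          linarith
        have h4 : t ≤ T := by exact_mod_cast h3
        constructor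
        · have : (0 : ℤ) ≤ t := by positivity
          omega
        · exact_mod_cast h4
      · intro b _ _
        exact psi_nonneg _ _ _ _
    rw [Finset.sum_const, nsmul_eq_mul] at h1
    have h5 : c * (X / 8) ≤ c * W := mul_le_mul_of_nonneg_left hW8 hc.le
    linarith
  have hS0 : 0 < S := lt_of_lt_of_le (by positivity) hSlow
  refine ⟨fun b => psi θ ρ X b / S, ⟨fun b => div_nonneg (psi_nonneg _ _ _ _) hS0.le, ?_, ?_⟩, ?_, ?_⟩
  · intro b hb
    have h1 : psi θ ρ X b ≠ 0 := fun h => hb (by simp [h])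
    have h2 := (psi_supp θ hρ hX0 h1).1.trans hXT
    exact_mod_cast h2
  · rw [← Finset.sum_div]
    exact div_self hS0.ne'
  · intro b hb
    have h1 : psi θ ρ X b ≠ 0 := fun h => hb (by simp [h])
    obtain ⟨h2, h3⟩ := psi_supp θ hρ hX0 h1
    refine ⟨?_, h3⟩
    have h4 : X ≤ η * T := by
      rw [hX]; exact mul_le_mul_of_nonneg_right hη₁η hTp.le
    exact_mod_cast h2.trans h4
  · intro h hh hθ
    have hh' : |(h : ℝ)| ≤ ρ' * T := by exact_mod_cast hh
    have h1 : ∀ b ∈ Icc (-(2 * T : ℤ)) (2 * T), |psi θ ρ X (b + h) / S - psi θ ρ X b / S| ≤ ρ' * q / S := by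
      intro b _
      rw [← sub_div, abs_div, abs_of_pos hS0]
      apply div_le_div_of_nonneg_right _ hS0.le
      refine (psi_diff θ hρ hX0 b h).trans ?_
      have h2 : |(h : ℝ)| / X ≤ ρ' * (1 / η₁) := by
        rw [div_le_iff₀ hX0, hX]
        refine hh'.trans (le_of_eq ?_)
        field_simp
      have h3 : ∑ i, nrm (h * θ i) / ρ ≤ ρ' * (d / ρ) := by
        calc ∑ i, nrm (h * θ i) / ρ ≤ ∑ _i : Fin d, ρ' / ρ :=
              Finset.sum_le_sum fun i _ => div_le_div_of_nonneg_right (hθ i) hρ.le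
          _ = ρ' * (d / ρ) := by
              rw [Finset.sum_const, Finset.card_univ, Fintype.card_fin, nsmul_eq_mul]
              ring
      rw [hq, mul_add]
      exact add_le_add h2 h3
    refine (Finset.sum_le_sum h1).trans ?_
    rw [Finset.sum_const, nsmul_eq_mul, Int.card_Icc]
    have h4 : (((2 * (T : ℤ) + 1 - -(2 * (T : ℤ))).toNat : ℕ) : ℝ) = 4 * T + 1 := by
      have : (2 * (T : ℤ) + 1 - -(2 * (T : ℤ))).toNat = 4 * T + 1 := by omega
      rw [this]; push_cast; ring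
    rw [h4]
    have h5 : (4 * (T : ℝ) + 1) ≤ 5 * T := by linarith
    calc (4 * (T : ℝ) + 1) * (ρ' * q / S) ≤ (5 * T) * (ρ' * q / S) :=
          mul_le_mul_of_nonneg_right h5 (by positivity)
      _ ≤ (5 * T) * (ρ' * q / (c * X / 16)) := by
          apply mul_le_mul_of_nonneg_left _ (by positivity)
          exact div_le_div_of_nonneg_left (by positivity) (by positivity) hSlow
      _ = η := by
          rw [hρ', hX]
          field_simp
          norm_num

end Pool.Agent.N679.RG
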