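import Pool.Agent.N679.RG.HIT2
import Pool.Agent.N679.RG.MOM2
import Pool.Agent.N679.RG.ABS
import Pool.Agent.N679.RG.CLQ3
import Pool.Agent.N679.RG.CNTB
import Pool.Agent.N679.RG.SMO
import Pool.Agent.N679.RG.FOU
import Pool.Agent.N679.RG.POL
import Pool.Agent.N679.RG.POLF
import Pool.Agent.N679.RG.BEL
import Pool.Agent.N679.RG.INC
import Pool.Agent.N679.RG.CELL
import Pool.Agent.N679.RG.BLK
import Pool.Agent.N679.RG.CORE2
import Pool.Agent.N679.RG.FIN2
import Pool.Agent.N592.RQ_MB
import Pool.Agent.N692.RQ_WB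
import Pool.Agent.N415.RQ_BB
import Pool.Agent.N591.RQ_WC
import Pool.Agent.N595.RQ_BRM

/-!
# Project RH: assembly

Blueprint: helper679. Parts: HIT2 (helper617), MOM2 (helper588), ABS (helper278), CLQ3 (after CLQ2, helper216), CNTB
(helper147), SMO (helper160), FOU (helper866), POL (helper186), POLF (helper531), BEL (helper273), INC (helper286),
CELL (helper482), BLK (helper853), CORE2 (helper340; after CORE, helper955), FIN2 (helper394; after FIN, helper896);
from project RQ of helper646: helpers 592, 692, 415, 591, 595.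
-/

set_option autoImplicit false

namespace Pool.Agent.N679.RG

theorem core2 : S_CORE2 := t_CORE2 (t_SMO t_CNTB) t_FOU (t_BEL t_CNTB) (t_BLK t_CELL (t_POLF t_POL))

theorem clq3 : S_CLQ3 :=
  t_CLQ3 t_HIT2 (t_MOM2 (Pool.Agent.N692.RQWB.main Pool.Agent.N592.RQ.main)) t_ABS
    (Pool.Agent.N415.RQBB.main Pool.Agent.N592.RQ.main) (Pool.Agent.N591.RQ.main Pool.Agent.N595.RQ.main)

theorem fin2 : S_FIN2 := t_FIN2 clq3 t_INC core2

end Pool.Agent.N679.RG
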