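import Pool.Agent.N679.RG.Stm2

/-!
# Project RL (helper679): the equation `a p - b q = c` with the right order of magnitude for 5 / 9 of the admissible
`c` in every window of length `λ log x`, or almost all multiples of a bounded number are differences of primes

Statements of the independent parts (continuation of `Stm2.lean`).
-/

set_option autoImplicit false

namespace Pool.Agent.N679.RG

open Finset Filter Topology
open Pool.Agent.N646.RO (Rgh)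

/-- the values of the forms: `a n + s + a M v` for `u = (false, v)` (the prime `q`) and `b n + t + b M v` for
`u = (true, v)` (the prime `p`); `a p - b q = (a t - b s) + a b M (v' - v)` -/
def fw (a b : ℕ) (s t : ℤ) (M n : ℕ) (u : Bool × ℕ) : ℤ :=
  if u.1 then (b : ℤ) * n + t + b * M * u.2 else (a : ℤ) * n + s + a * M * u.2

/-- the local and size conditions for the pair of the forms `a n + s`, `b n + t` -/
def Lc (a b : ℕ) (s t : ℤ) (N : ℕ) : Prop :=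
  IsCoprime s (a : ℤ) ∧ IsCoprime t (b : ℤ) ∧ Even ((a : ℤ) * b * (a * t - b * s)) ∧
    50 * |s| ≤ N ∧ 50 * |t| ≤ N

open Classical in
/-- **HIT3** one configuration of forms: `T` classes with `K` forms each. -/
def S_HIT3 : Prop := ∀ a b : ℕ, 1 ≤ a → 1 ≤ b → Nat.Coprime a b → a ≠ b →
  ∀ T M : ℕ, 1 ≤ T → (18 / 5 : ℝ) * M < T → ∃ K r : ℕ, 1 ≤ K ∧ ∃ δ c : ℝ, 0 < δ ∧ 0 < c ∧
  ∀ᶠ N : ℕ in atTop, ∀ (M₀ : ℕ) (s t : ℤ), 1 ≤ M₀ → (∀ p : ℕ, p.Prime → p ≤ T * K → p ∣ M₀) →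
    Lc a b s t N →
    ∀ H : Fin T × Fin K → Bool × ℕ, Function.Injective H → (∀ x, 100 * (a + b) * (M₀ * (H x).2) ≤ N) →
    ∃ (S : Finset (Fin T)) (σ : Fin T → Fin K), M + 1 ≤ S.card ∧
      c * (N / (Real.log N) ^ (T * K)) ≤
        ∑ n ∈ (Icc (N / 18) (5 * N / 9)).filter (fun n : ℕ => (∀ x, Rgh δ N (fw a b s t M₀ n (H x))) ∧
            ∀ g ∈ S, (fw a b s t M₀ n (H (g, σ g))).toNat.Prime),
          (((range (⌊Real.log N⌋₊ + r + 1)).filter (fun j : ℕ => Rgh δ N (n - j))).card : ℝ)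

open Classical in
/-- **MOM3** moments of the number of rough values among the `2 T` forms. -/
def S_MOM3 : Prop := ∀ (a b : ℕ) (δ lam : ℝ) (M r : ℕ), 1 ≤ a → 1 ≤ b → 0 < δ → 0 < lam → 1 ≤ M →
  ∃ C : ℝ, 0 < C ∧ ∀ᶠ N : ℕ in atTop, ∀ (T : ℕ) (s t : ℤ), lam * Real.log N ≤ T →
    50 * |s| ≤ N → 50 * |t| ≤ N → 100 * (a + b) * (M * T) ≤ N →
    ∑ n ∈ Icc (N / 18) (5 * N / 9), (((univ ×ˢ range T).filter
      (fun u : Bool × ℕ => Rgh δ N (fw a b s t M n u))).card : ℝ) ^ r ≤ C * N * (T / Real.log N) ^ r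

/-- the number of the `n` at which both forms are prime -/
def prw (a b : ℕ) (s t : ℤ) (M N : ℕ) (u u' : Bool × ℕ) : ℕ :=
  ((Icc (N / 18) (5 * N / 9)).filter
    (fun n : ℕ => (fw a b s t M n u).toNat.Prime ∧ (fw a b s t M n u').toNat.Prime)).card

open Classical in
/-- **CLQ4** almost cliques of density `5 / 18` among the `2 T` forms. -/
def S_CLQ4 : Prop := ∀ a b : ℕ, 1 ≤ a → 1 ≤ b → Nat.Coprime a b → a ≠ b →
  ∀ ε : ℝ, 0 < ε → ∃ M₀ : ℕ, 1 ≤ M₀ ∧ Even M₀ ∧ ∀ (Q : ℕ) (lam : ℝ), 0 < lam →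
  ∃ κ : ℝ, 0 < κ ∧ ∀ᶠ N : ℕ in atTop, ∀ (q T : ℕ) (s t : ℤ), 1 ≤ q → q ≤ Q → lam * Real.log N ≤ T →
    Lc a b s t N → 100 * (a + b) * ((q * M₀) * T) ≤ N →
    ∃ A ⊆ (univ : Finset Bool) ×ˢ range T, (5 / 9 - ε) * T ≤ (A.card : ℝ) ∧
      (((A ×ˢ A).filter (fun p => p.1 ≠ p.2 ∧
        (prw a b s t (q * M₀) N p.1 p.2 : ℝ) < κ * (N / (Real.log N) ^ 2))).card : ℝ) ≤ ε * (T : ℝ) ^ 2

/-- the local condition for `a p - b q = c` (for coprime `a`, `b`): `a`, `b`, `c` pairwise coprime, not all odd -/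
def Adl (a b : ℕ) (c : ℤ) : Prop :=
  IsCoprime c (a : ℤ) ∧ IsCoprime c (b : ℤ) ∧ Even ((a : ℤ) * b * c)

open Classical in
/-- the number of the primes `q ≤ x` for which `a p - b q = c` for a prime `p` -/
noncomputable def sols (a b : ℕ) (c : ℤ) (x : ℕ) : ℕ :=
  ((Icc 1 x).filter (fun q : ℕ => q.Prime ∧ ∃ p : ℕ, p.Prime ∧ (a : ℤ) * p - b * q = c)).card

open Classical in
/-- **FIN3** (from CLQ4, INC, CORE2): at every scale `T ≥ λ log x`, either in every window of length `T` at most the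
proportion `4 / 9 + ε` of the admissible `c` have fewer than `κ x / log² x` solutions, or all but the proportion `ε`
of the multiples of `q ≤ Q` up to `X ≥ c₀ T` are differences of at least `κ x / log² x` pairs of primes. -/
def S_FIN3 : Prop := ∀ a b : ℕ, 1 ≤ a → 1 ≤ b → Nat.Coprime a b → a ≠ b →
  ∀ ε : ℝ, 0 < ε → ∃ (Q : ℕ) (c₀ : ℝ), 0 < c₀ ∧ ∀ lam : ℝ, 0 < lam → ∃ κ : ℝ, 0 < κ ∧
  ∀ᶠ x : ℕ in atTop, ∀ T : ℕ, lam * Real.log x ≤ T → 1000 * T ≤ x →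
    (∀ u : ℤ, |u| ≤ x →
      (((Ioc u (u + T)).filter (fun c : ℤ => Adl a b c ∧
        (sols a b c (100 * a * x) : ℝ) < κ * (x / (Real.log x) ^ 2))).card : ℝ) ≤
      (4 / 9 + ε) * (((Ioc u (u + T)).filter (fun c : ℤ => Adl a b c)).card : ℝ)) ∨
    ∃ q X : ℕ, 1 ≤ q ∧ q ≤ Q ∧ c₀ * T ≤ (X : ℝ) ∧ X ≤ T ∧
      (((Icc 1 X).filter (fun h => q ∣ h ∧
        (pairs h (100 * (a + b) * x) : ℝ) < κ * (x / (Real.log x) ^ 2))).card : ℝ) ≤ ε * (X / q)

end Pool.Agent.N679.RG
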