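import Mathlib
import Pool.Agent.N679.RG.Stm3
import Pool.Agent.N679.RG.FIN2

/-!
# Project RL: FIN3, the final assembly (from CLQ4, INC and CORE2). By helper678, after FIN2.
-/

set_option autoImplicit false

namespace Pool.Agent.N679.RG

open Finset Filter Topology

namespace FIN3

open Classical in
/-- the two parts of an almost clique -/
theorem parts {T₁ : ℕ} {ε' k : ℝ} (f : Bool × ℕ → Bool × ℕ → ℕ) {As : Finset (Bool × ℕ)}
    (hAs : As ⊆ (univ : Finset Bool) ×ˢ range T₁)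
    (hpairs : (((As ×ˢ As).filter (fun p => p.1 ≠ p.2 ∧
        (f p.1 p.2 : ℝ) < k)).card : ℝ) ≤ ε' * (T₁ : ℝ) ^ 2) :
    ∃ P : Bool → Finset ℤ, (∀ b, P b ⊆ Ico 0 (T₁ : ℤ)) ∧
      As.card ≤ (P false).card + (P true).card ∧
      ∀ (b b' : Bool) (Q : ℤ × ℤ → Prop) [DecidablePred Q],
        (∀ x y : ℕ, x < T₁ → y < T₁ → Q ((x : ℤ), (y : ℤ)) →
          ((b, x) : Bool × ℕ) ≠ (b', y) ∧ (f (b, x) (b', y) : ℝ) < k) →
        ((((P b) ×ˢ (P b')).filter Q).card : ℝ) ≤ ε' * (T₁ : ℝ) ^ 2 := by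
  have hlt : ∀ b v, (b, v) ∈ As → v < T₁ := by
    intro b v h
    have := (Finset.mem_product.1 (hAs h)).2
    exact Finset.mem_range.1 this
  -- the two parts of `As`
  let P : Bool → Finset ℤ := fun b =>
    (Ico (0 : ℤ) T₁).filter (fun v : ℤ => (b, v.toNat) ∈ As)
  have hPsub : ∀ b, P b ⊆ Ico 0 (T₁ : ℤ) := fun b => Finset.filter_subset _ _
  have hPmem : ∀ b v, v ∈ P b → ∃ n : ℕ, v = (n : ℤ) ∧ (b, n) ∈ As ∧ n < T₁ := by
    intro b v hv
    obtain ⟨h3, h4⟩ := Finset.mem_filter.1 hv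
    rw [Finset.mem_Ico] at h3
    exact ⟨v.toNat, by omega, h4, by omega⟩
  have hPcard : As.card ≤ (P false).card + (P true).card := by
    have hsplit : As.card = (As.filter (fun u => u.1 = false)).card +
        (As.filter (fun u => ¬ u.1 = false)).card :=
      (Finset.card_filter_add_card_filter_not _).symm
    rw [hsplit]
    refine Nat.add_le_add ?_ ?_
    · refine Finset.card_le_card_of_injOn (fun u => (u.2 : ℤ)) ?_ ?_
      · intro u hu
        obtain ⟨h3, h4⟩ := Finset.mem_filter.1 (Finset.mem_coe.1 hu)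
        obtain ⟨b, v⟩ := u
        have h5 : b = false := h4
        subst h5
        refine Finset.mem_coe.2 (Finset.mem_filter.2 ⟨Finset.mem_Ico.2 ⟨?_, ?_⟩, ?_⟩)
        · exact Int.natCast_nonneg _
        · show ((v : ℕ) : ℤ) < (T₁ : ℤ)
          exact_mod_cast hlt _ _ h3
        · show (false, ((v : ℤ)).toNat) ∈ As
          rw [Int.toNat_natCast]; exact h3
      · intro u hu u' hu' h
        obtain ⟨h3, h4⟩ := Finset.mem_filter.1 (Finset.mem_coe.1 hu)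
        obtain ⟨h3', h4'⟩ := Finset.mem_filter.1 (Finset.mem_coe.1 hu')
        have h5 : (u.2 : ℤ) = (u'.2 : ℤ) := h
        exact Prod.ext (h4.trans h4'.symm) (by exact_mod_cast h5)
    · refine Finset.card_le_card_of_injOn (fun u => (u.2 : ℤ)) ?_ ?_
      · intro u hu
        obtain ⟨h3, h4⟩ := Finset.mem_filter.1 (Finset.mem_coe.1 hu)
        obtain ⟨b, v⟩ := u
        have h5 : b = true := by simpa using h4
        subst h5
        refine Finset.mem_coe.2 (Finset.mem_filter.2 ⟨Finset.mem_Ico.2 ⟨?_, ?_⟩, ?_⟩)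
        · exact Int.natCast_nonneg _
        · show ((v : ℕ) : ℤ) < (T₁ : ℤ)
          exact_mod_cast hlt _ _ h3
        · show (true, ((v : ℤ)).toNat) ∈ As
          rw [Int.toNat_natCast]; exact h3
      · intro u hu u' hu' h
        obtain ⟨h3, h4⟩ := Finset.mem_filter.1 (Finset.mem_coe.1 hu)
        obtain ⟨h3', h4'⟩ := Finset.mem_filter.1 (Finset.mem_coe.1 hu')
        have h5 : (u.2 : ℤ) = (u'.2 : ℤ) := h
        have h6 : u.1 = true := by simpa using h4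
        have h7 : u'.1 = true := by simpa using h4'
        exact Prod.ext (h6.trans h7.symm) (by exact_mod_cast h5)
  refine ⟨P, hPsub, hPcard, ?_⟩
  intro b b' Q _ hQ
  refine le_trans ?_ hpairs
  norm_cast
  refine Finset.card_le_card_of_injOn
    (fun p : ℤ × ℤ => (((b, p.1.toNat), (b', p.2.toNat)) : (Bool × ℕ) × (Bool × ℕ))) ?_ ?_
  · rintro ⟨x, y⟩ hp
    obtain ⟨h3, h4⟩ := Finset.mem_filter.1 (Finset.mem_coe.1 hp)
    obtain ⟨h5, h6⟩ := Finset.mem_product.1 h3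
    obtain ⟨x', rfl, hx', hx''⟩ := hPmem _ _ h5
    obtain ⟨y', rfl, hy', hy''⟩ := hPmem _ _ h6
    have h7 := hQ x' y' hx'' hy'' h4
    refine Finset.mem_coe.2 (Finset.mem_filter.2 ⟨?_, ?_⟩)
    · show (((b, (x' : ℤ).toNat), (b', (y' : ℤ).toNat)) : (Bool × ℕ) × (Bool × ℕ)) ∈ As ×ˢ As
      rw [Int.toNat_natCast, Int.toNat_natCast]
      exact Finset.mem_product.2 ⟨hx', hy'⟩
    · show ((b, (x' : ℤ).toNat) : Bool × ℕ) ≠ (b', (y' : ℤ).toNat) ∧
        (f (b, (x' : ℤ).toNat) (b', (y' : ℤ).toNat) : ℝ) < k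
      rw [Int.toNat_natCast, Int.toNat_natCast]
      exact h7
  · rintro ⟨x, y⟩ hp ⟨x₂, y₂⟩ hp₂ h
    obtain ⟨h3, h4⟩ := Finset.mem_filter.1 (Finset.mem_coe.1 hp)
    obtain ⟨h5, h6⟩ := Finset.mem_product.1 h3
    obtain ⟨x', rfl, hx', hx''⟩ := hPmem _ _ h5
    obtain ⟨y', rfl, hy', hy''⟩ := hPmem _ _ h6
    obtain ⟨h3', h4'⟩ := Finset.mem_filter.1 (Finset.mem_coe.1 hp₂)
    obtain ⟨h5', h6'⟩ := Finset.mem_product.1 h3'
    obtain ⟨x₂', rfl, hx₂', hx₂''⟩ := hPmem _ _ h5'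
    obtain ⟨y₂', rfl, hy₂', hy₂''⟩ := hPmem _ _ h6'
    have h7 : (((b, (x' : ℤ).toNat), (b', (y' : ℤ).toNat)) : (Bool × ℕ) × (Bool × ℕ)) =
      ((b, (x₂' : ℤ).toNat), (b', (y₂' : ℤ).toNat)) := h
    rw [Int.toNat_natCast, Int.toNat_natCast, Int.toNat_natCast, Int.toNat_natCast] at h7
    simp only [Prod.mk.injEq, true_and] at h7
    rw [h7.1, h7.2]


/-! ### counting -/

theorem pos_of_prime {z : ℤ} (h : z.toNat.Prime) : (z.toNat : ℤ) = z ∧ 0 < z := by
  have h1 := h.pos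
  omega

theorem fw_f (a b : ℕ) (s t : ℤ) (M n v : ℕ) :
    fw a b s t M n (false, v) = (a : ℤ) * n + s + a * M * v := by
  simp [fw]

theorem fw_t (a b : ℕ) (s t : ℤ) (M n v : ℕ) :
    fw a b s t M n (true, v) = (b : ℤ) * n + t + b * M * v := by
  simp [fw]

open Classical in
theorem prw_ft {a b : ℕ} {s t : ℤ} {M N X : ℕ} (v v' : ℕ) (ha : 1 ≤ a)
    (hX : (a : ℤ) * ((5 * N / 9 : ℕ) : ℤ) + s + a * M * v ≤ X) :
    prw a b s t M N (false, v) (true, v') ≤
      sols a b ((a : ℤ) * t - b * s + a * b * M * ((v' : ℤ) - v)) X := by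
  unfold prw sols
  have ha' : (0 : ℤ) < a := by exact_mod_cast ha
  refine Finset.card_le_card_of_injOn (fun n : ℕ => (fw a b s t M n (false, v)).toNat) ?_ ?_
  · intro n hn
    obtain ⟨h1, h2, h3⟩ := Finset.mem_filter.1 (Finset.mem_coe.1 hn)
    have h1' := (Finset.mem_Icc.1 h1).2
    obtain ⟨e1, e2⟩ := pos_of_prime h2
    obtain ⟨e3, e4⟩ := pos_of_prime h3
    have f1 := fw_f a b s t M n v
    have f2 := fw_t a b s t M n v'
    refine Finset.mem_coe.2 (Finset.mem_filter.2 ⟨Finset.mem_Icc.2 ⟨?_, ?_⟩, h2,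
      (fw a b s t M n (true, v')).toNat, h3, ?_⟩)
    · exact h2.pos
    · have h4 : (a : ℤ) * n ≤ (a : ℤ) * ((5 * N / 9 : ℕ) : ℤ) :=
        mul_le_mul_of_nonneg_left (by exact_mod_cast h1') ha'.le
      have h5 : ((fw a b s t M n (false, v)).toNat : ℤ) ≤ X := by
        rw [e1, f1]
        linarith
      exact_mod_cast h5
    · show (a : ℤ) * ((fw a b s t M n (true, v')).toNat : ℤ) -
        b * ((fw a b s t M n (false, v)).toNat : ℤ) = _
      rw [e1, e3, f1, f2]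
      ring
  · intro n hn n' hn' h
    obtain ⟨_, h2, _⟩ := Finset.mem_filter.1 (Finset.mem_coe.1 hn)
    obtain ⟨_, h2', _⟩ := Finset.mem_filter.1 (Finset.mem_coe.1 hn')
    have e1 := (pos_of_prime h2).1
    have e2 := (pos_of_prime h2').1
    have h' : (fw a b s t M n (false, v)).toNat = (fw a b s t M n' (false, v)).toNat := h
    have e3 : fw a b s t M n (false, v) = fw a b s t M n' (false, v) := by
      rw [← e1, ← e2, h']
    rw [fw_f, fw_f] at e3
    have e4 : (a : ℤ) * n = a * n' := by linarith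
    have e5 : (n : ℤ) = n' := mul_left_cancel₀ ha'.ne' e4
    exact_mod_cast e5

open Classical in
theorem prw_ff {a b : ℕ} {s t : ℤ} {M N X : ℕ} (v h : ℕ) (ha : 1 ≤ a)
    (hX : (a : ℤ) * ((5 * N / 9 : ℕ) : ℤ) + s + a * M * v ≤ X) :
    prw a b s t M N (false, v) (false, v + h) ≤ pairs (a * M * h) X := by
  unfold prw pairs
  have ha' : (0 : ℤ) < a := by exact_mod_cast ha
  refine Finset.card_le_card_of_injOn (fun n : ℕ => (fw a b s t M n (false, v)).toNat) ?_ ?_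
  · intro n hn
    obtain ⟨h1, h2, h3⟩ := Finset.mem_filter.1 (Finset.mem_coe.1 hn)
    have h1' := (Finset.mem_Icc.1 h1).2
    obtain ⟨e1, e2⟩ := pos_of_prime h2
    obtain ⟨e3, e4⟩ := pos_of_prime h3
    have f1 := fw_f a b s t M n v
    have f2 := fw_f a b s t M n (v + h)
    refine Finset.mem_coe.2 (Finset.mem_filter.2 ⟨Finset.mem_Icc.2 ⟨?_, ?_⟩, h2, ?_⟩)
    · exact h2.pos
    · have h4 : (a : ℤ) * n ≤ (a : ℤ) * ((5 * N / 9 : ℕ) : ℤ) :=
        mul_le_mul_of_nonneg_left (by exact_mod_cast h1') ha'.le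
      have h5 : ((fw a b s t M n (false, v)).toNat : ℤ) ≤ X := by
        rw [e1, f1]
        linarith
      exact_mod_cast h5
    · have h6 : (fw a b s t M n (false, v)).toNat + a * M * h =
          (fw a b s t M n (false, v + h)).toNat := by
        have h7 : ((fw a b s t M n (false, v)).toNat : ℤ) + ((a * M * h : ℕ) : ℤ) =
            ((fw a b s t M n (false, v + h)).toNat : ℤ) := by
          rw [e1, e3, f1, f2]
          push_cast
          ring
        exact_mod_cast h7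
      show ((fw a b s t M n (false, v)).toNat + a * M * h).Prime
      rw [h6]
      exact h3
  · intro n hn n' hn' h
    obtain ⟨_, h2, _⟩ := Finset.mem_filter.1 (Finset.mem_coe.1 hn)
    obtain ⟨_, h2', _⟩ := Finset.mem_filter.1 (Finset.mem_coe.1 hn')
    have e1 := (pos_of_prime h2).1
    have e2 := (pos_of_prime h2').1
    have h' : (fw a b s t M n (false, v)).toNat = (fw a b s t M n' (false, v)).toNat := h
    have e3 : fw a b s t M n (false, v) = fw a b s t M n' (false, v) := by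
      rw [← e1, ← e2, h']
    rw [fw_f, fw_f] at e3
    have e4 : (a : ℤ) * n = a * n' := by linarith
    have e5 : (n : ℤ) = n' := mul_left_cancel₀ ha'.ne' e4
    exact_mod_cast e5

open Classical in
theorem prw_tt {a b : ℕ} {s t : ℤ} {M N X : ℕ} (v h : ℕ) (hb : 1 ≤ b)
    (hX : (b : ℤ) * ((5 * N / 9 : ℕ) : ℤ) + t + b * M * v ≤ X) :
    prw a b s t M N (true, v) (true, v + h) ≤ pairs (b * M * h) X := by
  have h1 : prw a b s t M N (true, v) (true, v + h) = prw b a t s M N (false, v) (false, v + h) := by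
    unfold prw
    simp only [fw_f, fw_t]
  rw [h1]
  exact prw_ff v h hb hX

open Classical in
/-- the main step -/
theorem step {a b M₀ W N q x₀ H T₁ Z w X Y : ℕ} {c₁ s t : ℤ} {ε ε₃ k c τ ρ' : ℝ} (B : ℕ → Prop)
    (ha : 1 ≤ a) (hb : 1 ≤ b) (hW : W = a * b * M₀)
    (hB : ∀ r, B r → (sols a b (c₁ + (W : ℤ) * r) X : ℝ) < k)
    (hε : 0 < ε) (hε1 : ε ≤ 1 / 100) (hε₃ : ε₃ ≤ τ / 2) (hε₃' : ε₃ ≤ ε / 4000) (hτ : 0 < τ)
    (hc : 0 < c) (hT₁ : T₁ = H / 2) (hT₁b : 100 ≤ T₁) (hT₁c : 1 ≤ 2 * τ * T₁)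
    (hρ : 4 / 9 + ε ≤ ρ')
    (hH : ρ' * H ≤ (((range H).filter (fun r => B (x₀ + q * r))).card : ℝ))
    (hH2 : ∀ q' x₁ H' : ℕ, 1 ≤ q' → q' ≤ Z → c / 3 * H ≤ (H' : ℝ) → (∀ t < H', x₁ + q' * t < H) →
        (((range H').filter (fun t => B (x₀ + q * (x₁ + q' * t)))).card : ℝ) ≤
          (ρ' + τ / 2) * H')
    (hst : (a : ℤ) * t - b * s = c₁ + W * x₀ + W * q * ((T₁ : ℤ) - 1))
    (hclq : ∃ As ⊆ (univ : Finset Bool) ×ˢ range T₁, (5 / 9 - ε₃) * T₁ ≤ (As.card : ℝ) ∧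
      (((As ×ˢ As).filter (fun p => p.1 ≠ p.2 ∧
        (prw a b s t (q * M₀) N p.1 p.2 : ℝ) < k)).card : ℝ) ≤ ε₃ * (T₁ : ℝ) ^ 2)
    (hcore : ∀ (A C U : Finset ℤ) (ρ : ℝ),
      A ⊆ Ico 0 (T₁ : ℤ) → C ⊆ Ico 0 (T₁ : ℤ) → U ⊆ Ico 0 (2 * (T₁ : ℤ)) → ε / 4 ≤ ρ →
      (ρ - τ) * (2 * T₁) ≤ (U.card : ℝ) →
      (∀ (k m : ℕ) (x : ℤ), 1 ≤ k → k ≤ Z → c * T₁ ≤ (m : ℝ) → 0 ≤ x → x + k * (m - 1) < 2 * T₁ →
        (((range m).filter (fun t : ℕ => x + k * t ∈ U)).card : ℝ) ≤ (ρ + τ) * m) →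
      ε / 4 * T₁ ≤ (A.card : ℝ) → ε / 4 * T₁ ≤ (C.card : ℝ) →
      (1 - ρ + ε / 4) * T₁ ≤ (A.card : ℝ) + C.card →
      τ * (T₁ : ℝ) ^ 2 ≤ (((A ×ˢ C).filter (fun p => p.1 + p.2 ∈ U)).card : ℝ))
    (D D' : Finset ℕ) (hw : w = T₁ / 50) (hD : D ⊆ Icc 1 w) (hD' : D' ⊆ Icc 1 w)
    (hD2 : ∀ h ∈ D, (pairs (a * (q * M₀) * h) Y : ℝ) < k)
    (hD2' : ∀ h ∈ D', (pairs (b * (q * M₀) * h) Y : ℝ) < k)
    (h1 : (a : ℤ) * ((5 * N / 9 : ℕ) : ℤ) + s + a * ((q * M₀ : ℕ) : ℤ) * T₁ ≤ X)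
    (h2 : (a : ℤ) * ((5 * N / 9 : ℕ) : ℤ) + s + a * ((q * M₀ : ℕ) : ℤ) * T₁ ≤ Y)
    (h3 : (b : ℤ) * ((5 * N / 9 : ℕ) : ℤ) + t + b * ((q * M₀ : ℕ) : ℤ) * T₁ ≤ Y) :
    (D.card : ℝ) ≤ ε * w ∨ (D'.card : ℝ) ≤ ε * w := by
  obtain ⟨As, hAs, hcard, hpairs⟩ := hclq
  obtain ⟨P, hPsub, hPcard, hsmall⟩ := parts (prw a b s t (q * M₀) N) hAs hpairs
  have hT₁0 : (0 : ℝ) < T₁ := by
    have : 0 < T₁ := by omega
    exact_mod_cast this
  have hT₁100 : (100 : ℝ) ≤ T₁ := by exact_mod_cast hT₁b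
  have hcard' : (5 / 9 - ε₃) * T₁ ≤ ((P false).card : ℝ) + (P true).card :=
    hcard.trans (by exact_mod_cast hPcard)
  -- the set `U`
  obtain ⟨U, hU⟩ : ∃ U : Finset ℤ, U = (Ico (0 : ℤ) (2 * (T₁ : ℤ))).filter
    (fun r : ℤ => B (x₀ + q * r.toNat)) := ⟨_, rfl⟩
  have hUsub : U ⊆ Ico 0 (2 * (T₁ : ℤ)) := by rw [hU]; exact Finset.filter_subset _ _
  have hUmem : ∀ r : ℕ, (r : ℤ) ∈ U → B (x₀ + q * r) := by
    intro r hr
    rw [hU] at hr
    have := (Finset.mem_filter.1 hr).2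
    rw [Int.toNat_natCast] at this
    exact this
  have hUcard : ρ' * H ≤ (U.card : ℝ) + 1 := by
    refine hH.trans ?_
    have h3 : ((range H).filter (fun t => B (x₀ + q * t))) ⊆
        insert (2 * T₁) ((range (2 * T₁)).filter (fun t => B (x₀ + q * t))) := by
      intro t ht
      obtain ⟨h4, h5⟩ := Finset.mem_filter.1 ht
      rw [Finset.mem_range] at h4
      rw [Finset.mem_insert, Finset.mem_filter, Finset.mem_range]
      by_cases h6 : t = 2 * T₁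
      · exact Or.inl h6
      · exact Or.inr ⟨by omega, h5⟩
    have h4 : ((range (2 * T₁)).filter (fun t => B (x₀ + q * t))).card ≤ U.card := by
      refine Finset.card_le_card_of_injOn (fun t => (t : ℤ)) ?_ ?_
      · intro t ht
        obtain ⟨h4, h5⟩ := Finset.mem_filter.1 (Finset.mem_coe.1 ht)
        rw [Finset.mem_range] at h4
        rw [hU]
        refine Finset.mem_coe.2 (Finset.mem_filter.2 ⟨Finset.mem_Ico.2 ⟨?_, ?_⟩, ?_⟩)
        · exact Int.natCast_nonneg _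
        · show (t : ℤ) < 2 * (T₁ : ℤ)
          omega
        · show B (x₀ + q * ((t : ℤ)).toNat)
          rw [Int.toNat_natCast]; exact h5
      · intro t _ t' _ h
        have h' : (t : ℤ) = (t' : ℤ) := h
        exact_mod_cast h'
    have h5 := (Finset.card_le_card h3).trans (Finset.card_insert_le _ _)
    have h6 := h5.trans (Nat.add_le_add_right h4 1)
    exact_mod_cast h6
  have hH1 : (2 : ℝ) * T₁ ≤ H := by
    have : 2 * T₁ ≤ H := by omega
    exact_mod_cast this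
  have hH3 : (H : ℝ) ≤ 3 * T₁ := by
    have : H ≤ 3 * T₁ := by omega
    exact_mod_cast this
  have hρ0 : 0 ≤ ρ' := by linarith
  have hU1 : (ρ' - τ) * (2 * T₁) ≤ (U.card : ℝ) := by nlinarith
  have hU2 : ∀ (k m : ℕ) (x : ℤ), 1 ≤ k → k ≤ Z → c * T₁ ≤ (m : ℝ) → 0 ≤ x →
      x + k * (m - 1) < 2 * T₁ →
        (((range m).filter (fun t : ℕ => x + k * t ∈ U)).card : ℝ) ≤ (ρ' + τ) * m := by
    intro k m x hk hkZ hm hx hxk
    obtain ⟨y, rfl⟩ := Int.eq_ofNat_of_zero_le hx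
    have hm0 : (0 : ℝ) < m := lt_of_lt_of_le (by positivity) hm
    have hm0' : 0 < m := by exact_mod_cast hm0
    have h3 := hH2 k y m hk hkZ (by nlinarith) (by
      intro t ht
      have h4 : (k : ℤ) * t ≤ k * (m - 1) := by
        refine mul_le_mul_of_nonneg_left ?_ (by positivity)
        omega
      have h5 : ((y + k * t : ℕ) : ℤ) < 2 * T₁ := by
        push_cast
        linarith
      omega)
    have h4 : ((range m).filter (fun t : ℕ => ((y : ℕ) : ℤ) + k * t ∈ U)).card ≤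
        ((range m).filter (fun t => B (x₀ + q * (y + k * t)))).card := by
      refine Finset.card_le_card ?_
      intro t ht
      obtain ⟨h5, h6⟩ := Finset.mem_filter.1 ht
      refine Finset.mem_filter.2 ⟨h5, hUmem _ ?_⟩
      push_cast
      exact h6
    have h5 : (((range m).filter (fun t : ℕ => ((y : ℕ) : ℤ) + k * t ∈ U)).card : ℝ) ≤
        (ρ' + τ / 2) * m := le_trans (by exact_mod_cast h4) h3
    refine h5.trans ?_
    nlinarith
  -- the reflected part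
  obtain ⟨R, hR⟩ : ∃ R : Finset ℤ, R = (P false).image (fun v : ℤ => (T₁ : ℤ) - 1 - v) := ⟨_, rfl⟩
  have hRsub : R ⊆ Ico 0 (T₁ : ℤ) := by
    intro z hz
    rw [hR, Finset.mem_image] at hz
    obtain ⟨v, hv, rfl⟩ := hz
    have := Finset.mem_Ico.1 (hPsub false hv)
    exact Finset.mem_Ico.2 ⟨by omega, by omega⟩
  have hRcard : R.card = (P false).card := by
    rw [hR]
    refine Finset.card_image_of_injective _ ?_
    intro v v' h
    have : (T₁ : ℤ) - 1 - v = (T₁ : ℤ) - 1 - v' := h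
    omega
  -- bad pairs from `U`
  have hUpairs : (((R ×ˢ (P true)).filter (fun p => p.1 + p.2 ∈ U)).card : ℝ) ≤
      ε₃ * (T₁ : ℝ) ^ 2 := by
    have hle : ((R ×ˢ (P true)).filter (fun p => p.1 + p.2 ∈ U)).card ≤
        (((P false) ×ˢ (P true)).filter (fun p => (T₁ : ℤ) - 1 - p.1 + p.2 ∈ U)).card := by
      refine Finset.card_le_card_of_injOn
        (fun p : ℤ × ℤ => (((T₁ : ℤ) - 1 - p.1, p.2) : ℤ × ℤ)) ?_ ?_
      · rintro ⟨z, v'⟩ hp
        obtain ⟨h4, h5⟩ := Finset.mem_filter.1 (Finset.mem_coe.1 hp)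
        obtain ⟨h6, h7⟩ := Finset.mem_product.1 h4
        have h6' : z ∈ R := h6
        rw [hR, Finset.mem_image] at h6'
        obtain ⟨v, hv, hvz⟩ := h6'
        refine Finset.mem_coe.2 (Finset.mem_filter.2 ⟨Finset.mem_product.2 ⟨?_, h7⟩, ?_⟩)
        · show (T₁ : ℤ) - 1 - z ∈ P false
          have : (T₁ : ℤ) - 1 - z = v := by omega
          rw [this]
          exact hv
        · show (T₁ : ℤ) - 1 - ((T₁ : ℤ) - 1 - z) + v' ∈ U
          have : (T₁ : ℤ) - 1 - ((T₁ : ℤ) - 1 - z) + v' = z + v' := by ring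
          rw [this]
          exact h5
      · rintro ⟨z, v'⟩ _ ⟨z₂, v₂'⟩ _ h
        have h4 : (T₁ : ℤ) - 1 - z = (T₁ : ℤ) - 1 - z₂ := congrArg Prod.fst h
        have h5 : v' = v₂' := congrArg Prod.snd h
        have h6 : z = z₂ := by omega
        rw [h5, h6]
    refine le_trans (by exact_mod_cast hle) (hsmall false true
      (fun p => (T₁ : ℤ) - 1 - p.1 + p.2 ∈ U) ?_)
    intro x z hx hz hxz
    refine ⟨fun h => by have := congrArg Prod.fst h; simp at this, ?_⟩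
    have h4 : ((T₁ - 1 - x + z : ℕ) : ℤ) ∈ U := by
      have : ((T₁ - 1 - x + z : ℕ) : ℤ) = (T₁ : ℤ) - 1 - x + z := by omega
      rw [this]
      exact hxz
    have h5 := hB _ (hUmem _ h4)
    refine lt_of_le_of_lt ?_ h5
    have h6 := prw_ft (a := a) (b := b) (s := s) (t := t) (M := q * M₀) (N := N) (X := X) x z ha (by
      have h7 : (a : ℤ) * ((q * M₀ : ℕ) : ℤ) * x ≤ (a : ℤ) * ((q * M₀ : ℕ) : ℤ) * T₁ :=
        mul_le_mul_of_nonneg_left (by exact_mod_cast hx.le) (by positivity)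
      linarith)
    have h8 : (a : ℤ) * t - b * s + a * b * ((q * M₀ : ℕ) : ℤ) * ((z : ℤ) - x) =
        c₁ + (W : ℤ) * ((x₀ + q * (T₁ - 1 - x + z) : ℕ) : ℤ) := by
      have h9 : ((x₀ + q * (T₁ - 1 - x + z) : ℕ) : ℤ) = x₀ + q * ((T₁ : ℤ) - 1 - x + z) := by
        have : ((T₁ - 1 - x + z : ℕ) : ℤ) = (T₁ : ℤ) - 1 - x + z := by omega
        rw [Nat.cast_add, Nat.cast_mul, this]
      rw [h9, hst, hW]
      push_cast
      ring
    rw [h8] at h6
    exact_mod_cast h6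
  have hT2 : (0 : ℝ) < (T₁ : ℝ) ^ 2 := by positivity
  -- the conclusion from a large part
  have hfin : ∀ (b' : Bool) (E : Finset ℕ), E ⊆ Icc 1 w →
      (∀ x h : ℕ, x < T₁ → h ∈ E → (prw a b s t (q * M₀) N (b', x) (b', x + h) : ℝ) < k) →
      (27 / 50 : ℝ) * T₁ ≤ ((P b').card : ℝ) → (E.card : ℝ) ≤ ε * w := by
    intro b' E hE hE2 hb'
    have h3 : (((P b' ×ˢ P b').filter (fun p => ∃ h ∈ E, p.2 - p.1 = (h : ℤ))).card : ℝ) ≤
        ε₃ * (T₁ : ℝ) ^ 2 := by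
      refine hsmall b' b' _ ?_
      rintro x y hxT hyT ⟨t, ht, hxy⟩
      have hy' : y = x + t := by
        have : (y : ℤ) - (x : ℤ) = (t : ℤ) := hxy
        omega
      subst hy'
      have ht1 := (Finset.mem_Icc.1 (hE ht)).1
      refine ⟨?_, hE2 x t hxT ht⟩
      intro h
      have := congrArg Prod.snd h
      simp only at this
      omega
    have h4 := (FIN2.diffs (P b') (hPsub b') hb' (by omega) E hE).trans h3
    have h5 : (E.card : ℝ) ≤ 20 * ε₃ * T₁ := by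
      have h6 : (E.card : ℝ) * (T₁ / 20) ≤ (20 * ε₃ * T₁) * (T₁ / 20) := by
        refine h4.trans (le_of_eq ?_)
        ring
      exact le_of_mul_le_mul_right h6 (by positivity)
    have h6 : (T₁ : ℝ) ≤ 50 * w + 50 := by
      have : T₁ ≤ 50 * w + 50 := by omega
      exact_mod_cast this
    have h7 : (E.card : ℝ) ≤ ε * (T₁ / 200) := by
      refine h5.trans ?_
      nlinarith
    refine h7.trans ?_
    refine mul_le_mul_of_nonneg_left ?_ hε.le
    linarith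
  have hEf : ∀ x h : ℕ, x < T₁ → h ∈ D →
      (prw a b s t (q * M₀) N (false, x) (false, x + h) : ℝ) < k := by
    intro x h hx hh
    refine lt_of_le_of_lt ?_ (hD2 h hh)
    have h6 := prw_ff (a := a) (b := b) (s := s) (t := t) (M := q * M₀) (N := N) (X := Y) x h ha (by
      have h7 : (a : ℤ) * ((q * M₀ : ℕ) : ℤ) * x ≤ (a : ℤ) * ((q * M₀ : ℕ) : ℤ) * T₁ :=
        mul_le_mul_of_nonneg_left (by exact_mod_cast hx.le) (by positivity)
      linarith)
    exact_mod_cast h6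
  have hEt : ∀ x h : ℕ, x < T₁ → h ∈ D' →
      (prw a b s t (q * M₀) N (true, x) (true, x + h) : ℝ) < k := by
    intro x h hx hh
    refine lt_of_le_of_lt ?_ (hD2' h hh)
    have h6 := prw_tt (a := a) (b := b) (s := s) (t := t) (M := q * M₀) (N := N) (X := Y) x h hb (by
      have h7 : (b : ℤ) * ((q * M₀ : ℕ) : ℤ) * x ≤ (b : ℤ) * ((q * M₀ : ℕ) : ℤ) * T₁ :=
        mul_le_mul_of_nonneg_left (by exact_mod_cast hx.le) (by positivity)
      linarith)
    exact_mod_cast h6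
  by_cases hf : ε / 4 * T₁ ≤ ((P false).card : ℝ)
  · by_cases ht : ε / 4 * T₁ ≤ ((P true).card : ℝ)
    · exfalso
      have h3 := hcore R (P true) U ρ' hRsub (hPsub _) hUsub (by linarith) hU1 hU2
        (by rw [hRcard]; exact hf) ht
        (by
          rw [hRcard]
          refine le_trans ?_ hcard'
          refine mul_le_mul_of_nonneg_right ?_ hT₁0.le
          linarith)
      have h4 := h3.trans hUpairs
      have h5 : τ ≤ ε₃ := le_of_mul_le_mul_right h4 hT2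
      linarith
    · left
      refine hfin false D hD hEf ?_
      rw [not_le] at ht
      nlinarith
  · right
    refine hfin true D' hD' hEt ?_
    rw [not_le] at hf
    nlinarith

/-! ### residue classes -/

theorem adl_add {a b M₀ W : ℕ} (hW : W = a * b * M₀) (hMe : Even M₀) (c : ℤ) (t : ℤ) :
    Adl a b (c + (W : ℤ) * t) ↔ Adl a b c := by
  have e1 : c + (W : ℤ) * t = c + (a : ℤ) * (b * M₀ * t) := by rw [hW]; push_cast; ring
  have e2 : c + (W : ℤ) * t = c + (b : ℤ) * (a * M₀ * t) := by rw [hW]; push_cast; ring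
  unfold Adl
  have h1 : IsCoprime (c + (W : ℤ) * t) (a : ℤ) ↔ IsCoprime c (a : ℤ) := by
    rw [e1]
    exact IsCoprime.add_mul_left_left_iff
  have h2 : IsCoprime (c + (W : ℤ) * t) (b : ℤ) ↔ IsCoprime c (b : ℤ) := by
    rw [e2]
    exact IsCoprime.add_mul_left_left_iff
  have h3 : Even ((a : ℤ) * b * (c + (W : ℤ) * t)) ↔ Even ((a : ℤ) * b * c) := by
    have hWe : Even (W : ℤ) := by
      rw [hW]
      obtain ⟨m, hm⟩ := hMe
      exact ⟨(a : ℤ) * b * m, by rw [hm]; push_cast; ring⟩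
    rw [mul_add, Int.even_add]
    have h4 : Even ((a : ℤ) * b * ((W : ℤ) * t)) := (hWe.mul_right t).mul_left _
    constructor
    · intro h
      exact h.2 h4
    · intro h
      exact ⟨fun _ => h4, fun _ => h⟩
  rw [h1, h2, h3]

/-- the class of `i` -/
def len (T W i : ℕ) : ℕ := (T - 1 - i) / W + 1

open Classical in
theorem fib {a b M₀ W T i : ℕ} {u : ℤ} (hW : W = a * b * M₀) (hMe : Even M₀) (hW0 : 0 < W)
    (hi : i < W) (hWT : W ≤ T) (hAdl : Adl a b (u + 1 + i)) (bad : ℤ → Prop) :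
    (((Ioc u (u + T)).filter (fun c => Adl a b c ∧ bad c)).filter
      (fun c => ((c - u - 1) % W).toNat = i)).card =
    ((range (len T W i)).filter (fun t : ℕ => bad (u + 1 + i + (W : ℤ) * t))).card := by
  symm
  have hW0' : (0 : ℤ) < W := by exact_mod_cast hW0
  refine Finset.card_bij (fun t _ => u + 1 + i + (W : ℤ) * (t : ℤ)) ?_ ?_ ?_
  · intro t ht
    obtain ⟨h1, h2⟩ := Finset.mem_filter.1 ht
    rw [Finset.mem_range] at h1
    have h3 : t ≤ (T - 1 - i) / W := Nat.lt_succ_iff.1 h1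
    have h4 : t * W ≤ T - 1 - i := (Nat.le_div_iff_mul_le hW0).1 h3
    have h5 : (W : ℤ) * t ≤ T - 1 - i := by
      have : ((t * W : ℕ) : ℤ) ≤ ((T - 1 - i : ℕ) : ℤ) := by exact_mod_cast h4
      push_cast at this
      have h6 : ((T - 1 - i : ℕ) : ℤ) = (T : ℤ) - 1 - i := by omega
      rw [h6] at this
      linarith
    have h7 : 0 ≤ (W : ℤ) * t := by positivity
    refine Finset.mem_filter.2 ⟨Finset.mem_filter.2 ⟨Finset.mem_Ioc.2 ⟨by linarith, by linarith⟩,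
      (adl_add hW hMe _ _).2 hAdl, h2⟩, ?_⟩
    have h8 : u + 1 + (i : ℤ) + W * t - u - 1 = i + W * t := by ring
    rw [h8, Int.add_mul_emod_self_left, Int.emod_eq_of_lt (by positivity) (by exact_mod_cast hi)]
    exact Int.toNat_natCast i
  · intro t _ t' _ h
    have h1 : (W : ℤ) * t = W * t' := by linarith
    have h2 := mul_left_cancel₀ hW0'.ne' h1
    exact_mod_cast h2
  · intro c hc
    obtain ⟨h1, h2⟩ := Finset.mem_filter.1 hc
    obtain ⟨h3, h4, h5⟩ := Finset.mem_filter.1 h1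
    rw [Finset.mem_Ioc] at h3
    have h6 : 0 ≤ (c - u - 1) % W := Int.emod_nonneg _ hW0'.ne'
    have h7 : (c - u - 1) % W = i := by omega
    have h8 : 0 ≤ (c - u - 1) / W := Int.ediv_nonneg (by omega) hW0'.le
    have h9 := Int.mul_ediv_add_emod (c - u - 1) W
    rw [h7] at h9
    obtain ⟨t, ht⟩ := Int.eq_ofNat_of_zero_le h8
    rw [ht] at h9
    have h10 : u + 1 + i + (W : ℤ) * t = c := by linarith
    refine ⟨t, Finset.mem_filter.2 ⟨Finset.mem_range.2 ?_, by rw [h10]; exact h5⟩, h10⟩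
    refine Nat.lt_succ_iff.2 ((Nat.le_div_iff_mul_le hW0).2 ?_)
    have h11 : ((t * W : ℕ) : ℤ) ≤ ((T - 1 - i : ℕ) : ℤ) := by
      have h12 : ((T - 1 - i : ℕ) : ℤ) = (T : ℤ) - 1 - i := by omega
      rw [h12]
      push_cast
      linarith
    exact_mod_cast h11

open Classical in
/-- the pigeonhole principle -/
theorem pigeon {a b M₀ W T : ℕ} {u : ℤ} (hW : W = a * b * M₀) (hMe : Even M₀) (hW0 : 0 < W)
    (hWT : W ≤ T) (bad : ℤ → Prop) (ρ : ℝ)
    (hx : ρ * (((Ioc u (u + T)).filter (fun c => Adl a b c)).card : ℝ) <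
      (((Ioc u (u + T)).filter (fun c => Adl a b c ∧ bad c)).card : ℝ)) :
    ∃ i < W, Adl a b (u + 1 + i) ∧ ρ * (len T W i : ℝ) <
      (((range (len T W i)).filter (fun t : ℕ => bad (u + 1 + i + (W : ℤ) * t))).card : ℝ) := by
  by_contra hcon
  push Not at hcon
  obtain ⟨J, hJ⟩ : ∃ J : Finset ℕ, J = (range W).filter (fun i : ℕ => Adl a b (u + 1 + (i : ℤ))) :=
    ⟨_, rfl⟩
  have hW0' : (0 : ℤ) < W := by exact_mod_cast hW0
  have key : ∀ bad' : ℤ → Prop, ((Ioc u (u + T)).filter (fun c => Adl a b c ∧ bad' c)).card =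
      ∑ i ∈ J, ((range (len T W i)).filter (fun t : ℕ => bad' (u + 1 + i + (W : ℤ) * t))).card := by
    intro bad'
    rw [Finset.card_eq_sum_card_fiberwise (f := fun c : ℤ => ((c - u - 1) % W).toNat) (t := J)]
    · refine Finset.sum_congr rfl fun i hi => ?_
      rw [hJ, Finset.mem_filter, Finset.mem_range] at hi
      exact fib hW hMe hW0 hi.1 hWT hi.2 bad'
    · intro c hc
      obtain ⟨h3, h4, h5⟩ := Finset.mem_filter.1 (Finset.mem_coe.1 hc)
      have h6 : 0 ≤ (c - u - 1) % W := Int.emod_nonneg _ hW0'.ne'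
      have h7 : (c - u - 1) % W < W := Int.emod_lt_of_pos _ hW0'
      rw [Finset.mem_coe, hJ, Finset.mem_filter, Finset.mem_range]
      refine ⟨?_, ?_⟩
      · show ((c - u - 1) % W).toNat < W
        omega
      · have h9 := Int.mul_ediv_add_emod (c - u - 1) W
        have h10 : (((c - u - 1) % W).toNat : ℤ) = (c - u - 1) % W := Int.toNat_of_nonneg h6
        show Adl a b (u + 1 + (((c - u - 1) % W).toNat : ℤ))
        rw [h10, ← adl_add hW hMe _ ((c - u - 1) / W)]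
        have h11 : u + 1 + (c - u - 1) % W + W * ((c - u - 1) / W) = c := by linarith
        rw [h11]
        exact h4
  have k1 := key bad
  have k2 := key (fun _ => True)
  simp only [and_true, Finset.filter_true, Finset.card_range] at k2
  rw [k1, k2] at hx
  push_cast at hx
  rw [Finset.mul_sum] at hx
  refine absurd hx (not_lt.2 (Finset.sum_le_sum fun i hi => ?_))
  rw [hJ, Finset.mem_filter, Finset.mem_range] at hi
  exact hcon i hi.1 hi.2

theorem exists_st {a b : ℕ} (hb : 1 ≤ b) (hab : Nat.Coprime a b) (c : ℤ) :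
    ∃ s t : ℤ, (a : ℤ) * t - b * s = c ∧ 0 ≤ t ∧ t < b := by
  obtain ⟨m, n, h⟩ := Nat.isCoprime_iff_coprime.2 hab
  have hb' : (0 : ℤ) < b := by exact_mod_cast hb
  have h1 := Int.mul_ediv_add_emod (c * m) b
  refine ⟨-(c * n + a * ((c * m) / b)), (c * m) % b, ?_, Int.emod_nonneg _ hb'.ne',
    Int.emod_lt_of_pos _ hb'⟩
  have h2 : (c * m) % b = c * m - b * ((c * m) / b) := by linarith
  rw [h2]
  linear_combination c * h

theorem cmp {κ' : ℝ} (hκ : 0 < κ') {x : ℕ} (hx : 1000 ≤ x) :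
    Real.log ((100 * x : ℕ) : ℝ) ≤ 2 * Real.log x ∧
    κ' * (x / (Real.log x) ^ 2) ≤ κ' * (((100 * x : ℕ) : ℝ) / (Real.log ((100 * x : ℕ) : ℝ)) ^ 2) := by
  have hxr : (1000 : ℝ) ≤ x := by exact_mod_cast hx
  have hl : 0 < Real.log x := Real.log_pos (by linarith)
  have e : ((100 * x : ℕ) : ℝ) = 100 * x := by push_cast; ring
  rw [e]
  have h1 : Real.log (100 * (x : ℝ)) ≤ 2 * Real.log x := by
    have h2 : Real.log (100 * (x : ℝ)) ≤ Real.log ((x : ℝ) ^ 2) :=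
      Real.log_le_log (by positivity) (by nlinarith)
    rw [Real.log_pow] at h2
    push_cast at h2
    exact h2
  have h0 : 0 < Real.log (100 * (x : ℝ)) := Real.log_pos (by linarith)
  refine ⟨h1, mul_le_mul_of_nonneg_left ?_ hκ.le⟩
  rw [div_le_div_iff₀ (by positivity) (by positivity)]
  have h3 : Real.log (100 * (x : ℝ)) ^ 2 ≤ (2 * Real.log x) ^ 2 :=
    pow_le_pow_left₀ h0.le h1 2
  have h4 : 0 ≤ (x : ℝ) * Real.log x ^ 2 := by positivity
  nlinarith [mul_le_mul_of_nonneg_left h3 (by positivity : (0 : ℝ) ≤ x)]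

open Classical in
/-- the theorem for small `ε` -/
theorem main (a b : ℕ) (ha : 1 ≤ a) (hb : 1 ≤ b) (hab : Nat.Coprime a b) (hne : a ≠ b)
    (ε : ℝ) (hε : 0 < ε) (hε1 : ε ≤ 1 / 100) (hCLQ : S_CLQ4) (hINC : S_INC) (hCORE : S_CORE2) :
    ∃ (Q : ℕ) (c₀ : ℝ), 0 < c₀ ∧ ∀ lam : ℝ, 0 < lam → ∃ κ : ℝ, 0 < κ ∧
    ∀ᶠ x : ℕ in atTop, ∀ T : ℕ, lam * Real.log x ≤ T → 1000 * T ≤ x →
    (∀ u : ℤ, |u| ≤ x →
      (((Ioc u (u + T)).filter (fun c : ℤ => Adl a b c ∧
        (sols a b c (100 * a * x) : ℝ) < κ * (x / (Real.log x) ^ 2))).card : ℝ) ≤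
      (4 / 9 + ε) * (((Ioc u (u + T)).filter (fun c : ℤ => Adl a b c)).card : ℝ)) ∨
    ∃ q X : ℕ, 1 ≤ q ∧ q ≤ Q ∧ c₀ * T ≤ (X : ℝ) ∧ X ≤ T ∧
      (((Icc 1 X).filter (fun h => q ∣ h ∧
        (pairs h (100 * (a + b) * x) : ℝ) < κ * (x / (Real.log x) ^ 2))).card : ℝ) ≤
          ε * (X / q) := by
  obtain ⟨Z, T₀, cc, τ, hZ, hcc, hcc1, hτ, hcore⟩ := hCORE (ε / 4) (by positivity) (by linarith)
  obtain ⟨Q, c', hc', hinc⟩ := hINC (τ / 2) (cc / 3) Z (by positivity) (by positivity)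
    (by linarith) hZ
  obtain ⟨M₀, hM, hMe, hclq⟩ := hCLQ a b ha hb hab hne (min (τ / 2) (ε / 4000))
    (lt_min (by positivity) (by positivity))
  obtain ⟨W, hW⟩ : ∃ W, W = a * b * M₀ := ⟨_, rfl⟩
  have hW0 : 0 < W := by rw [hW]; exact Nat.mul_pos (Nat.mul_pos ha hb) hM
  have hWr : (0 : ℝ) < W := by exact_mod_cast hW0
  refine ⟨(a + b) * (Q * M₀), c' / (600 * W), by positivity, fun lam hlam => ?_⟩
  obtain ⟨κ', hκ', hev⟩ := hclq Q (lam * c' / (12 * W)) (by positivity)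
  refine ⟨κ', hκ', ?_⟩
  have htend : Tendsto (fun x : ℕ => 100 * x) atTop atTop :=
    tendsto_atTop_mono (fun x => show x ≤ 100 * x by omega) tendsto_id
  have hlog : Tendsto (fun x : ℕ => lam * Real.log x) atTop atTop :=
    (Real.tendsto_log_atTop.comp tendsto_natCast_atTop_atTop).const_mul_atTop hlam
  filter_upwards [htend.eventually hev, hlog.eventually_ge_atTop (2 * (W : ℝ)),
    hlog.eventually_ge_atTop ((6 * W) * (T₀ + 100 + 1 / (2 * τ)) / c'),
    eventually_ge_atTop 1000, eventually_ge_atTop (2 * a + 2 * b)]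
    with x hx1 hx2 hx3 hx4 hx5 T hT1 hT2
  by_cases halt : (∀ u : ℤ, |u| ≤ x →
      (((Ioc u (u + T)).filter (fun c : ℤ => Adl a b c ∧
        (sols a b c (100 * a * x) : ℝ) < κ' * (x / (Real.log x) ^ 2))).card : ℝ) ≤
      (4 / 9 + ε) * (((Ioc u (u + T)).filter (fun c : ℤ => Adl a b c)).card : ℝ))
  · exact Or.inl halt
  right
  push Not at halt
  obtain ⟨u, hu, hcount⟩ := halt
  obtain ⟨hlog2, hcmp⟩ := cmp hκ' hx4
  have hTW : 2 * W ≤ T := by exact_mod_cast hx2.trans hT1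
  have hTb : (6 * W) * (T₀ + 100 + 1 / (2 * τ)) / c' ≤ (T : ℝ) := hx3.trans hT1
  obtain ⟨i, hi, hadl, hcl⟩ := pigeon hW hMe hW0 (by omega)
    (fun c : ℤ => (sols a b c (100 * a * x) : ℝ) < κ' * (x / (Real.log x) ^ 2)) (4 / 9 + ε) hcount
  obtain ⟨c₁, hc₁⟩ : ∃ c₁ : ℤ, c₁ = u + 1 + i := ⟨_, rfl⟩
  rw [← hc₁] at hadl hcl
  obtain ⟨L, hL⟩ : ∃ L, L = len T W i := ⟨_, rfl⟩
  rw [← hL] at hcl
  have hLdef : L = (T - 1 - i) / W + 1 := hL
  have hL1 : T - 1 - i < L * W := by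
    have := Nat.lt_mul_div_succ (T - 1 - i) hW0
    rw [hLdef, mul_comm]
    exact this
  have hL2 : (T : ℝ) / (2 * W) ≤ L := by
    rw [div_le_iff₀ (by positivity)]
    have h3 : T ≤ 2 * (L * W) := by omega
    have h4 : (T : ℝ) ≤ 2 * (L * W) := by exact_mod_cast h3
    linarith
  have hL3 : (L - 1) * W ≤ T - 1 - i := by
    have h3 : L - 1 = (T - 1 - i) / W := by rw [hLdef, Nat.add_sub_cancel]
    rw [h3]
    exact Nat.div_mul_le_self _ _
  obtain ⟨B, hBdef⟩ : ∃ B : ℕ → Prop, B = fun t : ℕ =>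
    (sols a b (c₁ + (W : ℤ) * t) (100 * a * x) : ℝ) < κ' * (x / (Real.log x) ^ 2) := ⟨_, rfl⟩
  obtain ⟨q, x₀, H, ρ', hq, hqQ, hHL, hin, hρ, hH, hH2⟩ :=
    hinc L B (4 / 9 + ε) (by rw [hBdef]; exact hcl.le)
  obtain ⟨T₁, hT₁⟩ : ∃ T₁, T₁ = H / 2 := ⟨_, rfl⟩
  have h1τ : 0 < 1 / (2 * τ) := by positivity
  have hTb' : T₀ + 100 + 1 / (2 * τ) ≤ c' * (T / (2 * W)) / 3 := by
    rw [div_le_iff₀ hc'] at hTb
    rw [le_div_iff₀ (by norm_num : (0 : ℝ) < 3), mul_div_assoc', le_div_iff₀ (by positivity)]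
    linarith
  have hHb : c' * (T / (2 * W)) ≤ H := (mul_le_mul_of_nonneg_left hL2 hc'.le).trans hHL
  have hH300 : (3 : ℝ) * (T₀ + 100 + 1 / (2 * τ)) ≤ H := by linarith
  have hT₀r : (0 : ℝ) ≤ T₀ := by positivity
  have hH2' : 2 ≤ H := by
    have : (2 : ℝ) ≤ H := by linarith
    exact_mod_cast this
  have hH3 : (H : ℝ) ≤ 3 * T₁ := by
    have : H ≤ 3 * T₁ := by omega
    exact_mod_cast this
  have hT₁b : T₀ + 100 + 1 / (2 * τ) ≤ (T₁ : ℝ) := by linarith
  have hT₁0 : T₀ ≤ T₁ := by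
    have : (T₀ : ℝ) ≤ T₁ := by linarith
    exact_mod_cast this
  have hT₁100 : 100 ≤ T₁ := by
    have : (100 : ℝ) ≤ T₁ := by linarith
    exact_mod_cast this
  have hT₁τ : 1 ≤ 2 * τ * T₁ := by
    have h3 : 1 / (2 * τ) ≤ (T₁ : ℝ) := by linarith
    rw [div_le_iff₀ (by positivity)] at h3
    linarith
  have hqT : x₀ + q * T₁ < L := hin T₁ (by omega)
  have hWqT : (x₀ + q * T₁) * W ≤ T - 1 - i :=
    (Nat.mul_le_mul_right W (by omega : x₀ + q * T₁ ≤ L - 1)).trans hL3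
  have hlamT : lam * c' / (12 * W) * Real.log ((100 * x : ℕ) : ℝ) ≤ (T₁ : ℝ) := by
    have h3 : lam * Real.log ((100 * x : ℕ) : ℝ) ≤ 2 * T := by
      have := mul_le_mul_of_nonneg_left hlog2 hlam.le
      linarith
    have h4 : lam * c' / (12 * W) * Real.log ((100 * x : ℕ) : ℝ) =
      c' / (12 * W) * (lam * Real.log ((100 * x : ℕ) : ℝ)) := by ring
    rw [h4]
    have h5 : c' / (12 * W) * (lam * Real.log ((100 * x : ℕ) : ℝ)) ≤ c' / (12 * W) * (2 * T) :=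
      mul_le_mul_of_nonneg_left h3 (by positivity)
    have h6 : c' / (12 * W) * (2 * T) = c' * (T / (2 * W)) / 3 := by
      field_simp
      ring
    linarith
  -- the element `c*`
  obtain ⟨cs, hcs⟩ : ∃ cs : ℤ, cs = c₁ + W * x₀ + W * q * ((T₁ : ℤ) - 1) := ⟨_, rfl⟩
  have hWx : (W : ℤ) * x₀ + W * (q * T₁) ≤ (T : ℤ) - 1 - i := by
    have h3 : (((x₀ + q * T₁) * W : ℕ) : ℤ) ≤ ((T - 1 - i : ℕ) : ℤ) := by exact_mod_cast hWqT
    have h4 : ((T - 1 - i : ℕ) : ℤ) = (T : ℤ) - 1 - i := by omega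
    rw [h4] at h3
    push_cast at h3
    linarith
  have hWq0 : 0 ≤ (W : ℤ) * q * ((T₁ : ℤ) - 1) := by
    have : (0 : ℤ) ≤ (T₁ : ℤ) - 1 := by omega
    positivity
  have hWq1 : (W : ℤ) * q * ((T₁ : ℤ) - 1) ≤ W * (q * T₁) := by
    have h3 : (0 : ℤ) ≤ (W : ℤ) * q := by positivity
    have h4 : (W : ℤ) * q * ((T₁ : ℤ) - 1) = W * (q * T₁) - W * q := by ring
    rw [h4]
    linarith
  have hWx0 : 0 ≤ (W : ℤ) * x₀ := by positivity
  have hcsA : Adl a b cs := by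
    have h3 : cs = c₁ + (W : ℤ) * (x₀ + q * ((T₁ : ℤ) - 1)) := by rw [hcs]; ring
    rw [h3]
    exact (adl_add hW hMe _ _).2 hadl
  have hcsabs : |cs| ≤ x + T := by
    have h3 := abs_le.1 hu
    rw [abs_le]
    constructor
    · rw [hcs, hc₁]
      have : (0 : ℤ) ≤ T := by positivity
      have : (0 : ℤ) ≤ i := by positivity
      linarith [h3.1]
    · rw [hcs, hc₁]
      linarith [h3.2]
  obtain ⟨s, t, hst, ht0, htb⟩ := exists_st hb hab cs
  have hbz : (1 : ℤ) ≤ b := by exact_mod_cast hb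
  have haz : (1 : ℤ) ≤ a := by exact_mod_cast ha
  have hs : |s| ≤ a + x + T := by
    have h3 : (b : ℤ) * |s| ≤ b * (a + x + T) := by
      have h4 : (b : ℤ) * |s| = |(b : ℤ) * s| := by
        rw [abs_mul, abs_of_nonneg (by linarith : (0 : ℤ) ≤ b)]
      have h5 : (b : ℤ) * s = a * t - cs := by linarith
      have h6 : |(a : ℤ) * t - cs| ≤ |(a : ℤ) * t| + |cs| := abs_sub _ _
      have h7 : |(a : ℤ) * t| ≤ a * b := by
        rw [abs_of_nonneg (by positivity)]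
        exact mul_le_mul_of_nonneg_left htb.le (by linarith)
      rw [h4, h5]
      have h8 : (0 : ℤ) ≤ (b - 1) * ((x : ℤ) + T) := by
        have : (0 : ℤ) ≤ (b : ℤ) - 1 := by linarith
        positivity
      linarith
    exact le_of_mul_le_mul_left h3 (by linarith)
  have hLc : Lc a b s t (100 * x) := by
    refine ⟨?_, ?_, ?_, ?_, ?_⟩
    · have h3 : IsCoprime (-((b : ℤ) * s) + (a : ℤ) * t) (a : ℤ) := by
        have : -((b : ℤ) * s) + (a : ℤ) * t = cs := by linarith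
        rw [this]
        exact hcsA.1
      have h4 := IsCoprime.add_mul_left_left_iff.1 h3
      rw [IsCoprime.neg_left_iff] at h4
      exact h4.of_mul_left_right
    · have h3 : IsCoprime ((a : ℤ) * t + (b : ℤ) * (-s)) (b : ℤ) := by
        have : (a : ℤ) * t + (b : ℤ) * (-s) = cs := by linarith
        rw [this]
        exact hcsA.2.1
      exact (IsCoprime.add_mul_left_left_iff.1 h3).of_mul_left_right
    · rw [hst]
      exact hcsA.2.2
    · push_cast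
      omega
    · rw [abs_of_nonneg ht0]
      push_cast
      omega
  have habn : a + b ≤ 2 * (a * b) := by
    have h3 : a ≤ a * b := Nat.le_mul_of_pos_right a hb
    have h4 : b ≤ a * b := Nat.le_mul_of_pos_left b ha
    linarith
  have hWqn : W * (q * T₁) ≤ T := by
    have h3 : W * (q * T₁) ≤ (x₀ + q * T₁) * W := by
      rw [mul_comm]
      exact Nat.mul_le_mul_right W (Nat.le_add_left _ _)
    omega
  have hsize : (a + b) * ((q * M₀) * T₁) ≤ 2 * T := by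
    calc (a + b) * ((q * M₀) * T₁) ≤ (2 * (a * b)) * ((q * M₀) * T₁) := Nat.mul_le_mul_right _ habn
      _ = 2 * (W * (q * T₁)) := by rw [hW]; ring
      _ ≤ 2 * T := by omega
  have hclq' := hx1 q T₁ s t hq hqQ hlamT hLc (by
    calc 100 * (a + b) * ((q * M₀) * T₁) = 100 * ((a + b) * ((q * M₀) * T₁)) := by ring
      _ ≤ 100 * (2 * T) := Nat.mul_le_mul_left _ hsize
      _ ≤ 100 * x := by omega)
  -- sizes
  have hN9 : ((5 * (100 * x) / 9 : ℕ) : ℤ) ≤ 56 * x := by omega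
  have hxz : (1000 : ℤ) ≤ x := by exact_mod_cast hx4
  have hax : (2 : ℤ) * a + 2 * b ≤ x := by exact_mod_cast hx5
  have hTx : (1000 : ℤ) * T ≤ x := by exact_mod_cast hT2
  have hsle : s ≤ a + x + T := (le_abs_self s).trans hs
  have hsz : ((a : ℤ) + b) * (((q * M₀ : ℕ) : ℤ) * T₁) ≤ 2 * T := by exact_mod_cast hsize
  have hqMT : 0 ≤ ((q * M₀ : ℕ) : ℤ) * T₁ := by positivity
  have hx0 : (0 : ℤ) ≤ x := by linarith
  have haxx : (x : ℤ) ≤ a * x := le_mul_of_one_le_left hx0 haz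
  have hbxx : (x : ℤ) ≤ b * x := le_mul_of_one_le_left hx0 hbz
  have hax0 : 0 ≤ (a : ℤ) * (((q * M₀ : ℕ) : ℤ) * T₁) := by positivity
  have hbx0 : 0 ≤ (b : ℤ) * (((q * M₀ : ℕ) : ℤ) * T₁) := by positivity
  have g1 : (a : ℤ) * ((5 * (100 * x) / 9 : ℕ) : ℤ) + s + a * ((q * M₀ : ℕ) : ℤ) * T₁ ≤
      ((100 * a * x : ℕ) : ℤ) := by
    have h3 : (a : ℤ) * ((5 * (100 * x) / 9 : ℕ) : ℤ) ≤ a * (56 * x) :=
      mul_le_mul_of_nonneg_left hN9 (by linarith)
    have h4 : (a : ℤ) * (((q * M₀ : ℕ) : ℤ) * T₁) ≤ 2 * T := by linarith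
    push_cast at h3 h4 ⊢
    linarith
  have g2 : (a : ℤ) * ((5 * (100 * x) / 9 : ℕ) : ℤ) + s + a * ((q * M₀ : ℕ) : ℤ) * T₁ ≤
      ((100 * (a + b) * x : ℕ) : ℤ) := by
    refine g1.trans ?_
    have : 100 * a * x ≤ 100 * (a + b) * x := Nat.mul_le_mul_right x (by omega)
    exact_mod_cast this
  have g3 : (b : ℤ) * ((5 * (100 * x) / 9 : ℕ) : ℤ) + t + b * ((q * M₀ : ℕ) : ℤ) * T₁ ≤
      ((100 * (a + b) * x : ℕ) : ℤ) := by
    have h3 : (b : ℤ) * ((5 * (100 * x) / 9 : ℕ) : ℤ) ≤ b * (56 * x) :=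
      mul_le_mul_of_nonneg_left hN9 (by linarith)
    have h4 : (b : ℤ) * (((q * M₀ : ℕ) : ℤ) * T₁) ≤ 2 * T := by linarith
    have h5 : (0 : ℤ) ≤ a * x := by positivity
    push_cast at h3 h4 ⊢
    linarith
  obtain ⟨w, hw⟩ : ∃ w, w = T₁ / 50 := ⟨_, rfl⟩
  have hstep := step (a := a) (b := b) (M₀ := M₀) (W := W) (N := 100 * x) (Z := Z) (w := w)
    (X := 100 * a * x) (Y := 100 * (a + b) * x) (c₁ := c₁) (s := s) (t := t) B ha hb hW
    (fun r hr => by
      rw [hBdef] at hr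
      exact lt_of_lt_of_le hr hcmp)
    hε hε1 (min_le_left _ _) (min_le_right _ _) hτ hcc hT₁ hT₁100 hT₁τ hρ hH hH2
    (hst.trans hcs) hclq' (hcore T₁ hT₁0)
    ((Icc 1 w).filter (fun h => (pairs (a * (q * M₀) * h) (100 * (a + b) * x) : ℝ) <
      κ' * (x / (Real.log x) ^ 2)))
    ((Icc 1 w).filter (fun h => (pairs (b * (q * M₀) * h) (100 * (a + b) * x) : ℝ) <
      κ' * (x / (Real.log x) ^ 2))) hw (Finset.filter_subset _ _) (Finset.filter_subset _ _)
    (fun h hh => (Finset.mem_filter.1 hh).2.trans_le hcmp)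
    (fun h hh => (Finset.mem_filter.1 hh).2.trans_le hcmp) g1 g2 g3
  have hfinal : ∀ q₂ : ℕ, 1 ≤ q₂ → q₂ ≤ (a + b) * (Q * M₀) → q₂ * w ≤ T →
      (((Icc 1 w).filter (fun h => (pairs (q₂ * h) (100 * (a + b) * x) : ℝ) <
        κ' * (x / (Real.log x) ^ 2))).card : ℝ) ≤ ε * w →
      ∃ q X : ℕ, 1 ≤ q ∧ q ≤ (a + b) * (Q * M₀) ∧ c' / (600 * W) * T ≤ (X : ℝ) ∧ X ≤ T ∧
      (((Icc 1 X).filter (fun h => q ∣ h ∧
        (pairs h (100 * (a + b) * x) : ℝ) < κ' * (x / (Real.log x) ^ 2))).card : ℝ) ≤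
          ε * (X / q) := by
    intro q₂ h1 h2 h3 h4
    refine ⟨q₂, q₂ * w, h1, h2, ?_, h3, ?_⟩
    · have h5 : (T₁ : ℝ) ≤ 100 * w := by
        have : T₁ ≤ 100 * w := by omega
        exact_mod_cast this
      have h6 : c' / (600 * W) * T = c' * (T / (2 * W)) / 300 := by
        field_simp
        ring
      rw [h6]
      have h7 : (w : ℝ) ≤ ((q₂ * w : ℕ) : ℝ) := by
        have : w ≤ q₂ * w := Nat.le_mul_of_pos_left w h1
        exact_mod_cast this
      linarith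
    · rw [FIN2.mult_card h1]
      refine h4.trans (le_of_eq ?_)
      have h5 : (q₂ : ℝ) ≠ 0 := by
        have : q₂ ≠ 0 := by omega
        exact_mod_cast this
      rw [Nat.cast_mul q₂ w, mul_div_cancel_left₀ _ h5]
  have hqM : 1 ≤ q * M₀ := Nat.mul_pos hq hM
  have hwT : w ≤ T₁ := by omega
  rcases hstep with h | h
  · refine hfinal (a * (q * M₀)) (Nat.mul_pos ha hqM) ?_ ?_ h
    · exact Nat.mul_le_mul (by omega) (Nat.mul_le_mul_right M₀ hqQ)
    · calc a * (q * M₀) * w ≤ a * (q * M₀) * (b * T₁) :=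
            Nat.mul_le_mul_left _ (hwT.trans (Nat.le_mul_of_pos_left T₁ hb))
        _ = W * (q * T₁) := by rw [hW]; ring
        _ ≤ T := hWqn
  · refine hfinal (b * (q * M₀)) (Nat.mul_pos hb hqM) ?_ ?_ h
    · exact Nat.mul_le_mul (by omega) (Nat.mul_le_mul_right M₀ hqQ)
    · calc b * (q * M₀) * w ≤ b * (q * M₀) * (a * T₁) :=
            Nat.mul_le_mul_left _ (hwT.trans (Nat.le_mul_of_pos_left T₁ ha))
        _ = W * (q * T₁) := by rw [hW]; ring
        _ ≤ T := hWqn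

end FIN3

open Classical in
theorem t_FIN3 : S_CLQ4 → S_INC → S_CORE2 → S_FIN3 := by
  intro hCLQ hINC hCORE a b ha hb hab hne ε hε
  obtain ⟨Q, c₀, hc₀, h⟩ := FIN3.main a b ha hb hab hne (min ε (1 / 100))
    (lt_min hε (by norm_num)) (min_le_right _ _) hCLQ hINC hCORE
  refine ⟨Q, c₀, hc₀, fun lam hlam => ?_⟩
  obtain ⟨κ, hκ, hev⟩ := h lam hlam
  refine ⟨κ, hκ, ?_⟩
  filter_upwards [hev] with x hx T hT1 hT2
  rcases hx T hT1 hT2 with h1 | ⟨q, X, h1, h2, h3, h4, h5⟩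
  · left
    intro u hu
    refine (h1 u hu).trans ?_
    refine mul_le_mul_of_nonneg_right ?_ (by positivity)
    have := min_le_left ε (1 / 100)
    linarith
  · right
    refine ⟨q, X, h1, h2, h3, h4, h5.trans ?_⟩
    refine mul_le_mul_of_nonneg_right (min_le_left _ _) (by positivity)

end Pool.Agent.N679.RG
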