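import Mathlib
import Pool.Agent.N679.RG.HIT2
import Pool.Agent.N679.RG.Stm3

/-! Project RL, part HIT3: one configuration of forms `a n + s + a M v`, `b n + t + b M v`
(after HIT4 by helper394 and HIT2 by helper617). -/

set_option autoImplicit false

namespace Pool.Agent.N679.RG.HIT3

open Finset Filter Topology
open Pool.Agent.Y827.GS
open Pool.Agent.N646.RO (Rgh)
open Pool.Agent.N679.RG.HIT2 (Rs1 lamR1 fib_le)

/-- the linear forms -/
def fm (a b : ℕ) (s t : ℤ) (M₀ y : ℕ) (u : Bool × ℕ) : ℤ × ℤ :=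
  if u.1 then ((b : ℤ), t + b * y + b * M₀ * u.2) else ((a : ℤ), s + a * y + a * M₀ * u.2)

theorem fm_val (a b : ℕ) (s t : ℤ) (M₀ y n : ℕ) (u : Bool × ℕ) :
    (fm a b s t M₀ y u).1 * (n : ℤ) + (fm a b s t M₀ y u).2 = fw a b s t M₀ (n + y) u := by
  obtain ⟨c, v⟩ := u
  cases c <;> simp [fm, fw] <;> ring

theorem fm_inj (a b : ℕ) (s t : ℤ) (M₀ y : ℕ) (ha : 1 ≤ a) (hb : 1 ≤ b) (hM : 1 ≤ M₀) (hab : a ≠ b) :
    Function.Injective (fm a b s t M₀ y) := by
  have hM0 : (M₀ : ℤ) ≠ 0 := by exact_mod_cast (by omega : M₀ ≠ 0)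
  have ha0 : (a : ℤ) ≠ 0 := by exact_mod_cast (by omega : a ≠ 0)
  have hb0 : (b : ℤ) ≠ 0 := by exact_mod_cast (by omega : b ≠ 0)
  rintro ⟨c, v⟩ ⟨c', v'⟩ h
  cases c <;> cases c'
  · simp only [fm, Bool.false_eq_true, if_false, Prod.mk.injEq, true_and, add_right_inj] at h
    have h2 : (v : ℤ) = v' := mul_left_cancel₀ (mul_ne_zero ha0 hM0) h
    have h3 : v = v' := by exact_mod_cast h2
    rw [h3]
  · simp only [fm, Bool.false_eq_true, if_false, if_true, Prod.mk.injEq] at h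
    exact absurd (by exact_mod_cast h.1) hab
  · simp only [fm, Bool.false_eq_true, if_false, if_true, Prod.mk.injEq] at h
    exact absurd (by exact_mod_cast h.1.symm) hab
  · simp only [fm, if_true, Prod.mk.injEq, true_and, add_right_inj] at h
    have h2 : (v : ℤ) = v' := mul_left_cancel₀ (mul_ne_zero hb0 hM0) h
    have h3 : v = v' := by exact_mod_cast h2
    rw [h3]

theorem adf_one (a A N y : ℕ) (s z : ℤ) (ha : 1 ≤ a) (haA : a ≤ A) (hs : 50 * |s| ≤ N)
    (hyN : 100 * (a * y) ≤ N) (hco : IsCoprime s (a : ℤ)) (hz : 0 ≤ z) (hzN : 100 * (a * z) ≤ N) :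
    Adf A N ((a : ℤ), s + a * y + a * z) := by
  have hN0 : (0 : ℤ) ≤ N := Int.natCast_nonneg N
  have hay0 : (0 : ℤ) ≤ (a : ℤ) * y := by positivity
  have haz0 : (0 : ℤ) ≤ (a : ℤ) * z := by positivity
  have hy' : (100 : ℤ) * ((a : ℤ) * y) ≤ N := by exact_mod_cast hyN
  have ha1 : (1 : ℤ) ≤ a := by exact_mod_cast ha
  have hs1 := neg_abs_le s
  have hs2 := le_abs_self s
  refine ⟨by show (a : ℤ) ≠ 0; omega, ?_, ?_, ?_, ?_⟩
  · show |(a : ℤ)| ≤ (A : ℤ)
    rw [abs_of_nonneg (by omega)]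
    exact_mod_cast haA
  · show |s + a * y + a * z| ≤ (N : ℤ)
    rw [abs_le]
    constructor <;> omega
  · show IsCoprime (a : ℤ) (s + a * y + a * z)
    have h1 : s + a * y + a * z = s + a * (y + z) := by ring
    rw [h1]
    exact IsCoprime.add_mul_left_right hco.symm _
  · intro x hx1 hx2
    have h1 : -(N : ℤ) ≤ 50 * s := by omega
    have h2 : (-(N : ℝ)) ≤ 50 * s := by exact_mod_cast h1
    have h3 : (0 : ℝ) ≤ (a : ℝ) * z := by exact_mod_cast haz0
    have h4 : (0 : ℝ) ≤ (a : ℝ) * y := by exact_mod_cast hay0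
    have h5 : (0 : ℝ) ≤ N := by exact_mod_cast hN0
    have h6 : (1 : ℝ) ≤ a := by exact_mod_cast ha1
    have h7 : 0 ≤ x := le_trans (by positivity) hx1
    have h8 : x ≤ (a : ℝ) * x := le_mul_of_one_le_left h7 h6
    push_cast
    linarith

theorem fm_adf (a b : ℕ) (s t : ℤ) (M₀ y N : ℕ) (ha : 1 ≤ a) (hb : 1 ≤ b)
    (hsa : IsCoprime s (a : ℤ)) (htb : IsCoprime t (b : ℤ)) (hs : 50 * |s| ≤ N) (ht : 50 * |t| ≤ N)
    (hyN : 100 * ((a + b) * y) ≤ N) (u : Bool × ℕ) (hu : 100 * (a + b) * (M₀ * u.2) ≤ N) :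
    Adf (a + b) N (fm a b s t M₀ y u) := by
  obtain ⟨c, v⟩ := u
  have h1 : (0 : ℤ) ≤ (M₀ : ℤ) * v := by positivity
  have hu1 : 100 * (a * (M₀ * v)) ≤ N := by
    refine le_trans ?_ hu
    have : 0 ≤ b * (M₀ * v) := Nat.zero_le _
    show 100 * (a * (M₀ * v)) ≤ 100 * (a + b) * (M₀ * v)
    nlinarith
  have hu2 : 100 * (b * (M₀ * v)) ≤ N := by
    refine le_trans ?_ hu
    have : 0 ≤ a * (M₀ * v) := Nat.zero_le _
    show 100 * (b * (M₀ * v)) ≤ 100 * (a + b) * (M₀ * v)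
    nlinarith
  have hy1 : 100 * (a * y) ≤ N := by
    refine le_trans ?_ hyN
    have : 0 ≤ b * y := Nat.zero_le _
    nlinarith
  have hy2 : 100 * (b * y) ≤ N := by
    refine le_trans ?_ hyN
    have : 0 ≤ a * y := Nat.zero_le _
    nlinarith
  cases c
  · simp only [fm, Bool.false_eq_true, if_false]
    have h3 := adf_one a (a + b) N y s ((M₀ : ℤ) * v) ha (by omega) hs hy1 hsa h1 (by exact_mod_cast hu1)
    have h4 : (a : ℤ) * M₀ * v = a * (M₀ * v) := by ring
    rw [h4]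
    exact h3
  · simp only [fm, if_true]
    have h3 := adf_one b (a + b) N y t ((M₀ : ℤ) * v) hb (by omega) ht hy2 htb h1 (by exact_mod_cast hu2)
    have h4 : (b : ℤ) * M₀ * v = b * (M₀ * v) := by ring
    rw [h4]
    exact h3

theorem pick (a b : ℕ) (s t : ℤ) (p : ℕ) (hp : p.Prime) (hsa : IsCoprime s (a : ℤ))
    (htb : IsCoprime t (b : ℤ)) (hE : Even ((a : ℤ) * b * (a * t - b * s))) :
    ∃ z : ℤ, ¬ (p : ℤ) ∣ a * z + s ∧ ¬ (p : ℤ) ∣ b * z + t := by
  have hpi : Prime (p : ℤ) := Nat.prime_iff_prime_int.1 hp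
  have hcop : ∀ (c : ℕ) (w : ℤ), IsCoprime w (c : ℤ) → (p : ℤ) ∣ c → ¬ (p : ℤ) ∣ w := by
    intro c w hw hc h
    exact hpi.not_unit (hw.isUnit_of_dvd' h hc)
  -- the values at two places
  have hdiff : ∀ (c : ℕ) (w z z' : ℤ), IsCoprime w (c : ℤ) → (p : ℤ) ∣ c * z + w → (p : ℤ) ∣ c * z' + w →
      (p : ℤ) ∣ z - z' := by
    intro c w z z' hw h1 h2
    have h3 : (p : ℤ) ∣ c * (z - z') := by
      have := dvd_sub h1 h2
      have e : (c : ℤ) * z + w - (c * z' + w) = c * (z - z') := by ring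
      rwa [e] at this
    rcases hpi.dvd_or_dvd h3 with h | h
    · exfalso
      refine hcop c w hw h ?_
      have : (p : ℤ) ∣ c * z := h.mul_right z
      exact (Int.dvd_add_right this).1 h1
    · exact h
  by_cases hp2 : p = 2
  · subst hp2
    by_contra hcon
    push Not at hcon
    have h0 := hcon 0
    have h1 := hcon 1
    simp only [mul_zero, zero_add, mul_one] at h0 h1
    by_cases ha2 : (2 : ℤ) ∣ a
    · have hs2 : ¬ ((2 : ℕ) : ℤ) ∣ s := hcop a s hsa (by exact_mod_cast ha2)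
      have ht0 := h0 hs2
      have hs3 : ¬ ((2 : ℕ) : ℤ) ∣ a + s := fun h => hs2 ((Int.dvd_add_right (by exact_mod_cast ha2)).1 h)
      have ht1 := h1 hs3
      have := hdiff b t 1 0 htb (by simpa using ht1) (by simpa using ht0)
      norm_num at this
    · by_cases hb2 : (2 : ℤ) ∣ b
      · have ht2 : ¬ ((2 : ℕ) : ℤ) ∣ t := hcop b t htb (by exact_mod_cast hb2)
        have ht3 : ¬ ((2 : ℕ) : ℤ) ∣ b + t := fun h => ht2 ((Int.dvd_add_right (by exact_mod_cast hb2)).1 h)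
        have hs0 : ((2 : ℕ) : ℤ) ∣ s := by
          by_contra h
          exact ht2 (h0 h)
        have hs1 : ((2 : ℕ) : ℤ) ∣ a + s := by
          by_contra h
          exact ht3 (h1 h)
        have := hdiff a s 1 0 hsa (by simpa using hs1) (by simpa using hs0)
        norm_num at this
      · -- both odd
        have ho : ∀ x : ℤ, (¬ (2 : ℤ) ∣ x) ↔ x % 2 = 1 := fun x => by omega
        have ha3 := (ho a).1 ha2
        have hb3 := (ho b).1 hb2
        have hE2 : Even ((a : ℤ) * t - b * s) := by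
          rcases Int.even_mul.1 hE with h | h
          · exfalso
            rcases Int.even_mul.1 h with h' | h'
            · exact ha2 (even_iff_two_dvd.1 h')
            · exact hb2 (even_iff_two_dvd.1 h')
          · exact h
        have hoa : Odd (a : ℤ) := Int.odd_iff.2 ha3
        have hob : Odd (b : ℤ) := Int.odd_iff.2 hb3
        have hts : (Even t ↔ Even s) := by
          rw [Int.even_sub] at hE2
          rw [Int.even_mul, Int.even_mul] at hE2
          have e1 : ¬ Even (a : ℤ) := Int.not_even_iff_odd.2 hoa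
          have e2 : ¬ Even (b : ℤ) := Int.not_even_iff_odd.2 hob
          simpa [e1, e2] using hE2
        by_cases hs : Even s
        · have ht := hts.2 hs
          have h3 : ¬ ((2 : ℕ) : ℤ) ∣ a + s := by
            intro h
            have h' : Even ((a : ℤ) + s) := even_iff_two_dvd.2 (by exact_mod_cast h)
            exact Int.not_even_iff_odd.2 hoa ((Int.even_add.1 h').2 hs)
          have h4 := h1 h3
          have h' : Even ((b : ℤ) + t) := even_iff_two_dvd.2 (by exact_mod_cast h4)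
          exact Int.not_even_iff_odd.2 hob ((Int.even_add.1 h').2 ht)
        · have h3 : ¬ ((2 : ℕ) : ℤ) ∣ s := fun h => hs (even_iff_two_dvd.2 (by exact_mod_cast h))
          have h4 := h0 h3
          exact hs (hts.1 (even_iff_two_dvd.2 (by exact_mod_cast h4)))
  · -- p odd: one of 0, 1, 2
    have hp3 : 3 ≤ p := by
      have := hp.two_le
      omega
    have hnd : ∀ d : ℤ, 1 ≤ |d| → |d| ≤ 2 → ¬ (p : ℤ) ∣ d := by
      intro d h1 h2 h
      have h3 := Int.le_of_dvd (by omega : 0 < |d|) ((dvd_abs _ _).2 h)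
      have h4 : (3 : ℤ) ≤ p := by exact_mod_cast hp3
      omega
    by_contra hcon
    push Not at hcon
    have key : ∀ (x y z : ℤ), (x = 0 ∧ y = 1 ∧ z = 2) → False := by
      rintro x y z ⟨rfl, rfl, rfl⟩
      have c0 : (p : ℤ) ∣ a * 0 + s ∨ (p : ℤ) ∣ b * 0 + t := by
        by_contra h
        push Not at h
        exact h.2 (hcon 0 h.1)
      have c1 : (p : ℤ) ∣ a * 1 + s ∨ (p : ℤ) ∣ b * 1 + t := by
        by_contra h
        push Not at h
        exact h.2 (hcon 1 h.1)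
      have c2 : (p : ℤ) ∣ a * 2 + s ∨ (p : ℤ) ∣ b * 2 + t := by
        by_contra h
        push Not at h
        exact h.2 (hcon 2 h.1)
      rcases c0 with c0 | c0 <;> rcases c1 with c1 | c1 <;> rcases c2 with c2 | c2
      · exact hnd (1 - 0) (by norm_num) (by norm_num) (hdiff a s 1 0 hsa c1 c0)
      · exact hnd (1 - 0) (by norm_num) (by norm_num) (hdiff a s 1 0 hsa c1 c0)
      · exact hnd (2 - 0) (by norm_num) (by norm_num) (hdiff a s 2 0 hsa c2 c0)
      · exact hnd (2 - 1) (by norm_num) (by norm_num) (hdiff b t 2 1 htb c2 c1)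
      · exact hnd (2 - 1) (by norm_num) (by norm_num) (hdiff a s 2 1 hsa c2 c1)
      · exact hnd (2 - 0) (by norm_num) (by norm_num) (hdiff b t 2 0 htb c2 c0)
      · exact hnd (1 - 0) (by norm_num) (by norm_num) (hdiff b t 1 0 htb c1 c0)
      · exact hnd (1 - 0) (by norm_num) (by norm_num) (hdiff b t 1 0 htb c1 c0)
    exact key 0 1 2 ⟨rfl, rfl, rfl⟩

theorem fm_loc (a b : ℕ) (s t : ℤ) (M₀ y p : ℕ) (hsa : IsCoprime s (a : ℤ))
    (htb : IsCoprime t (b : ℤ)) (hE : Even ((a : ℤ) * b * (a * t - b * s))) (hp : p.Prime) (hpM : p ∣ M₀) :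
    ∃ r : ℤ, ∀ u : Bool × ℕ, ¬ (p : ℤ) ∣ (fm a b s t M₀ y u).1 * r + (fm a b s t M₀ y u).2 := by
  have h3 : (p : ℤ) ∣ M₀ := by exact_mod_cast hpM
  obtain ⟨z, hz1, hz2⟩ := pick a b s t p hp hsa htb hE
  refine ⟨z - y, ?_⟩
  rintro ⟨c, v⟩ hdvd
  cases c
  · simp only [fm, Bool.false_eq_true, if_false] at hdvd
    have h4 : (a : ℤ) * (z - y) + (s + a * y + a * M₀ * v) = (a * z + s) + M₀ * (a * v) := by ring
    rw [h4] at hdvd
    exact hz1 ((Int.dvd_add_left (h3.mul_right _)).1 hdvd)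
  · simp only [fm, if_true] at hdvd
    have h4 : (b : ℤ) * (z - y) + (t + b * y + b * M₀ * v) = (b * z + t) + M₀ * (b * v) := by ring
    rw [h4] at hdvd
    exact hz2 ((Int.dvd_add_left (h3.mul_right _)).1 hdvd)

open Classical in
theorem main : S_HIT3 := by
  intro a b ha hb _hab hne T M hT hTM
  obtain ⟨K, hK, δ, hδ, H0⟩ := lamR1 T M hT hTM
  obtain ⟨s₀, c, hc, H1⟩ := H0 (a + b)
  have hcardQ : (univ : Finset (Finset (Fin T) × (Fin T → Fin K))).card = 2 ^ T * K ^ T := by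
    rw [card_univ, Fintype.card_prod, Fintype.card_finset, Fintype.card_fin, Fintype.card_fun,
      Fintype.card_fin, Fintype.card_fin]
  set P : ℕ := 2 ^ T * K ^ T with hP
  have hP0 : 0 < P := by rw [hP]; positivity
  have hP0r : (0 : ℝ) < P := by exact_mod_cast hP0
  refine ⟨K, s₀, hK, δ, c / (2 * P * (s₀ + 1)), hδ, by positivity, ?_⟩
  have hlog : Tendsto (fun N : ℕ => Real.log N) atTop atTop :=
    Real.tendsto_log_atTop.comp tendsto_natCast_atTop_atTop
  have hab0 : (0 : ℝ) < 100 * (a + b) := by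
    have : (1 : ℝ) ≤ a := by exact_mod_cast ha
    positivity
  have hab1 : (1 : ℝ) ≤ a + b := by
    have h1 : (1 : ℝ) ≤ a := by exact_mod_cast ha
    have h2 : (0 : ℝ) ≤ b := Nat.cast_nonneg b
    linarith
  have hlogN : ∀ᶠ N : ℕ in atTop, Real.log N ≤ N / (100 * (a + b)) := by
    have h1 := Real.isLittleO_log_id_atTop.def (c := 1 / (100 * ((a : ℝ) + b))) (by positivity)
    filter_upwards [tendsto_natCast_atTop_atTop.eventually h1, eventually_ge_atTop 1] with N h2 h3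
    have h4 : (1 : ℝ) ≤ N := by exact_mod_cast h3
    rw [Real.norm_of_nonneg (Real.log_nonneg h4), id, Real.norm_of_nonneg (by linarith)] at h2
    rw [div_mul_eq_mul_div, one_mul] at h2
    exact h2
  filter_upwards [H1, hlogN, hlog.eventually_ge_atTop 2, eventually_ge_atTop 2] with N hN hN1 hN2 hN3
  intro M₀ a₀ b₀ hM₀ hM₀p hLd H hinj hHN
  obtain ⟨hsa, htb, hE, hsN, htN⟩ := hLd
  set L : ℕ := ⌊Real.log N⌋₊ with hL
  have hL1 : (L : ℝ) ≤ Real.log N := Nat.floor_le (by linarith)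
  have hL2 : Real.log N < L + 1 := Nat.lt_floor_add_one _
  have hLN' : 100 * ((a + b) * L) ≤ N := by
    have h1 : (L : ℝ) ≤ N / (100 * (a + b)) := hL1.trans hN1
    rw [le_div_iff₀ hab0] at h1
    have : (100 * (((a + b : ℕ) : ℝ) * L) : ℝ) ≤ N := by push_cast; linarith
    exact_mod_cast this
  have hLN : 100 * L ≤ N := by
    refine le_trans ?_ hLN'
    have : L ≤ (a + b) * L := Nat.le_mul_of_pos_left _ (by omega)
    omega
  have hNr : (2 : ℝ) ≤ N := by exact_mod_cast hN3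
  have key : ∀ y : ℕ, y ∈ Icc 1 L → ∃ (s : ℕ) (S : Finset (Fin T)) (σ : Fin T → Fin K), s ≤ s₀ ∧
      M + 1 ≤ S.card ∧ c * (N / (Real.log N) ^ (T * K + 1)) ≤
        ((Rs1 (fun g i => fm a b a₀ b₀ M₀ y (H (g, i))) δ s S σ N).card : ℝ) := by
    intro y hy
    obtain ⟨hy1, hy2⟩ := mem_Icc.1 hy
    obtain ⟨s, S, σ, h1, _, _, h2, h3⟩ := hN (fun g i => fm a b a₀ b₀ M₀ y (H (g, i))) (by
      rintro ⟨c₁, d₁⟩ ⟨c₂, d₂⟩ h
      exact hinj (fm_inj a b a₀ b₀ M₀ y ha hb hM₀ hne h)) (by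
      intro g i
      refine fm_adf a b a₀ b₀ M₀ y N ha hb hsa htb hsN htN ?_ _ (hHN (g, i))
      exact (Nat.mul_le_mul_left _ (Nat.mul_le_mul_left _ hy2)).trans hLN') (by
      intro p hp hpk
      obtain ⟨r, hr⟩ := fm_loc a b a₀ b₀ M₀ y p hsa htb hE hp (hM₀p p hp hpk)
      exact ⟨r, fun g i => hr _⟩)
    exact ⟨s, S, σ, h1, h2, h3⟩
  have : Nonempty (Fin K) := ⟨⟨0, by omega⟩⟩
  choose! s S σ hs hS hcard using key
  set R : ℕ → Finset ℕ := fun y =>
    Rs1 (fun g i => fm a b a₀ b₀ M₀ y (H (g, i))) δ (s y) (S y) (σ y) N with hR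
  set X : ℝ := c * (N / (Real.log N) ^ (T * K + 1)) with hX
  have hlogpos : 0 < Real.log N := by linarith
  have hX0 : 0 < X := by rw [hX]; positivity
  have hL0 : 1 ≤ L := Nat.le_floor (by push_cast; linarith)
  have hLr : (1 : ℝ) ≤ L := by exact_mod_cast hL0
  -- pigeonhole
  have htot : ∑ q : Finset (Fin T) × (Fin T → Fin K), (L * X / P : ℝ) ≤
      ∑ q : Finset (Fin T) × (Fin T → Fin K),
        ∑ y ∈ (Icc 1 L).filter (fun y => (S y, σ y) = q), ((R y).card : ℝ) := by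
    rw [Finset.sum_fiberwise_of_maps_to (fun _ _ => mem_univ _), sum_const, hcardQ, nsmul_eq_mul,
      mul_div_cancel₀ _ hP0r.ne']
    calc (L * X : ℝ) = ∑ y ∈ Icc 1 L, X := by simp
      _ ≤ _ := sum_le_sum fun y hy => hcard y hy
  obtain ⟨q, _, hq⟩ := exists_le_of_sum_le univ_nonempty htot
  set fib : Finset ℕ := (Icc 1 L).filter (fun y => (S y, σ y) = q) with hfib
  have hne : fib.Nonempty := by
    rw [nonempty_iff_ne_empty]
    intro h0
    rw [h0, sum_empty] at hq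
    have : 0 < (L * X / P : ℝ) := by positivity
    linarith
  obtain ⟨y₀, hy₀⟩ := hne
  obtain ⟨hy₀1, hy₀2⟩ := mem_filter.1 hy₀
  refine ⟨q.1, q.2, ?_, ?_⟩
  · rw [← hy₀2]
    exact hS y₀ hy₀1
  set G : Finset ℕ := (Icc (N / 18) (5 * N / 9)).filter (fun n : ℕ =>
    (∀ x, Rgh δ N (fw a b a₀ b₀ M₀ n (H x))) ∧ ∀ g ∈ q.1, (fw a b a₀ b₀ M₀ n (H (g, q.2 g))).toNat.Prime) with hG
  have hmem : ∀ y ∈ fib, ∀ n ∈ R y, n + y ∈ G ∧ Rgh δ N (((n + y : ℕ) : ℤ) - ((y + s y : ℕ) : ℤ)) := by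
    intro y hy n hn
    obtain ⟨hy1, hy2⟩ := mem_filter.1 hy
    obtain ⟨hy3, hy4⟩ := mem_Icc.1 hy1
    have hq1 : S y = q.1 := by rw [← hy2]
    have hq2 : σ y = q.2 := by rw [← hy2]
    simp only [hR, Rs1, mem_filter, mem_Icc] at hn
    obtain ⟨⟨hn1, hn2⟩, ⟨hn3, hn3'⟩, hn4, hn5, hn6⟩ := hn
    refine ⟨?_, ?_⟩
    · rw [hG, mem_filter, mem_Icc]
      refine ⟨⟨?_, ?_⟩, ?_, ?_⟩
      · have h1 : ((N / 18 : ℕ) : ℝ) ≤ N / 18 := by
          have := @Nat.cast_div_le ℝ _ _ _ N 18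
          simpa using this
        have h2 : ((N / 18 : ℕ) : ℝ) ≤ n := by linarith
        have h3 : N / 18 ≤ n := by exact_mod_cast h2
        omega
      · have h1 : (100 : ℝ) * n ≤ 51 * N := by linarith
        have h2 : 100 * n ≤ 51 * N := by exact_mod_cast h1
        omega
      · rintro ⟨g, i⟩ p hp hpl hdvd
        apply hn5 g i p hp hpl
        rw [fm_val]
        exact hdvd
      · intro g hg
        have h1 := hn6 g (by rw [hq1]; exact hg)
        rw [hq2, fm_val] at h1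
        exact h1
    · intro p hp hpl hdvd
      apply hn4 p hp hpl
      have e : (n : ℤ) - s y = ((n + y : ℕ) : ℤ) - ((y + s y : ℕ) : ℤ) := by push_cast; ring
      rw [e]
      exact hdvd
  set W : ℕ → ℕ := fun n =>
    ((range (L + s₀ + 1)).filter (fun j : ℕ => Rgh δ N (n - j))).card with hW
  have hcount : ∑ y ∈ fib, (R y).card ≤ (s₀ + 1) * ∑ n ∈ G, W n := by
    calc ∑ y ∈ fib, (R y).card
        ≤ ∑ y ∈ fib, (bipartiteAbove (fun y n' => ∃ n ∈ R y, n + y = n') G y).card := by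
          refine sum_le_sum fun y hy => ?_
          refine card_le_card_of_injOn (fun n => n + y) ?_ ?_
          · intro n hn
            simp only [coe_bipartiteAbove, Set.mem_ofPred_eq]
            exact ⟨(hmem y hy n hn).1, n, hn, rfl⟩
          · intro c₁ _ c₂ _ hcc
            simpa using hcc
      _ = ∑ n' ∈ G, (bipartiteBelow (fun y n' => ∃ n ∈ R y, n + y = n') fib n').card :=
          sum_card_bipartiteAbove_eq_sum_card_bipartiteBelow _
      _ ≤ ∑ n' ∈ G, (s₀ + 1) * W n' := by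
          refine sum_le_sum fun n' _ => ?_
          refine fib_le _ s s₀ ?_ _ ?_
          · intro y hy
            exact hs y (mem_filter.1 (mem_filter.1 hy).1).1
          · intro y hy
            obtain ⟨hy1, n, hn, rfl⟩ := mem_filter.1 hy
            have h1 := (mem_Icc.1 (mem_filter.1 hy1).1).2
            have h2 := hs y (mem_filter.1 hy1).1
            refine mem_filter.2 ⟨mem_range.2 (by omega), (hmem y hy1 n hn).2⟩
      _ = (s₀ + 1) * ∑ n ∈ G, W n := by rw [mul_sum]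
  have hcount' : (∑ y ∈ fib, ((R y).card : ℝ)) ≤ (s₀ + 1) * ∑ n ∈ G, (W n : ℝ) := by
    exact_mod_cast hcount
  have hX2 : (Real.log N) * X = c * (N / (Real.log N) ^ (T * K)) := by
    rw [hX, pow_succ]
    field_simp
  have hs0 : (0 : ℝ) < s₀ + 1 := by positivity
  have h1 : c / 2 * (N / (Real.log N) ^ (T * K)) ≤ L * X := by
    have h2 : Real.log N / 2 ≤ L := by linarith
    calc c / 2 * (N / (Real.log N) ^ (T * K)) = Real.log N / 2 * X := by
          rw [← mul_left_inj' (two_ne_zero' ℝ)]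
          linear_combination -hX2
      _ ≤ L * X := by gcongr
  calc c / (2 * P * (s₀ + 1)) * (N / (Real.log N) ^ (T * K))
      = (c / 2 * (N / (Real.log N) ^ (T * K))) / P / (s₀ + 1) := by
        field_simp
    _ ≤ (L * X) / P / (s₀ + 1) := by gcongr
    _ ≤ (∑ y ∈ fib, ((R y).card : ℝ)) / (s₀ + 1) := by gcongr
    _ ≤ ∑ n ∈ G, (W n : ℝ) := by
        rw [div_le_iff₀ hs0, mul_comm]
        exact hcount'

end Pool.Agent.N679.RG.HIT3

namespace Pool.Agent.N679.RG

/-- **HIT3** -/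
theorem t_HIT3 : S_HIT3 := HIT3.main

end Pool.Agent.N679.RG
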