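import Pool.Agent.N679.RG.Stm3

/-! Project RL, part MOM3: moments of the number of rough values (helper570, after MOM2 of helper588). -/

set_option autoImplicit false

namespace Pool.Agent.N679.RG

open Finset Filter Topology
open Pool.Agent.N646.RO (Rgh)

namespace MOM3

open Classical in
/-- the two kinds of forms -/
theorem card_split (a b : ℕ) (s t : ℤ) (δ : ℝ) (N M n T : ℕ) :
    ((univ ×ˢ range T).filter (fun u : Bool × ℕ => Rgh δ N (fw a b s t M n u))).card =
      ((range T).filter (fun v : ℕ => Rgh δ N ((a : ℤ) * n + s + a * M * v))).card +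
      ((range T).filter (fun v : ℕ => Rgh δ N ((b : ℤ) * n + t + b * M * v))).card := by
  have h1 : (univ ×ˢ range T).filter (fun u : Bool × ℕ => Rgh δ N (fw a b s t M n u)) =
      ((range T).filter (fun v : ℕ => Rgh δ N ((a : ℤ) * n + s + a * M * v))).image
        (fun v => (false, v)) ∪
      ((range T).filter (fun v : ℕ => Rgh δ N ((b : ℤ) * n + t + b * M * v))).image
        (fun v => (true, v)) := by
    ext ⟨c, v⟩
    rw [mem_filter, mem_union, mem_image, mem_image, mem_product]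
    constructor
    · rintro ⟨⟨-, h2⟩, h3⟩
      cases c with
      | false => exact Or.inl ⟨v, mem_filter.2 ⟨h2, by simpa [fw] using h3⟩, rfl⟩
      | true => exact Or.inr ⟨v, mem_filter.2 ⟨h2, by simpa [fw] using h3⟩, rfl⟩
    · rintro (⟨v', h2, h3⟩ | ⟨v', h2, h3⟩)
      · obtain ⟨rfl, rfl⟩ := Prod.mk.injEq _ _ _ _ ▸ h3
        rw [mem_filter] at h2
        exact ⟨⟨mem_univ _, h2.1⟩, by simpa [fw] using h2.2⟩
      · obtain ⟨rfl, rfl⟩ := Prod.mk.injEq _ _ _ _ ▸ h3
        rw [mem_filter] at h2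
        exact ⟨⟨mem_univ _, h2.1⟩, by simpa [fw] using h2.2⟩
  rw [h1, card_union_of_disjoint, card_image_of_injective, card_image_of_injective]
  · intro a b h
    exact (Prod.mk.inj h).2
  · intro a b h
    exact (Prod.mk.inj h).2
  · rw [disjoint_left]
    intro u hu hu'
    rw [mem_image] at hu hu'
    obtain ⟨t, -, rfl⟩ := hu
    obtain ⟨t', -, h2⟩ := hu'
    exact Bool.noConfusion (Prod.mk.inj h2).1

open Classical in
/-- one kind of forms -/
theorem one (hWB : Pool.Agent.N646.RO.S_WB) (a : ℕ) (δ lam : ℝ) (M r : ℕ) (ha : 1 ≤ a) (hδ : 0 < δ)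
    (hlam : 0 < lam) (hM : 1 ≤ M) : ∃ C : ℝ, 0 < C ∧ ∀ᶠ N : ℕ in atTop, ∀ (T : ℕ) (s : ℤ),
    lam * Real.log N ≤ T → 50 * |s| ≤ N → 100 * a * (M * T) ≤ N →
    ∑ n ∈ Icc (N / 18) (5 * N / 9), (((range T).filter
      (fun v : ℕ => Rgh δ N ((a : ℤ) * n + s + a * M * v))).card : ℝ) ^ r ≤
      C * N * (T / Real.log N) ^ r := by
  obtain ⟨C, hC, hev⟩ := hWB (δ / 2) (lam / 2) (a * M) r (by linarith) (by linarith)
    (Nat.mul_pos ha hM)
  have hten : Tendsto (fun N : ℕ => a * N / 2) atTop atTop := by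
    refine tendsto_atTop_mono (fun N => ?_) (Nat.tendsto_div_const_atTop (by norm_num : (2 : ℕ) ≠ 0))
    exact Nat.div_le_div_right (Nat.le_mul_of_pos_left N ha)
  refine ⟨C * a * 2 ^ r, by positivity, ?_⟩
  filter_upwards [hten.eventually hev, eventually_ge_atTop 1000, eventually_ge_atTop a]
    with N h2 hN haN
  intro T s hT hs hMT
  obtain ⟨N', hN'⟩ : ∃ N' : ℕ, N' = a * N / 2 := ⟨_, rfl⟩
  rw [← hN'] at h2
  have haN1 : N ≤ a * N := Nat.le_mul_of_pos_left N ha
  have hN'0 : 0 < N' := by omega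
  have hN'aN : N' ≤ a * N := by omega
  have hNR : (1000 : ℝ) ≤ N := by exact_mod_cast hN
  have hlN : 0 < Real.log N := Real.log_pos (by linarith)
  have hl' : Real.log N' ≤ 2 * Real.log N := by
    have h3 : (N' : ℝ) ≤ (N : ℝ) ^ 2 := by
      have h4 : N' ≤ N ^ 2 := hN'aN.trans (by rw [pow_two]; exact Nat.mul_le_mul_right _ haN)
      exact_mod_cast h4
    have h5 := Real.log_le_log (by exact_mod_cast hN'0) h3
    rw [Real.log_pow] at h5
    push_cast at h5
    linarith
  have hl2 : Real.log N / 2 ≤ Real.log N' := by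
    have h3 : (N : ℝ) ≤ (N' : ℝ) ^ 2 := by
      have h4 : N ≤ N' ^ 2 := by
        have : N ≤ 2 * N' + 1 := by omega
        have h6 : 50 ≤ N' := by omega
        nlinarith
      exact_mod_cast h4
    have h5 := Real.log_le_log (by linarith) h3
    rw [Real.log_pow] at h5
    push_cast at h5
    linarith
  have hl0 : 0 < Real.log N' := by linarith
  have hMT' : a * M * T ≤ N' := by
    have h3 : 100 * (a * M * T) ≤ N := by
      rw [← mul_assoc, ← mul_assoc] at *
      linarith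
    omega
  have hZ := h2 T (by nlinarith) hMT'
  have hbd : ∀ n ∈ Icc (N / 18) (5 * N / 9), (N' : ℤ) / 18 ≤ a * n + s ∧
      (a : ℤ) * n + s ≤ 2 * N' ∧ 0 ≤ (a : ℤ) * n + s := by
    intro n hn
    rw [mem_Icc] at hn
    have hn1 : N ≤ 18 * n + 17 := by omega
    have hn2 : 9 * n ≤ 5 * N := by omega
    have g1 : (a : ℤ) * N ≤ 18 * (a * n) + 17 * a := by
      have : (N : ℤ) ≤ 18 * n + 17 := by exact_mod_cast hn1
      nlinarith
    have g2 : 9 * ((a : ℤ) * n) ≤ 5 * (a * N) := by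
      have : 9 * (n : ℤ) ≤ 5 * N := by exact_mod_cast hn2
      nlinarith
    have g3 : (N : ℤ) ≤ a * N := by exact_mod_cast haN1
    have g4 : 1000 * (a : ℤ) ≤ a * N := by
      have : (1000 : ℤ) ≤ N := by exact_mod_cast hN
      nlinarith
    have g5 : (N' : ℤ) = (a * N : ℤ) / 2 := by
      rw [hN']
      push_cast
      rfl
    have g6 := abs_le.1 (show |s| ≤ |s| from le_rfl)
    have g7 : (1 : ℤ) ≤ a := by exact_mod_cast ha
    obtain ⟨p, hp⟩ : ∃ p : ℤ, p = a * N := ⟨_, rfl⟩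
    obtain ⟨q, hq⟩ : ∃ q : ℤ, q = a * n := ⟨_, rfl⟩
    rw [← hp] at g1 g2 g3 g4 g5
    rw [← hq] at g1 g2 ⊢
    omega
  have e3 : ∀ n ∈ Icc (N / 18) (5 * N / 9), (((range T).filter
      (fun v : ℕ => Rgh δ N ((a : ℤ) * n + s + a * M * v))).card : ℝ) ^ r ≤
      (((range T).filter (fun v : ℕ => Rgh (δ / 2) N'
        ((((a : ℤ) * n + s).toNat : ℕ) + ((a * M : ℕ) : ℤ) * v))).card : ℝ) ^ r := by
    intro n hn
    apply pow_le_pow_left₀ (Nat.cast_nonneg _)
    have h3 : (((a : ℤ) * n + s).toNat : ℤ) = (a : ℤ) * n + s := Int.toNat_of_nonneg (hbd n hn).2.2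
    rw [h3]
    push_cast
    exact_mod_cast card_le_card fun v hv => by
      rw [mem_filter] at hv ⊢
      refine ⟨hv.1, fun p hp hl => hv.2 p hp (hl.trans ?_)⟩
      nlinarith
  refine (sum_le_sum e3).trans ?_
  have h4 : Set.InjOn (fun n : ℕ => ((a : ℤ) * n + s).toNat)
      (Icc (N / 18) (5 * N / 9) : Finset ℕ) := by
    intro x hx y hy h
    rw [mem_coe] at hx hy
    have hx0 := (hbd x hx).2.2
    have hy0 := (hbd y hy).2.2
    have h5 : ((a : ℤ) * x + s) = (a : ℤ) * y + s := by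
      have h6 := congrArg (fun k : ℕ => (k : ℤ)) h
      simp only at h6
      rwa [Int.toNat_of_nonneg hx0, Int.toNat_of_nonneg hy0] at h6
    have h6 : (a : ℤ) * x = a * y := by linarith
    have h7 : (a : ℤ) ≠ 0 := by positivity
    exact_mod_cast mul_left_cancel₀ h7 h6
  have h5 := sum_image (s := Icc (N / 18) (5 * N / 9)) (g := fun n : ℕ => ((a : ℤ) * n + s).toNat)
    (f := fun m : ℕ => (((range T).filter (fun v : ℕ => Rgh (δ / 2) N'
      ((m : ℤ) + ((a * M : ℕ) : ℤ) * v))).card : ℝ) ^ r) h4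
  rw [← h5]
  have e4 : C * N' * (T / Real.log N') ^ r ≤ C * (a * N) * (2 ^ r * (T / Real.log N) ^ r) := by
    have h3 : (T : ℝ) / Real.log N' ≤ 2 * (T / Real.log N) := by
      have h4 : (T : ℝ) / Real.log N' ≤ T / (Real.log N / 2) :=
        div_le_div_of_nonneg_left (Nat.cast_nonneg T) (by linarith) hl2
      refine h4.trans (le_of_eq ?_)
      field_simp
    have h5 : (T / Real.log N') ^ r ≤ 2 ^ r * (T / Real.log N) ^ r := by
      rw [← mul_pow]
      exact pow_le_pow_left₀ (by positivity) h3 _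
    have h6 : (N' : ℝ) ≤ a * N := by exact_mod_cast hN'aN
    have h7 : 0 ≤ (T / Real.log N') ^ r := by positivity
    gcongr
  have e5 : C * (a * N) * (2 ^ r * (T / Real.log N) ^ r) =
      C * a * 2 ^ r * N * (T / Real.log N) ^ r := by ring
  rw [← e5]
  refine le_trans ?_ (hZ.trans e4)
  refine sum_le_sum_of_subset_of_nonneg ?_ fun n _ _ => by positivity
  intro m hm
  rw [mem_image] at hm
  obtain ⟨n, hn, rfl⟩ := hm
  obtain ⟨g1, g2, g3⟩ := hbd n hn
  rw [mem_Icc]
  constructor <;> omega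

open Classical in
theorem main (hWB : Pool.Agent.N646.RO.S_WB) : S_MOM3 := by
  intro a b δ lam M r ha hb hδ hlam hM
  obtain ⟨C₁, hC₁, hev₁⟩ := one hWB a δ lam M r ha hδ hlam hM
  obtain ⟨C₂, hC₂, hev₂⟩ := one hWB b δ lam M r hb hδ hlam hM
  refine ⟨2 ^ (r - 1) * (C₁ + C₂), by positivity, ?_⟩
  filter_upwards [hev₁, hev₂] with N h1 h2
  intro T s t hT hs ht hMT
  have g1 : 100 * a * (M * T) ≤ N := by nlinarith
  have g2 : 100 * b * (M * T) ≤ N := by nlinarith
  have e1 := h1 T s hT hs g1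
  have e2 := h2 T t hT ht g2
  calc ∑ n ∈ Icc (N / 18) (5 * N / 9), (((univ ×ˢ range T).filter
      (fun u : Bool × ℕ => Rgh δ N (fw a b s t M n u))).card : ℝ) ^ r
      ≤ ∑ n ∈ Icc (N / 18) (5 * N / 9), 2 ^ (r - 1) * ((((range T).filter
          (fun v : ℕ => Rgh δ N ((a : ℤ) * n + s + a * M * v))).card : ℝ) ^ r +
          (((range T).filter (fun v : ℕ => Rgh δ N ((b : ℤ) * n + t + b * M * v))).card : ℝ) ^ r) := by
        refine sum_le_sum fun n _ => ?_
        rw [card_split]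
        push_cast
        exact add_pow_le (Nat.cast_nonneg _) (Nat.cast_nonneg _) r
    _ = 2 ^ (r - 1) * (∑ n ∈ Icc (N / 18) (5 * N / 9), (((range T).filter
          (fun v : ℕ => Rgh δ N ((a : ℤ) * n + s + a * M * v))).card : ℝ) ^ r +
          ∑ n ∈ Icc (N / 18) (5 * N / 9), (((range T).filter
          (fun v : ℕ => Rgh δ N ((b : ℤ) * n + t + b * M * v))).card : ℝ) ^ r) := by
        rw [← sum_add_distrib, mul_sum]
    _ ≤ 2 ^ (r - 1) * (C₁ * N * (T / Real.log N) ^ r + C₂ * N * (T / Real.log N) ^ r) := by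
        gcongr
    _ = 2 ^ (r - 1) * (C₁ + C₂) * N * (T / Real.log N) ^ r := by ring

end MOM3

theorem t_MOM3 : Pool.Agent.N646.RO.S_WB → S_MOM3 := MOM3.main

end Pool.Agent.N679.RG
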