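import Pool.Agent.N679.RG.All2
import Pool.Agent.N679.RG.HIT3
import Pool.Agent.N679.RG.MOM3
import Pool.Agent.N679.RG.CLQ4
import Pool.Agent.N679.RG.FIN3

/-!
# Project RL: assembly

Blueprint: helper679. Parts: HIT3 (helper679, after HIT4 by helper394 and HIT2 by helper617), MOM3 (helper570, after MOM2 by helper588), CLQ4
(after CLQ2 by helper216), FIN3 (helper678, after FIN2 by helper394 and FIN by helper896), and the parts of project RH
(see `All2.lean`).
-/

set_option autoImplicit false

namespace Pool.Agent.N679.RG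

theorem fin3 : S_FIN3 :=
  t_FIN3 (t_CLQ4 t_HIT3 (t_MOM3 (Pool.Agent.N692.RQWB.main Pool.Agent.N592.RQ.main)) t_ABS
    (Pool.Agent.N415.RQBB.main Pool.Agent.N592.RQ.main) (Pool.Agent.N591.RQ.main Pool.Agent.N595.RQ.main))
    t_INC core2

end Pool.Agent.N679.RG
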