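import Pool.Agent.N679.RG.Stm3

/-!
# Project RM (helper679): the case `a = b = 1`, `c = 2 mod 6` of project RL (prime pairs `6 n - 1`, `6 (n + a) + 1`)

Statements of the independent parts (continuation of `Stm3.lean`).
-/

set_option autoImplicit false

namespace Pool.Agent.N679.RG

open Finset Filter Topology
open Pool.Agent.N646.RO (Rgh)

/-- the local and size conditions for the pair of the forms `n + s`, `n + t` -/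
def Ld (M : ℕ) (s t : ℤ) (N : ℕ) : Prop :=
  Even (t - s) ∧ ¬ ((M : ℤ) ∣ t - s) ∧ 50 * |s| ≤ N ∧ 50 * |t| ≤ N

open Classical in
/-- **HIT4** one configuration of forms (as HIT3 with `a = b = 1`; the forms are different because `M₀` does not divide
`t - s`). -/
def S_HIT4 : Prop :=
  ∀ T M : ℕ, 1 ≤ T → (18 / 5 : ℝ) * M < T → ∃ K r : ℕ, 1 ≤ K ∧ ∃ δ c : ℝ, 0 < δ ∧ 0 < c ∧
  ∀ᶠ N : ℕ in atTop, ∀ (M₀ : ℕ) (s t : ℤ), 1 ≤ M₀ → (∀ p : ℕ, p.Prime → p ≤ T * K → p ∣ M₀) →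
    Ld M₀ s t N →
    ∀ H : Fin T × Fin K → Bool × ℕ, Function.Injective H → (∀ x, 200 * (M₀ * (H x).2) ≤ N) →
    ∃ (S : Finset (Fin T)) (σ : Fin T → Fin K), M + 1 ≤ S.card ∧
      c * (N / (Real.log N) ^ (T * K)) ≤
        ∑ n ∈ (Icc (N / 18) (5 * N / 9)).filter (fun n : ℕ => (∀ x, Rgh δ N (fw 1 1 s t M₀ n (H x))) ∧
            ∀ g ∈ S, (fw 1 1 s t M₀ n (H (g, σ g))).toNat.Prime),
          (((range (⌊Real.log N⌋₊ + r + 1)).filter (fun j : ℕ => Rgh δ N (n - j))).card : ℝ)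

open Classical in
/-- **CLQ5** almost cliques of density `5 / 18` among the `2 T` forms. -/
def S_CLQ5 : Prop :=
  ∀ ε : ℝ, 0 < ε → ∃ M₀ : ℕ, 1 ≤ M₀ ∧ 6 ∣ M₀ ∧ ∀ (Q : ℕ) (lam : ℝ), 0 < lam →
  ∃ κ : ℝ, 0 < κ ∧ ∀ᶠ N : ℕ in atTop, ∀ (q T : ℕ) (s t : ℤ), 1 ≤ q → q ≤ Q → lam * Real.log N ≤ T →
    Ld 6 s t N → 200 * ((q * M₀) * T) ≤ N →
    ∃ A ⊆ (univ : Finset Bool) ×ˢ range T, (5 / 9 - ε) * T ≤ (A.card : ℝ) ∧
      (((A ×ˢ A).filter (fun p => p.1 ≠ p.2 ∧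
        (prw 1 1 s t (q * M₀) N p.1 p.2 : ℝ) < κ * (N / (Real.log N) ^ 2))).card : ℝ) ≤ ε * (T : ℝ) ^ 2

open Classical in
/-- **FIN4** (from CLQ5, INC, CORE2; as FIN3 with `a = b = 1` and the residue class `2 mod 6` in place of the
admissible `c`). -/
def S_FIN4 : Prop :=
  ∀ ε : ℝ, 0 < ε → ∃ (Q : ℕ) (c₀ : ℝ), 0 < c₀ ∧ ∀ lam : ℝ, 0 < lam → ∃ κ : ℝ, 0 < κ ∧
  ∀ᶠ x : ℕ in atTop, ∀ T : ℕ, lam * Real.log x ≤ T → 1000 * T ≤ x →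
    (∀ u : ℤ, |u| ≤ x →
      (((Ioc u (u + T)).filter (fun c : ℤ => c % 6 = 2 ∧
        (sols 1 1 c (100 * x) : ℝ) < κ * (x / (Real.log x) ^ 2))).card : ℝ) ≤
      (4 / 9 + ε) * (((Ioc u (u + T)).filter (fun c : ℤ => c % 6 = 2)).card : ℝ)) ∨
    ∃ q X : ℕ, 1 ≤ q ∧ q ≤ Q ∧ c₀ * T ≤ (X : ℝ) ∧ X ≤ T ∧
      (((Icc 1 X).filter (fun h => q ∣ h ∧
        (pairs h (200 * x) : ℝ) < κ * (x / (Real.log x) ^ 2))).card : ℝ) ≤ ε * (X / q)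

end Pool.Agent.N679.RG
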