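import Mathlib
import Pool.Agent.N679.RG.HIT2
import Pool.Agent.N679.RG.Stm4

/-! Project RM, part HIT4: one configuration of forms `n + s + M v`, `n + t + M v` (helper394).
The proof follows HIT2; the tools `HIT2.Rs1`, `HIT2.lamR1`, `HIT2.fib_le` are used. -/

set_option autoImplicit false

namespace Pool.Agent.N679.RG.HIT4

open Finset Filter Topology
open Pool.Agent.Y827.GS
open Pool.Agent.N646.RO (Rgh)
open Pool.Agent.N679.RG.HIT2 (Rs1 lamR1 fib_le)

/-- the linear forms -/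
def fm (s t : ℤ) (M₀ y : ℕ) (u : Bool × ℕ) : ℤ × ℤ :=
  if u.1 then (1, t + y + M₀ * u.2) else (1, s + y + M₀ * u.2)

theorem fm_val (s t : ℤ) (M₀ y n : ℕ) (u : Bool × ℕ) :
    (fm s t M₀ y u).1 * (n : ℤ) + (fm s t M₀ y u).2 = fw 1 1 s t M₀ (n + y) u := by
  obtain ⟨b, v⟩ := u
  cases b <;> simp [fm, fw] <;> ring

theorem fm_inj (s t : ℤ) (M₀ y : ℕ) (hM : 1 ≤ M₀) (hst : ¬ ((M₀ : ℤ) ∣ t - s)) :
    Function.Injective (fm s t M₀ y) := by
  have hM0 : (M₀ : ℤ) ≠ 0 := by exact_mod_cast (by omega : M₀ ≠ 0)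
  rintro ⟨b, v⟩ ⟨b', v'⟩ h
  cases b <;> cases b'
  · simp only [fm, Bool.false_eq_true, if_false, Prod.mk.injEq, true_and, add_right_inj] at h
    have h2 : (v : ℤ) = v' := mul_left_cancel₀ hM0 h
    have h3 : v = v' := by exact_mod_cast h2
    rw [h3]
  · simp only [fm, Bool.false_eq_true, if_false, if_true, Prod.mk.injEq, true_and] at h
    exact absurd (Dvd.intro ((v : ℤ) - v') (by linear_combination h)) hst
  · simp only [fm, Bool.false_eq_true, if_false, if_true, Prod.mk.injEq, true_and] at h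
    exact absurd (Dvd.intro ((v' : ℤ) - v) (by linear_combination -h)) hst
  · simp only [fm, if_true, Prod.mk.injEq, true_and, add_right_inj] at h
    have h2 : (v : ℤ) = v' := mul_left_cancel₀ hM0 h
    have h3 : v = v' := by exact_mod_cast h2
    rw [h3]

theorem adf_one (N y : ℕ) (s z : ℤ) (hs : 50 * |s| ≤ N) (hyN : 100 * y ≤ N) (hz : 0 ≤ z)
    (hzN : 200 * z ≤ N) : Adf 1 N (1, s + y + z) := by
  have hs' := abs_le.1 (show |s| ≤ |s| from le_rfl)
  have hN0 : (0 : ℤ) ≤ N := Int.natCast_nonneg N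
  have hy0 : (0 : ℤ) ≤ y := Int.natCast_nonneg y
  have hy' : (100 : ℤ) * y ≤ N := by exact_mod_cast hyN
  refine ⟨one_ne_zero, by simp, ?_, isCoprime_one_left, ?_⟩
  · show |s + y + z| ≤ (N : ℤ)
    rw [abs_le]
    constructor <;> omega
  · intro x hx1 hx2
    have h1 : -(N : ℤ) ≤ 50 * s := by omega
    have h2 : (-(N : ℝ)) ≤ 50 * s := by exact_mod_cast h1
    have h3 : (0 : ℝ) ≤ z := by exact_mod_cast hz
    have h4 : (0 : ℝ) ≤ y := by exact_mod_cast hy0
    have h5 : (0 : ℝ) ≤ N := by exact_mod_cast hN0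
    push_cast
    linarith

theorem fm_adf (s t : ℤ) (M₀ y N : ℕ) (hs : 50 * |s| ≤ N) (ht : 50 * |t| ≤ N)
    (hyN : 100 * y ≤ N) (u : Bool × ℕ) (hu : 200 * (M₀ * u.2) ≤ N) :
    Adf 1 N (fm s t M₀ y u) := by
  obtain ⟨b, v⟩ := u
  have h1 : (0 : ℤ) ≤ (M₀ : ℤ) * v := by positivity
  have h2 : 200 * ((M₀ : ℤ) * v) ≤ N := by exact_mod_cast hu
  cases b
  · simp only [fm, Bool.false_eq_true, if_false]
    exact adf_one N y s _ hs hyN h1 h2
  · simp only [fm, if_true]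
    exact adf_one N y t _ ht hyN h1 h2

theorem fm_loc (s t : ℤ) (M₀ y p : ℕ) (hE : Even (t - s)) (hp : p.Prime) (hpM : p ∣ M₀) :
    ∃ r : ℤ, ∀ u : Bool × ℕ, ¬ (p : ℤ) ∣ (fm s t M₀ y u).1 * r + (fm s t M₀ y u).2 := by
  have h3 : (p : ℤ) ∣ M₀ := by exact_mod_cast hpM
  have hp1 : ¬ (p : ℤ) ∣ 1 := by
    intro h
    have h6 : p ∣ 1 := by exact_mod_cast h
    exact hp.one_lt.ne' (Nat.dvd_one.1 h6)
  by_cases hd : (p : ℤ) ∣ 1 + (t - s)
  · refine ⟨2 - y - s, ?_⟩
    rintro ⟨b, v⟩ hdvd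
    cases b
    · simp only [fm, Bool.false_eq_true, if_false] at hdvd
      have h4 : (1 : ℤ) * (2 - y - s) + (s + y + (M₀ : ℤ) * v) = 2 + (M₀ : ℤ) * v := by ring
      rw [h4] at hdvd
      have h6 : (p : ℤ) ∣ 2 := (Int.dvd_add_left (h3.mul_right _)).1 hdvd
      have h7 : p ∣ 2 := by exact_mod_cast h6
      have h8 : p = 2 := (Nat.prime_dvd_prime_iff_eq hp Nat.prime_two).1 h7
      subst h8
      obtain ⟨e, he⟩ := hE
      rw [he] at hd
      push_cast at hd
      omega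
    · simp only [fm, if_true] at hdvd
      have h4 : (1 : ℤ) * (2 - y - s) + (t + y + (M₀ : ℤ) * v) =
          (1 + (1 + (t - s))) + (M₀ : ℤ) * v := by ring
      rw [h4] at hdvd
      have h5 := (Int.dvd_add_left (h3.mul_right _)).1 hdvd
      exact hp1 ((Int.dvd_add_left hd).1 h5)
  · refine ⟨1 - y - s, ?_⟩
    rintro ⟨b, v⟩ hdvd
    cases b
    · simp only [fm, Bool.false_eq_true, if_false] at hdvd
      have h4 : (1 : ℤ) * (1 - y - s) + (s + y + (M₀ : ℤ) * v) = 1 + (M₀ : ℤ) * v := by ring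
      rw [h4] at hdvd
      exact hp1 ((Int.dvd_add_left (h3.mul_right _)).1 hdvd)
    · simp only [fm, if_true] at hdvd
      have h4 : (1 : ℤ) * (1 - y - s) + (t + y + (M₀ : ℤ) * v) =
          (1 + (t - s)) + (M₀ : ℤ) * v := by ring
      rw [h4] at hdvd
      exact hd ((Int.dvd_add_left (h3.mul_right _)).1 hdvd)

open Classical in
theorem main : S_HIT4 := by
  intro T M hT hTM
  obtain ⟨K, hK, δ, hδ, H0⟩ := lamR1 T M hT hTM
  obtain ⟨s₀, c, hc, H1⟩ := H0 1
  have hcardQ : (univ : Finset (Finset (Fin T) × (Fin T → Fin K))).card = 2 ^ T * K ^ T := by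
    rw [card_univ, Fintype.card_prod, Fintype.card_finset, Fintype.card_fin, Fintype.card_fun,
      Fintype.card_fin, Fintype.card_fin]
  set P : ℕ := 2 ^ T * K ^ T with hP
  have hP0 : 0 < P := by rw [hP]; positivity
  have hP0r : (0 : ℝ) < P := by exact_mod_cast hP0
  refine ⟨K, s₀, hK, δ, c / (2 * P * (s₀ + 1)), hδ, by positivity, ?_⟩
  have hlog : Tendsto (fun N : ℕ => Real.log N) atTop atTop :=
    Real.tendsto_log_atTop.comp tendsto_natCast_atTop_atTop
  have hlogN : ∀ᶠ N : ℕ in atTop, Real.log N ≤ N / 100 := by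
    have h1 := Real.isLittleO_log_id_atTop.def (c := 1 / 100) (by norm_num)
    filter_upwards [tendsto_natCast_atTop_atTop.eventually h1, eventually_ge_atTop 1] with N h2 h3
    have h4 : (1 : ℝ) ≤ N := by exact_mod_cast h3
    rw [Real.norm_of_nonneg (Real.log_nonneg h4), id, Real.norm_of_nonneg (by linarith)] at h2
    linarith
  filter_upwards [H1, hlogN, hlog.eventually_ge_atTop 2, eventually_ge_atTop 2] with N hN hN1 hN2 hN3
  intro M₀ a₀ b₀ hM₀ hM₀p hLd H hinj hHN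
  obtain ⟨hE, hnd, hsN, htN⟩ := hLd
  set L : ℕ := ⌊Real.log N⌋₊ with hL
  have hL1 : (L : ℝ) ≤ Real.log N := Nat.floor_le (by linarith)
  have hL2 : Real.log N < L + 1 := Nat.lt_floor_add_one _
  have hLN : 100 * L ≤ N := by
    have : (100 * L : ℝ) ≤ N := by linarith
    exact_mod_cast this
  have hNr : (2 : ℝ) ≤ N := by exact_mod_cast hN3
  have key : ∀ y : ℕ, y ∈ Icc 1 L → ∃ (s : ℕ) (S : Finset (Fin T)) (σ : Fin T → Fin K), s ≤ s₀ ∧
      M + 1 ≤ S.card ∧ c * (N / (Real.log N) ^ (T * K + 1)) ≤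
        ((Rs1 (fun g i => fm a₀ b₀ M₀ y (H (g, i))) δ s S σ N).card : ℝ) := by
    intro y hy
    obtain ⟨hy1, hy2⟩ := mem_Icc.1 hy
    obtain ⟨s, S, σ, h1, _, _, h2, h3⟩ := hN (fun g i => fm a₀ b₀ M₀ y (H (g, i))) (by
      rintro ⟨a, b⟩ ⟨a', b'⟩ h
      exact hinj (fm_inj a₀ b₀ M₀ y hM₀ hnd h)) (by
      intro g i
      exact fm_adf a₀ b₀ M₀ y N hsN htN (by omega) _ (hHN (g, i))) (by
      intro p hp hpk
      obtain ⟨r, hr⟩ := fm_loc a₀ b₀ M₀ y p hE hp (hM₀p p hp hpk)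
      exact ⟨r, fun g i => hr _⟩)
    exact ⟨s, S, σ, h1, h2, h3⟩
  have : Nonempty (Fin K) := ⟨⟨0, by omega⟩⟩
  choose! s S σ hs hS hcard using key
  set R : ℕ → Finset ℕ := fun y =>
    Rs1 (fun g i => fm a₀ b₀ M₀ y (H (g, i))) δ (s y) (S y) (σ y) N with hR
  set X : ℝ := c * (N / (Real.log N) ^ (T * K + 1)) with hX
  have hlogpos : 0 < Real.log N := by linarith
  have hX0 : 0 < X := by rw [hX]; positivity
  have hL0 : 1 ≤ L := Nat.le_floor (by push_cast; linarith)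
  have hLr : (1 : ℝ) ≤ L := by exact_mod_cast hL0
  -- pigeonhole
  have htot : ∑ q : Finset (Fin T) × (Fin T → Fin K), (L * X / P : ℝ) ≤
      ∑ q : Finset (Fin T) × (Fin T → Fin K),
        ∑ y ∈ (Icc 1 L).filter (fun y => (S y, σ y) = q), ((R y).card : ℝ) := by
    rw [Finset.sum_fiberwise_of_maps_to (fun _ _ => mem_univ _), sum_const, hcardQ, nsmul_eq_mul,
      mul_div_cancel₀ _ hP0r.ne']
    calc (L * X : ℝ) = ∑ y ∈ Icc 1 L, X := by simp
      _ ≤ _ := sum_le_sum fun y hy => hcard y hy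
  obtain ⟨q, _, hq⟩ := exists_le_of_sum_le univ_nonempty htot
  set fib : Finset ℕ := (Icc 1 L).filter (fun y => (S y, σ y) = q) with hfib
  have hne : fib.Nonempty := by
    rw [nonempty_iff_ne_empty]
    intro h0
    rw [h0, sum_empty] at hq
    have : 0 < (L * X / P : ℝ) := by positivity
    linarith
  obtain ⟨y₀, hy₀⟩ := hne
  obtain ⟨hy₀1, hy₀2⟩ := mem_filter.1 hy₀
  refine ⟨q.1, q.2, ?_, ?_⟩
  · rw [← hy₀2]
    exact hS y₀ hy₀1
  set G : Finset ℕ := (Icc (N / 18) (5 * N / 9)).filter (fun n : ℕ =>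
    (∀ x, Rgh δ N (fw 1 1 a₀ b₀ M₀ n (H x))) ∧ ∀ g ∈ q.1, (fw 1 1 a₀ b₀ M₀ n (H (g, q.2 g))).toNat.Prime) with hG
  have hmem : ∀ y ∈ fib, ∀ n ∈ R y, n + y ∈ G ∧ Rgh δ N (((n + y : ℕ) : ℤ) - ((y + s y : ℕ) : ℤ)) := by
    intro y hy n hn
    obtain ⟨hy1, hy2⟩ := mem_filter.1 hy
    obtain ⟨hy3, hy4⟩ := mem_Icc.1 hy1
    have hq1 : S y = q.1 := by rw [← hy2]
    have hq2 : σ y = q.2 := by rw [← hy2]
    simp only [hR, Rs1, mem_filter, mem_Icc] at hn
    obtain ⟨⟨hn1, hn2⟩, ⟨hn3, hn3'⟩, hn4, hn5, hn6⟩ := hn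
    refine ⟨?_, ?_⟩
    · rw [hG, mem_filter, mem_Icc]
      refine ⟨⟨?_, ?_⟩, ?_, ?_⟩
      · have h1 : ((N / 18 : ℕ) : ℝ) ≤ N / 18 := by
          have := @Nat.cast_div_le ℝ _ _ _ N 18
          simpa using this
        have h2 : ((N / 18 : ℕ) : ℝ) ≤ n := by linarith
        have h3 : N / 18 ≤ n := by exact_mod_cast h2
        omega
      · have h1 : (100 : ℝ) * n ≤ 51 * N := by linarith
        have h2 : 100 * n ≤ 51 * N := by exact_mod_cast h1
        omega
      · rintro ⟨g, i⟩ p hp hpl hdvd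
        apply hn5 g i p hp hpl
        rw [fm_val]
        exact hdvd
      · intro g hg
        have h1 := hn6 g (by rw [hq1]; exact hg)
        rw [hq2, fm_val] at h1
        exact h1
    · intro p hp hpl hdvd
      apply hn4 p hp hpl
      have e : (n : ℤ) - s y = ((n + y : ℕ) : ℤ) - ((y + s y : ℕ) : ℤ) := by push_cast; ring
      rw [e]
      exact hdvd
  set W : ℕ → ℕ := fun n =>
    ((range (L + s₀ + 1)).filter (fun j : ℕ => Rgh δ N (n - j))).card with hW
  have hcount : ∑ y ∈ fib, (R y).card ≤ (s₀ + 1) * ∑ n ∈ G, W n := by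
    calc ∑ y ∈ fib, (R y).card
        ≤ ∑ y ∈ fib, (bipartiteAbove (fun y n' => ∃ n ∈ R y, n + y = n') G y).card := by
          refine sum_le_sum fun y hy => ?_
          refine card_le_card_of_injOn (fun n => n + y) ?_ ?_
          · intro n hn
            simp only [coe_bipartiteAbove, Set.mem_ofPred_eq]
            exact ⟨(hmem y hy n hn).1, n, hn, rfl⟩
          · intro a _ b _ hab
            simpa using hab
      _ = ∑ n' ∈ G, (bipartiteBelow (fun y n' => ∃ n ∈ R y, n + y = n') fib n').card :=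
          sum_card_bipartiteAbove_eq_sum_card_bipartiteBelow _
      _ ≤ ∑ n' ∈ G, (s₀ + 1) * W n' := by
          refine sum_le_sum fun n' _ => ?_
          refine fib_le _ s s₀ ?_ _ ?_
          · intro y hy
            exact hs y (mem_filter.1 (mem_filter.1 hy).1).1
          · intro y hy
            obtain ⟨hy1, n, hn, rfl⟩ := mem_filter.1 hy
            have h1 := (mem_Icc.1 (mem_filter.1 hy1).1).2
            have h2 := hs y (mem_filter.1 hy1).1
            refine mem_filter.2 ⟨mem_range.2 (by omega), (hmem y hy1 n hn).2⟩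
      _ = (s₀ + 1) * ∑ n ∈ G, W n := by rw [mul_sum]
  have hcount' : (∑ y ∈ fib, ((R y).card : ℝ)) ≤ (s₀ + 1) * ∑ n ∈ G, (W n : ℝ) := by
    exact_mod_cast hcount
  have hX2 : (Real.log N) * X = c * (N / (Real.log N) ^ (T * K)) := by
    rw [hX, pow_succ]
    field_simp
  have hs0 : (0 : ℝ) < s₀ + 1 := by positivity
  have h1 : c / 2 * (N / (Real.log N) ^ (T * K)) ≤ L * X := by
    have h2 : Real.log N / 2 ≤ L := by linarith
    calc c / 2 * (N / (Real.log N) ^ (T * K)) = Real.log N / 2 * X := by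
          rw [← mul_left_inj' (two_ne_zero' ℝ)]
          linear_combination -hX2
      _ ≤ L * X := by gcongr
  calc c / (2 * P * (s₀ + 1)) * (N / (Real.log N) ^ (T * K))
      = (c / 2 * (N / (Real.log N) ^ (T * K))) / P / (s₀ + 1) := by
        field_simp
    _ ≤ (L * X) / P / (s₀ + 1) := by gcongr
    _ ≤ (∑ y ∈ fib, ((R y).card : ℝ)) / (s₀ + 1) := by gcongr
    _ ≤ ∑ n ∈ G, (W n : ℝ) := by
        rw [div_le_iff₀ hs0, mul_comm]
        exact hcount'

end Pool.Agent.N679.RG.HIT4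

namespace Pool.Agent.N679.RG

/-- **HIT4** -/
theorem t_HIT4 : S_HIT4 := HIT4.main

end Pool.Agent.N679.RG
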