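import Pool.Agent.N679.RG.Stm5

/-!
# Project RN (helper679): CB1, elementary counting of tuples (helper982)
-/

set_option autoImplicit false

namespace Pool.Agent.N679.RG

open Finset

namespace CB1

open Classical in
/-- the injective functions with values in `A` and the first value `a` -/
noncomputable def Y (k : ℕ) (A : Finset ℤ) (a : ℤ) : Finset (Fin (k + 1) → ℤ) :=
  (Fintype.piFinset (fun _ : Fin (k + 1) => A)).filter (fun y => Function.Injective y ∧ y 0 = a)

lemma mem_Y {k : ℕ} {A : Finset ℤ} {a : ℤ} {y : Fin (k + 1) → ℤ} :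
    y ∈ Y k A a ↔ (∀ i, y i ∈ A) ∧ Function.Injective y ∧ y 0 = a := by
  unfold Y
  rw [mem_filter, Fintype.mem_piFinset]

lemma card_Y (k : ℕ) (A : Finset ℤ) (a : ℤ) (ha : a ∈ A) :
    (A.card - k) ^ k ≤ (Y k A a).card := by
  classical
  have h1 : (A.card - k) ^ k ≤ Fintype.card (Fin k ↪ (A.erase a : Finset ℤ)) := by
    rw [Fintype.card_embedding_eq, Fintype.card_fin, Fintype.card_coe, card_erase_of_mem ha]
    have h := Nat.pow_sub_le_descFactorial (A.card - 1) k
    have hA : 0 < A.card := card_pos.2 ⟨a, ha⟩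
    have e : A.card - 1 + 1 - k = A.card - k := by omega
    rwa [e] at h
  refine h1.trans ?_
  rw [← Finset.card_univ]
  refine card_le_card_of_injOn (fun f : Fin k ↪ (A.erase a : Finset ℤ) =>
    (Fin.cons a (fun i => ((f i : (A.erase a : Finset ℤ)) : ℤ)) : Fin (k + 1) → ℤ)) ?_ ?_
  · intro f _
    have hf : ∀ i, ((f i : (A.erase a : Finset ℤ)) : ℤ) ≠ a ∧
        ((f i : (A.erase a : Finset ℤ)) : ℤ) ∈ A := fun i => mem_erase.1 (f i).2
    rw [mem_coe, mem_Y]
    refine ⟨?_, ?_, ?_⟩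
    · intro i
      refine Fin.cases ?_ (fun j => ?_) i
      · simpa using ha
      · simpa using (hf j).2
    · rw [Fin.cons_injective_iff]
      refine ⟨?_, ?_⟩
      · rintro ⟨i, hi⟩
        exact (hf i).1 hi
      · intro i j hij
        exact f.injective (Subtype.ext hij)
    · simp
  · intro f _ f' _ h
    have h' := Fin.cons_injective2 h
    ext i
    exact congrFun h'.2 i

lemma card_Y_real (k T : ℕ) (A : Finset ℤ) (c : ℝ) (hc : 0 < c) (hk : (k : ℝ) ≤ c / 2 * T)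
    (hA : c * T ≤ (A.card : ℝ)) (a : ℤ) (ha : a ∈ A) :
    (c / 2 * T) ^ k ≤ ((Y k A a).card : ℝ) := by
  have hT : (0 : ℝ) ≤ T := Nat.cast_nonneg T
  have h1 : ((A.card - k : ℕ) : ℝ) ^ k ≤ ((Y k A a).card : ℝ) := by
    exact_mod_cast card_Y k A a ha
  refine le_trans (pow_le_pow_left₀ (by positivity) ?_ k) h1
  have hkA : k ≤ A.card := by
    have : (k : ℝ) ≤ (A.card : ℝ) := by nlinarith
    exact_mod_cast this
  rw [Nat.cast_sub hkA]
  linarith

lemma diff_mem (k T : ℕ) (A : Finset ℤ) (hA : A ⊆ Ico 0 (T : ℤ)) (y : Fin (k + 1) → ℤ)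
    (hy : ∀ i, y i ∈ A) (hinj : Function.Injective y) :
    (fun i : Fin k => y i.succ - y 0) ∈ vecs k T := by
  unfold vecs
  rw [mem_filter, Fintype.mem_piFinset]
  refine ⟨fun i => ?_, ?_, fun i => ?_⟩
  · have h1 := mem_Ico.1 (hA (hy i.succ))
    have h2 := mem_Ico.1 (hA (hy 0))
    rw [mem_Icc]
    constructor <;> omega
  · intro i j hij
    have h1 : y i.succ = y j.succ := by
      have : y i.succ - y 0 = y j.succ - y 0 := hij
      linarith
    exact Fin.succ_injective _ (hinj h1)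
  · intro h
    have h1 : y i.succ = y 0 := by
      have : y i.succ - y 0 = 0 := h
      linarith
    exact Fin.succ_ne_zero i (hinj h1)

lemma recover {k : ℕ} {y y' : Fin (k + 1) → ℤ} (h0 : y 0 = y' 0)
    (h : (fun i : Fin k => y i.succ - y 0) = fun i => y' i.succ - y' 0) : y = y' := by
  funext i
  refine Fin.cases h0 (fun j => ?_) i
  have h1 : y j.succ - y 0 = y' j.succ - y' 0 := congrFun h j
  linarith

end CB1

open CB1

theorem t_CB1 : S_CB1 := by
  classical
  intro k c τ hc hτ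
  set c' : ℝ := (c / 2) ^ (2 * k) with hc'
  have hc'0 : 0 < c' := by positivity
  obtain ⟨T₁, hT₁⟩ := exists_nat_gt ((k : ℝ) / (c / 2))
  refine ⟨τ * c' / 2, c' / 2, T₁ + 1, by positivity, by positivity, ?_⟩
  intro T A C U Gd Gv hT hA hC hcA hcC hbad hGd hU
  have hT0 : (0 : ℝ) < T := by
    have : 0 < T := by omega
    exact_mod_cast this
  have hkT : (k : ℝ) ≤ c / 2 * T := by
    have h1 : (T₁ : ℝ) ≤ T := by exact_mod_cast (by omega : T₁ ≤ T)
    rw [div_lt_iff₀ (by positivity)] at hT₁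
    nlinarith
  set P : Finset (ℤ × ℤ) := (A ×ˢ C).filter (fun p => p.1 + p.2 ∈ U) with hP
  set S : Finset ((Fin (k + 1) → ℤ) × (Fin (k + 1) → ℤ)) :=
    ((Fintype.piFinset (fun _ : Fin (k + 1) => A)) ×ˢ
      (Fintype.piFinset (fun _ : Fin (k + 1) => C))).filter
      (fun y => Function.Injective y.1 ∧ Function.Injective y.2 ∧ y.1 0 + y.2 0 ∈ U) with hS
  have memS : ∀ w : (Fin (k + 1) → ℤ) × (Fin (k + 1) → ℤ), w ∈ S ↔
      ((∀ i, w.1 i ∈ A) ∧ (∀ i, w.2 i ∈ C)) ∧
        Function.Injective w.1 ∧ Function.Injective w.2 ∧ w.1 0 + w.2 0 ∈ U := by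
    intro w
    rw [hS, mem_filter, mem_product, Fintype.mem_piFinset, Fintype.mem_piFinset]
  have mapP : ∀ w ∈ S, (w.1 0, w.2 0) ∈ P := by
    intro w hw
    rw [memS] at hw
    rw [hP, mem_filter, mem_product]
    exact ⟨⟨hw.1.1 0, hw.1.2 0⟩, hw.2.2.2⟩
  -- lower bound
  have hlow : (P.card : ℝ) * (c' * (T : ℝ) ^ (2 * k)) ≤ (S.card : ℝ) := by
    have e := card_eq_sum_card_fiberwise (f := fun w : (Fin (k + 1) → ℤ) × (Fin (k + 1) → ℤ) =>
      (w.1 0, w.2 0)) (s := S) (t := P) (fun w hw => mapP w hw)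
    rw [e, Nat.cast_sum, ← nsmul_eq_mul, ← sum_const]
    refine sum_le_sum fun p hp => ?_
    rw [hP, mem_filter, mem_product] at hp
    have hfib : (Y k A p.1 ×ˢ Y k C p.2) ⊆
        S.filter (fun w => (w.1 0, w.2 0) = p) := by
      intro w hw
      rw [mem_product, mem_Y, mem_Y] at hw
      rw [mem_filter, memS]
      refine ⟨⟨⟨hw.1.1, hw.2.1⟩, hw.1.2.1, hw.2.2.1, ?_⟩, ?_⟩
      · rw [hw.1.2.2, hw.2.2.2]
        exact hp.2
      · rw [hw.1.2.2, hw.2.2.2]
    have h1 : ((Y k A p.1).card : ℝ) * ((Y k C p.2).card : ℝ) ≤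
        ((S.filter (fun w => (w.1 0, w.2 0) = p)).card : ℝ) := by
      have := card_le_card hfib
      rw [card_product] at this
      exact_mod_cast this
    refine le_trans ?_ h1
    have h2 := card_Y_real k T A c hc hkT hcA p.1 hp.1.1
    have h3 := card_Y_real k T C c hc hkT hcC p.2 hp.1.2
    calc c' * (T : ℝ) ^ (2 * k) = (c / 2 * T) ^ k * (c / 2 * T) ^ k := by
          rw [hc', ← mul_pow, two_mul, pow_add]
      _ ≤ _ := mul_le_mul h2 h3 (by positivity) (by positivity)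
  -- upper bound
  have hsplit : S.card = (S.filter (fun w => Gd w.1 w.2)).card +
      (S.filter (fun w => ¬ Gd w.1 w.2)).card := by
    rw [card_filter_add_card_filter_not]
  have hb : ((S.filter (fun w => ¬ Gd w.1 w.2)).card : ℝ) ≤
      τ * c' / 2 * (T : ℝ) ^ (2 * k + 2) := by
    refine le_trans ?_ hbad
    refine Nat.cast_le.2 (card_le_card ?_)
    intro w hw
    rw [mem_filter, memS] at hw
    rw [mem_filter, mem_product, Fintype.mem_piFinset, Fintype.mem_piFinset]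
    exact ⟨hw.1.1, hw.1.2.1, hw.1.2.2.1, hw.2⟩
  have hg : ((S.filter (fun w => Gd w.1 w.2)).card : ℝ) ≤
      (P.card : ℝ) * (c' / 2 * (T : ℝ) ^ (2 * k)) := by
    have e := card_eq_sum_card_fiberwise (f := fun w : (Fin (k + 1) → ℤ) × (Fin (k + 1) → ℤ) =>
      (w.1 0, w.2 0)) (s := S.filter (fun w => Gd w.1 w.2)) (t := P)
      (fun w hw => mapP w (mem_filter.1 hw).1)
    rw [e, Nat.cast_sum, ← nsmul_eq_mul, ← sum_const]
    refine sum_le_sum fun p hp => ?_
    rw [hP, mem_filter, mem_product] at hp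
    refine le_trans ?_ (hU (p.1 + p.2) hp.2)
    refine Nat.cast_le.2 (card_le_card_of_injOn
      (fun w => ((fun i : Fin k => w.1 i.succ - w.1 0), fun i : Fin k => w.2 i.succ - w.2 0)) ?_ ?_)
    · intro w hw
      rw [mem_coe, mem_filter, mem_filter, memS] at hw
      obtain ⟨⟨⟨⟨h1, h2⟩, h3, h4, h5⟩, h6⟩, h7⟩ := hw
      rw [mem_coe, mem_filter, mem_product]
      refine ⟨⟨diff_mem k T A hA w.1 h1 h3, diff_mem k T C hC w.2 h2 h4⟩, ?_⟩
      have h8 := hGd w.1 w.2 h6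
      have h9 : w.1 0 = p.1 := congrArg Prod.fst h7
      have h10 : w.2 0 = p.2 := congrArg Prod.snd h7
      rw [← h9, ← h10]
      exact h8
    · intro w hw w' hw' h
      rw [mem_coe, mem_filter] at hw hw'
      have h1 := hw.2.trans hw'.2.symm
      have h2 : w.1 0 = w'.1 0 := congrArg Prod.fst h1
      have h3 : w.2 0 = w'.2 0 := congrArg Prod.snd h1
      exact Prod.ext (recover h2 (congrArg Prod.fst h)) (recover h3 (congrArg Prod.snd h))
  have hfin : (P.card : ℝ) * (c' * (T : ℝ) ^ (2 * k)) ≤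
      (P.card : ℝ) * (c' / 2 * (T : ℝ) ^ (2 * k)) + τ * c' / 2 * (T : ℝ) ^ (2 * k + 2) := by
    have : (S.card : ℝ) = ((S.filter (fun w => Gd w.1 w.2)).card : ℝ) +
      ((S.filter (fun w => ¬ Gd w.1 w.2)).card : ℝ) := by exact_mod_cast hsplit
    linarith
  have hpos : (0 : ℝ) < c' / 2 * (T : ℝ) ^ (2 * k) := by positivity
  have hP2 : (P.card : ℝ) * (c' / 2 * (T : ℝ) ^ (2 * k)) ≤
      (τ * (T : ℝ) ^ 2) * (c' / 2 * (T : ℝ) ^ (2 * k)) := by
    have e : (τ * (T : ℝ) ^ 2) * (c' / 2 * (T : ℝ) ^ (2 * k)) =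
        τ * c' / 2 * (T : ℝ) ^ (2 * k + 2) := by
      rw [pow_add]; ring
    rw [e]
    have e2 : (P.card : ℝ) * (c' * (T : ℝ) ^ (2 * k)) =
        (P.card : ℝ) * (c' / 2 * (T : ℝ) ^ (2 * k)) + (P.card : ℝ) * (c' / 2 * (T : ℝ) ^ (2 * k)) := by
      ring
    linarith
  exact le_of_mul_le_mul_right hP2 hpos

end Pool.Agent.N679.RG
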