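import Pool.Agent.N679.RG.Stm5

/-! Project RN (helper679), part CB2 (helper78): counting of tuples with a given difference. -/

set_option autoImplicit false

namespace Pool.Agent.N679.RG

open Finset Filter Topology

namespace CB2

/-- the elements `z` of `A` with `z + h` in `A` -/
theorem card_shift (A : Finset ℤ) (T h : ℕ) (hA : A ⊆ Ico 0 (T : ℤ)) :
    2 * A.card ≤ T + h + (A.filter (fun z : ℤ => z + (h : ℤ) ∈ A)).card := by
  classical
  have h1 := Finset.card_union_add_card_inter A (A.image (fun a => a - (h : ℤ)))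
  have h2 : (A.image (fun a => a - (h : ℤ))).card = A.card :=
    Finset.card_image_of_injective _ (sub_left_injective)
  have h3 : A ∩ A.image (fun a => a - (h : ℤ)) = A.filter (fun z : ℤ => z + (h : ℤ) ∈ A) := by
    ext z
    simp only [Finset.mem_inter, Finset.mem_image, Finset.mem_filter]
    constructor
    · rintro ⟨hz, a, ha, rfl⟩
      exact ⟨hz, by simpa using ha⟩
    · rintro ⟨hz, hz'⟩
      exact ⟨hz, z + h, hz', by ring⟩
  have h4 : A ∪ A.image (fun a => a - (h : ℤ)) ⊆ Ico (-(h : ℤ)) (T : ℤ) := by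
    intro z hz
    rcases Finset.mem_union.1 hz with hz | hz
    · have := Finset.mem_Ico.1 (hA hz)
      rw [Finset.mem_Ico]
      omega
    · obtain ⟨a, ha, rfl⟩ := Finset.mem_image.1 hz
      have := Finset.mem_Ico.1 (hA ha)
      rw [Finset.mem_Ico]
      omega
  have h5 := Finset.card_le_card h4
  rw [Int.card_Ico] at h5
  rw [h2, h3] at h1
  omega

open Classical in
/-- the tuples with given difference -/
noncomputable def Yh (k : ℕ) (A : Finset ℤ) (h : ℤ) : Finset (Fin (k + 2) → ℤ) :=
  (Fintype.piFinset (fun _ : Fin (k + 2) => A)).filter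
    (fun y => Function.Injective y ∧ y 1 - y 0 = h)

theorem mem_Yh {k : ℕ} {A : Finset ℤ} {h : ℤ} {y : Fin (k + 2) → ℤ} :
    y ∈ Yh k A h ↔ (∀ i, y i ∈ A) ∧ Function.Injective y ∧ y 1 - y 0 = h := by
  unfold Yh
  rw [Finset.mem_filter, Fintype.mem_piFinset]

theorem Yh_lower (k : ℕ) (A : Finset ℤ) (h : ℕ) (hh : 1 ≤ h) :
    (A.filter (fun z : ℤ => z + (h : ℤ) ∈ A)).card * (A.card - 2).descFactorial k ≤ (Yh k A h).card := by
  classical
  set P := A.filter (fun z => z + (h : ℤ) ∈ A) with hP
  have hmemP : ∀ z, z ∈ P → z ∈ A ∧ z + h ∈ A := fun z hz => Finset.mem_filter.1 hz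
  let f : (Σ z : {z // z ∈ P}, (Fin k ↪ {a // a ∈ (A.erase z.1).erase (z.1 + h)})) →
      {y // y ∈ Yh k A h} := fun p => ⟨Fin.cons p.1.1 (Fin.cons (p.1.1 + h) (fun i => (p.2 i).1)), by
    have hz := hmemP p.1.1 p.1.2
    have he : ∀ i, (p.2 i).1 ≠ p.1.1 + h ∧ (p.2 i).1 ≠ p.1.1 ∧ (p.2 i).1 ∈ A := fun i => by
      have h1 := Finset.mem_erase.1 (p.2 i).2
      have h2 := Finset.mem_erase.1 h1.2
      exact ⟨h1.1, h2.1, h2.2⟩
    rw [mem_Yh]
    refine ⟨?_, ?_, ?_⟩
    · intro i
      refine Fin.cases ?_ (fun i => ?_) i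
      · exact hz.1
      · refine Fin.cases ?_ (fun i => ?_) i
        · exact hz.2
        · exact (he i).2.2
    · rw [Fin.cons_injective_iff, Fin.cons_injective_iff]
      refine ⟨?_, ?_, ?_⟩
      · rintro ⟨i, hi⟩
        revert hi
        refine Fin.cases ?_ (fun i => ?_) i
        · intro hi
          rw [Fin.cons_zero] at hi
          omega
        · intro hi
          rw [Fin.cons_succ] at hi
          exact (he i).2.1 hi
      · rintro ⟨i, hi⟩
        exact (he i).1 hi
      · intro i j hij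
        exact p.2.injective (Subtype.ext hij)
    · show (Fin.cons p.1.1 (Fin.cons (p.1.1 + h) (fun i => (p.2 i).1)) : Fin (k + 2) → ℤ) 1 -
        (Fin.cons p.1.1 (Fin.cons (p.1.1 + h) (fun i => (p.2 i).1)) : Fin (k + 2) → ℤ) 0 = h
      rw [Fin.cons_zero, show (1 : Fin (k + 2)) = Fin.succ 0 from rfl, Fin.cons_succ,
        Fin.cons_zero]
      ring⟩
  have hf : Function.Injective f := by
    rintro ⟨⟨z, hz⟩, e⟩ ⟨⟨z', hz'⟩, e'⟩ hee
    have h1 : (Fin.cons z (Fin.cons (z + h) (fun i => (e i).1)) : Fin (k + 2) → ℤ) =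
      Fin.cons z' (Fin.cons (z' + h) (fun i => (e' i).1)) := congrArg Subtype.val hee
    have h2 : z = z' := by
      have := congrFun h1 0
      rwa [Fin.cons_zero, Fin.cons_zero] at this
    subst h2
    have h3 : e = e' := by
      refine DFunLike.ext _ _ fun i => Subtype.ext ?_
      have := congrFun h1 i.succ.succ
      rwa [Fin.cons_succ, Fin.cons_succ, Fin.cons_succ, Fin.cons_succ] at this
    rw [h3]
  have hcard := Fintype.card_le_of_injective f hf
  rw [Fintype.card_sigma, Fintype.card_coe] at hcard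
  have hterm : ∀ z : {z // z ∈ P},
      Fintype.card (Fin k ↪ {a // a ∈ (A.erase z.1).erase (z.1 + h)}) =
        (A.card - 2).descFactorial k := by
    intro z
    have hz := hmemP z.1 z.2
    rw [Fintype.card_embedding_eq, Fintype.card_fin, Fintype.card_coe,
      Finset.card_erase_of_mem (Finset.mem_erase.2 ⟨by omega, hz.2⟩),
      Finset.card_erase_of_mem hz.1]
    rfl
  rw [Finset.sum_congr rfl (fun z _ => hterm z), Finset.sum_const, Finset.card_univ,
    Fintype.card_coe, smul_eq_mul] at hcard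
  exact hcard

end CB2

open Classical in
theorem t_CB2 : S_CB2 := by
  intro k η hη
  set c' : ℝ := (1 / 4) ^ k with hc'
  have hc0 : 0 < c' := by positivity
  refine ⟨η * c' / 2500, c' / 25, 4 * (k + 1) + 100, by positivity, by positivity, ?_⟩
  intro T A Gd Gv hT hA hAc hbad hGv
  set t : ℝ := (T : ℝ) with ht
  have ht100 : (100 : ℝ) ≤ t := by
    rw [ht]
    exact_mod_cast (by omega : 100 ≤ T)
  have ht0 : 0 < t := by linarith
  have htk : 4 * ((k : ℝ) + 1) + 100 ≤ t := by
    rw [ht]
    exact_mod_cast hT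
  -- the number of extensions
  have hdes : c' * t ^ k ≤ (((A.card - 2).descFactorial k : ℕ) : ℝ) := by
    have h1 := Nat.pow_sub_le_descFactorial (A.card - 2) k
    have h2 : t / 4 ≤ ((A.card - 2 + 1 - k : ℕ) : ℝ) := by
      have h3 : (A.card : ℝ) - 1 - k ≤ ((A.card - 2 + 1 - k : ℕ) : ℝ) := by
        have h4 : (A.card : ℤ) - 1 - k ≤ ((A.card - 2 + 1 - k : ℕ) : ℤ) := by omega
        exact_mod_cast h4
      linarith
    calc c' * t ^ k = (t / 4) ^ k := by
          rw [hc', ← mul_pow]
          congr 1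
          ring
      _ ≤ ((A.card - 2 + 1 - k : ℕ) : ℝ) ^ k := pow_le_pow_left₀ (by positivity) h2 k
      _ ≤ _ := by exact_mod_cast h1
  set Bd := (Icc 1 (T / 50)).filter (fun h : ℕ =>
      (((vecs k T).filter (fun g => (∀ i, g i ≠ (h : ℤ)) ∧ Gv h g)).card : ℝ) <
        c' / 25 * (T : ℝ) ^ k) with hBd
  -- one bad number
  have hone : ∀ h ∈ Bd, c' / 25 * t ^ (k + 1) ≤
      (((CB2.Yh k A h).filter (fun y => ¬ Gd y)).card : ℝ) := by
    intro h hh
    obtain ⟨hh1, hh2⟩ := Finset.mem_filter.1 hh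
    obtain ⟨h1, h50⟩ := Finset.mem_Icc.1 hh1
    have hht : (h : ℝ) ≤ t / 50 := by
      have h3 : (h : ℝ) ≤ ((T / 50 : ℕ) : ℝ) := by exact_mod_cast h50
      have h4 : ((T / 50 : ℕ) : ℝ) ≤ t / 50 := by
        have := @Nat.cast_div_le ℝ _ _ _ T 50
        simpa using this
      linarith
    have hP : 2 / 25 * t ≤ ((A.filter (fun z => z + (h : ℤ) ∈ A)).card : ℝ) := by
      have h3 := CB2.card_shift A T h hA
      have h4 : 2 * (A.card : ℝ) ≤ t + h + ((A.filter (fun z => z + (h : ℤ) ∈ A)).card : ℝ) := by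
        rw [ht]
        exact_mod_cast h3
      linarith
    have hY : 2 / 25 * t * (c' * t ^ k) ≤ ((CB2.Yh k A h).card : ℝ) := by
      calc 2 / 25 * t * (c' * t ^ k) ≤ ((A.filter (fun z => z + (h : ℤ) ∈ A)).card : ℝ) *
            (((A.card - 2).descFactorial k : ℕ) : ℝ) := by gcongr
        _ ≤ _ := by exact_mod_cast CB2.Yh_lower k A h h1
    -- the good tuples
    have hG : (((CB2.Yh k A h).filter (fun y => Gd y)).card : ℝ) ≤ t * (c' / 25 * t ^ k) := by
      have h3 : ((CB2.Yh k A h).filter (fun y => Gd y)).card ≤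
          (A ×ˢ ((vecs k T).filter (fun g => (∀ i, g i ≠ (h : ℤ)) ∧ Gv h g))).card := by
        refine Finset.card_le_card_of_injOn (fun y => (y 0, fun i => y i.succ.succ - y 0)) ?_ ?_
        · intro y hy
          obtain ⟨hy1, hy2⟩ := Finset.mem_filter.1 (Finset.mem_coe.1 hy)
          obtain ⟨hyA, hyi, hyd⟩ := CB2.mem_Yh.1 hy1
          refine Finset.mem_coe.2 (Finset.mem_product.2 ⟨hyA 0, Finset.mem_filter.2 ⟨?_, ?_, ?_⟩⟩)
          · unfold vecs
            rw [Finset.mem_filter, Fintype.mem_piFinset]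
            refine ⟨fun i => ?_, fun i i' hii => ?_, fun i hi => ?_⟩
            · have e1 := Finset.mem_Ico.1 (hA (hyA i.succ.succ))
              have e2 := Finset.mem_Ico.1 (hA (hyA 0))
              rw [Finset.mem_Icc]
              show -(T : ℤ) ≤ y i.succ.succ - y 0 ∧ y i.succ.succ - y 0 ≤ T
              omega
            · have hii' : y i.succ.succ - y 0 = y i'.succ.succ - y 0 := hii
              have := hyi (sub_left_injective hii')
              exact Fin.succ_injective _ (Fin.succ_injective _ this)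
            · have hi' : y i.succ.succ - y 0 = 0 := hi
              have := hyi (sub_eq_zero.1 hi')
              exact absurd this (Fin.succ_ne_zero _)
          · intro i hi
            have hi' : y i.succ.succ - y 0 = (h : ℤ) := hi
            rw [← hyd] at hi'
            have := hyi (sub_left_injective hi')
            exact absurd (Fin.succ_injective _ this) (Fin.succ_ne_zero _)
          · have := hGv y hy2
            rw [hyd] at this
            exact this
        · intro y hy y' hy' hyy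
          have hyd := (CB2.mem_Yh.1 (Finset.mem_filter.1 (Finset.mem_coe.1 hy)).1).2.2
          have hyd' := (CB2.mem_Yh.1 (Finset.mem_filter.1 (Finset.mem_coe.1 hy')).1).2.2
          have e0 : y 0 = y' 0 := congrArg Prod.fst hyy
          have e1 : (fun i : Fin k => y i.succ.succ - y 0) = fun i => y' i.succ.succ - y' 0 :=
            congrArg Prod.snd hyy
          funext i
          refine Fin.cases e0 (fun i => ?_) i
          refine Fin.cases ?_ (fun i => ?_) i
          · show y 1 = y' 1
            omega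
          · have := congrFun e1 i
            omega
      rw [Finset.card_product] at h3
      have hAT : (A.card : ℝ) ≤ t := by
        have := Finset.card_le_card hA
        rw [Int.card_Ico] at this
        rw [ht]
        exact_mod_cast (by omega : A.card ≤ T)
      calc (((CB2.Yh k A h).filter (fun y => Gd y)).card : ℝ) ≤ (A.card : ℝ) *
            (((vecs k T).filter (fun g => (∀ i, g i ≠ (h : ℤ)) ∧ Gv h g)).card : ℝ) := by
            exact_mod_cast h3
        _ ≤ t * (c' / 25 * t ^ k) := by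
            refine mul_le_mul hAT hh2.le (Nat.cast_nonneg _) ht0.le
    have hsum := Finset.card_filter_add_card_filter_not (s := CB2.Yh k A h) (fun y => Gd y)
    have hsum' : (((CB2.Yh k A h).filter (fun y => Gd y)).card : ℝ) +
        (((CB2.Yh k A h).filter (fun y => ¬ Gd y)).card : ℝ) = ((CB2.Yh k A h).card : ℝ) := by
      exact_mod_cast hsum
    have e : t ^ (k + 1) = t * t ^ k := by rw [pow_succ, mul_comm]
    rw [e]
    nlinarith
  -- the sum over the bad numbers
  have htot : (Bd.card : ℝ) * (c' / 25 * t ^ (k + 1)) ≤ η * c' / 2500 * t ^ (k + 2) := by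
    have h1 : Bd.biUnion (fun h => (CB2.Yh k A (h : ℤ)).filter (fun y => ¬ Gd y)) ⊆
        (Fintype.piFinset (fun _ : Fin (k + 2) => A)).filter
          (fun y => Function.Injective y ∧ ¬ Gd y) := by
      intro y hy
      obtain ⟨h, -, hy⟩ := Finset.mem_biUnion.1 hy
      obtain ⟨hy1, hy2⟩ := Finset.mem_filter.1 hy
      obtain ⟨a1, a2, -⟩ := CB2.mem_Yh.1 hy1
      exact Finset.mem_filter.2 ⟨Fintype.mem_piFinset.2 a1, a2, hy2⟩
    have h2 : (Bd.biUnion (fun h => (CB2.Yh k A (h : ℤ)).filter (fun y => ¬ Gd y))).card =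
        ∑ h ∈ Bd, ((CB2.Yh k A (h : ℤ)).filter (fun y => ¬ Gd y)).card := by
      refine Finset.card_biUnion fun h _ h' _ hne => ?_
      show Disjoint ((CB2.Yh k A (h : ℤ)).filter (fun y => ¬ Gd y))
        ((CB2.Yh k A (h' : ℤ)).filter (fun y => ¬ Gd y))
      rw [Finset.disjoint_left]
      intro y hy hy'
      have e1 := (CB2.mem_Yh.1 (Finset.mem_filter.1 hy).1).2.2
      have e2 := (CB2.mem_Yh.1 (Finset.mem_filter.1 hy').1).2.2
      apply hne
      have : (h : ℤ) = h' := by rw [← e1, ← e2]
      exact_mod_cast this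
    have h3 := Finset.card_le_card h1
    rw [h2] at h3
    calc (Bd.card : ℝ) * (c' / 25 * t ^ (k + 1)) = ∑ _h ∈ Bd, (c' / 25 * t ^ (k + 1)) := by
          rw [Finset.sum_const, nsmul_eq_mul]
      _ ≤ ∑ h ∈ Bd, (((CB2.Yh k A (h : ℤ)).filter (fun y => ¬ Gd y)).card : ℝ) :=
          Finset.sum_le_sum hone
      _ ≤ ((((Fintype.piFinset (fun _ : Fin (k + 2) => A)).filter
          (fun y => Function.Injective y ∧ ¬ Gd y)).card : ℕ) : ℝ) := by exact_mod_cast h3
      _ ≤ η * c' / 2500 * t ^ (k + 2) := hbad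
  have hfin : (Bd.card : ℝ) ≤ η * (t / 100) := by
    have hpos : 0 < c' / 25 * t ^ (k + 1) := by positivity
    have e : η * c' / 2500 * t ^ (k + 2) = η * (t / 100) * (c' / 25 * t ^ (k + 1)) := by
      rw [pow_succ t (k + 1)]
      ring
    rw [e] at htot
    exact le_of_mul_le_mul_right htot hpos
  refine hfin.trans ?_
  have h50 : t / 100 ≤ ((T / 50 : ℕ) : ℝ) := by
    have h1 : T ≤ 100 * (T / 50) := by omega
    have h2 : t ≤ 100 * ((T / 50 : ℕ) : ℝ) := by
      rw [ht]
      exact_mod_cast h1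
    linarith
  exact mul_le_mul_of_nonneg_left h50 hη.le

end Pool.Agent.N679.RG
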