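import Pool.Agent.N679.RG.Stm4

/-!
# Project RN (helper679): clusters of primes (tuples with the right order of magnitude)

`RN1`: for 5 / 9 of the even `m` in every window of length `λ log x` there are representations `m = p + q` with
clusters of `k + 1` primes around `p` and around `q`, with the right order of magnitude, or almost all multiples `d` of a
bounded number are differences of two primes in clusters of `2 k + 2` primes.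
`RN2`: the same for `p - q = d`, in every window away from zero.

Statements of the independent parts (continuation of `Stm4.lean`).
-/

set_option autoImplicit false

namespace Pool.Agent.N679.RG

open Finset Filter Topology
open Pool.Agent.N646.RO (Rgh)

open Classical in
/-- **ABSK** (abstract; as ABS, with subsets of `L` elements in place of pairs): for most configurations there is a
large transversal all of whose subsets of `L` elements are good. -/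
def S_ABSK : Prop := ∀ (T K M L : ℕ) (c C δ' : ℝ), 1 ≤ L → 0 < c → 0 < C → 0 < δ' → ∃ κ : ℝ, 0 < κ ∧
  ∀ (V : Finset (Bool × ℕ)) (Ω : Finset ℕ) (R P : ℕ → Bool × ℕ → Prop) (B : ℕ → ℝ) (N l : ℝ),
    0 < N → 0 < l → (∀ n u, P n u → R n u) → (∀ n, 0 ≤ B n) →
    (∀ r : ℕ, r ≤ 4 * (T * K) → ∑ n ∈ Ω, ((V.filter (fun u => R n u)).card : ℝ) ^ r ≤ C * N * (V.card / l) ^ r) →
    (∑ n ∈ Ω, B n ^ 4 ≤ C * N) →
    (∀ H : Fin T × Fin K → Bool × ℕ, Function.Injective H → (∀ x, H x ∈ V) →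
      ∃ (S : Finset (Fin T)) (σ : Fin T → Fin K), M + 1 ≤ S.card ∧
        c * (N / l ^ (T * K)) ≤ ∑ n ∈ Ω.filter (fun n => (∀ x, R n (H x)) ∧ ∀ g ∈ S, P n (H (g, σ g))), B n) →
    (((Fintype.piFinset (fun _ : Fin T × Fin K => V)).filter (fun H => Function.Injective H ∧
      ¬ ∃ (S : Finset (Fin T)) (σ : Fin T → Fin K), M + 1 ≤ S.card ∧ ∀ J ⊆ S, J.card = L →
        κ * (N / l ^ L) ≤ ((Ω.filter (fun n => ∀ g ∈ J, P n (H (g, σ g)))).card : ℝ))).card : ℝ) ≤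
      δ' * (V.card : ℝ) ^ (T * K)

/-! ## RN1: sums -/

/-- the number of the `n` at which all forms in `J` are prime -/
def prJ (E M N : ℕ) (J : Finset (Bool × ℕ)) : ℕ :=
  ((Icc (N / 18) (5 * N / 9)).filter (fun n : ℕ => ∀ u ∈ J, (fv E M n u).toNat.Prime)).card

open Classical in
/-- the tuples of `L + 1` different elements of `A` whose forms are not prime simultaneously with the right order of
magnitude -/
noncomputable def badJ (E M N L : ℕ) (κ : ℝ) (A : Finset (Bool × ℕ)) : Finset (Fin (L + 1) → Bool × ℕ) :=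
  (Fintype.piFinset (fun _ : Fin (L + 1) => A)).filter (fun y => Function.Injective y ∧
    (prJ E M N (univ.image y) : ℝ) < κ * (N / (Real.log N) ^ (L + 1)))

/-- **CLQK** (from HIT2, MOM2, ABSK; as CLQ3 with tuples) almost cliques of density `5 / 18` among the `2 T` forms. -/
def S_CLQK : Prop := ∀ (L : ℕ) (ε : ℝ), 0 < ε → ∃ M₀ : ℕ, 1 ≤ M₀ ∧ Even M₀ ∧ ∀ (Q : ℕ) (lam : ℝ), 0 < lam →
  ∃ κ : ℝ, 0 < κ ∧ ∀ᶠ N : ℕ in atTop, ∀ q T E : ℕ, 1 ≤ q → q ≤ Q → lam * Real.log N ≤ T → Even E →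
    3 * N ≤ 5 * E → E + (q * M₀) * T ≤ N →
    ∃ A ⊆ (univ : Finset Bool) ×ˢ range T, (5 / 9 - ε) * T ≤ (A.card : ℝ) ∧
      ((badJ E (q * M₀) N L κ A).card : ℝ) ≤ ε * (T : ℝ) ^ (L + 1)

/-- the vectors of `k` different nonzero integers in `[-T, T]` -/
noncomputable def vecs (k T : ℕ) : Finset (Fin k → ℤ) :=
  (Fintype.piFinset (fun _ : Fin k => Icc (-(T : ℤ)) T)).filter (fun h => Function.Injective h ∧ ∀ i, h i ≠ 0)

open Classical in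
/-- **CB1** (counting, elementary). -/
def S_CB1 : Prop := ∀ (k : ℕ) (c τ : ℝ), 0 < c → 0 < τ → ∃ (ε δ : ℝ) (T₀ : ℕ), 0 < ε ∧ 0 < δ ∧
  ∀ (T : ℕ) (A C U : Finset ℤ) (Gd : (Fin (k + 1) → ℤ) → (Fin (k + 1) → ℤ) → Prop)
    (Gv : ℤ → (Fin k → ℤ) → (Fin k → ℤ) → Prop), T₀ ≤ T →
    A ⊆ Ico 0 (T : ℤ) → C ⊆ Ico 0 (T : ℤ) → c * T ≤ (A.card : ℝ) → c * T ≤ (C.card : ℝ) →
    (((((Fintype.piFinset (fun _ : Fin (k + 1) => A)) ×ˢ (Fintype.piFinset (fun _ : Fin (k + 1) => C))).filter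
      (fun y => Function.Injective y.1 ∧ Function.Injective y.2 ∧ ¬ Gd y.1 y.2)).card : ℝ) ≤
        ε * (T : ℝ) ^ (2 * k + 2)) →
    (∀ y z, Gd y z → Gv (y 0 + z 0) (fun i => y i.succ - y 0) (fun i => z i.succ - z 0)) →
    (∀ r ∈ U, (((vecs k T ×ˢ vecs k T).filter (fun v => Gv r v.1 v.2)).card : ℝ) ≤ δ * (T : ℝ) ^ (2 * k)) →
    (((A ×ˢ C).filter (fun p => p.1 + p.2 ∈ U)).card : ℝ) ≤ τ * (T : ℝ) ^ 2

open Classical in
/-- **CB2** (counting, elementary). -/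
def S_CB2 : Prop := ∀ (k : ℕ) (η : ℝ), 0 < η → ∃ (ε δ : ℝ) (T₀ : ℕ), 0 < ε ∧ 0 < δ ∧
  ∀ (T : ℕ) (A : Finset ℤ) (Gd : (Fin (k + 2) → ℤ) → Prop) (Gv : ℤ → (Fin k → ℤ) → Prop), T₀ ≤ T →
    A ⊆ Ico 0 (T : ℤ) → 11 / 20 * (T : ℝ) ≤ (A.card : ℝ) →
    ((((Fintype.piFinset (fun _ : Fin (k + 2) => A)).filter
      (fun y => Function.Injective y ∧ ¬ Gd y)).card : ℝ) ≤ ε * (T : ℝ) ^ (k + 2)) →
    (∀ y, Gd y → Gv (y 1 - y 0) (fun i => y i.succ.succ - y 0)) →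
    (((Icc 1 (T / 50)).filter (fun h : ℕ =>
      (((vecs k T).filter (fun g => (∀ i, g i ≠ (h : ℤ)) ∧ Gv h g)).card : ℝ) < δ * (T : ℝ) ^ k)).card : ℝ) ≤
      η * ((T / 50 : ℕ) : ℝ)

/-- the number of the primes `p ≤ m` such that `m - p` is prime, and all `p + h i`, `m - p + h' i` are prime -/
def gV {k : ℕ} (m : ℕ) (h h' : Fin k → ℤ) : ℕ :=
  ((range (m + 1)).filter (fun p : ℕ => p.Prime ∧ (m - p).Prime ∧ (∀ i, ((p : ℤ) + h i).toNat.Prime) ∧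
    ∀ i, ((m : ℤ) - p + h' i).toNat.Prime)).card

/-- the number of the primes `p ≤ x` such that `p + d` and all `p + g i` are prime -/
def pV {k : ℕ} (x d : ℕ) (g : Fin k → ℤ) : ℕ :=
  ((Icc 1 x).filter (fun p : ℕ => p.Prime ∧ (p + d).Prime ∧ ∀ i, ((p : ℤ) + g i).toNat.Prime)).card

open Classical in
/-- `m = p + q` with clusters of `k + 1` primes around `p` and around `q` -/
def RichG (k : ℕ) (δ κ : ℝ) (T m : ℕ) : Prop :=
  δ * (T : ℝ) ^ (2 * k) ≤ (((vecs k T ×ˢ vecs k T).filter (fun v =>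
    κ * (m / (Real.log m) ^ (2 * k + 2)) ≤ (gV m v.1 v.2 : ℝ))).card : ℝ)

open Classical in
/-- `p`, `p + d` in clusters of `k + 2` primes, `p ≤ y` -/
def RichP (k : ℕ) (δ κ : ℝ) (T x y d : ℕ) : Prop :=
  δ * (T : ℝ) ^ k ≤ (((vecs k T).filter (fun g => (∀ i, g i ≠ (d : ℤ)) ∧
    κ * (x / (Real.log x) ^ (k + 2)) ≤ (pV y d g : ℝ))).card : ℝ)

open Classical in
/-- **FINK** (from CLQK, INC, CORE2, CB1, CB2; as FIN2). -/
def S_FINK : Prop := ∀ (k : ℕ) (ε : ℝ), 0 < ε → ∃ (Q : ℕ) (c δ : ℝ), 0 < c ∧ 0 < δ ∧ ∀ lam : ℝ, 0 < lam →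
  ∃ κ : ℝ, 0 < κ ∧ ∀ᶠ x : ℕ in atTop, ∀ T : ℕ, lam * Real.log x ≤ T → 1000 * T ≤ x →
    (((Ioc x (x + T)).filter (fun m => Even m ∧ ¬ RichG k δ κ T m)).card : ℝ) ≤ (2 / 9 + ε) * T ∨
    ∃ q X : ℕ, 1 ≤ q ∧ q ≤ Q ∧ c * T ≤ (X : ℝ) ∧ X ≤ T ∧
      (((Icc 1 X).filter (fun d => q ∣ d ∧ ¬ RichP (2 * k) δ κ T x (2 * x) d)).card : ℝ) ≤ ε * (X / q)

/-! ## RN2: differences -/

/-- the local and size conditions for the pair of the forms `n + s`, `n + t`: the forms `n + s + M v`, `n + t + M v'`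
(`v, v' ≤ V`) are different -/
def Le (V M : ℕ) (s t : ℤ) (N : ℕ) : Prop :=
  Even (t - s) ∧ (∀ v v' : ℕ, v ≤ V → v' ≤ V → s + M * v ≠ t + M * v') ∧ 50 * |s| ≤ N ∧ 50 * |t| ≤ N

open Classical in
/-- **HIT5** one configuration of forms (as HIT4; the forms are different by `Le`). -/
def S_HIT5 : Prop :=
  ∀ T M : ℕ, 1 ≤ T → (18 / 5 : ℝ) * M < T → ∃ K r : ℕ, 1 ≤ K ∧ ∃ δ c : ℝ, 0 < δ ∧ 0 < c ∧
  ∀ᶠ N : ℕ in atTop, ∀ (V M₀ : ℕ) (s t : ℤ), 1 ≤ M₀ → (∀ p : ℕ, p.Prime → p ≤ T * K → p ∣ M₀) →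
    Le V M₀ s t N →
    ∀ H : Fin T × Fin K → Bool × ℕ, Function.Injective H → (∀ x, (H x).2 ≤ V) →
      (∀ x, 200 * (M₀ * (H x).2) ≤ N) →
    ∃ (S : Finset (Fin T)) (σ : Fin T → Fin K), M + 1 ≤ S.card ∧
      c * (N / (Real.log N) ^ (T * K)) ≤
        ∑ n ∈ (Icc (N / 18) (5 * N / 9)).filter (fun n : ℕ => (∀ x, Rgh δ N (fw 1 1 s t M₀ n (H x))) ∧
            ∀ g ∈ S, (fw 1 1 s t M₀ n (H (g, σ g))).toNat.Prime),
          (((range (⌊Real.log N⌋₊ + r + 1)).filter (fun j : ℕ => Rgh δ N (n - j))).card : ℝ)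

/-- the number of the `n` at which all forms in `J` are prime -/
def pwJ (s t : ℤ) (M N : ℕ) (J : Finset (Bool × ℕ)) : ℕ :=
  ((Icc (N / 18) (5 * N / 9)).filter (fun n : ℕ => ∀ u ∈ J, (fw 1 1 s t M n u).toNat.Prime)).card

open Classical in
/-- the tuples of `L + 1` different elements of `A` whose forms are not prime simultaneously with the right order of
magnitude -/
noncomputable def badW (s t : ℤ) (M N L : ℕ) (κ : ℝ) (A : Finset (Bool × ℕ)) : Finset (Fin (L + 1) → Bool × ℕ) :=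
  (Fintype.piFinset (fun _ : Fin (L + 1) => A)).filter (fun y => Function.Injective y ∧
    (pwJ s t M N (univ.image y) : ℝ) < κ * (N / (Real.log N) ^ (L + 1)))

/-- **CLQW** (from HIT5, MOM3, ABSK; as CLQ5 with tuples). -/
def S_CLQW : Prop := ∀ (L : ℕ) (ε : ℝ), 0 < ε → ∃ M₀ : ℕ, 1 ≤ M₀ ∧ Even M₀ ∧ ∀ (Q : ℕ) (lam : ℝ), 0 < lam →
  ∃ κ : ℝ, 0 < κ ∧ ∀ᶠ N : ℕ in atTop, ∀ (q T : ℕ) (s t : ℤ), 1 ≤ q → q ≤ Q → lam * Real.log N ≤ T →
    Le T (q * M₀) s t N → 200 * ((q * M₀) * T) ≤ N →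
    ∃ A ⊆ (univ : Finset Bool) ×ˢ range T, (5 / 9 - ε) * T ≤ (A.card : ℝ) ∧
      ((badW s t (q * M₀) N L κ A).card : ℝ) ≤ ε * (T : ℝ) ^ (L + 1)

/-- the number of the primes `p ≤ y` such that `p + d` is prime, and all `p + h i`, `p + d + h' i` are prime -/
def dV {k : ℕ} (y d : ℕ) (h h' : Fin k → ℤ) : ℕ :=
  ((Icc 1 y).filter (fun p : ℕ => p.Prime ∧ (p + d).Prime ∧ (∀ i, ((p : ℤ) + h i).toNat.Prime) ∧
    ∀ i, ((p : ℤ) + d + h' i).toNat.Prime)).card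

open Classical in
/-- `d = q - p` with clusters of `k + 1` primes around `p ≤ y` and around `q` -/
def RichD (k : ℕ) (δ κ : ℝ) (T x y d : ℕ) : Prop :=
  δ * (T : ℝ) ^ (2 * k) ≤ (((vecs k T ×ˢ vecs k T).filter (fun v =>
    κ * (x / (Real.log x) ^ (2 * k + 2)) ≤ (dV y d v.1 v.2 : ℝ))).card : ℝ)

open Classical in
/-- **FINW** (from CLQW, INC, CORE2, CB1, CB2; as FIN4). -/
def S_FINW : Prop := ∀ (k : ℕ) (ε : ℝ), 0 < ε → ∃ (Q : ℕ) (c δ : ℝ), 0 < c ∧ 0 < δ ∧ ∀ lam : ℝ, 0 < lam →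
  ∃ κ : ℝ, 0 < κ ∧ ∀ᶠ x : ℕ in atTop, ∀ T : ℕ, lam * Real.log x ≤ T →
    (∀ u : ℕ, 2 * T ≤ u → u ≤ x →
      (((Ioc u (u + T)).filter (fun d => Even d ∧ ¬ RichD k δ κ T x (100 * x) d)).card : ℝ) ≤
        (2 / 9 + ε) * T) ∨
    ∃ q X : ℕ, 1 ≤ q ∧ q ≤ Q ∧ c * T ≤ (X : ℝ) ∧ X ≤ T ∧
      (((Icc 1 X).filter (fun d => q ∣ d ∧ ¬ RichP (2 * k) δ κ T x (200 * x) d)).card : ℝ) ≤ ε * (X / q)

end Pool.Agent.N679.RG
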