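import Mathlib
import Pool.Agent.N679.RG.Stm5
import Pool.Agent.N679.RG.FIN
import Pool.Agent.N679.RG.FIN2

/-!
# Project RN: FINK, the final assembly for tuples, sums (from CLQK, INC, CORE2, CB1 and CB2) (helper891)
-/

set_option autoImplicit false

namespace Pool.Agent.N679.RG

open Finset Filter Topology

namespace FINK

theorem cmpK {A N x : ℕ} (j : ℕ) {k : ℝ} (hk : 0 < k) (hA : 2 ≤ A) (hN : 2 * N ≤ 3 * A) (hAx : A ≤ x)
    (hxN : x ≤ N) :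
    k / 2 ^ j * (x / (Real.log x) ^ j) ≤ k * (N / (Real.log N) ^ j) := by
  have hx2 : (2 : ℝ) ≤ x := by exact_mod_cast hA.trans hAx
  have hxN' : (x : ℝ) ≤ N := by exact_mod_cast hxN
  have hN' : 2 * (N : ℝ) ≤ 3 * x := by
    have : 2 * N ≤ 3 * x := by omega
    exact_mod_cast this
  have hl : 0 < Real.log x := Real.log_pos (by linarith)
  have hlN : 0 < Real.log N := Real.log_pos (by linarith)
  have h1 : Real.log N ≤ 2 * Real.log x := by
    have : Real.log N ≤ Real.log ((x : ℝ) ^ 2) := by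
      apply Real.log_le_log (by linarith)
      nlinarith
    rw [Real.log_pow] at this
    push_cast at this
    exact this
  have h2 : (Real.log N) ^ j ≤ 2 ^ j * (Real.log x) ^ j := by
    rw [← mul_pow]
    exact pow_le_pow_left₀ hlN.le h1 j
  have h3 : (x : ℝ) / (2 ^ j * (Real.log x) ^ j) ≤ N / (Real.log N) ^ j :=
    div_le_div₀ (by linarith) hxN' (by positivity) h2
  have h4 : k / 2 ^ j * (x / (Real.log x) ^ j) = k * (x / (2 ^ j * (Real.log x) ^ j)) := by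
    field_simp
  rw [h4]
  exact mul_le_mul_of_nonneg_left h3 hk.le

theorem prJ_gV {k : ℕ} (E M N : ℕ) (y z : Fin (k + 1) → ℤ) (hy : ∀ i, 0 ≤ y i) (hz : ∀ i, 0 ≤ z i)
    (J : Finset (Bool × ℕ)) (hJ : ∀ i, (false, (y i).toNat) ∈ J) (hJ' : ∀ i, (true, (z i).toNat) ∈ J) :
    prJ E M N J ≤ gV (E + M * (y 0 + z 0).toNat) (fun i : Fin k => (M : ℤ) * (y i.succ - y 0))
      (fun i : Fin k => (M : ℤ) * (z i.succ - z 0)) := by
  lift y to Fin (k + 1) → ℕ using hy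
  lift z to Fin (k + 1) → ℕ using hz
  simp only [Int.toNat_natCast] at hJ hJ' ⊢
  have e0 : ((y 0 : ℤ) + (z 0 : ℤ)).toNat = y 0 + z 0 := by omega
  rw [e0]
  unfold prJ gV
  refine Finset.card_le_card_of_injOn (fun n => n + M * y 0) ?_ ?_
  · intro n hn
    have hn' := (Finset.mem_filter.1 (Finset.mem_coe.1 hn)).2
    have h1 := hn' _ (hJ 0)
    have h2 := hn' _ (hJ' 0)
    obtain ⟨h3, h4⟩ := FIN.fv_t E M n (z 0) h2.pos
    rw [FIN.fv_f] at h1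
    rw [h4] at h2
    rw [Finset.mem_coe, Finset.mem_filter, Finset.mem_range]
    have e : E + M * (y 0 + z 0) - (n + M * y 0) = E + M * z 0 - n := by
      rw [mul_add]; omega
    refine ⟨?_, h1, ?_, ?_, ?_⟩
    · show n + M * y 0 < E + M * (y 0 + z 0) + 1
      rw [mul_add]; omega
    · show (E + M * (y 0 + z 0) - (n + M * y 0)).Prime
      rw [e]; exact h2
    · intro i
      have h5 := hn' _ (hJ i.succ)
      rw [FIN.fv_f] at h5
      have e1 : (((n + M * y 0 : ℕ) : ℤ) + (M : ℤ) * ((y i.succ : ℤ) - (y 0 : ℤ))) =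
          ((n + M * y i.succ : ℕ) : ℤ) := by
        push_cast; ring
      show ((((n + M * y 0 : ℕ) : ℤ) + (M : ℤ) * ((y i.succ : ℤ) - (y 0 : ℤ)))).toNat.Prime
      rw [e1, Int.toNat_natCast]
      exact h5
    · intro i
      have h5 := hn' _ (hJ' i.succ)
      have e1 : (((E + M * (y 0 + z 0) : ℕ) : ℤ) - ((n + M * y 0 : ℕ) : ℤ) +
          (M : ℤ) * ((z i.succ : ℤ) - (z 0 : ℤ))) = fv E M n (true, z i.succ) := by
        simp only [fv, if_true]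
        push_cast; ring
      show ((((E + M * (y 0 + z 0) : ℕ) : ℤ) - ((n + M * y 0 : ℕ) : ℤ) +
          (M : ℤ) * ((z i.succ : ℤ) - (z 0 : ℤ)))).toNat.Prime
      rw [e1]
      exact h5
  · intro n _ n' _ h
    have h' : n + M * y 0 = n' + M * y 0 := h
    omega

theorem prJ_pV_f {k : ℕ} (E M N X : ℕ) (y : Fin (k + 2) → ℤ) (hy : ∀ i, 0 ≤ y i) (h01 : y 0 ≤ y 1)
    (hX : 5 * N / 9 + M * (y 0).toNat ≤ X)
    (J : Finset (Bool × ℕ)) (hJ : ∀ i, (false, (y i).toNat) ∈ J) :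
    prJ E M N J ≤ pV X (M * (y 1 - y 0).toNat) (fun i : Fin k => (M : ℤ) * (y i.succ.succ - y 0)) := by
  lift y to Fin (k + 2) → ℕ using hy
  simp only [Int.toNat_natCast] at hJ hX ⊢
  have h01' : y 0 ≤ y 1 := Int.ofNat_le.1 h01
  have e0 : ((y 1 : ℤ) - (y 0 : ℤ)).toNat = y 1 - y 0 := by omega
  rw [e0]
  unfold prJ pV
  refine Finset.card_le_card_of_injOn (fun n => n + M * y 0) ?_ ?_
  · intro n hn
    obtain ⟨hn0, hn'⟩ := (Finset.mem_filter.1 (Finset.mem_coe.1 hn))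
    have hn1 := (Finset.mem_Icc.1 hn0).2
    have h1 := hn' _ (hJ 0)
    have h2 := hn' _ (hJ 1)
    rw [FIN.fv_f] at h1 h2
    rw [Finset.mem_coe, Finset.mem_filter, Finset.mem_Icc]
    refine ⟨⟨h1.pos, ?_⟩, h1, ?_, ?_⟩
    · show n + M * y 0 ≤ X
      omega
    · show (n + M * y 0 + M * (y 1 - y 0)).Prime
      rw [add_assoc, ← mul_add, Nat.add_sub_cancel' h01']
      exact h2
    · intro i
      have h5 := hn' _ (hJ i.succ.succ)
      rw [FIN.fv_f] at h5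
      have e1 : (((n + M * y 0 : ℕ) : ℤ) + (M : ℤ) * ((y i.succ.succ : ℤ) - (y 0 : ℤ))) =
          ((n + M * y i.succ.succ : ℕ) : ℤ) := by
        push_cast; ring
      show ((((n + M * y 0 : ℕ) : ℤ) + (M : ℤ) * ((y i.succ.succ : ℤ) - (y 0 : ℤ)))).toNat.Prime
      rw [e1, Int.toNat_natCast]
      exact h5
  · intro n _ n' _ h
    have h' : n + M * y 0 = n' + M * y 0 := h
    omega

theorem prJ_pV_t {k : ℕ} (E M N X : ℕ) (y : Fin (k + 2) → ℤ) (hy : ∀ i, 0 ≤ y i) (h01 : y 0 ≤ y 1)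
    (hX : E + M * (y 0).toNat ≤ X)
    (J : Finset (Bool × ℕ)) (hJ : ∀ i, (true, (y i).toNat) ∈ J) :
    prJ E M N J ≤ pV X (M * (y 1 - y 0).toNat) (fun i : Fin k => (M : ℤ) * (y i.succ.succ - y 0)) := by
  lift y to Fin (k + 2) → ℕ using hy
  simp only [Int.toNat_natCast] at hJ hX ⊢
  have h01' : y 0 ≤ y 1 := Int.ofNat_le.1 h01
  have e0 : ((y 1 : ℤ) - (y 0 : ℤ)).toNat = y 1 - y 0 := by omega
  rw [e0]
  unfold prJ pV
  have hM01 : M * (y 1 - y 0) + M * y 0 = M * y 1 := by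
    rw [← mul_add, Nat.sub_add_cancel h01']
  refine Finset.card_le_card_of_injOn (fun n => E + M * y 0 - n) ?_ ?_
  · intro n hn
    obtain ⟨hn0, hn'⟩ := (Finset.mem_filter.1 (Finset.mem_coe.1 hn))
    have h1 := hn' _ (hJ 0)
    have h2 := hn' _ (hJ 1)
    obtain ⟨h3, h4⟩ := FIN.fv_t E M n (y 0) h1.pos
    obtain ⟨h5, h6⟩ := FIN.fv_t E M n (y 1) h2.pos
    rw [h4] at h1
    rw [h6] at h2
    rw [Finset.mem_coe, Finset.mem_filter, Finset.mem_Icc]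
    refine ⟨⟨h1.pos, ?_⟩, h1, ?_, ?_⟩
    · show E + M * y 0 - n ≤ X
      omega
    · show (E + M * y 0 - n + M * (y 1 - y 0)).Prime
      have : E + M * y 0 - n + M * (y 1 - y 0) = E + M * y 1 - n := by omega
      rw [this]; exact h2
    · intro i
      have h7 := hn' _ (hJ i.succ.succ)
      have e1 : (((E + M * y 0 - n : ℕ) : ℤ) + (M : ℤ) * ((y i.succ.succ : ℤ) - (y 0 : ℤ))) =
          fv E M n (true, y i.succ.succ) := by
        simp only [fv, if_true]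
        rw [Nat.cast_sub h3.le]
        push_cast; ring
      show ((((E + M * y 0 - n : ℕ) : ℤ) + (M : ℤ) * ((y i.succ.succ : ℤ) - (y 0 : ℤ)))).toNat.Prime
      rw [e1]
      exact h7
  · intro n hn n' hn' h
    have h1 := (Finset.mem_filter.1 (Finset.mem_coe.1 hn)).2 _ (hJ 0)
    have h1' := (Finset.mem_filter.1 (Finset.mem_coe.1 hn')).2 _ (hJ 0)
    obtain ⟨h3, h4⟩ := FIN.fv_t E M n (y 0) h1.pos
    obtain ⟨h5, h6⟩ := FIN.fv_t E M n' (y 0) h1'.pos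
    have h' : E + M * y 0 - n = E + M * y 0 - n' := h
    omega

theorem vecs_scale {k T T₁ M : ℕ} (hM : 1 ≤ M) (hMT : M * T₁ ≤ T) {h : Fin k → ℤ}
    (hh : h ∈ vecs k T₁) : (fun i => (M : ℤ) * h i) ∈ vecs k T := by
  unfold vecs at hh ⊢
  rw [Finset.mem_filter, Fintype.mem_piFinset] at hh ⊢
  obtain ⟨h1, h2, h3⟩ := hh
  have hM' : (0 : ℤ) < M := by exact_mod_cast hM
  have hMT' : (M : ℤ) * T₁ ≤ T := by exact_mod_cast hMT
  refine ⟨fun i => ?_, ?_, fun i => mul_ne_zero hM'.ne' (h3 i)⟩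
  · have h4 := Finset.mem_Icc.1 (h1 i)
    rw [Finset.mem_Icc]
    constructor
    · nlinarith
    · nlinarith
  · intro i j hij
    exact h2 (mul_left_cancel₀ hM'.ne' hij)

/-- the two parts of an almost clique -/
theorem partsK {T₁ : ℕ} {As : Finset (Bool × ℕ)} (hAs : As ⊆ (univ : Finset Bool) ×ˢ range T₁) :
    ∃ P : Bool → Finset ℤ, (∀ b, P b ⊆ Ico 0 (T₁ : ℤ)) ∧
      As.card ≤ (P false).card + (P true).card ∧ ∀ b, ∀ v ∈ P b, (b, v.toNat) ∈ As := by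
  have hlt : ∀ b v, (b, v) ∈ As → v < T₁ := by
    intro b v h
    have := (Finset.mem_product.1 (hAs h)).2
    exact Finset.mem_range.1 this
  let P : Bool → Finset ℤ := fun b =>
    (Ico (0 : ℤ) T₁).filter (fun v : ℤ => (b, v.toNat) ∈ As)
  have hPcard : As.card ≤ (P false).card + (P true).card := by
    have hsplit : As.card = (As.filter (fun u => u.1 = false)).card +
        (As.filter (fun u => ¬ u.1 = false)).card :=
      (Finset.card_filter_add_card_filter_not _).symm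
    rw [hsplit]
    refine Nat.add_le_add ?_ ?_
    · refine Finset.card_le_card_of_injOn (fun u => (u.2 : ℤ)) ?_ ?_
      · intro u hu
        obtain ⟨h3, h4⟩ := Finset.mem_filter.1 (Finset.mem_coe.1 hu)
        obtain ⟨b, v⟩ := u
        have h5 : b = false := h4
        subst h5
        refine Finset.mem_coe.2 (Finset.mem_filter.2 ⟨Finset.mem_Ico.2 ⟨?_, ?_⟩, ?_⟩)
        · exact Int.natCast_nonneg _
        · show ((v : ℕ) : ℤ) < (T₁ : ℤ)
          exact_mod_cast hlt _ _ h3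
        · show (false, ((v : ℤ)).toNat) ∈ As
          rw [Int.toNat_natCast]; exact h3
      · intro u hu u' hu' h
        obtain ⟨h3, h4⟩ := Finset.mem_filter.1 (Finset.mem_coe.1 hu)
        obtain ⟨h3', h4'⟩ := Finset.mem_filter.1 (Finset.mem_coe.1 hu')
        have h5 : (u.2 : ℤ) = (u'.2 : ℤ) := h
        exact Prod.ext (h4.trans h4'.symm) (by exact_mod_cast h5)
    · refine Finset.card_le_card_of_injOn (fun u => (u.2 : ℤ)) ?_ ?_
      · intro u hu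
        obtain ⟨h3, h4⟩ := Finset.mem_filter.1 (Finset.mem_coe.1 hu)
        obtain ⟨b, v⟩ := u
        have h5 : b = true := by simpa using h4
        subst h5
        refine Finset.mem_coe.2 (Finset.mem_filter.2 ⟨Finset.mem_Ico.2 ⟨?_, ?_⟩, ?_⟩)
        · exact Int.natCast_nonneg _
        · show ((v : ℕ) : ℤ) < (T₁ : ℤ)
          exact_mod_cast hlt _ _ h3
        · show (true, ((v : ℤ)).toNat) ∈ As
          rw [Int.toNat_natCast]; exact h3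
      · intro u hu u' hu' h
        obtain ⟨h3, h4⟩ := Finset.mem_filter.1 (Finset.mem_coe.1 hu)
        obtain ⟨h3', h4'⟩ := Finset.mem_filter.1 (Finset.mem_coe.1 hu')
        have h5 : (u.2 : ℤ) = (u'.2 : ℤ) := h
        have h6 : u.1 = true := by simpa using h4
        have h7 : u'.1 = true := by simpa using h4'
        exact Prod.ext (h6.trans h7.symm) (by exact_mod_cast h5)
  exact ⟨P, fun b => Finset.filter_subset _ _, hPcard, fun b v hv => (Finset.mem_filter.1 hv).2⟩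

open Classical in
/-- tuples from one part -/
theorem cntB {E M N k T₁ : ℕ} {κ ε' : ℝ} {As : Finset (Bool × ℕ)}
    (hb : ((badJ E M N (2 * k + 1) κ As).card : ℝ) ≤ ε' * (T₁ : ℝ) ^ (2 * k + 1 + 1)) (b : Bool)
    (P : Finset ℤ) (hP0 : ∀ v ∈ P, 0 ≤ v) (hP : ∀ v ∈ P, (b, v.toNat) ∈ As)
    (Gd : (Fin (2 * k + 2) → ℤ) → Prop)
    (hG : ∀ y, (∀ i, y i ∈ P) → κ * (N / (Real.log N) ^ (2 * k + 2)) ≤
      (prJ E M N (univ.image (fun i => (b, (y i).toNat))) : ℝ) → Gd y) :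
    (((Fintype.piFinset (fun _ : Fin (2 * k + 2) => P)).filter
      (fun y => Function.Injective y ∧ ¬ Gd y)).card : ℝ) ≤ ε' * (T₁ : ℝ) ^ (2 * k + 2) := by
  refine le_trans ?_ hb
  norm_cast
  refine Finset.card_le_card_of_injOn
    (fun (y : Fin (2 * k + 2) → ℤ) (i : Fin (2 * k + 1 + 1)) => ((b, (y i).toNat) : Bool × ℕ)) ?_ ?_
  · intro y hy
    obtain ⟨h1, h2, h3⟩ := Finset.mem_filter.1 (Finset.mem_coe.1 hy)
    rw [Fintype.mem_piFinset] at h1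
    rw [Finset.mem_coe]
    unfold badJ
    rw [Finset.mem_filter, Fintype.mem_piFinset]
    refine ⟨fun i => hP _ (h1 i), ?_, ?_⟩
    · intro i j hij
      have h4 : (y i).toNat = (y j).toNat := congrArg Prod.snd hij
      have h5 := hP0 _ (h1 i)
      have h6 := hP0 _ (h1 j)
      exact h2 (by omega)
    · by_contra h4
      rw [not_lt] at h4
      exact h3 (hG y h1 h4)
  · intro y hy y' hy' h
    have h1 := Fintype.mem_piFinset.1 (Finset.mem_filter.1 (Finset.mem_coe.1 hy)).1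
    have h1' := Fintype.mem_piFinset.1 (Finset.mem_filter.1 (Finset.mem_coe.1 hy')).1
    funext i
    have h4 : (y i).toNat = (y' i).toNat := congrArg Prod.snd (congrFun h i)
    have h5 := hP0 _ (h1 i)
    have h6 := hP0 _ (h1' i)
    omega

/-- the indices of two tuples -/
def eqv (k : ℕ) : Fin (2 * k + 1 + 1) ≃ Fin (k + 1) ⊕ Fin (k + 1) :=
  (finCongr (by omega : 2 * k + 1 + 1 = (k + 1) + (k + 1))).trans finSumFinEquiv.symm

/-- the joint tuple -/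
def joint {k : ℕ} (y z : Fin (k + 1) → ℤ) : Fin (2 * k + 1 + 1) → Bool × ℕ := fun i =>
  Sum.elim (fun a => (false, (y a).toNat)) (fun a => (true, (z a).toNat)) (eqv k i)

theorem joint_l {k : ℕ} (y z : Fin (k + 1) → ℤ) (a : Fin (k + 1)) :
    joint y z ((eqv k).symm (Sum.inl a)) = (false, (y a).toNat) := by
  simp [joint]

theorem joint_r {k : ℕ} (y z : Fin (k + 1) → ℤ) (a : Fin (k + 1)) :
    joint y z ((eqv k).symm (Sum.inr a)) = (true, (z a).toNat) := by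
  simp [joint]

open Classical in
/-- tuples from two parts -/
theorem cntA {E M N k T₁ : ℕ} {κ ε' : ℝ} {As : Finset (Bool × ℕ)}
    (hb : ((badJ E M N (2 * k + 1) κ As).card : ℝ) ≤ ε' * (T₁ : ℝ) ^ (2 * k + 1 + 1))
    (P : Bool → Finset ℤ) (hP0 : ∀ b, ∀ v ∈ P b, 0 ≤ v) (hP : ∀ b, ∀ v ∈ P b, (b, v.toNat) ∈ As)
    (Gd : (Fin (k + 1) → ℤ) → (Fin (k + 1) → ℤ) → Prop)
    (hG : ∀ y z, (∀ i, y i ∈ P false) → (∀ i, z i ∈ P true) →
      κ * (N / (Real.log N) ^ (2 * k + 2)) ≤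
      (prJ E M N (univ.image (joint y z)) : ℝ) → Gd y z) :
    ((((Fintype.piFinset (fun _ : Fin (k + 1) => P false)) ×ˢ
      (Fintype.piFinset (fun _ : Fin (k + 1) => P true))).filter
      (fun y => Function.Injective y.1 ∧ Function.Injective y.2 ∧ ¬ Gd y.1 y.2)).card : ℝ) ≤
        ε' * (T₁ : ℝ) ^ (2 * k + 2) := by
  refine le_trans ?_ hb
  norm_cast
  refine Finset.card_le_card_of_injOn (fun p => joint p.1 p.2) ?_ ?_
  · rintro ⟨y, z⟩ hyz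
    obtain ⟨h0, h2, h2', h3⟩ := Finset.mem_filter.1 (Finset.mem_coe.1 hyz)
    obtain ⟨h1, h1'⟩ := Finset.mem_product.1 h0
    rw [Fintype.mem_piFinset] at h1 h1'
    rw [Finset.mem_coe]
    unfold badJ
    rw [Finset.mem_filter, Fintype.mem_piFinset]
    refine ⟨?_, ?_, ?_⟩
    · intro i
      show joint y z i ∈ As
      obtain ⟨s, rfl⟩ := (eqv k).symm.surjective i
      cases s with
      | inl a => rw [joint_l]; exact hP _ _ (h1 a)
      | inr a => rw [joint_r]; exact hP _ _ (h1' a)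
    · intro i j hij
      have hij' : joint y z i = joint y z j := hij
      obtain ⟨s, rfl⟩ := (eqv k).symm.surjective i
      obtain ⟨t, rfl⟩ := (eqv k).symm.surjective j
      congr 1
      cases s with
      | inl a =>
        cases t with
        | inl a' =>
          rw [joint_l, joint_l] at hij'
          have h4 : (y a).toNat = (y a').toNat := congrArg Prod.snd hij'
          have h5 : 0 ≤ y a := hP0 _ _ (h1 a)
          have h6 : 0 ≤ y a' := hP0 _ _ (h1 a')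
          have h7 : a = a' := h2 (show y a = y a' by omega)
          rw [h7]
        | inr a' =>
          rw [joint_l, joint_r] at hij'
          have h4 : false = true := congrArg Prod.fst hij'
          exact absurd h4 (by decide)
      | inr a =>
        cases t with
        | inl a' =>
          rw [joint_l, joint_r] at hij'
          have h4 : true = false := congrArg Prod.fst hij'
          exact absurd h4 (by decide)
        | inr a' =>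
          rw [joint_r, joint_r] at hij'
          have h4 : (z a).toNat = (z a').toNat := congrArg Prod.snd hij'
          have h5 : 0 ≤ z a := hP0 _ _ (h1' a)
          have h6 : 0 ≤ z a' := hP0 _ _ (h1' a')
          have h7 : a = a' := h2' (show z a = z a' by omega)
          rw [h7]
    · by_contra h4
      rw [not_lt] at h4
      exact h3 (hG y z h1 h1' h4)
  · rintro ⟨y, z⟩ hy ⟨y', z'⟩ hy' h
    have h' : joint y z = joint y' z' := h
    obtain ⟨h1, h2⟩ := Finset.mem_product.1 (Finset.mem_filter.1 (Finset.mem_coe.1 hy)).1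
    obtain ⟨h1', h2'⟩ := Finset.mem_product.1 (Finset.mem_filter.1 (Finset.mem_coe.1 hy')).1
    rw [Fintype.mem_piFinset] at h1 h1' h2 h2'
    refine Prod.ext ?_ ?_
    · funext a
      show y a = y' a
      have h3 := congrFun h' ((eqv k).symm (Sum.inl a))
      rw [joint_l, joint_l] at h3
      have h4 : (y a).toNat = (y' a).toNat := congrArg Prod.snd h3
      have h5 : 0 ≤ y a := hP0 _ _ (h1 a)
      have h6 : 0 ≤ y' a := hP0 _ _ (h1' a)
      omega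
    · funext a
      show z a = z' a
      have h3 := congrFun h' ((eqv k).symm (Sum.inr a))
      rw [joint_r, joint_r] at h3
      have h4 : (z a).toNat = (z' a).toNat := congrArg Prod.snd h3
      have h5 : 0 ≤ z a := hP0 _ _ (h2 a)
      have h6 : 0 ≤ z' a := hP0 _ _ (h2' a)
      omega

open Classical in
/-- the body of CB1 for one `T` -/
def B1 (k : ℕ) (c τ ε δ : ℝ) (T : ℕ) : Prop :=
  ∀ (A C U : Finset ℤ) (Gd : (Fin (k + 1) → ℤ) → (Fin (k + 1) → ℤ) → Prop)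
    (Gv : ℤ → (Fin k → ℤ) → (Fin k → ℤ) → Prop),
    A ⊆ Ico 0 (T : ℤ) → C ⊆ Ico 0 (T : ℤ) → c * T ≤ (A.card : ℝ) → c * T ≤ (C.card : ℝ) →
    (((((Fintype.piFinset (fun _ : Fin (k + 1) => A)) ×ˢ (Fintype.piFinset (fun _ : Fin (k + 1) => C))).filter
      (fun y => Function.Injective y.1 ∧ Function.Injective y.2 ∧ ¬ Gd y.1 y.2)).card : ℝ) ≤
        ε * (T : ℝ) ^ (2 * k + 2)) →
    (∀ y z, Gd y z → Gv (y 0 + z 0) (fun i => y i.succ - y 0) (fun i => z i.succ - z 0)) →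
    (∀ r ∈ U, (((vecs k T ×ˢ vecs k T).filter (fun v => Gv r v.1 v.2)).card : ℝ) ≤ δ * (T : ℝ) ^ (2 * k)) →
    (((A ×ˢ C).filter (fun p => p.1 + p.2 ∈ U)).card : ℝ) ≤ τ * (T : ℝ) ^ 2

open Classical in
/-- the body of CB2 for one `T` -/
def B2 (k : ℕ) (η ε δ : ℝ) (T : ℕ) : Prop :=
  ∀ (A : Finset ℤ) (Gd : (Fin (k + 2) → ℤ) → Prop) (Gv : ℤ → (Fin k → ℤ) → Prop),
    A ⊆ Ico 0 (T : ℤ) → 11 / 20 * (T : ℝ) ≤ (A.card : ℝ) →
    ((((Fintype.piFinset (fun _ : Fin (k + 2) => A)).filter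
      (fun y => Function.Injective y ∧ ¬ Gd y)).card : ℝ) ≤ ε * (T : ℝ) ^ (k + 2)) →
    (∀ y, Gd y → Gv (y 1 - y 0) (fun i => y i.succ.succ - y 0)) →
    (((Icc 1 (T / 50)).filter (fun h : ℕ =>
      (((vecs k T).filter (fun g => (∀ i, g i ≠ (h : ℤ)) ∧ Gv h g)).card : ℝ) < δ * (T : ℝ) ^ k)).card : ℝ) ≤
      η * ((T / 50 : ℕ) : ℝ)

open Classical in
/-- the pairs of vectors of the sums -/
theorem inj1 {k T T₁ M m : ℕ} {κ' : ℝ} (hM : 1 ≤ M) (hMT : M * T₁ ≤ T) :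
    ((vecs k T₁ ×ˢ vecs k T₁).filter (fun v => κ' ≤
      (gV m (fun i => (M : ℤ) * v.1 i) (fun i => (M : ℤ) * v.2 i) : ℝ))).card ≤
    ((vecs k T ×ˢ vecs k T).filter (fun v => κ' ≤ (gV m v.1 v.2 : ℝ))).card := by
  have hM' : (M : ℤ) ≠ 0 := by
    have : M ≠ 0 := by omega
    exact_mod_cast this
  refine Finset.card_le_card_of_injOn
    (fun v => ((fun i => (M : ℤ) * v.1 i, fun i => (M : ℤ) * v.2 i) : (Fin k → ℤ) × (Fin k → ℤ))) ?_ ?_
  · rintro ⟨h, h'⟩ hv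
    obtain ⟨h1, h2⟩ := Finset.mem_filter.1 (Finset.mem_coe.1 hv)
    obtain ⟨h3, h4⟩ := Finset.mem_product.1 h1
    exact Finset.mem_coe.2 (Finset.mem_filter.2 ⟨Finset.mem_product.2
      ⟨vecs_scale hM hMT h3, vecs_scale hM hMT h4⟩, h2⟩)
  · rintro ⟨h, h'⟩ _ ⟨g, g'⟩ _ he
    have e1 := congrArg Prod.fst he
    have e2 := congrArg Prod.snd he
    refine Prod.ext ?_ ?_
    · funext i
      exact mul_left_cancel₀ hM' (congrFun e1 i)
    · funext i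
      exact mul_left_cancel₀ hM' (congrFun e2 i)

open Classical in
/-- the vectors of the differences -/
theorem inj2 {k T T₁ M h X : ℕ} {κ' : ℝ} (hM : 1 ≤ M) (hMT : M * T₁ ≤ T) :
    ((vecs k T₁).filter (fun g => (∀ i, g i ≠ (h : ℤ)) ∧ κ' ≤
      (pV X (M * h) (fun i => (M : ℤ) * g i) : ℝ))).card ≤
    ((vecs k T).filter (fun g => (∀ i, g i ≠ ((M * h : ℕ) : ℤ)) ∧ κ' ≤ (pV X (M * h) g : ℝ))).card := by
  have hM' : (M : ℤ) ≠ 0 := by
    have : M ≠ 0 := by omega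
    exact_mod_cast this
  refine Finset.card_le_card_of_injOn (fun g => (fun i => (M : ℤ) * g i)) ?_ ?_
  · intro g hg
    obtain ⟨h1, h2, h3⟩ := Finset.mem_filter.1 (Finset.mem_coe.1 hg)
    refine Finset.mem_coe.2 (Finset.mem_filter.2 ⟨vecs_scale hM hMT h1, ?_, h3⟩)
    intro i hi
    have h4 : (M : ℤ) * g i = ((M * h : ℕ) : ℤ) := hi
    rw [Nat.cast_mul] at h4
    exact h2 i (mul_left_cancel₀ hM' h4)
  · intro g _ g' _ he
    funext i
    exact mul_left_cancel₀ hM' (congrFun he i)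

open Classical in
/-- two large parts -/
theorem caseA {k M A N E T T₁ : ℕ} {ε' ε₃ ε₁ κ₀ κ δ δ₁ τ' : ℝ} {As : Finset (Bool × ℕ)}
    (hcmp : ∀ m : ℕ, A ≤ m → m ≤ N → κ * (m / (Real.log m) ^ (2 * k + 2)) ≤
      κ₀ * (N / (Real.log N) ^ (2 * k + 2)))
    (h31 : ε₃ ≤ ε₁)
    (hJ : ((badJ E M N (2 * k + 1) κ₀ As).card : ℝ) ≤ ε₃ * (T₁ : ℝ) ^ (2 * k + 1 + 1))
    (hB1 : B1 k ε' τ' ε₁ δ₁ T₁)
    (hδ1 : δ * (T : ℝ) ^ (2 * k) ≤ δ₁ * (T₁ : ℝ) ^ (2 * k))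
    (hM : 1 ≤ M) (hMT : M * T₁ ≤ T) (hE1 : A ≤ E) (hE2 : E + M * (2 * T₁) ≤ N)
    (P : Bool → Finset ℤ) (hPsub : ∀ b, P b ⊆ Ico 0 (T₁ : ℤ))
    (hPAs : ∀ b, ∀ v ∈ P b, (b, v.toNat) ∈ As)
    (U : Finset ℤ) (hU0 : ∀ r ∈ U, 0 ≤ r)
    (hUb : ∀ r : ℕ, (r : ℤ) ∈ U → ¬ RichG k δ κ T (E + M * r))
    (hf : ε' * T₁ ≤ ((P false).card : ℝ)) (ht : ε' * T₁ ≤ ((P true).card : ℝ)) :
    (((P false ×ˢ P true).filter (fun p => p.1 + p.2 ∈ U)).card : ℝ) ≤ τ' * (T₁ : ℝ) ^ 2 := by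
  have hP0 : ∀ b, ∀ v ∈ P b, 0 ≤ v := fun b v hv => (Finset.mem_Ico.1 (hPsub b hv)).1
  have hP1 : ∀ b, ∀ v ∈ P b, v < T₁ := fun b v hv => (Finset.mem_Ico.1 (hPsub b hv)).2
  obtain ⟨Gd, hGd⟩ : ∃ Gd : (Fin (k + 1) → ℤ) → (Fin (k + 1) → ℤ) → Prop, ∀ y z, Gd y z ↔
      ((∀ i, 0 ≤ y i ∧ y i < T₁) ∧ (∀ i, 0 ≤ z i ∧ z i < T₁) ∧
          κ₀ * (N / (Real.log N) ^ (2 * k + 2)) ≤ (prJ E M N (univ.image (joint y z)) : ℝ)) :=
    ⟨_, fun _ _ => Iff.rfl⟩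
  obtain ⟨Gv, hGv⟩ : ∃ Gv : ℤ → (Fin k → ℤ) → (Fin k → ℤ) → Prop, ∀ r h h', Gv r h h' ↔
      κ * (((E + M * r.toNat : ℕ) : ℝ) /
          (Real.log ((E + M * r.toNat : ℕ) : ℝ)) ^ (2 * k + 2)) ≤
          (gV (E + M * r.toNat) (fun i => (M : ℤ) * h i) (fun i => (M : ℤ) * h' i) : ℝ) :=
    ⟨_, fun _ _ _ => Iff.rfl⟩
  have a1 := (cntA hJ P hP0 hPAs Gd (fun y z hy hz hk' => (hGd y z).2
    ⟨fun i => ⟨hP0 _ _ (hy i), hP1 _ _ (hy i)⟩, fun i => ⟨hP0 _ _ (hz i), hP1 _ _ (hz i)⟩,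
            hk'⟩)).trans (mul_le_mul_of_nonneg_right h31 (by positivity))
  have a2 : ∀ y z, Gd y z → Gv (y 0 + z 0) (fun i => y i.succ - y 0) (fun i => z i.succ - z 0) := by
    intro y z hyz
    obtain ⟨hy, hz, hk'⟩ := (hGd y z).1 hyz
    rw [hGv]
    have h5 : (y 0 + z 0).toNat ≤ 2 * T₁ := by
      have := (hy 0).2
      have := (hz 0).2
      omega
    have h6 : E + M * (y 0 + z 0).toNat ≤ N :=
      le_trans (Nat.add_le_add_left (Nat.mul_le_mul_left M h5) _) hE2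
    refine (hcmp _ (hE1.trans (Nat.le_add_right _ _)) h6).trans (hk'.trans ?_)
    exact Nat.cast_le.2 (prJ_gV E M N y z (fun i => (hy i).1) (fun i => (hz i).1) _
      (fun i => Finset.mem_image.2 ⟨_, Finset.mem_univ _, joint_l y z i⟩)
      (fun i => Finset.mem_image.2 ⟨_, Finset.mem_univ _, joint_r y z i⟩))
  have a3 : ∀ r ∈ U, (((vecs k T₁ ×ˢ vecs k T₁).filter (fun v => Gv r v.1 v.2)).card : ℝ) ≤
      δ₁ * (T₁ : ℝ) ^ (2 * k) := by
    intro r hr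
    obtain ⟨r', rfl⟩ := Int.eq_ofNat_of_zero_le (hU0 r hr)
    have h5 := hUb r' hr
    unfold RichG at h5
    rw [not_le] at h5
    refine le_trans ?_ (h5.le.trans hδ1)
    have h7 := inj1 (k := k) (T := T) (T₁ := T₁) (M := M) (m := E + M * r')
      (κ' := κ * (((E + M * r' : ℕ) : ℝ) /
        (Real.log ((E + M * r' : ℕ) : ℝ)) ^ (2 * k + 2))) hM hMT
    refine le_trans ?_ (Nat.cast_le.2 h7)
    refine Nat.cast_le.2 (Finset.card_le_card ?_)
    intro v hv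
    obtain ⟨h8, h9⟩ := Finset.mem_filter.1 hv
    refine Finset.mem_filter.2 ⟨h8, ?_⟩
    rw [hGv, Int.toNat_natCast] at h9
    exact h9
  exact hB1 (P false) (P true) U Gd Gv (hPsub _) (hPsub _) hf ht a1 a2 a3

open Classical in
/-- one large part -/
theorem caseB {k M A N E T T₁ : ℕ} {ε ε₃ ε₂ κ₀ κ δ δ₂ : ℝ} {As : Finset (Bool × ℕ)}
    (hcmp : ∀ m : ℕ, A ≤ m → m ≤ N → κ * (m / (Real.log m) ^ (2 * k + 2)) ≤
      κ₀ * (N / (Real.log N) ^ (2 * k + 2)))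
    (h32 : ε₃ ≤ ε₂)
    (hJ : ((badJ E M N (2 * k + 1) κ₀ As).card : ℝ) ≤ ε₃ * (T₁ : ℝ) ^ (2 * k + 1 + 1))
    (hB2 : B2 (2 * k) ε ε₂ δ₂ T₁)
    (hδ2 : δ * (T : ℝ) ^ (2 * k) ≤ δ₂ * (T₁ : ℝ) ^ (2 * k))
    (hM : 1 ≤ M) (hMT : M * T₁ ≤ T) (hAN : A ≤ N)
    (h1 : 5 * N / 9 + M * T₁ ≤ 2 * A) (h2 : E + M * T₁ ≤ 2 * A)
    (P : Bool → Finset ℤ) (hPsub : ∀ b, P b ⊆ Ico 0 (T₁ : ℤ))
    (hPAs : ∀ b, ∀ v ∈ P b, (b, v.toNat) ∈ As) (b : Bool)
    (hb : (11 / 20 : ℝ) * T₁ ≤ ((P b).card : ℝ)) :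
    (((Icc 1 (T₁ / 50)).filter (fun h => ¬ RichP (2 * k) δ κ T A (2 * A) (M * h))).card : ℝ) ≤
      ε * ((T₁ / 50 : ℕ) : ℝ) := by
  have hP0 : ∀ b, ∀ v ∈ P b, 0 ≤ v := fun b v hv => (Finset.mem_Ico.1 (hPsub b hv)).1
  have hP1 : ∀ b, ∀ v ∈ P b, v < T₁ := fun b v hv => (Finset.mem_Ico.1 (hPsub b hv)).2
  obtain ⟨Gd, hGd⟩ : ∃ Gd : (Fin (2 * k + 2) → ℤ) → Prop, ∀ y, Gd y ↔
      ((∀ i, 0 ≤ y i ∧ y i < T₁) ∧ κ₀ * (N / (Real.log N) ^ (2 * k + 2)) ≤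
        (prJ E M N (univ.image (fun i => (b, (y i).toNat))) : ℝ)) :=
    ⟨_, fun _ => Iff.rfl⟩
  obtain ⟨Gv, hGv⟩ : ∃ Gv : ℤ → (Fin (2 * k) → ℤ) → Prop, ∀ h g, Gv h g ↔
      (0 ≤ h → κ * (A / (Real.log A) ^ (2 * k + 2)) ≤
        (pV (2 * A) (M * h.toNat) (fun i => (M : ℤ) * g i) : ℝ)) :=
    ⟨_, fun _ _ => Iff.rfl⟩
  have a1 := (cntB hJ b (P b) (hP0 b) (hPAs b) Gd (fun y hy hk' => (hGd y).2
        ⟨fun i => ⟨hP0 b _ (hy i), hP1 b _ (hy i)⟩, hk'⟩)).trans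
        (mul_le_mul_of_nonneg_right h32 (by positivity))
  have a2 : ∀ y, Gd y → Gv (y 1 - y 0) (fun i => y i.succ.succ - y 0) := by
    intro y hyz
    obtain ⟨hy, hk'⟩ := (hGd y).1 hyz
    rw [hGv]
    intro h01
    refine (hcmp A le_rfl hAN).trans (hk'.trans ?_)
    have hy0 : (y 0).toNat ≤ T₁ := by
      have := (hy 0).2
      have := (hy 0).1
      omega
    have hMy : M * (y 0).toNat ≤ M * T₁ := Nat.mul_le_mul_left M hy0
    cases b with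
    | false =>
      exact Nat.cast_le.2 (prJ_pV_f (k := 2 * k) E M N (2 * A) y (fun i => (hy i).1) (by omega)
        (le_trans (Nat.add_le_add_left hMy _) h1) _
        (fun i => Finset.mem_image.2 ⟨i, Finset.mem_univ _, rfl⟩))
    | true =>
      exact Nat.cast_le.2 (prJ_pV_t (k := 2 * k) E M N (2 * A) y (fun i => (hy i).1) (by omega)
        (le_trans (Nat.add_le_add_left hMy _) h2) _
        (fun i => Finset.mem_image.2 ⟨i, Finset.mem_univ _, rfl⟩))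
  have h3 := hB2 (P b) Gd Gv (hPsub b) hb a1 a2
  refine le_trans ?_ h3
  refine Nat.cast_le.2 (Finset.card_le_card ?_)
  intro h hh
  obtain ⟨h4, h5⟩ := Finset.mem_filter.1 hh
  refine Finset.mem_filter.2 ⟨h4, ?_⟩
  unfold RichP at h5
  rw [not_le] at h5
  refine lt_of_le_of_lt ?_ (h5.trans_le hδ2)
  have h6 := inj2 (k := 2 * k) (T := T) (T₁ := T₁) (M := M) (h := h) (X := 2 * A)
    (κ' := κ * (A / (Real.log A) ^ (2 * k + 2))) hM hMT
  refine le_trans ?_ (Nat.cast_le.2 h6)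
  refine Nat.cast_le.2 (Finset.card_le_card ?_)
  intro g hg
  obtain ⟨h7, h8, h9⟩ := Finset.mem_filter.1 hg
  refine Finset.mem_filter.2 ⟨h7, h8, ?_⟩
  rw [hGv, Int.toNat_natCast] at h9
  exact h9 (Int.natCast_nonneg h)

open Classical in
/-- the main step -/
theorem step {k M₀ A N E₀ q x₀ H T T₁ Z w : ℕ} {ε ε₃ ε₁ ε₂ κ₀ κ δ δ₁ δ₂ c τ ρ' : ℝ} (bad : ℕ → Prop)
    (hbad : ∀ m, bad m → ¬ RichG k δ κ T m)
    (hcmp : ∀ m : ℕ, A ≤ m → m ≤ N → κ * (m / (Real.log m) ^ (2 * k + 2)) ≤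
      κ₀ * (N / (Real.log N) ^ (2 * k + 2)))
    (hε : 0 < ε) (hε1 : ε ≤ 1 / 100) (hε₃' : ε₃ ≤ ε / 4000) (h31 : ε₃ ≤ ε₁) (h32 : ε₃ ≤ ε₂)
    (hτ : 0 < τ)
    (hc : 0 < c) (hT₁ : T₁ = H / 2) (hT₁b : 100 ≤ T₁) (hT₁c : 1 ≤ 2 * τ * T₁)
    (hρ : 4 / 9 + ε ≤ ρ')
    (hH : ρ' * H ≤ (((range H).filter (fun t => bad (E₀ + M₀ * (x₀ + q * t)))).card : ℝ))
    (hH2 : ∀ q' x₁ H' : ℕ, 1 ≤ q' → q' ≤ Z → c / 3 * H ≤ (H' : ℝ) → (∀ t < H', x₁ + q' * t < H) →
        (((range H').filter (fun t => bad (E₀ + M₀ * (x₀ + q * (x₁ + q' * t))))).card : ℝ) ≤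
          (ρ' + τ / 2) * H')
    (hclq : ∃ As ⊆ (univ : Finset Bool) ×ˢ range T₁, (5 / 9 - ε₃) * T₁ ≤ (As.card : ℝ) ∧
      ((badJ (E₀ + M₀ * x₀) (q * M₀) N (2 * k + 1) κ₀ As).card : ℝ) ≤
        ε₃ * (T₁ : ℝ) ^ (2 * k + 1 + 1))
    (hcore : ∀ (A C U : Finset ℤ) (ρ : ℝ),
      A ⊆ Ico 0 (T₁ : ℤ) → C ⊆ Ico 0 (T₁ : ℤ) → U ⊆ Ico 0 (2 * (T₁ : ℤ)) → ε / 4 ≤ ρ →
      (ρ - τ) * (2 * T₁) ≤ (U.card : ℝ) →
      (∀ (k m : ℕ) (x : ℤ), 1 ≤ k → k ≤ Z → c * T₁ ≤ (m : ℝ) → 0 ≤ x → x + k * (m - 1) < 2 * T₁ →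
        (((range m).filter (fun t : ℕ => x + k * t ∈ U)).card : ℝ) ≤ (ρ + τ) * m) →
      ε / 4 * T₁ ≤ (A.card : ℝ) → ε / 4 * T₁ ≤ (C.card : ℝ) →
      (1 - ρ + ε / 4) * T₁ ≤ (A.card : ℝ) + C.card →
      τ * (T₁ : ℝ) ^ 2 ≤ (((A ×ˢ C).filter (fun p => p.1 + p.2 ∈ U)).card : ℝ))
    (hB1 : B1 k (ε / 4) (τ / 2) ε₁ δ₁ T₁) (hB2 : B2 (2 * k) ε ε₂ δ₂ T₁)
    (hδ1 : δ * (T : ℝ) ^ (2 * k) ≤ δ₁ * (T₁ : ℝ) ^ (2 * k))
    (hδ2 : δ * (T : ℝ) ^ (2 * k) ≤ δ₂ * (T₁ : ℝ) ^ (2 * k))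
    (hM : 1 ≤ q * M₀) (hMT : q * M₀ * T₁ ≤ T)
    (hE1 : A ≤ E₀ + M₀ * x₀) (hE2 : E₀ + M₀ * x₀ + (q * M₀) * (2 * T₁) ≤ N)
    (hw : w = T₁ / 50) (hAN : A ≤ N)
    (h1 : 5 * N / 9 + (q * M₀) * T₁ ≤ 2 * A) (h2 : E₀ + M₀ * x₀ + (q * M₀) * T₁ ≤ 2 * A) :
    (((Icc 1 w).filter (fun h => ¬ RichP (2 * k) δ κ T A (2 * A) (q * M₀ * h))).card : ℝ) ≤ ε * w := by
  obtain ⟨As, hAs, hcard, hJ⟩ := hclq
  obtain ⟨P, hPsub, hPcard, hPAs⟩ := partsK hAs
  obtain ⟨E, hE⟩ : ∃ E, E = E₀ + M₀ * x₀ := ⟨_, rfl⟩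
  obtain ⟨M, hMdef⟩ : ∃ M, M = q * M₀ := ⟨_, rfl⟩
  rw [← hE, ← hMdef] at hJ hE2 h2
  rw [← hE] at hE1
  rw [← hMdef] at hM hMT h1 ⊢
  have hT₁0 : (0 : ℝ) < T₁ := by
    have : 0 < T₁ := by omega
    exact_mod_cast this
  have hcard' : (5 / 9 - ε₃) * T₁ ≤ ((P false).card : ℝ) + (P true).card :=
    hcard.trans (by exact_mod_cast hPcard)
  -- the set `U`
  obtain ⟨U, hU⟩ : ∃ U : Finset ℤ, U = (Ico (0 : ℤ) (2 * (T₁ : ℤ))).filter
    (fun r : ℤ => bad (E₀ + M₀ * (x₀ + q * r.toNat))) := ⟨_, rfl⟩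
  have hUsub : U ⊆ Ico 0 (2 * (T₁ : ℤ)) := by rw [hU]; exact Finset.filter_subset _ _
  have hUmem : ∀ r : ℕ, (r : ℤ) ∈ U → bad (E₀ + M₀ * (x₀ + q * r)) := by
    intro r hr
    rw [hU] at hr
    have := (Finset.mem_filter.1 hr).2
    rw [Int.toNat_natCast] at this
    exact this
  have hUcard : ρ' * H ≤ (U.card : ℝ) + 1 := by
    refine hH.trans ?_
    have h3 : ((range H).filter (fun t => bad (E₀ + M₀ * (x₀ + q * t)))) ⊆
        insert (2 * T₁) ((range (2 * T₁)).filter (fun t => bad (E₀ + M₀ * (x₀ + q * t)))) := by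
      intro t ht
      obtain ⟨h4, h5⟩ := Finset.mem_filter.1 ht
      rw [Finset.mem_range] at h4
      rw [Finset.mem_insert, Finset.mem_filter, Finset.mem_range]
      by_cases h6 : t = 2 * T₁
      · exact Or.inl h6
      · exact Or.inr ⟨by omega, h5⟩
    have h4 : ((range (2 * T₁)).filter (fun t => bad (E₀ + M₀ * (x₀ + q * t)))).card ≤ U.card := by
      refine Finset.card_le_card_of_injOn (fun t => (t : ℤ)) ?_ ?_
      · intro t ht
        obtain ⟨h4, h5⟩ := Finset.mem_filter.1 (Finset.mem_coe.1 ht)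
        rw [Finset.mem_range] at h4
        rw [hU]
        refine Finset.mem_coe.2 (Finset.mem_filter.2 ⟨Finset.mem_Ico.2 ⟨?_, ?_⟩, ?_⟩)
        · exact Int.natCast_nonneg _
        · show (t : ℤ) < 2 * (T₁ : ℤ)
          omega
        · show bad (E₀ + M₀ * (x₀ + q * ((t : ℤ)).toNat))
          rw [Int.toNat_natCast]; exact h5
      · intro t _ t' _ h
        have h' : (t : ℤ) = (t' : ℤ) := h
        exact_mod_cast h'
    have h5 := (Finset.card_le_card h3).trans (Finset.card_insert_le _ _)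
    have h6 := h5.trans (Nat.add_le_add_right h4 1)
    exact_mod_cast h6
  have hH1 : (2 : ℝ) * T₁ ≤ H := by
    have : 2 * T₁ ≤ H := by omega
    exact_mod_cast this
  have hH3 : (H : ℝ) ≤ 3 * T₁ := by
    have : H ≤ 3 * T₁ := by omega
    exact_mod_cast this
  have hρ0 : 0 ≤ ρ' := by linarith
  have hU1 : (ρ' - τ) * (2 * T₁) ≤ (U.card : ℝ) := by nlinarith
  have hU2 : ∀ (k m : ℕ) (x : ℤ), 1 ≤ k → k ≤ Z → c * T₁ ≤ (m : ℝ) → 0 ≤ x →
      x + k * (m - 1) < 2 * T₁ →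
        (((range m).filter (fun t : ℕ => x + k * t ∈ U)).card : ℝ) ≤ (ρ' + τ) * m := by
    intro k m x hk hkZ hm hx hxk
    obtain ⟨y, rfl⟩ := Int.eq_ofNat_of_zero_le hx
    have hm0 : (0 : ℝ) < m := lt_of_lt_of_le (by positivity) hm
    have hm0' : 0 < m := by exact_mod_cast hm0
    have h3 := hH2 k y m hk hkZ (by nlinarith) (by
      intro t ht
      have h4 : (k : ℤ) * t ≤ k * (m - 1) := by
        refine mul_le_mul_of_nonneg_left ?_ (by positivity)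
        omega
      have h5 : ((y + k * t : ℕ) : ℤ) < 2 * T₁ := by
        push_cast
        linarith
      omega)
    have h4 : ((range m).filter (fun t : ℕ => ((y : ℕ) : ℤ) + k * t ∈ U)).card ≤
        ((range m).filter (fun t => bad (E₀ + M₀ * (x₀ + q * (y + k * t))))).card := by
      refine Finset.card_le_card ?_
      intro t ht
      obtain ⟨h5, h6⟩ := Finset.mem_filter.1 ht
      refine Finset.mem_filter.2 ⟨h5, hUmem _ ?_⟩
      push_cast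
      exact h6
    have h5 : (((range m).filter (fun t : ℕ => ((y : ℕ) : ℤ) + k * t ∈ U)).card : ℝ) ≤
        (ρ' + τ / 2) * m := le_trans (by exact_mod_cast h4) h3
    refine h5.trans ?_
    nlinarith
  have hT2 : (0 : ℝ) < (T₁ : ℝ) ^ 2 := by positivity
  -- the conclusion from a large part
  have hfin : ∀ b : Bool, (11 / 20 : ℝ) * T₁ ≤ ((P b).card : ℝ) →
      (((Icc 1 w).filter (fun h => ¬ RichP (2 * k) δ κ T A (2 * A) (M * h))).card : ℝ) ≤ ε * w := by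
    intro b hb
    rw [hw]
    exact caseB hcmp h32 hJ hB2 hδ2 hM hMT hAN h1 h2 P hPsub hPAs b hb
  have hTε : ε * T₁ ≤ 1 / 100 * T₁ := mul_le_mul_of_nonneg_right hε1 hT₁0.le
  have hTε3 : ε₃ * T₁ ≤ ε / 4000 * T₁ := mul_le_mul_of_nonneg_right hε₃' hT₁0.le
  by_cases hf : ε / 4 * T₁ ≤ ((P false).card : ℝ)
  · by_cases ht : ε / 4 * T₁ ≤ ((P true).card : ℝ)
    · exfalso
      have h3 := hcore (P false) (P true) U ρ' (hPsub _) (hPsub _) hUsub (by linarith) hU1 hU2 hf ht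
        (by
          refine le_trans ?_ hcard'
          refine mul_le_mul_of_nonneg_right ?_ hT₁0.le
          linarith)
      have h4 := caseA hcmp h31 hJ hB1 hδ1 hM hMT hE1 hE2 P hPsub hPAs U
        (fun r hr => (Finset.mem_Ico.1 (hUsub hr)).1)
        (by
          intro r hr
          have h5 := hbad _ (hUmem r hr)
          have h6 : E₀ + M₀ * (x₀ + q * r) = E + M * r := by
            rw [hE, hMdef]; ring
          rw [h6] at h5
          exact h5) hf ht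
      have h5 : τ ≤ τ / 2 := le_of_mul_le_mul_right (h3.trans h4) hT2
      linarith
    · refine hfin false ?_
      rw [not_le] at ht
      linarith
  · refine hfin true ?_
    rw [not_le] at hf
    linarith

open Classical in
/-- the theorem for small `ε` -/
theorem main (k : ℕ) (ε : ℝ) (hε : 0 < ε) (hε1 : ε ≤ 1 / 100) (hCLQ : S_CLQK) (hINC : S_INC)
    (hCORE : S_CORE2) (hCB1 : S_CB1) (hCB2 : S_CB2) :
    ∃ (Q : ℕ) (c δ : ℝ), 0 < c ∧ 0 < δ ∧ ∀ lam : ℝ, 0 < lam → ∃ κ : ℝ, 0 < κ ∧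
    ∀ᶠ x : ℕ in atTop, ∀ T : ℕ, lam * Real.log x ≤ T → 1000 * T ≤ x →
    (((Ioc x (x + T)).filter (fun m => Even m ∧ ¬ RichG k δ κ T m)).card : ℝ) ≤ (2 / 9 + ε) * T ∨
    ∃ q X : ℕ, 1 ≤ q ∧ q ≤ Q ∧ c * T ≤ (X : ℝ) ∧ X ≤ T ∧
      (((Icc 1 X).filter (fun d => q ∣ d ∧ ¬ RichP (2 * k) δ κ T x (2 * x) d)).card : ℝ) ≤
        ε * (X / q) := by
  obtain ⟨Z, T₀, cc, τ, hZ, hcc, hcc1, hτ, hcore⟩ := hCORE (ε / 4) (by positivity) (by linarith)
  obtain ⟨Q, c', hc', hinc⟩ := hINC (τ / 2) (cc / 3) Z (by positivity) (by positivity)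
    (by linarith) hZ
  obtain ⟨ε₁, δ₁, T₁', hε₁, hδ₁, hcb1⟩ := hCB1 k (ε / 4) (τ / 2) (by positivity) (by positivity)
  obtain ⟨ε₂, δ₂, T₂', hε₂, hδ₂, hcb2⟩ := hCB2 (2 * k) ε hε
  obtain ⟨M₀, hM, hMe, hclq⟩ := hCLQ (2 * k + 1) (min (ε / 4000) (min ε₁ ε₂))
    (lt_min (by positivity) (lt_min hε₁ hε₂))
  have hM0 : (0 : ℝ) < M₀ := by exact_mod_cast hM
  have hδ12 : 0 < min δ₁ δ₂ := lt_min hδ₁ hδ₂
  obtain ⟨δ, hδ⟩ : ∃ δ : ℝ, δ = min δ₁ δ₂ * (c' / (3 * M₀)) ^ (2 * k) := ⟨_, rfl⟩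
  have hδ0 : 0 < δ := by rw [hδ]; positivity
  refine ⟨Q * M₀, c' / 300, δ, by positivity, hδ0, fun lam hlam => ?_⟩
  obtain ⟨κ', hκ', hev⟩ := hclq Q (lam * c' / (8 * M₀)) (by positivity)
  refine ⟨κ' / 2 ^ (2 * k + 2), by positivity, ?_⟩
  have htend : Tendsto (fun A : ℕ => 3 * A / 2) atTop atTop :=
    tendsto_atTop_mono (fun A => show A ≤ 3 * A / 2 by omega) tendsto_id
  have hlog : Tendsto (fun A : ℕ => lam * Real.log A) atTop atTop :=
    (Real.tendsto_log_atTop.comp tendsto_natCast_atTop_atTop).const_mul_atTop hlam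
  filter_upwards [htend.eventually hev, hlog.eventually_ge_atTop ((M₀ : ℝ) / ε),
    hlog.eventually_ge_atTop ((3 * M₀) * ((T₀ + T₁' + T₂') + 100 + 1 / (2 * τ)) / c'),
    hlog.eventually_ge_atTop (M₀ : ℝ), eventually_ge_atTop 1000]
    with A hA1 hA2 hA3 hA5 hA4 T hT1 hT2
  by_cases halt : (((Ioc A (A + T)).filter (fun m => Even m ∧
      ¬ RichG k δ (κ' / 2 ^ (2 * k + 2)) T m)).card : ℝ) ≤ (2 / 9 + ε) * T
  · exact Or.inl halt
  right
  rw [not_le] at halt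
  obtain ⟨N, hN⟩ : ∃ N, N = 3 * A / 2 := ⟨_, rfl⟩
  rw [← hN] at hA1
  have hTε : (M₀ : ℝ) / ε ≤ T := hA2.trans hT1
  have hTb : (3 * M₀) * ((T₀ + T₁' + T₂') + 100 + 1 / (2 * τ)) / c' ≤ (T : ℝ) := hA3.trans hT1
  have hMT : M₀ ≤ T := by exact_mod_cast hA5.trans hT1
  obtain ⟨bad, hb⟩ : ∃ bad : ℕ → Prop, ∀ m, bad m ↔
      (A < m ∧ m ≤ A + T ∧ ¬ RichG k δ (κ' / 2 ^ (2 * k + 2)) T m) := ⟨_, fun _ => Iff.rfl⟩
  have hA2' : 2 ≤ A := by omega
  have hN3 : 2 * N ≤ 3 * A := by omega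
  have hAN : A ≤ N := by omega
  have hbad : ∀ m, bad m → ¬ RichG k δ (κ' / 2 ^ (2 * k + 2)) T m := by
    intro m hm
    exact ((hb m).1 hm).2.2
  have hcmp : ∀ m : ℕ, A ≤ m → m ≤ N →
      κ' / 2 ^ (2 * k + 2) * (m / (Real.log m) ^ (2 * k + 2)) ≤
      κ' * (N / (Real.log N) ^ (2 * k + 2)) :=
    fun m h1 h2 => cmpK (2 * k + 2) hκ' hA2' hN3 h1 h2
  -- the class
  have hbc : ((Ioc A (A + T)).filter (fun m => Even m ∧
      ¬ RichG k δ (κ' / 2 ^ (2 * k + 2)) T m)) =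
      ((Ioc A (A + T)).filter (fun m => Even m ∧ bad m)) := by
    refine Finset.filter_congr ?_
    intro m hm
    rw [Finset.mem_Ioc] at hm
    rw [hb m]
    constructor
    · rintro ⟨h3, h4⟩
      exact ⟨h3, hm.1, hm.2, h4⟩
    · rintro ⟨h3, _, _, h4⟩
      exact ⟨h3, h4⟩
  rw [hbc] at halt
  obtain ⟨E₀, hE₀e, hE₀1, hE₀2, hE₀3⟩ := FIN2.pigeon (A := A) (T := T) hM hMe bad
    ((4 / 9 + 2 * ε) * T / M₀) (by
      refine lt_of_eq_of_lt ?_ halt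
      field_simp
      ring)
  obtain ⟨L, hL⟩ : ∃ L, L = T / M₀ + 1 := ⟨_, rfl⟩
  rw [← hL] at hE₀3
  have hL1 : (L : ℝ) ≤ T / M₀ + 1 := by
    rw [hL]
    push_cast
    have := @Nat.cast_div_le ℝ _ _ _ T M₀
    linarith
  have hL2 : (T : ℝ) / M₀ ≤ L := by
    rw [div_le_iff₀ hM0]
    have : T ≤ L * M₀ := by
      rw [hL, mul_comm]
      exact (Nat.lt_mul_div_succ T hM).le
    exact_mod_cast this
  have hρL : (4 / 9 + ε) * L ≤ (((range L).filter (fun t => bad (E₀ + M₀ * t))).card : ℝ) := by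
    refine le_trans ?_ hE₀3.le
    have h3 : (4 / 9 + ε) * (L : ℝ) ≤ (4 / 9 + ε) * (T / M₀ + 1) :=
      mul_le_mul_of_nonneg_left hL1 (by positivity)
    refine h3.trans ?_
    have h4 : 1 ≤ ε * (T / M₀) := by
      rw [div_le_iff₀ hε] at hTε
      rw [mul_div_assoc', le_div_iff₀ hM0]
      linarith
    have h5 : (4 / 9 + 2 * ε) * T / M₀ = (4 / 9 + ε) * (T / M₀) + ε * (T / M₀) := by ring
    rw [h5]
    linarith
  obtain ⟨q, x₀, H, ρ', hq, hqQ, hHL, hin, hρ, hH, hH2⟩ :=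
    hinc L (fun t => bad (E₀ + M₀ * t)) (4 / 9 + ε) hρL
  obtain ⟨T₁, hT₁⟩ : ∃ T₁, T₁ = H / 2 := ⟨_, rfl⟩
  have h1τ : 0 < 1 / (2 * τ) := by positivity
  have hT00 : (0 : ℝ) ≤ T₀ := by positivity
  have hT10 : (0 : ℝ) ≤ T₁' := by positivity
  have hT20 : (0 : ℝ) ≤ T₂' := by positivity
  have hTb' : (T₀ + T₁' + T₂') + 100 + 1 / (2 * τ) ≤ c' * (T / M₀) / 3 := by
    rw [div_le_iff₀ hc'] at hTb
    rw [le_div_iff₀ (by norm_num : (0 : ℝ) < 3), mul_div_assoc', le_div_iff₀ hM0]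
    linarith
  have hHb : c' * (T / M₀) ≤ H := (mul_le_mul_of_nonneg_left hL2 hc'.le).trans hHL
  have hH300 : (3 : ℝ) * ((T₀ + T₁' + T₂') + 100 + 1 / (2 * τ)) ≤ H := by linarith
  have hH2' : 2 ≤ H := by
    have : (2 : ℝ) ≤ H := by linarith
    exact_mod_cast this
  have hH3 : (H : ℝ) ≤ 3 * T₁ := by
    have : H ≤ 3 * T₁ := by omega
    exact_mod_cast this
  have hT₁b : (T₀ + T₁' + T₂') + 100 + 1 / (2 * τ) ≤ (T₁ : ℝ) := by linarith
  have hT₁0 : T₀ ≤ T₁ := by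
    have : (T₀ : ℝ) ≤ T₁ := by linarith
    exact_mod_cast this
  have hT₁1 : T₁' ≤ T₁ := by
    have : (T₁' : ℝ) ≤ T₁ := by linarith
    exact_mod_cast this
  have hT₁2 : T₂' ≤ T₁ := by
    have : (T₂' : ℝ) ≤ T₁ := by linarith
    exact_mod_cast this
  have hT₁100 : 100 ≤ T₁ := by
    have : (100 : ℝ) ≤ T₁ := by linarith
    exact_mod_cast this
  have hT₁τ : 1 ≤ 2 * τ * T₁ := by
    have h3 : 1 / (2 * τ) ≤ (T₁ : ℝ) := by linarith
    rw [div_le_iff₀ (by positivity)] at h3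
    linarith
  have hqT : x₀ + q * T₁ < L := hin T₁ (by omega)
  have hMqT : M₀ * x₀ + (q * M₀) * T₁ ≤ T := by
    have h3 : x₀ + q * T₁ ≤ T / M₀ := by omega
    have h4 := (Nat.mul_le_mul_left M₀ h3).trans (Nat.mul_div_le T M₀)
    calc M₀ * x₀ + (q * M₀) * T₁ = M₀ * (x₀ + q * T₁) := by ring
      _ ≤ T := h4
  have hlamT : lam * c' / (8 * M₀) * Real.log N ≤ (T₁ : ℝ) := by
    have hlN : Real.log N ≤ 2 * Real.log A := by
      have hA1' : (2 : ℝ) ≤ A := by exact_mod_cast hA2'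
      have hN2 : 2 * (N : ℝ) ≤ 3 * A := by exact_mod_cast hN3
      have hN1 : (A : ℝ) ≤ N := by exact_mod_cast hAN
      have : Real.log N ≤ Real.log ((A : ℝ) ^ 2) := by
        apply Real.log_le_log (by linarith)
        nlinarith
      rw [Real.log_pow] at this
      push_cast at this
      exact this
    have h3 : lam * Real.log N ≤ 2 * T := by
      have : lam * Real.log N ≤ lam * (2 * Real.log A) := mul_le_mul_of_nonneg_left hlN hlam.le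
      linarith
    have h4 : lam * c' / (8 * M₀) * Real.log N = c' / (8 * M₀) * (lam * Real.log N) := by ring
    rw [h4]
    have h5 : c' / (8 * M₀) * (lam * Real.log N) ≤ c' / (8 * M₀) * (2 * T) :=
      mul_le_mul_of_nonneg_left h3 (by positivity)
    have h6 : c' / (8 * M₀) * (2 * T) = c' * (T / M₀) / 4 := by
      field_simp
      ring
    have h7 : 0 ≤ c' * ((T : ℝ) / M₀) := by positivity
    linarith
  have hclq' := hA1 q T₁ (E₀ + M₀ * x₀) hq hqQ hlamT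
    (hE₀e.add (hMe.mul_right x₀)) (by omega) (by omega)
  obtain ⟨w, hw⟩ : ∃ w, w = T₁ / 50 := ⟨_, rfl⟩
  have hqM : 1 ≤ q * M₀ := Nat.mul_pos hq hM
  -- the powers
  have hpow : (min δ₁ δ₂) * (c' / (3 * M₀)) ^ (2 * k) * (T : ℝ) ^ (2 * k) ≤
      (min δ₁ δ₂) * (T₁ : ℝ) ^ (2 * k) := by
    rw [mul_assoc, ← mul_pow]
    refine mul_le_mul_of_nonneg_left (pow_le_pow_left₀ (by positivity) ?_ _) hδ12.le
    have e1 : c' / (3 * M₀) * (T : ℝ) = c' * (T / M₀) / 3 := by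
      field_simp
    rw [e1]
    linarith
  have hd1 : δ * (T : ℝ) ^ (2 * k) ≤ δ₁ * (T₁ : ℝ) ^ (2 * k) := by
    rw [hδ]
    exact hpow.trans (mul_le_mul_of_nonneg_right (min_le_left _ _) (by positivity))
  have hd2 : δ * (T : ℝ) ^ (2 * k) ≤ δ₂ * (T₁ : ℝ) ^ (2 * k) := by
    rw [hδ]
    exact hpow.trans (mul_le_mul_of_nonneg_right (min_le_right _ _) (by positivity))
  have e2T : (q * M₀) * (2 * T₁) = 2 * ((q * M₀) * T₁) := by ring
  have hstep := step (A := A) (Z := Z) (w := w) (T := T) bad hbad hcmp hε hε1 (min_le_left _ _)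
    ((min_le_right _ _).trans (min_le_left _ _)) ((min_le_right _ _).trans (min_le_right _ _))
    hτ hcc hT₁ hT₁100 hT₁τ hρ hH hH2 hclq' (hcore T₁ hT₁0)
    (fun A C U Gd Gv => hcb1 T₁ A C U Gd Gv hT₁1)
    (fun A Gd Gv => hcb2 T₁ A Gd Gv hT₁2)
    hd1 hd2 hqM (by omega) (by omega) (by rw [e2T]; omega) hw hAN
    (by omega) (by omega)
  refine ⟨q * M₀, q * M₀ * w, hqM, Nat.mul_le_mul_right M₀ hqQ, ?_, ?_, ?_⟩
  · have h3 : (T₁ : ℝ) ≤ 100 * w := by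
      have : T₁ ≤ 100 * w := by omega
      exact_mod_cast this
    have h4 : c' / 300 * T = M₀ * (c' * (T / M₀) / 300) := by
      field_simp
    rw [h4]
    have h5 : (M₀ : ℝ) * w ≤ ((q * M₀ * w : ℕ) : ℝ) := by
      have : M₀ * w ≤ q * M₀ * w := Nat.mul_le_mul_right w (Nat.le_mul_of_pos_left M₀ hq)
      exact_mod_cast this
    refine le_trans ?_ h5
    refine mul_le_mul_of_nonneg_left ?_ hM0.le
    linarith
  · have h3 : (q * M₀) * w ≤ (q * M₀) * T₁ := Nat.mul_le_mul_left _ (by omega)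
    omega
  · rw [FIN2.mult_card hqM]
    refine hstep.trans (le_of_eq ?_)
    have h3 : ((q * M₀ : ℕ) : ℝ) ≠ 0 := by
      have : (q * M₀ : ℕ) ≠ 0 := by omega
      exact_mod_cast this
    rw [Nat.cast_mul (q * M₀) w, mul_div_cancel_left₀ _ h3]

end FINK

open Classical in
theorem t_FINK : S_CLQK → S_INC → S_CORE2 → S_CB1 → S_CB2 → S_FINK := by
  intro hCLQ hINC hCORE hCB1 hCB2 k ε hε
  obtain ⟨Q, c, δ, hc, hδ, h⟩ := FINK.main k (min ε (1 / 100)) (lt_min hε (by norm_num))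
    (min_le_right _ _) hCLQ hINC hCORE hCB1 hCB2
  refine ⟨Q, c, δ, hc, hδ, fun lam hlam => ?_⟩
  obtain ⟨κ, hκ, hev⟩ := h lam hlam
  refine ⟨κ, hκ, ?_⟩
  filter_upwards [hev] with A hA T hT1 hT2
  rcases hA T hT1 hT2 with h1 | ⟨q, T', h1, h2, h3, h4, h5⟩
  · left
    refine h1.trans ?_
    refine mul_le_mul_of_nonneg_right ?_ (by positivity)
    have := min_le_left ε (1 / 100)
    linarith
  · right
    refine ⟨q, T', h1, h2, h3, h4, h5.trans ?_⟩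
    refine mul_le_mul_of_nonneg_right (min_le_left _ _) (by positivity)

end Pool.Agent.N679.RG
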