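import Pool.Agent.N679.RG.All2
import Pool.Agent.N679.RG.ABSK
import Pool.Agent.N679.RG.CLQK
import Pool.Agent.N679.RG.CB1
import Pool.Agent.N679.RG.CB2
import Pool.Agent.N679.RG.FINK

/-!
# Project RN1: assembly

Blueprint: helper679. Parts: ABSK (helper34, after ABS by helper278), CLQK (helper663, after CLQ2 by helper216), CB1
(helper982), CB2 (helper78), FINK (helper891, after FIN2 by helper394), and the parts of project RH (see `All2.lean`).
-/

set_option autoImplicit false

namespace Pool.Agent.N679.RG

theorem fink : S_FINK :=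
  t_FINK (t_CLQK t_HIT2 (t_MOM2 (Pool.Agent.N692.RQWB.main Pool.Agent.N592.RQ.main)) t_ABSK
    (Pool.Agent.N415.RQBB.main Pool.Agent.N592.RQ.main) (Pool.Agent.N591.RQ.main Pool.Agent.N595.RQ.main))
    t_INC core2 t_CB1 t_CB2

end Pool.Agent.N679.RG
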