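import Mathlib
import Pool.Agent.N679.RG.Stm5
import Pool.Agent.N679.RG.FIN2

/-!
# Project RN: FINW, the final assembly (from CLQW, INC, CORE2, CB1 and CB2), differences with clusters of primes
-/

set_option autoImplicit false

namespace Pool.Agent.N679.RG

open Finset Filter Topology

namespace FINW

open Classical in
/-- the two parts of an almost clique -/
theorem parts {T₁ m : ℕ} {e : ℝ} (G : Finset (Bool × ℕ) → Prop) {As : Finset (Bool × ℕ)}
    (hAs : As ⊆ (univ : Finset Bool) ×ˢ range T₁)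
    (hbad : (((Fintype.piFinset (fun _ : Fin m => As)).filter (fun y => Function.Injective y ∧
      ¬ G (univ.image y))).card : ℝ) ≤ e) :
    ∃ P : Bool → Finset ℤ, (∀ b, P b ⊆ Ico 0 (T₁ : ℤ)) ∧
      As.card ≤ (P false).card + (P true).card ∧
      ∀ (β : Fin m → Bool) (S : Finset (Fin m → ℤ)),
        (∀ y ∈ S, (∀ i, y i ∈ P (β i)) ∧ (∀ i j, β i = β j → y i = y j → i = j) ∧
          ¬ G (univ.image (fun i => (β i, (y i).toNat)))) → (S.card : ℝ) ≤ e := by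
  have hlt : ∀ b v, (b, v) ∈ As → v < T₁ := by
    intro b v h
    have := (Finset.mem_product.1 (hAs h)).2
    exact Finset.mem_range.1 this
  -- the two parts of `As`
  let P : Bool → Finset ℤ := fun b =>
    (Ico (0 : ℤ) T₁).filter (fun v : ℤ => (b, v.toNat) ∈ As)
  have hPsub : ∀ b, P b ⊆ Ico 0 (T₁ : ℤ) := fun b => Finset.filter_subset _ _
  have hPmem : ∀ b v, v ∈ P b → ∃ n : ℕ, v = (n : ℤ) ∧ (b, n) ∈ As ∧ n < T₁ := by
    intro b v hv
    obtain ⟨h3, h4⟩ := Finset.mem_filter.1 hv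
    rw [Finset.mem_Ico] at h3
    exact ⟨v.toNat, by omega, h4, by omega⟩
  have hPcard : As.card ≤ (P false).card + (P true).card := by
    have hsplit : As.card = (As.filter (fun u => u.1 = false)).card +
        (As.filter (fun u => ¬ u.1 = false)).card :=
      (Finset.card_filter_add_card_filter_not _).symm
    rw [hsplit]
    refine Nat.add_le_add ?_ ?_
    · refine Finset.card_le_card_of_injOn (fun u => (u.2 : ℤ)) ?_ ?_
      · intro u hu
        obtain ⟨h3, h4⟩ := Finset.mem_filter.1 (Finset.mem_coe.1 hu)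
        obtain ⟨b, v⟩ := u
        have h5 : b = false := h4
        subst h5
        refine Finset.mem_coe.2 (Finset.mem_filter.2 ⟨Finset.mem_Ico.2 ⟨?_, ?_⟩, ?_⟩)
        · exact Int.natCast_nonneg _
        · show ((v : ℕ) : ℤ) < (T₁ : ℤ)
          exact_mod_cast hlt _ _ h3
        · show (false, ((v : ℤ)).toNat) ∈ As
          rw [Int.toNat_natCast]; exact h3
      · intro u hu u' hu' h
        obtain ⟨h3, h4⟩ := Finset.mem_filter.1 (Finset.mem_coe.1 hu)
        obtain ⟨h3', h4'⟩ := Finset.mem_filter.1 (Finset.mem_coe.1 hu')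
        have h5 : (u.2 : ℤ) = (u'.2 : ℤ) := h
        exact Prod.ext (h4.trans h4'.symm) (by exact_mod_cast h5)
    · refine Finset.card_le_card_of_injOn (fun u => (u.2 : ℤ)) ?_ ?_
      · intro u hu
        obtain ⟨h3, h4⟩ := Finset.mem_filter.1 (Finset.mem_coe.1 hu)
        obtain ⟨b, v⟩ := u
        have h5 : b = true := by simpa using h4
        subst h5
        refine Finset.mem_coe.2 (Finset.mem_filter.2 ⟨Finset.mem_Ico.2 ⟨?_, ?_⟩, ?_⟩)
        · exact Int.natCast_nonneg _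
        · show ((v : ℕ) : ℤ) < (T₁ : ℤ)
          exact_mod_cast hlt _ _ h3
        · show (true, ((v : ℤ)).toNat) ∈ As
          rw [Int.toNat_natCast]; exact h3
      · intro u hu u' hu' h
        obtain ⟨h3, h4⟩ := Finset.mem_filter.1 (Finset.mem_coe.1 hu)
        obtain ⟨h3', h4'⟩ := Finset.mem_filter.1 (Finset.mem_coe.1 hu')
        have h5 : (u.2 : ℤ) = (u'.2 : ℤ) := h
        have h6 : u.1 = true := by simpa using h4
        have h7 : u'.1 = true := by simpa using h4'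
        exact Prod.ext (h6.trans h7.symm) (by exact_mod_cast h5)
  refine ⟨P, hPsub, hPcard, ?_⟩
  intro β S hS
  refine le_trans ?_ hbad
  norm_cast
  refine Finset.card_le_card_of_injOn (fun y => fun i => (β i, (y i).toNat)) ?_ ?_
  · intro y hy
    obtain ⟨h1, h2, h3⟩ := hS y (Finset.mem_coe.1 hy)
    refine Finset.mem_coe.2 (Finset.mem_filter.2 ⟨?_, ?_, h3⟩)
    · rw [Fintype.mem_piFinset]
      intro i
      obtain ⟨n, hn, hn', _⟩ := hPmem _ _ (h1 i)
      show (β i, (y i).toNat) ∈ As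
      rw [hn, Int.toNat_natCast]
      exact hn'
    · intro i j hij
      have hij' : (β i, (y i).toNat) = (β j, (y j).toNat) := hij
      obtain ⟨hb, ht⟩ := Prod.mk.inj hij'
      obtain ⟨n, hn, -, -⟩ := hPmem _ _ (h1 i)
      obtain ⟨n', hn', -, -⟩ := hPmem _ _ (h1 j)
      refine h2 i j hb ?_
      rw [hn, hn', Int.toNat_natCast, Int.toNat_natCast] at ht
      rw [hn, hn', ht]
  · intro y hy y' hy' h
    funext i
    have h1 := (hS y (Finset.mem_coe.1 hy)).1 i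
    have h1' := (hS y' (Finset.mem_coe.1 hy')).1 i
    obtain ⟨n, hn, -, -⟩ := hPmem _ _ h1
    obtain ⟨n', hn', -, -⟩ := hPmem _ _ h1'
    have h2 : (β i, (y i).toNat) = (β i, (y' i).toNat) := congrFun h i
    have h3 := (Prod.mk.inj h2).2
    rw [hn, hn', Int.toNat_natCast, Int.toNat_natCast] at h3
    rw [hn, hn', h3]

/-- the indices of the two clusters -/
def ee (k : ℕ) : Fin (2 * k + 1 + 1) ≃ Fin (k + 1) ⊕ Fin (k + 1) :=
  (finCongr (by omega)).trans finSumFinEquiv.symm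

/-- the two clusters as one tuple -/
def comb {k : ℕ} (T : ℕ) (y z : Fin (k + 1) → ℤ) (j : Fin (2 * k + 1 + 1)) : Bool × ℕ :=
  Sum.elim (fun i => (false, ((T : ℤ) - 1 - y i).toNat)) (fun i => (true, (z i).toNat)) (ee k j)

open Classical in
/-- the main step -/
theorem step {k H T₁ Z : ℕ} {ε ε₁ ε₂ ε₃ c τ ρ' δ₁ δ₂ η : ℝ} (B : ℕ → Prop)
    (G : Finset (Bool × ℕ) → Prop)
    (Gv₁ : ℤ → (Fin k → ℤ) → (Fin k → ℤ) → Prop) (Gv₂ : ℤ → (Fin (2 * k) → ℤ) → Prop)
    (hG1 : ∀ y z : Fin (k + 1) → ℤ, (∀ i, y i ∈ Ico 0 (T₁ : ℤ)) → (∀ i, z i ∈ Ico 0 (T₁ : ℤ)) →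
      G (univ.image (comb T₁ y z)) →
      Gv₁ (y 0 + z 0) (fun i => y i.succ - y 0) (fun i => z i.succ - z 0))
    (hG2 : ∀ (b : Bool) (y : Fin (2 * k + 2) → ℤ), (∀ i, y i ∈ Ico 0 (T₁ : ℤ)) →
      G (univ.image (fun i => (b, (y i).toNat))) →
      Gv₂ (y 1 - y 0) (fun i => y i.succ.succ - y 0))
    (hB : ∀ t : ℕ, t < 2 * T₁ → B t →
      (((vecs k T₁ ×ˢ vecs k T₁).filter (fun v => Gv₁ (t : ℤ) v.1 v.2)).card : ℝ) ≤
        δ₁ * (T₁ : ℝ) ^ (2 * k))
    (hε : 0 < ε) (hε1 : ε ≤ 1 / 1000) (hε₃ : ε₃ ≤ ε / 4) (hε₃1 : ε₃ ≤ ε₁) (hε₃2 : ε₃ ≤ ε₂)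
    (hτ : 0 < τ)
    (hc : 0 < c) (hT₁ : T₁ = H / 2) (hT₁b : 100 ≤ T₁) (hT₁c : 1 ≤ 2 * τ * T₁)
    (hρ : 4 / 9 + ε ≤ ρ')
    (hH : ρ' * H ≤ (((range H).filter (fun t => B t)).card : ℝ))
    (hH2 : ∀ q' x₁ H' : ℕ, 1 ≤ q' → q' ≤ Z → c / 3 * H ≤ (H' : ℝ) → (∀ t < H', x₁ + q' * t < H) →
        (((range H').filter (fun t => B (x₁ + q' * t))).card : ℝ) ≤
          (ρ' + τ / 2) * H')
    (hclq : ∃ As ⊆ (univ : Finset Bool) ×ˢ range T₁, (5 / 9 - ε₃) * T₁ ≤ (As.card : ℝ) ∧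
      (((Fintype.piFinset (fun _ : Fin (2 * k + 1 + 1) => As)).filter (fun y =>
        Function.Injective y ∧ ¬ G (univ.image y))).card : ℝ) ≤ ε₃ * (T₁ : ℝ) ^ (2 * k + 1 + 1))
    (hcore : ∀ (A C U : Finset ℤ) (ρ : ℝ),
      A ⊆ Ico 0 (T₁ : ℤ) → C ⊆ Ico 0 (T₁ : ℤ) → U ⊆ Ico 0 (2 * (T₁ : ℤ)) → ε / 4 ≤ ρ →
      (ρ - τ) * (2 * T₁) ≤ (U.card : ℝ) →
      (∀ (k m : ℕ) (x : ℤ), 1 ≤ k → k ≤ Z → c * T₁ ≤ (m : ℝ) → 0 ≤ x → x + k * (m - 1) < 2 * T₁ →
        (((range m).filter (fun t : ℕ => x + k * t ∈ U)).card : ℝ) ≤ (ρ + τ) * m) →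
      ε / 4 * T₁ ≤ (A.card : ℝ) → ε / 4 * T₁ ≤ (C.card : ℝ) →
      (1 - ρ + ε / 4) * T₁ ≤ (A.card : ℝ) + C.card →
      τ * (T₁ : ℝ) ^ 2 ≤ (((A ×ˢ C).filter (fun p => p.1 + p.2 ∈ U)).card : ℝ))
    (hCB1 : ∀ (A C U : Finset ℤ) (Gd : (Fin (k + 1) → ℤ) → (Fin (k + 1) → ℤ) → Prop)
        (Gv : ℤ → (Fin k → ℤ) → (Fin k → ℤ) → Prop),
      A ⊆ Ico 0 (T₁ : ℤ) → C ⊆ Ico 0 (T₁ : ℤ) → ε / 4 * T₁ ≤ (A.card : ℝ) →
      ε / 4 * T₁ ≤ (C.card : ℝ) →
      (((((Fintype.piFinset (fun _ : Fin (k + 1) => A)) ×ˢ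
        (Fintype.piFinset (fun _ : Fin (k + 1) => C))).filter
        (fun y => Function.Injective y.1 ∧ Function.Injective y.2 ∧ ¬ Gd y.1 y.2)).card : ℝ) ≤
          ε₁ * (T₁ : ℝ) ^ (2 * k + 2)) →
      (∀ y z, Gd y z → Gv (y 0 + z 0) (fun i => y i.succ - y 0) (fun i => z i.succ - z 0)) →
      (∀ r ∈ U, (((vecs k T₁ ×ˢ vecs k T₁).filter (fun v => Gv r v.1 v.2)).card : ℝ) ≤
        δ₁ * (T₁ : ℝ) ^ (2 * k)) →
      (((A ×ˢ C).filter (fun p => p.1 + p.2 ∈ U)).card : ℝ) ≤ τ / 2 * (T₁ : ℝ) ^ 2)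
    (hCB2 : ∀ (A : Finset ℤ) (Gd : (Fin (2 * k + 2) → ℤ) → Prop)
        (Gv : ℤ → (Fin (2 * k) → ℤ) → Prop),
      A ⊆ Ico 0 (T₁ : ℤ) → 11 / 20 * (T₁ : ℝ) ≤ (A.card : ℝ) →
      ((((Fintype.piFinset (fun _ : Fin (2 * k + 2) => A)).filter
        (fun y => Function.Injective y ∧ ¬ Gd y)).card : ℝ) ≤ ε₂ * (T₁ : ℝ) ^ (2 * k + 2)) →
      (∀ y, Gd y → Gv (y 1 - y 0) (fun i => y i.succ.succ - y 0)) →
      (((Icc 1 (T₁ / 50)).filter (fun h : ℕ =>
        (((vecs (2 * k) T₁).filter (fun g => (∀ i, g i ≠ (h : ℤ)) ∧ Gv h g)).card : ℝ) <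
          δ₂ * (T₁ : ℝ) ^ (2 * k))).card : ℝ) ≤ η * ((T₁ / 50 : ℕ) : ℝ)) :
    (((Icc 1 (T₁ / 50)).filter (fun h : ℕ =>
        (((vecs (2 * k) T₁).filter (fun g => (∀ i, g i ≠ (h : ℤ)) ∧ Gv₂ h g)).card : ℝ) <
          δ₂ * (T₁ : ℝ) ^ (2 * k))).card : ℝ) ≤ η * ((T₁ / 50 : ℕ) : ℝ) := by
  obtain ⟨As, hAs, hcard, hpairs⟩ := hclq
  obtain ⟨P, hPsub, hPcard, hsmall⟩ := parts G hAs hpairs
  have hT₁0 : (0 : ℝ) < T₁ := by
    have : 0 < T₁ := by omega
    exact_mod_cast this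
  have hT₁100 : (100 : ℝ) ≤ T₁ := by exact_mod_cast hT₁b
  have hcard' : (5 / 9 - ε₃) * T₁ ≤ ((P false).card : ℝ) + (P true).card :=
    hcard.trans (by exact_mod_cast hPcard)
  -- the set `U`
  obtain ⟨U, hU⟩ : ∃ U : Finset ℤ, U = (Ico (0 : ℤ) (2 * (T₁ : ℤ))).filter
    (fun r : ℤ => B r.toNat) := ⟨_, rfl⟩
  have hUsub : U ⊆ Ico 0 (2 * (T₁ : ℤ)) := by rw [hU]; exact Finset.filter_subset _ _
  have hUmem : ∀ r : ℕ, (r : ℤ) ∈ U → B r := by
    intro r hr
    rw [hU] at hr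
    have := (Finset.mem_filter.1 hr).2
    rw [Int.toNat_natCast] at this
    exact this
  have hUcard : ρ' * H ≤ (U.card : ℝ) + 1 := by
    refine hH.trans ?_
    have h3 : ((range H).filter (fun t => B t)) ⊆
        insert (2 * T₁) ((range (2 * T₁)).filter (fun t => B t)) := by
      intro t ht
      obtain ⟨h4, h5⟩ := Finset.mem_filter.1 ht
      rw [Finset.mem_range] at h4
      rw [Finset.mem_insert, Finset.mem_filter, Finset.mem_range]
      by_cases h6 : t = 2 * T₁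
      · exact Or.inl h6
      · exact Or.inr ⟨by omega, h5⟩
    have h4 : ((range (2 * T₁)).filter (fun t => B t)).card ≤ U.card := by
      refine Finset.card_le_card_of_injOn (fun t => (t : ℤ)) ?_ ?_
      · intro t ht
        obtain ⟨h4, h5⟩ := Finset.mem_filter.1 (Finset.mem_coe.1 ht)
        rw [Finset.mem_range] at h4
        rw [hU]
        refine Finset.mem_coe.2 (Finset.mem_filter.2 ⟨Finset.mem_Ico.2 ⟨?_, ?_⟩, ?_⟩)
        · exact Int.natCast_nonneg _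
        · show (t : ℤ) < 2 * (T₁ : ℤ)
          omega
        · show B ((t : ℤ)).toNat
          rw [Int.toNat_natCast]; exact h5
      · intro t _ t' _ h
        have h' : (t : ℤ) = (t' : ℤ) := h
        exact_mod_cast h'
    have h5 := (Finset.card_le_card h3).trans (Finset.card_insert_le _ _)
    have h6 := h5.trans (Nat.add_le_add_right h4 1)
    exact_mod_cast h6
  have hH1 : (2 : ℝ) * T₁ ≤ H := by
    have : 2 * T₁ ≤ H := by omega
    exact_mod_cast this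
  have hH3 : (H : ℝ) ≤ 3 * T₁ := by
    have : H ≤ 3 * T₁ := by omega
    exact_mod_cast this
  have hρ0 : 0 ≤ ρ' := by linarith
  have hU1 : (ρ' - τ) * (2 * T₁) ≤ (U.card : ℝ) := by nlinarith
  have hU2 : ∀ (k m : ℕ) (x : ℤ), 1 ≤ k → k ≤ Z → c * T₁ ≤ (m : ℝ) → 0 ≤ x →
      x + k * (m - 1) < 2 * T₁ →
        (((range m).filter (fun t : ℕ => x + k * t ∈ U)).card : ℝ) ≤ (ρ' + τ) * m := by
    intro k m x hk hkZ hm hx hxk
    obtain ⟨y, rfl⟩ := Int.eq_ofNat_of_zero_le hx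
    have hm0 : (0 : ℝ) < m := lt_of_lt_of_le (by positivity) hm
    have hm0' : 0 < m := by exact_mod_cast hm0
    have h3 := hH2 k y m hk hkZ (by nlinarith) (by
      intro t ht
      have h4 : (k : ℤ) * t ≤ k * (m - 1) := by
        refine mul_le_mul_of_nonneg_left ?_ (by positivity)
        omega
      have h5 : ((y + k * t : ℕ) : ℤ) < 2 * T₁ := by
        push_cast
        linarith
      omega)
    have h4 : ((range m).filter (fun t : ℕ => ((y : ℕ) : ℤ) + k * t ∈ U)).card ≤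
        ((range m).filter (fun t => B (y + k * t))).card := by
      refine Finset.card_le_card ?_
      intro t ht
      obtain ⟨h5, h6⟩ := Finset.mem_filter.1 ht
      refine Finset.mem_filter.2 ⟨h5, hUmem _ ?_⟩
      push_cast
      exact h6
    have h5 : (((range m).filter (fun t : ℕ => ((y : ℕ) : ℤ) + k * t ∈ U)).card : ℝ) ≤
        (ρ' + τ / 2) * m := le_trans (by exact_mod_cast h4) h3
    refine h5.trans ?_
    nlinarith
  -- the reflection of the first part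
  let R : Finset ℤ := (P false).image (fun v => (T₁ : ℤ) - 1 - v)
  have hRsub : R ⊆ Ico 0 (T₁ : ℤ) := by
    intro r hr
    obtain ⟨v, hv, rfl⟩ := Finset.mem_image.1 hr
    have := Finset.mem_Ico.1 (hPsub false hv)
    rw [Finset.mem_Ico]
    omega
  have hRcard : R.card = (P false).card := by
    refine Finset.card_image_of_injective _ ?_
    intro v v' h
    have h' : (T₁ : ℤ) - 1 - v = (T₁ : ℤ) - 1 - v' := h
    omega
  have hUlt : ∀ r ∈ U, ∃ t : ℕ, r = (t : ℤ) ∧ t < 2 * T₁ ∧ B t := by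
    intro r hr
    have h3 := Finset.mem_Ico.1 (hUsub hr)
    obtain ⟨t, rfl⟩ := Int.eq_ofNat_of_zero_le h3.1
    exact ⟨t, rfl, by omega, hUmem t hr⟩
  have hRmem : ∀ r ∈ R, (T₁ : ℤ) - 1 - r ∈ P false := by
    intro r hr
    obtain ⟨v, hv, hvr⟩ := Finset.mem_image.1 hr
    have hvr' : (T₁ : ℤ) - 1 - v = r := hvr
    have : (T₁ : ℤ) - 1 - r = v := by omega
    rw [this]
    exact hv
  have hT2 : (0 : ℝ) < (T₁ : ℝ) ^ 2 := by positivity
  -- the conclusion from a large part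
  have hfin : ∀ b : Bool, (11 / 20 : ℝ) * T₁ ≤ ((P b).card : ℝ) →
      (((Icc 1 (T₁ / 50)).filter (fun h : ℕ =>
        (((vecs (2 * k) T₁).filter (fun g => (∀ i, g i ≠ (h : ℤ)) ∧ Gv₂ h g)).card : ℝ) <
          δ₂ * (T₁ : ℝ) ^ (2 * k))).card : ℝ) ≤ η * ((T₁ / 50 : ℕ) : ℝ) := by
    intro b hb
    obtain ⟨Gd, hGd⟩ : ∃ Gd : (Fin (2 * k + 2) → ℤ) → Prop, ∀ y, Gd y ↔
      ((∀ i, y i ∈ Ico 0 (T₁ : ℤ)) ∧ G (univ.image (fun i => (b, (y i).toNat)))) :=
      ⟨_, fun _ => Iff.rfl⟩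
    refine hCB2 (P b) Gd Gv₂ (hPsub b) hb ?_ ?_
    · refine le_trans (hsmall (fun _ => b) _ ?_) (mul_le_mul_of_nonneg_right hε₃2 (by positivity))
      intro y hy
      obtain ⟨h3, h4, h5⟩ := Finset.mem_filter.1 hy
      rw [Fintype.mem_piFinset] at h3
      refine ⟨h3, fun i j _ hij => h4 hij, fun h6 => h5 ((hGd y).2 ⟨fun i => hPsub b (h3 i), h6⟩)⟩
    · intro y hy
      obtain ⟨h3, h4⟩ := (hGd y).1 hy
      exact hG2 b y h3 h4
  by_cases hf : ε / 4 * T₁ ≤ ((P false).card : ℝ)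
  · by_cases ht : ε / 4 * T₁ ≤ ((P true).card : ℝ)
    · exfalso
      have h3 := hcore R (P true) U ρ' hRsub (hPsub _) hUsub (by linarith) hU1 hU2
        (by rw [hRcard]; exact hf) ht
        (by
          rw [hRcard]
          refine le_trans ?_ hcard'
          refine mul_le_mul_of_nonneg_right ?_ hT₁0.le
          linarith)
      obtain ⟨Gd, hGd⟩ : ∃ Gd : (Fin (k + 1) → ℤ) → (Fin (k + 1) → ℤ) → Prop, ∀ y z, Gd y z ↔
        ((∀ i, y i ∈ Ico 0 (T₁ : ℤ)) ∧ (∀ i, z i ∈ Ico 0 (T₁ : ℤ)) ∧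
          G (univ.image (comb T₁ y z))) := ⟨_, fun _ _ => Iff.rfl⟩
      have h4 := hCB1 R (P true) U Gd Gv₁ hRsub (hPsub _)
        (by rw [hRcard]; exact hf) ht ?_ ?_ ?_
      · have h5 : τ ≤ τ / 2 := le_of_mul_le_mul_right (h3.trans h4) hT2
        linarith
      · -- the bad tuples
        have key : ∀ S' : Finset ((Fin (k + 1) → ℤ) × (Fin (k + 1) → ℤ)),
            (∀ y ∈ S', (∀ i, y.1 i ∈ R) ∧ (∀ i, y.2 i ∈ P true) ∧ Function.Injective y.1 ∧
              Function.Injective y.2 ∧ ¬ Gd y.1 y.2) →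
            (S'.card : ℝ) ≤ ε₁ * (T₁ : ℝ) ^ (2 * k + 2) := by
          intro S' hS'
          let Φ : (Fin (k + 1) → ℤ) × (Fin (k + 1) → ℤ) → (Fin (2 * k + 1 + 1) → ℤ) := fun y j =>
            Sum.elim (fun i => (T₁ : ℤ) - 1 - y.1 i) (fun i => y.2 i) (ee k j)
          have hΦ : Function.Injective Φ := by
            intro y y' h
            refine Prod.ext ?_ ?_
            · funext i
              have h5 := congrFun h ((ee k).symm (Sum.inl i))
              simp only [Φ, Equiv.apply_symm_apply, Sum.elim_inl] at h5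
              omega
            · funext i
              have h5 := congrFun h ((ee k).symm (Sum.inr i))
              simp only [Φ, Equiv.apply_symm_apply, Sum.elim_inr] at h5
              exact h5
          have h5 : S'.card = (S'.image Φ).card := (Finset.card_image_of_injective _ hΦ).symm
          rw [h5]
          refine le_trans (hsmall (fun j => Sum.elim (fun _ => false) (fun _ => true) (ee k j)) _ ?_)
            (mul_le_mul_of_nonneg_right hε₃1 (by positivity))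
          intro Y hY
          obtain ⟨⟨y, z⟩, hy, rfl⟩ := Finset.mem_image.1 hY
          obtain ⟨h10, h11, h7, h8, h9⟩ := hS' _ hy
          refine ⟨?_, ?_, ?_⟩
          · intro j
            rcases hj : ee k j with i | i
            · simp only [Φ, hj, Sum.elim_inl]
              exact hRmem _ (h10 i)
            · simp only [Φ, hj, Sum.elim_inr]
              exact h11 i
          · intro j j' hjj hY'
            apply (ee k).injective
            rcases hj : ee k j with i | i <;> rcases hj' : ee k j' with i' | i'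
            · simp only [Φ, hj, hj', Sum.elim_inl] at hY'
              have h12 : y i = y i' := by omega
              rw [h7 h12]
            · simp only [hj, hj', Sum.elim_inl, Sum.elim_inr] at hjj
              exact absurd hjj (by decide)
            · simp only [hj, hj', Sum.elim_inl, Sum.elim_inr] at hjj
              exact absurd hjj (by decide)
            · simp only [Φ, hj, hj', Sum.elim_inr] at hY'
              rw [h8 hY']
          · intro h12
            apply h9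
            refine (hGd _ _).2 ⟨fun i => hRsub (h10 i), fun i => hPsub _ (h11 i), ?_⟩
            have h13 : (fun j => ((Sum.elim (fun _ => false) (fun _ => true) (ee k j) : Bool),
                (Φ (y, z) j).toNat)) = comb T₁ y z := by
              funext j
              unfold comb
              rcases hj : ee k j with i | i
              · simp only [Φ, hj, Sum.elim_inl]
              · simp only [Φ, hj, Sum.elim_inr]
            rw [← h13]
            exact h12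
        refine key _ fun y hy => ?_
        obtain ⟨h6, h7, h8, h9⟩ := Finset.mem_filter.1 hy
        obtain ⟨h10, h11⟩ := Finset.mem_product.1 h6
        rw [Fintype.mem_piFinset] at h10 h11
        exact ⟨h10, h11, h7, h8, h9⟩
      · intro y z hyz
        obtain ⟨h5, h6, h7⟩ := (hGd y z).1 hyz
        exact hG1 y z h5 h6 h7
      · intro r hr
        obtain ⟨t, rfl, ht1, ht2⟩ := hUlt r hr
        exact hB t ht1 ht2
    · refine hfin false ?_
      rw [not_le] at ht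
      nlinarith
  · refine hfin true ?_
    rw [not_le] at hf
    nlinarith

theorem mem_vecs {k T : ℕ} {h : Fin k → ℤ} : h ∈ vecs k T ↔
    (∀ i, -(T : ℤ) ≤ h i ∧ h i ≤ T) ∧ Function.Injective h ∧ ∀ i, h i ≠ 0 := by
  unfold vecs
  rw [Finset.mem_filter, Fintype.mem_piFinset]
  simp only [Finset.mem_Icc]

theorem vecs_mul {k T₁ T : ℕ} {M : ℤ} (hM : M ≠ 0) (hT : |M| * T₁ ≤ T) {h : Fin k → ℤ}
    (hh : h ∈ vecs k T₁) : (fun i => M * h i) ∈ vecs k T := by
  rw [mem_vecs] at hh ⊢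
  obtain ⟨h1, h2, h3⟩ := hh
  refine ⟨fun i => ?_, fun i j hij => h2 (mul_left_cancel₀ hM hij), fun i => mul_ne_zero hM (h3 i)⟩
  have h4 : |h i| ≤ T₁ := abs_le.2 (h1 i)
  have h5 : |M * h i| ≤ T := by
    rw [abs_mul]
    exact (mul_le_mul_of_nonneg_left h4 (abs_nonneg M)).trans hT
  exact abs_le.1 h5

theorem fw_f0 (t : ℤ) (M n v : ℕ) : (fw 1 1 0 t M n (false, v)).toNat = n + M * v := by
  have : fw 1 1 0 t M n (false, v) = ((n + M * v : ℕ) : ℤ) := by
    simp [fw]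
  rw [this, Int.toNat_natCast]

theorem fw_t0 (t M n v : ℕ) : (fw 1 1 0 (t : ℤ) M n (true, v)).toNat = n + t + M * v := by
  have : fw 1 1 0 (t : ℤ) M n (true, v) = ((n + t + M * v : ℕ) : ℤ) := by
    simp [fw]
  rw [this, Int.toNat_natCast]

/-- the clusters around `p` and `p + d` -/
theorem pw_dV {k : ℕ} {t M N X T d : ℕ} (y z : Fin (k + 1) → ℤ) (hy : ∀ i, y i ∈ Ico 0 (T : ℤ))
    (hz : ∀ i, z i ∈ Ico 0 (T : ℤ)) (hX : 5 * N / 9 + M * T ≤ X)
    (hd : (d : ℤ) = t - M * ((T : ℤ) - 1) + M * (y 0 + z 0)) :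
    pwJ 0 (t : ℤ) M N (univ.image (comb T y z)) ≤
      dV X d (fun i => -((M : ℤ) * (y i.succ - y 0))) (fun i => (M : ℤ) * (z i.succ - z 0)) := by
  unfold pwJ dV
  refine Finset.card_le_card_of_injOn (fun n => n + M * ((T : ℤ) - 1 - y 0).toNat) ?_ ?_
  · intro n hn
    obtain ⟨hn0, hn2⟩ := Finset.mem_filter.1 (Finset.mem_coe.1 hn)
    have hn1 := (Finset.mem_Icc.1 hn0).2
    have h1 : ∀ i, (n + M * ((T : ℤ) - 1 - y i).toNat).Prime := by
      intro i
      have h2 := hn2 (false, ((T : ℤ) - 1 - y i).toNat) (Finset.mem_image.2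
        ⟨(ee k).symm (Sum.inl i), Finset.mem_univ _, by unfold comb; simp⟩)
      rwa [fw_f0] at h2
    have h2 : ∀ i, (n + t + M * (z i).toNat).Prime := by
      intro i
      have h2 := hn2 (true, (z i).toNat) (Finset.mem_image.2
        ⟨(ee k).symm (Sum.inr i), Finset.mem_univ _, by unfold comb; simp⟩)
      rwa [fw_t0] at h2
    have h3 : ∀ i, ((((T : ℤ) - 1 - y i).toNat : ℕ) : ℤ) = (T : ℤ) - 1 - y i := by
      intro i
      have := Finset.mem_Ico.1 (hy i)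
      omega
    have h4 : ∀ i, (((z i).toNat : ℕ) : ℤ) = z i := by
      intro i
      have := Finset.mem_Ico.1 (hz i)
      omega
    refine Finset.mem_coe.2 (Finset.mem_filter.2 ⟨Finset.mem_Icc.2 ⟨(h1 0).pos, ?_⟩, h1 0, ?_, ?_, ?_⟩)
    · have h5 : ((T : ℤ) - 1 - y 0).toNat ≤ T := by
        have := Finset.mem_Ico.1 (hy 0)
        omega
      have h6 := Nat.mul_le_mul_left M h5
      show n + M * ((T : ℤ) - 1 - y 0).toNat ≤ X
      omega
    · have h5 : ((n + M * ((T : ℤ) - 1 - y 0).toNat + d : ℕ) : ℤ) =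
          ((n + t + M * (z 0).toNat : ℕ) : ℤ) := by
        push_cast
        rw [h3, h4, hd]
        ring
      have h6 : n + M * ((T : ℤ) - 1 - y 0).toNat + d = n + t + M * (z 0).toNat := by
        exact_mod_cast h5
      show (n + M * ((T : ℤ) - 1 - y 0).toNat + d).Prime
      rw [h6]
      exact h2 0
    · intro i
      have h5 : ((n + M * ((T : ℤ) - 1 - y 0).toNat : ℕ) : ℤ) + -((M : ℤ) * (y i.succ - y 0)) =
          ((n + M * ((T : ℤ) - 1 - y i.succ).toNat : ℕ) : ℤ) := by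
        push_cast
        rw [h3, h3]
        ring
      show (((n + M * ((T : ℤ) - 1 - y 0).toNat : ℕ) : ℤ) +
        -((M : ℤ) * (y i.succ - y 0))).toNat.Prime
      rw [h5, Int.toNat_natCast]
      exact h1 i.succ
    · intro i
      have h5 : ((n + M * ((T : ℤ) - 1 - y 0).toNat : ℕ) : ℤ) + d + (M : ℤ) * (z i.succ - z 0) =
          ((n + t + M * (z i.succ).toNat : ℕ) : ℤ) := by
        push_cast
        rw [h3, h4, hd]
        ring
      show (((n + M * ((T : ℤ) - 1 - y 0).toNat : ℕ) : ℤ) + d +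
        (M : ℤ) * (z i.succ - z 0)).toNat.Prime
      rw [h5, Int.toNat_natCast]
      exact h2 i.succ
  · intro n _ n' _ h
    have h' : n + M * ((T : ℤ) - 1 - y 0).toNat = n' + M * ((T : ℤ) - 1 - y 0).toNat := h
    omega

/-- the cluster around `p` containing `p + d` -/
theorem pw_pV {k : ℕ} {t M N X T : ℕ} (b : Bool) (y : Fin (k + 2) → ℤ)
    (hy : ∀ i, y i ∈ Ico 0 (T : ℤ)) (hX : 5 * N / 9 + t + M * T ≤ X) :
    pwJ 0 (t : ℤ) M N (univ.image (fun i => (b, (y i).toNat))) ≤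
      pV X ((M : ℤ) * (y 1 - y 0)).toNat (fun i => (M : ℤ) * (y i.succ.succ - y 0)) := by
  unfold pwJ pV
  obtain ⟨e, he, hpr⟩ : ∃ e : ℕ, e ≤ t ∧ ∀ n v : ℕ, (fw 1 1 0 (t : ℤ) M n (b, v)).toNat =
      n + e + M * v := by
    cases b with
    | false => exact ⟨0, Nat.zero_le _, fun n v => by rw [fw_f0, Nat.add_zero]⟩
    | true => exact ⟨t, le_refl _, fun n v => fw_t0 t M n v⟩
  refine Finset.card_le_card_of_injOn (fun n => n + e + M * (y 0).toNat) ?_ ?_
  · intro n hn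
    obtain ⟨hn0, hn2⟩ := Finset.mem_filter.1 (Finset.mem_coe.1 hn)
    have hn1 := (Finset.mem_Icc.1 hn0).2
    have h1 : ∀ i, (n + e + M * (y i).toNat).Prime := by
      intro i
      have h2 := hn2 (b, (y i).toNat) (Finset.mem_image.2 ⟨i, Finset.mem_univ _, rfl⟩)
      rwa [hpr] at h2
    have h4 : ∀ i, (((y i).toNat : ℕ) : ℤ) = y i := by
      intro i
      have := Finset.mem_Ico.1 (hy i)
      omega
    refine Finset.mem_coe.2 (Finset.mem_filter.2 ⟨Finset.mem_Icc.2 ⟨(h1 0).pos, ?_⟩, h1 0, ?_, ?_⟩)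
    · have h5 : (y 0).toNat ≤ T := by
        have := Finset.mem_Ico.1 (hy 0)
        omega
      have h6 := Nat.mul_le_mul_left M h5
      show n + e + M * (y 0).toNat ≤ X
      omega
    · show (n + e + M * (y 0).toNat + ((M : ℤ) * (y 1 - y 0)).toNat).Prime
      by_cases h5 : 0 ≤ (M : ℤ) * (y 1 - y 0)
      · have h6 : ((n + e + M * (y 0).toNat + ((M : ℤ) * (y 1 - y 0)).toNat : ℕ) : ℤ) =
            ((n + e + M * (y 1).toNat : ℕ) : ℤ) := by
          push_cast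
          rw [h4, h4, Int.toNat_of_nonneg h5]
          ring
        have h7 : n + e + M * (y 0).toNat + ((M : ℤ) * (y 1 - y 0)).toNat =
            n + e + M * (y 1).toNat := by exact_mod_cast h6
        rw [h7]
        exact h1 1
      · have h6 : ((M : ℤ) * (y 1 - y 0)).toNat = 0 :=
          Int.toNat_of_nonpos (le_of_lt (not_le.1 h5))
        rw [h6, Nat.add_zero]
        exact h1 0
    · intro i
      have h5 : ((n + e + M * (y 0).toNat : ℕ) : ℤ) + (M : ℤ) * (y i.succ.succ - y 0) =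
          ((n + e + M * (y i.succ.succ).toNat : ℕ) : ℤ) := by
        push_cast
        rw [h4, h4]
        ring
      show (((n + e + M * (y 0).toNat : ℕ) : ℤ) + (M : ℤ) * (y i.succ.succ - y 0)).toNat.Prime
      rw [h5, Int.toNat_natCast]
      exact h1 i.succ.succ
  · intro n _ n' _ h
    have h' : n + e + M * (y 0).toNat = n' + e + M * (y 0).toNat := h
    omega

theorem cmp {x N m : ℕ} {k : ℝ} (hk : 0 < k) (hx : 100 ≤ x) (hN : N = 100 * x) :
    k / 2 ^ m * (x / (Real.log x) ^ m) ≤ k * (N / (Real.log N) ^ m) := by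
  have hx1 : (100 : ℝ) ≤ x := by exact_mod_cast hx
  have hN1 : (N : ℝ) = 100 * x := by rw [hN]; push_cast; ring
  have hlA : 0 < Real.log x := Real.log_pos (by linarith)
  have hlN : Real.log N ≤ 2 * Real.log x := by
    have : Real.log N ≤ Real.log ((x : ℝ) ^ 2) := by
      apply Real.log_le_log (by rw [hN1]; linarith)
      rw [hN1]
      nlinarith
    rw [Real.log_pow] at this
    push_cast at this
    exact this
  have hlN0 : 0 < Real.log N := Real.log_pos (by rw [hN1]; linarith)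
  have h1 : (Real.log N) ^ m ≤ 2 ^ m * (Real.log x) ^ m := by
    rw [← mul_pow]
    exact pow_le_pow_left₀ hlN0.le hlN m
  have h2 : k / 2 ^ m * (x / (Real.log x) ^ m) = k * (x / (2 ^ m * (Real.log x) ^ m)) := by
    field_simp
  rw [h2]
  refine mul_le_mul_of_nonneg_left ?_ hk.le
  refine div_le_div₀ (by rw [hN1]; linarith) (by rw [hN1]; linarith) (by positivity) h1

open Classical in
/-- the theorem for small `ε` -/
theorem main (k : ℕ) (ε : ℝ) (hε : 0 < ε) (hε1 : ε ≤ 1 / 1000) (hCLQ : S_CLQW) (hINC : S_INC)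
    (hCORE : S_CORE2) (hCB1 : S_CB1) (hCB2 : S_CB2) :
    ∃ (Q : ℕ) (c δ : ℝ), 0 < c ∧ 0 < δ ∧ ∀ lam : ℝ, 0 < lam →
  ∃ κ : ℝ, 0 < κ ∧ ∀ᶠ x : ℕ in atTop, ∀ T : ℕ, lam * Real.log x ≤ T →
    (∀ u : ℕ, 2 * T ≤ u → u ≤ x →
      (((Ioc u (u + T)).filter (fun d => Even d ∧ ¬ RichD k δ κ T x (100 * x) d)).card : ℝ) ≤
        (2 / 9 + ε) * T) ∨
    ∃ q X : ℕ, 1 ≤ q ∧ q ≤ Q ∧ c * T ≤ (X : ℝ) ∧ X ≤ T ∧
      (((Icc 1 X).filter (fun d => q ∣ d ∧ ¬ RichP (2 * k) δ κ T x (200 * x) d)).card : ℝ) ≤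
        ε * (X / q) := by
  obtain ⟨Z, T₀, cc, τ, hZ, hcc, hcc1, hτ, hcore⟩ := hCORE (ε / 4) (by positivity) (by linarith)
  obtain ⟨Q, c', hc', hinc⟩ := hINC (τ / 2) (cc / 3) Z (by positivity) (by positivity)
    (by linarith) hZ
  obtain ⟨ε₁, δ₁, T₂, hε₁, hδ₁, hcb1⟩ := hCB1 k (ε / 4) (τ / 2) (by positivity) (by positivity)
  obtain ⟨ε₂, δ₂, T₃, hε₂, hδ₂, hcb2⟩ := hCB2 (2 * k) ε hε
  obtain ⟨M₀, hM, h2M, hclq⟩ := hCLQ (2 * k + 1) (min (ε / 4) (min ε₁ ε₂))
    (lt_min (by positivity) (lt_min hε₁ hε₂))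
  have hM0 : (0 : ℝ) < M₀ := by exact_mod_cast hM
  obtain ⟨δ, hδ⟩ : ∃ δ, δ = min δ₁ δ₂ * (c' / (3 * M₀)) ^ (2 * k) := ⟨_, rfl⟩
  have hδ0 : 0 < δ := by
    rw [hδ]
    have : 0 < min δ₁ δ₂ := lt_min hδ₁ hδ₂
    positivity
  refine ⟨Q * M₀, c' / 300, δ, by positivity, hδ0, fun lam hlam => ?_⟩
  obtain ⟨κ', hκ', hev⟩ := hclq Q (lam * c' / (8 * M₀)) (by positivity)
  obtain ⟨κ, hκ⟩ : ∃ κ, κ = κ' / 2 ^ (2 * k + 2) := ⟨_, rfl⟩
  refine ⟨κ, by rw [hκ]; positivity, ?_⟩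
  have htend : Tendsto (fun A : ℕ => 100 * A) atTop atTop :=
    tendsto_atTop_mono (fun A => show A ≤ 100 * A by omega) tendsto_id
  have hlog : Tendsto (fun A : ℕ => lam * Real.log A) atTop atTop :=
    (Real.tendsto_log_atTop.comp tendsto_natCast_atTop_atTop).const_mul_atTop hlam
  filter_upwards [htend.eventually hev, hlog.eventually_ge_atTop ((M₀ : ℝ) / ε),
    hlog.eventually_ge_atTop ((3 * M₀) * (T₀ + T₂ + T₃ + 100 + 1 / (2 * τ)) / c'),
    hlog.eventually_ge_atTop (M₀ : ℝ), eventually_ge_atTop 1000]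
    with x hA1 hA2 hA3 hA5 hA4 T hT1
  by_cases halt : (∀ u : ℕ, 2 * T ≤ u → u ≤ x →
      (((Ioc u (u + T)).filter (fun d => Even d ∧ ¬ RichD k δ κ T x (100 * x) d)).card : ℝ) ≤
        (2 / 9 + ε) * T)
  · exact Or.inl halt
  right
  push Not at halt
  obtain ⟨u, hu1, hu2, halt⟩ := halt
  obtain ⟨N, hN⟩ : ∃ N, N = 100 * x := ⟨_, rfl⟩
  rw [← hN] at hA1
  have hTε : (M₀ : ℝ) / ε ≤ T := hA2.trans hT1
  have hTb : (3 * M₀) * (T₀ + T₂ + T₃ + 100 + 1 / (2 * τ)) / c' ≤ (T : ℝ) := hA3.trans hT1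
  have hMT : M₀ ≤ T := by exact_mod_cast hA5.trans hT1
  have hcmp : κ * (x / (Real.log x) ^ (2 * k + 2)) ≤ κ' * (N / (Real.log N) ^ (2 * k + 2)) := by
    rw [hκ]
    exact cmp hκ' (by omega) hN
  -- the class
  obtain ⟨bad, hb⟩ : ∃ bad : ℕ → Prop, ∀ d, bad d ↔ ¬ RichD k δ κ T x (100 * x) d :=
    ⟨_, fun _ => Iff.rfl⟩
  have hbc : ((Ioc u (u + T)).filter (fun d => Even d ∧ ¬ RichD k δ κ T x (100 * x) d)).card =
      ((Ioc u (u + T)).filter (fun d => Even d ∧ bad d)).card := by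
    congr 1
    refine Finset.filter_congr ?_
    intro m _
    rw [hb m]
  rw [hbc] at halt
  obtain ⟨c₀, hc₀e, hc₀1, hc₀2, hc₀3⟩ := FIN2.pigeon (A := u) (T := T) hM h2M bad
    ((4 / 9 + 2 * ε) * T / M₀) (by
      refine lt_of_le_of_lt (le_of_eq ?_) halt
      field_simp
      ring)
  obtain ⟨L, hL⟩ : ∃ L, L = T / M₀ + 1 := ⟨_, rfl⟩
  rw [← hL] at hc₀3
  have hL1 : (L : ℝ) ≤ T / M₀ + 1 := by
    rw [hL]
    push_cast
    have := @Nat.cast_div_le ℝ _ _ _ T M₀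
    linarith
  have hL2 : (T : ℝ) / M₀ ≤ L := by
    rw [div_le_iff₀ hM0]
    have : T ≤ L * M₀ := by
      rw [hL, mul_comm]
      exact (Nat.lt_mul_div_succ T hM).le
    exact_mod_cast this
  have hρL : (4 / 9 + ε) * L ≤
      (((range L).filter (fun t : ℕ => bad (c₀ + M₀ * t))).card : ℝ) := by
    refine le_trans ?_ hc₀3.le
    have h3 : (4 / 9 + ε) * (L : ℝ) ≤ (4 / 9 + ε) * (T / M₀ + 1) :=
      mul_le_mul_of_nonneg_left hL1 (by positivity)
    refine h3.trans ?_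
    rw [div_le_iff₀ hε] at hTε
    rw [le_div_iff₀ hM0]
    have h4 : (4 / 9 + ε) * ((T : ℝ) / M₀ + 1) * M₀ = (4 / 9 + ε) * (T + M₀) := by
      field_simp
    rw [h4]
    nlinarith
  obtain ⟨q, x₀, H, ρ', hq, hqQ, hHL, hin, hρ, hH, hH2⟩ :=
    hinc L (fun t => bad (c₀ + M₀ * t)) (4 / 9 + ε) hρL
  obtain ⟨T₁, hT₁⟩ : ∃ T₁, T₁ = H / 2 := ⟨_, rfl⟩
  have h1τ : 0 < 1 / (2 * τ) := by positivity
  have hTb' : T₀ + T₂ + T₃ + 100 + 1 / (2 * τ) ≤ c' * (T / M₀) / 3 := by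
    rw [div_le_iff₀ hc'] at hTb
    rw [le_div_iff₀ (by norm_num : (0 : ℝ) < 3), mul_div_assoc', le_div_iff₀ hM0]
    linarith
  have hHb : c' * (T / M₀) ≤ H := (mul_le_mul_of_nonneg_left hL2 hc'.le).trans hHL
  have hT0r : (0 : ℝ) ≤ T₀ := by positivity
  have hT2r : (0 : ℝ) ≤ T₂ := by positivity
  have hT3r : (0 : ℝ) ≤ T₃ := by positivity
  have hH2' : 2 ≤ H := by
    have : (2 : ℝ) ≤ H := by linarith
    exact_mod_cast this
  have hH3 : (H : ℝ) ≤ 3 * T₁ := by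
    have : H ≤ 3 * T₁ := by omega
    exact_mod_cast this
  have hT₁b : T₀ + T₂ + T₃ + 100 + 1 / (2 * τ) ≤ (T₁ : ℝ) := by linarith
  have hT₁0 : T₀ ≤ T₁ := by
    have : (T₀ : ℝ) ≤ T₁ := by linarith
    exact_mod_cast this
  have hT₁2 : T₂ ≤ T₁ := by
    have : (T₂ : ℝ) ≤ T₁ := by linarith
    exact_mod_cast this
  have hT₁3 : T₃ ≤ T₁ := by
    have : (T₃ : ℝ) ≤ T₁ := by linarith
    exact_mod_cast this
  have hT₁100 : 100 ≤ T₁ := by
    have : (100 : ℝ) ≤ T₁ := by linarith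
    exact_mod_cast this
  have hT₁τ : 1 ≤ 2 * τ * T₁ := by
    have h3 : 1 / (2 * τ) ≤ (T₁ : ℝ) := by linarith
    rw [div_le_iff₀ (by positivity)] at h3
    linarith
  have hqT : x₀ + q * T₁ < L := hin T₁ (by omega)
  have hMqT : M₀ * x₀ + (q * M₀) * T₁ ≤ T := by
    have h3 : x₀ + q * T₁ ≤ T / M₀ := by omega
    have h4 := (Nat.mul_le_mul_left M₀ h3).trans (Nat.mul_div_le T M₀)
    calc M₀ * x₀ + (q * M₀) * T₁ = M₀ * (x₀ + q * T₁) := by ring
      _ ≤ T := h4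
  have hlamT : lam * c' / (8 * M₀) * Real.log N ≤ (T₁ : ℝ) := by
    have hlN : Real.log N ≤ 2 * Real.log x := by
      have hA1' : (1000 : ℝ) ≤ x := by exact_mod_cast hA4
      have hN2 : (N : ℝ) = 100 * x := by rw [hN]; push_cast; ring
      have : Real.log N ≤ Real.log ((x : ℝ) ^ 2) := by
        apply Real.log_le_log (by rw [hN2]; linarith)
        rw [hN2]
        nlinarith
      rw [Real.log_pow] at this
      push_cast at this
      exact this
    have h3 : lam * Real.log N ≤ 2 * T := by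
      have : lam * Real.log N ≤ lam * (2 * Real.log x) := mul_le_mul_of_nonneg_left hlN hlam.le
      linarith
    have h4 : lam * c' / (8 * M₀) * Real.log N = c' / (8 * M₀) * (lam * Real.log N) := by ring
    rw [h4]
    have h5 : c' / (8 * M₀) * (lam * Real.log N) ≤ c' / (8 * M₀) * (2 * T) :=
      mul_le_mul_of_nonneg_left h3 (by positivity)
    have h6 : c' / (8 * M₀) * (2 * T) = c' * (T / M₀) / 4 := by
      field_simp
      ring
    have h7 : 0 ≤ c' * ((T : ℝ) / M₀) := by positivity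
    linarith
  -- the scale of the vectors
  have hδT : ∀ δ', min δ₁ δ₂ ≤ δ' → δ * (T : ℝ) ^ (2 * k) ≤ δ' * (T₁ : ℝ) ^ (2 * k) := by
    intro δ' hδ'
    have h3 : c' / (3 * M₀) * T ≤ (T₁ : ℝ) := by
      have h4 : c' / (3 * M₀) * T = c' * (T / M₀) / 3 := by
        field_simp
      rw [h4]
      linarith
    rw [hδ, mul_assoc, ← mul_pow]
    refine mul_le_mul hδ' (pow_le_pow_left₀ (by positivity) h3 _) (by positivity) ?_
    exact (lt_min hδ₁ hδ₂).le.trans hδ'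
  -- the forms
  obtain ⟨M, hMM⟩ : ∃ M, M = q * M₀ := ⟨_, rfl⟩
  have hM1 : 1 ≤ M := by rw [hMM]; exact Nat.mul_pos hq hM
  rw [← hMM] at hMqT
  obtain ⟨tt, htt⟩ : ∃ tt : ℕ, tt = c₀ + M₀ * x₀ + M * (T₁ - 1) := ⟨_, rfl⟩
  have htt' : (tt : ℤ) = c₀ + M₀ * x₀ + M * ((T₁ : ℤ) - 1) := by
    rw [htt]
    push_cast
    rw [Nat.cast_sub (by omega)]
    push_cast
    ring
  have hMT₁ : M * (T₁ - 1) ≤ M * T₁ := Nat.mul_le_mul_left _ (by omega)
  have htt2 : tt ≤ c₀ + T := by omega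
  have htt3 : c₀ ≤ tt := by omega
  have htt6 : Even tt := by
    rw [htt]
    have h3 : Even M := by rw [hMM]; exact h2M.mul_left q
    exact (hc₀e.add (h2M.mul_right x₀)).add (h3.mul_right _)
  have hLe : Le T₁ M 0 (tt : ℤ) N := by
    refine ⟨?_, ?_, ?_, ?_⟩
    · rw [sub_zero]
      exact_mod_cast htt6
    · intro v v' hv _ h
      have h3 : M * v ≤ M * T₁ := Nat.mul_le_mul_left _ hv
      have h4 : M * v = tt + M * v' := by
        rw [zero_add] at h
        exact_mod_cast h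
      omega
    · simp
    · rw [Nat.abs_cast]
      omega
  have h200 : 200 * (M * T₁) ≤ N := by omega
  have hclq' := hA1 q T₁ 0 (tt : ℤ) hq hqQ hlamT
  rw [← hMM] at hclq'
  obtain ⟨As, hAs1, hAs2, hAs3⟩ := hclq' hLe h200
  obtain ⟨kk, hkk⟩ : ∃ kk : ℝ, kk = κ * (x / (Real.log x) ^ (2 * k + 2)) := ⟨_, rfl⟩
  rw [← hkk] at hcmp
  obtain ⟨G, hG⟩ : ∃ G : Finset (Bool × ℕ) → Prop, ∀ J, G J ↔
    ¬ ((pwJ 0 (tt : ℤ) M N J : ℝ) < κ' * (N / (Real.log N) ^ (2 * k + 1 + 1))) :=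
    ⟨_, fun _ => Iff.rfl⟩
  have hGk : ∀ J, G J → kk ≤ (pwJ 0 (tt : ℤ) M N J : ℝ) := by
    intro J hJ
    exact hcmp.trans (not_lt.1 ((hG J).1 hJ))
  obtain ⟨Gv₁, hGv₁⟩ : ∃ Gv₁ : ℤ → (Fin k → ℤ) → (Fin k → ℤ) → Prop, ∀ r h h', Gv₁ r h h' ↔
    kk ≤ (dV (100 * x) (c₀ + M₀ * (x₀ + q * r.toNat)) (fun i => -((M : ℤ) * h i))
      (fun i => (M : ℤ) * h' i) : ℝ) := ⟨_, fun _ _ _ => Iff.rfl⟩
  obtain ⟨Gv₂, hGv₂⟩ : ∃ Gv₂ : ℤ → (Fin (2 * k) → ℤ) → Prop, ∀ r g, Gv₂ r g ↔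
    kk ≤ (pV (200 * x) ((M : ℤ) * r).toNat (fun i => (M : ℤ) * g i) : ℝ) := ⟨_, fun _ _ => Iff.rfl⟩
  have hMZ : (M : ℤ) ≠ 0 := by
    have : M ≠ 0 := by omega
    exact_mod_cast this
  have hMT₁T : M * T₁ ≤ T := by omega
  have hMT₁Z : |(M : ℤ)| * T₁ ≤ T := by
    rw [Nat.abs_cast]
    exact_mod_cast hMT₁T
  have hMT₁Z' : |-(M : ℤ)| * T₁ ≤ T := by
    rw [abs_neg]
    exact hMT₁Z
  have hG1 : ∀ y z : Fin (k + 1) → ℤ, (∀ i, y i ∈ Ico 0 (T₁ : ℤ)) → (∀ i, z i ∈ Ico 0 (T₁ : ℤ)) →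
      G (univ.image (comb T₁ y z)) →
      Gv₁ (y 0 + z 0) (fun i => y i.succ - y 0) (fun i => z i.succ - z 0) := by
    intro y z hy hz h
    rw [hGv₁]
    have h3 := pw_dV (X := 100 * x) (t := tt) (M := M) (N := N) (T := T₁)
      (d := c₀ + M₀ * (x₀ + q * (y 0 + z 0).toNat)) y z hy hz (by omega) (by
        have h4 : (((y 0 + z 0).toNat : ℕ) : ℤ) = y 0 + z 0 := by
          have h5 := Finset.mem_Ico.1 (hy 0)
          have h6 := Finset.mem_Ico.1 (hz 0)
          omega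
        push_cast
        rw [h4, htt', hMM]
        push_cast
        ring)
    exact (hGk _ h).trans (by exact_mod_cast h3)
  have hG2 : ∀ (b : Bool) (y : Fin (2 * k + 2) → ℤ), (∀ i, y i ∈ Ico 0 (T₁ : ℤ)) →
      G (univ.image (fun i => (b, (y i).toNat))) →
      Gv₂ (y 1 - y 0) (fun i => y i.succ.succ - y 0) := by
    intro b y hy h
    rw [hGv₂]
    have h3 := pw_pV (X := 200 * x) (t := tt) (M := M) (N := N) (T := T₁) b y hy (by omega)
    exact (hGk _ h).trans (by exact_mod_cast h3)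
  have hB : ∀ t : ℕ, t < 2 * T₁ → bad (c₀ + M₀ * (x₀ + q * t)) →
      (((vecs k T₁ ×ˢ vecs k T₁).filter (fun v => Gv₁ (t : ℤ) v.1 v.2)).card : ℝ) ≤
        δ₁ * (T₁ : ℝ) ^ (2 * k) := by
    intro t _ hBt
    have h3 := (hb _).1 hBt
    unfold RichD at h3
    rw [not_le] at h3
    refine le_trans ?_ (h3.le.trans (hδT δ₁ (min_le_left _ _)))
    norm_cast
    refine Finset.card_le_card_of_injOn
      (fun v => (fun i => -((M : ℤ) * v.1 i), fun i => (M : ℤ) * v.2 i)) ?_ ?_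
    · rintro ⟨v, v'⟩ hv
      obtain ⟨h4, h5⟩ := Finset.mem_filter.1 (Finset.mem_coe.1 hv)
      obtain ⟨h6, h7⟩ := Finset.mem_product.1 h4
      refine Finset.mem_coe.2 (Finset.mem_filter.2 ⟨Finset.mem_product.2 ⟨?_, ?_⟩, ?_⟩)
      · have h8 := vecs_mul (neg_ne_zero.2 hMZ) hMT₁Z' h6
        have h9 : (fun i => -((M : ℤ) * v i)) = fun i => -(M : ℤ) * v i := by
          funext i
          ring
        show (fun i => -((M : ℤ) * v i)) ∈ vecs k T
        rw [h9]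
        exact h8
      · exact vecs_mul hMZ hMT₁Z h7
      · have h8 := (hGv₁ _ _ _).1 h5
        rw [Int.toNat_natCast, hkk] at h8
        exact h8
    · rintro ⟨v, v'⟩ _ ⟨v₂, v₂'⟩ _ h
      obtain ⟨h4, h5⟩ := Prod.mk.inj h
      refine Prod.ext ?_ ?_
      · funext i
        have h6 := congrFun h4 i
        exact mul_left_cancel₀ hMZ (neg_injective h6)
      · funext i
        exact mul_left_cancel₀ hMZ (congrFun h5 i)
  have hAs3' : (((Fintype.piFinset (fun _ : Fin (2 * k + 1 + 1) => As)).filter (fun y =>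
        Function.Injective y ∧ ¬ G (univ.image y))).card : ℝ) ≤
      min (ε / 4) (min ε₁ ε₂) * (T₁ : ℝ) ^ (2 * k + 1 + 1) := by
    refine le_trans ?_ hAs3
    norm_cast
    refine Finset.card_le_card ?_
    intro y hy
    obtain ⟨h3, h4, h5⟩ := Finset.mem_filter.1 hy
    refine Finset.mem_filter.2 ⟨h3, h4, ?_⟩
    rw [hG, not_not] at h5
    exact h5
  have hstep := step (k := k) (Z := Z) (fun t : ℕ => bad (c₀ + M₀ * (x₀ + q * t))) G Gv₁ Gv₂
    hG1 hG2 hB hε hε1 (min_le_left _ _) ((min_le_right _ _).trans (min_le_left _ _))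
    ((min_le_right _ _).trans (min_le_right _ _)) hτ hcc hT₁ hT₁100 hT₁τ hρ hH hH2
    ⟨As, hAs1, hAs2, hAs3'⟩ (hcore T₁ hT₁0)
    (fun A C U Gd Gv => hcb1 T₁ A C U Gd Gv hT₁2) (fun A Gd Gv => hcb2 T₁ A Gd Gv hT₁3)
  obtain ⟨w, hw⟩ : ∃ w, w = T₁ / 50 := ⟨_, rfl⟩
  rw [← hw] at hstep
  refine ⟨M, M * w, hM1, by rw [hMM]; exact Nat.mul_le_mul_right M₀ hqQ, ?_, ?_, ?_⟩
  · have h3 : (T₁ : ℝ) ≤ 100 * w := by
      have : T₁ ≤ 100 * w := by omega
      exact_mod_cast this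
    have h4 : c' / 300 * T = M₀ * (c' * (T / M₀) / 300) := by
      field_simp
    rw [h4]
    have h5 : (M₀ : ℝ) * w ≤ ((M * w : ℕ) : ℝ) := by
      have : M₀ * w ≤ M * w := Nat.mul_le_mul_right w (by
        rw [hMM]
        exact Nat.le_mul_of_pos_left M₀ hq)
      exact_mod_cast this
    refine le_trans ?_ h5
    refine mul_le_mul_of_nonneg_left ?_ hM0.le
    linarith
  · have h3 : M * w ≤ M * T₁ := Nat.mul_le_mul_left _ (by omega)
    omega
  · have h3 : (((M * w : ℕ) : ℝ)) / (M : ℝ) = w := by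
      have : (M : ℝ) ≠ 0 := by
        have : M ≠ 0 := by omega
        exact_mod_cast this
      rw [Nat.cast_mul, mul_div_cancel_left₀ _ this]
    rw [h3]
    refine le_trans ?_ hstep
    refine Nat.cast_le.2 ?_
    refine Finset.card_le_card_of_injOn (fun d => d / M) ?_ ?_
    · intro d hd
      obtain ⟨h4, ⟨h, rfl⟩, h5⟩ := Finset.mem_filter.1 (Finset.mem_coe.1 hd)
      have h6 : M * h / M = h := Nat.mul_div_cancel_left h (by omega)
      show M * h / M ∈ _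
      rw [h6, Finset.mem_coe, Finset.mem_filter, Finset.mem_Icc]
      rw [Finset.mem_Icc] at h4
      refine ⟨⟨?_, Nat.le_of_mul_le_mul_left h4.2 (by omega)⟩, ?_⟩
      · rcases Nat.eq_zero_or_pos h with h7 | h7
        · rw [h7] at h4
          omega
        · exact h7
      · by_contra hcon
        rw [not_lt] at hcon
        apply h5
        unfold RichP
        refine (hδT δ₂ (min_le_right _ _)).trans (hcon.trans ?_)
        refine Nat.cast_le.2 ?_
        refine Finset.card_le_card_of_injOn (fun g => fun i => (M : ℤ) * g i) ?_ ?_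
        · intro g hg
          obtain ⟨h7, h8, h9⟩ := Finset.mem_filter.1 (Finset.mem_coe.1 hg)
          refine Finset.mem_coe.2 (Finset.mem_filter.2 ⟨vecs_mul hMZ hMT₁Z h7, ?_, ?_⟩)
          · intro i h10
            apply h8 i
            apply mul_left_cancel₀ hMZ
            have h11 : (M : ℤ) * g i = ((M * h : ℕ) : ℤ) := h10
            rw [h11]
            push_cast
            ring
          · have h10 := (hGv₂ _ _).1 h9
            rw [← Nat.cast_mul, Int.toNat_natCast, hkk] at h10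
            exact h10
        · intro g _ g' _ h7
          funext i
          exact mul_left_cancel₀ hMZ (congrFun h7 i)
    · intro d hd d' hd' h
      obtain ⟨-, ⟨e, rfl⟩, -⟩ := Finset.mem_filter.1 (Finset.mem_coe.1 hd)
      obtain ⟨-, ⟨e', rfl⟩, -⟩ := Finset.mem_filter.1 (Finset.mem_coe.1 hd')
      have h' : M * e / M = M * e' / M := h
      rw [Nat.mul_div_cancel_left _ (by omega), Nat.mul_div_cancel_left _ (by omega)] at h'
      rw [h']

end FINW

theorem t_FINW : S_CLQW → S_INC → S_CORE2 → S_CB1 → S_CB2 → S_FINW := by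
  intro hCLQ hINC hCORE hCB1 hCB2 k ε hε
  obtain ⟨Q, c, δ, hc, hδ, h⟩ := FINW.main k (min ε (1 / 1000)) (lt_min hε (by norm_num))
    (min_le_right _ _) hCLQ hINC hCORE hCB1 hCB2
  refine ⟨Q, c, δ, hc, hδ, fun lam hlam => ?_⟩
  obtain ⟨κ, hκ, hev⟩ := h lam hlam
  refine ⟨κ, hκ, ?_⟩
  have hmin := min_le_left ε (1 / 1000)
  filter_upwards [hev] with x hx T hT
  rcases hx T hT with h1 | ⟨q, X, h1, h2, h3, h4, h5⟩
  · left
    intro u hu1 hu2
    refine (h1 u hu1 hu2).trans ?_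
    refine mul_le_mul_of_nonneg_right ?_ (by positivity)
    linarith
  · right
    refine ⟨q, X, h1, h2, h3, h4, h5.trans ?_⟩
    exact mul_le_mul_of_nonneg_right hmin (by positivity)

end Pool.Agent.N679.RG
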