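import Pool.Agent.N679.RG.Stm6
import Pool.Agent.N679.RG.CLQ2

/-!
# Project RN3: almost cliques (tuples) among the forms `a n + s + a M v`, `b n + t + b M v`

Adaptation of `CLQ4.lean` (helper679) and `CLQL.lean` (helper693).
-/

set_option autoImplicit false

namespace Pool.Agent.N679.RG

open Finset Filter Topology
open Pool.Agent.N646.RO (Rgh)

namespace CLQL

open CLQ2 hiding one

open Classical in
/-- one configuration size -/
theorem one (h2 : S_HIT3) (hM : S_MOM3) (hA : S_ABSK) (hB : Pool.Agent.N646.RO.S_BB)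
    (a b : ℕ) (ha : 1 ≤ a) (hb : 1 ≤ b) (hab : Nat.Coprime a b) (hne : a ≠ b) (L : ℕ)
    (hL : 1 ≤ L) (T' M' : ℕ) (hT' : 1 ≤ T') (hM' : (18 / 5 : ℝ) * M' < T') : ∃ K : ℕ, 1 ≤ K ∧
    ∀ M₀ : ℕ, 1 ≤ M₀ → (∀ p : ℕ, p.Prime → p ≤ T' * K → p ∣ M₀) → ∀ lam δ' : ℝ, 0 < lam → 0 < δ' →
    ∃ κ : ℝ, 0 < κ ∧ ∀ᶠ N : ℕ in atTop, ∀ (T : ℕ) (s t : ℤ), lam * Real.log N ≤ T → Lc a b s t N →
      100 * (a + b) * (M₀ * T) ≤ N →
      (((Fintype.piFinset (fun _ : Fin T' × Fin K => VV T)).filter (fun H => Function.Injective H ∧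
        ¬ ∃ (S : Finset (Fin T')) (σ : Fin T' → Fin K), M' + 1 ≤ S.card ∧
          ∀ J ⊆ S, J.card = L → κ * (N / (Real.log N) ^ L) ≤
            (plJ a b s t M₀ N (J.image (fun g => H (g, σ g))) : ℝ))).card : ℝ) ≤
        δ' * ((VV T).card : ℝ) ^ (T' * K) := by
  obtain ⟨K, r₀, hK, δ, c, hδ, hc, hev⟩ := h2 a b ha hb hab hne T' M' hT' hM'
  refine ⟨K, hK, fun M₀ hM₀ hdvd lam δ' hlam hδ' => ?_⟩
  choose Cr hCr hCr' using fun r : ℕ => hM a b δ lam M₀ r ha hb hδ hlam hM₀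
  obtain ⟨Cb, hCb, hCb'⟩ := hB δ r₀ 4 hδ
  set C : ℝ := ∑ r ∈ range (4 * (T' * K) + 1), Cr r + Cb with hCdef
  have hs0 : 0 ≤ ∑ r ∈ range (4 * (T' * K) + 1), Cr r := sum_nonneg fun r _ => (hCr r).le
  have hC : 0 < C := by rw [hCdef]; linarith
  obtain ⟨κ, hκ, hAbs⟩ := hA T' K M' L c C δ' hL hc hC hδ'
  refine ⟨κ, hκ, ?_⟩
  have hev2 := (Filter.eventually_all_finset (range (4 * (T' * K) + 1))).2
    (fun r (_ : r ∈ range (4 * (T' * K) + 1)) => hCr' r)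
  filter_upwards [hev, hev2, hCb', eventually_ge_atTop 3] with N hN1 hN2 hN3 hN T s t hT1 hLe hE2
  have hNR : (3 : ℝ) ≤ N := by exact_mod_cast hN
  have hl : 0 < Real.log (N : ℝ) := Real.log_pos (by linarith)
  have key := hAbs (VV T) (Icc (N / 18) (5 * N / 9)) (fun n u => Rgh δ N (fw a b s t M₀ n u))
    (fun n u => Rgh δ N (fw a b s t M₀ n u) ∧ (fw a b s t M₀ n u).toNat.Prime)
    (fun n => (((range (⌊Real.log N⌋₊ + r₀ + 1)).filter (fun j : ℕ => Rgh δ N (n - j))).card : ℝ))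
    (N : ℝ) (Real.log N) (by linarith) hl (fun _ _ h => h.1) (fun n => Nat.cast_nonneg _)
    (by
      intro r hr
      refine (hN2 r (mem_range.2 (by omega)) T s t hT1 hLe.2.2.2.1 hLe.2.2.2.2 hE2).trans ?_
      have h1 : Cr r ≤ C := by
        have := Finset.single_le_sum (f := Cr) (s := range (4 * (T' * K) + 1))
          (fun i _ => (hCr i).le) (mem_range.2 (by omega : r < 4 * (T' * K) + 1))
        rw [hCdef]
        linarith
      have h2 : ((T : ℝ) / Real.log N) ^ r ≤ (((VV T).card : ℝ) / Real.log N) ^ r := by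
        apply pow_le_pow_left₀ (by positivity)
        apply div_le_div_of_nonneg_right _ hl.le
        rw [card_VV]
        push_cast
        have : (0 : ℝ) ≤ T := Nat.cast_nonneg T
        linarith
      have h0 := (hCr r).le
      gcongr)
    (by
      have h1 : ∑ n ∈ Icc (N / 18) (5 * N / 9), (((range (⌊Real.log N⌋₊ + r₀ + 1)).filter
          (fun j : ℕ => Rgh δ N (n - j))).card : ℝ) ^ 4 ≤
          ∑ n ∈ Icc (N / 18) (2 * N), (((range (⌊Real.log N⌋₊ + r₀ + 1)).filter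
          (fun j : ℕ => Rgh δ N (n - j))).card : ℝ) ^ 4 := by
        apply sum_le_sum_of_subset_of_nonneg
        · apply Icc_subset_Icc_right
          omega
        · intro i _ _
          positivity
      refine h1.trans (hN3.trans ?_)
      apply mul_le_mul_of_nonneg_right _ (by linarith)
      rw [hCdef]
      linarith)
    (by
      intro H hH hHV
      obtain ⟨S, σ, hS, hsum⟩ := hN1 M₀ s t hM₀ hdvd hLe H hH (fun x => by
        have h1 := mem_range.1 (mem_product.1 (hHV x)).2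
        have h2 : M₀ * (H x).2 ≤ M₀ * T := Nat.mul_le_mul_left _ h1.le
        exact (Nat.mul_le_mul_left _ h2).trans hE2)
      refine ⟨S, σ, hS, hsum.trans (le_of_eq ?_)⟩
      apply sum_congr _ (fun _ _ => rfl)
      ext n
      rw [memf, memf]
      constructor
      · rintro ⟨h1, h2, h3⟩
        exact ⟨h1, h2, fun g hg => ⟨h2 _, h3 g hg⟩⟩
      · rintro ⟨h1, h2, h3⟩
        exact ⟨h1, h2, fun g hg => (h3 g hg).2⟩)
  refine le_trans ?_ key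
  rw [Nat.cast_le]
  apply card_le_card
  intro H hH
  rw [memf] at hH ⊢
  refine ⟨hH.1, hH.2.1, ?_⟩
  rintro ⟨S, σ, hS, hF⟩
  apply hH.2.2
  refine ⟨S, σ, hS, fun J hJ hJc => (hF J hJ hJc).trans ?_⟩
  rw [Nat.cast_le, plJ]
  apply card_le_card
  intro n hn
  rw [memf] at hn ⊢
  refine ⟨hn.1, fun u hu => ?_⟩
  obtain ⟨g, hg, rfl⟩ := mem_image.1 hu
  exact (hn.2 g hg).2

end CLQL

open CLQ2 hiding one in
open Classical in
/-- one `q` -/
theorem clqML (h2 : S_HIT3) (hM : S_MOM3) (hA : S_ABSK) (hB : Pool.Agent.N646.RO.S_BB)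
    (hWC : Pool.Agent.N646.RO.S_WC) (a b : ℕ) (ha : 1 ≤ a) (hb : 1 ≤ b)
    (hab : Nat.Coprime a b) (hne : a ≠ b) : ∀ (L : ℕ) (ε : ℝ), 0 < ε → ∃ M₀ : ℕ, 1 ≤ M₀ ∧ Even M₀ ∧
    ∀ (q : ℕ) (lam : ℝ), 1 ≤ q → 0 < lam →
    ∃ κ : ℝ, 0 < κ ∧ ∀ᶠ N : ℕ in atTop, ∀ (T : ℕ) (s t : ℤ), lam * Real.log N ≤ T →
      Lc a b s t N → 100 * (a + b) * ((q * M₀) * T) ≤ N →
      ∃ A ⊆ (univ : Finset Bool) ×ˢ range T, (5 / 9 - ε) * T ≤ (A.card : ℝ) ∧
        ((badL a b s t (q * M₀) N L κ A).card : ℝ) ≤ ε * (T : ℝ) ^ (L + 1) := by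
  intro L ε hε
  have hex : ∀ T : ℕ, ∃ M' K : ℕ, 1 ≤ T → (T : ℝ) ≤ (18 / 5) * ((M' + 1 : ℕ) : ℝ) ∧ 1 ≤ K ∧
    ∀ M₀ : ℕ, 1 ≤ M₀ → (∀ p : ℕ, p.Prime → p ≤ T * K → p ∣ M₀) → ∀ lam δ' : ℝ, 0 < lam → 0 < δ' →
    ∃ κ : ℝ, 0 < κ ∧ ∀ᶠ N : ℕ in atTop, ∀ (T₁ : ℕ) (s t : ℤ), lam * Real.log N ≤ T₁ →
      Lc a b s t N → 100 * (a + b) * (M₀ * T₁) ≤ N →
      (((Fintype.piFinset (fun _ : Fin T × Fin K => VV T₁)).filter (fun H => Function.Injective H ∧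
        ¬ ∃ (S : Finset (Fin T)) (σ : Fin T → Fin K), M' + 1 ≤ S.card ∧
          ∀ J ⊆ S, J.card = L + 1 → κ * (N / (Real.log N) ^ (L + 1)) ≤
            (plJ a b s t M₀ N (J.image (fun g => H (g, σ g))) : ℝ))).card : ℝ) ≤
        δ' * ((VV T₁).card : ℝ) ^ (T * K) := by
    intro T
    by_cases hT : 1 ≤ T
    · obtain ⟨M', h1, h3⟩ := ceilM T hT
      obtain ⟨K, hK, h4⟩ := CLQL.one h2 hM hA hB a b ha hb hab hne (L + 1) (by omega) T M' hT h1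
      exact ⟨M', K, fun _ => ⟨h3, hK, h4⟩⟩
    · exact ⟨0, 0, fun h => absurd h hT⟩
  choose Mf Kf hf using hex
  obtain ⟨M, n₀, δ', hδ', hWC'⟩ := hWC (18 / 5) (by norm_num) L (ε / 2 ^ (L + 3)) (by positivity) Kf
  refine ⟨(∑ T' ∈ range (M + 1), T' * Kf T' + 3).factorial, Nat.factorial_pos _,
    even_iff_two_dvd.2 (Nat.dvd_factorial (by norm_num) (by omega)),
    fun q lam hq hlam => ?_⟩
  set M₀ : ℕ := q * (∑ T' ∈ range (M + 1), T' * Kf T' + 3).factorial with hM₀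
  have hM₀1 : 1 ≤ M₀ := Nat.mul_pos hq (Nat.factorial_pos _)
  have hdvd : ∀ T', T' ≤ M → ∀ p : ℕ, p.Prime → p ≤ T' * Kf T' → p ∣ M₀ := by
    intro T' hT' p hp hpT
    apply Dvd.dvd.mul_left
    apply Nat.dvd_factorial hp.pos (hpT.trans _)
    refine (Finset.single_le_sum (f := fun T' => T' * Kf T') (fun _ _ => Nat.zero_le _)
      (mem_range.2 (by omega : T' < M + 1))).trans (Nat.le_add_right _ _)
  have hκex : ∀ T' : ℕ, ∃ κ : ℝ, 0 < κ ∧ (1 ≤ T' → T' ≤ M → ∀ᶠ N : ℕ in atTop, ∀ (T₁ : ℕ) (s t : ℤ),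
      lam * Real.log N ≤ T₁ → Lc a b s t N → 100 * (a + b) * (M₀ * T₁) ≤ N →
      (((Fintype.piFinset (fun _ : Fin T' × Fin (Kf T') => VV T₁)).filter
        (fun H => Function.Injective H ∧
        ¬ ∃ (S : Finset (Fin T')) (σ : Fin T' → Fin (Kf T')), Mf T' + 1 ≤ S.card ∧
          ∀ J ⊆ S, J.card = L + 1 → κ * (N / (Real.log N) ^ (L + 1)) ≤
            (plJ a b s t M₀ N (J.image (fun g => H (g, σ g))) : ℝ))).card : ℝ) ≤
        δ' * ((VV T₁).card : ℝ) ^ (T' * Kf T')) := by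
    intro T'
    by_cases h : 1 ≤ T' ∧ T' ≤ M
    · obtain ⟨h1, h3⟩ := h
      obtain ⟨_, _, h4⟩ := hf T' h1
      obtain ⟨κ, hκ, h5⟩ := h4 M₀ hM₀1 (hdvd T' h3) lam δ' hlam hδ'
      exact ⟨κ, hκ, fun _ _ => h5⟩
    · exact ⟨1, one_pos, fun h1 h3 => absurd ⟨h1, h3⟩ h⟩
  choose κf hκf hκf' using hκex
  obtain ⟨κ, hκ, hκle⟩ := min_pos' κf hκf M
  refine ⟨κ, hκ, ?_⟩
  have hev := (Filter.eventually_all_finset (Icc 1 M)).2
    (fun T' (hT' : T' ∈ Icc 1 M) => hκf' T' (mem_Icc.1 hT').1 (mem_Icc.1 hT').2)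
  have hlog : Tendsto (fun N : ℕ => lam * Real.log (N : ℝ)) atTop atTop :=
    (Real.tendsto_log_atTop.comp tendsto_natCast_atTop_atTop).const_mul_atTop hlam
  filter_upwards [hev, hlog.eventually_ge_atTop (n₀ : ℝ)] with N hN1 hN2 T s t hT1 hLe hE2
  have hn0T : n₀ ≤ (VV T).card := by
    rw [card_VV]
    have : (n₀ : ℝ) ≤ T := hN2.trans hT1
    have : n₀ ≤ T := by exact_mod_cast this
    omega
  have hlogN : 0 ≤ Real.log (N : ℝ) := Real.log_natCast_nonneg N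
  have hNp : (0 : ℝ) ≤ N / (Real.log N) ^ (L + 1) := by positivity
  set G : Finset (Bool × ℕ) → Prop := fun F => ∀ J ⊆ F, J.card = L + 1 →
    κ * (N / (Real.log N) ^ (L + 1)) ≤ (plJ a b s t M₀ N J : ℝ) with hG
  have hGh : ∀ F F' : Finset (Bool × ℕ), F' ⊆ F → G F → G F' := fun F F' hF hGF J hJ hJc =>
    hGF J (hJ.trans hF) hJc
  have hHit : Pool.Agent.N646.RO.HitM (18 / 5) Kf M δ' (VV T) G := by
    intro T' h1 h3
    refine le_trans ?_ (hN1 T' (mem_Icc.2 ⟨h1, h3⟩) T s t hT1 hLe hE2)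
    rw [Nat.cast_le]
    apply card_le_card
    intro H hH'
    rw [memf] at hH' ⊢
    refine ⟨hH'.1, hH'.2.1, ?_⟩
    rintro ⟨S, σ, hS, hF⟩
    apply hH'.2.2
    refine ⟨S, σ, ?_, ?_⟩
    · have h4 := (hf T' h1).1
      have h5 : ((Mf T' + 1 : ℕ) : ℝ) ≤ (S.card : ℝ) := by exact_mod_cast hS
      calc (T' : ℝ) ≤ (18 / 5) * ((Mf T' + 1 : ℕ) : ℝ) := h4
        _ ≤ 18 / 5 * (S.card : ℝ) := mul_le_mul_of_nonneg_left h5 (by norm_num)
    · intro J hJ hJc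
      obtain ⟨J', hJ', rfl⟩ := Finset.subset_image_iff.1 hJ
      have hinj : Function.Injective (fun g : Fin T' => H (g, σ g)) := by
        intro g g' hgg
        exact congrArg Prod.fst (hH'.2.1 hgg)
      rw [card_image_of_injective _ hinj] at hJc
      exact le_trans (mul_le_mul_of_nonneg_right (hκle T' h3) hNp) (hF J' hJ' hJc)
  obtain ⟨A, hA1, hA2, hA3⟩ := hWC' (Bool × ℕ) (VV T) G hn0T hGh hHit
  rw [card_VV] at hA2 hA3
  push_cast at hA2 hA3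
  have hT0 : (0 : ℝ) ≤ T := Nat.cast_nonneg T
  have h2L : (8 : ℝ) ≤ 2 ^ (L + 3) := by
    rw [pow_add]
    have : (1 : ℝ) ≤ 2 ^ L := one_le_pow₀ (by norm_num)
    norm_num
    linarith
  refine ⟨A, hA1, ?_, ?_⟩
  · refine le_trans ?_ hA2
    have h6 : ε / 2 ^ (L + 3) ≤ ε / 8 := div_le_div_of_nonneg_left hε.le (by norm_num) h2L
    have h7 : ε / 2 ^ (L + 3) * T ≤ ε / 8 * T := mul_le_mul_of_nonneg_right h6 hT0
    have : 0 ≤ ε * T := by positivity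
    nlinarith
  · have h5 : ((badL a b s t M₀ N L κ A).card : ℝ) ≤
        ((Pool.Agent.N646.RO.badU L A G).card : ℝ) := by
      rw [Nat.cast_le]
      apply card_le_card
      intro y hy
      rw [badL, memf] at hy
      rw [Pool.Agent.N646.RO.badU, memf]
      refine ⟨hy.1, hy.2.1, fun hGy => ?_⟩
      have h6 := hGy (univ.image y) (Finset.Subset.refl _) (by
        rw [card_image_of_injective _ hy.2.1, card_univ, Fintype.card_fin])
      have h7 := hy.2.2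
      linarith
    refine h5.trans (hA3.trans ?_)
    have h8 : ε / 2 ^ (L + 3) * (2 * (T : ℝ)) ^ (L + 1) = ε / 4 * (T : ℝ) ^ (L + 1) := by
      have h9 : (2 : ℝ) ^ (L + 3) = 2 ^ (L + 1) * 4 := by
        rw [show L + 3 = (L + 1) + 2 from rfl, pow_add]
        norm_num
      have h10 : (2 : ℝ) ^ (L + 1) ≠ 0 := by positivity
      rw [mul_pow, h9]
      generalize (2 : ℝ) ^ (L + 1) = a at h10
      generalize (T : ℝ) ^ (L + 1) = b
      field_simp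
    rw [h8]
    have : 0 ≤ ε * (T : ℝ) ^ (L + 1) := by positivity
    linarith

open Classical in
/-- **CLQL** -/
theorem t_CLQL : S_HIT3 → S_MOM3 → S_ABSK → Pool.Agent.N646.RO.S_BB → Pool.Agent.N646.RO.S_WC →
    S_CLQL := by
  intro h2 hM hA hB hWC a b ha hb hab hne L ε hε
  obtain ⟨M₀, hM₀, hev, H⟩ := clqML h2 hM hA hB hWC a b ha hb hab hne L ε hε
  refine ⟨M₀, hM₀, hev, fun Q lam hlam => ?_⟩
  have hex : ∀ q : ℕ, ∃ κ : ℝ, 0 < κ ∧ (1 ≤ q → ∀ᶠ N : ℕ in atTop, ∀ (T : ℕ) (s t : ℤ),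
      lam * Real.log N ≤ T → Lc a b s t N → 100 * (a + b) * ((q * M₀) * T) ≤ N →
      ∃ A ⊆ (univ : Finset Bool) ×ˢ range T, (5 / 9 - ε) * T ≤ (A.card : ℝ) ∧
        ((badL a b s t (q * M₀) N L κ A).card : ℝ) ≤ ε * (T : ℝ) ^ (L + 1)) := by
    intro q
    by_cases hq : 1 ≤ q
    · obtain ⟨κ, h1, h3⟩ := H q lam hq hlam
      exact ⟨κ, h1, fun _ => h3⟩
    · exact ⟨1, one_pos, fun h => absurd h hq⟩
  choose κf hκf hκf' using hex
  obtain ⟨κ, hκ, hκle⟩ := CLQ2.min_pos' κf hκf Q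
  refine ⟨κ, hκ, ?_⟩
  have hev2 := (Filter.eventually_all_finset (Icc 1 Q)).2
    (fun q (hq : q ∈ Icc 1 Q) => hκf' q (mem_Icc.1 hq).1)
  filter_upwards [hev2] with N hN q T s t hq1 hq2 hT hLe hE2
  obtain ⟨A, hA1, hA2, hA3⟩ := hN q (mem_Icc.2 ⟨hq1, hq2⟩) T s t hT hLe hE2
  refine ⟨A, hA1, hA2, le_trans ?_ hA3⟩
  have hlogN : 0 ≤ Real.log (N : ℝ) := Real.log_natCast_nonneg N
  have hNp : (0 : ℝ) ≤ N / (Real.log N) ^ (L + 1) := by positivity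
  rw [Nat.cast_le]
  apply card_le_card
  intro p hp
  rw [badL, CLQ2.memf] at hp ⊢
  refine ⟨hp.1, hp.2.1, hp.2.2.trans_le ?_⟩
  exact mul_le_mul_of_nonneg_right (hκle q hq2) hNp

end Pool.Agent.N679.RG
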