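import Pool.Agent.N679.RG.Stm5

/-!
# Project RN3 (helper679): the equation `a p - b q = c` with clusters of primes around `p` and around `q`

Statements of the independent parts (continuation of `Stm5.lean`).
-/

set_option autoImplicit false

namespace Pool.Agent.N679.RG

open Finset Filter Topology
open Pool.Agent.N646.RO (Rgh)

/-- the number of the `n` at which all forms in `J` are prime -/
def plJ (a b : ℕ) (s t : ℤ) (M N : ℕ) (J : Finset (Bool × ℕ)) : ℕ :=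
  ((Icc (N / 18) (5 * N / 9)).filter (fun n : ℕ => ∀ u ∈ J, (fw a b s t M n u).toNat.Prime)).card

open Classical in
/-- the tuples of `L + 1` different elements of `A` whose forms are not prime simultaneously with the right order of
magnitude -/
noncomputable def badL (a b : ℕ) (s t : ℤ) (M N L : ℕ) (κ : ℝ) (A : Finset (Bool × ℕ)) :
    Finset (Fin (L + 1) → Bool × ℕ) :=
  (Fintype.piFinset (fun _ : Fin (L + 1) => A)).filter (fun y => Function.Injective y ∧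
    (plJ a b s t M N (univ.image y) : ℝ) < κ * (N / (Real.log N) ^ (L + 1)))

/-- **CLQL** (from HIT3, MOM3, ABSK; as CLQ4 with tuples). -/
def S_CLQL : Prop := ∀ a b : ℕ, 1 ≤ a → 1 ≤ b → Nat.Coprime a b → a ≠ b →
  ∀ (L : ℕ) (ε : ℝ), 0 < ε → ∃ M₀ : ℕ, 1 ≤ M₀ ∧ Even M₀ ∧ ∀ (Q : ℕ) (lam : ℝ), 0 < lam →
  ∃ κ : ℝ, 0 < κ ∧ ∀ᶠ N : ℕ in atTop, ∀ (q T : ℕ) (s t : ℤ), 1 ≤ q → q ≤ Q → lam * Real.log N ≤ T →
    Lc a b s t N → 100 * (a + b) * ((q * M₀) * T) ≤ N →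
    ∃ A ⊆ (univ : Finset Bool) ×ˢ range T, (5 / 9 - ε) * T ≤ (A.card : ℝ) ∧
      ((badL a b s t (q * M₀) N L κ A).card : ℝ) ≤ ε * (T : ℝ) ^ (L + 1)

open Classical in
/-- the number of the primes `q ≤ y` for which there is a prime `p` with `a p - b q = c` such that all `q + h i` and all
`p + h' i` are prime -/
noncomputable def lV {k : ℕ} (a b : ℕ) (c : ℤ) (y : ℕ) (h h' : Fin k → ℤ) : ℕ :=
  ((Icc 1 y).filter (fun q : ℕ => q.Prime ∧ (∀ i, ((q : ℤ) + h i).toNat.Prime) ∧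
    ∃ p : ℕ, p.Prime ∧ (a : ℤ) * p - b * q = c ∧ ∀ i, ((p : ℤ) + h' i).toNat.Prime)).card

open Classical in
/-- `a p - b q = c` with clusters of `k + 1` primes around `q ≤ y` and around `p` -/
def RichL (k : ℕ) (δ κ : ℝ) (T x y a b : ℕ) (c : ℤ) : Prop :=
  δ * (T : ℝ) ^ (2 * k) ≤ (((vecs k T ×ˢ vecs k T).filter (fun v =>
    κ * (x / (Real.log x) ^ (2 * k + 2)) ≤ (lV a b c y v.1 v.2 : ℝ))).card : ℝ)

open Classical in
/-- **FINL** (from CLQL, INC, CORE2, CB1, CB2; as FIN3). -/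
def S_FINL : Prop := ∀ a b : ℕ, 1 ≤ a → 1 ≤ b → Nat.Coprime a b → a ≠ b →
  ∀ (k : ℕ) (ε : ℝ), 0 < ε → ∃ (Q : ℕ) (c₀ δ : ℝ), 0 < c₀ ∧ 0 < δ ∧ ∀ lam : ℝ, 0 < lam →
  ∃ κ : ℝ, 0 < κ ∧ ∀ᶠ x : ℕ in atTop, ∀ T : ℕ, lam * Real.log x ≤ T → 1000 * T ≤ x →
    (∀ u : ℤ, |u| ≤ x →
      (((Ioc u (u + T)).filter (fun c : ℤ => Adl a b c ∧ ¬ RichL k δ κ T x (100 * a * x) a b c)).card : ℝ) ≤
      (4 / 9 + ε) * (((Ioc u (u + T)).filter (fun c : ℤ => Adl a b c)).card : ℝ)) ∨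
    ∃ q X : ℕ, 1 ≤ q ∧ q ≤ Q ∧ c₀ * T ≤ (X : ℝ) ∧ X ≤ T ∧
      (((Icc 1 X).filter (fun d => q ∣ d ∧ ¬ RichP (2 * k) δ κ T x (100 * (a + b) * x) d)).card : ℝ) ≤
        ε * (X / q)

end Pool.Agent.N679.RG
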