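import Mathlib
import Pool.Agent.N679.RG.Stm6
import Pool.Agent.N679.RG.FIN3

/-!
# Project RN3: FINL, the final assembly (from CLQL, INC, CORE2, CB1, CB2). By helper239, after FIN3 (helper678).
-/

set_option autoImplicit false

namespace Pool.Agent.N679.RG

open Finset Filter Topology

namespace FINL

open Classical in
/-- the two parts of an almost clique -/
theorem parts {T₁ : ℕ} {As : Finset (Bool × ℕ)}
    (hAs : As ⊆ (univ : Finset Bool) ×ˢ range T₁) :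
    ∃ P : Bool → Finset ℤ, (∀ b, P b ⊆ Ico 0 (T₁ : ℤ)) ∧
      As.card ≤ (P false).card + (P true).card ∧ ∀ b v, v ∈ P b → (b, v.toNat) ∈ As := by
  have hlt : ∀ b v, (b, v) ∈ As → v < T₁ := by
    intro b v h
    have := (Finset.mem_product.1 (hAs h)).2
    exact Finset.mem_range.1 this
  let P : Bool → Finset ℤ := fun b =>
    (Ico (0 : ℤ) T₁).filter (fun v : ℤ => (b, v.toNat) ∈ As)
  have hPsub : ∀ b, P b ⊆ Ico 0 (T₁ : ℤ) := fun b => Finset.filter_subset _ _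
  have hPcard : As.card ≤ (P false).card + (P true).card := by
    have hsplit : As.card = (As.filter (fun u => u.1 = false)).card +
        (As.filter (fun u => ¬ u.1 = false)).card :=
      (Finset.card_filter_add_card_filter_not _).symm
    rw [hsplit]
    refine Nat.add_le_add ?_ ?_
    · refine Finset.card_le_card_of_injOn (fun u => (u.2 : ℤ)) ?_ ?_
      · intro u hu
        obtain ⟨h3, h4⟩ := Finset.mem_filter.1 (Finset.mem_coe.1 hu)
        obtain ⟨b, v⟩ := u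
        have h5 : b = false := h4
        subst h5
        refine Finset.mem_coe.2 (Finset.mem_filter.2 ⟨Finset.mem_Ico.2 ⟨?_, ?_⟩, ?_⟩)
        · exact Int.natCast_nonneg _
        · show ((v : ℕ) : ℤ) < (T₁ : ℤ)
          exact_mod_cast hlt _ _ h3
        · show (false, ((v : ℤ)).toNat) ∈ As
          rw [Int.toNat_natCast]; exact h3
      · intro u hu u' hu' h
        obtain ⟨h3, h4⟩ := Finset.mem_filter.1 (Finset.mem_coe.1 hu)
        obtain ⟨h3', h4'⟩ := Finset.mem_filter.1 (Finset.mem_coe.1 hu')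
        have h5 : (u.2 : ℤ) = (u'.2 : ℤ) := h
        exact Prod.ext (h4.trans h4'.symm) (by exact_mod_cast h5)
    · refine Finset.card_le_card_of_injOn (fun u => (u.2 : ℤ)) ?_ ?_
      · intro u hu
        obtain ⟨h3, h4⟩ := Finset.mem_filter.1 (Finset.mem_coe.1 hu)
        obtain ⟨b, v⟩ := u
        have h5 : b = true := by simpa using h4
        subst h5
        refine Finset.mem_coe.2 (Finset.mem_filter.2 ⟨Finset.mem_Ico.2 ⟨?_, ?_⟩, ?_⟩)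
        · exact Int.natCast_nonneg _
        · show ((v : ℕ) : ℤ) < (T₁ : ℤ)
          exact_mod_cast hlt _ _ h3
        · show (true, ((v : ℤ)).toNat) ∈ As
          rw [Int.toNat_natCast]; exact h3
      · intro u hu u' hu' h
        obtain ⟨h3, h4⟩ := Finset.mem_filter.1 (Finset.mem_coe.1 hu)
        obtain ⟨h3', h4'⟩ := Finset.mem_filter.1 (Finset.mem_coe.1 hu')
        have h5 : (u.2 : ℤ) = (u'.2 : ℤ) := h
        have h6 : u.1 = true := by simpa using h4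
        have h7 : u'.1 = true := by simpa using h4'
        exact Prod.ext (h6.trans h7.symm) (by exact_mod_cast h5)
  exact ⟨P, hPsub, hPcard, fun b v hv => (Finset.mem_filter.1 hv).2⟩

open Classical in
theorem plJ_lV {a b : ℕ} {s t : ℤ} {M N X k : ℕ} (J : Finset (Bool × ℕ)) (v₀ v₀' : ℕ)
    (v v' : Fin k → ℕ) (h0 : (false, v₀) ∈ J) (h0' : (true, v₀') ∈ J) (h1 : ∀ i, (false, v i) ∈ J)
    (h2 : ∀ i, (true, v' i) ∈ J) (ha : 1 ≤ a)
    (hX : (a : ℤ) * ((5 * N / 9 : ℕ) : ℤ) + s + a * M * v₀ ≤ X) (c : ℤ)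
    (hc : c = (a : ℤ) * t - b * s + a * b * M * ((v₀' : ℤ) - v₀)) (h h' : Fin k → ℤ)
    (hh : ∀ i, h i = a * M * ((v i : ℤ) - v₀)) (hh' : ∀ i, h' i = b * M * ((v' i : ℤ) - v₀')) :
    plJ a b s t M N J ≤ lV a b c X h h' := by
  unfold plJ lV
  have ha' : (0 : ℤ) < a := by exact_mod_cast ha
  refine Finset.card_le_card_of_injOn (fun n : ℕ => (fw a b s t M n (false, v₀)).toNat) ?_ ?_
  · intro n hn
    obtain ⟨g1, g2⟩ := Finset.mem_filter.1 (Finset.mem_coe.1 hn)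
    have h1' := (Finset.mem_Icc.1 g1).2
    have p1 := g2 _ h0
    have p2 := g2 _ h0'
    obtain ⟨e1, e2⟩ := FIN3.pos_of_prime p1
    obtain ⟨e3, e4⟩ := FIN3.pos_of_prime p2
    have f1 := FIN3.fw_f a b s t M n v₀
    have f2 := FIN3.fw_t a b s t M n v₀'
    refine Finset.mem_coe.2 (Finset.mem_filter.2 ⟨Finset.mem_Icc.2 ⟨p1.pos, ?_⟩, p1, ?_,
      (fw a b s t M n (true, v₀')).toNat, p2, ?_, ?_⟩)
    · have h4 : (a : ℤ) * n ≤ (a : ℤ) * ((5 * N / 9 : ℕ) : ℤ) :=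
        mul_le_mul_of_nonneg_left (by exact_mod_cast h1') ha'.le
      have h5 : ((fw a b s t M n (false, v₀)).toNat : ℤ) ≤ X := by
        rw [e1, f1]
        linarith
      exact_mod_cast h5
    · intro i
      have p3 := g2 _ (h1 i)
      have e5 : ((fw a b s t M n (false, v₀)).toNat : ℤ) + h i = fw a b s t M n (false, v i) := by
        rw [e1, f1, hh i, FIN3.fw_f]
        ring
      show (((fw a b s t M n (false, v₀)).toNat : ℤ) + h i).toNat.Prime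
      rw [e5]
      exact p3
    · show (a : ℤ) * ((fw a b s t M n (true, v₀')).toNat : ℤ) -
        b * ((fw a b s t M n (false, v₀)).toNat : ℤ) = _
      rw [e1, e3, f1, f2, hc]
      ring
    · intro i
      have p3 := g2 _ (h2 i)
      have e5 : ((fw a b s t M n (true, v₀')).toNat : ℤ) + h' i = fw a b s t M n (true, v' i) := by
        rw [e3, f2, hh' i, FIN3.fw_t]
        ring
      rw [e5]
      exact p3
  · intro n hn n' hn' h
    obtain ⟨_, g2⟩ := Finset.mem_filter.1 (Finset.mem_coe.1 hn)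
    obtain ⟨_, g2'⟩ := Finset.mem_filter.1 (Finset.mem_coe.1 hn')
    have e1 := (FIN3.pos_of_prime (g2 _ h0)).1
    have e2 := (FIN3.pos_of_prime (g2' _ h0)).1
    have h' : (fw a b s t M n (false, v₀)).toNat = (fw a b s t M n' (false, v₀)).toNat := h
    have e3 : fw a b s t M n (false, v₀) = fw a b s t M n' (false, v₀) := by
      rw [← e1, ← e2, h']
    rw [FIN3.fw_f, FIN3.fw_f] at e3
    have e4 : (a : ℤ) * n = a * n' := by linarith
    have e5 : (n : ℤ) = n' := mul_left_cancel₀ ha'.ne' e4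
    exact_mod_cast e5

theorem plJ_pV {a b e : ℕ} {s t r : ℤ} {M N X k : ℕ} (bb : Bool)
    (hfw : ∀ n v : ℕ, fw a b s t M n (bb, v) = (e : ℤ) * n + r + e * M * v)
    (J : Finset (Bool × ℕ)) (v₀ v₁ : ℕ)
    (v : Fin k → ℕ) (h0 : (bb, v₀) ∈ J) (h0' : (bb, v₁) ∈ J) (h1 : ∀ i, (bb, v i) ∈ J)
    (he : 1 ≤ e) (hX : (e : ℤ) * ((5 * N / 9 : ℕ) : ℤ) + r + e * M * v₀ ≤ X) (d : ℕ)
    (hd : (d : ℤ) = e * M * ((v₁ : ℤ) - v₀)) (h : Fin k → ℤ)
    (hh : ∀ i, h i = e * M * ((v i : ℤ) - v₀)) :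
    plJ a b s t M N J ≤ pV X d h := by
  unfold plJ pV
  have he' : (0 : ℤ) < e := by exact_mod_cast he
  refine Finset.card_le_card_of_injOn (fun n : ℕ => (fw a b s t M n (bb, v₀)).toNat) ?_ ?_
  · intro n hn
    obtain ⟨g1, g2⟩ := Finset.mem_filter.1 (Finset.mem_coe.1 hn)
    have h1' := (Finset.mem_Icc.1 g1).2
    have p1 := g2 _ h0
    have p2 := g2 _ h0'
    obtain ⟨e1, e2⟩ := FIN3.pos_of_prime p1
    obtain ⟨e3, e4⟩ := FIN3.pos_of_prime p2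
    have f1 := hfw n v₀
    have f2 := hfw n v₁
    refine Finset.mem_coe.2 (Finset.mem_filter.2 ⟨Finset.mem_Icc.2 ⟨p1.pos, ?_⟩, p1, ?_, ?_⟩)
    · have h4 : (e : ℤ) * n ≤ (e : ℤ) * ((5 * N / 9 : ℕ) : ℤ) :=
        mul_le_mul_of_nonneg_left (by exact_mod_cast h1') he'.le
      have h5 : ((fw a b s t M n (bb, v₀)).toNat : ℤ) ≤ X := by
        rw [e1, f1]
        linarith
      exact_mod_cast h5
    · have h6 : (fw a b s t M n (bb, v₀)).toNat + d = (fw a b s t M n (bb, v₁)).toNat := by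
        have h7 : ((fw a b s t M n (bb, v₀)).toNat : ℤ) + (d : ℤ) =
            ((fw a b s t M n (bb, v₁)).toNat : ℤ) := by
          rw [e1, e3, f1, f2, hd]
          ring
        exact_mod_cast h7
      show ((fw a b s t M n (bb, v₀)).toNat + d).Prime
      rw [h6]
      exact p2
    · intro i
      have p3 := g2 _ (h1 i)
      have e5 : ((fw a b s t M n (bb, v₀)).toNat : ℤ) + h i = fw a b s t M n (bb, v i) := by
        rw [e1, f1, hh i, hfw]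
        ring
      show (((fw a b s t M n (bb, v₀)).toNat : ℤ) + h i).toNat.Prime
      rw [e5]
      exact p3
  · intro n hn n' hn' h
    obtain ⟨_, g2⟩ := Finset.mem_filter.1 (Finset.mem_coe.1 hn)
    obtain ⟨_, g2'⟩ := Finset.mem_filter.1 (Finset.mem_coe.1 hn')
    have e1 := (FIN3.pos_of_prime (g2 _ h0)).1
    have e2 := (FIN3.pos_of_prime (g2' _ h0)).1
    have h' : (fw a b s t M n (bb, v₀)).toNat = (fw a b s t M n' (bb, v₀)).toNat := h
    have e3 : fw a b s t M n (bb, v₀) = fw a b s t M n' (bb, v₀) := by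
      rw [← e1, ← e2, h']
    rw [hfw, hfw] at e3
    have e4 : (e : ℤ) * n = e * n' := by linarith
    have e5 : (n : ℤ) = n' := mul_left_cancel₀ he'.ne' e4
    exact_mod_cast e5

theorem scale {k T₁ T : ℕ} {m : ℤ} (hm : m ≠ 0) (hmT : |m| * T₁ ≤ T) {h : Fin k → ℤ}
    (hh : h ∈ vecs k T₁) : (fun i => m * h i) ∈ vecs k T := by
  unfold vecs at hh ⊢
  rw [Finset.mem_filter, Fintype.mem_piFinset] at hh ⊢
  obtain ⟨h1, h2, h3⟩ := hh
  refine ⟨fun i => ?_, fun i j hij => h2 (mul_left_cancel₀ hm hij), fun i => mul_ne_zero hm (h3 i)⟩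
  have h4 := Finset.mem_Icc.1 (h1 i)
  have h5 : |m * h i| ≤ T := by
    rw [abs_mul]
    exact (mul_le_mul_of_nonneg_left (abs_le.2 h4) (abs_nonneg m)).trans hmT
  exact Finset.mem_Icc.2 (abs_le.1 h5)

theorem scale_inj {k : ℕ} {m : ℤ} (hm : m ≠ 0) {g h : Fin k → ℤ}
    (hgh : (fun i => m * g i) = fun i => m * h i) : g = h := by
  funext i
  exact mul_left_cancel₀ hm (congrFun hgh i)

/-- the positions of the two halves of a tuple -/
def ee (k : ℕ) : Fin (k + 1) ⊕ Fin (k + 1) ≃ Fin (2 * k + 1 + 1) :=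
  finSumFinEquiv.trans (finCongr (by omega))

/-- the tuple of forms of two tuples of integers -/
def mix (k T₁ : ℕ) (y z : Fin (k + 1) → ℤ) : Fin (2 * k + 1 + 1) → Bool × ℕ :=
  (Sum.elim (fun i => (false, ((T₁ : ℤ) - 1 - y i).toNat)) (fun i => (true, (z i).toNat))) ∘ (ee k).symm

theorem mix_l (k T₁ : ℕ) (y z : Fin (k + 1) → ℤ) (i : Fin (k + 1)) :
    mix k T₁ y z (ee k (Sum.inl i)) = (false, ((T₁ : ℤ) - 1 - y i).toNat) := by
  simp [mix]

theorem mix_r (k T₁ : ℕ) (y z : Fin (k + 1) → ℤ) (i : Fin (k + 1)) :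
    mix k T₁ y z (ee k (Sum.inr i)) = (true, (z i).toNat) := by
  simp [mix]

theorem mix_mem_l (k T₁ : ℕ) (y z : Fin (k + 1) → ℤ) (i : Fin (k + 1)) :
    (false, ((T₁ : ℤ) - 1 - y i).toNat) ∈ (univ : Finset (Fin (2 * k + 1 + 1))).image (mix k T₁ y z) :=
  Finset.mem_image.2 ⟨_, Finset.mem_univ _, mix_l k T₁ y z i⟩

theorem mix_mem_r (k T₁ : ℕ) (y z : Fin (k + 1) → ℤ) (i : Fin (k + 1)) :
    (true, (z i).toNat) ∈ (univ : Finset (Fin (2 * k + 1 + 1))).image (mix k T₁ y z) :=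
  Finset.mem_image.2 ⟨_, Finset.mem_univ _, mix_r k T₁ y z i⟩

theorem mix_injective {k T₁ : ℕ} {y z : Fin (k + 1) → ℤ} (hy : ∀ i, 0 ≤ y i ∧ y i < T₁)
    (hz : ∀ i, 0 ≤ z i ∧ z i < T₁) (h1 : Function.Injective y) (h2 : Function.Injective z) :
    Function.Injective (mix k T₁ y z) := by
  unfold mix
  refine Function.Injective.comp ?_ (ee k).symm.injective
  rintro (i | i) (j | j) h
  · simp only [Sum.elim_inl, Prod.mk.injEq, true_and] at h
    have := hy i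
    have := hy j
    rw [h1 (by omega : y i = y j)]
  · simp at h
  · simp at h
  · simp only [Sum.elim_inr, Prod.mk.injEq, true_and] at h
    have := hz i
    have := hz j
    rw [h2 (by omega : z i = z j)]


open Classical in
/-- case (ii): one large part -/
theorem onePart {a b M N T₁ w Y k T x e : ℕ} {s t r : ℤ} {ε ε₂ ε₃ κ κ₀ δ δ₂ : ℝ} (bb : Bool)
    (hfw : ∀ n v : ℕ, fw a b s t M n (bb, v) = (e : ℤ) * n + r + e * M * v)
    (he : 1 ≤ e) (hM : 1 ≤ M)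
    (hκ : κ * (x / (Real.log x) ^ (2 * k + 2)) ≤ κ₀ * (N / (Real.log N) ^ (2 * k + 2)))
    (hε₃ : ε₃ ≤ ε₂) (hδ₂ : δ * (T : ℝ) ^ (2 * k) ≤ δ₂ * (T₁ : ℝ) ^ (2 * k))
    (hWT : e * M * T₁ ≤ T) {As : Finset (Bool × ℕ)} {P : Finset ℤ}
    (hbad : ((badL a b s t M N (2 * k + 1) κ₀ As).card : ℝ) ≤ ε₃ * (T₁ : ℝ) ^ (2 * k + 1 + 1))
    (hP : P ⊆ Ico 0 (T₁ : ℤ)) (hPm : ∀ v ∈ P, (bb, v.toNat) ∈ As)
    (hPc : 11 / 20 * (T₁ : ℝ) ≤ (P.card : ℝ))
    (hcb2 : ∀ (A : Finset ℤ) (Gd : (Fin (2 * k + 2) → ℤ) → Prop) (Gv : ℤ → (Fin (2 * k) → ℤ) → Prop),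
      A ⊆ Ico 0 (T₁ : ℤ) → 11 / 20 * (T₁ : ℝ) ≤ (A.card : ℝ) →
      ((((Fintype.piFinset (fun _ : Fin (2 * k + 2) => A)).filter
        (fun y => Function.Injective y ∧ ¬ Gd y)).card : ℝ) ≤ ε₂ * (T₁ : ℝ) ^ (2 * k + 2)) →
      (∀ y, Gd y → Gv (y 1 - y 0) (fun i => y i.succ.succ - y 0)) →
      (((Icc 1 (T₁ / 50)).filter (fun h : ℕ =>
        (((vecs (2 * k) T₁).filter (fun g => (∀ i, g i ≠ (h : ℤ)) ∧ Gv h g)).card : ℝ) <
          δ₂ * (T₁ : ℝ) ^ (2 * k))).card : ℝ) ≤ ε * ((T₁ / 50 : ℕ) : ℝ))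
    (hw : w = T₁ / 50)
    (h1 : (e : ℤ) * ((5 * N / 9 : ℕ) : ℤ) + r + e * M * T₁ ≤ Y) :
    (((Icc 1 w).filter (fun h : ℕ => ¬ RichP (2 * k) δ κ T x Y (e * M * h))).card : ℝ) ≤ ε * w := by
  have heM : (0 : ℤ) < (e : ℤ) * M := by
    have h2 : (0 : ℤ) < e := by exact_mod_cast he
    have h3 : (0 : ℤ) < M := by exact_mod_cast hM
    positivity
  obtain ⟨Gd, hGd⟩ : ∃ Gd : (Fin (2 * k + 2) → ℤ) → Prop, Gd =
    (fun y => (∀ i, 0 ≤ y i ∧ y i < (T₁ : ℤ)) ∧ κ₀ * (N / (Real.log N) ^ (2 * k + 2)) ≤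
      (plJ a b s t M N (univ.image (fun i => (bb, (y i).toNat))) : ℝ)) := ⟨_, rfl⟩
  obtain ⟨Gv, hGv⟩ : ∃ Gv : ℤ → (Fin (2 * k) → ℤ) → Prop, Gv =
    (fun h g => 0 ≤ h → κ * (x / (Real.log x) ^ (2 * k + 2)) ≤
      (pV Y (e * M * h.toNat) (fun i => (e : ℤ) * M * g i) : ℝ)) := ⟨_, rfl⟩
  have key := hcb2 P Gd Gv hP hPc ?_ ?_
  · rw [hw]
    refine le_trans (Nat.cast_le.2 ?_) key
    refine Finset.card_le_card ?_
    intro h hh
    obtain ⟨g1, g2⟩ := Finset.mem_filter.1 hh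
    refine Finset.mem_filter.2 ⟨g1, ?_⟩
    unfold RichP at g2
    rw [not_le] at g2
    refine lt_of_le_of_lt (Nat.cast_le.2 ?_) (lt_of_lt_of_le g2 hδ₂)
    refine Finset.card_le_card_of_injOn (fun g : Fin (2 * k) → ℤ => fun i => (e : ℤ) * M * g i) ?_ ?_
    · intro g hg
      obtain ⟨g3, g4, g5⟩ := Finset.mem_filter.1 (Finset.mem_coe.1 hg)
      refine Finset.mem_coe.2 (Finset.mem_filter.2 ⟨scale heM.ne' ?_ g3, ?_, ?_⟩)
      · rw [abs_of_pos heM]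
        exact_mod_cast hWT
      · intro i hi
        refine g4 i ?_
        have hi' : (e : ℤ) * M * g i = ((e * M * h : ℕ) : ℤ) := hi
        push_cast at hi'
        exact mul_left_cancel₀ heM.ne' hi'
      · rw [hGv] at g5
        have g6 := g5 (Int.natCast_nonneg _)
        rw [Int.toNat_natCast] at g6
        exact g6
    · intro g _ g' _ hgg
      exact scale_inj heM.ne' hgg
  · refine le_trans (Nat.cast_le.2 ?_) (hbad.trans (mul_le_mul_of_nonneg_right hε₃ (by positivity)))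
    refine Finset.card_le_card_of_injOn (fun y : Fin (2 * k + 2) → ℤ =>
      (fun i => (bb, (y i).toNat) : Fin (2 * k + 1 + 1) → Bool × ℕ)) ?_ ?_
    · intro y hy
      obtain ⟨g1, g2, g3⟩ := Finset.mem_filter.1 (Finset.mem_coe.1 hy)
      rw [Fintype.mem_piFinset] at g1
      have g4 : ∀ i, 0 ≤ y i ∧ y i < T₁ := fun i => Finset.mem_Ico.1 (hP (g1 i))
      unfold badL
      refine Finset.mem_coe.2 (Finset.mem_filter.2 ⟨Fintype.mem_piFinset.2 fun i => hPm _ (g1 i), ?_, ?_⟩)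
      · intro i j hij
        have g5 : (y i).toNat = (y j).toNat := congrArg Prod.snd hij
        have := g4 i
        have := g4 j
        exact g2 (by omega)
      · by_contra g5
        exact g3 (by rw [hGd]; exact ⟨g4, not_lt.1 g5⟩)
    · intro y hy y' hy' hyy
      obtain ⟨g1, _⟩ := Finset.mem_filter.1 (Finset.mem_coe.1 hy)
      obtain ⟨g1', _⟩ := Finset.mem_filter.1 (Finset.mem_coe.1 hy')
      rw [Fintype.mem_piFinset] at g1 g1'
      funext i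
      have g5 : (y i).toNat = (y' i).toNat := congrArg Prod.snd (congrFun hyy i)
      have := Finset.mem_Ico.1 (hP (g1 i))
      have := Finset.mem_Ico.1 (hP (g1' i))
      omega
  · rw [hGd, hGv]
    rintro y ⟨g1, g2⟩ g3
    refine hκ.trans (g2.trans (Nat.cast_le.2 ?_))
    refine plJ_pV (r := r) bb hfw (univ.image (fun i => (bb, (y i).toNat))) (y 0).toNat (y 1).toNat
      (fun i => (y i.succ.succ).toNat) (Finset.mem_image.2 ⟨0, Finset.mem_univ _, rfl⟩)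
      (Finset.mem_image.2 ⟨1, Finset.mem_univ _, rfl⟩)
      (fun i => Finset.mem_image.2 ⟨i.succ.succ, Finset.mem_univ _, rfl⟩) he ?_ _ ?_ _ ?_
    · have g4 := g1 0
      have g5 : (e : ℤ) * M * ((y 0).toNat : ℤ) ≤ (e : ℤ) * M * T₁ := by
        refine mul_le_mul_of_nonneg_left ?_ heM.le
        omega
      linarith
    · have g4 := g1 0
      have g5 := g1 1
      have g6 : ((y 1 - y 0).toNat : ℤ) = ((y 1).toNat : ℤ) - ((y 0).toNat : ℤ) := by omega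
      push_cast
      rw [g6]
    · intro i
      have g4 := g1 0
      have g5 := g1 i.succ.succ
      have g6 : ((y i.succ.succ).toNat : ℤ) - ((y 0).toNat : ℤ) = y i.succ.succ - y 0 := by omega
      rw [g6]

open Classical in
/-- case (i): two parts -/
theorem twoParts {a b M N T₁ X k T x : ℕ} {s t : ℤ} {ε ε₁ ε₃ κ κ₀ δ δ₁ τ : ℝ} (cc : ℤ → ℤ)
    (ha : 1 ≤ a) (hb : 1 ≤ b) (hM : 1 ≤ M)
    (hκ : κ * (x / (Real.log x) ^ (2 * k + 2)) ≤ κ₀ * (N / (Real.log N) ^ (2 * k + 2)))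
    (hε₃ : ε₃ ≤ ε₁) (hδ₁ : δ * (T : ℝ) ^ (2 * k) ≤ δ₁ * (T₁ : ℝ) ^ (2 * k))
    (haT : a * M * T₁ ≤ T) (hbT : b * M * T₁ ≤ T)
    (hst : ∀ r, cc r = (a : ℤ) * t - b * s + a * b * M * (r - ((T₁ : ℤ) - 1)))
    {As : Finset (Bool × ℕ)} {P R : Finset ℤ} {U : Finset ℤ}
    (hbad : ((badL a b s t M N (2 * k + 1) κ₀ As).card : ℝ) ≤ ε₃ * (T₁ : ℝ) ^ (2 * k + 1 + 1))
    (hP : P ⊆ Ico 0 (T₁ : ℤ)) (hPm : ∀ v ∈ P, (true, v.toNat) ∈ As)
    (hR : R ⊆ Ico 0 (T₁ : ℤ)) (hRm : ∀ v ∈ R, (false, ((T₁ : ℤ) - 1 - v).toNat) ∈ As)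
    (hPc : ε / 4 * T₁ ≤ (P.card : ℝ)) (hRc : ε / 4 * T₁ ≤ (R.card : ℝ))
    (hU : ∀ r ∈ U, ¬ RichL k δ κ T x X a b (cc r))
    (hcb1 : ∀ (A C U : Finset ℤ) (Gd : (Fin (k + 1) → ℤ) → (Fin (k + 1) → ℤ) → Prop)
      (Gv : ℤ → (Fin k → ℤ) → (Fin k → ℤ) → Prop),
      A ⊆ Ico 0 (T₁ : ℤ) → C ⊆ Ico 0 (T₁ : ℤ) → ε / 4 * T₁ ≤ (A.card : ℝ) → ε / 4 * T₁ ≤ (C.card : ℝ) →
      (((((Fintype.piFinset (fun _ : Fin (k + 1) => A)) ×ˢ
        (Fintype.piFinset (fun _ : Fin (k + 1) => C))).filter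
        (fun y => Function.Injective y.1 ∧ Function.Injective y.2 ∧ ¬ Gd y.1 y.2)).card : ℝ) ≤
          ε₁ * (T₁ : ℝ) ^ (2 * k + 2)) →
      (∀ y z, Gd y z → Gv (y 0 + z 0) (fun i => y i.succ - y 0) (fun i => z i.succ - z 0)) →
      (∀ r ∈ U, (((vecs k T₁ ×ˢ vecs k T₁).filter (fun v => Gv r v.1 v.2)).card : ℝ) ≤
        δ₁ * (T₁ : ℝ) ^ (2 * k)) →
      (((A ×ˢ C).filter (fun p => p.1 + p.2 ∈ U)).card : ℝ) ≤ τ / 2 * (T₁ : ℝ) ^ 2)
    (h1 : (a : ℤ) * ((5 * N / 9 : ℕ) : ℤ) + s + a * M * T₁ ≤ X) :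
    (((R ×ˢ P).filter (fun p => p.1 + p.2 ∈ U)).card : ℝ) ≤ τ / 2 * (T₁ : ℝ) ^ 2 := by
  have hM' : (0 : ℤ) < M := by exact_mod_cast hM
  have haM : (0 : ℤ) < (a : ℤ) * M := by
    have h2 : (0 : ℤ) < a := by exact_mod_cast ha
    positivity
  have hbM : (0 : ℤ) < (b : ℤ) * M := by
    have h2 : (0 : ℤ) < b := by exact_mod_cast hb
    positivity
  have haM' : -((a : ℤ) * M) ≠ 0 := by
    have := haM.ne'
    exact neg_ne_zero.2 this
  obtain ⟨Gd, hGd⟩ : ∃ Gd : (Fin (k + 1) → ℤ) → (Fin (k + 1) → ℤ) → Prop, Gd =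
    (fun y z => (∀ i, 0 ≤ y i ∧ y i < (T₁ : ℤ)) ∧ (∀ i, 0 ≤ z i ∧ z i < (T₁ : ℤ)) ∧
      κ₀ * (N / (Real.log N) ^ (2 * k + 2)) ≤
      (plJ a b s t M N (univ.image (mix k T₁ y z)) : ℝ)) := ⟨_, rfl⟩
  obtain ⟨Gv, hGv⟩ : ∃ Gv : ℤ → (Fin k → ℤ) → (Fin k → ℤ) → Prop, Gv =
    (fun r h h' => κ * (x / (Real.log x) ^ (2 * k + 2)) ≤
      (lV a b (cc r) X (fun i => -((a : ℤ) * M) * h i) (fun i => (b : ℤ) * M * h' i) : ℝ)) := ⟨_, rfl⟩
  refine hcb1 R P U Gd Gv hR hP hRc hPc ?_ ?_ ?_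
  · refine le_trans (Nat.cast_le.2 ?_) (hbad.trans (mul_le_mul_of_nonneg_right hε₃ (by positivity)))
    refine Finset.card_le_card_of_injOn (fun y : (Fin (k + 1) → ℤ) × (Fin (k + 1) → ℤ) =>
      mix k T₁ y.1 y.2) ?_ ?_
    · rintro ⟨y, z⟩ hy
      obtain ⟨g1, g2, g3, g4⟩ := Finset.mem_filter.1 (Finset.mem_coe.1 hy)
      obtain ⟨g5, g6⟩ := Finset.mem_product.1 g1
      rw [Fintype.mem_piFinset] at g5 g6
      have g7 : ∀ i, 0 ≤ y i ∧ y i < T₁ := fun i => Finset.mem_Ico.1 (hR (g5 i))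
      have g8 : ∀ i, 0 ≤ z i ∧ z i < T₁ := fun i => Finset.mem_Ico.1 (hP (g6 i))
      unfold badL
      refine Finset.mem_coe.2 (Finset.mem_filter.2 ⟨Fintype.mem_piFinset.2 fun i => ?_,
        mix_injective g7 g8 g2 g3, ?_⟩)
      · obtain ⟨j, rfl⟩ := (ee k).surjective i
        rcases j with j | j
        · show mix k T₁ y z (ee k (Sum.inl j)) ∈ As
          rw [mix_l]
          exact hRm _ (g5 j)
        · show mix k T₁ y z (ee k (Sum.inr j)) ∈ As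
          rw [mix_r]
          exact hPm _ (g6 j)
      · by_contra g9
        exact g4 (by rw [hGd]; exact ⟨g7, g8, not_lt.1 g9⟩)
    · rintro ⟨y, z⟩ hy ⟨y', z'⟩ hy' hyy
      obtain ⟨g1, _⟩ := Finset.mem_filter.1 (Finset.mem_coe.1 hy)
      obtain ⟨g1', _⟩ := Finset.mem_filter.1 (Finset.mem_coe.1 hy')
      obtain ⟨g5, g6⟩ := Finset.mem_product.1 g1
      obtain ⟨g5', g6'⟩ := Finset.mem_product.1 g1'
      rw [Fintype.mem_piFinset] at g5 g6 g5' g6'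
      have hyy' : mix k T₁ y z = mix k T₁ y' z' := hyy
      have e1 : y = y' := by
        funext i
        have g7 := congrFun hyy' (ee k (Sum.inl i))
        rw [mix_l, mix_l] at g7
        have g8 := congrArg Prod.snd g7
        have g9 : ((T₁ : ℤ) - 1 - y i).toNat = ((T₁ : ℤ) - 1 - y' i).toNat := g8
        have g10 : 0 ≤ y i ∧ y i < T₁ := Finset.mem_Ico.1 (hR (g5 i))
        have g11 : 0 ≤ y' i ∧ y' i < T₁ := Finset.mem_Ico.1 (hR (g5' i))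
        omega
      have e2 : z = z' := by
        funext i
        have g7 := congrFun hyy' (ee k (Sum.inr i))
        rw [mix_r, mix_r] at g7
        have g9 : (z i).toNat = (z' i).toNat := congrArg Prod.snd g7
        have g10 : 0 ≤ z i ∧ z i < T₁ := Finset.mem_Ico.1 (hP (g6 i))
        have g11 : 0 ≤ z' i ∧ z' i < T₁ := Finset.mem_Ico.1 (hP (g6' i))
        omega
      rw [e1, e2]
  · rw [hGd, hGv]
    rintro y z ⟨g1, g2, g3⟩
    refine hκ.trans (g3.trans (Nat.cast_le.2 ?_))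
    refine plJ_lV (univ.image (mix k T₁ y z)) ((T₁ : ℤ) - 1 - y 0).toNat (z 0).toNat
      (fun i => ((T₁ : ℤ) - 1 - y i.succ).toNat) (fun i => (z i.succ).toNat) (mix_mem_l k T₁ y z 0)
      (mix_mem_r k T₁ y z 0) (fun i => mix_mem_l k T₁ y z i.succ) (fun i => mix_mem_r k T₁ y z i.succ)
      ha ?_ _ ?_ _ _ ?_ ?_
    · have g4 := g1 0
      have g5 : (a : ℤ) * M * (((T₁ : ℤ) - 1 - y 0).toNat : ℤ) ≤ (a : ℤ) * M * T₁ := by
        refine mul_le_mul_of_nonneg_left ?_ haM.le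
        omega
      linarith
    · have g4 := g1 0
      have g5 := g2 0
      have g6 : (((T₁ : ℤ) - 1 - y 0).toNat : ℤ) = (T₁ : ℤ) - 1 - y 0 := by omega
      have g7 : ((z 0).toNat : ℤ) = z 0 := by omega
      rw [hst, g6, g7]
      ring
    · intro i
      have g4 := g1 0
      have g5 := g1 i.succ
      have g6 : (((T₁ : ℤ) - 1 - y 0).toNat : ℤ) = (T₁ : ℤ) - 1 - y 0 := by omega
      have g7 : (((T₁ : ℤ) - 1 - y i.succ).toNat : ℤ) = (T₁ : ℤ) - 1 - y i.succ := by omega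
      rw [g6, g7]
      ring
    · intro i
      have g4 := g2 0
      have g5 := g2 i.succ
      have g6 : ((z 0).toNat : ℤ) = z 0 := by omega
      have g7 : ((z i.succ).toNat : ℤ) = z i.succ := by omega
      rw [g6, g7]
  · intro r hr
    have g2 := hU r hr
    unfold RichL at g2
    rw [not_le] at g2
    refine le_trans (Nat.cast_le.2 ?_) (g2.le.trans hδ₁)
    refine Finset.card_le_card_of_injOn (fun v : (Fin k → ℤ) × (Fin k → ℤ) =>
      ((fun i => -((a : ℤ) * M) * v.1 i, fun i => (b : ℤ) * M * v.2 i) :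
        (Fin k → ℤ) × (Fin k → ℤ))) ?_ ?_
    · rintro ⟨h, h'⟩ hg
      obtain ⟨g3, g4⟩ := Finset.mem_filter.1 (Finset.mem_coe.1 hg)
      obtain ⟨g5, g6⟩ := Finset.mem_product.1 g3
      rw [hGv] at g4
      refine Finset.mem_coe.2 (Finset.mem_filter.2 ⟨Finset.mem_product.2 ⟨scale haM' ?_ g5,
        scale hbM.ne' ?_ g6⟩, g4⟩)
      · rw [abs_neg, abs_of_pos haM]
        exact_mod_cast haT
      · rw [abs_of_pos hbM]
        exact_mod_cast hbT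
    · rintro ⟨h, h'⟩ _ ⟨g, g'⟩ _ hgg
      have e1 := scale_inj haM' (congrArg Prod.fst hgg)
      have e2 := scale_inj hbM.ne' (congrArg Prod.snd hgg)
      exact Prod.ext e1 e2


open Classical in
/-- the main step -/
theorem step {a b M₀ W N q x₀ H T₁ Z w X Y k T x : ℕ} {c₁ s t : ℤ}
    {ε ε₁ ε₂ ε₃ κ κ₀ δ δ₁ δ₂ c τ ρ' : ℝ} (B : ℕ → Prop)
    (ha : 1 ≤ a) (hb : 1 ≤ b) (hqM : 1 ≤ q * M₀) (hW : W = a * b * M₀)
    (hB : ∀ r, B r → ¬ RichL k δ κ T x X a b (c₁ + (W : ℤ) * r))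
    (hκ : κ * (x / (Real.log x) ^ (2 * k + 2)) ≤ κ₀ * (N / (Real.log N) ^ (2 * k + 2)))
    (hε : 0 < ε) (hε1 : ε ≤ 1 / 1000) (hε₃ : ε₃ ≤ ε₁) (hε₃' : ε₃ ≤ ε₂) (hε₃'' : ε₃ ≤ ε / 4000)
    (hτ : 0 < τ) (hc : 0 < c) (hT₁ : T₁ = H / 2) (hT₁b : 100 ≤ T₁) (hT₁c : 1 ≤ 2 * τ * T₁)
    (hδ₁ : δ * (T : ℝ) ^ (2 * k) ≤ δ₁ * (T₁ : ℝ) ^ (2 * k))
    (hδ₂ : δ * (T : ℝ) ^ (2 * k) ≤ δ₂ * (T₁ : ℝ) ^ (2 * k))
    (haT : a * (q * M₀) * T₁ ≤ T) (hbT : b * (q * M₀) * T₁ ≤ T)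
    (hρ : 4 / 9 + ε ≤ ρ')
    (hH : ρ' * H ≤ (((range H).filter (fun r => B (x₀ + q * r))).card : ℝ))
    (hH2 : ∀ q' x₁ H' : ℕ, 1 ≤ q' → q' ≤ Z → c / 3 * H ≤ (H' : ℝ) → (∀ t < H', x₁ + q' * t < H) →
        (((range H').filter (fun t => B (x₀ + q * (x₁ + q' * t)))).card : ℝ) ≤
          (ρ' + τ / 2) * H')
    (hst : (a : ℤ) * t - b * s = c₁ + W * x₀ + W * q * ((T₁ : ℤ) - 1))
    (hclq : ∃ As ⊆ (univ : Finset Bool) ×ˢ range T₁, (5 / 9 - ε₃) * T₁ ≤ (As.card : ℝ) ∧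
      ((badL a b s t (q * M₀) N (2 * k + 1) κ₀ As).card : ℝ) ≤ ε₃ * (T₁ : ℝ) ^ (2 * k + 1 + 1))
    (hcore : ∀ (A C U : Finset ℤ) (ρ : ℝ),
      A ⊆ Ico 0 (T₁ : ℤ) → C ⊆ Ico 0 (T₁ : ℤ) → U ⊆ Ico 0 (2 * (T₁ : ℤ)) → ε / 4 ≤ ρ →
      (ρ - τ) * (2 * T₁) ≤ (U.card : ℝ) →
      (∀ (k m : ℕ) (x : ℤ), 1 ≤ k → k ≤ Z → c * T₁ ≤ (m : ℝ) → 0 ≤ x → x + k * (m - 1) < 2 * T₁ →
        (((range m).filter (fun t : ℕ => x + k * t ∈ U)).card : ℝ) ≤ (ρ + τ) * m) →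
      ε / 4 * T₁ ≤ (A.card : ℝ) → ε / 4 * T₁ ≤ (C.card : ℝ) →
      (1 - ρ + ε / 4) * T₁ ≤ (A.card : ℝ) + C.card →
      τ * (T₁ : ℝ) ^ 2 ≤ (((A ×ˢ C).filter (fun p => p.1 + p.2 ∈ U)).card : ℝ))
    (hcb1 : ∀ (A C U : Finset ℤ) (Gd : (Fin (k + 1) → ℤ) → (Fin (k + 1) → ℤ) → Prop)
      (Gv : ℤ → (Fin k → ℤ) → (Fin k → ℤ) → Prop),
      A ⊆ Ico 0 (T₁ : ℤ) → C ⊆ Ico 0 (T₁ : ℤ) → ε / 4 * T₁ ≤ (A.card : ℝ) → ε / 4 * T₁ ≤ (C.card : ℝ) →
      (((((Fintype.piFinset (fun _ : Fin (k + 1) => A)) ×ˢ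
        (Fintype.piFinset (fun _ : Fin (k + 1) => C))).filter
        (fun y => Function.Injective y.1 ∧ Function.Injective y.2 ∧ ¬ Gd y.1 y.2)).card : ℝ) ≤
          ε₁ * (T₁ : ℝ) ^ (2 * k + 2)) →
      (∀ y z, Gd y z → Gv (y 0 + z 0) (fun i => y i.succ - y 0) (fun i => z i.succ - z 0)) →
      (∀ r ∈ U, (((vecs k T₁ ×ˢ vecs k T₁).filter (fun v => Gv r v.1 v.2)).card : ℝ) ≤
        δ₁ * (T₁ : ℝ) ^ (2 * k)) →
      (((A ×ˢ C).filter (fun p => p.1 + p.2 ∈ U)).card : ℝ) ≤ τ / 2 * (T₁ : ℝ) ^ 2)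
    (hcb2 : ∀ (A : Finset ℤ) (Gd : (Fin (2 * k + 2) → ℤ) → Prop) (Gv : ℤ → (Fin (2 * k) → ℤ) → Prop),
      A ⊆ Ico 0 (T₁ : ℤ) → 11 / 20 * (T₁ : ℝ) ≤ (A.card : ℝ) →
      ((((Fintype.piFinset (fun _ : Fin (2 * k + 2) => A)).filter
        (fun y => Function.Injective y ∧ ¬ Gd y)).card : ℝ) ≤ ε₂ * (T₁ : ℝ) ^ (2 * k + 2)) →
      (∀ y, Gd y → Gv (y 1 - y 0) (fun i => y i.succ.succ - y 0)) →
      (((Icc 1 (T₁ / 50)).filter (fun h : ℕ =>
        (((vecs (2 * k) T₁).filter (fun g => (∀ i, g i ≠ (h : ℤ)) ∧ Gv h g)).card : ℝ) <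
          δ₂ * (T₁ : ℝ) ^ (2 * k))).card : ℝ) ≤ ε * ((T₁ / 50 : ℕ) : ℝ))
    (hw : w = T₁ / 50)
    (h1 : (a : ℤ) * ((5 * N / 9 : ℕ) : ℤ) + s + a * ((q * M₀ : ℕ) : ℤ) * T₁ ≤ X)
    (h2 : (a : ℤ) * ((5 * N / 9 : ℕ) : ℤ) + s + a * ((q * M₀ : ℕ) : ℤ) * T₁ ≤ Y)
    (h3 : (b : ℤ) * ((5 * N / 9 : ℕ) : ℤ) + t + b * ((q * M₀ : ℕ) : ℤ) * T₁ ≤ Y) :
    (((Icc 1 w).filter (fun h : ℕ => ¬ RichP (2 * k) δ κ T x Y (a * (q * M₀) * h))).card : ℝ) ≤ ε * w ∨
    (((Icc 1 w).filter (fun h : ℕ => ¬ RichP (2 * k) δ κ T x Y (b * (q * M₀) * h))).card : ℝ) ≤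
      ε * w := by
  obtain ⟨As, hAs, hcard, hbad⟩ := hclq
  obtain ⟨P, hPsub, hPcard, hPm⟩ := parts hAs
  have hT₁0 : (0 : ℝ) < T₁ := by
    have : 0 < T₁ := by omega
    exact_mod_cast this
  have hT₁100 : (100 : ℝ) ≤ T₁ := by exact_mod_cast hT₁b
  have hcard' : (5 / 9 - ε₃) * T₁ ≤ ((P false).card : ℝ) + (P true).card :=
    hcard.trans (by exact_mod_cast hPcard)
  -- the set `U`
  obtain ⟨U, hU⟩ : ∃ U : Finset ℤ, U = (Ico (0 : ℤ) (2 * (T₁ : ℤ))).filter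
    (fun r : ℤ => B (x₀ + q * r.toNat)) := ⟨_, rfl⟩
  have hUsub : U ⊆ Ico 0 (2 * (T₁ : ℤ)) := by rw [hU]; exact Finset.filter_subset _ _
  have hUmem : ∀ r : ℕ, (r : ℤ) ∈ U → B (x₀ + q * r) := by
    intro r hr
    rw [hU] at hr
    have := (Finset.mem_filter.1 hr).2
    rw [Int.toNat_natCast] at this
    exact this
  have hUcard : ρ' * H ≤ (U.card : ℝ) + 1 := by
    refine hH.trans ?_
    have h3 : ((range H).filter (fun t => B (x₀ + q * t))) ⊆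
        insert (2 * T₁) ((range (2 * T₁)).filter (fun t => B (x₀ + q * t))) := by
      intro t ht
      obtain ⟨h4, h5⟩ := Finset.mem_filter.1 ht
      rw [Finset.mem_range] at h4
      rw [Finset.mem_insert, Finset.mem_filter, Finset.mem_range]
      by_cases h6 : t = 2 * T₁
      · exact Or.inl h6
      · exact Or.inr ⟨by omega, h5⟩
    have h4 : ((range (2 * T₁)).filter (fun t => B (x₀ + q * t))).card ≤ U.card := by
      refine Finset.card_le_card_of_injOn (fun t => (t : ℤ)) ?_ ?_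
      · intro t ht
        obtain ⟨h4, h5⟩ := Finset.mem_filter.1 (Finset.mem_coe.1 ht)
        rw [Finset.mem_range] at h4
        rw [hU]
        refine Finset.mem_coe.2 (Finset.mem_filter.2 ⟨Finset.mem_Ico.2 ⟨?_, ?_⟩, ?_⟩)
        · exact Int.natCast_nonneg _
        · show (t : ℤ) < 2 * (T₁ : ℤ)
          omega
        · show B (x₀ + q * ((t : ℤ)).toNat)
          rw [Int.toNat_natCast]; exact h5
      · intro t _ t' _ h
        have h' : (t : ℤ) = (t' : ℤ) := h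
        exact_mod_cast h'
    have h5 := (Finset.card_le_card h3).trans (Finset.card_insert_le _ _)
    have h6 := h5.trans (Nat.add_le_add_right h4 1)
    exact_mod_cast h6
  have hH1 : (2 : ℝ) * T₁ ≤ H := by
    have : 2 * T₁ ≤ H := by omega
    exact_mod_cast this
  have hH3 : (H : ℝ) ≤ 3 * T₁ := by
    have : H ≤ 3 * T₁ := by omega
    exact_mod_cast this
  have hρ0 : 0 ≤ ρ' := by linarith
  have hU1 : (ρ' - τ) * (2 * T₁) ≤ (U.card : ℝ) := by nlinarith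
  have hU2 : ∀ (k m : ℕ) (x : ℤ), 1 ≤ k → k ≤ Z → c * T₁ ≤ (m : ℝ) → 0 ≤ x →
      x + k * (m - 1) < 2 * T₁ →
        (((range m).filter (fun t : ℕ => x + k * t ∈ U)).card : ℝ) ≤ (ρ' + τ) * m := by
    intro k m x hk hkZ hm hx hxk
    obtain ⟨y, rfl⟩ := Int.eq_ofNat_of_zero_le hx
    have hm0 : (0 : ℝ) < m := lt_of_lt_of_le (by positivity) hm
    have hm0' : 0 < m := by exact_mod_cast hm0
    have h3 := hH2 k y m hk hkZ (by nlinarith) (by
      intro t ht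
      have h4 : (k : ℤ) * t ≤ k * (m - 1) := by
        refine mul_le_mul_of_nonneg_left ?_ (by positivity)
        omega
      have h5 : ((y + k * t : ℕ) : ℤ) < 2 * T₁ := by
        push_cast
        linarith
      omega)
    have h4 : ((range m).filter (fun t : ℕ => ((y : ℕ) : ℤ) + k * t ∈ U)).card ≤
        ((range m).filter (fun t => B (x₀ + q * (y + k * t)))).card := by
      refine Finset.card_le_card ?_
      intro t ht
      obtain ⟨h5, h6⟩ := Finset.mem_filter.1 ht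
      refine Finset.mem_filter.2 ⟨h5, hUmem _ ?_⟩
      push_cast
      exact h6
    have h5 : (((range m).filter (fun t : ℕ => ((y : ℕ) : ℤ) + k * t ∈ U)).card : ℝ) ≤
        (ρ' + τ / 2) * m := le_trans (by exact_mod_cast h4) h3
    refine h5.trans ?_
    nlinarith
  -- the reflected part
  obtain ⟨R, hR⟩ : ∃ R : Finset ℤ, R = (P false).image (fun v : ℤ => (T₁ : ℤ) - 1 - v) := ⟨_, rfl⟩
  have hRsub : R ⊆ Ico 0 (T₁ : ℤ) := by
    intro z hz
    rw [hR, Finset.mem_image] at hz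
    obtain ⟨v, hv, rfl⟩ := hz
    have := Finset.mem_Ico.1 (hPsub false hv)
    exact Finset.mem_Ico.2 ⟨by omega, by omega⟩
  have hRcard : R.card = (P false).card := by
    rw [hR]
    refine Finset.card_image_of_injective _ ?_
    intro v v' h
    have : (T₁ : ℤ) - 1 - v = (T₁ : ℤ) - 1 - v' := h
    omega
  have hRm : ∀ v ∈ R, (false, ((T₁ : ℤ) - 1 - v).toNat) ∈ As := by
    intro z hz
    rw [hR, Finset.mem_image] at hz
    obtain ⟨v, hv, rfl⟩ := hz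
    have e1 : (T₁ : ℤ) - 1 - ((T₁ : ℤ) - 1 - v) = v := by ring
    rw [e1]
    exact hPm false v hv
  have hT2 : (0 : ℝ) < (T₁ : ℝ) ^ 2 := by positivity
  by_cases hf : ε / 4 * T₁ ≤ ((P false).card : ℝ)
  · by_cases ht : ε / 4 * T₁ ≤ ((P true).card : ℝ)
    · exfalso
      have h4 := hcore R (P true) U ρ' hRsub (hPsub _) hUsub (by linarith) hU1 hU2
        (by rw [hRcard]; exact hf) ht
        (by
          rw [hRcard]
          refine le_trans ?_ hcard'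
          refine mul_le_mul_of_nonneg_right ?_ hT₁0.le
          linarith)
      have h5 := twoParts (a := a) (b := b) (M := q * M₀) (N := N) (X := X) (s := s) (t := t)
        (fun r : ℤ => c₁ + W * (x₀ + q * r)) ha hb hqM hκ hε₃ hδ₁ haT hbT (by
          intro r
          rw [hst, hW]
          push_cast
          ring) hbad (hPsub true) (hPm true) hRsub hRm ht (by rw [hRcard]; exact hf)
        (U := U) (by
          intro r hr
          have h6 := hUsub hr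
          rw [Finset.mem_Ico] at h6
          obtain ⟨m, rfl⟩ := Int.eq_ofNat_of_zero_le h6.1
          have h7 := hB _ (hUmem m hr)
          have h8 : ((x₀ + q * m : ℕ) : ℤ) = (x₀ : ℤ) + q * (m : ℤ) := by push_cast; ring
          rw [h8] at h7
          exact h7) hcb1 h1
      have h6 := h4.trans h5
      have h7 : τ ≤ τ / 2 := le_of_mul_le_mul_right h6 hT2
      linarith
    · left
      refine onePart (a := a) (b := b) (s := s) (t := t) (N := N) false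
        (fun n v => by rw [FIN3.fw_f]) ha hqM hκ hε₃' hδ₂ haT hbad
        (hPsub false) (hPm false) ?_ hcb2 hw h2
      rw [not_le] at ht
      have h4 : 11 / 20 * (T₁ : ℝ) ≤ (5 / 9 - ε₃ - ε / 4) * T₁ :=
        mul_le_mul_of_nonneg_right (by linarith) hT₁0.le
      linarith
  · right
    refine onePart (a := a) (b := b) (s := s) (t := t) (N := N) true
      (fun n v => by rw [FIN3.fw_t]) hb hqM hκ hε₃' hδ₂ hbT hbad
      (hPsub true) (hPm true) ?_ hcb2 hw h3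
    rw [not_le] at hf
    have h4 : 11 / 20 * (T₁ : ℝ) ≤ (5 / 9 - ε₃ - ε / 4) * T₁ :=
      mul_le_mul_of_nonneg_right (by linarith) hT₁0.le
    linarith

theorem cmpL {κ₀ : ℝ} (hκ : 0 < κ₀) (k : ℕ) {x : ℕ} (hx : 1000 ≤ x) :
    κ₀ / 2 ^ (2 * k + 2) * (x / (Real.log x) ^ (2 * k + 2)) ≤
      κ₀ * (((100 * x : ℕ) : ℝ) / (Real.log ((100 * x : ℕ) : ℝ)) ^ (2 * k + 2)) := by
  have h1 := (FIN3.cmp hκ hx).1
  have hxr : (1000 : ℝ) ≤ x := by exact_mod_cast hx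
  have hl : 0 < Real.log x := Real.log_pos (by linarith)
  have e : ((100 * x : ℕ) : ℝ) = 100 * x := by push_cast; ring
  have h0 : 0 < Real.log ((100 * x : ℕ) : ℝ) := Real.log_pos (by rw [e]; linarith)
  have h2 : κ₀ / 2 ^ (2 * k + 2) * (x / (Real.log x) ^ (2 * k + 2)) =
      κ₀ * (x / (2 * Real.log x) ^ (2 * k + 2)) := by
    rw [mul_pow]
    field_simp
  rw [h2]
  refine mul_le_mul_of_nonneg_left ?_ hκ.le
  refine div_le_div₀ (by positivity) (by rw [e]; linarith) (by positivity) ?_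
  exact pow_le_pow_left₀ h0.le h1 _

open Classical in
/-- the theorem for small `ε` -/
theorem main (a b : ℕ) (ha : 1 ≤ a) (hb : 1 ≤ b) (hab : Nat.Coprime a b) (hne : a ≠ b) (k : ℕ)
    (ε : ℝ) (hε : 0 < ε) (hε1 : ε ≤ 1 / 1000) (hCLQ : S_CLQL) (hINC : S_INC) (hCORE : S_CORE2)
    (hCB1 : S_CB1) (hCB2 : S_CB2) :
    ∃ (Q : ℕ) (c₀ δ : ℝ), 0 < c₀ ∧ 0 < δ ∧ ∀ lam : ℝ, 0 < lam → ∃ κ : ℝ, 0 < κ ∧
    ∀ᶠ x : ℕ in atTop, ∀ T : ℕ, lam * Real.log x ≤ T → 1000 * T ≤ x →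
    (∀ u : ℤ, |u| ≤ x →
      (((Ioc u (u + T)).filter (fun c : ℤ => Adl a b c ∧ ¬ RichL k δ κ T x (100 * a * x) a b c)).card : ℝ) ≤
      (4 / 9 + ε) * (((Ioc u (u + T)).filter (fun c : ℤ => Adl a b c)).card : ℝ)) ∨
    ∃ q X : ℕ, 1 ≤ q ∧ q ≤ Q ∧ c₀ * T ≤ (X : ℝ) ∧ X ≤ T ∧
      (((Icc 1 X).filter (fun d => q ∣ d ∧ ¬ RichP (2 * k) δ κ T x (100 * (a + b) * x) d)).card : ℝ) ≤
        ε * (X / q) := by
  obtain ⟨Z, T₀, cc, τ, hZ, hcc, hcc1, hτ, hcore⟩ := hCORE (ε / 4) (by positivity) (by linarith)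
  obtain ⟨ε₁, δ₁, T₀', hε₁, hδ₁, hcb1⟩ := hCB1 k (ε / 4) (τ / 2) (by positivity) (by positivity)
  obtain ⟨ε₂, δ₂, T₀'', hε₂, hδ₂, hcb2⟩ := hCB2 (2 * k) ε hε
  obtain ⟨Q, c', hc', hinc⟩ := hINC (τ / 2) (cc / 3) Z (by positivity) (by positivity)
    (by linarith) hZ
  obtain ⟨M₀, hM, hMe, hclq⟩ := hCLQ a b ha hb hab hne (2 * k + 1) (min (min ε₁ ε₂) (ε / 4000))
    (lt_min (lt_min hε₁ hε₂) (by positivity))
  obtain ⟨W, hW⟩ : ∃ W, W = a * b * M₀ := ⟨_, rfl⟩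
  have hW0 : 0 < W := by rw [hW]; exact Nat.mul_pos (Nat.mul_pos ha hb) hM
  have hWr : (0 : ℝ) < W := by exact_mod_cast hW0
  have hδm : 0 < min δ₁ δ₂ := lt_min hδ₁ hδ₂
  obtain ⟨T₂, hT₂⟩ : ∃ T₂, T₂ = T₀ + T₀' + T₀'' := ⟨_, rfl⟩
  obtain ⟨δ, hδ⟩ : ∃ δ : ℝ, δ = min δ₁ δ₂ * (c' / (6 * W)) ^ (2 * k) := ⟨_, rfl⟩
  have hδ0 : 0 < δ := by rw [hδ]; exact mul_pos hδm (by positivity)
  refine ⟨(a + b) * (Q * M₀), c' / (600 * W), δ, by positivity, hδ0, fun lam hlam => ?_⟩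
  obtain ⟨κ₀, hκ₀, hev⟩ := hclq Q (lam * c' / (12 * W)) (by positivity)
  obtain ⟨κ, hκdef⟩ : ∃ κ : ℝ, κ = κ₀ / 2 ^ (2 * k + 2) := ⟨_, rfl⟩
  refine ⟨κ, by rw [hκdef]; positivity, ?_⟩
  have htend : Tendsto (fun x : ℕ => 100 * x) atTop atTop :=
    tendsto_atTop_mono (fun x => show x ≤ 100 * x by omega) tendsto_id
  have hlog : Tendsto (fun x : ℕ => lam * Real.log x) atTop atTop :=
    (Real.tendsto_log_atTop.comp tendsto_natCast_atTop_atTop).const_mul_atTop hlam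
  filter_upwards [htend.eventually hev, hlog.eventually_ge_atTop (2 * (W : ℝ)),
    hlog.eventually_ge_atTop ((6 * W) * (T₂ + 100 + 1 / (2 * τ)) / c'),
    eventually_ge_atTop 1000, eventually_ge_atTop (2 * a + 2 * b)]
    with x hx1 hx2 hx3 hx4 hx5 T hT1 hT2
  by_cases halt : (∀ u : ℤ, |u| ≤ x →
      (((Ioc u (u + T)).filter (fun c : ℤ => Adl a b c ∧
        ¬ RichL k δ κ T x (100 * a * x) a b c)).card : ℝ) ≤
      (4 / 9 + ε) * (((Ioc u (u + T)).filter (fun c : ℤ => Adl a b c)).card : ℝ))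
  · exact Or.inl halt
  right
  push Not at halt
  obtain ⟨u, hu, hcount⟩ := halt
  have hlog2 := (FIN3.cmp hκ₀ hx4).1
  have hcmp := cmpL hκ₀ k hx4
  rw [← hκdef] at hcmp
  have hTW : 2 * W ≤ T := by exact_mod_cast hx2.trans hT1
  have hTb : (6 * W) * (T₂ + 100 + 1 / (2 * τ)) / c' ≤ (T : ℝ) := hx3.trans hT1
  obtain ⟨bad, hbad⟩ : ∃ bad : ℤ → Prop, bad = fun c : ℤ => ¬ RichL k δ κ T x (100 * a * x) a b c :=
    ⟨_, rfl⟩
  have hcount' : (4 / 9 + ε) * (((Ioc u (u + T)).filter (fun c : ℤ => Adl a b c)).card : ℝ) <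
      (((Ioc u (u + T)).filter (fun c : ℤ => Adl a b c ∧ bad c)).card : ℝ) := by
    refine hcount.trans_le (le_of_eq ?_)
    rw [hbad]
    congr!
  obtain ⟨i, hi, hadl, hcl⟩ := FIN3.pigeon hW hMe hW0 (by omega) bad (4 / 9 + ε) hcount'
  obtain ⟨c₁, hc₁⟩ : ∃ c₁ : ℤ, c₁ = u + 1 + i := ⟨_, rfl⟩
  rw [← hc₁] at hadl hcl
  obtain ⟨L, hL⟩ : ∃ L, L = FIN3.len T W i := ⟨_, rfl⟩
  rw [← hL] at hcl
  have hLdef : L = (T - 1 - i) / W + 1 := hL
  have hL1 : T - 1 - i < L * W := by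
    have := Nat.lt_mul_div_succ (T - 1 - i) hW0
    rw [hLdef, mul_comm]
    exact this
  have hL2 : (T : ℝ) / (2 * W) ≤ L := by
    rw [div_le_iff₀ (by positivity)]
    have h3 : T ≤ 2 * (L * W) := by omega
    have h4 : (T : ℝ) ≤ 2 * (L * W) := by exact_mod_cast h3
    linarith
  have hL3 : (L - 1) * W ≤ T - 1 - i := by
    have h3 : L - 1 = (T - 1 - i) / W := by rw [hLdef, Nat.add_sub_cancel]
    rw [h3]
    exact Nat.div_mul_le_self _ _
  obtain ⟨B, hBdef⟩ : ∃ B : ℕ → Prop, B = fun t : ℕ => bad (c₁ + (W : ℤ) * t) := ⟨_, rfl⟩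
  obtain ⟨q, x₀, H, ρ', hq, hqQ, hHL, hin, hρ, hH, hH2⟩ :=
    hinc L B (4 / 9 + ε) (by rw [hBdef]; exact hcl.le)
  obtain ⟨T₁, hT₁⟩ : ∃ T₁, T₁ = H / 2 := ⟨_, rfl⟩
  have h1τ : 0 < 1 / (2 * τ) := by positivity
  have hTb' : T₂ + 100 + 1 / (2 * τ) ≤ c' * (T / (2 * W)) / 3 := by
    rw [div_le_iff₀ hc'] at hTb
    rw [le_div_iff₀ (by norm_num : (0 : ℝ) < 3), mul_div_assoc', le_div_iff₀ (by positivity)]
    linarith
  have hHb : c' * (T / (2 * W)) ≤ H := (mul_le_mul_of_nonneg_left hL2 hc'.le).trans hHL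
  have hH300 : (3 : ℝ) * (T₂ + 100 + 1 / (2 * τ)) ≤ H := by linarith
  have hT₂r : (0 : ℝ) ≤ T₂ := by positivity
  have hH2' : 2 ≤ H := by
    have : (2 : ℝ) ≤ H := by linarith
    exact_mod_cast this
  have hH3 : (H : ℝ) ≤ 3 * T₁ := by
    have : H ≤ 3 * T₁ := by omega
    exact_mod_cast this
  have hT₁b : T₂ + 100 + 1 / (2 * τ) ≤ (T₁ : ℝ) := by linarith
  have hT₁0 : T₂ ≤ T₁ := by
    have : (T₂ : ℝ) ≤ T₁ := by linarith
    exact_mod_cast this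
  have hT₁100 : 100 ≤ T₁ := by
    have : (100 : ℝ) ≤ T₁ := by linarith
    exact_mod_cast this
  have hT₁τ : 1 ≤ 2 * τ * T₁ := by
    have h3 : 1 / (2 * τ) ≤ (T₁ : ℝ) := by linarith
    rw [div_le_iff₀ (by positivity)] at h3
    linarith
  have hqT : x₀ + q * T₁ < L := hin T₁ (by omega)
  have hWqT : (x₀ + q * T₁) * W ≤ T - 1 - i :=
    (Nat.mul_le_mul_right W (by omega : x₀ + q * T₁ ≤ L - 1)).trans hL3
  have hlamT : lam * c' / (12 * W) * Real.log ((100 * x : ℕ) : ℝ) ≤ (T₁ : ℝ) := by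
    have h3 : lam * Real.log ((100 * x : ℕ) : ℝ) ≤ 2 * T := by
      have := mul_le_mul_of_nonneg_left hlog2 hlam.le
      linarith
    have h4 : lam * c' / (12 * W) * Real.log ((100 * x : ℕ) : ℝ) =
      c' / (12 * W) * (lam * Real.log ((100 * x : ℕ) : ℝ)) := by ring
    rw [h4]
    have h5 : c' / (12 * W) * (lam * Real.log ((100 * x : ℕ) : ℝ)) ≤ c' / (12 * W) * (2 * T) :=
      mul_le_mul_of_nonneg_left h3 (by positivity)
    have h6 : c' / (12 * W) * (2 * T) = c' * (T / (2 * W)) / 3 := by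
      field_simp
      ring
    linarith
  -- the element `c*`
  obtain ⟨cs, hcs⟩ : ∃ cs : ℤ, cs = c₁ + W * x₀ + W * q * ((T₁ : ℤ) - 1) := ⟨_, rfl⟩
  have hWx : (W : ℤ) * x₀ + W * (q * T₁) ≤ (T : ℤ) - 1 - i := by
    have h3 : (((x₀ + q * T₁) * W : ℕ) : ℤ) ≤ ((T - 1 - i : ℕ) : ℤ) := by exact_mod_cast hWqT
    have h4 : ((T - 1 - i : ℕ) : ℤ) = (T : ℤ) - 1 - i := by omega
    rw [h4] at h3
    push_cast at h3
    linarith
  have hWq0 : 0 ≤ (W : ℤ) * q * ((T₁ : ℤ) - 1) := by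
    have : (0 : ℤ) ≤ (T₁ : ℤ) - 1 := by omega
    positivity
  have hWq1 : (W : ℤ) * q * ((T₁ : ℤ) - 1) ≤ W * (q * T₁) := by
    have h3 : (0 : ℤ) ≤ (W : ℤ) * q := by positivity
    have h4 : (W : ℤ) * q * ((T₁ : ℤ) - 1) = W * (q * T₁) - W * q := by ring
    rw [h4]
    linarith
  have hWx0 : 0 ≤ (W : ℤ) * x₀ := by positivity
  have hcsA : Adl a b cs := by
    have h3 : cs = c₁ + (W : ℤ) * (x₀ + q * ((T₁ : ℤ) - 1)) := by rw [hcs]; ring
    rw [h3]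
    exact (FIN3.adl_add hW hMe _ _).2 hadl
  have hcsabs : |cs| ≤ x + T := by
    have h3 := abs_le.1 hu
    rw [abs_le]
    constructor
    · rw [hcs, hc₁]
      have : (0 : ℤ) ≤ T := by positivity
      have : (0 : ℤ) ≤ i := by positivity
      linarith [h3.1]
    · rw [hcs, hc₁]
      linarith [h3.2]
  obtain ⟨s, t, hst, ht0, htb⟩ := FIN3.exists_st hb hab cs
  have hbz : (1 : ℤ) ≤ b := by exact_mod_cast hb
  have haz : (1 : ℤ) ≤ a := by exact_mod_cast ha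
  have hs : |s| ≤ a + x + T := by
    have h3 : (b : ℤ) * |s| ≤ b * (a + x + T) := by
      have h4 : (b : ℤ) * |s| = |(b : ℤ) * s| := by
        rw [abs_mul, abs_of_nonneg (by linarith : (0 : ℤ) ≤ b)]
      have h5 : (b : ℤ) * s = a * t - cs := by linarith
      have h6 : |(a : ℤ) * t - cs| ≤ |(a : ℤ) * t| + |cs| := abs_sub _ _
      have h7 : |(a : ℤ) * t| ≤ a * b := by
        rw [abs_of_nonneg (by positivity)]
        exact mul_le_mul_of_nonneg_left htb.le (by linarith)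
      rw [h4, h5]
      have h8 : (0 : ℤ) ≤ (b - 1) * ((x : ℤ) + T) := by
        have : (0 : ℤ) ≤ (b : ℤ) - 1 := by linarith
        positivity
      linarith
    exact le_of_mul_le_mul_left h3 (by linarith)
  have hLc : Lc a b s t (100 * x) := by
    refine ⟨?_, ?_, ?_, ?_, ?_⟩
    · have h3 : IsCoprime (-((b : ℤ) * s) + (a : ℤ) * t) (a : ℤ) := by
        have : -((b : ℤ) * s) + (a : ℤ) * t = cs := by linarith
        rw [this]
        exact hcsA.1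
      have h4 := IsCoprime.add_mul_left_left_iff.1 h3
      rw [IsCoprime.neg_left_iff] at h4
      exact h4.of_mul_left_right
    · have h3 : IsCoprime ((a : ℤ) * t + (b : ℤ) * (-s)) (b : ℤ) := by
        have : (a : ℤ) * t + (b : ℤ) * (-s) = cs := by linarith
        rw [this]
        exact hcsA.2.1
      exact (IsCoprime.add_mul_left_left_iff.1 h3).of_mul_left_right
    · rw [hst]
      exact hcsA.2.2
    · push_cast
      omega
    · rw [abs_of_nonneg ht0]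
      push_cast
      omega
  have habn : a + b ≤ 2 * (a * b) := by
    have h3 : a ≤ a * b := Nat.le_mul_of_pos_right a hb
    have h4 : b ≤ a * b := Nat.le_mul_of_pos_left b ha
    linarith
  have hWqn : W * (q * T₁) ≤ T := by
    have h3 : W * (q * T₁) ≤ (x₀ + q * T₁) * W := by
      rw [mul_comm]
      exact Nat.mul_le_mul_right W (Nat.le_add_left _ _)
    omega
  have hsize : (a + b) * ((q * M₀) * T₁) ≤ 2 * T := by
    calc (a + b) * ((q * M₀) * T₁) ≤ (2 * (a * b)) * ((q * M₀) * T₁) := Nat.mul_le_mul_right _ habn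
      _ = 2 * (W * (q * T₁)) := by rw [hW]; ring
      _ ≤ 2 * T := by omega
  have hclq' := hx1 q T₁ s t hq hqQ hlamT hLc (by
    calc 100 * (a + b) * ((q * M₀) * T₁) = 100 * ((a + b) * ((q * M₀) * T₁)) := by ring
      _ ≤ 100 * (2 * T) := Nat.mul_le_mul_left _ hsize
      _ ≤ 100 * x := by omega)
  -- sizes
  have hN9 : ((5 * (100 * x) / 9 : ℕ) : ℤ) ≤ 56 * x := by omega
  have hxz : (1000 : ℤ) ≤ x := by exact_mod_cast hx4
  have hax : (2 : ℤ) * a + 2 * b ≤ x := by exact_mod_cast hx5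
  have hTx : (1000 : ℤ) * T ≤ x := by exact_mod_cast hT2
  have hsle : s ≤ a + x + T := (le_abs_self s).trans hs
  have hsz : ((a : ℤ) + b) * (((q * M₀ : ℕ) : ℤ) * T₁) ≤ 2 * T := by exact_mod_cast hsize
  have hqMT : 0 ≤ ((q * M₀ : ℕ) : ℤ) * T₁ := by positivity
  have hx0 : (0 : ℤ) ≤ x := by linarith
  have haxx : (x : ℤ) ≤ a * x := le_mul_of_one_le_left hx0 haz
  have hbxx : (x : ℤ) ≤ b * x := le_mul_of_one_le_left hx0 hbz
  have hax0 : 0 ≤ (a : ℤ) * (((q * M₀ : ℕ) : ℤ) * T₁) := by positivity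
  have hbx0 : 0 ≤ (b : ℤ) * (((q * M₀ : ℕ) : ℤ) * T₁) := by positivity
  have g1 : (a : ℤ) * ((5 * (100 * x) / 9 : ℕ) : ℤ) + s + a * ((q * M₀ : ℕ) : ℤ) * T₁ ≤
      ((100 * a * x : ℕ) : ℤ) := by
    have h3 : (a : ℤ) * ((5 * (100 * x) / 9 : ℕ) : ℤ) ≤ a * (56 * x) :=
      mul_le_mul_of_nonneg_left hN9 (by linarith)
    have h4 : (a : ℤ) * (((q * M₀ : ℕ) : ℤ) * T₁) ≤ 2 * T := by linarith
    push_cast at h3 h4 ⊢
    linarith
  have g2 : (a : ℤ) * ((5 * (100 * x) / 9 : ℕ) : ℤ) + s + a * ((q * M₀ : ℕ) : ℤ) * T₁ ≤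
      ((100 * (a + b) * x : ℕ) : ℤ) := by
    refine g1.trans ?_
    have : 100 * a * x ≤ 100 * (a + b) * x := Nat.mul_le_mul_right x (by omega)
    exact_mod_cast this
  have g3 : (b : ℤ) * ((5 * (100 * x) / 9 : ℕ) : ℤ) + t + b * ((q * M₀ : ℕ) : ℤ) * T₁ ≤
      ((100 * (a + b) * x : ℕ) : ℤ) := by
    have h3 : (b : ℤ) * ((5 * (100 * x) / 9 : ℕ) : ℤ) ≤ b * (56 * x) :=
      mul_le_mul_of_nonneg_left hN9 (by linarith)
    have h4 : (b : ℤ) * (((q * M₀ : ℕ) : ℤ) * T₁) ≤ 2 * T := by linarith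
    have h5 : (0 : ℤ) ≤ a * x := by positivity
    push_cast at h3 h4 ⊢
    linarith
  obtain ⟨w, hw⟩ : ∃ w, w = T₁ / 50 := ⟨_, rfl⟩
  have hqM : 1 ≤ q * M₀ := Nat.mul_pos hq hM
  have haT : a * (q * M₀) * T₁ ≤ T := by
    calc a * (q * M₀) * T₁ ≤ a * (q * M₀) * (b * T₁) :=
            Nat.mul_le_mul_left _ (Nat.le_mul_of_pos_left T₁ hb)
        _ = W * (q * T₁) := by rw [hW]; ring
        _ ≤ T := hWqn
  have hbT : b * (q * M₀) * T₁ ≤ T := by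
    calc b * (q * M₀) * T₁ ≤ b * (q * M₀) * (a * T₁) :=
            Nat.mul_le_mul_left _ (Nat.le_mul_of_pos_left T₁ ha)
        _ = W * (q * T₁) := by rw [hW]; ring
        _ ≤ T := hWqn
  have hcT : c' / (6 * W) * T ≤ T₁ := by
    have h6 : c' / (6 * W) * T = c' * (T / (2 * W)) / 3 := by
      field_simp
      ring
    rw [h6]
    linarith
  have hpow : (c' / (6 * W)) ^ (2 * k) * (T : ℝ) ^ (2 * k) ≤ (T₁ : ℝ) ^ (2 * k) := by
    rw [← mul_pow]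
    exact pow_le_pow_left₀ (by positivity) hcT _
  have hδT : ∀ δ' : ℝ, min δ₁ δ₂ ≤ δ' → δ * (T : ℝ) ^ (2 * k) ≤ δ' * (T₁ : ℝ) ^ (2 * k) := by
    intro δ' h
    rw [hδ, mul_assoc]
    exact mul_le_mul h hpow (by positivity) (hδm.le.trans h)
  have hm1 : min (min ε₁ ε₂) (ε / 4000) ≤ ε₁ := (min_le_left _ _).trans (min_le_left _ _)
  have hm2 : min (min ε₁ ε₂) (ε / 4000) ≤ ε₂ := (min_le_left _ _).trans (min_le_right _ _)
  have hT₁0' : T₀' ≤ T₁ := by omega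
  have hT₁0'' : T₀'' ≤ T₁ := by omega
  have hstep := step (a := a) (b := b) (M₀ := M₀) (W := W) (N := 100 * x) (Z := Z) (w := w)
    (X := 100 * a * x) (Y := 100 * (a + b) * x) (c₁ := c₁) (s := s) (t := t) (k := k) (T := T)
    (x := x) (κ := κ) (κ₀ := κ₀) (δ := δ) B ha hb hqM hW
    (fun r hr => by
      rw [hBdef] at hr
      have hr' : bad (c₁ + (W : ℤ) * r) := hr
      rw [hbad] at hr'
      exact hr')
    hcmp hε hε1 hm1 hm2 (min_le_right _ _) hτ hcc hT₁ hT₁100 hT₁τ (hδT δ₁ (min_le_left _ _))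
    (hδT δ₂ (min_le_right _ _)) haT hbT hρ hH hH2
    (hst.trans hcs) hclq' (hcore T₁ (by omega))
    (fun A C U Gd Gv => hcb1 T₁ A C U Gd Gv hT₁0')
    (fun A Gd Gv => hcb2 T₁ A Gd Gv hT₁0'') hw g1 g2 g3
  have hfinal : ∀ q₂ : ℕ, 1 ≤ q₂ → q₂ ≤ (a + b) * (Q * M₀) → q₂ * w ≤ T →
      (((Icc 1 w).filter (fun h : ℕ => ¬ RichP (2 * k) δ κ T x (100 * (a + b) * x) (q₂ * h))).card : ℝ) ≤
        ε * w →
      ∃ q X : ℕ, 1 ≤ q ∧ q ≤ (a + b) * (Q * M₀) ∧ c' / (600 * W) * T ≤ (X : ℝ) ∧ X ≤ T ∧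
      (((Icc 1 X).filter (fun d => q ∣ d ∧ ¬ RichP (2 * k) δ κ T x (100 * (a + b) * x) d)).card : ℝ) ≤
          ε * (X / q) := by
    intro q₂ h1 h2 h3 h4
    refine ⟨q₂, q₂ * w, h1, h2, ?_, h3, ?_⟩
    · have h5 : (T₁ : ℝ) ≤ 100 * w := by
        have : T₁ ≤ 100 * w := by omega
        exact_mod_cast this
      have h6 : c' / (600 * W) * T = c' * (T / (2 * W)) / 300 := by
        field_simp
        ring
      rw [h6]
      have h7 : (w : ℝ) ≤ ((q₂ * w : ℕ) : ℝ) := by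
        have : w ≤ q₂ * w := Nat.le_mul_of_pos_left w h1
        exact_mod_cast this
      linarith
    · rw [FIN2.mult_card h1]
      refine h4.trans (le_of_eq ?_)
      have h5 : (q₂ : ℝ) ≠ 0 := by
        have : q₂ ≠ 0 := by omega
        exact_mod_cast this
      rw [Nat.cast_mul q₂ w, mul_div_cancel_left₀ _ h5]
  have hwT : w ≤ T₁ := by omega
  rcases hstep with h | h
  · refine hfinal (a * (q * M₀)) (Nat.mul_pos ha hqM) ?_ ?_ h
    · exact Nat.mul_le_mul (by omega) (Nat.mul_le_mul_right M₀ hqQ)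
    · exact (Nat.mul_le_mul_left _ hwT).trans haT
  · refine hfinal (b * (q * M₀)) (Nat.mul_pos hb hqM) ?_ ?_ h
    · exact Nat.mul_le_mul (by omega) (Nat.mul_le_mul_right M₀ hqQ)
    · exact (Nat.mul_le_mul_left _ hwT).trans hbT

end FINL

open Classical in
theorem t_FINL : S_CLQL → S_INC → S_CORE2 → S_CB1 → S_CB2 → S_FINL := by
  intro hCLQ hINC hCORE hCB1 hCB2 a b ha hb hab hne k ε hε
  obtain ⟨Q, c₀, δ, hc₀, hδ, h⟩ := FINL.main a b ha hb hab hne k (min ε (1 / 1000))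
    (lt_min hε (by norm_num)) (min_le_right _ _) hCLQ hINC hCORE hCB1 hCB2
  refine ⟨Q, c₀, δ, hc₀, hδ, fun lam hlam => ?_⟩
  obtain ⟨κ, hκ, hev⟩ := h lam hlam
  refine ⟨κ, hκ, ?_⟩
  filter_upwards [hev] with x hx T hT1 hT2
  rcases hx T hT1 hT2 with h1 | ⟨q, X, h1, h2, h3, h4, h5⟩
  · left
    intro u hu
    refine (h1 u hu).trans ?_
    refine mul_le_mul_of_nonneg_right ?_ (by positivity)
    have := min_le_left ε (1 / 1000)
    linarith
  · right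
    refine ⟨q, X, h1, h2, h3, h4, h5.trans ?_⟩
    refine mul_le_mul_of_nonneg_right (min_le_left _ _) (by positivity)

end Pool.Agent.N679.RG
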