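import Pool.Agent.N679.RG.All2
import Pool.Agent.N679.RG.ABSK
import Pool.Agent.N679.RG.MOM3
import Pool.Agent.N679.RG.HIT3
import Pool.Agent.N679.RG.CLQL
import Pool.Agent.N679.RG.CB1
import Pool.Agent.N679.RG.CB2
import Pool.Agent.N679.RG.FINL

/-!
# Project RN3: assembly

Blueprint: helper679. Parts: ABSK (helper34, after ABS by helper278), MOM3 (helper570, after MOM2 by helper588), HIT3
(helper679, after HIT4 by helper394 and HIT2 by helper617), CLQL (helper263, after CLQW by helper693), CB1 (helper982),
CB2 (helper78), FINL (helper239, after FIN3 by helper678), and the parts of project RH (see `All2.lean`).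
-/

set_option autoImplicit false

namespace Pool.Agent.N679.RG

theorem finl : S_FINL :=
  t_FINL (t_CLQL t_HIT3 (t_MOM3 (Pool.Agent.N692.RQWB.main Pool.Agent.N592.RQ.main)) t_ABSK
    (Pool.Agent.N415.RQBB.main Pool.Agent.N592.RQ.main) (Pool.Agent.N591.RQ.main Pool.Agent.N595.RQ.main))
    t_INC core2 t_CB1 t_CB2

end Pool.Agent.N679.RG
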