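import Pool.Agent.N679.RG.Stm5

/-!
# Project RN: the final forms of the theorems (with the factor `m / φ(m)`)
-/

set_option autoImplicit false

namespace Pool.Agent.N679.RG

open Finset Filter Topology

/-- few `m` have `m / φ(m) > C` in every window of length `lam log x` -/
def S_PHI : Prop := ∀ ε lam : ℝ, 0 < ε → 0 < lam → ∃ C : ℝ, 0 < C ∧ ∀ᶠ x : ℕ in atTop, ∀ T : ℕ,
  lam * Real.log x ≤ T → T ≤ x →
    (((Ioc x (x + T)).filter (fun m : ℕ => C * (Nat.totient m : ℝ) < m)).card : ℝ) ≤ ε * T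

open Classical in
/-- as `RichG`, with the factor `m / φ(m)` -/
def RichG' (k : ℕ) (δ κ : ℝ) (T m : ℕ) : Prop :=
  δ * (T : ℝ) ^ (2 * k) ≤ (((vecs k T ×ˢ vecs k T).filter (fun v =>
    κ * ((m : ℝ) ^ 2 / (Nat.totient m * (Real.log m) ^ (2 * k + 2))) ≤ (gV m v.1 v.2 : ℝ))).card : ℝ)

open Classical in
/-- as `RichD` (primes `p ≤ x`), with the factor `d / φ(d)` -/
def RichD' (k : ℕ) (δ κ : ℝ) (T x d : ℕ) : Prop :=
  δ * (T : ℝ) ^ (2 * k) ≤ (((vecs k T ×ˢ vecs k T).filter (fun v =>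
    κ * ((d : ℝ) / Nat.totient d * (x / (Real.log x) ^ (2 * k + 2))) ≤ (dV x d v.1 v.2 : ℝ))).card : ℝ)

theorem memf' {α : Type*} {s : Finset α} {p : α → Prop} {h : DecidablePred p} {a : α} :
    a ∈ @Finset.filter α p h s ↔ a ∈ s ∧ p a := by
  rw [Finset.mem_filter]

theorem card_even (x T : ℕ) : ((T : ℝ) - 1) / 2 ≤ (((Ioc x (x + T)).filter (fun m : ℕ => Even m)).card : ℝ) := by
  have h1 : T / 2 ≤ ((Ioc x (x + T)).filter (fun m : ℕ => Even m)).card := by
    have h2 : ((range (T / 2)).image (fun i => 2 * (x / 2 + 1 + i))).card = T / 2 := by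
      rw [card_image_of_injective _ (fun a b h => by
        have h' : 2 * (x / 2 + 1 + a) = 2 * (x / 2 + 1 + b) := h
        omega), card_range]
    rw [← h2]
    apply card_le_card
    intro m hm
    obtain ⟨i, hi, rfl⟩ := mem_image.1 hm
    have hi' := mem_range.1 hi
    rw [mem_filter, mem_Ioc]
    exact ⟨⟨by omega, by omega⟩, even_two_mul _⟩
  have h3 : T ≤ 2 * (T / 2) + 1 := by omega
  have h4 : (T : ℝ) ≤ 2 * ((T / 2 : ℕ) : ℝ) + 1 := by exact_mod_cast h3
  have h5 : ((T / 2 : ℕ) : ℝ) ≤ (((Ioc x (x + T)).filter (fun m : ℕ => Even m)).card : ℝ) := by exact_mod_cast h1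
  linarith

open Classical in
/-- from the bad to the good elements of a window -/
theorem good_of_bad (x T : ℕ) (ε C : ℝ) (R R' : ℕ → Prop) (hT : 2 ≤ ε * T)
    (h1 : (((Ioc x (x + T)).filter (fun m => Even m ∧ ¬ R m)).card : ℝ) ≤ (2 / 9 + ε / 8) * T)
    (h2 : (((Ioc x (x + T)).filter (fun m : ℕ => C * (Nat.totient m : ℝ) < m)).card : ℝ) ≤ ε / 8 * T)
    (h3 : ∀ m ∈ Ioc x (x + T), (m : ℝ) ≤ C * (Nat.totient m : ℝ) → R m → R' m) :
    (5 / 9 - ε) * (T / 2) ≤ (((Ioc x (x + T)).filter (fun m => Even m ∧ R' m)).card : ℝ) := by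
  have h4 : ((Ioc x (x + T)).filter (fun m : ℕ => Even m)) ⊆
      ((Ioc x (x + T)).filter (fun m => Even m ∧ R' m)) ∪
      (((Ioc x (x + T)).filter (fun m => Even m ∧ ¬ R m)) ∪
      ((Ioc x (x + T)).filter (fun m : ℕ => C * (Nat.totient m : ℝ) < m))) := by
    intro m hm
    rw [memf'] at hm
    rw [mem_union, mem_union, memf', memf', memf']
    by_cases hR : R m
    · by_cases hC : C * (Nat.totient m : ℝ) < m
      · exact Or.inr (Or.inr ⟨hm.1, hC⟩)
      · exact Or.inl ⟨hm.1, hm.2, h3 m hm.1 (not_lt.1 hC) hR⟩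
    · exact Or.inr (Or.inl ⟨hm.1, hm.2, hR⟩)
  have h5 := card_le_card h4
  have h6 : ((Ioc x (x + T)).filter (fun m : ℕ => Even m)).card ≤
      ((Ioc x (x + T)).filter (fun m => Even m ∧ R' m)).card +
      (((Ioc x (x + T)).filter (fun m => Even m ∧ ¬ R m)).card +
      ((Ioc x (x + T)).filter (fun m : ℕ => C * (Nat.totient m : ℝ) < m)).card) :=
    h5.trans ((card_union_le _ _).trans (Nat.add_le_add_left (card_union_le _ _) _))
  have h7 : (((Ioc x (x + T)).filter (fun m : ℕ => Even m)).card : ℝ) ≤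
      (((Ioc x (x + T)).filter (fun m => Even m ∧ R' m)).card : ℝ) +
      ((((Ioc x (x + T)).filter (fun m => Even m ∧ ¬ R m)).card : ℝ) +
      (((Ioc x (x + T)).filter (fun m : ℕ => C * (Nat.totient m : ℝ) < m)).card : ℝ)) := by
    exact_mod_cast h6
  have h8 := card_even x T
  nlinarith

open Classical in
theorem RichP_mono {k : ℕ} {δ κ κ' : ℝ} {T x x' y y' d : ℕ} (h : RichP k δ κ T x y d)
    (hκ : κ' * (x' / (Real.log x') ^ (k + 2)) ≤ κ * (x / (Real.log x) ^ (k + 2))) (hy : y ≤ y') :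
    RichP k δ κ' T x' y' d := by
  unfold RichP at h ⊢
  refine h.trans ?_
  rw [Nat.cast_le]
  apply card_le_card
  intro g hg
  rw [memf'] at hg ⊢
  refine ⟨hg.1, hg.2.1, hκ.trans (hg.2.2.trans ?_)⟩
  rw [Nat.cast_le]
  unfold pV
  apply card_le_card
  apply filter_subset_filter
  exact Icc_subset_Icc_right hy

open Classical in
/-- sums -/
theorem conclG (H : S_FINK) (P : S_PHI) : ∀ (k : ℕ) (ε : ℝ), 0 < ε → ∃ (Q : ℕ) (c δ : ℝ), 0 < c ∧ 0 < δ ∧
    ∀ lam : ℝ, 0 < lam → ∃ κ : ℝ, 0 < κ ∧ ∀ᶠ x : ℕ in atTop, ∀ T : ℕ, lam * Real.log x ≤ T → 1000 * T ≤ x →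
      (5 / 9 - ε) * (T / 2) ≤ (((Ioc x (x + T)).filter (fun m => Even m ∧ RichG' k δ κ T m)).card : ℝ) ∨
      ∃ q X : ℕ, 1 ≤ q ∧ q ≤ Q ∧ c * T ≤ (X : ℝ) ∧ X ≤ T ∧
        (((Icc 1 X).filter (fun d => q ∣ d ∧ ¬ RichP (2 * k) δ κ T x (2 * x) d)).card : ℝ) ≤ ε * (X / q) := by
  intro k ε hε
  obtain ⟨Q, c, δ, hc, hδ, H1⟩ := H k (ε / 8) (by positivity)
  refine ⟨Q, c, δ, hc, hδ, fun lam hlam => ?_⟩
  obtain ⟨κ, hκ, H2⟩ := H1 lam hlam
  obtain ⟨C, hC, H3⟩ := P (ε / 8) lam (by positivity) hlam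
  have hC1 : (1 : ℝ) ≤ max C 1 := le_max_right _ _
  have hC0 : (0 : ℝ) < max C 1 := by linarith
  refine ⟨κ / max C 1, by positivity, ?_⟩
  have hlog : Tendsto (fun N : ℕ => lam * Real.log (N : ℝ)) atTop atTop :=
    (Real.tendsto_log_atTop.comp tendsto_natCast_atTop_atTop).const_mul_atTop hlam
  filter_upwards [H2, H3, hlog.eventually_ge_atTop (2 / ε), eventually_ge_atTop 3] with x h2 h3 h4 h5 T hT1 hT2
  have hκ' : κ / max C 1 ≤ κ := div_le_self hκ.le hC1
  rcases h2 T hT1 hT2 with h | ⟨q, X, hq1, hq2, hX1, hX2, h⟩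
  · left
    refine good_of_bad x T ε C (RichG k δ κ T) _ ?_ h (h3 T hT1 (by omega)) ?_
    · have : 2 / ε ≤ T := h4.trans hT1
      rwa [div_le_iff₀' hε] at this
    · intro m hm hmC hR
      unfold RichG at hR
      unfold RichG'
      refine hR.trans ?_
      rw [Nat.cast_le]
      apply card_le_card
      intro v hv
      rw [memf'] at hv ⊢
      refine ⟨hv.1, le_trans ?_ hv.2⟩
      have hm1 : 3 < m := lt_of_le_of_lt h5 (mem_Ioc.1 hm).1
      have hm0 : (0 : ℝ) < m := by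
        have : 0 < m := by omega
        exact_mod_cast this
      have hφ : (0 : ℝ) < Nat.totient m := by
        have : 0 < Nat.totient m := Nat.totient_pos.2 (by omega)
        exact_mod_cast this
      have hl : 0 < Real.log (m : ℝ) := Real.log_pos (by
        have : (1 : ℕ) < m := by omega
        exact_mod_cast this)
      have e : κ / max C 1 * ((m : ℝ) ^ 2 / (Nat.totient m * (Real.log m) ^ (2 * k + 2))) =
          (κ * (m / (Real.log m) ^ (2 * k + 2))) * ((m : ℝ) / (max C 1 * Nat.totient m)) := by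
        field_simp
      rw [e]
      apply mul_le_of_le_one_right (by positivity)
      rw [div_le_one (by positivity)]
      refine hmC.trans ?_
      exact mul_le_mul_of_nonneg_right (le_max_left _ _) hφ.le
  · right
    refine ⟨q, X, hq1, hq2, hX1, hX2, ?_⟩
    have h6 : (((Icc 1 X).filter (fun d => q ∣ d ∧ ¬ RichP (2 * k) δ (κ / max C 1) T x (2 * x) d)).card : ℝ) ≤
        (((Icc 1 X).filter (fun d => q ∣ d ∧ ¬ RichP (2 * k) δ κ T x (2 * x) d)).card : ℝ) := by
      rw [Nat.cast_le]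
      apply card_le_card
      intro d hd
      rw [memf'] at hd ⊢
      refine ⟨hd.1, hd.2.1, fun h7 => hd.2.2 (RichP_mono h7 ?_ le_rfl)⟩
      exact mul_le_mul_of_nonneg_right hκ' (by
        have : 0 ≤ Real.log (x : ℝ) := Real.log_natCast_nonneg x
        positivity)
    refine h6.trans (h.trans ?_)
    have : (0 : ℝ) ≤ (X : ℝ) / q := by positivity
    nlinarith

open Classical in
/-- differences -/
theorem conclD (H : S_FINW) (P : S_PHI) : ∀ (k : ℕ) (ε : ℝ), 0 < ε → ∃ (Q : ℕ) (c δ : ℝ), 0 < c ∧ 0 < δ ∧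
    ∀ lam : ℝ, 0 < lam → ∃ κ : ℝ, 0 < κ ∧ ∀ᶠ x : ℕ in atTop, ∀ T : ℕ, lam * Real.log x ≤ T →
      (∀ u : ℕ, 2 * T ≤ u → 100 * u ≤ x →
        (5 / 9 - ε) * (T / 2) ≤ (((Ioc u (u + T)).filter (fun d => Even d ∧ RichD' k δ κ T x d)).card : ℝ)) ∨
      ∃ q X : ℕ, 1 ≤ q ∧ q ≤ Q ∧ c * T ≤ (X : ℝ) ∧ X ≤ T ∧
        (((Icc 1 X).filter (fun d => q ∣ d ∧ ¬ RichP (2 * k) δ κ T x (2 * x) d)).card : ℝ) ≤ ε * (X / q) := by
  intro k ε hε
  obtain ⟨Q, c, δ, hc, hδ, H1⟩ := H k (ε / 8) (by positivity)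
  refine ⟨Q, c, δ, hc, hδ, fun lam hlam => ?_⟩
  obtain ⟨κ, hκ, H2⟩ := H1 lam hlam
  obtain ⟨C, hC, H3⟩ := P (ε / 8) lam (by positivity) hlam
  obtain ⟨U, H3⟩ := eventually_atTop.1 H3
  have hC1 : (1 : ℝ) ≤ max C 1 := le_max_right _ _
  have hC0 : (0 : ℝ) < max C 1 := by linarith
  refine ⟨κ / 200 / max C 1, by positivity, ?_⟩
  have hlog : Tendsto (fun N : ℕ => lam * Real.log (N : ℝ)) atTop atTop :=
    (Real.tendsto_log_atTop.comp tendsto_natCast_atTop_atTop).const_mul_atTop hlam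
  have ht : Tendsto (fun N : ℕ => N / 100) atTop atTop :=
    Nat.tendsto_div_const_atTop (by norm_num)
  filter_upwards [ht.eventually H2, hlog.eventually_ge_atTop (2 / ε), hlog.eventually_ge_atTop (U : ℝ),
    hlog.eventually_ge_atTop (3 : ℝ), eventually_ge_atTop 300] with x h2 h4 hU hU3 h5 T hT1
  -- comparison of `x` and `x / 100`
  have hx3 : 3 ≤ x / 100 := by omega
  have hxle : x / 100 ≤ x := Nat.div_le_self _ _
  have hl' : 0 < Real.log ((x / 100 : ℕ) : ℝ) := Real.log_pos (by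
    have : 1 < x / 100 := by omega
    exact_mod_cast this)
  have hll : Real.log ((x / 100 : ℕ) : ℝ) ≤ Real.log (x : ℝ) := by
    apply Real.log_le_log
    · have : 0 < x / 100 := by omega
      exact_mod_cast this
    · exact_mod_cast hxle
  have hl : 0 < Real.log (x : ℝ) := hl'.trans_le hll
  have hxx : (x : ℝ) ≤ 200 * ((x / 100 : ℕ) : ℝ) := by
    have : x ≤ 200 * (x / 100) := by omega
    exact_mod_cast this
  have hcmp : ∀ r : ℕ, κ / 200 * (x / (Real.log x) ^ r) ≤
      κ * (((x / 100 : ℕ) : ℝ) / (Real.log ((x / 100 : ℕ) : ℝ)) ^ r) := by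
    intro r
    have h6 : (x : ℝ) / (Real.log x) ^ r ≤ (200 * ((x / 100 : ℕ) : ℝ)) / (Real.log ((x / 100 : ℕ) : ℝ)) ^ r :=
      div_le_div₀ (by positivity) hxx (by positivity) (pow_le_pow_left₀ hl'.le hll r)
    calc κ / 200 * (x / (Real.log x) ^ r) ≤
        κ / 200 * ((200 * ((x / 100 : ℕ) : ℝ)) / (Real.log ((x / 100 : ℕ) : ℝ)) ^ r) :=
          mul_le_mul_of_nonneg_left h6 (by positivity)
      _ = _ := by ring
  rcases h2 T (le_trans (mul_le_mul_of_nonneg_left hll hlam.le) hT1) with h | ⟨q, X, hq1, hq2, hX1, hX2, h⟩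
  · left
    intro u hu1 hu2
    have hu3 : u ≤ x / 100 := by omega
    have hTU : U ≤ T := by
      have : (U : ℝ) ≤ T := hU.trans hT1
      exact_mod_cast this
    have hT3 : 3 ≤ T := by
      have : (3 : ℝ) ≤ T := hU3.trans hT1
      exact_mod_cast this
    have hlu : lam * Real.log (u : ℝ) ≤ T := by
      refine le_trans (mul_le_mul_of_nonneg_left ?_ hlam.le) hT1
      apply Real.log_le_log
      · have : 0 < u := by omega
        exact_mod_cast this
      · have : u ≤ x := by omega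
        exact_mod_cast this
    refine good_of_bad u T ε C (RichD k δ κ T (x / 100) (100 * (x / 100))) _ ?_ (h u hu1 hu3)
      (H3 u (by omega) T hlu (by omega)) ?_
    · have : 2 / ε ≤ T := h4.trans hT1
      rwa [div_le_iff₀' hε] at this
    · intro m hm hmC hR
      unfold RichD at hR
      unfold RichD'
      refine hR.trans ?_
      rw [Nat.cast_le]
      apply card_le_card
      intro v hv
      rw [memf'] at hv ⊢
      refine ⟨hv.1, ?_⟩
      have hm1 : 3 < m := by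
        have := (mem_Ioc.1 hm).1
        omega
      have hm0 : (0 : ℝ) < m := by
        have : 0 < m := by omega
        exact_mod_cast this
      have hφ : (0 : ℝ) < Nat.totient m := by
        have : 0 < Nat.totient m := Nat.totient_pos.2 (by omega)
        exact_mod_cast this
      have e : κ / 200 / max C 1 * ((m : ℝ) / Nat.totient m * (x / (Real.log x) ^ (2 * k + 2))) =
          (κ / 200 * (x / (Real.log x) ^ (2 * k + 2))) * ((m : ℝ) / (max C 1 * Nat.totient m)) := by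
        field_simp
      rw [e]
      refine le_trans (mul_le_of_le_one_right (by positivity) ?_) ((hcmp _).trans (hv.2.trans ?_))
      · rw [div_le_one (by positivity)]
        refine hmC.trans ?_
        exact mul_le_mul_of_nonneg_right (le_max_left _ _) hφ.le
      · rw [Nat.cast_le]
        unfold dV
        apply card_le_card
        apply filter_subset_filter
        exact Icc_subset_Icc_right (by omega)
  · right
    refine ⟨q, X, hq1, hq2, hX1, hX2, ?_⟩
    have h6 : (((Icc 1 X).filter (fun d => q ∣ d ∧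
        ¬ RichP (2 * k) δ (κ / 200 / max C 1) T x (2 * x) d)).card : ℝ) ≤
        (((Icc 1 X).filter (fun d => q ∣ d ∧
          ¬ RichP (2 * k) δ κ T (x / 100) (200 * (x / 100)) d)).card : ℝ) := by
      rw [Nat.cast_le]
      apply card_le_card
      intro d hd
      rw [memf'] at hd ⊢
      refine ⟨hd.1, hd.2.1, fun h7 => hd.2.2 (RichP_mono h7 ?_ (by omega))⟩
      refine le_trans (mul_le_mul_of_nonneg_right ?_ (by positivity)) (hcmp _)
      exact div_le_self (by positivity) hC1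
    refine h6.trans (h.trans ?_)
    have : (0 : ℝ) ≤ (X : ℝ) / q := by positivity
    nlinarith

end Pool.Agent.N679.RG
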