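import Mathlib
import Pool.Agent.N679.RG.FINW
import Pool.Agent.N679.RG.FinA

/-!
# Project RN6: prime pairs `p, p + d` with `k` more primes around `p` (one cluster), from CLQW, INC, CORE2, CB1, CB2
-/

set_option autoImplicit false

namespace Pool.Agent.N679.RG

open Finset Filter Topology

open Classical in
/-- **FINT**: as `FINW`, with one cluster. -/
def S_FINT : Prop := ∀ (k : ℕ) (ε : ℝ), 0 < ε → ∃ (Q : ℕ) (c δ : ℝ), 0 < c ∧ 0 < δ ∧ ∀ lam : ℝ, 0 < lam →
  ∃ κ : ℝ, 0 < κ ∧ ∀ᶠ x : ℕ in atTop, ∀ T : ℕ, lam * Real.log x ≤ T →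
    (∀ u : ℕ, 2 * T ≤ u → u ≤ x →
      (((Ioc u (u + T)).filter (fun d => Even d ∧ ¬ RichP k δ κ T x (100 * x) d)).card : ℝ) ≤
        (2 / 9 + ε) * T) ∨
    ∃ q X : ℕ, 1 ≤ q ∧ q ≤ Q ∧ c * T ≤ (X : ℝ) ∧ X ≤ T ∧
      (((Icc 1 X).filter (fun d => q ∣ d ∧ ¬ RichP k δ κ T x (200 * x) d)).card : ℝ) ≤ ε * (X / q)

namespace FINT

open FINW

/-- counting by fibres -/
theorem fibre {a m : ℕ} {α : Type*} [DecidableEq α] (σ : Fin a → Fin m) (hσ : Function.Injective σ)
    (S : Finset (Fin m → α)) (S' : Finset (Fin a → α)) (I : Finset α)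
    (h1 : ∀ v ∈ S, (fun i => v (σ i)) ∈ S') (h2 : ∀ v ∈ S, ∀ j, v j ∈ I) :
    S.card ≤ S'.card * I.card ^ (m - a) := by
  classical
  have hC : Fintype.card {j : Fin m // ¬ j ∈ Set.range σ} = m - a := by
    rw [Fintype.card_subtype_compl (fun j : Fin m => j ∈ Set.range σ), Fintype.card_fin]
    congr 1
    have := Set.card_range_of_injective hσ
    rw [Fintype.card_fin] at this
    exact this
  have h3 : S.card ≤ (S' ×ˢ Fintype.piFinset (fun _ : {j : Fin m // ¬ j ∈ Set.range σ} => I)).card := by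
    refine Finset.card_le_card_of_injOn (fun v => (fun i => v (σ i), fun j => v j.1)) ?_ ?_
    · intro v hv
      refine Finset.mem_coe.2 (Finset.mem_product.2 ⟨h1 v (Finset.mem_coe.1 hv), ?_⟩)
      rw [Fintype.mem_piFinset]
      intro j
      exact h2 v (Finset.mem_coe.1 hv) _
    · intro v _ v' _ h
      obtain ⟨h4, h5⟩ := Prod.mk.inj h
      funext j
      by_cases hj : j ∈ Set.range σ
      · obtain ⟨i, rfl⟩ := hj
        exact congrFun h4 i
      · exact congrFun h5 ⟨j, hj⟩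
  rw [Finset.card_product, Fintype.card_piFinset] at h3
  simp only [Finset.prod_const, Finset.card_univ, hC] at h3
  exact h3

/-- the bad long tuples -/
theorem bad_long {a m T : ℕ} {e : ℝ} (ham : a ≤ m) (pw : Finset (Bool × ℕ) → ℝ) (thr : ℝ)
    (hmono : ∀ J J' : Finset (Bool × ℕ), J ⊆ J' → pw J' ≤ pw J)
    {As : Finset (Bool × ℕ)} (hAs : As ⊆ (univ : Finset Bool) ×ˢ range T)
    (hbad : ((@Finset.filter _ (fun y => Function.Injective y ∧ pw (univ.image y) < thr)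
      (fun _ => Classical.propDecidable _) (Fintype.piFinset (fun _ : Fin a => As))).card : ℝ) ≤ e * (T : ℝ) ^ a) :
    ((@Finset.filter _ (fun y => Function.Injective y ∧
      ¬ ∀ J ⊆ univ.image y, J.card ≤ a → thr ≤ pw J)
      (fun _ => Classical.propDecidable _) (Fintype.piFinset (fun _ : Fin m => As))).card : ℝ) ≤
      (m : ℝ) ^ a * 2 ^ (m - a) * e * (T : ℝ) ^ m := by
  classical
  obtain ⟨S, hS⟩ : ∃ S, S = (@Finset.filter _ (fun y => Function.Injective y ∧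
      ¬ ∀ J ⊆ univ.image y, J.card ≤ a → thr ≤ pw J)
      (fun _ => Classical.propDecidable _) (Fintype.piFinset (fun _ : Fin m => As))) := ⟨_, rfl⟩
  obtain ⟨S', hS'⟩ : ∃ S', S' = (@Finset.filter _ (fun y => Function.Injective y ∧ pw (univ.image y) < thr)
      (fun _ => Classical.propDecidable _) (Fintype.piFinset (fun _ : Fin a => As))) := ⟨_, rfl⟩
  rw [← hS]
  rw [← hS'] at hbad
  have hAc : As.card ≤ 2 * T := by
    have := Finset.card_le_card hAs
    rw [Finset.card_product, Finset.card_range, Finset.card_univ, Fintype.card_bool] at this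
    exact this
  have h1 : S ⊆ (univ : Finset (Fin a → Fin m)).biUnion (fun σ =>
      (S.filter (fun y => Function.Injective σ ∧ (fun i => y (σ i)) ∈ S'))) := by
    intro y hy
    have hy' := hy
    rw [hS, memf'] at hy'
    obtain ⟨h2, h3, h4⟩ := hy'
    push Not at h4
    obtain ⟨J, hJ, hJa, hJt⟩ := h4
    have hca : (univ.image y).card = m := by
      rw [Finset.card_image_of_injective _ h3, Finset.card_univ, Fintype.card_fin]
    obtain ⟨J', hJ1, hJ2, hJ3⟩ := Finset.exists_subsuperset_card_eq hJ hJa (by rw [hca]; exact ham)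
    obtain ⟨I, hI⟩ : ∃ I : Finset (Fin m), I = univ.filter (fun j => y j ∈ J') := ⟨_, rfl⟩
    have hIJ : I.image y = J' := by
      ext u
      rw [Finset.mem_image]
      constructor
      · rintro ⟨j, hj, rfl⟩
        rw [hI, Finset.mem_filter] at hj
        exact hj.2
      · intro hu
        obtain ⟨j, _, hj⟩ := Finset.mem_image.1 (hJ2 hu)
        refine ⟨j, ?_, hj⟩
        rw [hI, Finset.mem_filter]
        exact ⟨Finset.mem_univ _, by rw [hj]; exact hu⟩
    have hIa : I.card = a := by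
      rw [← hJ3, ← hIJ, Finset.card_image_of_injective _ h3]
    have himg : univ.image (fun i => y (I.orderEmbOfFin hIa i)) = J' := by
      rw [← hIJ]
      ext u
      rw [Finset.mem_image, Finset.mem_image]
      constructor
      · rintro ⟨i, _, rfl⟩
        exact ⟨_, Finset.orderEmbOfFin_mem I hIa i, rfl⟩
      · rintro ⟨j, hj, rfl⟩
        have h5 : j ∈ Set.range (I.orderEmbOfFin hIa) := by
          rw [Finset.range_orderEmbOfFin]
          exact hj
        obtain ⟨i, hi⟩ := h5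
        exact ⟨i, Finset.mem_univ _, by rw [hi]⟩
    rw [Finset.mem_biUnion]
    refine ⟨fun i => I.orderEmbOfFin hIa i, Finset.mem_univ _, ?_⟩
    rw [Finset.mem_filter]
    refine ⟨hy, (I.orderEmbOfFin hIa).injective, ?_⟩
    rw [hS', memf']
    refine ⟨?_, h3.comp (I.orderEmbOfFin hIa).injective, ?_⟩
    · rw [Fintype.mem_piFinset] at h2 ⊢
      exact fun i => h2 _
    · show pw (univ.image (fun i => y (I.orderEmbOfFin hIa i))) < thr
      rw [himg]
      exact lt_of_le_of_lt (hmono _ _ hJ1) hJt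
  have h2 : ∀ σ : Fin a → Fin m, (S.filter (fun y => Function.Injective σ ∧ (fun i => y (σ i)) ∈ S')).card ≤
      S'.card * (2 * T) ^ (m - a) := by
    intro σ
    by_cases hσ : Function.Injective σ
    · refine (fibre σ hσ _ S' As ?_ ?_).trans (Nat.mul_le_mul_left _ (Nat.pow_le_pow_left hAc _))
      · intro v hv
        exact (Finset.mem_filter.1 hv).2.2
      · intro v hv j
        have := (Finset.mem_filter.1 hv).1
        rw [hS, memf', Fintype.mem_piFinset] at this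
        exact this.1 j
    · have : S.filter (fun y => Function.Injective σ ∧ (fun i => y (σ i)) ∈ S') = ∅ := by
        rw [Finset.filter_eq_empty_iff]
        intro y _ h
        exact hσ h.1
      rw [this, Finset.card_empty]
      exact Nat.zero_le _
  have h3 : S.card ≤ m ^ a * (S'.card * (2 * T) ^ (m - a)) := by
    refine (Finset.card_le_card h1).trans ?_
    refine (Finset.card_biUnion_le_card_mul _ _ _ (fun σ _ => h2 σ)).trans (le_of_eq ?_)
    rw [Finset.card_univ, Fintype.card_fun, Fintype.card_fin, Fintype.card_fin]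
  have h4 : (S.card : ℝ) ≤ (m : ℝ) ^ a * ((S'.card : ℝ) * (2 * T) ^ (m - a)) := by exact_mod_cast h3
  refine h4.trans ?_
  have h5 : (T : ℝ) ^ m = (T : ℝ) ^ a * (T : ℝ) ^ (m - a) := by
    rw [← pow_add]
    congr 1
    omega
  have h6 : (m : ℝ) ^ a * 2 ^ (m - a) * e * (T : ℝ) ^ m =
      (m : ℝ) ^ a * ((e * (T : ℝ) ^ a) * (2 * T) ^ (m - a)) := by
    rw [h5, mul_pow]
    ring
  rw [h6]
  refine mul_le_mul_of_nonneg_left ?_ (by positivity)
  exact mul_le_mul_of_nonneg_right hbad (by positivity)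

theorem pw_mono (s t : ℤ) (M N : ℕ) (J J' : Finset (Bool × ℕ)) (h : J ⊆ J') :
    (pwJ s t M N J' : ℝ) ≤ (pwJ s t M N J : ℝ) := by
  rw [Nat.cast_le]
  unfold pwJ
  apply Finset.card_le_card
  intro n hn
  obtain ⟨h1, h2⟩ := Finset.mem_filter.1 hn
  exact Finset.mem_filter.2 ⟨h1, fun u hu => h2 u (h hu)⟩

/-- the forms of one cluster and one more form -/
def one {k : ℕ} (T : ℕ) (y : Fin (k + 1) → ℤ) (z : ℤ) : Finset (Bool × ℕ) :=
  insert (true, z.toNat) (univ.image (fun i => (false, ((T : ℤ) - 1 - y i).toNat)))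

theorem one_card {k : ℕ} (T : ℕ) (y : Fin (k + 1) → ℤ) (z : ℤ) : (one T y z).card ≤ k + 2 := by
  unfold one
  refine (Finset.card_insert_le _ _).trans ?_
  have : (univ.image (fun i : Fin (k + 1) => ((false, ((T : ℤ) - 1 - y i).toNat) : Bool × ℕ))).card ≤ k + 1 := by
    refine Finset.card_image_le.trans (le_of_eq ?_)
    rw [Finset.card_univ, Fintype.card_fin]
  omega

theorem one_sub {k : ℕ} (T : ℕ) (y z : Fin (k + 1) → ℤ) : one T y (z 0) ⊆ univ.image (comb T y z) := by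
  intro u hu
  unfold one at hu
  rcases Finset.mem_insert.1 hu with rfl | hu
  · exact Finset.mem_image.2 ⟨(ee k).symm (Sum.inr 0), Finset.mem_univ _, by unfold comb; simp⟩
  · obtain ⟨i, _, rfl⟩ := Finset.mem_image.1 hu
    exact Finset.mem_image.2 ⟨(ee k).symm (Sum.inl i), Finset.mem_univ _, by unfold comb; simp⟩

/-- the cluster around `p`, and `p + d` -/
theorem pw_eV {k : ℕ} {t M N X T d : ℕ} (y : Fin (k + 1) → ℤ) (z : ℤ) (hy : ∀ i, y i ∈ Ico 0 (T : ℤ))
    (hz : z ∈ Ico 0 (T : ℤ)) (hX : 5 * N / 9 + M * T ≤ X)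
    (hd : (d : ℤ) = t - M * ((T : ℤ) - 1) + M * (y 0 + z)) :
    pwJ 0 (t : ℤ) M N (one T y z) ≤ pV X d (fun i => -((M : ℤ) * (y i.succ - y 0))) := by
  unfold pwJ pV
  refine Finset.card_le_card_of_injOn (fun n => n + M * ((T : ℤ) - 1 - y 0).toNat) ?_ ?_
  · intro n hn
    obtain ⟨hn0, hn2⟩ := Finset.mem_filter.1 (Finset.mem_coe.1 hn)
    have hn1 := (Finset.mem_Icc.1 hn0).2
    have h1 : ∀ i, (n + M * ((T : ℤ) - 1 - y i).toNat).Prime := by
      intro i
      have h2 := hn2 (false, ((T : ℤ) - 1 - y i).toNat) (by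
        unfold one
        exact Finset.mem_insert_of_mem (Finset.mem_image.2 ⟨i, Finset.mem_univ _, rfl⟩))
      rwa [fw_f0] at h2
    have h2 : (n + t + M * z.toNat).Prime := by
      have h2 := hn2 (true, z.toNat) (by
        unfold one
        exact Finset.mem_insert_self _ _)
      rwa [fw_t0] at h2
    have h3 : ∀ i, ((((T : ℤ) - 1 - y i).toNat : ℕ) : ℤ) = (T : ℤ) - 1 - y i := by
      intro i
      have := Finset.mem_Ico.1 (hy i)
      omega
    have h4 : ((z.toNat : ℕ) : ℤ) = z := by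
      have := Finset.mem_Ico.1 hz
      omega
    refine Finset.mem_coe.2 (Finset.mem_filter.2 ⟨Finset.mem_Icc.2 ⟨(h1 0).pos, ?_⟩, h1 0, ?_, ?_⟩)
    · have h5 : ((T : ℤ) - 1 - y 0).toNat ≤ T := by
        have := Finset.mem_Ico.1 (hy 0)
        omega
      have h6 := Nat.mul_le_mul_left M h5
      show n + M * ((T : ℤ) - 1 - y 0).toNat ≤ X
      omega
    · have h5 : ((n + M * ((T : ℤ) - 1 - y 0).toNat + d : ℕ) : ℤ) =
          ((n + t + M * z.toNat : ℕ) : ℤ) := by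
        push_cast
        rw [h3, h4, hd]
        ring
      have h6 : n + M * ((T : ℤ) - 1 - y 0).toNat + d = n + t + M * z.toNat := by
        exact_mod_cast h5
      show (n + M * ((T : ℤ) - 1 - y 0).toNat + d).Prime
      rw [h6]
      exact h2
    · intro i
      have h5 : ((n + M * ((T : ℤ) - 1 - y 0).toNat : ℕ) : ℤ) + -((M : ℤ) * (y i.succ - y 0)) =
          ((n + M * ((T : ℤ) - 1 - y i.succ).toNat : ℕ) : ℤ) := by
        push_cast
        rw [h3, h3]
        ring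
      show (((n + M * ((T : ℤ) - 1 - y 0).toNat : ℕ) : ℤ) +
        -((M : ℤ) * (y i.succ - y 0))).toNat.Prime
      rw [h5, Int.toNat_natCast]
      exact h1 i.succ
  · intro n _ n' _ h
    have h' : n + M * ((T : ℤ) - 1 - y 0).toNat = n' + M * ((T : ℤ) - 1 - y 0).toNat := h
    omega

theorem vecs_card {k T : ℕ} (hT : 1 ≤ T) : ((vecs k T).card : ℝ) ≤ (3 * (T : ℝ)) ^ k := by
  unfold vecs
  have h1 : ((Fintype.piFinset (fun _ : Fin k => Icc (-(T : ℤ)) T))).card = (2 * T + 1) ^ k := by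
    rw [Fintype.card_piFinset]
    simp only [Finset.prod_const, Finset.card_univ, Fintype.card_fin, Int.card_Icc]
    congr 1
    omega
  have h2 := (Finset.card_filter_le (Fintype.piFinset (fun _ : Fin k => Icc (-(T : ℤ)) T))
    (fun h => Function.Injective h ∧ ∀ i, h i ≠ 0))
  rw [h1] at h2
  have h3 : (2 * T + 1) ^ k ≤ (3 * T) ^ k := Nat.pow_le_pow_left (by omega) _
  exact_mod_cast h2.trans h3

open Classical in
/-- the theorem for small `ε` -/
theorem main (k : ℕ) (ε : ℝ) (hε : 0 < ε) (hε1 : ε ≤ 1 / 1000) (hCLQ : S_CLQW) (hINC : S_INC)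
    (hCORE : S_CORE2) (hCB1 : S_CB1) (hCB2 : S_CB2) :
    ∃ (Q : ℕ) (c δ : ℝ), 0 < c ∧ 0 < δ ∧ ∀ lam : ℝ, 0 < lam →
  ∃ κ : ℝ, 0 < κ ∧ ∀ᶠ x : ℕ in atTop, ∀ T : ℕ, lam * Real.log x ≤ T →
    (∀ u : ℕ, 2 * T ≤ u → u ≤ x →
      (((Ioc u (u + T)).filter (fun d => Even d ∧ ¬ RichP k δ κ T x (100 * x) d)).card : ℝ) ≤
        (2 / 9 + ε) * T) ∨
    ∃ q X : ℕ, 1 ≤ q ∧ q ≤ Q ∧ c * T ≤ (X : ℝ) ∧ X ≤ T ∧
      (((Icc 1 X).filter (fun d => q ∣ d ∧ ¬ RichP k δ κ T x (200 * x) d)).card : ℝ) ≤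
        ε * (X / q) := by
  obtain ⟨Z, T₀, cc, τ, hZ, hcc, hcc1, hτ, hcore⟩ := hCORE (ε / 4) (by positivity) (by linarith)
  obtain ⟨Q, c', hc', hinc⟩ := hINC (τ / 2) (cc / 3) Z (by positivity) (by positivity)
    (by linarith) hZ
  obtain ⟨ε₁, δ₁, T₂, hε₁, hδ₁, hcb1⟩ := hCB1 k (ε / 4) (τ / 2) (by positivity) (by positivity)
  obtain ⟨ε₂, δ₂, T₃, hε₂, hδ₂, hcb2⟩ := hCB2 (2 * k) ε hε
  obtain ⟨ee₀, hee₀⟩ : ∃ ee₀ : ℝ, ee₀ = ((2 * k + 2 : ℕ) : ℝ) ^ (k + 2) * 2 ^ (2 * k + 2 - (k + 2)) :=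
    ⟨_, rfl⟩
  have hee : 0 < ee₀ := by
    rw [hee₀]
    positivity
  have hmin : 0 < min (ε / 4) (min ε₁ ε₂) := lt_min (by positivity) (lt_min hε₁ hε₂)
  obtain ⟨M₀, hM, h2M, hclq⟩ := hCLQ (k + 1) (min (ε / 4) (min (ε / 4) (min ε₁ ε₂) / ee₀))
    (lt_min (by positivity) (by positivity))
  have hM0 : (0 : ℝ) < M₀ := by exact_mod_cast hM
  obtain ⟨δ, hδ⟩ : ∃ δ, δ = min δ₁ δ₂ * (c' / (9 * M₀)) ^ k := ⟨_, rfl⟩
  have hδ0 : 0 < δ := by
    rw [hδ]
    have : 0 < min δ₁ δ₂ := lt_min hδ₁ hδ₂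
    positivity
  refine ⟨Q * M₀, c' / 300, δ, by positivity, hδ0, fun lam hlam => ?_⟩
  obtain ⟨κ', hκ', hev⟩ := hclq Q (lam * c' / (8 * M₀)) (by positivity)
  obtain ⟨κ, hκ⟩ : ∃ κ, κ = κ' / 2 ^ (k + 2) := ⟨_, rfl⟩
  refine ⟨κ, by rw [hκ]; positivity, ?_⟩
  have htend : Tendsto (fun A : ℕ => 100 * A) atTop atTop :=
    tendsto_atTop_mono (fun A => show A ≤ 100 * A by omega) tendsto_id
  have hlog : Tendsto (fun A : ℕ => lam * Real.log A) atTop atTop :=
    (Real.tendsto_log_atTop.comp tendsto_natCast_atTop_atTop).const_mul_atTop hlam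
  filter_upwards [htend.eventually hev, hlog.eventually_ge_atTop ((M₀ : ℝ) / ε),
    hlog.eventually_ge_atTop ((3 * M₀) * (T₀ + T₂ + T₃ + 100 + 1 / (2 * τ)) / c'),
    hlog.eventually_ge_atTop (M₀ : ℝ), eventually_ge_atTop 1000]
    with x hA1 hA2 hA3 hA5 hA4 T hT1
  by_cases halt : (∀ u : ℕ, 2 * T ≤ u → u ≤ x →
      (((Ioc u (u + T)).filter (fun d => Even d ∧ ¬ RichP k δ κ T x (100 * x) d)).card : ℝ) ≤
        (2 / 9 + ε) * T)
  · exact Or.inl halt
  right
  push Not at halt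
  obtain ⟨u, hu1, hu2, halt⟩ := halt
  obtain ⟨N, hN⟩ : ∃ N, N = 100 * x := ⟨_, rfl⟩
  rw [← hN] at hA1
  have hTε : (M₀ : ℝ) / ε ≤ T := hA2.trans hT1
  have hTb : (3 * M₀) * (T₀ + T₂ + T₃ + 100 + 1 / (2 * τ)) / c' ≤ (T : ℝ) := hA3.trans hT1
  have hMT : M₀ ≤ T := by exact_mod_cast hA5.trans hT1
  have hcmp : κ * (x / (Real.log x) ^ (k + 2)) ≤ κ' * (N / (Real.log N) ^ (k + 2)) := by
    rw [hκ]
    exact cmp hκ' (by omega) hN
  -- the class
  obtain ⟨bad, hb⟩ : ∃ bad : ℕ → Prop, ∀ d, bad d ↔ ¬ RichP k δ κ T x (100 * x) d :=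
    ⟨_, fun _ => Iff.rfl⟩
  have hbc : ((Ioc u (u + T)).filter (fun d => Even d ∧ ¬ RichP k δ κ T x (100 * x) d)).card =
      ((Ioc u (u + T)).filter (fun d => Even d ∧ bad d)).card := by
    congr 1
    refine Finset.filter_congr ?_
    intro m _
    rw [hb m]
  rw [hbc] at halt
  obtain ⟨c₀, hc₀e, hc₀1, hc₀2, hc₀3⟩ := FIN2.pigeon (A := u) (T := T) hM h2M bad
    ((4 / 9 + 2 * ε) * T / M₀) (by
      refine lt_of_le_of_lt (le_of_eq ?_) halt
      field_simp
      ring)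
  obtain ⟨L, hL⟩ : ∃ L, L = T / M₀ + 1 := ⟨_, rfl⟩
  rw [← hL] at hc₀3
  have hL1 : (L : ℝ) ≤ T / M₀ + 1 := by
    rw [hL]
    push_cast
    have := @Nat.cast_div_le ℝ _ _ _ T M₀
    linarith
  have hL2 : (T : ℝ) / M₀ ≤ L := by
    rw [div_le_iff₀ hM0]
    have : T ≤ L * M₀ := by
      rw [hL, mul_comm]
      exact (Nat.lt_mul_div_succ T hM).le
    exact_mod_cast this
  have hρL : (4 / 9 + ε) * L ≤
      (((range L).filter (fun t : ℕ => bad (c₀ + M₀ * t))).card : ℝ) := by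
    refine le_trans ?_ hc₀3.le
    have h3 : (4 / 9 + ε) * (L : ℝ) ≤ (4 / 9 + ε) * (T / M₀ + 1) :=
      mul_le_mul_of_nonneg_left hL1 (by positivity)
    refine h3.trans ?_
    rw [div_le_iff₀ hε] at hTε
    rw [le_div_iff₀ hM0]
    have h4 : (4 / 9 + ε) * ((T : ℝ) / M₀ + 1) * M₀ = (4 / 9 + ε) * (T + M₀) := by
      field_simp
    rw [h4]
    nlinarith
  obtain ⟨q, x₀, H, ρ', hq, hqQ, hHL, hin, hρ, hH, hH2⟩ :=
    hinc L (fun t => bad (c₀ + M₀ * t)) (4 / 9 + ε) hρL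
  obtain ⟨T₁, hT₁⟩ : ∃ T₁, T₁ = H / 2 := ⟨_, rfl⟩
  have h1τ : 0 < 1 / (2 * τ) := by positivity
  have hTb' : T₀ + T₂ + T₃ + 100 + 1 / (2 * τ) ≤ c' * (T / M₀) / 3 := by
    rw [div_le_iff₀ hc'] at hTb
    rw [le_div_iff₀ (by norm_num : (0 : ℝ) < 3), mul_div_assoc', le_div_iff₀ hM0]
    linarith
  have hHb : c' * (T / M₀) ≤ H := (mul_le_mul_of_nonneg_left hL2 hc'.le).trans hHL
  have hT0r : (0 : ℝ) ≤ T₀ := by positivity
  have hT2r : (0 : ℝ) ≤ T₂ := by positivity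
  have hT3r : (0 : ℝ) ≤ T₃ := by positivity
  have hH2' : 2 ≤ H := by
    have : (2 : ℝ) ≤ H := by linarith
    exact_mod_cast this
  have hH3 : (H : ℝ) ≤ 3 * T₁ := by
    have : H ≤ 3 * T₁ := by omega
    exact_mod_cast this
  have hT₁b : T₀ + T₂ + T₃ + 100 + 1 / (2 * τ) ≤ (T₁ : ℝ) := by linarith
  have hT₁0 : T₀ ≤ T₁ := by
    have : (T₀ : ℝ) ≤ T₁ := by linarith
    exact_mod_cast this
  have hT₁2 : T₂ ≤ T₁ := by
    have : (T₂ : ℝ) ≤ T₁ := by linarith
    exact_mod_cast this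
  have hT₁3 : T₃ ≤ T₁ := by
    have : (T₃ : ℝ) ≤ T₁ := by linarith
    exact_mod_cast this
  have hT₁100 : 100 ≤ T₁ := by
    have : (100 : ℝ) ≤ T₁ := by linarith
    exact_mod_cast this
  have hT₁τ : 1 ≤ 2 * τ * T₁ := by
    have h3 : 1 / (2 * τ) ≤ (T₁ : ℝ) := by linarith
    rw [div_le_iff₀ (by positivity)] at h3
    linarith
  have hqT : x₀ + q * T₁ < L := hin T₁ (by omega)
  have hMqT : M₀ * x₀ + (q * M₀) * T₁ ≤ T := by
    have h3 : x₀ + q * T₁ ≤ T / M₀ := by omega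
    have h4 := (Nat.mul_le_mul_left M₀ h3).trans (Nat.mul_div_le T M₀)
    calc M₀ * x₀ + (q * M₀) * T₁ = M₀ * (x₀ + q * T₁) := by ring
      _ ≤ T := h4
  have hlamT : lam * c' / (8 * M₀) * Real.log N ≤ (T₁ : ℝ) := by
    have hlN : Real.log N ≤ 2 * Real.log x := by
      have hA1' : (1000 : ℝ) ≤ x := by exact_mod_cast hA4
      have hN2 : (N : ℝ) = 100 * x := by rw [hN]; push_cast; ring
      have : Real.log N ≤ Real.log ((x : ℝ) ^ 2) := by
        apply Real.log_le_log (by rw [hN2]; linarith)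
        rw [hN2]
        nlinarith
      rw [Real.log_pow] at this
      push_cast at this
      exact this
    have h3 : lam * Real.log N ≤ 2 * T := by
      have : lam * Real.log N ≤ lam * (2 * Real.log x) := mul_le_mul_of_nonneg_left hlN hlam.le
      linarith
    have h4 : lam * c' / (8 * M₀) * Real.log N = c' / (8 * M₀) * (lam * Real.log N) := by ring
    rw [h4]
    have h5 : c' / (8 * M₀) * (lam * Real.log N) ≤ c' / (8 * M₀) * (2 * T) :=
      mul_le_mul_of_nonneg_left h3 (by positivity)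
    have h6 : c' / (8 * M₀) * (2 * T) = c' * (T / M₀) / 4 := by
      field_simp
      ring
    have h7 : 0 ≤ c' * ((T : ℝ) / M₀) := by positivity
    linarith
  -- the scale of the vectors
  have hT₁pos : (0 : ℝ) < T₁ := by linarith
  have hδT : ∀ δ', min δ₁ δ₂ ≤ δ' →
      δ * (T : ℝ) ^ k * (3 * (T₁ : ℝ)) ^ k ≤ δ' * (T₁ : ℝ) ^ (2 * k) := by
    intro δ' hδ'
    have h3 : c' / (9 * M₀) * T * 3 ≤ (T₁ : ℝ) := by
      have h4 : c' / (9 * M₀) * T * 3 = c' * (T / M₀) / 3 := by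
        field_simp
        ring
      rw [h4]
      linarith
    have h4 : δ * (T : ℝ) ^ k * (3 * (T₁ : ℝ)) ^ k =
        min δ₁ δ₂ * ((c' / (9 * M₀) * T * 3) ^ k * (T₁ : ℝ) ^ k) := by
      rw [hδ]
      simp only [mul_pow]
      ring
    have h5 : (T₁ : ℝ) ^ (2 * k) = (T₁ : ℝ) ^ k * (T₁ : ℝ) ^ k := by
      rw [← pow_add]
      congr 1
      omega
    rw [h4, h5]
    refine mul_le_mul hδ' ?_ (by positivity) ?_
    · exact mul_le_mul_of_nonneg_right (pow_le_pow_left₀ (by positivity) h3 _) (by positivity)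
    · exact (lt_min hδ₁ hδ₂).le.trans hδ'
  -- the forms
  obtain ⟨M, hMM⟩ : ∃ M, M = q * M₀ := ⟨_, rfl⟩
  have hM1 : 1 ≤ M := by rw [hMM]; exact Nat.mul_pos hq hM
  rw [← hMM] at hMqT
  obtain ⟨tt, htt⟩ : ∃ tt : ℕ, tt = c₀ + M₀ * x₀ + M * (T₁ - 1) := ⟨_, rfl⟩
  have htt' : (tt : ℤ) = c₀ + M₀ * x₀ + M * ((T₁ : ℤ) - 1) := by
    rw [htt]
    push_cast
    rw [Nat.cast_sub (by omega)]
    push_cast
    ring
  have hMT₁ : M * (T₁ - 1) ≤ M * T₁ := Nat.mul_le_mul_left _ (by omega)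
  have htt2 : tt ≤ c₀ + T := by omega
  have htt3 : c₀ ≤ tt := by omega
  have htt6 : Even tt := by
    rw [htt]
    have h3 : Even M := by rw [hMM]; exact h2M.mul_left q
    exact (hc₀e.add (h2M.mul_right x₀)).add (h3.mul_right _)
  have hLe : Le T₁ M 0 (tt : ℤ) N := by
    refine ⟨?_, ?_, ?_, ?_⟩
    · rw [sub_zero]
      exact_mod_cast htt6
    · intro v v' hv _ h
      have h3 : M * v ≤ M * T₁ := Nat.mul_le_mul_left _ hv
      have h4 : M * v = tt + M * v' := by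
        rw [zero_add] at h
        exact_mod_cast h
      omega
    · simp
    · rw [Nat.abs_cast]
      omega
  have h200 : 200 * (M * T₁) ≤ N := by omega
  have hclq' := hA1 q T₁ 0 (tt : ℤ) hq hqQ hlamT
  rw [← hMM] at hclq'
  obtain ⟨As, hAs1, hAs2, hAs3⟩ := hclq' hLe h200
  obtain ⟨kk, hkk⟩ : ∃ kk : ℝ, kk = κ * (x / (Real.log x) ^ (k + 2)) := ⟨_, rfl⟩
  rw [← hkk] at hcmp
  obtain ⟨G, hG⟩ : ∃ G : Finset (Bool × ℕ) → Prop, ∀ J, G J ↔
    ∀ J' ⊆ J, J'.card ≤ k + 2 → κ' * (N / (Real.log N) ^ (k + 2)) ≤ (pwJ 0 (tt : ℤ) M N J' : ℝ) :=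
    ⟨_, fun _ => Iff.rfl⟩
  have hGk : ∀ J J', G J → J' ⊆ J → J'.card ≤ k + 2 → kk ≤ (pwJ 0 (tt : ℤ) M N J' : ℝ) := by
    intro J J' hJ h1 h2
    exact hcmp.trans ((hG J).1 hJ J' h1 h2)
  have hk22 : k ≤ 2 * k := by omega
  obtain ⟨Gv₁, hGv₁⟩ : ∃ Gv₁ : ℤ → (Fin k → ℤ) → (Fin k → ℤ) → Prop, ∀ r h h', Gv₁ r h h' ↔
    kk ≤ (pV (100 * x) (c₀ + M₀ * (x₀ + q * r.toNat)) (fun i => -((M : ℤ) * h i)) : ℝ) :=
    ⟨_, fun _ _ _ => Iff.rfl⟩
  obtain ⟨Gv₂, hGv₂⟩ : ∃ Gv₂ : ℤ → (Fin (2 * k) → ℤ) → Prop, ∀ r g, Gv₂ r g ↔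
    kk ≤ (pV (200 * x) ((M : ℤ) * r).toNat (fun i : Fin k => (M : ℤ) * g (Fin.castLE hk22 i)) : ℝ) :=
    ⟨_, fun _ _ => Iff.rfl⟩
  have hMZ : (M : ℤ) ≠ 0 := by
    have : M ≠ 0 := by omega
    exact_mod_cast this
  have hMT₁T : M * T₁ ≤ T := by omega
  have hMT₁Z : |(M : ℤ)| * T₁ ≤ T := by
    rw [Nat.abs_cast]
    exact_mod_cast hMT₁T
  have hMT₁Z' : |-(M : ℤ)| * T₁ ≤ T := by
    rw [abs_neg]
    exact hMT₁Z
  have hG1 : ∀ y z : Fin (k + 1) → ℤ, (∀ i, y i ∈ Ico 0 (T₁ : ℤ)) → (∀ i, z i ∈ Ico 0 (T₁ : ℤ)) →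
      G (univ.image (comb T₁ y z)) →
      Gv₁ (y 0 + z 0) (fun i => y i.succ - y 0) (fun i => z i.succ - z 0) := by
    intro y z hy hz h
    rw [hGv₁]
    have h3 := pw_eV (X := 100 * x) (t := tt) (M := M) (N := N) (T := T₁)
      (d := c₀ + M₀ * (x₀ + q * (y 0 + z 0).toNat)) y (z 0) hy (hz 0) (by omega) (by
        have h4 : (((y 0 + z 0).toNat : ℕ) : ℤ) = y 0 + z 0 := by
          have h5 := Finset.mem_Ico.1 (hy 0)
          have h6 := Finset.mem_Ico.1 (hz 0)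
          omega
        push_cast
        rw [h4, htt', hMM]
        push_cast
        ring)
    exact (hGk _ _ h (one_sub T₁ y z) (one_card T₁ y (z 0))).trans (by exact_mod_cast h3)
  have hk22' : k + 2 ≤ 2 * k + 2 := by omega
  have hG2 : ∀ (b : Bool) (y : Fin (2 * k + 2) → ℤ), (∀ i, y i ∈ Ico 0 (T₁ : ℤ)) →
      G (univ.image (fun i => (b, (y i).toNat))) →
      Gv₂ (y 1 - y 0) (fun i => y i.succ.succ - y 0) := by
    intro b y hy h
    rw [hGv₂]
    have h3 := pw_pV (X := 200 * x) (t := tt) (M := M) (N := N) (T := T₁) b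
      (fun i : Fin (k + 2) => y (Fin.castLE hk22' i)) (fun i => hy _) (by omega)
    have h4 : univ.image (fun i : Fin (k + 2) => (b, (y (Fin.castLE hk22' i)).toNat)) ⊆
        univ.image (fun i => (b, (y i).toNat)) := by
      intro u hu
      obtain ⟨i, _, rfl⟩ := Finset.mem_image.1 hu
      exact Finset.mem_image.2 ⟨_, Finset.mem_univ _, rfl⟩
    have h5 : (univ.image (fun i : Fin (k + 2) => (b, (y (Fin.castLE hk22' i)).toNat))).card ≤ k + 2 := by
      refine Finset.card_image_le.trans (le_of_eq ?_)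
      rw [Finset.card_univ, Fintype.card_fin]
    exact (hGk _ _ h h4 h5).trans (by exact_mod_cast h3)
  have hT₁1 : 1 ≤ T₁ := by omega
  have hvc := vecs_card (k := k) hT₁1
  have hB : ∀ t : ℕ, t < 2 * T₁ → bad (c₀ + M₀ * (x₀ + q * t)) →
      (((vecs k T₁ ×ˢ vecs k T₁).filter (fun v => Gv₁ (t : ℤ) v.1 v.2)).card : ℝ) ≤
        δ₁ * (T₁ : ℝ) ^ (2 * k) := by
    intro t _ hBt
    have h3 := (hb _).1 hBt
    unfold RichP at h3
    rw [not_le] at h3
    refine le_trans ?_ (hδT δ₁ (min_le_left _ _))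
    have h4 : ((vecs k T₁ ×ˢ vecs k T₁).filter (fun v => Gv₁ (t : ℤ) v.1 v.2)).card ≤
        ((vecs k T₁).filter (fun h => kk ≤ (pV (100 * x) (c₀ + M₀ * (x₀ + q * t))
          (fun i => -((M : ℤ) * h i)) : ℝ))).card * (vecs k T₁).card := by
      rw [← Finset.card_product]
      apply Finset.card_le_card
      rintro ⟨v, v'⟩ hv
      obtain ⟨h4, h5⟩ := Finset.mem_filter.1 hv
      obtain ⟨h6, h7⟩ := Finset.mem_product.1 h4
      refine Finset.mem_product.2 ⟨Finset.mem_filter.2 ⟨h6, ?_⟩, h7⟩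
      have h8 := (hGv₁ _ _ _).1 h5
      rw [Int.toNat_natCast] at h8
      exact h8
    have h5 : ((vecs k T₁).filter (fun h => kk ≤ (pV (100 * x) (c₀ + M₀ * (x₀ + q * t))
          (fun i => -((M : ℤ) * h i)) : ℝ))).card ≤
        ((vecs k T).filter (fun g => (∀ i, g i ≠ ((c₀ + M₀ * (x₀ + q * t) : ℕ) : ℤ)) ∧
          κ * (x / (Real.log x) ^ (k + 2)) ≤ (pV (100 * x) (c₀ + M₀ * (x₀ + q * t)) g : ℝ))).card := by
      refine Finset.card_le_card_of_injOn (fun v => (fun i => -((M : ℤ) * v i))) ?_ ?_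
      · intro v hv
        obtain ⟨h6, h7⟩ := Finset.mem_filter.1 (Finset.mem_coe.1 hv)
        have h8 := vecs_mul (neg_ne_zero.2 hMZ) hMT₁Z' h6
        have h9 : (fun i => -((M : ℤ) * v i)) = fun i => -(M : ℤ) * v i := by
          funext i
          ring
        have h10 : (fun i => -((M : ℤ) * v i)) ∈ vecs k T := by
          rw [h9]
          exact h8
        refine Finset.mem_coe.2 (Finset.mem_filter.2 ⟨h10, ?_, ?_⟩)
        · intro i h11
          have h12 := ((mem_vecs.1 h10).1 i).2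
          have h13 : -((M : ℤ) * v i) = ((c₀ + M₀ * (x₀ + q * t) : ℕ) : ℤ) := h11
          rw [h13] at h12
          have h14 : c₀ + M₀ * (x₀ + q * t) ≤ T := by exact_mod_cast h12
          have h15 : u < c₀ := hc₀1
          have h16 : c₀ ≤ c₀ + M₀ * (x₀ + q * t) := Nat.le_add_right _ _
          omega
        · rw [← hkk]
          exact h7
      · intro v _ v₂ _ h
        funext i
        have h6 := congrFun h i
        exact mul_left_cancel₀ hMZ (neg_injective h6)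
    have h6 : (((vecs k T₁ ×ˢ vecs k T₁).filter (fun v => Gv₁ (t : ℤ) v.1 v.2)).card : ℝ) ≤
        (((vecs k T).filter (fun g => (∀ i, g i ≠ ((c₀ + M₀ * (x₀ + q * t) : ℕ) : ℤ)) ∧
          κ * (x / (Real.log x) ^ (k + 2)) ≤ (pV (100 * x) (c₀ + M₀ * (x₀ + q * t)) g : ℝ))).card : ℝ) *
          ((vecs k T₁).card : ℝ) := by
      exact_mod_cast h4.trans (Nat.mul_le_mul_right _ h5)
    refine h6.trans ?_
    exact mul_le_mul h3.le hvc (by positivity) (by positivity)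
  have hAs3' : (((Fintype.piFinset (fun _ : Fin (2 * k + 1 + 1) => As)).filter (fun y =>
        Function.Injective y ∧ ¬ G (univ.image y))).card : ℝ) ≤
      min (ε / 4) (min ε₁ ε₂) * (T₁ : ℝ) ^ (2 * k + 1 + 1) := by
    have h3 := bad_long (a := k + 2) (m := 2 * k + 2) (T := T₁)
      (e := min (ε / 4) (min (ε / 4) (min ε₁ ε₂) / ee₀)) (by omega)
      (fun J => (pwJ 0 (tt : ℤ) M N J : ℝ)) (κ' * (N / (Real.log N) ^ (k + 2)))
      (pw_mono 0 (tt : ℤ) M N) hAs1 (by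
        refine le_trans ?_ hAs3
        norm_cast)
    have h4 : ((2 * k + 2 : ℕ) : ℝ) ^ (k + 2) * 2 ^ (2 * k + 2 - (k + 2)) *
        min (ε / 4) (min (ε / 4) (min ε₁ ε₂) / ee₀) * (T₁ : ℝ) ^ (2 * k + 2) ≤
        min (ε / 4) (min ε₁ ε₂) * (T₁ : ℝ) ^ (2 * k + 1 + 1) := by
      refine mul_le_mul_of_nonneg_right ?_ (by positivity)
      rw [← hee₀]
      refine (mul_le_mul_of_nonneg_left (min_le_right _ _) hee.le).trans (le_of_eq ?_)
      field_simp
    refine le_trans ?_ (h3.trans h4)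
    norm_cast
    refine Finset.card_le_card ?_
    intro y hy
    rw [memf'] at hy ⊢
    rw [hG] at hy
    exact hy
  have hee1 : 1 ≤ ee₀ := by
    rw [hee₀]
    have e1 : (1 : ℝ) ≤ ((2 * k + 2 : ℕ) : ℝ) ^ (k + 2) := one_le_pow₀ (by
      have : 1 ≤ 2 * k + 2 := by omega
      exact_mod_cast this)
    have e2 : (1 : ℝ) ≤ 2 ^ (2 * k + 2 - (k + 2)) := one_le_pow₀ (by norm_num)
    nlinarith
  have hAs2' : (5 / 9 - min (ε / 4) (min ε₁ ε₂)) * T₁ ≤ (As.card : ℝ) := by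
    refine le_trans (mul_le_mul_of_nonneg_right ?_ hT₁pos.le) hAs2
    have e1 := min_le_right (ε / 4) (min (ε / 4) (min ε₁ ε₂) / ee₀)
    have e2 := div_le_self hmin.le hee1
    linarith
  have hstep := step (k := k) (Z := Z) (fun t : ℕ => bad (c₀ + M₀ * (x₀ + q * t))) G Gv₁ Gv₂
    hG1 hG2 hB hε hε1 (min_le_left _ _) ((min_le_right _ _).trans (min_le_left _ _))
    ((min_le_right _ _).trans (min_le_right _ _)) hτ hcc hT₁ hT₁100 hT₁τ hρ hH hH2
    ⟨As, hAs1, hAs2', hAs3'⟩ (hcore T₁ hT₁0)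
    (fun A C U Gd Gv => hcb1 T₁ A C U Gd Gv hT₁2) (fun A Gd Gv => hcb2 T₁ A Gd Gv hT₁3)
  obtain ⟨w, hw⟩ : ∃ w, w = T₁ / 50 := ⟨_, rfl⟩
  rw [← hw] at hstep
  refine ⟨M, M * w, hM1, by rw [hMM]; exact Nat.mul_le_mul_right M₀ hqQ, ?_, ?_, ?_⟩
  · have h3 : (T₁ : ℝ) ≤ 100 * w := by
      have : T₁ ≤ 100 * w := by omega
      exact_mod_cast this
    have h4 : c' / 300 * T = M₀ * (c' * (T / M₀) / 300) := by
      field_simp
    rw [h4]
    have h5 : (M₀ : ℝ) * w ≤ ((M * w : ℕ) : ℝ) := by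
      have : M₀ * w ≤ M * w := Nat.mul_le_mul_right w (by
        rw [hMM]
        exact Nat.le_mul_of_pos_left M₀ hq)
      exact_mod_cast this
    refine le_trans ?_ h5
    refine mul_le_mul_of_nonneg_left ?_ hM0.le
    linarith
  · have h3 : M * w ≤ M * T₁ := Nat.mul_le_mul_left _ (by omega)
    omega
  · have h3 : (((M * w : ℕ) : ℝ)) / (M : ℝ) = w := by
      have : (M : ℝ) ≠ 0 := by
        have : M ≠ 0 := by omega
        exact_mod_cast this
      rw [Nat.cast_mul, mul_div_cancel_left₀ _ this]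
    rw [h3]
    refine le_trans ?_ hstep
    refine Nat.cast_le.2 ?_
    refine Finset.card_le_card_of_injOn (fun d => d / M) ?_ ?_
    · intro d hd
      obtain ⟨h4, ⟨h, rfl⟩, h5⟩ := Finset.mem_filter.1 (Finset.mem_coe.1 hd)
      have h6 : M * h / M = h := Nat.mul_div_cancel_left h (by omega)
      show M * h / M ∈ _
      rw [h6, Finset.mem_coe, Finset.mem_filter, Finset.mem_Icc]
      rw [Finset.mem_Icc] at h4
      refine ⟨⟨?_, Nat.le_of_mul_le_mul_left h4.2 (by omega)⟩, ?_⟩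
      · rcases Nat.eq_zero_or_pos h with h7 | h7
        · rw [h7] at h4
          omega
        · exact h7
      · by_contra hcon
        rw [not_lt] at hcon
        apply h5
        unfold RichP
        have h20 : ((vecs (2 * k) T₁).filter (fun g => (∀ i, g i ≠ (h : ℤ)) ∧ Gv₂ h g)).card ≤
            ((vecs k T₁).filter (fun g => (∀ i, g i ≠ (h : ℤ)) ∧
              kk ≤ (pV (200 * x) ((M : ℤ) * (h : ℤ)).toNat (fun i : Fin k => (M : ℤ) * g i) : ℝ))).card *
            (Icc (-(T₁ : ℤ)) T₁).card ^ (2 * k - k) := by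
          refine fibre (Fin.castLE hk22) (Fin.castLE_injective hk22) _ _ _ ?_ ?_
          · intro v hv
            obtain ⟨h7, h8, h9⟩ := Finset.mem_filter.1 hv
            rw [mem_vecs] at h7
            refine Finset.mem_filter.2 ⟨mem_vecs.2 ⟨fun i => h7.1 _,
              h7.2.1.comp (Fin.castLE_injective hk22), fun i => h7.2.2 _⟩, fun i => h8 _, ?_⟩
            exact (hGv₂ _ _).1 h9
          · intro v hv j
            obtain ⟨h7, -⟩ := Finset.mem_filter.1 hv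
            rw [mem_vecs] at h7
            exact Finset.mem_Icc.2 (h7.1 j)
        have h21 : ((Icc (-(T₁ : ℤ)) T₁).card : ℝ) ^ (2 * k - k) ≤ (3 * (T₁ : ℝ)) ^ k := by
          have e1 : 2 * k - k = k := by omega
          rw [e1]
          have e2 : (Icc (-(T₁ : ℤ)) T₁).card ≤ 3 * T₁ := by
            rw [Int.card_Icc]
            omega
          exact pow_le_pow_left₀ (by positivity) (by exact_mod_cast e2) _
        have h22 : δ * (T : ℝ) ^ k * (3 * (T₁ : ℝ)) ^ k ≤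
            (((vecs k T₁).filter (fun g => (∀ i, g i ≠ (h : ℤ)) ∧
              kk ≤ (pV (200 * x) ((M : ℤ) * (h : ℤ)).toNat (fun i : Fin k => (M : ℤ) * g i) : ℝ))).card : ℝ) *
            (3 * (T₁ : ℝ)) ^ k := by
          refine (hδT δ₂ (min_le_right _ _)).trans (hcon.trans ?_)
          refine le_trans (by exact_mod_cast h20) (mul_le_mul_of_nonneg_left h21 (by positivity))
        refine (le_of_mul_le_mul_right h22 (by positivity)).trans ?_
        refine Nat.cast_le.2 ?_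
        refine Finset.card_le_card_of_injOn (fun g => fun i => (M : ℤ) * g i) ?_ ?_
        · intro g hg
          obtain ⟨h7, h8, h9⟩ := Finset.mem_filter.1 (Finset.mem_coe.1 hg)
          refine Finset.mem_coe.2 (Finset.mem_filter.2 ⟨vecs_mul hMZ hMT₁Z h7, ?_, ?_⟩)
          · intro i h10
            apply h8 i
            apply mul_left_cancel₀ hMZ
            have h11 : (M : ℤ) * g i = ((M * h : ℕ) : ℤ) := h10
            rw [h11]
            push_cast
            ring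
          · rw [← Nat.cast_mul, Int.toNat_natCast, hkk] at h9
            exact h9
        · intro g _ g' _ h7
          funext i
          exact mul_left_cancel₀ hMZ (congrFun h7 i)
    · intro d hd d' hd' h
      obtain ⟨-, ⟨e, rfl⟩, -⟩ := Finset.mem_filter.1 (Finset.mem_coe.1 hd)
      obtain ⟨-, ⟨e', rfl⟩, -⟩ := Finset.mem_filter.1 (Finset.mem_coe.1 hd')
      have h' : M * e / M = M * e' / M := h
      rw [Nat.mul_div_cancel_left _ (by omega), Nat.mul_div_cancel_left _ (by omega)] at h'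
      rw [h']

end FINT

theorem t_FINT : S_CLQW → S_INC → S_CORE2 → S_CB1 → S_CB2 → S_FINT := by
  intro hCLQ hINC hCORE hCB1 hCB2 k ε hε
  obtain ⟨Q, c, δ, hc, hδ, h⟩ := FINT.main k (min ε (1 / 1000)) (lt_min hε (by norm_num))
    (min_le_right _ _) hCLQ hINC hCORE hCB1 hCB2
  refine ⟨Q, c, δ, hc, hδ, fun lam hlam => ?_⟩
  obtain ⟨κ, hκ, hev⟩ := h lam hlam
  refine ⟨κ, hκ, ?_⟩
  have hmin := min_le_left ε (1 / 1000)
  filter_upwards [hev] with x hx T hT
  rcases hx T hT with h1 | ⟨q, X, h1, h2, h3, h4, h5⟩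
  · left
    intro u hu1 hu2
    refine (h1 u hu1 hu2).trans ?_
    refine mul_le_mul_of_nonneg_right ?_ (by positivity)
    linarith
  · right
    refine ⟨q, X, h1, h2, h3, h4, h5.trans ?_⟩
    exact mul_le_mul_of_nonneg_right hmin (by positivity)

end Pool.Agent.N679.RG
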