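import Pool.Agent.N679.RG.All6
import Pool.Agent.N679.RG.FINT

/-!
# Project RN6: assembly

Parts: as in `All6.lean` (RN2); FINT: helper679, after FINW (helper773).
-/

set_option autoImplicit false

namespace Pool.Agent.N679.RG

theorem fint : S_FINT :=
  t_FINT (t_CLQW t_HIT5 (t_MOM3 (Pool.Agent.N692.RQWB.main Pool.Agent.N592.RQ.main)) t_ABSK
    (Pool.Agent.N415.RQBB.main Pool.Agent.N592.RQ.main) (Pool.Agent.N591.RQ.main Pool.Agent.N595.RQ.main))
    t_INC core2 t_CB1 t_CB2

end Pool.Agent.N679.RG
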