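import Pool.Agent.N679.RG.Stm6
import Pool.Agent.N679.RG.FinA

/-!
# Project RN3: the final form of the theorem
-/

set_option autoImplicit false

namespace Pool.Agent.N679.RG

open Finset Filter Topology

open Classical in
theorem RichL_mono {k : ℕ} {δ κ κ' : ℝ} {T x x' y y' a b : ℕ} {c : ℤ} (h : RichL k δ κ T x y a b c)
    (hκ : κ' * (x' / (Real.log x') ^ (2 * k + 2)) ≤ κ * (x / (Real.log x) ^ (2 * k + 2))) (hy : y ≤ y') :
    RichL k δ κ' T x' y' a b c := by
  unfold RichL at h ⊢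
  refine h.trans ?_
  rw [Nat.cast_le]
  apply card_le_card
  intro g hg
  rw [memf'] at hg ⊢
  refine ⟨hg.1, hκ.trans (hg.2.trans ?_)⟩
  rw [Nat.cast_le]
  unfold lV
  apply card_le_card
  apply filter_subset_filter
  exact Icc_subset_Icc_right hy

open Classical in
/-- the equation `r p - d q = a` with clusters -/
theorem conclL (H : S_FINL) : ∀ r d : ℕ, 1 ≤ r → 1 ≤ d → Nat.Coprime r d → r ≠ d →
    ∀ (k : ℕ) (ε : ℝ), 0 < ε → ∃ (Q : ℕ) (c δ : ℝ), 0 < c ∧ 0 < δ ∧
    ∀ lam : ℝ, 0 < lam → ∃ κ : ℝ, 0 < κ ∧ ∀ᶠ x : ℕ in atTop, ∀ T : ℕ, lam * Real.log x ≤ T →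
      100000 * (r * T) ≤ x →
      (∀ u : ℤ, 100 * (r * |u|) ≤ x →
        (5 / 9 - ε) * (((Ioc u (u + T)).filter (fun a : ℤ => Adl r d a)).card : ℝ) ≤
          (((Ioc u (u + T)).filter (fun a : ℤ => Adl r d a ∧ RichL k δ κ T x x r d a)).card : ℝ)) ∨
      ∃ q X : ℕ, 1 ≤ q ∧ q ≤ Q ∧ c * T ≤ (X : ℝ) ∧ X ≤ T ∧
        (((Icc 1 X).filter (fun e => q ∣ e ∧ ¬ RichP (2 * k) δ κ T x ((r + d) * x) e)).card : ℝ) ≤
          ε * (X / q) := by
  intro r d hr hd hrd hne k ε hε
  obtain ⟨Q, c, δ, hc, hδ, H1⟩ := H r d hr hd hrd hne k ε hε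
  refine ⟨Q, c, δ, hc, hδ, fun lam hlam => ?_⟩
  obtain ⟨κ, hκ, H2⟩ := H1 lam hlam
  have hr1 : (1 : ℝ) ≤ r := by exact_mod_cast hr
  have hr0 : (0 : ℝ) < 200 * r := by linarith
  refine ⟨κ / (200 * r), by positivity, ?_⟩
  have ht : Tendsto (fun N : ℕ => N / (100 * r)) atTop atTop :=
    Nat.tendsto_div_const_atTop (by omega)
  filter_upwards [ht.eventually H2, ht.eventually_ge_atTop 3] with x h2 hx3 T hT1 hT2
  set x' : ℕ := x / (100 * r) with hx'
  have hm : 100 * r * x' ≤ x := Nat.mul_div_le x (100 * r)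
  have hm2 : x < 100 * r * (x' + 1) := Nat.lt_mul_div_succ x (by omega)
  have hxle : x' ≤ x := Nat.div_le_self _ _
  have hl' : 0 < Real.log (x' : ℝ) := Real.log_pos (by
    have : 1 < x' := by omega
    exact_mod_cast this)
  have hll : Real.log (x' : ℝ) ≤ Real.log (x : ℝ) := by
    apply Real.log_le_log
    · have : 0 < x' := by omega
      exact_mod_cast this
    · exact_mod_cast hxle
  have hl : 0 < Real.log (x : ℝ) := hl'.trans_le hll
  have hxx : (x : ℝ) ≤ 200 * r * (x' : ℝ) := by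
    have h3 : (x : ℝ) ≤ 100 * r * (x' + 1) := by exact_mod_cast hm2.le
    have h4 : (3 : ℝ) ≤ x' := by exact_mod_cast hx3
    nlinarith
  have hcmp : ∀ e : ℕ, κ / (200 * r) * (x / (Real.log x) ^ e) ≤ κ * ((x' : ℝ) / (Real.log (x' : ℝ)) ^ e) := by
    intro e
    have h6 : (x : ℝ) / (Real.log x) ^ e ≤ (200 * r * (x' : ℝ)) / (Real.log (x' : ℝ)) ^ e :=
      div_le_div₀ (by positivity) hxx (by positivity) (pow_le_pow_left₀ hl'.le hll e)
    calc κ / (200 * r) * (x / (Real.log x) ^ e) ≤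
        κ / (200 * r) * ((200 * r * (x' : ℝ)) / (Real.log (x' : ℝ)) ^ e) :=
          mul_le_mul_of_nonneg_left h6 (by positivity)
      _ = _ := by field_simp
  have hTx : 1000 * T ≤ x' := by
    rw [hx', Nat.le_div_iff_mul_le (by omega)]
    calc 1000 * T * (100 * r) = 100000 * (r * T) := by ring
      _ ≤ x := hT2
  rcases h2 T (le_trans (mul_le_mul_of_nonneg_left hll hlam.le) hT1) hTx with h | ⟨q, X, hq1, hq2, hX1, hX2, h⟩
  · left
    intro u hu
    have hu' : |u| ≤ (x' : ℤ) := by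
      have h3 : (u.natAbs : ℤ) = |u| := Int.natCast_natAbs u
      have h4 : 100 * (r * u.natAbs) ≤ x := by
        have : (100 * (r * (u.natAbs : ℤ)) : ℤ) ≤ x := by rw [h3]; exact hu
        exact_mod_cast this
      have h5 : u.natAbs ≤ x' := by
        rw [hx', Nat.le_div_iff_mul_le (by omega)]
        calc u.natAbs * (100 * r) = 100 * (r * u.natAbs) := by ring
          _ ≤ x := h4
      rw [← h3]
      exact_mod_cast h5
    have h1 := h u hu'
    have h7 : ((Ioc u (u + T)).filter (fun a : ℤ => Adl r d a)) ⊆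
        ((Ioc u (u + T)).filter (fun a : ℤ => Adl r d a ∧ RichL k δ (κ / (200 * r)) T x x r d a)) ∪
        ((Ioc u (u + T)).filter (fun a : ℤ => Adl r d a ∧ ¬ RichL k δ κ T x' (100 * r * x') r d a)) := by
      intro a ha
      rw [memf'] at ha
      rw [mem_union, memf', memf']
      by_cases hR : RichL k δ κ T x' (100 * r * x') r d a
      · exact Or.inl ⟨ha.1, ha.2, RichL_mono hR (hcmp _) hm⟩
      · exact Or.inr ⟨ha.1, ha.2, hR⟩
    have h8 : ((Ioc u (u + T)).filter (fun a : ℤ => Adl r d a)).card ≤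
        ((Ioc u (u + T)).filter (fun a : ℤ => Adl r d a ∧ RichL k δ (κ / (200 * r)) T x x r d a)).card +
        ((Ioc u (u + T)).filter (fun a : ℤ => Adl r d a ∧ ¬ RichL k δ κ T x' (100 * r * x') r d a)).card :=
      (card_le_card h7).trans (card_union_le _ _)
    have h9 : (((Ioc u (u + T)).filter (fun a : ℤ => Adl r d a)).card : ℝ) ≤
        (((Ioc u (u + T)).filter (fun a : ℤ => Adl r d a ∧ RichL k δ (κ / (200 * r)) T x x r d a)).card : ℝ) +
        (((Ioc u (u + T)).filter (fun a : ℤ => Adl r d a ∧ ¬ RichL k δ κ T x' (100 * r * x') r d a)).card : ℝ) := by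
      exact_mod_cast h8
    linarith
  · right
    refine ⟨q, X, hq1, hq2, hX1, hX2, ?_⟩
    refine le_trans ?_ h
    rw [Nat.cast_le]
    apply card_le_card
    intro e he
    rw [memf'] at he ⊢
    refine ⟨he.1, he.2.1, fun h7 => he.2.2 (RichP_mono h7 (hcmp _) ?_)⟩
    calc 100 * (r + d) * x' = 100 * x' * (r + d) := by ring
      _ ≤ x * (r + d) := by
          apply Nat.mul_le_mul_right
          refine le_trans ?_ hm
          have : x' ≤ r * x' := Nat.le_mul_of_pos_left _ (by omega)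
          calc 100 * x' ≤ 100 * (r * x') := by omega
            _ = 100 * r * x' := by ring
      _ = (r + d) * x := by ring

end Pool.Agent.N679.RG
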