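import Mathlib
import Pool.Agent.N679.RG.FINT
import Pool.Agent.N679.RG.FinA

/-!
# Project RN6: the final form of the theorem (shifts `d, e i`, with the factor `d / φ(d)`)
-/

set_option autoImplicit false

namespace Pool.Agent.N679.RG

open Finset Filter Topology

/-- the vectors of `k` different integers in `[d - T, d + T]`, different from `d` -/
noncomputable def nearV (k T d : ℕ) : Finset (Fin k → ℤ) :=
  (Fintype.piFinset (fun _ : Fin k => Icc ((d : ℤ) - T) (d + T))).filter
    (fun e => Function.Injective e ∧ ∀ i, e i ≠ (d : ℤ))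

/-- the number of the primes `p ≤ x` such that `p - d` and all `p - e i` are prime -/
def cV {k : ℕ} (x d : ℕ) (e : Fin k → ℤ) : ℕ :=
  ((Icc 1 x).filter (fun p : ℕ => p.Prime ∧ ((p : ℤ) - d).toNat.Prime ∧ ∀ i, ((p : ℤ) - e i).toNat.Prime)).card

open Classical in
/-- many `e` with the right order of magnitude (with the factor `d / φ(d)`) -/
def RichN (k : ℕ) (δ κ : ℝ) (T x d : ℕ) : Prop :=
  δ * (T : ℝ) ^ k ≤ (((nearV k T d).filter (fun e =>
    κ * ((d : ℝ) / Nat.totient d * (x / (Real.log x) ^ (k + 2))) ≤ (cV x d e : ℝ))).card : ℝ)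

open Classical in
/-- many `e` with the right order of magnitude -/
def SmallN (k : ℕ) (δ κ : ℝ) (T x d : ℕ) : Prop :=
  δ * (T : ℝ) ^ k ≤ (((nearV k T d).filter (fun e => (∀ i, e i ≠ 0) ∧
    κ * (x / (Real.log x) ^ (k + 2)) ≤ (cV x d e : ℝ))).card : ℝ)

theorem pV_cV {k X x d : ℕ} (h : Fin k → ℤ) (hX : X + d ≤ x) :
    pV X d h ≤ cV x d (fun i => (d : ℤ) - h i) := by
  unfold pV cV
  refine Finset.card_le_card_of_injOn (fun p => p + d) ?_ ?_
  · intro p hp
    obtain ⟨h1, h2, h3, h4⟩ := Finset.mem_filter.1 (Finset.mem_coe.1 hp)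
    obtain ⟨h5, h6⟩ := Finset.mem_Icc.1 h1
    refine Finset.mem_coe.2 (Finset.mem_filter.2 ⟨Finset.mem_Icc.2 ⟨by
      show 1 ≤ p + d
      omega, by
      show p + d ≤ x
      omega⟩, h3, ?_, ?_⟩)
    · have h7 : (((p + d : ℕ) : ℤ) - d) = (p : ℤ) := by push_cast; ring
      rw [h7, Int.toNat_natCast]
      exact h2
    · intro i
      have h7 : (((p + d : ℕ) : ℤ) - ((d : ℤ) - h i)) = (p : ℤ) + h i := by push_cast; ring
      show ((((p + d : ℕ) : ℤ) - ((d : ℤ) - h i))).toNat.Prime
      rw [h7]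
      exact h4 i
  · intro p _ p' _ h7
    have h8 : p + d = p' + d := h7
    omega

theorem near_of_vecs {k T d : ℕ} {h : Fin k → ℤ} (hh : h ∈ vecs k T) :
    (fun i => (d : ℤ) - h i) ∈ nearV k T d := by
  obtain ⟨h1, h2, h3⟩ := FINW.mem_vecs.1 hh
  unfold nearV
  rw [Finset.mem_filter, Fintype.mem_piFinset]
  refine ⟨fun i => ?_, ?_, ?_⟩
  · rw [Finset.mem_Icc]
    have := h1 i
    constructor <;> omega
  · intro i j hij
    have h4 : (d : ℤ) - h i = (d : ℤ) - h j := hij
    exact h2 (by omega)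
  · intro i h4
    have h5 : (d : ℤ) - h i = (d : ℤ) := h4
    exact h3 i (by omega)

open Classical in
/-- differences, one cluster -/
theorem conclN (H : S_FINT) (P : S_PHI) : ∀ (k : ℕ) (ε : ℝ), 0 < ε → ∃ (Q : ℕ) (c δ : ℝ), 0 < c ∧ 0 < δ ∧
    ∀ lam : ℝ, 0 < lam → ∃ κ : ℝ, 0 < κ ∧ ∀ᶠ x : ℕ in atTop, ∀ T : ℕ, lam * Real.log x ≤ T →
      (∀ u : ℕ, 2 * T ≤ u → 400 * u ≤ x →
        (5 / 9 - ε) * (T / 2) ≤ (((Ioc u (u + T)).filter (fun d => Even d ∧ RichN k δ κ T x d)).card : ℝ)) ∨
      ∃ q X : ℕ, 1 ≤ q ∧ q ≤ Q ∧ c * T ≤ (X : ℝ) ∧ X ≤ T ∧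
        (((Icc 1 X).filter (fun d => q ∣ d ∧ ¬ SmallN k δ κ T x d)).card : ℝ) ≤ ε * (X / q) := by
  intro k ε hε
  obtain ⟨Q, c, δ, hc, hδ, H1⟩ := H k (ε / 8) (by positivity)
  refine ⟨Q, c, δ, hc, hδ, fun lam hlam => ?_⟩
  obtain ⟨κ, hκ, H2⟩ := H1 lam hlam
  obtain ⟨C, hC, H3⟩ := P (ε / 8) lam (by positivity) hlam
  obtain ⟨U, H3⟩ := eventually_atTop.1 H3
  have hC1 : (1 : ℝ) ≤ max C 1 := le_max_right _ _
  have hC0 : (0 : ℝ) < max C 1 := by linarith
  refine ⟨κ / 800 / max C 1, by positivity, ?_⟩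
  have hlog : Tendsto (fun N : ℕ => lam * Real.log (N : ℝ)) atTop atTop :=
    (Real.tendsto_log_atTop.comp tendsto_natCast_atTop_atTop).const_mul_atTop hlam
  have ht : Tendsto (fun N : ℕ => N / 400) atTop atTop :=
    Nat.tendsto_div_const_atTop (by norm_num)
  filter_upwards [ht.eventually H2, hlog.eventually_ge_atTop (2 / ε), hlog.eventually_ge_atTop (U : ℝ),
    hlog.eventually_ge_atTop (3 : ℝ), eventually_ge_atTop 1200] with x h2 h4 hU hU3 h5 T hT1
  by_cases hTx : x < 800 * T
  · left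
    intro u hu1 hu2
    omega
  -- comparison of `x` and `x / 400`
  have hx3 : 3 ≤ x / 400 := by omega
  have hxle : x / 400 ≤ x := Nat.div_le_self _ _
  have hl' : 0 < Real.log ((x / 400 : ℕ) : ℝ) := Real.log_pos (by
    have : 1 < x / 400 := by omega
    exact_mod_cast this)
  have hll : Real.log ((x / 400 : ℕ) : ℝ) ≤ Real.log (x : ℝ) := by
    apply Real.log_le_log
    · have : 0 < x / 400 := by omega
      exact_mod_cast this
    · exact_mod_cast hxle
  have hl : 0 < Real.log (x : ℝ) := hl'.trans_le hll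
  have hxx : (x : ℝ) ≤ 800 * ((x / 400 : ℕ) : ℝ) := by
    have : x ≤ 800 * (x / 400) := by omega
    exact_mod_cast this
  have hcmp : ∀ r : ℕ, κ / 800 * (x / (Real.log x) ^ r) ≤
      κ * (((x / 400 : ℕ) : ℝ) / (Real.log ((x / 400 : ℕ) : ℝ)) ^ r) := by
    intro r
    have h6 : (x : ℝ) / (Real.log x) ^ r ≤ (800 * ((x / 400 : ℕ) : ℝ)) / (Real.log ((x / 400 : ℕ) : ℝ)) ^ r :=
      div_le_div₀ (by positivity) hxx (by positivity) (pow_le_pow_left₀ hl'.le hll r)
    calc κ / 800 * (x / (Real.log x) ^ r) ≤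
        κ / 800 * ((800 * ((x / 400 : ℕ) : ℝ)) / (Real.log ((x / 400 : ℕ) : ℝ)) ^ r) :=
          mul_le_mul_of_nonneg_left h6 (by positivity)
      _ = _ := by ring
  rcases h2 T (le_trans (mul_le_mul_of_nonneg_left hll hlam.le) hT1) with h | ⟨q, X, hq1, hq2, hX1, hX2, h⟩
  · left
    intro u hu1 hu2
    have hu3 : u ≤ x / 400 := by omega
    have hTU : U ≤ T := by
      have : (U : ℝ) ≤ T := hU.trans hT1
      exact_mod_cast this
    have hT3 : 3 ≤ T := by
      have : (3 : ℝ) ≤ T := hU3.trans hT1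
      exact_mod_cast this
    have hlu : lam * Real.log (u : ℝ) ≤ T := by
      refine le_trans (mul_le_mul_of_nonneg_left ?_ hlam.le) hT1
      apply Real.log_le_log
      · have : 0 < u := by omega
        exact_mod_cast this
      · have : u ≤ x := by omega
        exact_mod_cast this
    refine good_of_bad u T ε C (RichP k δ κ T (x / 400) (100 * (x / 400))) _ ?_ (h u hu1 hu3)
      (H3 u (by omega) T hlu (by omega)) ?_
    · have : 2 / ε ≤ T := h4.trans hT1
      rwa [div_le_iff₀' hε] at this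
    · intro m hm hmC hR
      unfold RichP at hR
      unfold RichN
      refine hR.trans ?_
      rw [Nat.cast_le]
      have hm' := mem_Ioc.1 hm
      have hm1 : 3 < m := by omega
      have hm0 : (0 : ℝ) < m := by
        have : 0 < m := by omega
        exact_mod_cast this
      have hφ : (0 : ℝ) < Nat.totient m := by
        have : 0 < Nat.totient m := Nat.totient_pos.2 (by omega)
        exact_mod_cast this
      have e : κ / 800 / max C 1 * ((m : ℝ) / Nat.totient m * (x / (Real.log x) ^ (k + 2))) =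
          (κ / 800 * (x / (Real.log x) ^ (k + 2))) * ((m : ℝ) / (max C 1 * Nat.totient m)) := by
        field_simp
      refine Finset.card_le_card_of_injOn (fun v => (fun i => (m : ℤ) - v i)) ?_ ?_
      · intro v hv
        have hv' := Finset.mem_coe.1 hv
        rw [memf'] at hv'
        obtain ⟨h7, -, h8⟩ := hv'
        apply Finset.mem_coe.2
        rw [memf']
        refine ⟨near_of_vecs h7, ?_⟩
        rw [e]
        refine le_trans (mul_le_of_le_one_right (by positivity) ?_) ((hcmp _).trans (h8.trans ?_))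
        · rw [div_le_one (by positivity)]
          refine hmC.trans ?_
          exact mul_le_mul_of_nonneg_right (le_max_left _ _) hφ.le
        · rw [Nat.cast_le]
          exact pV_cV v (by omega)
      · intro v _ v' _ h7
        funext i
        have h8 : (m : ℤ) - v i = (m : ℤ) - v' i := congrFun h7 i
        omega
  · right
    refine ⟨q, X, hq1, hq2, hX1, hX2, ?_⟩
    have h6 : (((Icc 1 X).filter (fun d => q ∣ d ∧
        ¬ SmallN k δ (κ / 800 / max C 1) T x d)).card : ℝ) ≤
        (((Icc 1 X).filter (fun d => q ∣ d ∧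
          ¬ RichP k δ κ T (x / 400) (200 * (x / 400)) d)).card : ℝ) := by
      rw [Nat.cast_le]
      apply card_le_card
      intro d hd
      rw [memf'] at hd ⊢
      refine ⟨hd.1, hd.2.1, fun h7 => hd.2.2 ?_⟩
      have hdX := (mem_Icc.1 hd.1).2
      unfold RichP at h7
      unfold SmallN
      refine h7.trans ?_
      rw [Nat.cast_le]
      refine Finset.card_le_card_of_injOn (fun v => (fun i => (d : ℤ) - v i)) ?_ ?_
      · intro v hv
        have hv' := Finset.mem_coe.1 hv
        rw [memf'] at hv'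
        obtain ⟨h8, h9, h10⟩ := hv'
        apply Finset.mem_coe.2
        rw [memf']
        refine ⟨near_of_vecs h8, ?_, ?_⟩
        · intro i h11
          have h12 : (d : ℤ) - v i = 0 := h11
          exact h9 i (by omega)
        · refine le_trans (mul_le_mul_of_nonneg_right ?_ (by positivity))
            ((hcmp _).trans (h10.trans ?_))
          · exact div_le_self (by positivity) hC1
          · rw [Nat.cast_le]
            exact pV_cV v (by omega)
      · intro v _ v' _ h8
        funext i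
        have h9 : (d : ℤ) - v i = (d : ℤ) - v' i := congrFun h8 i
        omega
    refine h6.trans (h.trans ?_)
    have : (0 : ℝ) ≤ (X : ℝ) / q := by positivity
    nlinarith

end Pool.Agent.N679.RG
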