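import Mathlib

set_option linter.all false

namespace Pool.Agent.N679.RG

open Finset

/-- `∏_{p ∈ S} (1 - 1/p²) ≥ 1/2` for every finite set `S ⊆ [2,n]`. -/
lemma prodA (n : ℕ) : (1 : ℝ) / 2 ≤ ∏ k ∈ Finset.Icc 2 (n + 1), (1 - 1 / (k : ℝ) ^ 2) := by
  have key : ∀ n : ℕ, ∏ k ∈ Finset.Icc 2 (n + 1), (1 - 1 / (k : ℝ) ^ 2)
      = ((n : ℝ) + 2) / (2 * ((n : ℝ) + 1)) := by
    intro n
    induction n with
    | zero => simp
    | succ n ih =>
      rw [Finset.prod_Icc_succ_top (by omega), ih]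
      push_cast
      have h1 : (n : ℝ) + 1 ≠ 0 := by positivity
      have h2 : (n : ℝ) + 1 + 1 ≠ 0 := by positivity
      field_simp
      ring
  rw [key n, div_le_div_iff₀ (by norm_num) (by positivity)]
  linarith

lemma prodB (m : ℕ) : (1 : ℝ) / 2 ≤ ∏ p ∈ m.primeFactors, (1 - 1 / (p : ℝ) ^ 2) := by
  refine (prodA m).trans ?_
  have hsub : m.primeFactors ⊆ Finset.Icc 2 (m + 1) := by
    intro p hp
    have hp1 := Nat.prime_of_mem_primeFactors hp
    have hp2 := Nat.le_of_mem_primeFactors hp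
    simp only [Finset.mem_Icc]
    exact ⟨hp1.two_le, by omega⟩
  rw [← Finset.prod_sdiff hsub]
  have h1 : ∏ k ∈ Finset.Icc 2 (m + 1) \ m.primeFactors, (1 - 1 / (k : ℝ) ^ 2) ≤ 1 := by
    apply Finset.prod_le_one
    · intro k hk
      have hk2 : 2 ≤ k := (Finset.mem_Icc.1 (Finset.mem_sdiff.1 hk).1).1
      have : (2 : ℝ) ≤ k := by exact_mod_cast hk2
      rw [sub_nonneg, div_le_one (by positivity)]
      nlinarith
    · intro k hk
      have : (0 : ℝ) ≤ 1 / (k : ℝ) ^ 2 := by positivity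
      linarith
  have h2 : 0 ≤ ∏ p ∈ m.primeFactors, (1 - 1 / (p : ℝ) ^ 2) := by
    apply Finset.prod_nonneg
    intro k hk
    have hk2 : 2 ≤ k := (Nat.prime_of_mem_primeFactors hk).two_le
    have : (2 : ℝ) ≤ k := by exact_mod_cast hk2
    rw [sub_nonneg, div_le_one (by positivity)]
    nlinarith
  calc _ ≤ 1 * ∏ p ∈ m.primeFactors, (1 - 1 / (p : ℝ) ^ 2) :=
        mul_le_mul_of_nonneg_right h1 h2
    _ = _ := one_mul _

lemma prodC (m : ℕ) (hm : m ≠ 0) :
    ∏ p ∈ m.primeFactors, (1 + 1 / (p : ℝ)) ≤ ∑ d ∈ m.divisors, 1 / (d : ℝ) := by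
  rw [Finset.prod_one_add]
  calc ∑ t ∈ m.primeFactors.powerset, ∏ i ∈ t, 1 / (i : ℝ)
      = ∑ t ∈ m.primeFactors.powerset, 1 / (((∏ i ∈ t, i : ℕ)) : ℝ) := by
        apply Finset.sum_congr rfl
        intro t ht
        push_cast
        rw [Finset.prod_div_distrib]
        simp
    _ = ∑ d ∈ m.primeFactors.powerset.image (fun t => ∏ i ∈ t, i), 1 / (d : ℝ) := by
        rw [Finset.sum_image]
        intro s hs t ht hst
        simp only at hst
        have h1 : (∏ i ∈ s, i).primeFactors = s := by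
          apply Nat.primeFactors_prod
          intro p hp
          exact Nat.prime_of_mem_primeFactors ((Finset.mem_powerset.1 hs) hp)
        have h2 : (∏ i ∈ t, i).primeFactors = t := by
          apply Nat.primeFactors_prod
          intro p hp
          exact Nat.prime_of_mem_primeFactors ((Finset.mem_powerset.1 ht) hp)
        rw [← h1, ← h2, hst]
    _ ≤ ∑ d ∈ m.divisors, 1 / (d : ℝ) := by
        apply Finset.sum_le_sum_of_subset_of_nonneg
        · intro d hd
          obtain ⟨t, ht, rfl⟩ := Finset.mem_image.1 hd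
          rw [Nat.mem_divisors]
          refine ⟨?_, hm⟩
          exact (Finset.prod_dvd_prod_of_subset _ _ _ (Finset.mem_powerset.1 ht)).trans
            (Nat.prod_primeFactors_dvd m)
        · intro d _ _
          positivity

/-- `m ≤ 2 φ(m) ∑_{d ∣ m} 1/d`. -/
lemma phiA (m : ℕ) (hm : m ≠ 0) :
    (m : ℝ) ≤ 2 * (Nat.totient m : ℝ) * ∑ d ∈ m.divisors, 1 / (d : ℝ) := by
  have h0 : (Nat.totient m : ℝ) = m * ∏ p ∈ m.primeFactors, (1 - (p : ℝ)⁻¹) := by
    have := Nat.totient_eq_mul_prod_factors m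
    have h : ((Nat.totient m : ℚ) : ℝ) = ((m * ∏ p ∈ m.primeFactors, (1 - (p : ℚ)⁻¹) : ℚ) : ℝ) := by
      rw [this]
    push_cast at h
    exact h
  have hB := prodB m
  have hC := prodC m hm
  have hm0 : (0 : ℝ) < m := by exact_mod_cast Nat.pos_of_ne_zero hm
  have hprod : ∏ p ∈ m.primeFactors, (1 - 1 / (p : ℝ) ^ 2)
      = (∏ p ∈ m.primeFactors, (1 - (p : ℝ)⁻¹)) * ∏ p ∈ m.primeFactors, (1 + 1 / (p : ℝ)) := by
    rw [← Finset.prod_mul_distrib]
    apply Finset.prod_congr rfl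
    intro p hp
    have : (p : ℝ) ≠ 0 := by
      exact_mod_cast (Nat.prime_of_mem_primeFactors hp).ne_zero
    field_simp
    ring
  have hpos : 0 ≤ ∏ p ∈ m.primeFactors, (1 - (p : ℝ)⁻¹) := by
    apply Finset.prod_nonneg
    intro p hp
    have h2 : (1 : ℝ) ≤ p := by exact_mod_cast (Nat.prime_of_mem_primeFactors hp).one_le
    rw [sub_nonneg]
    exact inv_le_one_of_one_le₀ h2
  rw [h0]
  rw [hprod] at hB
  have h3 := mul_le_mul_of_nonneg_left hC hpos
  have h4 : (1 : ℝ) / 2 ≤ (∏ p ∈ m.primeFactors, (1 - (p : ℝ)⁻¹)) * ∑ d ∈ m.divisors, 1 / (d : ℝ) :=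
    hB.trans h3
  have h5 := mul_le_mul_of_nonneg_left h4 hm0.le
  nlinarith [h5]

lemma cntA (x T d : ℕ) (hd : 0 < d) :
    (((Finset.Ioc x (x + T)).filter (fun m => d ∣ m)).card : ℝ) ≤ (T : ℝ) / d + 1 := by
  have h1 : ((Finset.Ioc 0 (x + T)).filter (fun m => d ∣ m)).card = (x + T) / d :=
    Nat.Ioc_filter_dvd_card_eq_div _ _
  have h2 : ((Finset.Ioc 0 x).filter (fun m => d ∣ m)).card = x / d :=
    Nat.Ioc_filter_dvd_card_eq_div _ _
  have h3 : ((Finset.Ioc 0 (x + T)).filter (fun m => d ∣ m)).card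
      = ((Finset.Ioc 0 x).filter (fun m => d ∣ m)).card
        + ((Finset.Ioc x (x + T)).filter (fun m => d ∣ m)).card := by
    rw [← Finset.card_union_of_disjoint, ← Finset.filter_union,
      Finset.Ioc_union_Ioc_eq_Ioc (Nat.zero_le _) (Nat.le_add_right _ _)]
    rw [Finset.disjoint_left]
    intro a ha hb
    simp only [Finset.mem_filter, Finset.mem_Ioc] at ha hb
    omega
  have h4 : ((Finset.Ioc x (x + T)).filter (fun m => d ∣ m)).card ≤ T / d + 1 := by
    have h5 : (x + T) / d ≤ x / d + T / d + 1 := by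
      have := Nat.add_div_le_add_div x T d
      have h6 : (x + T) / d = x / d + T / d + if d ≤ x % d + T % d then 1 else 0 :=
        Nat.add_div hd
      rw [h6]
      split_ifs <;> omega
    omega
  calc (((Finset.Ioc x (x + T)).filter (fun m => d ∣ m)).card : ℝ)
      ≤ ((T / d + 1 : ℕ) : ℝ) := by exact_mod_cast h4
    _ = ((T / d : ℕ) : ℝ) + 1 := by push_cast; ring
    _ ≤ (T : ℝ) / d + 1 := by
        have := @Nat.cast_div_le ℝ _ _ _ T d
        linarith

lemma sqA (N : ℕ) : ∑ d ∈ Finset.Icc 1 N, 1 / ((d : ℝ) * d) ≤ 2 := by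
  have key : ∀ N : ℕ, ∑ d ∈ Finset.Icc 1 (N + 1), 1 / ((d : ℝ) * d) ≤ 2 - 1 / ((N : ℝ) + 1) := by
    intro N
    induction N with
    | zero => norm_num
    | succ N ih =>
      rw [Finset.sum_Icc_succ_top (by omega)]
      push_cast
      have h1 : (0 : ℝ) < (N : ℝ) + 1 := by positivity
      have h2 : (0 : ℝ) < (N : ℝ) + 1 + 1 := by positivity
      have h3 : 1 / (((N : ℝ) + 1 + 1) * ((N : ℝ) + 1 + 1)) ≤ 1 / ((N : ℝ) + 1) - 1 / ((N : ℝ) + 1 + 1) := by
        rw [div_sub_div _ _ h1.ne' h2.ne', div_le_div_iff₀ (by positivity) (by positivity)]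
        nlinarith
      linarith
  rcases N with _ | N
  · simp
  · have := key N
    have h1 : (0 : ℝ) < 1 / ((N : ℝ) + 1) := by positivity
    linarith

lemma harmA (N : ℕ) : ∑ d ∈ Finset.Icc 1 N, 1 / (d : ℝ) ≤ 1 + Real.log N := by
  have h := harmonic_le_one_add_log N
  rw [harmonic_eq_sum_Icc] at h
  push_cast at h
  simpa using h

lemma winA (x T : ℕ) :
    ∑ m ∈ Finset.Ioc x (x + T), ∑ d ∈ m.divisors, 1 / (d : ℝ)
      ≤ 2 * T + (1 + Real.log ((x + T : ℕ) : ℝ)) := by
  have h1 : ∑ m ∈ Finset.Ioc x (x + T), ∑ d ∈ m.divisors, 1 / (d : ℝ)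
      = ∑ d ∈ Finset.Icc 1 (x + T),
        (((Finset.Ioc x (x + T)).filter (fun m => d ∣ m)).card : ℝ) * (1 / (d : ℝ)) := by
    have : ∀ m ∈ Finset.Ioc x (x + T), ∑ d ∈ m.divisors, 1 / (d : ℝ)
        = ∑ d ∈ Finset.Icc 1 (x + T), if d ∣ m then 1 / (d : ℝ) else 0 := by
      intro m hm
      rw [← Finset.sum_filter]
      apply Finset.sum_congr _ (fun _ _ => rfl)
      ext d
      simp only [Finset.mem_Ioc] at hm
      simp only [Nat.mem_divisors, Finset.mem_filter, Finset.mem_Icc]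
      constructor
      · rintro ⟨hd, hm0⟩
        exact ⟨⟨Nat.pos_of_dvd_of_pos hd (by omega), (Nat.le_of_dvd (by omega) hd).trans hm.2⟩, hd⟩
      · rintro ⟨_, hd⟩
        exact ⟨hd, by omega⟩
    rw [Finset.sum_congr rfl this, Finset.sum_comm]
    apply Finset.sum_congr rfl
    intro d hd
    rw [← Finset.sum_filter, Finset.sum_const, nsmul_eq_mul]
  rw [h1]
  calc ∑ d ∈ Finset.Icc 1 (x + T),
        (((Finset.Ioc x (x + T)).filter (fun m => d ∣ m)).card : ℝ) * (1 / (d : ℝ))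
      ≤ ∑ d ∈ Finset.Icc 1 (x + T), ((T : ℝ) * (1 / ((d : ℝ) * d)) + 1 / (d : ℝ)) := by
        apply Finset.sum_le_sum
        intro d hd
        have hd1 : 0 < d := (Finset.mem_Icc.1 hd).1
        have hd0 : (0 : ℝ) < d := by exact_mod_cast hd1
        have h2 := cntA x T d hd1
        have h3 := mul_le_mul_of_nonneg_right h2 (by positivity : (0 : ℝ) ≤ 1 / (d : ℝ))
        refine h3.trans (le_of_eq ?_)
        field_simp
    _ = (T : ℝ) * ∑ d ∈ Finset.Icc 1 (x + T), 1 / ((d : ℝ) * d)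
          + ∑ d ∈ Finset.Icc 1 (x + T), 1 / (d : ℝ) := by
        rw [Finset.sum_add_distrib, Finset.mul_sum]
    _ ≤ (T : ℝ) * 2 + (1 + Real.log ((x + T : ℕ) : ℝ)) := by
        have h4 := mul_le_mul_of_nonneg_left (sqA (x + T)) (Nat.cast_nonneg T : (0 : ℝ) ≤ T)
        have h5 := harmA (x + T)
        linarith
    _ = _ := by ring

/-- In every window of length `T ≥ lam log x` few `m` have `m/φ(m) > C`. -/
theorem phi_window : ∀ ε lam : ℝ, 0 < ε → 0 < lam → ∃ C : ℝ, 0 < C ∧ ∀ᶠ x : ℕ in Filter.atTop,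
    ∀ T : ℕ, lam * Real.log x ≤ T → T ≤ x →
      (((Finset.Ioc x (x + T)).filter (fun m : ℕ => C * (Nat.totient m : ℝ) < m)).card : ℝ)
        ≤ ε * T := by
  intro ε lam hε hlam
  refine ⟨4 * (1 + 1 / lam) / ε, by positivity, ?_⟩
  have hlog : ∀ᶠ x : ℕ in Filter.atTop, (2 : ℝ) ≤ Real.log x :=
    (Real.tendsto_log_atTop.comp tendsto_natCast_atTop_atTop).eventually_ge_atTop 2
  filter_upwards [hlog, Filter.eventually_ge_atTop 1] with x hx hx1 T hT hTx
  set C : ℝ := 4 * (1 + 1 / lam) / ε with hC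
  have hCpos : 0 < C := by positivity
  set B := (Finset.Ioc x (x + T)).filter (fun m : ℕ => C * (Nat.totient m : ℝ) < m) with hB
  have hx0 : (0 : ℝ) < x := by exact_mod_cast hx1
  -- upper bound
  have h1 : ∑ m ∈ Finset.Ioc x (x + T), ∑ d ∈ m.divisors, 1 / (d : ℝ)
      ≤ 2 * T * (1 + 1 / lam) := by
    refine (winA x T).trans ?_
    have h2 : Real.log ((x + T : ℕ) : ℝ) ≤ Real.log 2 + Real.log x := by
      rw [← Real.log_mul (by norm_num) hx0.ne']
      apply Real.log_le_log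
      · push_cast; positivity
      · have : (T : ℝ) ≤ x := by exact_mod_cast hTx
        push_cast; linarith
    have h3 : Real.log 2 ≤ 1 := by
      have := Real.log_two_lt_d9
      linarith
    have h4 : Real.log x ≤ T / lam := by
      rw [le_div_iff₀ hlam]; linarith
    have h5 : 2 * (T : ℝ) * (1 + 1 / lam) = 2 * T + 2 * (T / lam) := by
      field_simp
    rw [h5]
    linarith
  -- lower bound
  have h2 : (B.card : ℝ) * (C / 2) ≤ ∑ m ∈ Finset.Ioc x (x + T), ∑ d ∈ m.divisors, 1 / (d : ℝ) := by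
    calc (B.card : ℝ) * (C / 2) = ∑ m ∈ B, C / 2 := by
          rw [Finset.sum_const, nsmul_eq_mul]
      _ ≤ ∑ m ∈ B, ∑ d ∈ m.divisors, 1 / (d : ℝ) := by
          apply Finset.sum_le_sum
          intro m hm
          have hm1 := (Finset.mem_filter.1 hm).1
          have hm2 := (Finset.mem_filter.1 hm).2
          have hm0 : m ≠ 0 := by
            have := (Finset.mem_Ioc.1 hm1).1
            omega
          have h3 := phiA m hm0
          have hφ : (0 : ℝ) < Nat.totient m := by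
            exact_mod_cast Nat.totient_pos.2 (Nat.pos_of_ne_zero hm0)
          have h4 : C * (Nat.totient m : ℝ)
              < 2 * (Nat.totient m : ℝ) * ∑ d ∈ m.divisors, 1 / (d : ℝ) := lt_of_lt_of_le hm2 h3
          have h5 : (Nat.totient m : ℝ) * C
              < (Nat.totient m : ℝ) * (2 * ∑ d ∈ m.divisors, 1 / (d : ℝ)) := by
            calc _ = C * (Nat.totient m : ℝ) := by ring
              _ < _ := h4
              _ = _ := by ring
          have h6 := lt_of_mul_lt_mul_left h5 hφ.le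
          linarith
      _ ≤ _ := by
          apply Finset.sum_le_sum_of_subset_of_nonneg (Finset.filter_subset _ _)
          intro m _ _
          exact Finset.sum_nonneg (fun d _ => by positivity)
  have h3 : (B.card : ℝ) * (C / 2) ≤ 2 * T * (1 + 1 / lam) := h2.trans h1
  have h4 : 2 * (T : ℝ) * (1 + 1 / lam) = (ε * T) * (C / 2) := by
    rw [hC]
    field_simp
    ring
  rw [h4] at h3
  exact le_of_mul_le_mul_right h3 (by positivity)

end Pool.Agent.N679.RG
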